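import Mathlib
import Pool.Agent.Lib.MP_d57abb_nt.All.FDefs
import Pool.Agent.Lib.MP_d57abb_nt.Ev.Defs2

/-!
# Definitions: the exact number of prime factors (every large even number)
-/

namespace Pool.Agent.Lib.MP_d57abb_nt.EE

open Finset Pool.Agent.Lib.MP_d57abb_nt Pool.Agent.Lib.MP_d57abb_nt.All Pool.Agent.Lib.MP_d57abb_nt.AP
  Pool.Agent.Lib.MP_d57abb_nt.Ev ArithmeticFunction

/-- the vertices: three groups of `n` -/
abbrev V (n : ℕ) : Type := Fin 3 × Fin n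

/-- first coordinate of the vectors of a group -/
def xc (g : Fin 3) : ℕ := if g = 2 then 2 else 1

/-- the cross pairs -/
def EC (n : ℕ) : Finset (V n × V n) := univ.filter (fun e => e.1.1 < e.2.1)

/-- the determinant of the vectors `(xc u.1, y u)`, `(xc v.1, y v)` for `u.1 < v.1` (then `xc u.1 = 1`) -/
def hd {n : ℕ} (y : V n → ℕ) (u v : V n) : ℕ := y v - xc v.1 * y u

/-- a labelled configuration: all cross determinants are products of primes `± 1 (mod 5)`, pairwise coprime,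
with prescribed number of prime factors -/
structure Cfg {n : ℕ} (L : V n → V n → ℕ) (y : V n → ℕ) : Prop where
  odd : ∀ v : V n, v.1 = 2 → y v % 2 = 1
  lt : ∀ u v : V n, u.1 < v.1 → xc v.1 * y u < y v
  spl : ∀ u v : V n, u.1 < v.1 → Spl (hd y u v)
  om : ∀ u v : V n, u.1 < v.1 → cardFactors (hd y u v) = L u v
  cop : ∀ u v u' v' : V n, u.1 < v.1 → u'.1 < v'.1 → (u, v) ≠ (u', v') →
    Nat.Coprime (hd y u v) (hd y u' v')

/-- the number of prime factors `≤ w`, with multiplicity -/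
def sOm (w m : ℕ) : ℕ := ∑ p ∈ m.primeFactors.filter (fun p => p ≤ w), m.factorization p

/-- the number of prime factors `> w`, with multiplicity -/
def bOm (w m : ℕ) : ℕ := ∑ p ∈ m.primeFactors.filter (fun p => w < p), m.factorization p

/-- the vector of `v` in the base frame `(1, B), (0, 1)` -/
def Xs {n : ℕ} (y : V n → ℕ) (B : ℕ) (v : V n) : ℤ × ℤ := ((xc v.1 : ℤ), ((xc v.1 * B + y v : ℕ) : ℤ))

/-- the vector of `v` in the frame `(a, b), (c, (1 + b c) / a)` -/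
def Xv {n : ℕ} (y : V n → ℕ) (a b c : ℕ) (v : V n) : ℤ × ℤ := zv a b c (xc v.1) (y v)

/-- the base data: residue `B` modulo `(w!)^E`, number `F` of small prime factors, common divisors `δ` -/
structure BaseP {n : ℕ} (L : V n → V n → ℕ) (y : V n → ℕ) (B w E F : ℕ) (δ : V n → V n → ℤ × ℤ) : Prop where
  cfg : Cfg L y
  hw : 24 * n ≤ w
  hy : ∀ v, y v ≤ w
  E1 : 1 ≤ E
  hE : ∀ v, nm (Xs y B v) < 2 ^ E
  sm : ∀ v, sOm w (nm (Xs y B v)).natAbs = F
  hG : ∀ u v : V n, u.1 < v.1 → hd y u v ∣ w.factorial ^ E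
  tp : ∀ u v : V n, u.1 < v.1 → TP (δ u v)
  nd : ∀ u v : V n, u.1 < v.1 → nm (δ u v) = hd y u v
  d1 : ∀ u v : V n, u.1 < v.1 → ∃ x, ml (δ u v) x = Xs y B u
  d2 : ∀ u v : V n, u.1 < v.1 → ∃ x, ml (δ u v) x = Xs y B v

open Classical in
/-- the sifted family -/
noncomputable def SiftE {n : ℕ} (y : V n → ℕ) (a G B w z : ℕ) : Finset (ℕ × ℕ) :=
  (Fam a G B).filter (fun x => ∀ q ∈ Pz z, w < q → ∀ v : V n, ¬ (q : ℤ) ∣ nm (Xv y a x.1 x.2 v))

/-- the sifted family for all primes `a ≡ 1 (mod G)` in `(A / 2, A]` -/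
noncomputable def SSE {n : ℕ} (y : V n → ℕ) (A G B w z : ℕ) : Finset (Σ _ : ℕ, ℕ × ℕ) :=
  ((Ioc (A / 2) A).filter (fun a => a.Prime ∧ a ≡ 1 [MOD G])).sigma (fun a => SiftE y a G B w z)

/-- the residues modulo `q` which are bad for the vertex `v` -/
def badv {n : ℕ} (y : V n → ℕ) (a q : ℕ) (v : V n) : Finset (ℕ × ℕ) :=
  (range q ×ˢ range q).filter (fun s => (q : ℤ) ∣
    nm ((xc v.1 : ℤ) * (a : ℤ) ^ 2 + y v * a * s.2, (xc v.1 : ℤ) * a * s.1 + y v * (1 + s.1 * s.2)))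

/-- the bad residues modulo `q` -/
def badE {n : ℕ} (y : V n → ℕ) (a q : ℕ) : Finset (ℕ × ℕ) := univ.biUnion (fun v : V n => badv y a q v)

/-- the sieve density -/
noncomputable def gE {n : ℕ} (y : V n → ℕ) (a w q : ℕ) : ℝ :=
  if w < q then ((badE y a q).card : ℝ) / (q : ℝ) ^ 2 else 0

/-- the values counted in the theorem -/
def FR (r N : ℕ) : Finset ℕ := (Icc 1 N).filter (fun k => cardFactors (k ^ 2 + 3 * k + 1) = r)

/-- rich labels: every label occurs between any two large subsets of two different groups -/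
def Rich {n : ℕ} (R : ℕ) (L : V n → V n → ℕ) : Prop :=
  ∀ (U W : Finset (V n)) (g g' : Fin 3), g < g' → (∀ u ∈ U, u.1 = g) → (∀ v ∈ W, v.1 = g') →
    n ≤ 2 * R * U.card → n ≤ 2 * R * W.card → ∀ τ : ℕ, 1 ≤ τ → τ ≤ R → ∃ u ∈ U, ∃ v ∈ W, L u v = τ

/-! ### the configuration -/

/-- the primes `≤ w` which do not divide `W` -/
def PW (W w : ℕ) : Finset ℕ := (Icc 1 w).filter (fun p => p.Prime ∧ ¬ p ∣ W)

/-- the factor of the model -/
noncomputable def cw (W w : ℕ) : ℝ := ∏ p ∈ PW W w, (1 - 1 / (p : ℝ))⁻¹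

open Classical in
/-- Cramér's model for the primes in the progression `W k + n₀` -/
noncomputable def crm (W n₀ w k : ℕ) : ℝ := if ∀ p ∈ PW W w, ¬ p ∣ W * k + n₀ then cw W w else 0

/-- the normalized primes in the progression `W k + n₀` -/
noncomputable def lpn (W n₀ k : ℕ) : ℝ := lp (W * k + n₀) / dens W

/-- the sifting limit `(log ℓ) ^ B` -/
noncomputable def wB (B ℓ : ℕ) : ℕ := ⌊Real.log ℓ ^ B⌋₊

/-- beginning of the range of the variables of a group, in units of `ℓ` -/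
def st (g : Fin 3) : ℕ := if g = 0 then 0 else if g = 1 then 1 else 4

/-- the linear form of a cross pair `(u, v)`: `t v - xc v.1 * t u` with `t = st * ℓ + x` -/
def mf {n : ℕ} (ℓ : ℕ) (x : V n → ℕ) (e : V n × V n) : ℕ :=
  (st e.2.1 * ℓ + x e.2) - xc e.2.1 * (st e.1.1 * ℓ + x e.1)

/-- the box -/
def Bx (n ℓ : ℕ) : Finset (V n → ℕ) := Fintype.piFinset (fun _ => range ℓ)

/-- the counting form -/
noncomputable def TT {n : ℕ} (ℓ : ℕ) (f : V n × V n → ℕ → ℝ) : ℝ :=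
  ∑ x ∈ Bx n ℓ, ∏ e ∈ EC n, f e (mf ℓ x e)

/-- the residues: `y v = r v + W₀ t v`, `hd y u v = D u v * (n₀ + W₁ * (t v - xc v.1 * t u))` -/
structure Res {n : ℕ} (L : V n → V n → ℕ) (w₁ W₀ : ℕ) (r : V n → ℕ) (D W₁ n₀ : V n × V n → ℕ) : Prop where
  hW : 0 < W₀
  ev : 2 ∣ W₀
  odd : ∀ v : V n, v.1 = 2 → r v % 2 = 1
  eqW : ∀ e ∈ EC n, W₀ = D e * W₁ e
  eqr : ∀ e ∈ EC n, r e.2 = xc e.2.1 * r e.1 + D e * n₀ e
  n0 : ∀ e ∈ EC n, 0 < n₀ e
  cop : ∀ e ∈ EC n, Nat.Coprime (n₀ e) (W₁ e)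
  sm : ∀ e ∈ EC n, ∀ p : ℕ, p.Prime → p ≤ w₁ → p ∣ W₁ e
  five : ∀ e ∈ EC n, 5 ∣ W₁ e ∧ (n₀ e % 5 = 1 ∨ n₀ e % 5 = 4)
  spl : ∀ e ∈ EC n, Spl (D e)
  dw : ∀ e ∈ EC n, ∀ p : ℕ, p.Prime → p ∣ D e → p ≤ w₁
  om : ∀ e ∈ EC n, cardFactors (D e) + 1 = L e.1 e.2
  copD : ∀ e ∈ EC n, ∀ e' ∈ EC n, e ≠ e' → Nat.Coprime (D e) (D e')

end Pool.Agent.Lib.MP_d57abb_nt.EE
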