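import Mathlib
import Pool.Agent.Lib.MP_d57abb_nt.Three.Prim
import Pool.Agent.Lib.MP_d57abb_nt.All.Root
import Pool.Agent.Lib.MP_d57abb_nt.EE.Defs

/-!
# JOB DelE: common divisors

`ml` is the product of `ℤ[α]` in coordinates, commutative and associative (`unfold ml; ext; ring`), conjugate of `z`: `z' = (z.1 + 3 z.2, - z.2)`, `ml z z' = (nm z, 0)`.

PROOF of `exists_del`: strong induction on `d` (for all `X`).  `d = 1`: `δ = (1, 0)`, `x = X`.  Otherwise let `p` be a prime divisor of `d`, `d = p d'`; `p ≡ ± 1 (mod 5)`, so there is `ϖ` with `TP ϖ`, `nm ϖ = p` (`exists_PI5` in `All/Root.lean`; `PI` in `Three/Prim.lean`); its conjugate `ϖ'` is totally positive too.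
`p ∣ nm X = nm`.  Then `p` divides both coordinates of `ml ϖ' X` or both coordinates of `ml ϖ X`: (both products `P = ml ϖ' X`, `Q = ml ϖ X` have norm divisible by `p²`; in coordinates with `ϖ = (r, s)`, `p ∤ s` (otherwise `p ∣ r`, `p² ∣ p`), the roots of `T² + 3 T + 1` modulo `p` are `t = r/s`-like; simplest: `ZMod p` is a field, `nm X = 0` in it means
`(X.1 - t₁ X.2)(X.1 - t₂ X.2) = 0` with `t₁ = r/s`, `t₂ = (r + 3 s)/(-s)`, up to names; the linear factor which vanishes gives the divisibility).  In the first case `X = ml ϖ X₁` with `X₁ = P / p` (`ml ϖ (ml ϖ' X) = p • X`), in the second `X = ml ϖ' X₁`.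
`X₁` is primitive (a common divisor of its coordinates divides those of `X`), `nm X = p nm X₁`, `d' ∣ nm X₁`, induction: `X₁ = ml δ₁ x`, `δ = ml ϖ δ₁`.

PROOF of `del_snd`.  `s X.1 + t X.2 = 1`; `μ = s Y.1 + t Y.2`: `μ X.1 - Y.1 = s X.1 Y.1 + t X.1 Y.2 - (s X.1 + t X.2) Y.1 = t (X.1 Y.2 - X.2 Y.1) = t * dt X Y`, similarly `μ X.2 - Y.2 = - s * dt X Y`: both divisible by `d`.  So `Y = μ • X + d • Z = ml δ (μ • x + ml δ' Z)` (`ml δ δ' = (d, 0)`).
PROOF of `del_mod`: `X' = X + d • Z = ml δ (x + ml δ' Z)`.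
-/

namespace Pool.Agent.Lib.MP_d57abb_nt.EE

open Pool.Agent.Lib.MP_d57abb_nt Pool.Agent.Lib.MP_d57abb_nt.All

/-- conjugate -/
private def DelE_cj (v : ℤ × ℤ) : ℤ × ℤ := (v.1 + 3 * v.2, - v.2)

private theorem DelE_pp (v : ℤ × ℤ) : pp (DelE_cj v) = qq v := by
  unfold pp qq DelE_cj
  push_cast
  linear_combination (- (v.2 : ℝ)) * al_add_be

private theorem DelE_qq (v : ℤ × ℤ) : qq (DelE_cj v) = pp v := by
  unfold pp qq DelE_cj
  push_cast
  linear_combination (- (v.2 : ℝ)) * al_add_be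

private theorem DelE_TP {v : ℤ × ℤ} (h : TP v) : TP (DelE_cj v) :=
  ⟨by rw [DelE_pp]; exact h.2, by rw [DelE_qq]; exact h.1⟩

private theorem DelE_nm (v : ℤ × ℤ) : nm (DelE_cj v) = nm v := by
  unfold nm DelE_cj
  ring

private theorem DelE_cjcj (v : ℤ × ℤ) : DelE_cj (DelE_cj v) = v := by
  unfold DelE_cj
  ext
  · show v.1 + 3 * v.2 + 3 * (-v.2) = v.1
    ring
  · show - -v.2 = v.2
    ring

private theorem DelE_assoc (u v w : ℤ × ℤ) : ml u (ml v w) = ml (ml u v) w := by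
  unfold ml
  ext
  · simp only
    ring
  · simp only
    ring

private theorem DelE_lin (δ x Z : ℤ × ℤ) (μ : ℤ) :
    ml δ (μ • x + ml (DelE_cj δ) Z) = μ • ml δ x + (nm δ) • Z := by
  unfold ml DelE_cj nm
  ext
  · simp only [Prod.fst_add, Prod.snd_add, Prod.smul_fst, Prod.smul_snd, smul_eq_mul]
    ring
  · simp only [Prod.fst_add, Prod.snd_add, Prod.smul_fst, Prod.smul_snd, smul_eq_mul]
    ring

private theorem DelE_div {p : ℕ} (hp : p.Prime) {ϖ X : ℤ × ℤ} (hϖ : nm ϖ = p) (h : (p : ℤ) ∣ nm X)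
    (h2 : (p : ℤ) ∣ (ml (DelE_cj ϖ) X).2) : ∃ X₁ : ℤ × ℤ, ml ϖ X₁ = X := by
  have hpp : Prime (p : ℤ) := Nat.prime_iff_prime_int.mp hp
  have hp0 : (p : ℤ) ≠ 0 := hpp.ne_zero
  have h3 : (p : ℤ) ∣ nm (ml (DelE_cj ϖ) X) := by
    rw [nm_ml]
    exact Dvd.dvd.mul_left h _
  have h1 : (p : ℤ) ∣ (ml (DelE_cj ϖ) X).1 := by
    refine hpp.dvd_of_dvd_pow (n := 2) ?_
    have h4 : (ml (DelE_cj ϖ) X).1 ^ 2 = nm (ml (DelE_cj ϖ) X) -
        (ml (DelE_cj ϖ) X).2 * (3 * (ml (DelE_cj ϖ) X).1 + (ml (DelE_cj ϖ) X).2) := by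
      unfold nm
      ring
    rw [h4]
    exact dvd_sub h3 (Dvd.dvd.mul_right h2 _)
  obtain ⟨a, ha⟩ := h1
  obtain ⟨b, hb⟩ := h2
  refine ⟨(a, b), ?_⟩
  unfold ml DelE_cj at ha hb
  simp only at ha hb
  unfold nm at hϖ
  unfold ml
  ext
  · simp only
    refine mul_left_cancel₀ hp0 ?_
    linear_combination (- ϖ.1) * ha + ϖ.2 * hb + X.1 * hϖ
  · simp only
    refine mul_left_cancel₀ hp0 ?_
    linear_combination (- ϖ.1 - 3 * ϖ.2) * hb - ϖ.2 * ha + X.2 * hϖ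

private theorem DelE_step {p : ℕ} (hp : p.Prime) {ϖ X : ℤ × ℤ} (hϖ : nm ϖ = p)
    (h : (p : ℤ) ∣ nm X) : (∃ X₁ : ℤ × ℤ, ml ϖ X₁ = X) ∨ ∃ X₁ : ℤ × ℤ, ml (DelE_cj ϖ) X₁ = X := by
  have hpp : Prime (p : ℤ) := Nat.prime_iff_prime_int.mp hp
  have h1 : (p : ℤ) ∣ (ml (DelE_cj ϖ) X).2 * (ml ϖ X).2 := by
    have h2 : (ml (DelE_cj ϖ) X).2 * (ml ϖ X).2 = X.2 ^ 2 * nm ϖ - ϖ.2 ^ 2 * nm X := by
      unfold ml DelE_cj nm
      simp only
      ring
    rw [h2, hϖ]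
    exact dvd_sub (Dvd.intro_left _ rfl) (Dvd.dvd.mul_left h _)
  rcases hpp.dvd_or_dvd h1 with h2 | h2
  · exact Or.inl (DelE_div hp hϖ h h2)
  · refine Or.inr (DelE_div hp (by rw [DelE_nm]; exact hϖ) h ?_)
    rw [DelE_cjcj]
    exact h2

private theorem DelE_prim {ϖ X X₁ : ℤ × ℤ} (hX : IsCoprime X.1 X.2) (h : ml ϖ X₁ = X) :
    IsCoprime X₁.1 X₁.2 := by
  obtain ⟨u, v, huv⟩ := hX
  rw [← h] at huv
  unfold ml at huv
  simp only at huv
  refine ⟨u * ϖ.1 + v * ϖ.2, - u * ϖ.2 + v * ϖ.1 + 3 * v * ϖ.2, ?_⟩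
  linear_combination huv

theorem exists_del (d : ℕ) (hd : Spl d) (X : ℤ × ℤ) (hX : IsCoprime X.1 X.2) (h : (d : ℤ) ∣ nm X) :
    ∃ δ x : ℤ × ℤ, TP δ ∧ nm δ = d ∧ ml δ x = X := by
  induction d using Nat.strong_induction_on generalizing X with
  | _ d ih =>
    by_cases hd1 : d = 1
    · subst hd1
      refine ⟨(1, 0), X, ⟨?_, ?_⟩, ?_, ?_⟩
      · unfold pp
        simp
      · unfold qq
        simp
      · unfold nm
        norm_num
      · unfold ml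
        ext
        · simp only
          ring
        · simp only
          ring
    · obtain ⟨p, hp, hpd⟩ := Nat.exists_prime_and_dvd hd1
      obtain ⟨d', rfl⟩ := hpd
      have hd0 := hd.1
      have hd'0 : 0 < d' := Nat.pos_of_mul_pos_left hd0
      obtain ⟨ϖ, hϖ⟩ := exists_PI5 hp (hd.2 p hp (dvd_mul_right p d'))
      have hp0 : (p : ℤ) ≠ 0 := by
        exact_mod_cast hp.ne_zero
      have hlt : d' < p * d' := by
        have := hp.two_le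
        nlinarith
      have hspl : Spl d' := ⟨hd'0, fun q hq hqd => hd.2 q hq (Dvd.dvd.mul_left hqd p)⟩
      have hpX : (p : ℤ) ∣ nm X := by
        refine dvd_trans ?_ h
        push_cast
        exact dvd_mul_right _ _
      have key : ∀ ρ X₁ : ℤ × ℤ, TP ρ → nm ρ = p → ml ρ X₁ = X →
          ∃ δ x : ℤ × ℤ, TP δ ∧ nm δ = (p * d' : ℕ) ∧ ml δ x = X := by
        intro ρ X₁ hρ hρn hρX
        have h1 : nm X = p * nm X₁ := by
          rw [← hρX, nm_ml, hρn]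
        have h2 : (d' : ℤ) ∣ nm X₁ := by
          rw [h1] at h
          push_cast at h
          exact (mul_dvd_mul_iff_left hp0).1 h
        obtain ⟨δ, x, h3, h4, h5⟩ := ih d' hlt hspl X₁ (DelE_prim hX hρX) h2
        refine ⟨ml ρ δ, x, hρ.ml h3, ?_, ?_⟩
        · rw [nm_ml, hρn, h4]
          push_cast
          ring
        · rw [← DelE_assoc, h5, hρX]
      rcases DelE_step hp hϖ.nm hpX with ⟨X₁, h1⟩ | ⟨X₁, h1⟩
      · exact key ϖ X₁ hϖ.tp hϖ.nm h1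
      · exact key (DelE_cj ϖ) X₁ (DelE_TP hϖ.tp) (by rw [DelE_nm]; exact hϖ.nm) h1

theorem del_snd {X Y δ x : ℤ × ℤ} {d : ℕ} (hX : IsCoprime X.1 X.2) (hδ : nm δ = d) (hx : ml δ x = X)
    (hdt : (d : ℤ) ∣ dt X Y) : ∃ x' : ℤ × ℤ, ml δ x' = Y := by
  obtain ⟨s, t, hst⟩ := hX
  obtain ⟨k, hk⟩ := hdt
  refine ⟨(s * Y.1 + t * Y.2) • x + ml (DelE_cj δ) (-(t * k), s * k), ?_⟩
  rw [DelE_lin, hx, hδ]
  unfold dt at hk
  ext
  · simp only [Prod.fst_add, Prod.smul_fst, smul_eq_mul]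
    linear_combination Y.1 * hst + t * hk
  · simp only [Prod.snd_add, Prod.smul_snd, smul_eq_mul]
    linear_combination Y.2 * hst - s * hk

theorem del_mod {δ x X X' : ℤ × ℤ} {d : ℕ} (hδ : nm δ = d) (hx : ml δ x = X) (h1 : (d : ℤ) ∣ X'.1 - X.1)
    (h2 : (d : ℤ) ∣ X'.2 - X.2) : ∃ x' : ℤ × ℤ, ml δ x' = X' := by
  obtain ⟨a, ha⟩ := h1
  obtain ⟨b, hb⟩ := h2
  refine ⟨(1 : ℤ) • x + ml (DelE_cj δ) (a, b), ?_⟩
  rw [DelE_lin, hx, hδ]
  ext
  · simp only [Prod.fst_add, Prod.smul_fst, smul_eq_mul]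
    linear_combination - ha
  · simp only [Prod.snd_add, Prod.smul_snd, smul_eq_mul]
    linear_combination - hb

end Pool.Agent.Lib.MP_d57abb_nt.EE
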