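import Mathlib
import Pool.Agent.Lib.MP_d57abb_nt.All.Root
import Pool.Agent.Lib.MP_d57abb_nt.EE.Defs

/-!
# JOB RtE: roots modulo split numbers and modulo the determinants

PROOF of `exists_rt`: there is a primitive `δ = (r, s)` with `nm δ = d` (e.g. `exists_sys d` in `All/Sys.lean`: `dl d` divides the primitive `δ₀`, so it is primitive; or Hensel's lemma, or induction on the exponent: if `p^k ∣ 1 + 3 t + t²`, `p ≠ 5`, `p ≠ 2`, then `t' = t + p^k j` for the `j` with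
`(1 + 3t + t²)/p^k + (3 + 2t) j ≡ 0 (mod p)`; `p ∤ 3 + 2 t` because `(3 + 2t)² ≡ 5`; start `exists_root` in `All/Root.lean`; then the Chinese remainder theorem).  With `δ`: `s` is prime to `d` (a common prime `p` of `s` and `d` divides `r² `, so `r`), take `t ≡ r s⁻¹`-type: `nm (1, t) = 1 + 3 t + t²`, symmetric form, `nm (r, s) = nm (s, r)`.
PROOF of `exists_B1`: for `u.1 < v.1` one has `xc u.1 = 1`, `Xs y B u = (1, B + y u)`; with `t = t_{uv}` from `exists_rt (hd y u v)` we want `B + y u ≡ t (mod hd y u v)` for all the cross pairs; the moduli are pairwise coprime (`hc.cop`) and positive: Chinese remainder theorem over the finite set `EC n`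
(`Nat.chineseRemainderOfFinset`, `Ideal`-free; or induction over the finset).  `nm (1, s) ≡ nm (1, t) (mod d)` if `s ≡ t (mod d)`.
-/

open Finset

namespace Pool.Agent.Lib.MP_d57abb_nt.EE

open Pool.Agent.Lib.MP_d57abb_nt Pool.Agent.Lib.MP_d57abb_nt.All

/-- Hensel's lemma for `t ^ 2 + 3 t + 1` -/
private theorem RtE_pow {p : ℕ} (hp : p.Prime) (h5 : p % 5 = 1 ∨ p % 5 = 4) (k : ℕ) :
    ∃ t : ℕ, p ^ (k + 1) ∣ t ^ 2 + 3 * t + 1 := by
  induction k with
  | zero =>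
    obtain ⟨t, ht⟩ := exists_root hp h5
    exact ⟨t, by rwa [zero_add, pow_one]⟩
  | succ k ih =>
    obtain ⟨t, m, hm⟩ := ih
    have : Fact p.Prime := ⟨hp⟩
    have hpd : p ∣ t ^ 2 + 3 * t + 1 := by
      rw [hm]
      exact dvd_mul_of_dvd_left (dvd_pow_self p (Nat.succ_ne_zero k)) m
    have hne : ((3 + 2 * t : ℕ) : ZMod p) ≠ 0 := by
      intro h
      rw [ZMod.natCast_eq_zero_iff] at h
      have h1 : p ∣ (3 + 2 * t) * (3 + 2 * t) := dvd_mul_of_dvd_left h _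
      have h2 : p ∣ 4 * (t ^ 2 + 3 * t + 1) := dvd_mul_of_dvd_right hpd _
      have e : (3 + 2 * t) * (3 + 2 * t) = 4 * (t ^ 2 + 3 * t + 1) + 5 := by ring
      rw [e] at h1
      have h3 : p ∣ 5 := (Nat.dvd_add_right h2).mp h1
      have h4 : p = 5 := (Nat.prime_dvd_prime_iff_eq hp Nat.prime_five).mp h3
      omega
    set j : ℕ := (-(m : ZMod p) * ((3 + 2 * t : ℕ) : ZMod p)⁻¹).val with hj
    have hj' : p ∣ m + (3 + 2 * t) * j := by
      rw [← ZMod.natCast_eq_zero_iff, Nat.cast_add, Nat.cast_mul, hj, ZMod.natCast_zmod_val]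
      rw [mul_comm (-(m : ZMod p)), ← mul_assoc, mul_inv_cancel₀ hne, one_mul]
      exact add_neg_cancel _
    refine ⟨t + p ^ (k + 1) * j, ?_⟩
    have e : (t + p ^ (k + 1) * j) ^ 2 + 3 * (t + p ^ (k + 1) * j) + 1 =
        p ^ (k + 1) * (m + (3 + 2 * t) * j) + p ^ (k + 1) * (p ^ (k + 1) * j ^ 2) := by
      have : (t + p ^ (k + 1) * j) ^ 2 + 3 * (t + p ^ (k + 1) * j) + 1 =
          (t ^ 2 + 3 * t + 1) + p ^ (k + 1) * ((3 + 2 * t) * j) + p ^ (k + 1) * (p ^ (k + 1) * j ^ 2) := by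
        ring
      rw [this, hm]
      ring
    rw [e, pow_succ p (k + 1)]
    refine dvd_add (mul_dvd_mul_left _ hj') (mul_dvd_mul_left _ ?_)
    exact dvd_mul_of_dvd_left (dvd_pow_self p (Nat.succ_ne_zero k)) _

private theorem RtE_modEq {d a b : ℕ} (h : a ≡ b [MOD d]) (hb : d ∣ b ^ 2 + 3 * b + 1) :
    d ∣ a ^ 2 + 3 * a + 1 := by
  have h1 : a ^ 2 + 3 * a + 1 ≡ b ^ 2 + 3 * b + 1 [MOD d] :=
    ((h.pow 2).add (h.mul_left 3)).add_right 1
  exact (h1.dvd_iff dvd_rfl).mpr hb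

private theorem RtE_nat (d : ℕ) (hd : Spl d) : ∃ t : ℕ, d ∣ t ^ 2 + 3 * t + 1 := by
  induction d using Nat.recOnPosPrimePosCoprime with
  | prime_pow p n hp hn =>
    obtain ⟨k, rfl⟩ : ∃ k, n = k + 1 := ⟨n - 1, by omega⟩
    exact RtE_pow hp (hd.2 p hp (dvd_pow_self p (Nat.succ_ne_zero k))) k
  | zero => exact absurd hd.1 (lt_irrefl 0)
  | one => exact ⟨0, one_dvd _⟩
  | coprime a b ha hb hab iha ihb =>
    obtain ⟨x, hx⟩ := iha ⟨by omega, fun p hp h => hd.2 p hp (dvd_mul_of_dvd_left h b)⟩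
    obtain ⟨y, hy⟩ := ihb ⟨by omega, fun p hp h => hd.2 p hp (dvd_mul_of_dvd_right h a)⟩
    obtain ⟨k, h1, h2⟩ := Nat.chineseRemainder hab x y
    exact ⟨k, hab.mul_dvd_of_dvd_of_dvd (RtE_modEq h1 hx) (RtE_modEq h2 hy)⟩

private theorem RtE_nm (d t : ℕ) (h : d ∣ t ^ 2 + 3 * t + 1) : (d : ℤ) ∣ nm ((1 : ℤ), (t : ℤ)) := by
  have h1 : (d : ℤ) ∣ ((t ^ 2 + 3 * t + 1 : ℕ) : ℤ) := Int.natCast_dvd_natCast.mpr h
  have e : nm ((1 : ℤ), (t : ℤ)) = ((t ^ 2 + 3 * t + 1 : ℕ) : ℤ) := by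
    unfold nm
    push_cast
    ring
  rw [e]
  exact h1

theorem exists_rt (d : ℕ) (hd : Spl d) : ∃ t : ℕ, (d : ℤ) ∣ nm ((1 : ℤ), (t : ℤ)) := by
  obtain ⟨t, ht⟩ := RtE_nat d hd
  exact ⟨t, RtE_nm d t ht⟩

theorem exists_B1 {n : ℕ} {L : V n → V n → ℕ} {y : V n → ℕ} (hc : Cfg L y) :
    ∃ B₁ : ℕ, ∀ u v : V n, u.1 < v.1 → (hd y u v : ℤ) ∣ nm (Xs y B₁ u) := by
  classical
  have hex : ∀ e : V n × V n, ∃ t : ℕ, e.1.1 < e.2.1 → hd y e.1 e.2 ∣ t ^ 2 + 3 * t + 1 := by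
    intro e
    by_cases h : e.1.1 < e.2.1
    · obtain ⟨t, ht⟩ := RtE_nat _ (hc.spl e.1 e.2 h)
      exact ⟨t, fun _ => ht⟩
    · exact ⟨0, fun h' => absurd h' h⟩
  choose t ht using hex
  obtain ⟨B, hB⟩ := Nat.chineseRemainderOfFinset
    (fun e : V n × V n => t e + hd y e.1 e.2 * y e.1 - y e.1) (fun e => hd y e.1 e.2) (EC n)
    (by
      intro e he
      have h := (Finset.mem_filter.mp he).2
      exact (hc.spl e.1 e.2 h).1.ne')
    (by
      intro e he e' he' hne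
      have h := (Finset.mem_filter.mp he).2
      have h' := (Finset.mem_filter.mp he').2
      exact hc.cop e.1 e.2 e'.1 e'.2 h h' (fun h2 => hne (Prod.ext (congrArg Prod.fst h2) (congrArg Prod.snd h2))))
  refine ⟨B, fun u v huv => ?_⟩
  have h1 := hB (u, v) (Finset.mem_filter.mpr ⟨Finset.mem_univ _, huv⟩)
  simp only at h1
  have hpos : 1 ≤ hd y u v := (hc.spl u v huv).1
  have hle : y u ≤ t (u, v) + hd y u v * y u :=
    (Nat.le_mul_of_pos_left (y u) hpos).trans (Nat.le_add_left _ _)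
  have h2 : B + y u ≡ t (u, v) [MOD hd y u v] := by
    have h3 := h1.add_right (y u)
    rw [Nat.sub_add_cancel hle] at h3
    refine h3.trans ?_
    have h4 : t (u, v) + hd y u v * y u ≡ t (u, v) + 0 [MOD hd y u v] :=
      Nat.ModEq.add_left _ ((Nat.modEq_zero_iff_dvd).mpr (dvd_mul_right _ _))
    rwa [add_zero] at h4
  have h5 := RtE_modEq h2 (ht (u, v) huv)
  have hx : xc u.1 = 1 := by
    unfold xc
    rw [if_neg]
    intro h
    rw [h] at huv
    exact absurd huv (not_lt.mpr (Fin.le_last _))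
  have h6 := RtE_nm _ _ h5
  have e : Xs y B u = ((1 : ℤ), ((B + y u : ℕ) : ℤ)) := by
    unfold Xs
    rw [hx, one_mul, Nat.cast_one]
  rw [e]
  exact h6

end Pool.Agent.Lib.MP_d57abb_nt.EE
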