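import Mathlib
import Pool.Agent.Lib.MP_d57abb_nt.EE.RtE

/-!
# JOB LocE: local choices at a split prime

PROOF of `loc_q`.  `q ≡ ± 1 (mod 5)`, so `q ≥ 11`, `q` is odd and prime to `x ∈ {1, 2}`.  `Spl (q ^ (e+1))`, so there is `t` with `q^(e+1) ∣ 1 + 3 t + t²` (`exists_rt`).  Put `s = t + q^e`: `1 + 3 s + s² = (1 + 3 t + t²) + q^e (3 + 2 t) + q^(2e)`, which is divisible by `q^e` and, since `e ≥ 1` (`2 e ≥ e + 1`) and `q ∤ 3 + 2 t`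
(`(3 + 2t)² = 4 (1 + 3t + t²) + 5 ≡ 5 (mod q)`, `q ≠ 5`), not by `q^(e+1)`.  Choose `β` with `x β + y ≡ x s (mod q^(e+1))` (`x` is invertible): `nm (x, x β + y) ≡ nm (x, x s) = x² (1 + 3 s + s²) (mod q^(e+1))`.
PROOF of `loc_other`.  In the field `ZMod q`, `x, x' ≠ 0`; put `t = β + y/x`, `t' = β + y'/x'`; `nm (x, x β + y) = x² (1 + 3 t + t²) = 0`.  If also `1 + 3 t' + t'^2 = 0` then subtracting `(t' - t)(t' + t + 3) = 0`: either `t' = t`, i.e. `x y' - x' y = 0` (against `h2`), or `t' = - 3 - t`, `(t' - t)² = (3 + 2 t)² = 5`,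
i.e. `(x y' - x' y)² = 5 x² x'^2` (against `h3`).
-/

namespace Pool.Agent.Lib.MP_d57abb_nt.EE

open Pool.Agent.Lib.MP_d57abb_nt Pool.Agent.Lib.MP_d57abb_nt.All

/-- solve `x β + y ≡ x s` modulo an odd number `Q` for `x ∈ {1, 2}` -/
private theorem LocE_beta (Q x y s : ℕ) (hx : x = 1 ∨ x = 2) (hQ : Q % 2 = 1) :
    ∃ β : ℕ, (Q : ℤ) ∣ ((x * β + y : ℕ) : ℤ) - x * s := by
  obtain ⟨j, hj⟩ : ∃ j, Q = 2 * j + 1 := ⟨Q / 2, by omega⟩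
  rcases hx with rfl | rfl
  · refine ⟨s + 2 * j * y, y, ?_⟩
    rw [hj]
    push_cast
    ring
  · refine ⟨s + 2 * j * (j + 1) * y, (2 * j + 1) * y, ?_⟩
    rw [hj]
    push_cast
    ring

theorem loc_q (q : ℕ) (hq : q.Prime) (h5 : q % 5 = 1 ∨ q % 5 = 4) (x y e : ℕ) (hx : x = 1 ∨ x = 2) (he : 1 ≤ e) :
    ∃ β : ℕ, ((q ^ e : ℕ) : ℤ) ∣ nm ((x : ℤ), ((x * β + y : ℕ) : ℤ)) ∧
      ¬ ((q ^ (e + 1) : ℕ) : ℤ) ∣ nm ((x : ℤ), ((x * β + y : ℕ) : ℤ)) := by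
  have hq2 : q ≠ 2 := by
    rintro rfl
    omega
  have hodd : q % 2 = 1 := hq.eq_two_or_odd.resolve_left hq2
  have hQodd : q ^ (e + 1) % 2 = 1 := by
    rw [Nat.pow_mod, hodd]
    simp
  have hspl : Spl (q ^ (e + 1)) := by
    refine ⟨pow_pos hq.pos _, fun p hp hpd => ?_⟩
    have : p = q := (Nat.prime_dvd_prime_iff_eq hp hq).1 (hp.dvd_of_dvd_pow hpd)
    rw [this]
    exact h5
  obtain ⟨t, ht⟩ := exists_rt _ hspl
  obtain ⟨β, hβ⟩ := LocE_beta (q ^ (e + 1)) x y (t + q ^ e) hx hQodd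
  obtain ⟨Q, hQ⟩ : ∃ Q : ℤ, Q = ((q ^ (e + 1) : ℕ) : ℤ) := ⟨_, rfl⟩
  obtain ⟨R, hR⟩ : ∃ R : ℤ, R = ((q ^ e : ℕ) : ℤ) := ⟨_, rfl⟩
  have hQR : Q = R * q := by
    rw [hQ, hR]
    push_cast
    ring
  have hR0 : R ≠ 0 := by
    rw [hR]
    exact_mod_cast (pow_pos hq.pos e).ne'
  have hq0 : (q : ℤ) ≠ 0 := by exact_mod_cast hq.ne_zero
  obtain ⟨R', hR'⟩ : ∃ R' : ℤ, R = q * R' := by
    obtain ⟨e', rfl⟩ : ∃ e', e = e' + 1 := ⟨e - 1, by omega⟩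
    refine ⟨(q : ℤ) ^ e', ?_⟩
    rw [hR]
    push_cast
    ring
  have hqi : Prime (q : ℤ) := Nat.prime_iff_prime_int.1 hq
  have h5q : ¬ (q : ℤ) ∣ 5 := by
    intro hd
    have hd' : q ∣ 5 := by exact_mod_cast hd
    have : q = 5 := (Nat.prime_dvd_prime_iff_eq hq Nat.prime_five).1 hd'
    omega
  have hxq : ¬ (q : ℤ) ∣ (x : ℤ) := by
    intro hd
    have hd' : q ∣ x := by exact_mod_cast hd
    rcases hx with rfl | rfl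
    · exact hq.one_lt.ne' (Nat.dvd_one.1 hd')
    · exact hq2 ((Nat.prime_dvd_prime_iff_eq hq Nat.prime_two).1 hd')
  -- the value at `t` and at `s = t + q ^ e`
  rw [← hQ] at ht
  obtain ⟨A, hA⟩ := ht
  simp only [nm] at hA
  have h3t : ¬ (q : ℤ) ∣ 3 + 2 * t := by
    rintro ⟨m, hm⟩
    apply h5q
    refine ⟨q * m ^ 2 - 4 * (R * A), ?_⟩
    have h1 : (5 : ℤ) = (3 + 2 * t) ^ 2 - 4 * ((1 : ℤ) ^ 2 + 3 * 1 * t + (t : ℤ) ^ 2) := by ring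
    rw [h1, hA, hm, hQR]
    ring
  set S : ℤ := (t : ℤ) + R with hS
  have hfs : 1 + 3 * S + S ^ 2 = R * (q * A + (3 + 2 * t) + R) := by
    have h1 : 1 + 3 * S + S ^ 2 = ((1 : ℤ) ^ 2 + 3 * 1 * t + (t : ℤ) ^ 2) + R * (3 + 2 * t) + R * R := by
      rw [hS]
      ring
    rw [h1, hA, hQR]
    ring
  obtain ⟨u, hu⟩ := hβ
  rw [← hQ] at hu
  have hcast : ((t + q ^ e : ℕ) : ℤ) = S := by
    rw [hS, hR]
    push_cast
    ring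
  have hu' : ((x * β + y : ℕ) : ℤ) = x * S + Q * u := by
    rw [hcast] at hu
    linarith
  have hnm : nm ((x : ℤ), ((x * β + y : ℕ) : ℤ)) =
      (x : ℤ) ^ 2 * (1 + 3 * S + S ^ 2) + Q * (3 * x * u + 2 * x * S * u + Q * u ^ 2) := by
    rw [hu']
    simp only [nm]
    ring
  refine ⟨β, ?_, ?_⟩
  · rw [hnm, ← hR, hfs, hQR]
    refine dvd_add ((dvd_mul_right R _).mul_left _) ?_
    exact Dvd.dvd.mul_right (dvd_mul_right R _) _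
  · rw [hnm, ← hQ]
    intro hd
    have h1 : Q ∣ (x : ℤ) ^ 2 * (1 + 3 * S + S ^ 2) := (dvd_add_left (dvd_mul_right Q _)).1 hd
    rw [hfs, hQR] at h1
    have h2 : (q : ℤ) ∣ (x : ℤ) ^ 2 * (q * A + (3 + 2 * t) + R) := by
      obtain ⟨m, hm⟩ := h1
      refine ⟨m, ?_⟩
      apply mul_left_cancel₀ hR0
      linear_combination hm
    rcases hqi.dvd_or_dvd h2 with h | h
    · exact hxq (hqi.dvd_of_dvd_pow h)
    · apply h3t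
      rw [hR'] at h
      have h4 : (3 + 2 * (t : ℤ)) = (q * A + (3 + 2 * t) + q * R') - q * (A + R') := by ring
      rw [h4]
      exact dvd_sub h (dvd_mul_right _ _)

theorem loc_other (q : ℕ) (hq : q.Prime) (x y x' y' β : ℕ) (hx : ¬ q ∣ x) (hx' : ¬ q ∣ x')
    (h1 : (q : ℤ) ∣ nm ((x : ℤ), ((x * β + y : ℕ) : ℤ))) (h2 : ¬ (q : ℤ) ∣ (x : ℤ) * y' - x' * y)
    (h3 : ¬ (q : ℤ) ∣ ((x : ℤ) * y' - x' * y) ^ 2 - 5 * (x : ℤ) ^ 2 * (x' : ℤ) ^ 2) :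
    ¬ (q : ℤ) ∣ nm ((x' : ℤ), ((x' * β + y' : ℕ) : ℤ)) := by
  intro h4
  have hqi : Prime (q : ℤ) := Nat.prime_iff_prime_int.1 hq
  obtain ⟨u, hu⟩ : ∃ u : ℤ, u = ((x * β + y : ℕ) : ℤ) := ⟨_, rfl⟩
  obtain ⟨u', hu'⟩ : ∃ u' : ℤ, u' = ((x' * β + y' : ℕ) : ℤ) := ⟨_, rfl⟩
  rw [← hu] at h1
  rw [← hu'] at h4
  simp only [nm] at h1 h4
  have hD : (x : ℤ) * y' - x' * y = x * u' - x' * u := by
    rw [hu, hu']
    push_cast
    ring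
  rw [hD] at h2 h3
  have h5 : (q : ℤ) ∣ ((x : ℤ) * u' - x' * u) * (3 * x * x' + x' * u + x * u') := by
    have e1 : ((x : ℤ) * u' - x' * u) * (3 * x * x' + x' * u + x * u') =
        (x : ℤ) ^ 2 * ((x' : ℤ) ^ 2 + 3 * x' * u' + u' ^ 2) -
          (x' : ℤ) ^ 2 * ((x : ℤ) ^ 2 + 3 * x * u + u ^ 2) := by ring
    rw [e1]
    exact dvd_sub (h4.mul_left _) (h1.mul_left _)
  rcases hqi.dvd_or_dvd h5 with h | h
  · exact h2 h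
  · apply h3
    have e2 : ((x : ℤ) * u' - x' * u) ^ 2 - 5 * (x : ℤ) ^ 2 * (x' : ℤ) ^ 2 =
        (3 * x * x' + x' * u + x * u') * ((3 * x * x' + x' * u + x * u') - 2 * x' * (3 * x + 2 * u)) +
          4 * (x' : ℤ) ^ 2 * ((x : ℤ) ^ 2 + 3 * x * u + u ^ 2) := by ring
    rw [e2]
    exact dvd_add (h.mul_right _) (h1.mul_left _)

end Pool.Agent.Lib.MP_d57abb_nt.EE
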