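import Mathlib
import Pool.Agent.Lib.MP_d57abb_nt.EE.DelE
import Pool.Agent.Lib.MP_d57abb_nt.EE.RtE
import Pool.Agent.Lib.MP_d57abb_nt.EE.LocE

/-!
# JOB BasE: the base data, with the same number `F` of small prime factors for all the vertices

PROOF of `inj`: let `u ≠ v`.  Different groups: `xc u.1 * y v - xc v.1 * y u` is `± hd ≠ 0` (`hc.lt`; `xc = 1` for the smaller group; for the groups (0,1): `y v - y u > 0`).  Same group `g`, `y u = y v`: take a vertex `s` of another group (`n ≥ 1`; e.g. index `u.2`): if `g < s.1` then `hd y u s = hd y v s`, coprime by `hc.cop` (`(u,s) ≠ (v,s)`), so `hd y u s = 1`,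
but `cardFactors (hd y u s) = L u s ≥ 1`; similarly if `s.1 < g`.  So `y u ≠ y v`, and `xc (y v - y u) ≠ 0`.

PROOF of `exists_base`.
1. `B₁` from `exists_B1 hc`.
2. For every vertex `v` a prime `q v ≡ 1 (mod 5)`, all different, larger than `w₀`, `24 n`, all `y u`, all `hd y u v`, all `|xc u.1 y v - xc v.1 y u|`, all `|(xc u.1 y v - xc v.1 y u)² - 5 (xc u.1 xc v.1)²|` (nonzero integers: `√5` is irrational; `m² = 5 k²` with `k ≠ 0` is impossible).  (`Nat.exists_prime_gt_modEq_one`-type lemma.)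
3. `w = ` a number `≥ w₀, 24 n`, all `y v`, all `q v`, all `hd y u v`.  Put `N₁ v = (nm (Xs y B₁ v)).natAbs > 0`; `F₁ v = ∑_{p ≤ w, p ∉ {q u}} v_p (N₁ v)`.  `F₀ = 1 + sup F₁`.
4. Let `F ≥ F₀`, `e v = F - F₁ v ≥ 1`.  `β v` from `loc_q (q v) (xc v.1) (y v) (e v)`.  `M₁ > ` all the valuations `v_p (N₁ v)`, `p ≤ w`, and `> ` all the `hd y u v`.  Chinese remainder theorem: `B ≡ B₁ (mod p^M₁)` for the primes `p ≤ w`, `p ∉ {q u}`, and `B ≡ β v (mod (q v)^(e v + 1))`.
   Then for `p ≤ w`, `p ∉ {q u}`: `nm (Xs y B v) ≡ nm (Xs y B₁ v) (mod p^M₁)`, so the valuations at `p` agree; `v_{q v} (nm (Xs y B v)) = e v`; and for `u ≠ v`: `q v ∤ nm (Xs y B u)` by `loc_other` (`q v > 2 ≥ xc`; `inj`).  So `sOm w (nm (Xs y B v)).natAbs = F₁ v + e v = F`.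
5. `hd y u v ∣ nm (Xs y B u)`: every prime power dividing `hd y u v ≤ w` has `p ≤ w`, `p ∉ {q s}` (`q s > hd`), exponent `< M₁`.  (`hd y u v ∣ ∏ p^M₁`.)
6. `E ≥ 1` with `nm (Xs y B v) < 2^E` for all `v` and `E ≥ hd y u v` for all cross pairs: `hd y u v ∣ (w!)^E`, in fact `hd y u v ≤ w` and so `hd y u v ∣ w!` (`Nat.dvd_factorial`).
7. `δ u v`: `exists_del (hd y u v) (hc.spl u v h) (Xs y B u)` (primitive: first coordinate `xc u.1 = 1` as `u.1 < v.1`) gives `tp`, `nd`, `d1`; `d2` by `del_snd`: `dt (Xs y B u) (Xs y B v) = y v - xc v.1 y u = hd y u v`.  For the pairs which are not cross take `δ = (1, 0)`.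
-/

open Finset

namespace Pool.Agent.Lib.MP_d57abb_nt.EE

open Pool.Agent.Lib.MP_d57abb_nt Pool.Agent.Lib.MP_d57abb_nt.All

theorem BasE_xc (g : Fin 3) : xc g = 1 ∨ xc g = 2 := by
  unfold xc
  split_ifs
  · exact Or.inr rfl
  · exact Or.inl rfl

theorem BasE_xc1 {g g' : Fin 3} (h : g < g') : xc g = 1 := by
  unfold xc
  rw [if_neg]
  intro h1
  subst h1
  have h2 : (2 : Fin 3) < g' := h
  have h3 := g'.isLt
  have h4 : (2 : ℕ) < g'.val := h2
  omega

theorem BasE_hd1 {n : ℕ} {L : V n → V n → ℕ} {y : V n → ℕ} (hL : ∀ u v, 1 ≤ L u v) (hc : Cfg L y)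
    {u v u' v' : V n} (h : u.1 < v.1) (h' : u'.1 < v'.1) (hne : (u, v) ≠ (u', v')) : hd y u v ≠ hd y u' v' := by
  intro he
  have h1 := hc.cop u v u' v' h h' hne
  rw [← he, Nat.coprime_self] at h1
  have h2 := hc.om u v h
  have h3 := hL u v
  rw [h1, ArithmeticFunction.cardFactors_one] at h2
  omega

theorem inj {n : ℕ} {L : V n → V n → ℕ} {y : V n → ℕ} (hL : ∀ u v, 1 ≤ L u v) (hc : Cfg L y) (u v : V n)
    (h : u ≠ v) : (xc u.1 : ℤ) * y v - xc v.1 * y u ≠ 0 := by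
  rcases lt_trichotomy u.1 v.1 with h1 | h1 | h1
  · have h2 := hc.lt u v h1
    rw [BasE_xc1 h1]
    have h3 : (xc v.1 : ℤ) * y u < y v := by exact_mod_cast h2
    push_cast
    intro h4
    linarith
  · have h2 : y u ≠ y v := by
      intro he
      have h3 := u.1.isLt
      by_cases hg : u.1 = 2
      · have e1 : hd y (0, u.2) u = hd y (0, u.2) v := by
          unfold hd
          rw [he, h1]
        refine BasE_hd1 hL hc (u := (0, u.2)) (v := u) (u' := (0, u.2)) (v' := v) ?_ ?_ ?_ e1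
        · rw [hg]
          show (0 : Fin 3) < 2
          decide
        · rw [← h1, hg]
          show (0 : Fin 3) < 2
          decide
        · intro h5
          exact h (Prod.ext_iff.1 h5).2
      · have hg2 : u.1 < 2 := by
          rw [Fin.lt_def]
          have h4 : u.1.val ≠ 2 := fun h5 => hg (Fin.ext h5)
          show u.1.val < 2
          omega
        have e1 : hd y u (2, u.2) = hd y v (2, u.2) := by
          unfold hd
          rw [he]
        refine BasE_hd1 hL hc (u := u) (v := (2, u.2)) (u' := v) (v' := (2, u.2)) hg2 ?_ ?_ e1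
        · rw [← h1]
          exact hg2
        · intro h5
          exact h (Prod.ext_iff.1 h5).1
    rw [h1, ← mul_sub]
    refine mul_ne_zero ?_ (sub_ne_zero.2 (by exact_mod_cast (Ne.symm h2)))
    rcases BasE_xc v.1 with h3 | h3 <;> rw [h3] <;> norm_num
  · have h2 := hc.lt v u h1
    rw [BasE_xc1 h1]
    have h3 : (xc u.1 : ℤ) * y v < y u := by exact_mod_cast h2
    push_cast
    intro h4
    linarith

theorem BasE_pos {n : ℕ} (y : V n → ℕ) (B : ℕ) (v : V n) : 0 < nm (Xs y B v) := by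
  have h1 : (1 : ℤ) ≤ xc v.1 := by
    rcases BasE_xc v.1 with h3 | h3 <;> rw [h3] <;> norm_num
  unfold nm Xs
  dsimp only
  have h2 : (0 : ℤ) ≤ ((xc v.1 * B + y v : ℕ) : ℤ) := Int.natCast_nonneg _
  have h3 : 0 ≤ 3 * (xc v.1 : ℤ) * ((xc v.1 * B + y v : ℕ) : ℤ) := by positivity
  nlinarith [sq_nonneg ((xc v.1 * B + y v : ℕ) : ℤ)]

/-- congruent frames -/
theorem BasE_cg {n : ℕ} (y : V n → ℕ) {B B' : ℕ} {d : ℤ} (h : d ∣ (B : ℤ) - B') (v : V n) :
    d ∣ nm (Xs y B v) - nm (Xs y B' v) := by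
  obtain ⟨c, hc⟩ := h
  unfold nm Xs
  dsimp only
  push_cast
  have hB : (B : ℤ) = B' + d * c := by linarith
  rw [hB]
  exact ⟨(xc v.1 : ℤ) * c * (3 * xc v.1 + (2 * (xc v.1 * B' + y v) + xc v.1 * (d * c))), by ring⟩

theorem BasE_fac {p m v : ℕ} (hp : p.Prime) (hm : m ≠ 0) (h1 : p ^ v ∣ m) (h2 : ¬ p ^ (v + 1) ∣ m) :
    m.factorization p = v := by
  rw [hp.pow_dvd_iff_le_factorization hm] at h1 h2
  omega

theorem BasE_sOm (w m : ℕ) :
    sOm w m = ∑ p ∈ (range (w + 1)).filter (fun p => p.Prime), m.factorization p := by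
  unfold sOm
  refine Finset.sum_subset_zero_on_sdiff ?_ ?_ fun _ _ => rfl
  · intro p hp
    rw [Finset.mem_filter, Nat.mem_primeFactors] at hp
    rw [Finset.mem_filter, Finset.mem_range]
    exact ⟨by omega, hp.1.1⟩
  · intro p hp
    rw [Finset.mem_sdiff, Finset.mem_filter, Finset.mem_range, Finset.mem_filter] at hp
    by_contra h0
    have h1 : p ∈ m.primeFactors := by
      rw [← Nat.support_factorization, Finsupp.mem_support_iff]
      exact h0
    exact hp.2 ⟨h1, by omega⟩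

/-- `5` is not a square -/
theorem BasE_five {a b : ℤ} (hb : b ≠ 0) : a ^ 2 - 5 * b ^ 2 ≠ 0 := by
  intro h
  have h1 : Irrational (Real.sqrt 5) := Nat.Prime.irrational_sqrt (by norm_num)
  refine h1 ⟨|(a : ℚ) / b|, ?_⟩
  have hbR : (b : ℝ) ≠ 0 := by exact_mod_cast hb
  have h2 : (a : ℝ) ^ 2 = 5 * (b : ℝ) ^ 2 := by
    have h3 : ((a ^ 2 - 5 * b ^ 2 : ℤ) : ℝ) = 0 := by exact_mod_cast congrArg (fun x : ℤ => (x : ℝ)) h
    push_cast at h3
    linarith
  have h3 : ((a : ℝ) / b) ^ 2 = 5 := by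
    rw [div_pow, h2]
    field_simp
  rw [← h3, Real.sqrt_sq_eq_abs]
  push_cast
  rfl

/-- primes `≡ 1 (mod 5)`, all different and large -/
theorem BasE_q (n K : ℕ) : ∃ q : V n → ℕ, Function.Injective q ∧ ∀ v, (q v).Prime ∧ q v % 5 = 1 ∧ K < q v := by
  have hinf : {p : ℕ | p.Prime ∧ p % 5 = 1 ∧ K < p}.Infinite := by
    rw [Set.infinite_iff_exists_gt]
    intro a
    obtain ⟨p, hp, hlt, hmod⟩ := Nat.exists_prime_gt_modEq_one (k := 5) (a + K) (by norm_num)
    refine ⟨p, ⟨hp, ?_, by omega⟩, by omega⟩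
    have h1 : p % 5 = 1 % 5 := hmod
    omega
  refine ⟨fun v => (hinf.natEmbedding _ (Fintype.equivFin (V n) v).val : ℕ), ?_, fun v =>
    (hinf.natEmbedding _ (Fintype.equivFin (V n) v).val).2⟩
  intro u v h
  have h1 := (hinf.natEmbedding _).injective (Subtype.ext h)
  exact (Fintype.equivFin (V n)).injective (Fin.ext h1)

theorem BasE_ndvd {q : ℕ} {a : ℤ} (ha : a ≠ 0) (h : a.natAbs < q) : ¬ (q : ℤ) ∣ a := by
  intro h1
  have h2 := Int.le_of_dvd (by positivity : (0 : ℤ) < |a|) ((dvd_abs _ _).2 h1)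
  have h3 : ((a.natAbs : ℕ) : ℤ) = |a| := Int.natCast_natAbs a
  omega

theorem exists_base {n : ℕ} {L : V n → V n → ℕ} {y : V n → ℕ} (hL : ∀ u v, 1 ≤ L u v)
    (hc : Cfg L y) (w₀ : ℕ) : ∃ F₀ : ℕ, ∀ F : ℕ, F₀ ≤ F → ∃ (B w E : ℕ) (δ : V n → V n → ℤ × ℤ),
      w₀ ≤ w ∧ BaseP L y B w E F δ := by
  classical
  obtain ⟨B₁, hB₁⟩ := exists_B1 hc
  -- a bound for all the numbers of the configuration
  obtain ⟨K, hK⟩ : ∃ K, K = w₀ + 24 * n + ∑ u, y u + ∑ u : V n, ∑ v : V n, hd y u v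
    + ∑ u : V n, ∑ v : V n, ((xc u.1 : ℤ) * y v - xc v.1 * y u).natAbs
    + ∑ u : V n, ∑ v : V n, (((xc u.1 : ℤ) * y v - xc v.1 * y u) ^ 2
        - 5 * (xc u.1 : ℤ) ^ 2 * (xc v.1 : ℤ) ^ 2).natAbs + 2 := ⟨_, rfl⟩
  have hsum2 : ∀ (f : V n → V n → ℕ) (u v : V n), f u v ≤ ∑ u, ∑ v, f u v := fun f u v =>
    (Finset.single_le_sum (f := fun v => f u v) (fun _ _ => Nat.zero_le _) (Finset.mem_univ v)).trans
      (Finset.single_le_sum (f := fun u => ∑ v, f u v) (fun _ _ => Nat.zero_le _) (Finset.mem_univ u))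
  have hKy : ∀ u, y u ≤ K := fun u => by
    have h1 : y u ≤ ∑ u, y u := Finset.single_le_sum (fun _ _ => Nat.zero_le _) (Finset.mem_univ u)
    omega
  have hKh : ∀ u v, hd y u v ≤ K := fun u v => by
    have h1 := hsum2 (fun u v => hd y u v) u v
    omega
  have hKd : ∀ u v : V n, ((xc u.1 : ℤ) * y v - xc v.1 * y u).natAbs ≤ K := fun u v => by
    have h1 := hsum2 (fun u v => ((xc u.1 : ℤ) * y v - xc v.1 * y u).natAbs) u v
    omega
  have hKs : ∀ u v : V n, (((xc u.1 : ℤ) * y v - xc v.1 * y u) ^ 2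
        - 5 * (xc u.1 : ℤ) ^ 2 * (xc v.1 : ℤ) ^ 2).natAbs ≤ K := fun u v => by
    have h1 := hsum2 (fun u v => (((xc u.1 : ℤ) * y v - xc v.1 * y u) ^ 2
        - 5 * (xc u.1 : ℤ) ^ 2 * (xc v.1 : ℤ) ^ 2).natAbs) u v
    omega
  obtain ⟨q, hqinj, hq⟩ := BasE_q n K
  obtain ⟨w, hw⟩ : ∃ w, w = K + ∑ v, q v := ⟨_, rfl⟩
  have hqw : ∀ v, q v ≤ w := fun v => by
    have h1 : q v ≤ ∑ v, q v := Finset.single_le_sum (fun _ _ => Nat.zero_le _) (Finset.mem_univ v)
    omega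
  obtain ⟨P, hP⟩ : ∃ P : Finset ℕ, P = (range (w + 1)).filter (fun p => p.Prime ∧ ∀ v, q v ≠ p) :=
    ⟨_, rfl⟩
  have hPm : ∀ p, p ∈ P ↔ p ≤ w ∧ p.Prime ∧ ∀ v, q v ≠ p := fun p => by
    rw [hP, Finset.mem_filter, Finset.mem_range, Nat.lt_succ_iff]
  obtain ⟨N₁, hN₁⟩ : ∃ N₁ : V n → ℕ, N₁ = fun v => (nm (Xs y B₁ v)).natAbs := ⟨_, rfl⟩
  obtain ⟨F₁, hF₁⟩ : ∃ F₁ : V n → ℕ, F₁ = fun v => ∑ p ∈ P, (N₁ v).factorization p := ⟨_, rfl⟩
  refine ⟨1 + ∑ v, F₁ v, fun F hF => ?_⟩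
  have hF1 : ∀ v, F₁ v + 1 ≤ F := fun v => by
    have h1 : F₁ v ≤ ∑ v, F₁ v := Finset.single_le_sum (fun _ _ => Nat.zero_le _) (Finset.mem_univ v)
    omega
  obtain ⟨e, he⟩ : ∃ e : V n → ℕ, e = fun v => F - F₁ v := ⟨_, rfl⟩
  have he1 : ∀ v, 1 ≤ e v := fun v => by
    have h1 := hF1 v
    rw [he]
    dsimp only
    omega
  have hβ : ∀ v, ∃ β : ℕ, ((q v ^ e v : ℕ) : ℤ) ∣ nm (Xs y β v) ∧
      ¬ ((q v ^ (e v + 1) : ℕ) : ℤ) ∣ nm (Xs y β v) := fun v =>
    loc_q (q v) (hq v).1 (Or.inl (hq v).2.1) (xc v.1) (y v) (e v) (BasE_xc v.1) (he1 v)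
  choose β hβ using hβ
  obtain ⟨M₁, hM₁⟩ : ∃ M₁, M₁ = 1 + ∑ v, F₁ v + ∑ u : V n, ∑ v : V n, hd y u v := ⟨_, rfl⟩
  -- Chinese remainder theorem
  obtain ⟨md, hmd⟩ : ∃ md : Option (V n) → ℕ, md = fun o => match o with
    | none => ∏ p ∈ P, p ^ M₁
    | some v => q v ^ (e v + 1) := ⟨_, rfl⟩
  obtain ⟨rs, hrs⟩ : ∃ rs : Option (V n) → ℕ, rs = fun o => match o with
    | none => B₁
    | some v => β v := ⟨_, rfl⟩
  have hmdn : md none = ∏ p ∈ P, p ^ M₁ := by rw [hmd]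
  have hmds : ∀ v, md (some v) = q v ^ (e v + 1) := fun v => by rw [hmd]
  have hcpn : ∀ v, Nat.Coprime (∏ p ∈ P, p ^ M₁) (q v ^ (e v + 1)) := fun v => by
    refine Nat.Coprime.prod_left fun p hp => Nat.Coprime.pow _ _ ?_
    have h1 := (hPm p).1 hp
    exact (Nat.coprime_primes h1.2.1 (hq v).1).2 (Ne.symm (h1.2.2 v))
  have hcps : ∀ u v, u ≠ v → Nat.Coprime (q u ^ (e u + 1)) (q v ^ (e v + 1)) := fun u v huv =>
    Nat.Coprime.pow _ _ ((Nat.coprime_primes (hq u).1 (hq v).1).2 fun h => huv (hqinj h))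
  obtain ⟨B, hB⟩ : ∃ B : ℕ, ∀ o : Option (V n), B ≡ rs o [MOD md o] := by
    have h1 := Nat.chineseRemainderOfFinset rs md Finset.univ (fun o _ => ?_) ?_
    · exact ⟨h1.1, fun o => h1.2 o (Finset.mem_univ o)⟩
    · rcases o with _ | v
      · rw [hmdn]
        exact Finset.prod_ne_zero_iff.2 fun p hp => pow_ne_zero _ ((hPm p).1 hp).2.1.ne_zero
      · rw [hmds]
        exact pow_ne_zero _ (hq v).1.ne_zero
    · intro o _ o' _ hne
      show Nat.Coprime (md o) (md o')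
      rcases o with _ | u <;> rcases o' with _ | v
      · exact absurd rfl hne
      · rw [hmdn, hmds]
        exact hcpn v
      · rw [hmdn, hmds]
        exact (hcpn u).symm
      · rw [hmds, hmds]
        exact hcps u v fun h => hne (by rw [h])
  have hBn : ((∏ p ∈ P, p ^ M₁ : ℕ) : ℤ) ∣ (B : ℤ) - B₁ := by
    have h1 := (Nat.modEq_iff_dvd.1 (hB none).symm)
    rw [hmdn, hrs] at h1
    exact h1
  have hBs : ∀ v, ((q v ^ (e v + 1) : ℕ) : ℤ) ∣ (B : ℤ) - β v := fun v => by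
    have h1 := (Nat.modEq_iff_dvd.1 (hB (some v)).symm)
    rw [hmds, hrs] at h1
    exact h1
  obtain ⟨N, hN⟩ : ∃ N : V n → ℕ, N = fun v => (nm (Xs y B v)).natAbs := ⟨_, rfl⟩
  have hNp : ∀ v, N v ≠ 0 := fun v => by
    rw [hN]
    exact Int.natAbs_ne_zero.2 (BasE_pos y B v).ne'
  have hN₁p : ∀ v, N₁ v ≠ 0 := fun v => by
    rw [hN₁]
    exact Int.natAbs_ne_zero.2 (BasE_pos y B₁ v).ne'
  have hNd : ∀ (v : V n) (d : ℕ), d ∣ N v ↔ (d : ℤ) ∣ nm (Xs y B v) := fun v d => by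
    rw [hN, Int.natCast_dvd]
  have hN₁d : ∀ (v : V n) (d : ℕ), d ∣ N₁ v ↔ (d : ℤ) ∣ nm (Xs y B₁ v) := fun v d => by
    rw [hN₁, Int.natCast_dvd]
  -- valuations at the small primes
  have hvP : ∀ v, ∀ p ∈ P, (N v).factorization p = (N₁ v).factorization p := fun v p hp => by
    have hpp := ((hPm p).1 hp).2.1
    have h1 : (N₁ v).factorization p ≤ ∑ v, F₁ v := by
      have h2 : (N₁ v).factorization p ≤ F₁ v := by
        rw [hF₁]
        exact Finset.single_le_sum (f := fun p => (N₁ v).factorization p)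
          (fun _ _ => Nat.zero_le _) hp
      exact h2.trans (Finset.single_le_sum (fun _ _ => Nat.zero_le _) (Finset.mem_univ v))
    have hcg : ∀ j, j ≤ M₁ → (p ^ j ∣ N v ↔ p ^ j ∣ N₁ v) := fun j hj => by
      rw [hNd, hN₁d]
      have h2 : ((p ^ j : ℕ) : ℤ) ∣ nm (Xs y B v) - nm (Xs y B₁ v) := by
        refine BasE_cg y (dvd_trans ?_ hBn) v
        exact_mod_cast (pow_dvd_pow p hj).trans (Finset.dvd_prod_of_mem (fun p => p ^ M₁) hp)
      exact (dvd_iff_dvd_of_dvd_sub h2)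
    refine BasE_fac hpp (hNp v) ?_ ?_
    · rw [hcg _ (by omega)]
      exact Nat.ordProj_dvd _ _
    · rw [hcg _ (by omega)]
      exact Nat.pow_succ_factorization_not_dvd (hN₁p v) hpp
  have hvq : ∀ v, (N v).factorization (q v) = e v := fun v => by
    have h1 := BasE_cg y (hBs v) v
    refine BasE_fac (hq v).1 (hNp v) ?_ ?_
    · rw [hNd]
      have h2 : ((q v ^ e v : ℕ) : ℤ) ∣ nm (Xs y B v) - nm (Xs y (β v) v) :=
        dvd_trans (by exact_mod_cast pow_dvd_pow (q v) (Nat.le_succ (e v))) h1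
      exact (dvd_iff_dvd_of_dvd_sub h2).2 (hβ v).1
    · rw [hNd, dvd_iff_dvd_of_dvd_sub h1]
      exact (hβ v).2
  have hvo : ∀ u v, u ≠ v → (N u).factorization (q v) = 0 := fun u v huv => by
    refine Nat.factorization_eq_zero_of_not_dvd ?_
    rw [hNd]
    have hx : ∀ g : Fin 3, ¬ q v ∣ xc g := fun g h => by
      have h1 := (hq v).2.2
      have h2 : q v ≤ xc g := Nat.le_of_dvd (by rcases BasE_xc g with h3 | h3 <;> omega) h
      rcases BasE_xc g with h3 | h3 <;> omega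
    have h1 : (q v : ℤ) ∣ nm (Xs y B v) := by
      rw [← hNd]
      refine dvd_trans (dvd_pow_self (q v) (n := e v) (by have := he1 v; omega)) ?_
      rw [← hvq v]
      exact Nat.ordProj_dvd _ _
    have hd0 := inj hL hc v u (Ne.symm huv)
    refine loc_other (q v) (hq v).1 (xc v.1) (y v) (xc u.1) (y u) B (hx _) (hx _) h1
      (BasE_ndvd hd0 ((hKd v u).trans_lt (hq v).2.2))
      (BasE_ndvd ?_ ((hKs v u).trans_lt (hq v).2.2))
    have h2 := BasE_five (a := (xc v.1 : ℤ) * y u - xc u.1 * y v) (b := (xc v.1 : ℤ) * xc u.1)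
      (mul_ne_zero (by rcases BasE_xc v.1 with h3 | h3 <;> rw [h3] <;> norm_num)
        (by rcases BasE_xc u.1 with h3 | h3 <;> rw [h3] <;> norm_num))
    intro h3
    apply h2
    rw [← h3]
    ring
  -- the number of small prime factors
  have hsm : ∀ v, sOm w (N v) = F := fun v => by
    rw [BasE_sOm]
    have h1 : (range (w + 1)).filter (fun p => p.Prime)
        = P ∪ (Finset.univ.image q) := by
      ext p
      rw [Finset.mem_filter, Finset.mem_range, Nat.lt_succ_iff, Finset.mem_union, hPm,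
        Finset.mem_image]
      constructor
      · rintro ⟨h2, h3⟩
        by_cases h4 : ∃ v, q v = p
        · obtain ⟨v, hv⟩ := h4
          exact Or.inr ⟨v, Finset.mem_univ v, hv⟩
        · push Not at h4
          exact Or.inl ⟨h2, h3, h4⟩
      · rintro (⟨h2, h3, -⟩ | ⟨v, -, rfl⟩)
        · exact ⟨h2, h3⟩
        · exact ⟨hqw v, (hq v).1⟩
    have h2 : Disjoint P (Finset.univ.image q) := by
      rw [Finset.disjoint_left]
      intro p hp hp'
      obtain ⟨v, -, hv⟩ := Finset.mem_image.1 hp'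
      exact ((hPm p).1 hp).2.2 v hv
    rw [h1, Finset.sum_union h2, Finset.sum_congr rfl (hvP v),
      Finset.sum_image fun a _ b _ h => hqinj h, Finset.sum_eq_single v, hvq]
    · have h3 := hF1 v
      rw [he]
      have h4 : ∑ p ∈ P, (N₁ v).factorization p = F₁ v := by rw [hF₁]
      rw [h4]
      dsimp only
      omega
    · intro u _ hne
      exact hvo v u (Ne.symm hne)
    · intro h
      exact absurd (Finset.mem_univ v) h
  -- the determinants
  have hhp : ∀ u v : V n, u.1 < v.1 → 0 < hd y u v := fun u v h => (hc.spl u v h).1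
  have hhB : ∀ u v : V n, u.1 < v.1 → (hd y u v : ℤ) ∣ (B : ℤ) - B₁ := fun u v h => by
    refine dvd_trans ?_ hBn
    have h1 : hd y u v ∣ ∏ p ∈ P, p ^ M₁ := by
      have h0 := (hhp u v h).ne'
      conv_lhs => rw [← Nat.prod_factorization_pow_eq_self h0]
      rw [Finsupp.prod, Nat.support_factorization]
      have hsub : (hd y u v).primeFactors ⊆ P := fun p hp => by
        have h2 := Nat.mem_primeFactors.1 hp
        have h3 := Nat.le_of_dvd (hhp u v h) h2.2.1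
        have h4 := hKh u v
        refine (hPm p).2 ⟨by omega, h2.1, fun s hs => ?_⟩
        have h5 := (hq s).2.2
        omega
      refine dvd_trans (Finset.prod_dvd_prod_of_dvd _ (fun p => p ^ M₁) fun p hp => ?_)
        (Finset.prod_dvd_prod_of_subset _ _ _ hsub)
      refine pow_dvd_pow p ?_
      have h2 : (hd y u v).factorization p < hd y u v := Nat.factorization_lt p h0
      have h3 := hsum2 (fun u v => hd y u v) u v
      omega
    exact_mod_cast h1
  have hhN : ∀ u v : V n, u.1 < v.1 → (hd y u v : ℤ) ∣ nm (Xs y B u) := fun u v h =>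
    (dvd_iff_dvd_of_dvd_sub (BasE_cg y (hhB u v h) u)).2 (hB₁ u v h)
  have hδ : ∀ u v : V n, ∃ δ : ℤ × ℤ, u.1 < v.1 → TP δ ∧ nm δ = hd y u v ∧
      (∃ x, ml δ x = Xs y B u) ∧ ∃ x, ml δ x = Xs y B v := fun u v => by
    by_cases h : u.1 < v.1
    · have hcop : IsCoprime (Xs y B u).1 (Xs y B u).2 := by
        unfold Xs
        rw [BasE_xc1 h]
        push_cast
        exact isCoprime_one_left
      obtain ⟨δ, x, h1, h2, h3⟩ := exists_del (hd y u v) (hc.spl u v h) (Xs y B u) hcop (hhN u v h)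
      refine ⟨δ, fun _ => ⟨h1, h2, ⟨x, h3⟩, del_snd hcop h2 h3 ?_⟩⟩
      have h4 : dt (Xs y B u) (Xs y B v) = hd y u v := by
        unfold dt Xs hd
        rw [Nat.cast_sub (hc.lt u v h).le, BasE_xc1 h]
        push_cast
        ring
      rw [h4]
    · exact ⟨(0, 0), fun h' => absurd h' h⟩
  choose δ hδ using hδ
  obtain ⟨E, hE⟩ : ∃ E, E = 1 + ∑ v, N v := ⟨_, rfl⟩
  refine ⟨B, w, E, δ, by omega, hc, by omega, fun v => (hKy v).trans (by omega), by omega,
    fun v => ?_, fun v => by have h1 := hsm v; rw [hN] at h1; exact h1, fun u v h => ?_, fun u v h => (hδ u v h).1, fun u v h => (hδ u v h).2.1,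
    fun u v h => (hδ u v h).2.2.1, fun u v h => (hδ u v h).2.2.2⟩
  · have h1 : N v ≤ ∑ v, N v := Finset.single_le_sum (fun _ _ => Nat.zero_le _) (Finset.mem_univ v)
    have h2 : N v < 2 ^ E := lt_of_le_of_lt (by omega : N v ≤ E) (Nat.lt_two_pow_self)
    have h3 : ((N v : ℕ) : ℤ) = nm (Xs y B v) := by
      rw [hN]
      exact Int.natAbs_of_nonneg (BasE_pos y B v).le
    rw [← h3]
    exact_mod_cast h2
  · have h1 : hd y u v ∣ w.factorial := Nat.dvd_factorial (hhp u v h) ((hKh u v).trans (by omega))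
    exact h1.trans (dvd_pow_self _ (by omega))

end Pool.Agent.Lib.MP_d57abb_nt.EE
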