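import Mathlib
import Pool.Agent.Lib.MP_d57abb_nt.EE.Defs

/-!
# Definitions for squarefree values with an exact number of prime factors
-/

namespace Pool.Agent.Lib.MP_d57abb_nt.EE

open Finset Pool.Agent.Lib.MP_d57abb_nt Pool.Agent.Lib.MP_d57abb_nt.All Pool.Agent.Lib.MP_d57abb_nt.AP
  Pool.Agent.Lib.MP_d57abb_nt.Ev ArithmeticFunction

/-- the residues modulo the small primes -/
def pt (g : Fin 3) : ℕ := if g = 0 then 0 else 1

/-- the determinant of `(xc u.1, y u)` and `(xc s.1, y s)`, for any two vertices -/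
def dd {n : ℕ} (y : V n → ℕ) (u s : V n) : ℤ := (xc u.1 : ℤ) * y s - xc s.1 * y u

/-- a labelled configuration with squarefree cross determinants; a prime `p` dividing `hd y u v` puts the vectors of
`u` and `v` on one line modulo `p`, and no other vector is on this line or on its conjugate -/
structure CfgS {n : ℕ} (L : V n → V n → ℕ) (y : V n → ℕ) : Prop extends Cfg L y where
  sqf : ∀ u v : V n, u.1 < v.1 → Squarefree (hd y u v)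
  gen : ∀ u v s : V n, u.1 < v.1 → s ≠ u → s ≠ v → ∀ p : ℕ, p.Prime → p ∣ hd y u v →
    ¬ (p : ℤ) ∣ dd y u s ∧ ¬ (p : ℤ) ∣ dd y u s ^ 2 - 5 * (xc u.1 : ℤ) ^ 2 * (xc s.1 : ℤ) ^ 2
  pat : ∀ (v : V n) (p : ℕ), p.Prime → p ≤ 12 * n ^ 2 → y v ≡ pt v.1 [MOD p]

/-- the base data: the small parts of the norms are squarefree, and those of a cross pair are coprime outside `hd` -/
structure BasePS {n : ℕ} (L : V n → V n → ℕ) (y : V n → ℕ) (B w E F : ℕ) (δ : V n → V n → ℤ × ℤ) : Prop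
    extends BaseP L y B w E F δ where
  E2 : 2 ≤ E
  sqs : ∀ (v : V n) (p : ℕ), p.Prime → p ≤ w → ¬ ((p ^ 2 : ℕ) : ℤ) ∣ nm (Xs y B v)
  cops : ∀ (u v : V n) (p : ℕ), u.1 < v.1 → p.Prime → p ≤ w → (p : ℤ) ∣ nm (Xs y B u) →
    (p : ℤ) ∣ nm (Xs y B v) → p ∣ hd y u v

/-- the residues, with squarefree `D` -/
structure ResS {n : ℕ} (L : V n → V n → ℕ) (w' w₁ W₀ : ℕ) (r : V n → ℕ) (D W₁ n₀ : V n × V n → ℕ) : Prop
    extends Res L w₁ W₀ r D W₁ n₀ where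
  sqf : ∀ e ∈ EC n, Squarefree (D e)
  gen : ∀ e ∈ EC n, ∀ s : V n, s ≠ e.1 → s ≠ e.2 → ∀ p : ℕ, p.Prime → p ∣ D e →
    ¬ (p : ℤ) ∣ dd r e.1 s ∧ ¬ (p : ℤ) ∣ dd r e.1 s ^ 2 - 5 * (xc e.1.1 : ℤ) ^ 2 * (xc s.1 : ℤ) ^ 2
  pat : ∀ (v : V n) (p : ℕ), p.Prime → p ≤ w' → r v ≡ pt v.1 [MOD p]

/-- the values counted in the theorem -/
def FS (r w C N : ℕ) : Finset ℕ := (Icc 1 N).filter (fun k => Squarefree (k ^ 2 + 3 * k + 1) ∧
  (k ^ 2 + 3 * k + 1).primeFactors.card = r ∧ ∀ p ∈ (k ^ 2 + 3 * k + 1).primeFactors, p ≤ w ∨ k ≤ p ^ C)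

open Classical in
/-- the values which come from the frames -/
noncomputable def FZ (r w z N : ℕ) : Finset ℕ := (Icc 1 N).filter (fun k => cardFactors (k ^ 2 + 3 * k + 1) = r ∧
  (∀ ℓ : ℕ, ℓ.Prime → ℓ ≤ z → ¬ ℓ ^ 2 ∣ k ^ 2 + 3 * k + 1) ∧
  ∀ p : ℕ, p.Prime → p ∣ k ^ 2 + 3 * k + 1 → p ≤ w ∨ z < p)

open Classical in
/-- the values divisible by the square of a large prime -/
noncomputable def BadSq (z N : ℕ) : Finset ℕ := (Icc 1 N).filter (fun k => ∃ ℓ : ℕ, ℓ.Prime ∧ z < ℓ ∧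
  ℓ ^ 2 ∣ k ^ 2 + 3 * k + 1)

end Pool.Agent.Lib.MP_d57abb_nt.EE
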