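import Mathlib
import Pool.Agent.Lib.MP_d57abb_nt.EE.LocE
import Pool.Agent.Lib.MP_d57abb_nt.EE.DefS

/-!
# JOB LocS: local choices, squarefree version

PROOF of `loc_h`.  `p ≡ ± 1 (mod 5)`, so `p ≥ 11` and `p` is prime to `x' ∈ {1, 2}`.  Let `t₀` be a root: `p² ∣ 1 + 3 t₀ + t₀²` (`exists_rt (p^2)`, `Spl (p^2)`).  For `t = t₀ + p j`: `1 + 3 t + t² ≡ p j (3 + 2 t₀) (mod p²)`, and `p ∤ 3 + 2 t₀` (`(3 + 2 t₀)² = 4 (1 + 3t₀ + t₀²) + 5`).
Choose `β` with `β + y ≡ t₀ + p j (mod p²)`.  Then `nm (1, β + y) = 1 + 3 t + t²` is divisible by `p`, and by `p²` only if `p ∣ j`.  `x' β + y' = x' (β + y) + p h'`, so `nm (x', x' β + y') = nm (x', x' t + p h') ≡ x'² (1 + 3 t + t²) + p h' x' (3 + 2 t) (mod p²)`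
`≡ p x' (3 + 2 t₀) (x' j + h') (mod p²)`: divisible by `p`, and by `p²` only if `p ∣ x' j + h'`.  Among `j = 1, 2` at least one has `p ∤ x' j + h'` (otherwise `p ∣ x'`), and `p ∤ j`.
PROOF of `loc_free`.  If `p ≤ 12 n²`: by `pat`, `y v ≡ pt v.1 (mod p)`, so the norm is congruent to `nm (1, β)`, `nm (1, β + 1)` or `nm (2, 2 β + 1)`; for `p = 2` these are odd for every `β` (`nm (1, t) = 1 + 3 t + t²`, `nm (2, odd)`); for `p = 3`: `nm (x, t) ≡ x² + t² (mod 3)`, not `0` as `3 ∤ x`; `p = 5`: `β = 2` works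
(`nm (1,2) = 11`, `nm (1,3) = 19`, `nm (2,5) = 59`); for `p ≥ 7`: every condition `p ∣ nm (x, x β + c)`, `x ∈ {1, 2}`, has at most two solutions `β` modulo `p` (a monic quadratic polynomial after division by `x²`), in all at most `6 < p`.
If `p > 12 n²` then (`n ≥ 1`, as there is a vertex; otherwise nothing to prove) `p > 6 n`, `p` is odd, and each of the `3 n` conditions `p ∣ nm (xc v.1, xc v.1 β + y v)` has at most two solutions modulo `p`: at most `6 n < p` bad `β`.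
-/

open Finset

namespace Pool.Agent.Lib.MP_d57abb_nt.EE

open Pool.Agent.Lib.MP_d57abb_nt Pool.Agent.Lib.MP_d57abb_nt.All

theorem LocS_two {p x y : ℕ} (hp : p.Prime) (hx : ¬ (p : ℤ) ∣ (x : ℤ)) :
    ((range p).filter (fun β : ℕ => (p : ℤ) ∣ nm ((x : ℤ), ((x * β + y : ℕ) : ℤ)))).card ≤ 2 := by
  by_contra hlt
  push Not at hlt
  obtain ⟨a, ha, b, hb, c, hc, hab, hac, hbc⟩ := Finset.two_lt_card.1 hlt
  rw [mem_filter, mem_range] at ha hb hc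
  have hpi : Prime (p : ℤ) := Nat.prime_iff_prime_int.1 hp
  have hne : ∀ u v : ℕ, u < p → v < p → u ≠ v → ¬ (p : ℤ) ∣ (u : ℤ) - v := by
    intro u v hu hv huv hd
    have h1 : u ≡ v [MOD p] := by
      have h2 : (v : ℤ) ≡ u [ZMOD p] := (Int.modEq_iff_dvd.2 hd)
      exact ((Int.natCast_modEq_iff.1 h2)).symm
    exact huv (Nat.ModEq.eq_of_lt_of_lt h1 hu hv)
  have key : ∀ u v : ℕ, u < p → v < p → u ≠ v → (p : ℤ) ∣ nm ((x : ℤ), ((x * u + y : ℕ) : ℤ)) →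
      (p : ℤ) ∣ nm ((x : ℤ), ((x * v + y : ℕ) : ℤ)) → (p : ℤ) ∣ 3 * x + x * u + x * v + 2 * y := by
    intro u v hu hv huv h1 h2
    have h3 : (p : ℤ) ∣ (x : ℤ) * (((u : ℤ) - v) * (3 * x + x * u + x * v + 2 * y)) := by
      have h4 := dvd_sub h1 h2
      have h5 : nm ((x : ℤ), ((x * u + y : ℕ) : ℤ)) - nm ((x : ℤ), ((x * v + y : ℕ) : ℤ)) =
          (x : ℤ) * (((u : ℤ) - v) * (3 * x + x * u + x * v + 2 * y)) := by
        simp only [nm]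
        push_cast
        ring
      rw [h5] at h4
      exact h4
    rcases hpi.dvd_or_dvd h3 with h | h
    · exact absurd h hx
    · rcases hpi.dvd_or_dvd h with h | h
      · exact absurd h (hne u v hu hv huv)
      · exact h
  have h1 := key a b ha.1 hb.1 hab ha.2 hb.2
  have h2 := key a c ha.1 hc.1 hac ha.2 hc.2
  have h3 : (p : ℤ) ∣ (x : ℤ) * ((b : ℤ) - c) := by
    have h4 := dvd_sub h1 h2
    have h5 : (3 * (x : ℤ) + x * a + x * b + 2 * y) - (3 * x + x * a + x * c + 2 * y) =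
        (x : ℤ) * ((b : ℤ) - c) := by ring
    rw [h5] at h4
    exact h4
  rcases hpi.dvd_or_dvd h3 with h | h
  · exact hx h
  · exact hne b c hb.1 hc.1 hbc h

theorem LocS_congr {p x y y' β : ℕ} (h : y ≡ y' [MOD p])
    (h1 : ¬ (p : ℤ) ∣ nm ((x : ℤ), ((x * β + y' : ℕ) : ℤ))) :
    ¬ (p : ℤ) ∣ nm ((x : ℤ), ((x * β + y : ℕ) : ℤ)) := by
  intro h2
  apply h1
  obtain ⟨k, hk⟩ : (p : ℤ) ∣ (y' : ℤ) - y := (Nat.modEq_iff_dvd.1 h)
  have h3 : ((x * β + y' : ℕ) : ℤ) = ((x * β + y : ℕ) : ℤ) + p * k := by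
    push_cast
    linarith
  obtain ⟨u, hu⟩ : ∃ u : ℤ, u = ((x * β + y : ℕ) : ℤ) := ⟨_, rfl⟩
  rw [h3, ← hu]
  rw [← hu] at h2
  simp only [nm] at h2 ⊢
  have h4 : (x : ℤ) ^ 2 + 3 * x * (u + p * k) + (u + p * k) ^ 2 =
      ((x : ℤ) ^ 2 + 3 * x * u + u ^ 2) + p * (k * (3 * x + 2 * u + p * k)) := by ring
  rw [h4]
  exact dvd_add h2 (dvd_mul_right _ _)

theorem loc_h (p : ℕ) (hp : p.Prime) (h5 : p % 5 = 1 ∨ p % 5 = 4) (x' y y' h' : ℕ) (hx : x' = 1 ∨ x' = 2)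
    (hy : y' = x' * y + p * h') (hh : ¬ p ∣ h') :
    ∃ β : ℕ, (p : ℤ) ∣ nm ((1 : ℤ), ((β + y : ℕ) : ℤ)) ∧ ¬ ((p ^ 2 : ℕ) : ℤ) ∣ nm ((1 : ℤ), ((β + y : ℕ) : ℤ)) ∧
      (p : ℤ) ∣ nm ((x' : ℤ), ((x' * β + y' : ℕ) : ℤ)) ∧
      ¬ ((p ^ 2 : ℕ) : ℤ) ∣ nm ((x' : ℤ), ((x' * β + y' : ℕ) : ℤ)) := by
  have hp5 : p ≠ 5 := by
    rintro rfl
    omega
  have hp2 : p ≠ 2 := by
    rintro rfl
    omega
  have hspl : Spl (p ^ 2) := by
    refine ⟨pow_pos hp.pos _, fun q hq hqd => ?_⟩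
    have : q = p := (Nat.prime_dvd_prime_iff_eq hq hp).1 (hq.dvd_of_dvd_pow hqd)
    rw [this]
    exact h5
  obtain ⟨t, A, hA⟩ := exists_rt _ hspl
  have hp0 : (p : ℤ) ≠ 0 := by exact_mod_cast hp.ne_zero
  have hpi : Prime (p : ℤ) := Nat.prime_iff_prime_int.1 hp
  have hxp : ¬ (p : ℤ) ∣ (x' : ℤ) := by
    intro hd
    have hd' : p ∣ x' := by exact_mod_cast hd
    rcases hx with rfl | rfl
    · exact hp.one_lt.ne' (Nat.dvd_one.1 hd')
    · exact hp2 ((Nat.prime_dvd_prime_iff_eq hp Nat.prime_two).1 hd')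
  have h5p : ¬ (p : ℤ) ∣ 5 := by
    intro hd
    have hd' : p ∣ 5 := by exact_mod_cast hd
    exact hp5 ((Nat.prime_dvd_prime_iff_eq hp Nat.prime_five).1 hd')
  simp only [nm] at hA
  have hA' : 1 + 3 * (t : ℤ) + (t : ℤ) ^ 2 = (p : ℤ) ^ 2 * A := by
    push_cast at hA
    linear_combination hA
  have h3t : ¬ (p : ℤ) ∣ 3 + 2 * t := by
    rintro ⟨m, hm⟩
    apply h5p
    refine ⟨p * m ^ 2 - 4 * (p * A), ?_⟩
    have h1 : (5 : ℤ) = (3 + 2 * t) ^ 2 - 4 * (1 + 3 * t + (t : ℤ) ^ 2) := by ring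
    rw [h1, hA', hm]
    ring
  obtain ⟨j, hj0, hj1⟩ : ∃ j : ℕ, ¬ (p : ℤ) ∣ (j : ℤ) ∧ ¬ (p : ℤ) ∣ (x' : ℤ) * j + h' := by
    have hj1 : ¬ (p : ℤ) ∣ ((1 : ℕ) : ℤ) := by
      intro hd
      exact hp.one_lt.ne' (Nat.dvd_one.1 (by exact_mod_cast hd))
    have hj2 : ¬ (p : ℤ) ∣ ((2 : ℕ) : ℤ) := by
      intro hd
      exact hp2 ((Nat.prime_dvd_prime_iff_eq hp Nat.prime_two).1 (by exact_mod_cast hd))
    by_cases h1 : (p : ℤ) ∣ (x' : ℤ) * ((1 : ℕ) : ℤ) + h'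
    · refine ⟨2, hj2, fun h2 => hxp ?_⟩
      have h3 := dvd_sub h2 h1
      have h4 : (x' : ℤ) * ((2 : ℕ) : ℤ) + h' - ((x' : ℤ) * ((1 : ℕ) : ℤ) + h') = x' := by
        push_cast
        ring
      rw [h4] at h3
      exact h3
    · exact ⟨1, hj1, h1⟩
  have hcast : (((t + p * j + (p ^ 2 - 1) * y : ℕ) + y : ℕ) : ℤ) = t + p * (j + p * y) := by
    have h1 : 1 ≤ p ^ 2 := Nat.one_le_pow _ _ hp.pos
    obtain ⟨r, hr⟩ : ∃ r, p ^ 2 = r + 1 := ⟨p ^ 2 - 1, by omega⟩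
    have hr' : (p : ℤ) ^ 2 = r + 1 := by exact_mod_cast hr
    rw [hr, Nat.add_sub_cancel]
    push_cast
    linear_combination (-(y : ℤ)) * hr'
  refine ⟨t + p * j + (p ^ 2 - 1) * y, ?_⟩
  have hcast' : ((x' * (t + p * j + (p ^ 2 - 1) * y) + y' : ℕ) : ℤ) =
      x' * (t + p * (j + p * y)) + p * h' := by
    rw [hy, ← hcast]
    push_cast
    ring
  rw [hcast, hcast']
  obtain ⟨J, hJ⟩ : ∃ J : ℤ, J = (j : ℤ) + p * y := ⟨_, rfl⟩
  rw [← hJ]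
  have e1 : nm ((1 : ℤ), (t : ℤ) + p * J) = p * (j * (3 + 2 * t)) +
      (p : ℤ) ^ 2 * (A + y * (3 + 2 * t) + J ^ 2) := by
    simp only [nm]
    have h1 : (1 : ℤ) ^ 2 + 3 * 1 * (t + p * J) + ((t : ℤ) + p * J) ^ 2 =
        (1 + 3 * t + (t : ℤ) ^ 2) + p * (J * (3 + 2 * t)) + (p : ℤ) ^ 2 * J ^ 2 := by ring
    rw [h1, hA', hJ]
    ring
  have e2 : nm ((x' : ℤ), (x' : ℤ) * (t + p * J) + p * h') =
      p * (x' * ((3 + 2 * t) * (x' * j + h'))) +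
      (p : ℤ) ^ 2 * ((x' : ℤ) ^ 2 * (A + y * (3 + 2 * t) + J ^ 2) + 2 * x' * h' * J + (h' : ℤ) ^ 2) := by
    have h1 : nm ((x' : ℤ), (x' : ℤ) * (t + p * J) + p * h') =
        (x' : ℤ) ^ 2 * nm ((1 : ℤ), (t : ℤ) + p * J) + p * (x' * h' * (3 + 2 * (t + p * J))) +
          (p : ℤ) ^ 2 * (h' : ℤ) ^ 2 := by
      simp only [nm]
      ring
    rw [h1, e1]
    ring
  have hd1 : ∀ P Q : ℤ, (p : ℤ) ∣ p * P + (p : ℤ) ^ 2 * Q := by
    intro P Q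
    exact ⟨P + p * Q, by ring⟩
  have hd2 : ∀ P Q : ℤ, ¬ (p : ℤ) ∣ P → ¬ ((p ^ 2 : ℕ) : ℤ) ∣ p * P + (p : ℤ) ^ 2 * Q := by
    rintro P Q hP ⟨m, hm⟩
    apply hP
    refine ⟨m - Q, ?_⟩
    apply mul_left_cancel₀ hp0
    push_cast at hm
    linear_combination hm
  have hn1 : ¬ (p : ℤ) ∣ j * (3 + 2 * t) := by
    intro hd
    rcases hpi.dvd_or_dvd hd with h | h
    · exact hj0 h
    · exact h3t h
  have hn2 : ¬ (p : ℤ) ∣ x' * ((3 + 2 * t) * (x' * j + h')) := by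
    intro hd
    rcases hpi.dvd_or_dvd hd with h | h
    · exact hxp h
    · rcases hpi.dvd_or_dvd h with h | h
      · exact h3t h
      · exact hj1 h
  rw [e1, e2]
  exact ⟨hd1 _ _, hd2 _ _ hn1, hd1 _ _, hd2 _ _ hn2⟩

theorem loc_free {n : ℕ} {L : V n → V n → ℕ} {y : V n → ℕ} (hc : CfgS L y) (p : ℕ) (hp : p.Prime) :
    ∃ β : ℕ, ∀ v : V n, ¬ (p : ℤ) ∣ nm ((xc v.1 : ℤ), ((xc v.1 * β + y v : ℕ) : ℤ)) := by
  by_cases hpn : p ≤ 12 * n ^ 2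
  · -- small primes: the residues are prescribed
    have key : ∃ β : ℕ, ∀ g : Fin 3, ¬ (p : ℤ) ∣ nm ((xc g : ℤ), ((xc g * β + pt g : ℕ) : ℤ)) := by
      have hm : ∀ m : ℕ, ¬ p ∣ m → ¬ (p : ℤ) ∣ (m : ℤ) := fun m h h1 => h (by exact_mod_cast h1)
      have red : ∀ β : ℕ, ¬ p ∣ 1 + 3 * β + β ^ 2 → ¬ p ∣ 1 + 3 * (β + 1) + (β + 1) ^ 2 →
          ¬ p ∣ 4 + 6 * (2 * β + 1) + (2 * β + 1) ^ 2 →
          ∀ g : Fin 3, ¬ (p : ℤ) ∣ nm ((xc g : ℤ), ((xc g * β + pt g : ℕ) : ℤ)) := by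
        intro β h0 h1 h2 g
        fin_cases g
        · have e : nm ((xc 0 : ℤ), ((xc 0 * β + pt 0 : ℕ) : ℤ)) = ((1 + 3 * β + β ^ 2 : ℕ) : ℤ) := by
            simp [nm, xc, pt]
          show ¬ (p : ℤ) ∣ nm ((xc 0 : ℤ), ((xc 0 * β + pt 0 : ℕ) : ℤ))
          rw [e]
          exact hm _ h0
        · have e : nm ((xc 1 : ℤ), ((xc 1 * β + pt 1 : ℕ) : ℤ)) =
              ((1 + 3 * (β + 1) + (β + 1) ^ 2 : ℕ) : ℤ) := by
            simp [nm, xc, pt]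
          show ¬ (p : ℤ) ∣ nm ((xc 1 : ℤ), ((xc 1 * β + pt 1 : ℕ) : ℤ))
          rw [e]
          exact hm _ h1
        · have e : nm ((xc 2 : ℤ), ((xc 2 * β + pt 2 : ℕ) : ℤ)) =
              ((4 + 6 * (2 * β + 1) + (2 * β + 1) ^ 2 : ℕ) : ℤ) := by
            simp only [nm, xc, pt]
            push_cast
            simp
          show ¬ (p : ℤ) ∣ nm ((xc 2 : ℤ), ((xc 2 * β + pt 2 : ℕ) : ℤ))
          rw [e]
          exact hm _ h2
      by_cases h5 : p = 5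
      · subst h5
        exact ⟨2, red 2 (by decide) (by decide) (by decide)⟩
      · by_cases h11 : p = 11
        · subst h11
          exact ⟨3, red 3 (by decide) (by decide) (by decide)⟩
        · refine ⟨0, red 0 ?_ ?_ ?_⟩
          · intro hd
            exact hp.one_lt.ne' (Nat.dvd_one.1 (by simpa using hd))
          · intro hd
            have hd' : p ∣ 5 := by simpa using hd
            exact h5 ((Nat.prime_dvd_prime_iff_eq hp Nat.prime_five).1 hd')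
          · intro hd
            have hd' : p ∣ 11 := by simpa using hd
            exact h11 ((Nat.prime_dvd_prime_iff_eq hp (by norm_num)).1 hd')
    obtain ⟨β, hβ⟩ := key
    exact ⟨β, fun v => LocS_congr (hc.pat v p hp hpn) (hβ v.1)⟩
  · push Not at hpn
    rcases Nat.eq_zero_or_pos n with rfl | hn
    · exact ⟨0, fun v => v.2.elim0⟩
    · have h12 : 12 * n ≤ 12 * n ^ 2 := by nlinarith
      have hxp : ∀ g : Fin 3, ¬ (p : ℤ) ∣ (xc g : ℤ) := by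
        intro g hd
        have hd' : p ∣ xc g := by exact_mod_cast hd
        have h1 : xc g ≤ 2 := by
          unfold xc
          split_ifs <;> omega
        have h2 : 0 < xc g := by
          unfold xc
          split_ifs <;> omega
        have h3 := Nat.le_of_dvd h2 hd'
        omega
      obtain ⟨bad, hbad⟩ : ∃ bad : Finset ℕ, bad = (univ : Finset (V n)).biUnion (fun v : V n =>
          (range p).filter (fun β : ℕ => (p : ℤ) ∣ nm ((xc v.1 : ℤ), ((xc v.1 * β + y v : ℕ) : ℤ)))) :=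
        ⟨_, rfl⟩
      have hcard : bad.card < (range p).card := by
        have h1 : bad.card ≤ (univ : Finset (V n)).card * 2 := by
          rw [hbad]
          exact card_biUnion_le_card_mul _ _ _ fun v _ => LocS_two hp (hxp v.1)
        have h2 : (univ : Finset (V n)).card = 3 * n := by
          rw [card_univ, Fintype.card_prod, Fintype.card_fin, Fintype.card_fin]
        rw [h2] at h1
        rw [card_range]
        omega
      obtain ⟨β, hβ, hβ'⟩ := exists_mem_notMem_of_card_lt_card hcard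
      refine ⟨β, fun v hd => hβ' ?_⟩
      rw [hbad, mem_biUnion]
      exact ⟨v, mem_univ _, mem_filter.2 ⟨hβ, hd⟩⟩

end Pool.Agent.Lib.MP_d57abb_nt.EE
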