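import Mathlib
import Pool.Agent.Lib.MP_d57abb_nt.EE.BasE
import Pool.Agent.Lib.MP_d57abb_nt.EE.LocS

/-!
# JOB BasS: the base data, squarefree version

PROOF (compare `EE/BasE.lean`, complete there; copy its private lemmas).
1. `F₁ v = ` the sum of `L e.1 e.2` over the cross pairs `e` which contain `v`; `F₀ = 1 + sup F₁`.  Let `F ≥ F₀`, `J v = F - F₁ v ≥ 1`.
2. For every vertex `v` a set `Q v` of `J v` distinct primes `≡ 1 (mod 5)`, the sets pairwise disjoint, all larger than `w₀`, `24 n`, all `y u`, all `hd y u v`, all `|dd y u v|` and all `|dd y u v ^ 2 - 5 (xc u.1 xc v.1)²|` (nonzero integers for `u ≠ v`: `inj` in `BasE`; `√5` is irrational).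
3. `w ≥ w₀, 24 n`, all `y v`, all `hd y u v`, all the chosen primes.
4. `B` by the Chinese remainder theorem modulo `∏_{p ≤ w} p²` (or one prime after the other; `Nat.chineseRemainderOfFinset`): for a prime `p ≤ w`,
 * `p ∣ hd y u v` for a (unique, by `cop`) cross pair `(u, v)`: `B ≡ β (mod p²)`, `β` from `loc_h` (`xc u.1 = 1`, `x' = xc v.1`, `y' = y v = xc v.1 * y u + hd y u v`, `hd y u v = p h'`, `p ∤ h'` by `sqf`); then `p` divides `nm (Xs y B u)` and `nm (Xs y B v)` exactly once, and it does not divide `nm (Xs y B s)` for `s ≠ u, v`: `loc_other` with `gen`;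
 * `p ∈ Q v`: `B ≡ β (mod p²)` with `β` from `loc_q p (xc v.1) (y v) 1`: `p` divides `nm (Xs y B v)` exactly once; for `u ≠ v` it does not divide `nm (Xs y B u)` (`loc_other`; the primes are larger than the determinants);
 * all other `p`: `B ≡ β (mod p)` from `loc_free`: `p` divides no norm.
5. So, for the primes `p ≤ w`: `p² ∤ nm (Xs y B v)` (`sqs`), and `p ∣ nm (Xs y B v)` iff `p ∣ hd` of a cross pair containing `v`, or `p ∈ Q v`.  `cops`: if `p ≤ w` divides the norms of `u` and `v`, `u.1 < v.1`, then `p ∉ Q s` for all `s` and `p ∣ hd y s t` for a cross pair `(s, t)` whose two elements are `u` and `v` (only these two norms are divisible by `p`), so `(s, t) = (u, v)`.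
 `sm`: `sOm w (nm (Xs y B v)).natAbs = ∑_{e ∋ v} (number of primes dividing hd e) + J v = ∑_{e ∋ v} L e + J v = F` (the `hd` are squarefree: `cardFactors = ` number of primes, and coprime).
6. `E ≥ 2` with `nm (Xs y B v) < 2^E` for all `v` (`E` large); `hd y u v ≤ w` divides `w!`.  `hd y u v ∣ nm (Xs y B u)`: squarefree, all its primes divide the norm.  `δ u v` from `exists_del`, `d2` from `del_snd` as in `BasE`.
-/

open Finset

namespace Pool.Agent.Lib.MP_d57abb_nt.EE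

open Pool.Agent.Lib.MP_d57abb_nt Pool.Agent.Lib.MP_d57abb_nt.All

/-- primes `≡ 1 (mod 5)`, all different and large -/
private theorem BasS_q (n K : ℕ) : ∃ q : V n × ℕ → ℕ, Function.Injective q ∧ ∀ x, (q x).Prime ∧ q x % 5 = 1 ∧ K < q x := by
  have hinf : {p : ℕ | p.Prime ∧ p % 5 = 1 ∧ K < p}.Infinite := by
    rw [Set.infinite_iff_exists_gt]
    intro a
    obtain ⟨p, hp, hlt, hmod⟩ := Nat.exists_prime_gt_modEq_one (k := 5) (a + K) (by norm_num)
    refine ⟨p, ⟨hp, ?_, by omega⟩, by omega⟩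
    have h1 : p % 5 = 1 % 5 := hmod
    omega
  refine ⟨fun v => (hinf.natEmbedding _ (Encodable.encode v) : ℕ), ?_, fun v =>
    (hinf.natEmbedding _ (Encodable.encode v)).2⟩
  intro u v h
  have h1 := (hinf.natEmbedding _).injective (Subtype.ext h)
  exact Encodable.encode_injective h1

/-- the prime `p` divides a cross determinant of `v` -/
private def BasS_D {n : ℕ} (y : V n → ℕ) (p : ℕ) (v : V n) : Prop :=
  ∃ e ∈ EC n, (e.1 = v ∨ e.2 = v) ∧ p ∣ hd y e.1 e.2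

private theorem BasS_mem {n : ℕ} (e : V n × V n) : e ∈ EC n ↔ e.1.1 < e.2.1 := by
  unfold EC
  simp

private theorem BasS_uniq {n : ℕ} {L : V n → V n → ℕ} {y : V n → ℕ} (hc : Cfg L y) {p : ℕ} (hp : p.Prime)
    {e e' : V n × V n} (he : e ∈ EC n) (he' : e' ∈ EC n) (h : p ∣ hd y e.1 e.2) (h' : p ∣ hd y e'.1 e'.2) : e = e' := by
  by_contra hne
  have h1 := hc.cop e.1 e.2 e'.1 e'.2 ((BasS_mem e).1 he) ((BasS_mem e').1 he') hne
  have h2 := Nat.dvd_gcd h h'
  rw [h1] at h2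
  exact hp.one_lt.ne' (Nat.dvd_one.1 h2)

/-- the choice modulo `p ^ 2` -/
private def BasS_good {n : ℕ} (y : V n → ℕ) (Q : V n → Finset ℕ) (p β : ℕ) : Prop :=
  ∀ v : V n, ¬ ((p ^ 2 : ℕ) : ℤ) ∣ nm (Xs y β v) ∧ ((p : ℤ) ∣ nm (Xs y β v) ↔ BasS_D y p v ∨ p ∈ Q v)

private theorem BasS_sq {p : ℕ} {z : ℤ} (h : ¬ (p : ℤ) ∣ z) : ¬ ((p ^ 2 : ℕ) : ℤ) ∣ z := fun h1 =>
  h (dvd_trans ⟨(p : ℤ), by push_cast; ring⟩ h1)

private theorem BasS_xc_nd {p : ℕ} (h : 2 < p) (g : Fin 3) : ¬ p ∣ xc g := fun h1 => by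
  have h2 : p ≤ xc g := Nat.le_of_dvd (by rcases BasE_xc g with h3 | h3 <;> omega) h1
  rcases BasE_xc g with h3 | h3 <;> omega

private theorem BasS_choice {n : ℕ} {L : V n → V n → ℕ} {y : V n → ℕ} (hL : ∀ u v, 1 ≤ L u v)
    (hc : CfgS L y) (Q : V n → Finset ℕ) (K : ℕ) (h2K : 2 ≤ K) (hKh : ∀ u v, hd y u v ≤ K)
    (hKd : ∀ u v : V n, ((xc u.1 : ℤ) * y v - xc v.1 * y u).natAbs ≤ K)
    (hKs : ∀ u v : V n, (((xc u.1 : ℤ) * y v - xc v.1 * y u) ^ 2
        - 5 * (xc u.1 : ℤ) ^ 2 * (xc v.1 : ℤ) ^ 2).natAbs ≤ K)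
    (hQp : ∀ v, ∀ p ∈ Q v, p.Prime ∧ p % 5 = 1 ∧ K < p)
    (hQd : ∀ u v, u ≠ v → ∀ p ∈ Q u, p ∉ Q v) (p : ℕ) (hp : p.Prime) :
    ∃ β : ℕ, BasS_good y Q p β := by
  by_cases h1 : ∃ e ∈ EC n, p ∣ hd y e.1 e.2
  · obtain ⟨e, he, hpe⟩ := h1
    have hlt : e.1.1 < e.2.1 := (BasS_mem e).1 he
    have h0 : 0 < hd y e.1 e.2 := (hc.spl e.1 e.2 hlt).1
    have hpK : p ≤ K := (Nat.le_of_dvd h0 hpe).trans (hKh e.1 e.2)
    have hpQ : ∀ v, p ∉ Q v := fun v hv => by
      have := (hQp v p hv).2.2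
      omega
    have h5 : p % 5 = 1 ∨ p % 5 = 4 := (hc.spl e.1 e.2 hlt).2 p hp hpe
    have h2p : 2 < p := by
      have := hp.two_le
      rcases h5 with h | h <;> omega
    obtain ⟨h', hh'⟩ := hpe
    have hnd : ¬ p ∣ h' := by
      rintro ⟨c, hcc⟩
      have h3 : p * p ∣ hd y e.1 e.2 := ⟨c, by rw [hh', hcc]; ring⟩
      have h4 := hc.sqf e.1 e.2 hlt p h3
      exact hp.one_lt.ne' (Nat.isUnit_iff.1 h4)
    have hy : y e.2 = xc e.2.1 * y e.1 + p * h' := by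
      have h3 := hc.lt e.1 e.2 hlt
      have h4 : hd y e.1 e.2 = y e.2 - xc e.2.1 * y e.1 := rfl
      rw [← hh', h4]
      omega
    obtain ⟨β, hβ1, hβ2, hβ3, hβ4⟩ := loc_h p hp h5 (xc e.2.1) (y e.1) (y e.2) h' (BasE_xc e.2.1) hy hnd
    have hX1 : Xs y β e.1 = ((1 : ℤ), ((β + y e.1 : ℕ) : ℤ)) := by
      unfold Xs
      rw [BasE_xc1 hlt]
      push_cast
      rw [one_mul]
    have hD : ∀ v, BasS_D y p v ↔ (e.1 = v ∨ e.2 = v) := fun v => by
      constructor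
      · rintro ⟨e', he', hv, hpe'⟩
        have := BasS_uniq hc.toCfg hp he' he hpe' (by rw [hh']; exact dvd_mul_right _ _)
        rw [← this]
        exact hv
      · intro hv
        exact ⟨e, he, hv, by rw [hh']; exact dvd_mul_right _ _⟩
    refine ⟨β, fun v => ?_⟩
    by_cases hv1 : v = e.1
    · rw [hv1, hX1]
      exact ⟨hβ2, fun _ => Or.inl ((hD _).2 (Or.inl rfl)), fun _ => hβ1⟩
    by_cases hv2 : v = e.2
    · rw [hv2]
      exact ⟨hβ4, fun _ => Or.inl ((hD _).2 (Or.inr rfl)), fun _ => hβ3⟩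
    obtain ⟨hg1, hg2⟩ := hc.gen e.1 e.2 v hlt hv1 hv2 p hp (by rw [hh']; exact dvd_mul_right _ _)
    have hno : ¬ (p : ℤ) ∣ nm (Xs y β v) := by
      refine loc_other p hp (xc e.1.1) (y e.1) (xc v.1) (y v) β (BasS_xc_nd h2p _) (BasS_xc_nd h2p _) ?_ hg1 hg2
      have h3 : ((xc e.1.1 : ℤ), ((xc e.1.1 * β + y e.1 : ℕ) : ℤ)) = Xs y β e.1 := rfl
      rw [h3, hX1]
      exact hβ1
    refine ⟨BasS_sq hno, fun h => absurd h hno, ?_⟩
    rintro (h | h)
    · rcases (hD v).1 h with h3 | h3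
      · exact absurd h3.symm hv1
      · exact absurd h3.symm hv2
    · exact absurd h (hpQ v)
  · by_cases h2 : ∃ v, p ∈ Q v
    · obtain ⟨v₀, hv₀⟩ := h2
      obtain ⟨-, h5, hKp⟩ := hQp v₀ p hv₀
      have h2p : 2 < p := by omega
      obtain ⟨β, hβ1, hβ2⟩ := loc_q p hp (Or.inl h5) (xc v₀.1) (y v₀) 1 (BasE_xc v₀.1) le_rfl
      rw [pow_one] at hβ1
      refine ⟨β, fun v => ?_⟩
      by_cases hv : v = v₀
      · rw [hv]
        exact ⟨hβ2, fun _ => Or.inr hv₀, fun _ => hβ1⟩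
      have hd0 := inj hL hc.toCfg v₀ v (Ne.symm hv)
      have hno : ¬ (p : ℤ) ∣ nm (Xs y β v) := by
        refine loc_other p hp (xc v₀.1) (y v₀) (xc v.1) (y v) β (BasS_xc_nd h2p _) (BasS_xc_nd h2p _) hβ1
          (BasE_ndvd hd0 ((hKd v₀ v).trans_lt hKp)) (BasE_ndvd ?_ ((hKs v₀ v).trans_lt hKp))
        have h2 := BasE_five (a := (xc v₀.1 : ℤ) * y v - xc v.1 * y v₀) (b := (xc v₀.1 : ℤ) * xc v.1)
          (mul_ne_zero (by rcases BasE_xc v₀.1 with h3 | h3 <;> rw [h3] <;> norm_num)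
            (by rcases BasE_xc v.1 with h3 | h3 <;> rw [h3] <;> norm_num))
        intro h3
        apply h2
        rw [← h3]
        ring
      refine ⟨BasS_sq hno, fun h => absurd h hno, ?_⟩
      rintro (⟨e, he, -, h⟩ | h)
      · exact absurd ⟨e, he, h⟩ h1
      · exact absurd hv₀ (hQd v v₀ hv p h)
    · obtain ⟨β, hβ⟩ := loc_free hc p hp
      refine ⟨β, fun v => ⟨BasS_sq (hβ v), fun h => absurd h (hβ v), ?_⟩⟩
      rintro (⟨e, he, -, h⟩ | h)
      · exact absurd ⟨e, he, h⟩ h1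
      · exact absurd ⟨v, h⟩ h2

theorem exists_baseS {n : ℕ} {L : V n → V n → ℕ} {y : V n → ℕ} (hL : ∀ u v, 1 ≤ L u v)
    (hc : CfgS L y) (w₀ : ℕ) : ∃ F₀ : ℕ, ∀ F : ℕ, F₀ ≤ F → ∃ (B w E : ℕ) (δ : V n → V n → ℤ × ℤ),
      w₀ ≤ w ∧ BasePS L y B w E F δ := by
  classical
  -- a bound for all the numbers of the configuration
  obtain ⟨K, hK⟩ : ∃ K, K = w₀ + 24 * n + ∑ u, y u + ∑ u : V n, ∑ v : V n, hd y u v
    + ∑ u : V n, ∑ v : V n, ((xc u.1 : ℤ) * y v - xc v.1 * y u).natAbs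
    + ∑ u : V n, ∑ v : V n, (((xc u.1 : ℤ) * y v - xc v.1 * y u) ^ 2
        - 5 * (xc u.1 : ℤ) ^ 2 * (xc v.1 : ℤ) ^ 2).natAbs + 2 := ⟨_, rfl⟩
  have hsum2 : ∀ (f : V n → V n → ℕ) (u v : V n), f u v ≤ ∑ u, ∑ v, f u v := fun f u v =>
    (Finset.single_le_sum (f := fun v => f u v) (fun _ _ => Nat.zero_le _) (Finset.mem_univ v)).trans
      (Finset.single_le_sum (f := fun u => ∑ v, f u v) (fun _ _ => Nat.zero_le _) (Finset.mem_univ u))
  have hKy : ∀ u, y u ≤ K := fun u => by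
    have h1 : y u ≤ ∑ u, y u := Finset.single_le_sum (fun _ _ => Nat.zero_le _) (Finset.mem_univ u)
    omega
  have hKh : ∀ u v, hd y u v ≤ K := fun u v => by
    have h1 := hsum2 (fun u v => hd y u v) u v
    omega
  have hKd : ∀ u v : V n, ((xc u.1 : ℤ) * y v - xc v.1 * y u).natAbs ≤ K := fun u v => by
    have h1 := hsum2 (fun u v => ((xc u.1 : ℤ) * y v - xc v.1 * y u).natAbs) u v
    omega
  have hKs : ∀ u v : V n, (((xc u.1 : ℤ) * y v - xc v.1 * y u) ^ 2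
        - 5 * (xc u.1 : ℤ) ^ 2 * (xc v.1 : ℤ) ^ 2).natAbs ≤ K := fun u v => by
    have h1 := hsum2 (fun u v => (((xc u.1 : ℤ) * y v - xc v.1 * y u) ^ 2
        - 5 * (xc u.1 : ℤ) ^ 2 * (xc v.1 : ℤ) ^ 2).natAbs) u v
    omega
  obtain ⟨inc, hinc⟩ : ∃ inc : V n → Finset (V n × V n), inc = fun v =>
    (EC n).filter (fun e => e.1 = v ∨ e.2 = v) := ⟨_, rfl⟩
  obtain ⟨F₁, hF₁⟩ : ∃ F₁ : V n → ℕ, F₁ = fun v => ∑ e ∈ inc v, L e.1 e.2 := ⟨_, rfl⟩
  refine ⟨1 + ∑ v, F₁ v, fun F hF => ?_⟩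
  have hF1 : ∀ v, F₁ v + 1 ≤ F := fun v => by
    have h1 : F₁ v ≤ ∑ v, F₁ v := Finset.single_le_sum (fun _ _ => Nat.zero_le _) (Finset.mem_univ v)
    omega
  obtain ⟨q, hqinj, hq⟩ := BasS_q n K
  obtain ⟨Q, hQ⟩ : ∃ Q : V n → Finset ℕ, Q = fun v => (range (F - F₁ v)).image (fun j => q (v, j)) := ⟨_, rfl⟩
  have hQm : ∀ v p, p ∈ Q v ↔ ∃ j < F - F₁ v, q (v, j) = p := fun v p => by
    rw [hQ]
    simp
  have hQc : ∀ v, (Q v).card = F - F₁ v := fun v => by
    rw [hQ]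
    dsimp only
    rw [Finset.card_image_of_injective, card_range]
    intro i j hij
    exact (Prod.ext_iff.1 (hqinj hij)).2
  have hQp : ∀ v, ∀ p ∈ Q v, p.Prime ∧ p % 5 = 1 ∧ K < p := fun v p hp => by
    obtain ⟨j, -, rfl⟩ := (hQm v p).1 hp
    exact hq _
  have hQd : ∀ u v, u ≠ v → ∀ p ∈ Q u, p ∉ Q v := fun u v huv p hp hp' => by
    obtain ⟨j, -, hj⟩ := (hQm u p).1 hp
    obtain ⟨i, -, hi⟩ := (hQm v p).1 hp'
    exact huv (Prod.ext_iff.1 (hqinj (hj.trans hi.symm))).1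
  obtain ⟨w, hw⟩ : ∃ w, w = K + ∑ v, ∑ p ∈ Q v, p := ⟨_, rfl⟩
  have hQw : ∀ v, ∀ p ∈ Q v, p ≤ w := fun v p hp => by
    have h1 : p ≤ ∑ p ∈ Q v, p := Finset.single_le_sum (f := fun p => p) (fun _ _ => Nat.zero_le _) hp
    have h2 : ∑ p ∈ Q v, p ≤ ∑ v, ∑ p ∈ Q v, p :=
      Finset.single_le_sum (f := fun v => ∑ p ∈ Q v, p) (fun _ _ => Nat.zero_le _) (Finset.mem_univ v)
    omega
  obtain ⟨P, hP⟩ : ∃ P : Finset ℕ, P = (range (w + 1)).filter (fun p => p.Prime) := ⟨_, rfl⟩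
  have hPm : ∀ p, p ∈ P ↔ p ≤ w ∧ p.Prime := fun p => by
    rw [hP, Finset.mem_filter, Finset.mem_range, Nat.lt_succ_iff]
  have hch : ∀ p : ℕ, ∃ β : ℕ, p.Prime → BasS_good y Q p β := fun p => by
    by_cases hp : p.Prime
    · obtain ⟨β, hβ⟩ := BasS_choice hL hc Q K (by omega) hKh hKd hKs hQp hQd p hp
      exact ⟨β, fun _ => hβ⟩
    · exact ⟨0, fun h => absurd h hp⟩
  choose β hβ using hch
  -- Chinese remainder theorem
  obtain ⟨B, hB⟩ : ∃ B : ℕ, ∀ p ∈ P, B ≡ β p [MOD p ^ 2] := by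
    have h1 := Nat.chineseRemainderOfFinset β (fun p => p ^ 2) P
      (fun p hp => pow_ne_zero _ ((hPm p).1 hp).2.ne_zero) ?_
    · exact ⟨h1.1, h1.2⟩
    · intro p hp p' hp' hne
      exact Nat.Coprime.pow _ _ ((Nat.coprime_primes ((hPm p).1 hp).2 ((hPm p').1 hp').2).2 hne)
  have hGd : ∀ p ∈ P, BasS_good y Q p B := fun p hp v => by
    have h0 : ((p ^ 2 : ℕ) : ℤ) ∣ (B : ℤ) - β p := Nat.modEq_iff_dvd.1 (hB p hp).symm
    have h1 := BasE_cg y h0 v
    have h2 : (p : ℤ) ∣ nm (Xs y B v) - nm (Xs y (β p) v) := dvd_trans ⟨(p : ℤ), by push_cast; ring⟩ h1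
    obtain ⟨h3, h4⟩ := hβ p ((hPm p).1 hp).2 v
    rw [dvd_iff_dvd_of_dvd_sub h1, dvd_iff_dvd_of_dvd_sub h2]
    exact ⟨h3, h4⟩
  obtain ⟨N, hN⟩ : ∃ N : V n → ℕ, N = fun v => (nm (Xs y B v)).natAbs := ⟨_, rfl⟩
  have hNp : ∀ v, N v ≠ 0 := fun v => by
    rw [hN]
    exact Int.natAbs_ne_zero.2 (BasE_pos y B v).ne'
  have hNd : ∀ (v : V n) (d : ℕ), d ∣ N v ↔ (d : ℤ) ∣ nm (Xs y B v) := fun v d => by
    rw [hN, Int.natCast_dvd]
  have hhp : ∀ u v : V n, u.1 < v.1 → 0 < hd y u v := fun u v h => (hc.spl u v h).1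
  -- the small primes of the norms
  obtain ⟨S, hS⟩ : ∃ S : V n → Finset ℕ, S = fun v =>
    ((inc v).biUnion (fun e => (hd y e.1 e.2).primeFactors)) ∪ Q v := ⟨_, rfl⟩
  have hSm : ∀ v p, p ∈ S v ↔ p ∈ P ∧ (BasS_D y p v ∨ p ∈ Q v) := fun v p => by
    rw [hS]
    dsimp only
    rw [Finset.mem_union, Finset.mem_biUnion]
    constructor
    · rintro (⟨e, he, hpe⟩ | h)
      · rw [hinc, Finset.mem_filter] at he
        have h1 := Nat.mem_primeFactors.1 hpe
        have h2 := (BasS_mem e).1 he.1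
        have h3 := Nat.le_of_dvd (hhp _ _ h2) h1.2.1
        have h4 := hKh e.1 e.2
        exact ⟨(hPm p).2 ⟨by omega, h1.1⟩, Or.inl ⟨e, he.1, he.2, h1.2.1⟩⟩
      · exact ⟨(hPm p).2 ⟨hQw v p h, (hQp v p h).1⟩, Or.inr h⟩
    · rintro ⟨hpP, ⟨e, he, hev, hpe⟩ | h⟩
      · refine Or.inl ⟨e, ?_, Nat.mem_primeFactors.2 ⟨((hPm p).1 hpP).2, hpe, (hhp _ _ ((BasS_mem e).1 he)).ne'⟩⟩
        rw [hinc, Finset.mem_filter]
        exact ⟨he, hev⟩
      · exact Or.inr h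
  have hSc : ∀ v, (S v).card = F := fun v => by
    rw [hS]
    dsimp only
    rw [Finset.card_union_of_disjoint, Finset.card_biUnion, hQc]
    · have h1 : ∑ e ∈ inc v, ((hd y e.1 e.2).primeFactors).card = F₁ v := by
        rw [hF₁]
        refine Finset.sum_congr rfl fun e he => ?_
        rw [hinc, Finset.mem_filter] at he
        have h2 := (BasS_mem e).1 he.1
        have h3 := (ArithmeticFunction.cardDistinctFactors_eq_cardFactors_iff_squarefree (hhp _ _ h2).ne').2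
          (hc.sqf _ _ h2)
        rw [hc.om _ _ h2] at h3
        rw [← h3, ArithmeticFunction.cardDistinctFactors_apply]
        rfl
      rw [h1]
      have := hF1 v
      omega
    · intro e he e' he' hne
      rw [Finset.mem_coe, hinc, Finset.mem_filter] at he he'
      show Disjoint (hd y e.1 e.2).primeFactors (hd y e'.1 e'.2).primeFactors
      rw [Finset.disjoint_left]
      intro p hp hp'
      exact hne (BasS_uniq hc.toCfg (Nat.mem_primeFactors.1 hp).1 he.1 he'.1 (Nat.mem_primeFactors.1 hp).2.1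
        (Nat.mem_primeFactors.1 hp').2.1)
    · rw [Finset.disjoint_left]
      intro p hp hp'
      obtain ⟨e, he, hpe⟩ := Finset.mem_biUnion.1 hp
      rw [hinc, Finset.mem_filter] at he
      have h1 := Nat.mem_primeFactors.1 hpe
      have h2 := (BasS_mem e).1 he.1
      have h3 := Nat.le_of_dvd (hhp _ _ h2) h1.2.1
      have h4 := hKh e.1 e.2
      have h5 := (hQp v p hp').2.2
      omega
  -- the number of small prime factors
  have hsm : ∀ v, sOm w (N v) = F := fun v => by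
    rw [BasE_sOm, ← hP, ← hSc v, Finset.card_eq_sum_ones]
    have hsub : S v ⊆ P := fun p hp => ((hSm v p).1 hp).1
    symm
    rw [← Finset.sum_subset hsub (f := fun p => (N v).factorization p)]
    · refine Finset.sum_congr rfl fun p hp => ?_
      obtain ⟨h1, h2⟩ := (hSm v p).1 hp
      obtain ⟨h3, h4⟩ := hGd p h1 v
      refine (BasE_fac ((hPm p).1 h1).2 (hNp v) ?_ ?_).symm
      · rw [pow_one, hNd]
        exact h4.2 h2
      · rw [hNd]
        exact h3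
    · intro p hp hpS
      refine Nat.factorization_eq_zero_of_not_dvd ?_
      rw [hNd]
      intro h1
      exact hpS ((hSm v p).2 ⟨hp, ((hGd p hp v).2).1 h1⟩)
  have hhN : ∀ u v : V n, u.1 < v.1 → (hd y u v : ℤ) ∣ nm (Xs y B u) := fun u v h => by
    rw [← hNd, ← Nat.prod_primeFactors_of_squarefree (hc.sqf u v h)]
    refine Finset.prod_primes_dvd _ (fun p hp => (Nat.mem_primeFactors.1 hp).1.prime) fun p hp => ?_
    have h1 := Nat.mem_primeFactors.1 hp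
    have h3 := Nat.le_of_dvd (hhp u v h) h1.2.1
    have h4 := hKh u v
    have h2 : p ∈ P := (hPm p).2 ⟨by omega, h1.1⟩
    rw [hNd]
    exact ((hGd p h2 u).2).2 (Or.inl ⟨(u, v), (BasS_mem _).2 h, Or.inl rfl, h1.2.1⟩)
  have hδ : ∀ u v : V n, ∃ δ : ℤ × ℤ, u.1 < v.1 → TP δ ∧ nm δ = hd y u v ∧
      (∃ x, ml δ x = Xs y B u) ∧ ∃ x, ml δ x = Xs y B v := fun u v => by
    by_cases h : u.1 < v.1
    · have hcop : IsCoprime (Xs y B u).1 (Xs y B u).2 := by
        unfold Xs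
        rw [BasE_xc1 h]
        push_cast
        exact isCoprime_one_left
      obtain ⟨δ, x, h1, h2, h3⟩ := exists_del (hd y u v) (hc.spl u v h) (Xs y B u) hcop (hhN u v h)
      refine ⟨δ, fun _ => ⟨h1, h2, ⟨x, h3⟩, del_snd hcop h2 h3 ?_⟩⟩
      have h4 : dt (Xs y B u) (Xs y B v) = hd y u v := by
        unfold dt Xs hd
        rw [Nat.cast_sub (hc.lt u v h).le, BasE_xc1 h]
        push_cast
        ring
      rw [h4]
    · exact ⟨(0, 0), fun h' => absurd h' h⟩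
  choose δ hδ using hδ
  obtain ⟨E, hE⟩ : ∃ E, E = 2 + ∑ v, N v := ⟨_, rfl⟩
  refine ⟨B, w, E, δ, by omega, ⟨hc.toCfg, by omega, fun v => (hKy v).trans (by omega), by omega,
    fun v => ?_, fun v => by have h1 := hsm v; rw [hN] at h1; exact h1, fun u v h => ?_, fun u v h => (hδ u v h).1, fun u v h => (hδ u v h).2.1,
    fun u v h => (hδ u v h).2.2.1, fun u v h => (hδ u v h).2.2.2⟩, by omega, fun v p hp hpw => ?_, ?_⟩
  · have h1 : N v ≤ ∑ v, N v := Finset.single_le_sum (fun _ _ => Nat.zero_le _) (Finset.mem_univ v)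
    have h2 : N v < 2 ^ E := lt_of_le_of_lt (by omega : N v ≤ E) (Nat.lt_two_pow_self)
    have h3 : ((N v : ℕ) : ℤ) = nm (Xs y B v) := by
      rw [hN]
      exact Int.natAbs_of_nonneg (BasE_pos y B v).le
    rw [← h3]
    exact_mod_cast h2
  · have h1 : hd y u v ∣ w.factorial := Nat.dvd_factorial (hhp u v h) ((hKh u v).trans (by omega))
    exact h1.trans (dvd_pow_self _ (by omega))
  · exact (hGd p ((hPm p).2 ⟨hpw, hp⟩) v).1
  · intro u v p huv hp hpw hpu hpv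
    have hne : u ≠ v := fun h => by
      rw [h] at huv
      exact lt_irrefl _ huv
    have hpP : p ∈ P := (hPm p).2 ⟨hpw, hp⟩
    have hle : ∀ e ∈ EC n, p ∣ hd y e.1 e.2 → p ≤ K := fun e he h => by
      have h3 := Nat.le_of_dvd (hhp _ _ ((BasS_mem e).1 he)) h
      have h4 := hKh e.1 e.2
      omega
    rcases ((hGd p hpP u).2).1 hpu with ⟨e, he, heu, hpe⟩ | hu
    · rcases ((hGd p hpP v).2).1 hpv with ⟨e', he', hev, hpe'⟩ | hv
      · have h1 := BasS_uniq hc.toCfg hp he he' hpe hpe'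
        subst h1
        have h2 := (BasS_mem e).1 he
        rcases heu with heu | heu
        · rcases hev with hev | hev
          · exact absurd (heu.symm.trans hev) hne
          · rw [heu, hev] at hpe
            exact hpe
        · rcases hev with hev | hev
          · rw [heu, hev] at h2
            exact absurd huv (lt_asymm h2)
          · exact absurd (heu.symm.trans hev) hne
      · have h1 := hle e he hpe
        have h2 := (hQp v p hv).2.2
        omega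
    · rcases ((hGd p hpP v).2).1 hpv with ⟨e', he', hev, hpe'⟩ | hv
      · have h1 := hle e' he' hpe'
        have h2 := (hQp u p hu).2.2
        omega
      · exact absurd hv (hQd u v hne p hu)

end Pool.Agent.Lib.MP_d57abb_nt.EE
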