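import Mathlib
import Pool.Agent.Lib.MP_d57abb_nt.EE.DefS

/-!
# Definitions for the joint law of the numbers of prime factors with and without multiplicity
-/

namespace Pool.Agent.Lib.MP_d57abb_nt.EE

open Finset Pool.Agent.Lib.MP_d57abb_nt Pool.Agent.Lib.MP_d57abb_nt.All Pool.Agent.Lib.MP_d57abb_nt.AP
  Pool.Agent.Lib.MP_d57abb_nt.Ev ArithmeticFunction

/-- the number of different primes `≤ w` which divide `m` -/
def sW (w m : ℕ) : ℕ := (m.primeFactors.filter (fun p => p ≤ w)).card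

/-- the base data: every norm has `F` prime factors `≤ w` with multiplicity, `F'` different ones; for a cross pair
exactly `κ` of the primes dividing `hd` divide the value `nm nm / hd ^ 2` -/
structure BaseJ {n : ℕ} (L : V n → V n → ℕ) (y : V n → ℕ) (B w E F F' κ : ℕ) (δ : V n → V n → ℤ × ℤ) : Prop
    extends BaseP L y B w E F δ where
  E3 : 3 ≤ E
  sqf : ∀ u v : V n, u.1 < v.1 → Squarefree (hd y u v)
  sw : ∀ v : V n, sW w (nm (Xs y B v)).natAbs = F'
  cops : ∀ (u v : V n) (p : ℕ), u.1 < v.1 → p.Prime → p ≤ w → (p : ℤ) ∣ nm (Xs y B u) →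
    (p : ℤ) ∣ nm (Xs y B v) → p ∣ hd y u v
  one : ∀ u v : V n, u.1 < v.1 → ((hd y u v).primeFactors.filter
    (fun p => ((p ^ 3 : ℕ) : ℤ) ∣ nm (Xs y B u) * nm (Xs y B v))).card = κ

/-- the values counted in the theorem: `r` prime factors with multiplicity, `s` different ones -/
def FJ (r s w C N : ℕ) : Finset ℕ := (Icc 1 N).filter (fun k => cardFactors (k ^ 2 + 3 * k + 1) = r ∧
  (k ^ 2 + 3 * k + 1).primeFactors.card = s ∧ ∀ p ∈ (k ^ 2 + 3 * k + 1).primeFactors, p ≤ w ∨ k ≤ p ^ C)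

open Classical in
/-- the values which come from the frames -/
noncomputable def FZJ (r s w z N : ℕ) : Finset ℕ := (Icc 1 N).filter (fun k =>
  cardFactors (k ^ 2 + 3 * k + 1) = r ∧
  sW w (k ^ 2 + 3 * k + 1) + bOm z (k ^ 2 + 3 * k + 1) = s ∧
  ∀ p : ℕ, p.Prime → p ∣ k ^ 2 + 3 * k + 1 → p ≤ w ∨ z < p)

end Pool.Agent.Lib.MP_d57abb_nt.EE
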