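import Mathlib
import Pool.Agent.Lib.MP_d57abb_nt.EE.LocS
import Pool.Agent.Lib.MP_d57abb_nt.EE.DefJ

/-!
# JOB LocJ: a local choice with exact powers `p^2` and `p`

PROOF (compare `loc_h` in `EE/LocS.lean`).  `p ≡ ± 1 (mod 5)`, so `p ≥ 11` and `p` is prime to `x' ∈ {1, 2}`.  Let `t₀` be a root: `p³ ∣ 1 + 3 t₀ + t₀²` (`exists_rt (p^3)`, `Spl (p^3)`), `t = t₀ + p²`: `1 + 3 t + t² ≡ p² (3 + 2 t₀) (mod p³)`, and `p ∤ 3 + 2 t₀`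
(`(3 + 2 t₀)² = 4 (1 + 3t₀ + t₀²) + 5`).  Choose `β` with `β + y ≡ t (mod p³)`.  Then `nm (1, β + y)` is divisible by `p²` and not by `p³`.
`x' β + y' = x' (β + y) + p h'`, so `nm (x', x' β + y') = nm (x', x' t + p h') = x'² (1 + 3 t + t²) + p h' x' (3 + 2 t) + p² h'²  ≡ p h' x' (3 + 2 t₀) (mod p²)`: divisible by `p`, not by `p²`.
-/

namespace Pool.Agent.Lib.MP_d57abb_nt.EE

open Pool.Agent.Lib.MP_d57abb_nt Pool.Agent.Lib.MP_d57abb_nt.All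

theorem loc_h2 (p : ℕ) (hp : p.Prime) (h5 : p % 5 = 1 ∨ p % 5 = 4) (x' y y' h' : ℕ) (hx : x' = 1 ∨ x' = 2)
    (hy : y' = x' * y + p * h') (hh : ¬ p ∣ h') :
    ∃ β : ℕ, ((p ^ 2 : ℕ) : ℤ) ∣ nm ((1 : ℤ), ((β + y : ℕ) : ℤ)) ∧
      ¬ ((p ^ 3 : ℕ) : ℤ) ∣ nm ((1 : ℤ), ((β + y : ℕ) : ℤ)) ∧
      (p : ℤ) ∣ nm ((x' : ℤ), ((x' * β + y' : ℕ) : ℤ)) ∧
      ¬ ((p ^ 2 : ℕ) : ℤ) ∣ nm ((x' : ℤ), ((x' * β + y' : ℕ) : ℤ)) := by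
  have hp5 : p ≠ 5 := by
    rintro rfl
    omega
  have hp2 : p ≠ 2 := by
    rintro rfl
    omega
  have hspl : Spl (p ^ 3) := by
    refine ⟨pow_pos hp.pos _, fun q hq hqd => ?_⟩
    have : q = p := (Nat.prime_dvd_prime_iff_eq hq hp).1 (hq.dvd_of_dvd_pow hqd)
    rw [this]
    exact h5
  obtain ⟨t, A, hA⟩ := exists_rt _ hspl
  have hp0 : (p : ℤ) ≠ 0 := by exact_mod_cast hp.ne_zero
  have hpi : Prime (p : ℤ) := Nat.prime_iff_prime_int.1 hp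
  have hxp : ¬ (p : ℤ) ∣ (x' : ℤ) := by
    intro hd
    have hd' : p ∣ x' := by exact_mod_cast hd
    rcases hx with rfl | rfl
    · exact hp.one_lt.ne' (Nat.dvd_one.1 hd')
    · exact hp2 ((Nat.prime_dvd_prime_iff_eq hp Nat.prime_two).1 hd')
  have hhp : ¬ (p : ℤ) ∣ (h' : ℤ) := fun hd => hh (by exact_mod_cast hd)
  have h5p : ¬ (p : ℤ) ∣ 5 := by
    intro hd
    have hd' : p ∣ 5 := by exact_mod_cast hd
    exact hp5 ((Nat.prime_dvd_prime_iff_eq hp Nat.prime_five).1 hd')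
  simp only [nm] at hA
  have hA' : 1 + 3 * (t : ℤ) + (t : ℤ) ^ 2 = (p : ℤ) ^ 3 * A := by
    push_cast at hA
    linear_combination hA
  have h3t : ¬ (p : ℤ) ∣ 3 + 2 * t := by
    rintro ⟨m, hm⟩
    apply h5p
    refine ⟨p * m ^ 2 - 4 * (p ^ 2 * A), ?_⟩
    have h1 : (5 : ℤ) = (3 + 2 * t) ^ 2 - 4 * (1 + 3 * t + (t : ℤ) ^ 2) := by ring
    rw [h1, hA', hm]
    ring
  have hcast : (((t + p ^ 2 + (p ^ 3 - 1) * y : ℕ) + y : ℕ) : ℤ) = t + (p : ℤ) ^ 2 * (1 + p * y) := by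
    have h1 : 1 ≤ p ^ 3 := Nat.one_le_pow _ _ hp.pos
    obtain ⟨r, hr⟩ : ∃ r, p ^ 3 = r + 1 := ⟨p ^ 3 - 1, by omega⟩
    have hr' : (p : ℤ) ^ 3 = r + 1 := by exact_mod_cast hr
    rw [hr, Nat.add_sub_cancel]
    push_cast
    linear_combination (-(y : ℤ)) * hr'
  refine ⟨t + p ^ 2 + (p ^ 3 - 1) * y, ?_⟩
  have hcast' : ((x' * (t + p ^ 2 + (p ^ 3 - 1) * y) + y' : ℕ) : ℤ) =
      x' * (t + (p : ℤ) ^ 2 * (1 + p * y)) + p * h' := by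
    rw [hy, ← hcast]
    push_cast
    ring
  rw [hcast, hcast']
  obtain ⟨J, hJ⟩ : ∃ J : ℤ, J = 1 + p * y := ⟨_, rfl⟩
  rw [← hJ]
  have e1 : nm ((1 : ℤ), (t : ℤ) + (p : ℤ) ^ 2 * J) = (p : ℤ) ^ 2 * (3 + 2 * t) +
      (p : ℤ) ^ 3 * (A + y * (3 + 2 * t) + p * J ^ 2) := by
    simp only [nm]
    have h1 : (1 : ℤ) ^ 2 + 3 * 1 * (t + (p : ℤ) ^ 2 * J) + ((t : ℤ) + (p : ℤ) ^ 2 * J) ^ 2 =
        (1 + 3 * t + (t : ℤ) ^ 2) + (p : ℤ) ^ 2 * (J * (3 + 2 * t)) + (p : ℤ) ^ 4 * J ^ 2 := by ring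
    rw [h1, hA', hJ]
    ring
  have e2 : nm ((x' : ℤ), (x' : ℤ) * (t + (p : ℤ) ^ 2 * J) + p * h') =
      p * (x' * (h' * (3 + 2 * t))) +
      (p : ℤ) ^ 2 * ((x' : ℤ) ^ 2 * ((3 + 2 * t) + p * (A + y * (3 + 2 * t) + p * J ^ 2)) +
        2 * x' * h' * (p * J) + (h' : ℤ) ^ 2) := by
    have h1 : nm ((x' : ℤ), (x' : ℤ) * (t + (p : ℤ) ^ 2 * J) + p * h') =
        (x' : ℤ) ^ 2 * nm ((1 : ℤ), (t : ℤ) + (p : ℤ) ^ 2 * J) +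
          p * (x' * h' * (3 + 2 * (t + (p : ℤ) ^ 2 * J))) + (p : ℤ) ^ 2 * (h' : ℤ) ^ 2 := by
      simp only [nm]
      ring
    rw [h1, e1]
    ring
  have hn2 : ¬ (p : ℤ) ∣ x' * (h' * (3 + 2 * t)) := by
    intro hd
    rcases hpi.dvd_or_dvd hd with h | h
    · exact hxp h
    · rcases hpi.dvd_or_dvd h with h | h
      · exact hhp h
      · exact h3t h
  rw [e1, e2]
  refine ⟨?_, ?_, ?_, ?_⟩
  · refine ⟨(3 + 2 * t) + p * (A + y * (3 + 2 * t) + p * J ^ 2), ?_⟩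
    push_cast
    ring
  · rintro ⟨m, hm⟩
    apply h3t
    refine ⟨m - (A + y * (3 + 2 * t) + p * J ^ 2), ?_⟩
    apply mul_left_cancel₀ (pow_ne_zero 2 hp0)
    push_cast at hm
    linear_combination hm
  · exact ⟨x' * (h' * (3 + 2 * t)) + p * ((x' : ℤ) ^ 2 * ((3 + 2 * t) + p * (A + y * (3 + 2 * t) + p * J ^ 2)) +
        2 * x' * h' * (p * J) + (h' : ℤ) ^ 2), by ring⟩
  · rintro ⟨m, hm⟩
    apply hn2
    refine ⟨m - ((x' : ℤ) ^ 2 * ((3 + 2 * t) + p * (A + y * (3 + 2 * t) + p * J ^ 2)) +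
        2 * x' * h' * (p * J) + (h' : ℤ) ^ 2), ?_⟩
    apply mul_left_cancel₀ hp0
    push_cast at hm
    linear_combination hm

end Pool.Agent.Lib.MP_d57abb_nt.EE
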