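import Mathlib
import Pool.Agent.Lib.MP_d57abb_nt.EE.BasS
import Pool.Agent.Lib.MP_d57abb_nt.EE.LocJ

/-!
# JOB BasJ: the base data for the joint law

PROOF: adapt `EE/BasS.lean` (complete there, `exists_baseS`; copy its private lemmas).  `F₁ v = ∑_{e ∋ v} L e`, `F₀ = 1 + ∑ F₁`.  Let `F₀ ≤ F' ≤ F`, `κ ≤ 1`, and `F' + 2 n ≤ F` if `κ = 1`.
For every vertex `v` a set `Q v` of `F' - F₁ v ≥ 1` primes as in `BasS`; one of them, `q₀ v` (for instance the one with index `j = 0`), gets the exponent `g v = 1 + (F - F' - κ E v)`, where `E v = #{e ∈ EC n : e.1 = v} ≤ 2 n` (`e.2` runs over vertices of larger groups), the others the exponent `1`.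
For a cross pair `e` let `p_e = (hd y e.1 e.2).minFac` (a prime, as `cardFactors (hd) = L e ≥ 1`).
Choice of `B` modulo `p^M`, `M` larger than all the exponents (`M = F + 3`), for the primes `p ≤ w`:
* `p ∣ hd y u v`, and `κ = 0` or `p ≠ p_(u,v)`: as in `BasS` (`loc_h`): exact power `1` at `u` and at `v` (the conditions modulo `p²` are enough: take the `β` of `loc_h`, and `B ≡ β (mod p^M)`);
* `κ = 1` and `p = p_(u,v)`: `loc_h2`: exact power `2` at `u`, `1` at `v`; as in `BasS` the other norms are prime to `p` (`loc_other` with `gen`);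
* `p = q₀ v`: `loc_q p (xc v.1) (y v) (g v)`: exact power `g v` at `v`, the other norms prime to `p`; `p ∈ Q v`, `p ≠ q₀ v`: `loc_q` with exponent `1`;
* the other `p`: `loc_free`.
Since all these conditions are on exact powers `p^g ∣ nm`, `p^(g+1) ∤ nm` with `g + 1 ≤ M`, they pass from `β` to `B ≡ β (mod p^M)`.
Then the primes `p ≤ w` dividing `nm (Xs y B v)` are those dividing `hd` of a cross pair containing `v` (`F₁ v` of them: `hd` squarefree, coprime) and those of `Q v`: `sW = F'`.  With multiplicity: `F₁ v + κ E v + (F' - F₁ v - 1) + g v = F`.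
`one`: for a prime `p ∣ hd y u v`: `p³ ∣ nm (Xs y B u) * nm (Xs y B v)` iff the sum of the two exponents is at least `3`, i.e. iff `κ = 1` and `p = p_(u,v)`.
`E = 3 + ∑ v, nm (Xs y B v)`.  The rest (`cops`, `hG`, `hd ∣ nm`, `δ`) as in `BasS`.
-/

open Finset

namespace Pool.Agent.Lib.MP_d57abb_nt.EE

open Pool.Agent.Lib.MP_d57abb_nt Pool.Agent.Lib.MP_d57abb_nt.All

/-- primes `≡ 1 (mod 5)`, all different and large -/
private theorem BasJ_q (n K : ℕ) : ∃ q : V n × ℕ → ℕ, Function.Injective q ∧ ∀ x, (q x).Prime ∧ q x % 5 = 1 ∧ K < q x := by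
  have hinf : {p : ℕ | p.Prime ∧ p % 5 = 1 ∧ K < p}.Infinite := by
    rw [Set.infinite_iff_exists_gt]
    intro a
    obtain ⟨p, hp, hlt, hmod⟩ := Nat.exists_prime_gt_modEq_one (k := 5) (a + K) (by norm_num)
    refine ⟨p, ⟨hp, ?_, by omega⟩, by omega⟩
    have h1 : p % 5 = 1 % 5 := hmod
    omega
  refine ⟨fun v => (hinf.natEmbedding _ (Encodable.encode v) : ℕ), ?_, fun v =>
    (hinf.natEmbedding _ (Encodable.encode v)).2⟩
  intro u v h
  have h1 := (hinf.natEmbedding _).injective (Subtype.ext h)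
  exact Encodable.encode_injective h1

/-- the prime `p` divides a cross determinant of `v` -/
private def BasJ_D {n : ℕ} (y : V n → ℕ) (p : ℕ) (v : V n) : Prop :=
  ∃ e ∈ EC n, (e.1 = v ∨ e.2 = v) ∧ p ∣ hd y e.1 e.2

private theorem BasJ_mem {n : ℕ} (e : V n × V n) : e ∈ EC n ↔ e.1.1 < e.2.1 := by
  unfold EC
  simp

private theorem BasJ_uniq {n : ℕ} {L : V n → V n → ℕ} {y : V n → ℕ} (hc : Cfg L y) {p : ℕ} (hp : p.Prime)
    {e e' : V n × V n} (he : e ∈ EC n) (he' : e' ∈ EC n) (h : p ∣ hd y e.1 e.2) (h' : p ∣ hd y e'.1 e'.2) : e = e' := by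
  by_contra hne
  have h1 := hc.cop e.1 e.2 e'.1 e'.2 ((BasJ_mem e).1 he) ((BasJ_mem e').1 he') hne
  have h2 := Nat.dvd_gcd h h'
  rw [h1] at h2
  exact hp.one_lt.ne' (Nat.dvd_one.1 h2)

private theorem BasJ_xc_nd {p : ℕ} (h : 2 < p) (g : Fin 3) : ¬ p ∣ xc g := fun h1 => by
  have h2 : p ≤ xc g := Nat.le_of_dvd (by rcases BasE_xc g with h3 | h3 <;> omega) h1
  rcases BasE_xc g with h3 | h3 <;> omega

/-- the exponent of `p` in the norm of `v` -/
private noncomputable def BasJ_G {n : ℕ} (y : V n → ℕ) (Q : V n → Finset ℕ) (q₀ g : V n → ℕ) (κ : ℕ) (v : V n)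
    (p : ℕ) : ℕ := by
  classical
  exact if BasJ_D y p v then (if κ = 1 ∧ ∃ e ∈ EC n, e.1 = v ∧ p = (hd y e.1 e.2).minFac then 2 else 1)
    else if p ∈ Q v then (if p = q₀ v then g v else 1) else 0

/-- exact powers -/
private def BasJ_ex (p a : ℕ) (z : ℤ) : Prop := ((p ^ a : ℕ) : ℤ) ∣ z ∧ ¬ ((p ^ (a + 1) : ℕ) : ℤ) ∣ z

private theorem BasJ_ex0 {p : ℕ} {z : ℤ} (h : ¬ (p : ℤ) ∣ z) : BasJ_ex p 0 z := by
  refine ⟨by simp, ?_⟩
  rw [zero_add, pow_one]
  exact h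

private theorem BasJ_G0 {n : ℕ} {y : V n → ℕ} {Q : V n → Finset ℕ} {q₀ g : V n → ℕ} {κ : ℕ} {v : V n} {p : ℕ}
    (h1 : ¬ BasJ_D y p v) (h2 : p ∉ Q v) : BasJ_G y Q q₀ g κ v p = 0 := by
  unfold BasJ_G
  rw [if_neg h1, if_neg h2]

private theorem BasJ_choice {n : ℕ} {L : V n → V n → ℕ} {y : V n → ℕ} (hL : ∀ u v, 1 ≤ L u v)
    (hc : CfgS L y) (Q : V n → Finset ℕ) (q₀ g : V n → ℕ) (κ K : ℕ) (h2K : 2 ≤ K) (hKh : ∀ u v, hd y u v ≤ K)
    (hKd : ∀ u v : V n, ((xc u.1 : ℤ) * y v - xc v.1 * y u).natAbs ≤ K)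
    (hKs : ∀ u v : V n, (((xc u.1 : ℤ) * y v - xc v.1 * y u) ^ 2
        - 5 * (xc u.1 : ℤ) ^ 2 * (xc v.1 : ℤ) ^ 2).natAbs ≤ K)
    (hQp : ∀ v, ∀ p ∈ Q v, p.Prime ∧ p % 5 = 1 ∧ K < p)
    (hQd : ∀ u v, u ≠ v → ∀ p ∈ Q u, p ∉ Q v) (hg : ∀ v, 1 ≤ g v) (p : ℕ) (hp : p.Prime) :
    ∃ β : ℕ, ∀ v, BasJ_ex p (BasJ_G y Q q₀ g κ v p) (nm (Xs y β v)) := by
  by_cases h1 : ∃ e ∈ EC n, p ∣ hd y e.1 e.2
  · obtain ⟨e, he, hpe⟩ := h1
    have hlt : e.1.1 < e.2.1 := (BasJ_mem e).1 he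
    have h0 : 0 < hd y e.1 e.2 := (hc.spl e.1 e.2 hlt).1
    have hpK : p ≤ K := (Nat.le_of_dvd h0 hpe).trans (hKh e.1 e.2)
    have hpQ : ∀ v, p ∉ Q v := fun v hv => by
      have := (hQp v p hv).2.2
      omega
    have h5 : p % 5 = 1 ∨ p % 5 = 4 := (hc.spl e.1 e.2 hlt).2 p hp hpe
    have h2p : 2 < p := by
      have := hp.two_le
      rcases h5 with h | h <;> omega
    have hpe0 := hpe
    obtain ⟨h', hh'⟩ := hpe
    have hnd : ¬ p ∣ h' := by
      rintro ⟨c, hcc⟩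
      have h3 : p * p ∣ hd y e.1 e.2 := ⟨c, by rw [hh', hcc]; ring⟩
      have h4 := hc.sqf e.1 e.2 hlt p h3
      exact hp.one_lt.ne' (Nat.isUnit_iff.1 h4)
    have hy : y e.2 = xc e.2.1 * y e.1 + p * h' := by
      have h3 := hc.lt e.1 e.2 hlt
      have h4 : hd y e.1 e.2 = y e.2 - xc e.2.1 * y e.1 := rfl
      rw [← hh', h4]
      omega
    have hX1 : ∀ β : ℕ, Xs y β e.1 = ((1 : ℤ), ((β + y e.1 : ℕ) : ℤ)) := fun β => by
      unfold Xs
      rw [BasE_xc1 hlt]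
      push_cast
      rw [one_mul]
    have hD : ∀ v, BasJ_D y p v ↔ (e.1 = v ∨ e.2 = v) := fun v => by
      constructor
      · rintro ⟨e', he', hv, hpe'⟩
        have := BasJ_uniq hc.toCfg hp he' he hpe' hpe0
        rw [← this]
        exact hv
      · intro hv
        exact ⟨e, he, hv, hpe0⟩
    have hne12 : e.1 ≠ e.2 := fun h => by
      rw [h] at hlt
      exact lt_irrefl _ hlt
    -- the special condition
    have hsp1 : (∃ e' ∈ EC n, e'.1 = e.1 ∧ p = (hd y e'.1 e'.2).minFac) ↔ p = (hd y e.1 e.2).minFac := by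
      constructor
      · rintro ⟨e', he', -, hm⟩
        have h6 : p ∣ hd y e'.1 e'.2 := by
          rw [hm]
          exact Nat.minFac_dvd _
        rw [BasJ_uniq hc.toCfg hp he' he h6 hpe0] at hm
        exact hm
      · intro hm
        exact ⟨e, he, rfl, hm⟩
    have hsp2 : ¬ ∃ e' ∈ EC n, e'.1 = e.2 ∧ p = (hd y e'.1 e'.2).minFac := by
      rintro ⟨e', he', h7, hm⟩
      have h6 : p ∣ hd y e'.1 e'.2 := by
        rw [hm]
        exact Nat.minFac_dvd _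
      rw [BasJ_uniq hc.toCfg hp he' he h6 hpe0] at h7
      exact hne12 h7
    have hG2 : BasJ_G y Q q₀ g κ e.2 p = 1 := by
      unfold BasJ_G
      rw [if_pos ((hD _).2 (Or.inr rfl)), if_neg]
      rintro ⟨-, h8⟩
      exact hsp2 h8
    have hG1 : BasJ_G y Q q₀ g κ e.1 p = if κ = 1 ∧ p = (hd y e.1 e.2).minFac then 2 else 1 := by
      unfold BasJ_G
      rw [if_pos ((hD _).2 (Or.inl rfl))]
      by_cases h9 : κ = 1 ∧ p = (hd y e.1 e.2).minFac
      · rw [if_pos h9, if_pos ⟨h9.1, hsp1.2 h9.2⟩]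
      · rw [if_neg h9, if_neg (fun h => h9 ⟨h.1, hsp1.1 h.2⟩)]
    -- the local choice
    obtain ⟨β, hβ1, hβ2, hβ3, hβ4⟩ : ∃ β : ℕ, BasJ_ex p (BasJ_G y Q q₀ g κ e.1 p) (nm (Xs y β e.1)) ∧
        (p : ℤ) ∣ nm (Xs y β e.1) ∧ (p : ℤ) ∣ nm (Xs y β e.2) ∧ ¬ ((p ^ 2 : ℕ) : ℤ) ∣ nm (Xs y β e.2) := by
      by_cases h9 : κ = 1 ∧ p = (hd y e.1 e.2).minFac
      · obtain ⟨β, hβ1, hβ2, hβ3, hβ4⟩ := loc_h2 p hp h5 (xc e.2.1) (y e.1) (y e.2) h' (BasE_xc e.2.1) hy hnd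
        refine ⟨β, ?_, ?_, hβ3, hβ4⟩
        · rw [hG1, if_pos h9, hX1]
          exact ⟨hβ1, hβ2⟩
        · rw [hX1]
          exact dvd_trans ⟨(p : ℤ), by push_cast; ring⟩ hβ1
      · obtain ⟨β, hβ1, hβ2, hβ3, hβ4⟩ := loc_h p hp h5 (xc e.2.1) (y e.1) (y e.2) h' (BasE_xc e.2.1) hy hnd
        refine ⟨β, ?_, ?_, hβ3, hβ4⟩
        · rw [hG1, if_neg h9, hX1]
          exact ⟨by rw [pow_one]; exact hβ1, hβ2⟩
        · rw [hX1]
          exact hβ1
    refine ⟨β, fun v => ?_⟩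
    by_cases hv1 : v = e.1
    · rw [hv1]
      exact hβ1
    by_cases hv2 : v = e.2
    · rw [hv2, hG2]
      exact ⟨by rw [pow_one]; exact hβ3, hβ4⟩
    obtain ⟨hg1, hg2⟩ := hc.gen e.1 e.2 v hlt hv1 hv2 p hp hpe0
    have hno : ¬ (p : ℤ) ∣ nm (Xs y β v) := by
      refine loc_other p hp (xc e.1.1) (y e.1) (xc v.1) (y v) β (BasJ_xc_nd h2p _) (BasJ_xc_nd h2p _) ?_ hg1 hg2
      have h3 : ((xc e.1.1 : ℤ), ((xc e.1.1 * β + y e.1 : ℕ) : ℤ)) = Xs y β e.1 := rfl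
      rw [h3]
      exact hβ2
    rw [BasJ_G0 (fun h => ?_) (hpQ v)]
    · exact BasJ_ex0 hno
    · rcases (hD v).1 h with h3 | h3
      · exact hv1 h3.symm
      · exact hv2 h3.symm
  · have hnD : ∀ v, ¬ BasJ_D y p v := fun v => by
      rintro ⟨e, he, -, h⟩
      exact h1 ⟨e, he, h⟩
    by_cases h2 : ∃ v, p ∈ Q v
    · obtain ⟨v₀, hv₀⟩ := h2
      obtain ⟨-, h5, hKp⟩ := hQp v₀ p hv₀
      have h2p : 2 < p := by omega
      obtain ⟨a, ha⟩ : ∃ a, a = if p = q₀ v₀ then g v₀ else 1 := ⟨_, rfl⟩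
      have ha1 : 1 ≤ a := by
        rw [ha]
        split_ifs
        · exact hg v₀
        · exact le_rfl
      obtain ⟨β, hβ1, hβ2⟩ := loc_q p hp (Or.inl h5) (xc v₀.1) (y v₀) a (BasE_xc v₀.1) ha1
      refine ⟨β, fun v => ?_⟩
      by_cases hv : v = v₀
      · rw [hv]
        have hG : BasJ_G y Q q₀ g κ v₀ p = a := by
          unfold BasJ_G
          rw [if_neg (hnD v₀), if_pos hv₀, ha]
        rw [hG]
        exact ⟨hβ1, hβ2⟩
      have hd0 := inj hL hc.toCfg v₀ v (Ne.symm hv)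
      have hno : ¬ (p : ℤ) ∣ nm (Xs y β v) := by
        refine loc_other p hp (xc v₀.1) (y v₀) (xc v.1) (y v) β (BasJ_xc_nd h2p _) (BasJ_xc_nd h2p _) ?_
          (BasE_ndvd hd0 ((hKd v₀ v).trans_lt hKp)) (BasE_ndvd ?_ ((hKs v₀ v).trans_lt hKp))
        · refine dvd_trans ?_ hβ1
          exact_mod_cast dvd_pow_self p (by omega : a ≠ 0)
        have h2 := BasE_five (a := (xc v₀.1 : ℤ) * y v - xc v.1 * y v₀) (b := (xc v₀.1 : ℤ) * xc v.1)
          (mul_ne_zero (by rcases BasE_xc v₀.1 with h3 | h3 <;> rw [h3] <;> norm_num)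
            (by rcases BasE_xc v.1 with h3 | h3 <;> rw [h3] <;> norm_num))
        intro h3
        apply h2
        rw [← h3]
        ring
      rw [BasJ_G0 (hnD v) (hQd v₀ v (Ne.symm hv) p hv₀)]
      exact BasJ_ex0 hno
    · obtain ⟨β, hβ⟩ := loc_free hc p hp
      refine ⟨β, fun v => ?_⟩
      rw [BasJ_G0 (hnD v) (fun h => h2 ⟨v, h⟩)]
      exact BasJ_ex0 (hβ v)

theorem exists_baseJ {n : ℕ} {L : V n → V n → ℕ} {y : V n → ℕ} (hL : ∀ u v, 1 ≤ L u v)
    (hc : CfgS L y) : ∃ F₀ : ℕ, ∀ F F' κ : ℕ, F₀ ≤ F' → F' ≤ F → (κ = 0 ∨ κ = 1 ∧ F' + 2 * n ≤ F) →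
      ∃ (B w E : ℕ) (δ : V n → V n → ℤ × ℤ), BaseJ L y B w E F F' κ δ := by
  classical
  -- a bound for all the numbers of the configuration
  obtain ⟨K, hK⟩ : ∃ K, K = 24 * n + ∑ u, y u + ∑ u : V n, ∑ v : V n, hd y u v
    + ∑ u : V n, ∑ v : V n, ((xc u.1 : ℤ) * y v - xc v.1 * y u).natAbs
    + ∑ u : V n, ∑ v : V n, (((xc u.1 : ℤ) * y v - xc v.1 * y u) ^ 2
        - 5 * (xc u.1 : ℤ) ^ 2 * (xc v.1 : ℤ) ^ 2).natAbs + 2 := ⟨_, rfl⟩
  have hsum2 : ∀ (f : V n → V n → ℕ) (u v : V n), f u v ≤ ∑ u, ∑ v, f u v := fun f u v =>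
    (Finset.single_le_sum (f := fun v => f u v) (fun _ _ => Nat.zero_le _) (Finset.mem_univ v)).trans
      (Finset.single_le_sum (f := fun u => ∑ v, f u v) (fun _ _ => Nat.zero_le _) (Finset.mem_univ u))
  have hKy : ∀ u, y u ≤ K := fun u => by
    have h1 : y u ≤ ∑ u, y u := Finset.single_le_sum (fun _ _ => Nat.zero_le _) (Finset.mem_univ u)
    omega
  have hKh : ∀ u v, hd y u v ≤ K := fun u v => by
    have h1 := hsum2 (fun u v => hd y u v) u v
    omega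
  have hKd : ∀ u v : V n, ((xc u.1 : ℤ) * y v - xc v.1 * y u).natAbs ≤ K := fun u v => by
    have h1 := hsum2 (fun u v => ((xc u.1 : ℤ) * y v - xc v.1 * y u).natAbs) u v
    omega
  have hKs : ∀ u v : V n, (((xc u.1 : ℤ) * y v - xc v.1 * y u) ^ 2
        - 5 * (xc u.1 : ℤ) ^ 2 * (xc v.1 : ℤ) ^ 2).natAbs ≤ K := fun u v => by
    have h1 := hsum2 (fun u v => (((xc u.1 : ℤ) * y v - xc v.1 * y u) ^ 2
        - 5 * (xc u.1 : ℤ) ^ 2 * (xc v.1 : ℤ) ^ 2).natAbs) u v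
    omega
  obtain ⟨inc, hinc⟩ : ∃ inc : V n → Finset (V n × V n), inc = fun v =>
    (EC n).filter (fun e => e.1 = v ∨ e.2 = v) := ⟨_, rfl⟩
  have hincm : ∀ v e, e ∈ inc v ↔ e ∈ EC n ∧ (e.1 = v ∨ e.2 = v) := fun v e => by
    rw [hinc, Finset.mem_filter]
  obtain ⟨F₁, hF₁⟩ : ∃ F₁ : V n → ℕ, F₁ = fun v => ∑ e ∈ inc v, L e.1 e.2 := ⟨_, rfl⟩
  refine ⟨1 + ∑ v, F₁ v, fun F F' κ hF hF' hκ => ?_⟩
  have hF1 : ∀ v, F₁ v + 1 ≤ F' := fun v => by
    have h1 : F₁ v ≤ ∑ v, F₁ v := Finset.single_le_sum (fun _ _ => Nat.zero_le _) (Finset.mem_univ v)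
    omega
  obtain ⟨eN, heN⟩ : ∃ eN : V n → ℕ, eN = fun v => ∑ e ∈ inc v, (if e.1 = v then 1 else 0) := ⟨_, rfl⟩
  have heN2 : ∀ v, eN v ≤ 2 * n := fun v => by
    have h1 : eN v = ((inc v).filter (fun e => e.1 = v)).card := by
      rw [heN, Finset.card_filter]
    have h2 : ((inc v).filter (fun e => e.1 = v)).card ≤
        (((univ : Finset (Fin 3)).erase 0) ×ˢ (univ : Finset (Fin n))).card := by
      refine Finset.card_le_card_of_injOn (fun e => e.2) (fun e he => ?_) (fun e he e' he' h => ?_)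
      · have h3 := Finset.mem_filter.1 (Finset.mem_coe.1 he)
        have h4 := (BasJ_mem e).1 ((hincm v e).1 h3.1).1
        rw [Finset.mem_coe, Finset.mem_product]
        refine ⟨Finset.mem_erase.2 ⟨fun h5 => ?_, Finset.mem_univ _⟩, Finset.mem_univ _⟩
        have h6 : (e.2.1 : Fin 3) = 0 := h5
        rw [h6] at h4
        exact absurd h4 (Fin.not_lt_zero _)
      · have h3 := (Finset.mem_filter.1 (Finset.mem_coe.1 he)).2
        have h4 := (Finset.mem_filter.1 (Finset.mem_coe.1 he')).2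
        exact Prod.ext (h3.trans h4.symm) h
    rw [Finset.card_product, Finset.card_erase_of_mem (Finset.mem_univ _), Finset.card_univ, Finset.card_univ,
      Fintype.card_fin, Fintype.card_fin] at h2
    omega
  have hκe : ∀ v, κ * eN v ≤ F - F' := fun v => by
    have h1 := heN2 v
    rcases hκ with h | ⟨h, h'⟩
    · rw [h]
      omega
    · rw [h]
      omega
  have hκ1 : κ = 0 ∨ κ = 1 := by
    rcases hκ with h | h
    · exact Or.inl h
    · exact Or.inr h.1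
  obtain ⟨g, hg⟩ : ∃ g : V n → ℕ, g = fun v => 1 + (F - F' - κ * eN v) := ⟨_, rfl⟩
  have hg1 : ∀ v, g v = 1 + (F - F' - κ * eN v) := fun v => by rw [hg]
  obtain ⟨q, hqinj, hq⟩ := BasJ_q n K
  obtain ⟨Q, hQ⟩ : ∃ Q : V n → Finset ℕ, Q = fun v => (range (F' - F₁ v)).image (fun j => q (v, j)) := ⟨_, rfl⟩
  obtain ⟨q₀, hq₀⟩ : ∃ q₀ : V n → ℕ, q₀ = fun v => q (v, 0) := ⟨_, rfl⟩
  have hQm : ∀ v p, p ∈ Q v ↔ ∃ j < F' - F₁ v, q (v, j) = p := fun v p => by
    rw [hQ]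
    simp
  have hq0Q : ∀ v, q₀ v ∈ Q v := fun v => by
    rw [hQm, hq₀]
    have := hF1 v
    exact ⟨0, by omega, rfl⟩
  have hQc : ∀ v, (Q v).card = F' - F₁ v := fun v => by
    rw [hQ]
    dsimp only
    rw [Finset.card_image_of_injective, card_range]
    intro i j hij
    exact (Prod.ext_iff.1 (hqinj hij)).2
  have hQp : ∀ v, ∀ p ∈ Q v, p.Prime ∧ p % 5 = 1 ∧ K < p := fun v p hp => by
    obtain ⟨j, -, rfl⟩ := (hQm v p).1 hp
    exact hq _
  have hQd : ∀ u v, u ≠ v → ∀ p ∈ Q u, p ∉ Q v := fun u v huv p hp hp' => by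
    obtain ⟨j, -, hj⟩ := (hQm u p).1 hp
    obtain ⟨i, -, hi⟩ := (hQm v p).1 hp'
    exact huv (Prod.ext_iff.1 (hqinj (hj.trans hi.symm))).1
  obtain ⟨w, hw⟩ : ∃ w, w = K + ∑ v, ∑ p ∈ Q v, p := ⟨_, rfl⟩
  have hQw : ∀ v, ∀ p ∈ Q v, p ≤ w := fun v p hp => by
    have h1 : p ≤ ∑ p ∈ Q v, p := Finset.single_le_sum (f := fun p => p) (fun _ _ => Nat.zero_le _) hp
    have h2 : ∑ p ∈ Q v, p ≤ ∑ v, ∑ p ∈ Q v, p :=
      Finset.single_le_sum (f := fun v => ∑ p ∈ Q v, p) (fun _ _ => Nat.zero_le _) (Finset.mem_univ v)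
    omega
  obtain ⟨P, hP⟩ : ∃ P : Finset ℕ, P = (range (w + 1)).filter (fun p => p.Prime) := ⟨_, rfl⟩
  have hPm : ∀ p, p ∈ P ↔ p ≤ w ∧ p.Prime := fun p => by
    rw [hP, Finset.mem_filter, Finset.mem_range, Nat.lt_succ_iff]
  have hch : ∀ p : ℕ, ∃ β : ℕ, p.Prime → ∀ v, BasJ_ex p (BasJ_G y Q q₀ g κ v p) (nm (Xs y β v)) := fun p => by
    by_cases hp : p.Prime
    · obtain ⟨β, hβ⟩ := BasJ_choice hL hc Q q₀ g κ K (by omega) hKh hKd hKs hQp hQd
        (fun v => by rw [hg1]; omega) p hp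
      exact ⟨β, fun _ => hβ⟩
    · exact ⟨0, fun h => absurd h hp⟩
  choose β hβ using hch
  have hGM : ∀ v p, BasJ_G y Q q₀ g κ v p + 1 ≤ F + 3 := fun v p => by
    have h1 := hg1 v
    unfold BasJ_G
    split_ifs <;> omega
  -- Chinese remainder theorem
  obtain ⟨B, hB⟩ : ∃ B : ℕ, ∀ p ∈ P, B ≡ β p [MOD p ^ (F + 3)] := by
    have h1 := Nat.chineseRemainderOfFinset β (fun p => p ^ (F + 3)) P
      (fun p hp => pow_ne_zero _ ((hPm p).1 hp).2.ne_zero) ?_
    · exact ⟨h1.1, h1.2⟩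
    · intro p hp p' hp' hne
      exact Nat.Coprime.pow _ _ ((Nat.coprime_primes ((hPm p).1 hp).2 ((hPm p').1 hp').2).2 hne)
  have hGd : ∀ p ∈ P, ∀ v, BasJ_ex p (BasJ_G y Q q₀ g κ v p) (nm (Xs y B v)) := fun p hp v => by
    have h0 : ((p ^ (F + 3) : ℕ) : ℤ) ∣ (B : ℤ) - β p := Nat.modEq_iff_dvd.1 (hB p hp).symm
    have h1 := BasE_cg y h0 v
    have h5 : ∀ a, a ≤ F + 3 → ((p ^ a : ℕ) : ℤ) ∣ nm (Xs y B v) - nm (Xs y (β p) v) := fun a ha =>
      dvd_trans (by exact_mod_cast pow_dvd_pow p ha) h1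
    have h6 := hGM v p
    obtain ⟨h3, h4⟩ := hβ p ((hPm p).1 hp).2 v
    unfold BasJ_ex
    rw [dvd_iff_dvd_of_dvd_sub (h5 _ (by omega)), dvd_iff_dvd_of_dvd_sub (h5 _ h6)]
    exact ⟨h3, h4⟩
  obtain ⟨N, hN⟩ : ∃ N : V n → ℕ, N = fun v => (nm (Xs y B v)).natAbs := ⟨_, rfl⟩
  have hNp : ∀ v, N v ≠ 0 := fun v => by
    rw [hN]
    exact Int.natAbs_ne_zero.2 (BasE_pos y B v).ne'
  have hNd : ∀ (v : V n) (d : ℕ), d ∣ N v ↔ (d : ℤ) ∣ nm (Xs y B v) := fun v d => by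
    rw [hN, Int.natCast_dvd]
  have hfac : ∀ p ∈ P, ∀ v, (N v).factorization p = BasJ_G y Q q₀ g κ v p := fun p hp v => by
    obtain ⟨h3, h4⟩ := hGd p hp v
    refine BasE_fac ((hPm p).1 hp).2 (hNp v) ?_ ?_
    · rw [hNd]
      exact h3
    · rw [hNd]
      exact h4
  have hhp : ∀ u v : V n, u.1 < v.1 → 0 < hd y u v := fun u v h => (hc.spl u v h).1
  -- the small primes of the norms
  obtain ⟨S, hS⟩ : ∃ S : V n → Finset ℕ, S = fun v =>
    ((inc v).biUnion (fun e => (hd y e.1 e.2).primeFactors)) ∪ Q v := ⟨_, rfl⟩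
  have hSm : ∀ v p, p ∈ S v ↔ p ∈ P ∧ (BasJ_D y p v ∨ p ∈ Q v) := fun v p => by
    rw [hS]
    dsimp only
    rw [Finset.mem_union, Finset.mem_biUnion]
    constructor
    · rintro (⟨e, he, hpe⟩ | h)
      · rw [hinc, Finset.mem_filter] at he
        have h1 := Nat.mem_primeFactors.1 hpe
        have h2 := (BasJ_mem e).1 he.1
        have h3 := Nat.le_of_dvd (hhp _ _ h2) h1.2.1
        have h4 := hKh e.1 e.2
        exact ⟨(hPm p).2 ⟨by omega, h1.1⟩, Or.inl ⟨e, he.1, he.2, h1.2.1⟩⟩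
      · exact ⟨(hPm p).2 ⟨hQw v p h, (hQp v p h).1⟩, Or.inr h⟩
    · rintro ⟨hpP, ⟨e, he, hev, hpe⟩ | h⟩
      · refine Or.inl ⟨e, ?_, Nat.mem_primeFactors.2 ⟨((hPm p).1 hpP).2, hpe, (hhp _ _ ((BasJ_mem e).1 he)).ne'⟩⟩
        rw [hinc, Finset.mem_filter]
        exact ⟨he, hev⟩
      · exact Or.inr h
  have hom : ∀ e ∈ EC n, ((hd y e.1 e.2).primeFactors).card = L e.1 e.2 := fun e he => by
    have h2 := (BasJ_mem e).1 he
    have h3 := (ArithmeticFunction.cardDistinctFactors_eq_cardFactors_iff_squarefree (hhp _ _ h2).ne').2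
      (hc.sqf _ _ h2)
    rw [hc.om _ _ h2] at h3
    rw [← h3, ArithmeticFunction.cardDistinctFactors_apply]
    rfl
  have hdis1 : ∀ v, ∀ e ∈ inc v, ∀ e' ∈ inc v, e ≠ e' →
      Disjoint (hd y e.1 e.2).primeFactors (hd y e'.1 e'.2).primeFactors := fun v e he e' he' hne => by
    rw [hincm] at he he'
    rw [Finset.disjoint_left]
    intro p hp hp'
    exact hne (BasJ_uniq hc.toCfg (Nat.mem_primeFactors.1 hp).1 he.1 he'.1 (Nat.mem_primeFactors.1 hp).2.1
      (Nat.mem_primeFactors.1 hp').2.1)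
  have hdis2 : ∀ v, Disjoint ((inc v).biUnion (fun e => (hd y e.1 e.2).primeFactors)) (Q v) := fun v => by
    rw [Finset.disjoint_left]
    intro p hp hp'
    obtain ⟨e, he, hpe⟩ := Finset.mem_biUnion.1 hp
    rw [hincm] at he
    have h1 := Nat.mem_primeFactors.1 hpe
    have h2 := (BasJ_mem e).1 he.1
    have h3 := Nat.le_of_dvd (hhp _ _ h2) h1.2.1
    have h4 := hKh e.1 e.2
    have h5 := (hQp v p hp').2.2
    omega
  have hSc : ∀ v, (S v).card = F' := fun v => by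
    rw [hS]
    dsimp only
    rw [Finset.card_union_of_disjoint (hdis2 v), Finset.card_biUnion (hdis1 v), hQc]
    have h1 : ∑ e ∈ inc v, ((hd y e.1 e.2).primeFactors).card = F₁ v := by
      rw [hF₁]
      exact Finset.sum_congr rfl fun e he => hom e ((hincm v e).1 he).1
    rw [h1]
    have := hF1 v
    omega
  have hGpos : ∀ p ∈ P, ∀ v, (1 ≤ BasJ_G y Q q₀ g κ v p ↔ p ∈ S v) := fun p hp v => by
    rw [hSm]
    have h1 := hg1 v
    unfold BasJ_G
    split_ifs with h2 h3 h4 h5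
    · exact ⟨fun _ => ⟨hp, Or.inl h2⟩, fun _ => by omega⟩
    · exact ⟨fun _ => ⟨hp, Or.inl h2⟩, fun _ => le_rfl⟩
    · exact ⟨fun _ => ⟨hp, Or.inr h4⟩, fun _ => by omega⟩
    · exact ⟨fun _ => ⟨hp, Or.inr h4⟩, fun _ => le_rfl⟩
    · refine ⟨fun h => by omega, fun h => ?_⟩
      rcases h.2 with h6 | h6
      · exact absurd h6 h2
      · exact absurd h6 h4
  have hdvN : ∀ p ∈ P, ∀ v, (p ∣ N v ↔ p ∈ S v) := fun p hp v => by
    rw [← hGpos p hp v, ← hfac p hp v, ← ((hPm p).1 hp).2.pow_dvd_iff_le_factorization (hNp v), pow_one]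
  -- the number of small prime factors
  have hsw : ∀ v, sW w (N v) = F' := fun v => by
    unfold sW
    rw [← hSc v]
    congr 1
    ext p
    rw [Finset.mem_filter, Nat.mem_primeFactors]
    constructor
    · rintro ⟨⟨h1, h2, -⟩, h3⟩
      exact (hdvN p ((hPm p).2 ⟨h3, h1⟩) v).1 h2
    · intro h
      have h1 := ((hSm v p).1 h).1
      exact ⟨⟨((hPm p).1 h1).2, (hdvN p h1 v).2 h, hNp v⟩, ((hPm p).1 h1).1⟩
  have hGe : ∀ v, ∀ e ∈ inc v, ∀ p ∈ (hd y e.1 e.2).primeFactors, BasJ_G y Q q₀ g κ v p =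
      1 + (if p = (hd y e.1 e.2).minFac then (if κ = 1 ∧ e.1 = v then 1 else 0) else 0) := fun v e he p hp => by
    obtain ⟨he1, he2⟩ := (hincm v e).1 he
    have hpp := (Nat.mem_primeFactors.1 hp).1
    have hpd := (Nat.mem_primeFactors.1 hp).2.1
    unfold BasJ_G
    rw [if_pos ⟨e, he1, he2, hpd⟩]
    by_cases h1 : κ = 1 ∧ ∃ e' ∈ EC n, e'.1 = v ∧ p = (hd y e'.1 e'.2).minFac
    · rw [if_pos h1]
      obtain ⟨h2, e', he', h3, h4⟩ := h1
      have h6 : p ∣ hd y e'.1 e'.2 := by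
        rw [h4]
        exact Nat.minFac_dvd _
      have h7 := BasJ_uniq hc.toCfg hpp he' he1 h6 hpd
      rw [h7] at h3 h4
      rw [if_pos h4, if_pos ⟨h2, h3⟩]
    · rw [if_neg h1]
      by_cases h2 : p = (hd y e.1 e.2).minFac
      · rw [if_pos h2, if_neg]
        rintro ⟨h3, h4⟩
        exact h1 ⟨h3, e, he1, h4, h2⟩
      · rw [if_neg h2]
  have hmf : ∀ e ∈ EC n, (hd y e.1 e.2).minFac ∈ (hd y e.1 e.2).primeFactors := fun e he => by
    have h2 := (BasJ_mem e).1 he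
    have h3 : hd y e.1 e.2 ≠ 1 := fun h => by
      have h4 := hc.om _ _ h2
      have h5 := hL e.1 e.2
      rw [h, ArithmeticFunction.cardFactors_one] at h4
      omega
    exact Nat.mem_primeFactors.2 ⟨Nat.minFac_prime h3, Nat.minFac_dvd _, (hhp _ _ h2).ne'⟩
  have hsm : ∀ v, sOm w (N v) = F := fun v => by
    rw [BasE_sOm, ← hP]
    have hsub : S v ⊆ P := fun p hp => ((hSm v p).1 hp).1
    rw [← Finset.sum_subset hsub (f := fun p => (N v).factorization p)]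
    · have h1 : ∑ p ∈ S v, (N v).factorization p = ∑ p ∈ S v, BasJ_G y Q q₀ g κ v p :=
        Finset.sum_congr rfl fun p hp => hfac p (hsub hp) v
      rw [h1, hS]
      dsimp only
      rw [Finset.sum_union (hdis2 v), Finset.sum_biUnion (hdis1 v)]
      have h2 : ∀ e ∈ inc v, ∑ p ∈ (hd y e.1 e.2).primeFactors, BasJ_G y Q q₀ g κ v p =
          L e.1 e.2 + κ * (if e.1 = v then 1 else 0) := fun e he => by
        have he1 := ((hincm v e).1 he).1
        rw [Finset.sum_congr rfl (hGe v e he), Finset.sum_add_distrib, Finset.sum_ite_eq',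
          if_pos (hmf e he1), Finset.sum_const, smul_eq_mul, mul_one, hom e he1]
        rcases hκ1 with h | h <;> rw [h] <;> simp
      rw [Finset.sum_congr rfl h2, Finset.sum_add_distrib, ← Finset.mul_sum]
      have h3 : ∑ e ∈ inc v, L e.1 e.2 = F₁ v := by rw [hF₁]
      have h4 : ∑ e ∈ inc v, (if e.1 = v then 1 else 0) = eN v := by rw [heN]
      have h5 : ∀ p ∈ Q v, BasJ_G y Q q₀ g κ v p = 1 + (if p = q₀ v then (F - F' - κ * eN v) else 0) :=
        fun p hp => by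
        have h6 : ¬ BasJ_D y p v := by
          rintro ⟨e, he, hev, hpe⟩
          have h7 := Nat.le_of_dvd (hhp _ _ ((BasJ_mem e).1 he)) hpe
          have h8 := hKh e.1 e.2
          have h9 := (hQp v p hp).2.2
          omega
        have h10 := hg1 v
        unfold BasJ_G
        rw [if_neg h6, if_pos hp]
        by_cases h11 : p = q₀ v
        · rw [if_pos h11, if_pos h11, h10]
        · rw [if_neg h11, if_neg h11]
      rw [Finset.sum_congr rfl h5, Finset.sum_add_distrib, Finset.sum_ite_eq', if_pos (hq0Q v),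
        Finset.sum_const, smul_eq_mul, mul_one, hQc, h3, h4]
      have h6 := hκe v
      have h7 := hF1 v
      omega
    · intro p hp hpS
      have h1 := hfac p hp v
      have h2 := (not_congr (hGpos p hp v)).2 hpS
      omega
  have hhN : ∀ u v : V n, u.1 < v.1 → (hd y u v : ℤ) ∣ nm (Xs y B u) := fun u v h => by
    rw [← hNd, ← Nat.prod_primeFactors_of_squarefree (hc.sqf u v h)]
    refine Finset.prod_primes_dvd _ (fun p hp => (Nat.mem_primeFactors.1 hp).1.prime) fun p hp => ?_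
    have h1 := Nat.mem_primeFactors.1 hp
    have h3 := Nat.le_of_dvd (hhp u v h) h1.2.1
    have h4 := hKh u v
    have h2 : p ∈ P := (hPm p).2 ⟨by omega, h1.1⟩
    rw [hdvN p h2 u, hSm]
    exact ⟨h2, Or.inl ⟨(u, v), (BasJ_mem _).2 h, Or.inl rfl, h1.2.1⟩⟩
  have hδ : ∀ u v : V n, ∃ δ : ℤ × ℤ, u.1 < v.1 → TP δ ∧ nm δ = hd y u v ∧
      (∃ x, ml δ x = Xs y B u) ∧ ∃ x, ml δ x = Xs y B v := fun u v => by
    by_cases h : u.1 < v.1
    · have hcop : IsCoprime (Xs y B u).1 (Xs y B u).2 := by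
        unfold Xs
        rw [BasE_xc1 h]
        push_cast
        exact isCoprime_one_left
      obtain ⟨δ, x, h1, h2, h3⟩ := exists_del (hd y u v) (hc.spl u v h) (Xs y B u) hcop (hhN u v h)
      refine ⟨δ, fun _ => ⟨h1, h2, ⟨x, h3⟩, del_snd hcop h2 h3 ?_⟩⟩
      have h4 : dt (Xs y B u) (Xs y B v) = hd y u v := by
        unfold dt Xs hd
        rw [Nat.cast_sub (hc.lt u v h).le, BasE_xc1 h]
        push_cast
        ring
      rw [h4]
    · exact ⟨(0, 0), fun h' => absurd h' h⟩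
  choose δ hδ using hδ
  obtain ⟨E, hE⟩ : ∃ E, E = 3 + ∑ v, N v := ⟨_, rfl⟩
  refine ⟨B, w, E, δ, ⟨hc.toCfg, by omega, fun v => (hKy v).trans (by omega), by omega,
    fun v => ?_, fun v => by have h1 := hsm v; rw [hN] at h1; exact h1, fun u v h => ?_, fun u v h => (hδ u v h).1, fun u v h => (hδ u v h).2.1,
    fun u v h => (hδ u v h).2.2.1, fun u v h => (hδ u v h).2.2.2⟩, by omega, hc.sqf,
    fun v => by have h1 := hsw v; rw [hN] at h1; exact h1, ?_, ?_⟩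
  · have h1 : N v ≤ ∑ v, N v := Finset.single_le_sum (fun _ _ => Nat.zero_le _) (Finset.mem_univ v)
    have h2 : N v < 2 ^ E := lt_of_le_of_lt (by omega : N v ≤ E) (Nat.lt_two_pow_self)
    have h3 : ((N v : ℕ) : ℤ) = nm (Xs y B v) := by
      rw [hN]
      exact Int.natAbs_of_nonneg (BasE_pos y B v).le
    rw [← h3]
    exact_mod_cast h2
  · have h1 : hd y u v ∣ w.factorial := Nat.dvd_factorial (hhp u v h) ((hKh u v).trans (by omega))
    exact h1.trans (dvd_pow_self _ (by omega))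
  · intro u v p huv hp hpw hpu hpv
    have hne : u ≠ v := fun h => by
      rw [h] at huv
      exact lt_irrefl _ huv
    have hpP : p ∈ P := (hPm p).2 ⟨hpw, hp⟩
    have hle : ∀ e ∈ EC n, p ∣ hd y e.1 e.2 → p ≤ K := fun e he h => by
      have h3 := Nat.le_of_dvd (hhp _ _ ((BasJ_mem e).1 he)) h
      have h4 := hKh e.1 e.2
      omega
    rcases ((hSm u p).1 ((hdvN p hpP u).1 ((hNd u p).2 hpu))).2 with ⟨e, he, heu, hpe⟩ | hu
    · rcases ((hSm v p).1 ((hdvN p hpP v).1 ((hNd v p).2 hpv))).2 with ⟨e', he', hev, hpe'⟩ | hv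
      · have h1 := BasJ_uniq hc.toCfg hp he he' hpe hpe'
        subst h1
        have h2 := (BasJ_mem e).1 he
        rcases heu with heu | heu
        · rcases hev with hev | hev
          · exact absurd (heu.symm.trans hev) hne
          · rw [heu, hev] at hpe
            exact hpe
        · rcases hev with hev | hev
          · rw [heu, hev] at h2
            exact absurd huv (lt_asymm h2)
          · exact absurd (heu.symm.trans hev) hne
      · have h1 := hle e he hpe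
        have h2 := (hQp v p hv).2.2
        omega
    · rcases ((hSm v p).1 ((hdvN p hpP v).1 ((hNd v p).2 hpv))).2 with ⟨e', he', hev, hpe'⟩ | hv
      · have h1 := hle e' he' hpe'
        have h2 := (hQp u p hu).2.2
        omega
      · exact absurd hv (hQd u v hne p hu)
  · intro u v huv
    have he : (u, v) ∈ EC n := (BasJ_mem _).2 huv
    have hne : u ≠ v := fun h => by
      rw [h] at huv
      exact lt_irrefl _ huv
    have h3 : ∀ p ∈ (hd y u v).primeFactors, (((p ^ 3 : ℕ) : ℤ) ∣ nm (Xs y B u) * nm (Xs y B v) ↔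
        κ = 1 ∧ p = (hd y u v).minFac) := fun p hp => by
      have h1 := Nat.mem_primeFactors.1 hp
      have h4 := Nat.le_of_dvd (hhp u v huv) h1.2.1
      have h5 := hKh u v
      have h2 : p ∈ P := (hPm p).2 ⟨by omega, h1.1⟩
      have h6 : ((p ^ 3 : ℕ) : ℤ) ∣ nm (Xs y B u) * nm (Xs y B v) ↔ p ^ 3 ∣ N u * N v := by
        rw [hN, Int.natCast_dvd, Int.natAbs_mul]
      rw [h6, h1.1.pow_dvd_iff_le_factorization (mul_ne_zero (hNp u) (hNp v)),
        Nat.factorization_mul (hNp u) (hNp v), Finsupp.add_apply, hfac p h2 u, hfac p h2 v,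
        hGe u (u, v) ((hincm u (u, v)).2 ⟨he, Or.inl rfl⟩) p hp,
        hGe v (u, v) ((hincm v (u, v)).2 ⟨he, Or.inr rfl⟩) p hp]
      dsimp only
      rw [if_neg (fun h : κ = 1 ∧ u = v => hne h.2), ite_self]
      by_cases h7 : p = (hd y u v).minFac
      · by_cases h8 : κ = 1
        · rw [if_pos h7, if_pos ⟨h8, rfl⟩]
          exact ⟨fun _ => ⟨h8, h7⟩, fun _ => le_rfl⟩
        · rw [if_pos h7, if_neg (fun h => h8 h.1)]
          exact ⟨fun h => by omega, fun h => absurd h.1 h8⟩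
      · rw [if_neg h7]
        exact ⟨fun h => by omega, fun h => absurd h.2 h7⟩
    rw [Finset.filter_congr h3]
    rcases hκ1 with h | h
    · rw [h]
      simp
    · rw [h]
      have h4 : (hd y u v).primeFactors.filter (fun p => 1 = 1 ∧ p = (hd y u v).minFac) = {(hd y u v).minFac} := by
        ext p
        rw [Finset.mem_filter, Finset.mem_singleton]
        constructor
        · rintro ⟨-, -, h5⟩
          exact h5
        · intro h5
          rw [h5]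
          exact ⟨hmf (u, v) he, rfl, rfl⟩
      rw [h4, Finset.card_singleton]

end Pool.Agent.Lib.MP_d57abb_nt.EE
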