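import Mathlib
import Pool.Agent.Lib.MP_d57abb_nt.EE.Defs

/-!
# JOB BdE: the bad residues

PROOF: copy `Ev/BadV.lean` (complete there, `badV_card`, `mem_badV`, with the private lemma `BadV_two`) for a single index `(xc v.1, y v)`: `xc v.1 ∈ {1, 2}`, `y v < q`, `2 < q`.
For `γ < q` there are at most two `β < q` with `q ∣ nm (x a² + y a γ, x a β + y (1 + β γ))` (`BadV_two`), so `|badv| ≤ 2 q`; union over the `3 n` vertices (`Finset.card_biUnion_le`, `Fintype.card (V n) = 3 * n`): `|badE| ≤ 6 n q`.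
`mem_badv`: `a • Xv y a b c v = (x a² + y a c, x a b + y (1 + b c))` (as `a ((1 + b c)/a) = 1 + b c`), `nm (a • X) = a² nm X`, `q ∤ a`, and the expression depends only on `b, c` modulo `q`.
-/

open Finset

namespace Pool.Agent.Lib.MP_d57abb_nt.EE

open Pool.Agent.Lib.MP_d57abb_nt Pool.Agent.Lib.MP_d57abb_nt.All Pool.Agent.Lib.MP_d57abb_nt.AP
  Pool.Agent.Lib.MP_d57abb_nt.Ev

private theorem BdE_two (a q x y γ : ℕ) (hq : q.Prime) (hqa : ¬ q ∣ a) (hx0 : 0 < x) (hx : x < q) :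
    ((range q).filter (fun β : ℕ =>
      (q : ℤ) ∣ nm ((x : ℤ) * (a : ℤ) ^ 2 + y * a * γ, (x : ℤ) * a * β + y * (1 + β * γ)))).card ≤ 2 := by
  by_contra hcon
  push Not at hcon
  obtain ⟨b₁, h₁, b₂, h₂, b₃, h₃, h12, h13, h23⟩ := Finset.two_lt_card.mp hcon
  rw [mem_filter, mem_range] at h₁ h₂ h₃
  have : Fact q.Prime := ⟨hq⟩
  have ha0 : (a : ZMod q) ≠ 0 := by
    intro h
    exact hqa ((ZMod.natCast_eq_zero_iff a q).mp h)
  have hx1 : (x : ZMod q) ≠ 0 := by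
    intro h
    exact Nat.not_dvd_of_pos_of_lt hx0 hx ((ZMod.natCast_eq_zero_iff x q).mp h)
  have key : ∀ β : ℕ, (q : ℤ) ∣ nm ((x : ℤ) * (a : ℤ) ^ 2 + y * a * γ, (x : ℤ) * a * β + y * (1 + β * γ)) →
      ((a : ZMod q) * (x * a + y * γ)) ^ 2 + 3 * ((a : ZMod q) * (x * a + y * γ)) * ((x * a + y * γ) * β + y) +
        ((x * a + y * γ) * β + y) ^ 2 = 0 := by
    intro β hβ
    have h1 := (ZMod.intCast_zmod_eq_zero_iff_dvd _ q).mpr hβ
    unfold nm at h1
    push_cast at h1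
    rw [← h1]
    ring
  have inj : ∀ β β' : ℕ, β < q → β' < q → β ≠ β' → (β : ZMod q) ≠ (β' : ZMod q) := by
    intro β β' h h' hne he
    apply hne
    have h2 := (ZMod.natCast_eq_natCast_iff' β β' q).mp he
    rwa [Nat.mod_eq_of_lt h, Nat.mod_eq_of_lt h'] at h2
  have k₁ := key b₁ h₁.2
  have k₂ := key b₂ h₂.2
  have k₃ := key b₃ h₃.2
  have i12 := inj b₁ b₂ h₁.1 h₂.1 h12
  have i13 := inj b₁ b₃ h₁.1 h₃.1 h13
  have i23 := inj b₂ b₃ h₂.1 h₃.1 h23
  by_cases hu : (x : ZMod q) * a + y * γ = 0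
  · rw [hu] at k₁
    have ht0 : (y : ZMod q) ^ 2 = 0 := by
      rw [← k₁]
      ring
    have ht1 : (y : ZMod q) = 0 := by
      exact pow_eq_zero_iff (two_ne_zero) |>.mp ht0
    rw [ht1] at hu
    have h3 : (x : ZMod q) * a = 0 := by
      rw [← hu]
      ring
    exact mul_ne_zero hx1 ha0 h3
  · have d12 : (b₁ : ZMod q) - b₂ ≠ 0 := sub_ne_zero.mpr i12
    have d13 : (b₁ : ZMod q) - b₃ ≠ 0 := sub_ne_zero.mpr i13
    have e12 : ((x : ZMod q) * a + y * γ) * b₁ + y + (((x : ZMod q) * a + y * γ) * b₂ + y) +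
        3 * ((a : ZMod q) * (x * a + y * γ)) = 0 := by
      have : (((x : ZMod q) * a + y * γ) * ((b₁ : ZMod q) - b₂)) *
        (((x : ZMod q) * a + y * γ) * b₁ + y + (((x : ZMod q) * a + y * γ) * b₂ + y) +
        3 * ((a : ZMod q) * (x * a + y * γ))) = 0 := by
        linear_combination k₁ - k₂
      rcases mul_eq_zero.mp this with h | h
      · exact absurd h (mul_ne_zero hu d12)
      · exact h
    have e13 : ((x : ZMod q) * a + y * γ) * b₁ + y + (((x : ZMod q) * a + y * γ) * b₃ + y) +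
        3 * ((a : ZMod q) * (x * a + y * γ)) = 0 := by
      have : (((x : ZMod q) * a + y * γ) * ((b₁ : ZMod q) - b₃)) *
        (((x : ZMod q) * a + y * γ) * b₁ + y + (((x : ZMod q) * a + y * γ) * b₃ + y) +
        3 * ((a : ZMod q) * (x * a + y * γ))) = 0 := by
        linear_combination k₁ - k₃
      rcases mul_eq_zero.mp this with h | h
      · exact absurd h (mul_ne_zero hu d13)
      · exact h
    have e23 : ((x : ZMod q) * a + y * γ) * ((b₂ : ZMod q) - b₃) = 0 := by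
      linear_combination e12 - e13
    rcases mul_eq_zero.mp e23 with h | h
    · exact hu h
    · exact i23 (sub_eq_zero.mp h)

private theorem BdE_xc {g : Fin 3} : 0 < xc g ∧ xc g ≤ 2 := by
  unfold xc
  split_ifs <;> omega

theorem badv_card {n : ℕ} (y : V n → ℕ) (a q : ℕ) (v : V n) (hq : q.Prime) (hqa : ¬ q ∣ a) (hy : y v < q)
    (h2 : 2 < q) : (badv y a q v).card ≤ 2 * q := by
  have _ := hy
  have hsub : badv y a q v ⊆ (range q).biUnion (fun γ =>
      ((range q).filter (fun β : ℕ =>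
        (q : ℤ) ∣ nm ((xc v.1 : ℤ) * (a : ℤ) ^ 2 + y v * a * γ,
          (xc v.1 : ℤ) * a * β + y v * (1 + β * γ)))).image (fun β => (β, γ))) := by
    intro s hs
    unfold badv at hs
    rw [mem_filter, mem_product] at hs
    obtain ⟨⟨h1, h2⟩, hd⟩ := hs
    rw [mem_biUnion]
    refine ⟨s.2, h2, ?_⟩
    rw [mem_image]
    exact ⟨s.1, mem_filter.mpr ⟨h1, hd⟩, rfl⟩
  refine (card_le_card hsub).trans ?_
  refine card_biUnion_le.trans ?_
  refine (sum_le_card_nsmul _ _ 2 ?_).trans ?_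
  · intro γ _
    have h3 := BdE_xc (g := v.1)
    exact card_image_le.trans (BdE_two a q (xc v.1) (y v) γ hq hqa h3.1 (by omega))
  · rw [card_range, smul_eq_mul, mul_comm]

theorem badE_card {n : ℕ} (y : V n → ℕ) (a q : ℕ) (hq : q.Prime) (hqa : ¬ q ∣ a) (hy : ∀ v, y v < q)
    (h2 : 2 < q) : (badE y a q).card ≤ 6 * n * q := by
  unfold badE
  refine card_biUnion_le.trans ?_
  refine (sum_le_card_nsmul _ _ (2 * q) fun v _ => badv_card y a q v hq hqa (hy v) h2).trans ?_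
  rw [card_univ, Fintype.card_prod, Fintype.card_fin, Fintype.card_fin, smul_eq_mul]
  apply le_of_eq
  ring

theorem mem_badv {n : ℕ} (y : V n → ℕ) (a b c q : ℕ) (v : V n) (ha : 0 < a) (hd : a ∣ 1 + b * c) (hq : q.Prime)
    (hqa : ¬ q ∣ a) : (b % q, c % q) ∈ badv y a q v ↔ (q : ℤ) ∣ nm (Xv y a b c v) := by
  have _ := ha
  have : Fact q.Prime := ⟨hq⟩
  have ha0 : (a : ZMod q) ≠ 0 := by
    intro h
    exact hqa ((ZMod.natCast_eq_zero_iff a q).mp h)
  have hae : a * ((1 + b * c) / a) = 1 + b * c := Nat.mul_div_cancel' hd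
  have hae' : (a : ZMod q) * (((1 + b * c) / a : ℕ) : ZMod q) = 1 + b * c := by
    have := congrArg (fun n : ℕ => (n : ZMod q)) hae
    push_cast at this
    exact this
  have key : ∀ x y : ℕ, ((q : ℤ) ∣ nm ((x : ℤ) * (a : ℤ) ^ 2 + y * a * (((c % q : ℕ)) : ℤ),
      (x : ℤ) * a * ((b % q : ℕ) : ℤ) + y * (1 + ((b % q : ℕ) : ℤ) * ((c % q : ℕ) : ℤ)))) ↔
      (q : ℤ) ∣ nm (zv a b c x y) := by
    intro x y
    rw [← ZMod.intCast_zmod_eq_zero_iff_dvd, ← ZMod.intCast_zmod_eq_zero_iff_dvd]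
    have e : ((nm ((x : ℤ) * (a : ℤ) ^ 2 + y * a * (((c % q : ℕ)) : ℤ),
      (x : ℤ) * a * ((b % q : ℕ) : ℤ) + y * (1 + ((b % q : ℕ) : ℤ) * ((c % q : ℕ) : ℤ))) : ℤ) : ZMod q)
      = (a : ZMod q) ^ 2 * ((nm (zv a b c x y) : ℤ) : ZMod q) := by
      unfold nm zv fv
      simp only [Prod.smul_mk, Prod.mk_add_mk, smul_eq_mul, Int.cast_add, Int.cast_mul, Int.cast_pow,
        Int.cast_natCast, ZMod.natCast_mod, Int.cast_one, Int.cast_ofNat]
      generalize (((1 + b * c) / a : ℕ) : ZMod q) = e at hae' ⊢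
      linear_combination (-(3 * (y : ZMod q) * a * (x * a + y * c)) - 2 * (x : ZMod q) * y * a * b
        - (y : ZMod q) ^ 2 * ((1 + b * c) + a * e)) * hae'
    rw [e]
    constructor
    · intro h
      rcases mul_eq_zero.mp h with h | h
      · exact absurd h (pow_ne_zero 2 ha0)
      · exact h
    · intro h
      rw [h, mul_zero]
  unfold badv Xv
  rw [mem_filter, mem_product]
  simp only [mem_range]
  constructor
  · rintro ⟨_, hd'⟩
    exact (key (xc v.1) (y v)).mp hd'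
  · intro hd'
    exact ⟨⟨Nat.mod_lt _ hq.pos, Nat.mod_lt _ hq.pos⟩, (key (xc v.1) (y v)).mpr hd'⟩

theorem mem_badE {n : ℕ} (y : V n → ℕ) (a b c q : ℕ) (ha : 0 < a) (hd : a ∣ 1 + b * c) (hq : q.Prime)
    (hqa : ¬ q ∣ a) : (b % q, c % q) ∈ badE y a q ↔ ∃ v, (q : ℤ) ∣ nm (Xv y a b c v) := by
  unfold badE
  rw [mem_biUnion]
  constructor
  · rintro ⟨v, _, hv⟩
    exact ⟨v, (mem_badv y a b c q v ha hd hq hqa).mp hv⟩
  · rintro ⟨v, hv⟩
    exact ⟨v, mem_univ v, (mem_badv y a b c q v ha hd hq hqa).mpr hv⟩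

end Pool.Agent.Lib.MP_d57abb_nt.EE
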