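import Mathlib
import Pool.Agent.Lib.MP_d57abb_nt.EE.Defs
import Pool.Agent.Lib.MP_d57abb_nt.AP.SvB

/-!
# JOB CrA: numbers free of small primes in a progression (Bonferroni, fundamental lemma for a tiny sifting range)

`PW W w` = the primes `p ≤ w` with `p ∤ W`.

PROOF of `cnt_cop`.  `w = wB B' ℓ = ⌊(log ℓ)^B'⌋`, `λ = log (log ℓ)`; everything for large `ℓ`.  Let `S = PW W w \ {p ∣ q}` (primes `p ≤ w`, `p ∤ W`, `p ∤ q`).  Take `r = 2 ⌈λ²⌉` (even).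
For `k` put `P_k = {p ∈ S : p ∣ W k + n₀}`.  Bonferroni: `|1[P_k = ∅] - ∑_{T ⊆ S, |T| ≤ r} (-1)^|T| 1[T ⊆ P_k]| ≤ ∑_{T ⊆ S, |T| = r+1} 1[T ⊆ P_k]`
(it is `SA_main`/`bon_ge`, `bon_sub_le` of `MP_42948a_nt/OA/SA.lean` applied to the function `g p = 1[p ∈ P_k]`: `bon S g r` is `∑_{j ≤ r} (-1)^j esy S g j`, `esy S g j = ∑_{T, |T| = j} ∏_{T} g`).
For `T ⊆ S` with product `d` (coprime to `W q`): the number of `k < v` with `k ≡ s (mod q)` and `d ∣ W k + n₀` is `v / (q d) + O(1)` (`|·| ≤ 1`): one residue class modulo `q d` (`W` is a unit modulo `d`; `Nat.count_modEq_card` or `prog_card` in `AP/Geo.lean`).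
So the count is `(v / q) bon S g r` with `g p = 1/p`, up to the number of `T` with `|T| ≤ r + 1` (at most `(w + 1)^(r+1)`), plus the error term `(5ℓ + ..) esy S (1/p) (r+1)`; again by Bonferroni `|bon S g r - ∏_{p ∈ S} (1 - 1/p)| ≤ esy S g (r+1)`, and
`esy S g (r+1) ≤ (∑_{p ∈ S} 1/p)^(r+1) / (r+1)!` (`esy_le` in OA), `∑_{p ≤ w} 1/p ≤ ∑_{m ≤ w} 1/m ≤ 1 + log w ≤ 1 + B' λ`, `(r+1)! ≥ ((r+1)/3)^(r+1)` (`Nat.factorial_lt`... or `x^n/n! ≤ exp(x)`-type: use `x^n / n! ≤ exp (c x) / c^n` for every `c > 0`,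
i.e. `(c x)^n / n! ≤ exp (c x)` (`Real.pow_div_factorial_le_exp`); with `c = e` one gets `x^n/n! ≤ exp (e x - n)`: `≤ exp (3 (1 + B' λ) - 2 λ²) ≤ exp (- λ²) ≤ (log ℓ)^(-A-1)` for large `ℓ`).
And `(w+1)^(r+1) ≤ exp ((2 λ² + 3) (B' λ + 1)) ≤ √ℓ` for large `ℓ` (`λ^3 = o(log ℓ)`).

PROOF of `crm_ap`.  If `Nat.Coprime (W s + n₀) q` fails there is a prime `p ∣ q`, `p ∣ W s + n₀`; `p ∤ W` because `Nat.Coprime n₀ W`; `p ≤ q ≤ (log ℓ)^B ≤ (log ℓ)^B'`, so `p ≤ wB B' ℓ` (`Nat.le_floor`), `p ∈ PW W w`, and `p ∣ W k + n₀` for all `k ≡ s (mod q)`: all the terms are `0`.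
If it holds: for `k ≡ s (mod q)` no prime `p ∣ q` divides `W k + n₀`, so `crm = cw W w` iff no `p ∈ S` divides `W k + n₀`; multiply `cnt_cop` (with `A + 1`) by `cw W w ≤ log ℓ` (`cw_le`), and
`cw W w * ∏_{p ∈ S} (1 - 1/p) / q = (1/q) ∏_{p ∣ q, p ∤ W} (1 - 1/p)⁻¹ = φ(W) / φ(W q)` (`Nat.totient_eq_mul_prod_factors`: `φ(N) = N ∏_{p ∣ N} (1 - 1/p)`; every prime `p ∣ q`, `p ∤ W` is in `PW W w` as `p ≤ q ≤ (log ℓ)^B ≤ (log ℓ)^B'`).

PROOF of `cw_le`: `prodK 1` (`AP/SvB.lean`) with `z = max 3 w`, `g p = 1/p` if `p ∈ PW W w` and `0` otherwise: `∏_{p ∈ PW W w} (1 - 1/p) ≥ 1 / (2 + log z)^C`, so `cw W w ≤ (2 + log z)^C ≤ (4 + B' log log ℓ)^C ≤ log ℓ` for large `ℓ`.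
-/

open Finset Filter

namespace Pool.Agent.Lib.MP_d57abb_nt.EE

open Pool.Agent.Lib.MP_d57abb_nt.All
open Pool.Agent.Lib.MP_42948a_nt.OA (bon esy bon_ge bon_sub_le esy_le)

private theorem CrA_PW {W w p : ℕ} (hp : p ∈ PW W w) : p.Prime ∧ p ≤ w ∧ ¬ p ∣ W := by
  unfold PW at hp
  rw [mem_filter, mem_Icc] at hp
  exact ⟨hp.2.1, hp.1.2, hp.2.2⟩

private theorem CrA_pos {p : ℕ} (hp : p.Prime) : (0 : ℝ) < 1 - 1 / (p : ℝ) := by
  have h2 : (2 : ℝ) ≤ p := by exact_mod_cast hp.two_le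
  have h3 : 1 / (p : ℝ) ≤ 1 / 2 := one_div_le_one_div_of_le (by norm_num) h2
  linarith

theorem one_le_cw (W w : ℕ) : 1 ≤ cw W w := by
  unfold cw
  refine Finset.prod_induction _ (fun x : ℝ => 1 ≤ x) (fun a b ha hb => ?_) le_rfl ?_
  · exact one_le_mul_of_one_le_of_one_le ha hb
  · intro p hp
    have h1 := CrA_pos (CrA_PW hp).1
    have h2 : (0 : ℝ) ≤ 1 / (p : ℝ) := by positivity
    exact (one_le_inv₀ h1).2 (by linarith)

theorem cw_le (W B' : ℕ) : ∃ ℓ₀ : ℕ, ∀ ℓ : ℕ, ℓ₀ ≤ ℓ → cw W (wB B' ℓ) ≤ Real.log ℓ := by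
  obtain ⟨C, hC⟩ := Pool.Agent.Lib.MP_d57abb_nt.AP.prodK 1
  have h1 : ∀ᶠ x : ℝ in atTop, x ^ C ≤ (1 / ((B' : ℝ) + 4) ^ C) * Real.exp x := by
    have h2 := (Real.isLittleO_pow_exp_atTop (n := C)).bound (show (0 : ℝ) < 1 / ((B' : ℝ) + 4) ^ C by positivity)
    filter_upwards [h2, eventually_ge_atTop (0 : ℝ)] with x hx hx0
    rwa [Real.norm_of_nonneg (by positivity), Real.norm_of_nonneg (Real.exp_pos x).le] at hx
  have h2 : ∀ᶠ ℓ : ℕ in atTop, Real.log (Real.log ℓ) ^ C ≤ (1 / ((B' : ℝ) + 4) ^ C) * Real.exp (Real.log (Real.log ℓ)) ∧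
      1 ≤ Real.log (Real.log ℓ) := by
    have h3 : Tendsto (fun ℓ : ℕ => Real.log (Real.log (ℓ : ℝ))) atTop atTop :=
      Real.tendsto_log_atTop.comp (Real.tendsto_log_atTop.comp tendsto_natCast_atTop_atTop)
    exact (h3.eventually h1).and (h3.eventually (eventually_ge_atTop 1))
  obtain ⟨ℓ₁, hℓ₁⟩ := eventually_atTop.1 h2
  refine ⟨max ℓ₁ 2, fun ℓ hℓ => ?_⟩
  obtain ⟨h3, h4⟩ := hℓ₁ ℓ ((le_max_left _ _).trans hℓ)
  set x : ℝ := Real.log (Real.log ℓ) with hx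
  have hℓ2 : (2 : ℝ) ≤ ℓ := by exact_mod_cast (le_max_right _ _).trans hℓ
  have hΛ0 : 0 < Real.log ℓ := Real.log_pos (by linarith)
  have hex : Real.exp x = Real.log ℓ := Real.exp_log hΛ0
  have hΛ1 : 1 ≤ Real.log ℓ := by
    rw [← hex]
    have := Real.add_one_le_exp x
    linarith
  set w := wB B' ℓ with hw
  set z := max 3 w with hz
  have hg : ∀ p ∈ Pool.Agent.Lib.MP_42948a_nt.OA.PP z, (0 : ℝ) ≤ (if p ∈ PW W w then 1 / (p : ℝ) else 0) ∧
      (if p ∈ PW W w then 1 / (p : ℝ) else 0) ≤ 3 / 4 ∧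
      (if p ∈ PW W w then 1 / (p : ℝ) else 0) ≤ ((1 : ℕ) : ℝ) / p := by
    intro p hp
    have hpp : p.Prime := by
      unfold Pool.Agent.Lib.MP_42948a_nt.OA.PP at hp
      exact (mem_filter.1 hp).2
    have h5 : (0 : ℝ) ≤ 1 / (p : ℝ) := by positivity
    have h6 : 1 / (p : ℝ) ≤ 1 / 2 := one_div_le_one_div_of_le (by norm_num) (by exact_mod_cast hpp.two_le)
    split_ifs
    · exact ⟨h5, by linarith, by rw [Nat.cast_one]⟩
    · exact ⟨le_rfl, by norm_num, by rw [Nat.cast_one]; exact h5⟩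
  have h5 := hC z (fun p => if p ∈ PW W w then 1 / (p : ℝ) else 0) (le_max_left _ _) hg
  have h6 : ∏ p ∈ Pool.Agent.Lib.MP_42948a_nt.OA.PP z, (1 - (if p ∈ PW W w then 1 / (p : ℝ) else 0)) =
      ∏ p ∈ PW W w, (1 - 1 / (p : ℝ)) := by
    have hsub : PW W w ⊆ Pool.Agent.Lib.MP_42948a_nt.OA.PP z := by
      intro p hp
      have h7 := CrA_PW hp
      unfold Pool.Agent.Lib.MP_42948a_nt.OA.PP
      rw [mem_filter, mem_Icc]
      exact ⟨⟨h7.1.pos, h7.2.1.trans (le_max_right _ _)⟩, h7.1⟩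
    rw [← prod_subset hsub]
    · exact prod_congr rfl fun p hp => by rw [if_pos hp]
    · intro p _ hp
      rw [if_neg hp, sub_zero]
  rw [h6] at h5
  have hprod : 0 < ∏ p ∈ PW W w, (1 - 1 / (p : ℝ)) := prod_pos fun p hp => CrA_pos (CrA_PW hp).1
  have hcw : cw W w = (∏ p ∈ PW W w, (1 - 1 / (p : ℝ)))⁻¹ := by
    unfold cw
    rw [prod_inv_distrib]
  have hz3 : (3 : ℝ) ≤ z := by exact_mod_cast le_max_left 3 w
  have hlz0 : 0 ≤ Real.log z := Real.log_nonneg (by linarith)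
  have h7 : cw W w ≤ (2 + Real.log z) ^ C := by
    rw [hcw]
    have h8 := inv_anti₀ (by positivity) h5
    rwa [one_div, inv_inv] at h8
  have hwle : (w : ℝ) ≤ Real.log ℓ ^ B' := by
    rw [hw]
    unfold wB
    exact Nat.floor_le (by positivity)
  have hzle : (z : ℝ) ≤ 3 * Real.log ℓ ^ B' := by
    have h9 : 1 ≤ Real.log ℓ ^ B' := one_le_pow₀ hΛ1
    rw [hz, Nat.cast_max]
    exact max_le (by push_cast; linarith) (by linarith)
  have hlz : Real.log z ≤ 2 + B' * x := by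
    have h9 : Real.log z ≤ Real.log (3 * Real.log ℓ ^ B') := Real.log_le_log (by linarith) hzle
    rw [Real.log_mul (by norm_num) (by positivity), Real.log_pow, ← hx] at h9
    have h10 : Real.log 3 ≤ 2 := by
      rw [Real.log_le_iff_le_exp (by norm_num)]
      have h11 := Real.add_one_le_exp (2 : ℝ)
      linarith
    linarith
  have hB0 : (0 : ℝ) ≤ B' := Nat.cast_nonneg _
  have h8 : 2 + Real.log z ≤ ((B' : ℝ) + 4) * x := by nlinarith
  calc cw W w ≤ (2 + Real.log z) ^ C := h7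
    _ ≤ (((B' : ℝ) + 4) * x) ^ C := pow_le_pow_left₀ (by linarith) h8 C
    _ = ((B' : ℝ) + 4) ^ C * x ^ C := mul_pow _ _ _
    _ ≤ ((B' : ℝ) + 4) ^ C * ((1 / ((B' : ℝ) + 4) ^ C) * Real.exp x) :=
        mul_le_mul_of_nonneg_left h3 (by positivity)
    _ = Real.log ℓ := by
        rw [hex]
        field_simp

/-! ### Bonferroni -/

private theorem CrA_bon (S : Finset ℕ) (g : ℕ → ℝ) (h0 : ∀ p ∈ S, 0 ≤ g p)
    (h1 : ∀ p ∈ S, g p ≤ 1) (b : ℕ) :
    |∏ p ∈ S, (1 - g p) - bon S g (2 * b)| ≤ esy S g (2 * b + 1) := by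
  have h2 := bon_ge S g h0 h1 b
  have h3 := bon_sub_le S g h0 h1 b
  rw [abs_le]
  constructor <;> linarith

/-- the indicator of divisibility -/
private noncomputable def CrA_g (m p : ℕ) : ℝ := if p ∣ m then 1 else 0

private theorem CrA_g0 (m p : ℕ) : 0 ≤ CrA_g m p := by
  unfold CrA_g
  split_ifs <;> norm_num

private theorem CrA_g1 (m p : ℕ) : CrA_g m p ≤ 1 := by
  unfold CrA_g
  split_ifs <;> norm_num

private theorem CrA_prod (m : ℕ) (T : Finset ℕ) (hT : ∀ p ∈ T, p.Prime) :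
    ∏ p ∈ T, CrA_g m p = if ∏ p ∈ T, p ∣ m then 1 else 0 := by
  unfold CrA_g
  by_cases h : ∀ p ∈ T, p ∣ m
  · have h1 : ∏ p ∈ T, p ∣ m := by
      refine Finset.prod_primes_dvd m (fun p hp => (hT p hp).prime) h
    rw [if_pos h1]
    exact Finset.prod_eq_one fun p hp => if_pos (h p hp)
  · have h1 : ¬ ∏ p ∈ T, p ∣ m := fun h2 => h fun p hp => (Finset.dvd_prod_of_mem _ hp).trans h2
    rw [if_neg h1]
    push Not at h
    obtain ⟨p, hp, hpm⟩ := h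
    exact Finset.prod_eq_zero hp (if_neg hpm)

private theorem CrA_one (m : ℕ) (S : Finset ℕ) :
    ∏ p ∈ S, (1 - CrA_g m p) = if ∀ p ∈ S, ¬ p ∣ m then 1 else 0 := by
  unfold CrA_g
  split_ifs with h
  · refine Finset.prod_eq_one fun p hp => ?_
    rw [if_neg (h p hp), sub_zero]
  · push Not at h
    obtain ⟨p, hp, hpm⟩ := h
    exact Finset.prod_eq_zero hp (by rw [if_pos hpm, sub_self])

/-! ### One residue class -/

private theorem CrA_res (W n₀ d : ℕ) (hd : 0 < d) (hc : Nat.Coprime W d) :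
    ∃ c < d, ∀ k, d ∣ W * k + n₀ ↔ k % d = c := by
  have : NeZero d := ⟨hd.ne'⟩
  obtain ⟨v, hv⟩ : ∃ v : ZMod d, (W : ZMod d) * v = 1 :=
    ⟨_, ZMod.coe_mul_inv_eq_one W hc⟩
  refine ⟨(-(n₀ : ZMod d) * v).val, ZMod.val_lt _, fun k => ?_⟩
  rw [← ZMod.natCast_eq_zero_iff]
  have h1 : k % d = (-(n₀ : ZMod d) * v).val ↔ (k : ZMod d) = -(n₀ : ZMod d) * v := by
    rw [← ZMod.val_natCast]
    exact (ZMod.val_injective d).eq_iff
  rw [h1]
  push_cast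
  constructor
  · intro h
    have h2 : (W : ZMod d) * k = -n₀ := by linear_combination h
    calc (k : ZMod d) = (W * v) * k := by rw [hv, one_mul]
      _ = (W * k) * v := by ring
      _ = -(n₀ : ZMod d) * v := by rw [h2]
  · intro h
    rw [h]
    calc (W : ZMod d) * (-(n₀ : ZMod d) * v) + n₀ = -(n₀ : ZMod d) * (W * v) + n₀ := by ring
      _ = 0 := by rw [hv]; ring

private theorem CrA_cnt (W n₀ q s v d : ℕ) (hq : 0 < q) (hd : 0 < d) (hc : Nat.Coprime W d)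
    (hqd : Nat.Coprime q d) :
    |((((range v).filter (fun k => k ≡ s [MOD q])).filter (fun k => d ∣ W * k + n₀)).card : ℝ) -
      v / q * (1 / d)| ≤ 1 := by
  obtain ⟨c, hc, hcd⟩ := CrA_res W n₀ d hd hc
  obtain ⟨k0, hk1, hk2⟩ := Nat.chineseRemainder hqd s c
  have hqd0 : 0 < q * d := Nat.mul_pos hq hd
  have h1 : ((range v).filter (fun k => k ≡ s [MOD q])).filter (fun k => d ∣ W * k + n₀)
      = (range v).filter (fun k => k ≡ k0 [MOD q * d]) := by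
    rw [filter_filter]
    refine filter_congr fun k _ => ?_
    rw [hcd k, ← Nat.modEq_and_modEq_iff_modEq_mul hqd]
    have h2 : k % d = c ↔ k ≡ k0 [MOD d] := by
      constructor
      · intro h
        have h3 : k ≡ c [MOD d] := by
          show k % d = c % d
          rw [h, Nat.mod_eq_of_lt hc]
        exact h3.trans hk2.symm
      · intro h
        have h3 : k % d = c % d := h.trans hk2
        rw [h3, Nat.mod_eq_of_lt hc]
    rw [h2]
    constructor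
    · rintro ⟨h3, h4⟩
      exact ⟨h3.trans hk1.symm, h4⟩
    · rintro ⟨h3, h4⟩
      exact ⟨h3.trans hk1, h4⟩
  rw [h1, ← Nat.count_eq_card_filter_range, Nat.count_modEq_card _ hqd0]
  have e : (v : ℝ) / q * (1 / d) = (v : ℝ) / ((q * d : ℕ) : ℝ) := by
    push_cast
    rw [div_mul_div_comm, mul_one]
  rw [e]
  have h3 : ((v / (q * d) : ℕ) : ℝ) ≤ (v : ℝ) / ((q * d : ℕ) : ℝ) := Nat.cast_div_le
  have h4 : (v : ℝ) / ((q * d : ℕ) : ℝ) < ((v / (q * d) : ℕ) : ℝ) + 1 := by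
    have h5 : (0 : ℝ) < ((q * d : ℕ) : ℝ) := by exact_mod_cast hqd0
    rw [div_lt_iff₀ h5]
    have h6 := Nat.lt_div_mul_add (a := v) hqd0
    have h7 : (v : ℝ) < (((v / (q * d)) * (q * d) + (q * d) : ℕ) : ℝ) := by exact_mod_cast h6
    push_cast at h7 ⊢
    linarith
  rw [abs_le]
  split_ifs
  · push_cast at h3 h4 ⊢
    constructor <;> linarith
  · push_cast at h3 h4 ⊢
    constructor <;> linarith

/-! ### The two sums -/

private theorem CrA_sum (W n₀ w q s v j : ℕ) (hq : 0 < q) (S : Finset ℕ)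
    (hS : S = (PW W w).filter (fun p => ¬ p ∣ q)) :
    |∑ k ∈ (range v).filter (fun k => k ≡ s [MOD q]), esy S (CrA_g (W * k + n₀)) j -
      v / q * esy S (fun p => 1 / (p : ℝ)) j| ≤ (w : ℝ) ^ j := by
  unfold esy
  rw [Finset.sum_comm, mul_sum, ← sum_sub_distrib]
  have h1 : ∀ T ∈ S.powersetCard j, |∑ k ∈ (range v).filter (fun k => k ≡ s [MOD q]),
      ∏ p ∈ T, CrA_g (W * k + n₀) p - v / q * ∏ p ∈ T, (1 / (p : ℝ))| ≤ 1 := by
    intro T hT
    have hTS := (mem_powersetCard.1 hT).1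
    have hTp : ∀ p ∈ T, p.Prime ∧ ¬ p ∣ W ∧ ¬ p ∣ q := by
      intro p hp
      have h := hTS hp
      rw [hS, mem_filter] at h
      exact ⟨(CrA_PW h.1).1, (CrA_PW h.1).2.2, h.2⟩
    have hd : 0 < ∏ p ∈ T, p := Finset.prod_pos fun p hp => (hTp p hp).1.pos
    have hc : Nat.Coprime W (∏ p ∈ T, p) := Nat.Coprime.prod_right fun p hp =>
      ((Nat.Prime.coprime_iff_not_dvd (hTp p hp).1).2 (hTp p hp).2.1).symm
    have hqd : Nat.Coprime q (∏ p ∈ T, p) := Nat.Coprime.prod_right fun p hp =>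
      ((Nat.Prime.coprime_iff_not_dvd (hTp p hp).1).2 (hTp p hp).2.2).symm
    have h2 : ∀ k ∈ (range v).filter (fun k => k ≡ s [MOD q]), ∏ p ∈ T, CrA_g (W * k + n₀) p =
        if ∏ p ∈ T, p ∣ W * k + n₀ then 1 else 0 := fun k _ =>
      CrA_prod _ T fun p hp => (hTp p hp).1
    have h3 : ∏ p ∈ T, (1 / (p : ℝ)) = 1 / ((∏ p ∈ T, p : ℕ) : ℝ) := by
      rw [Finset.prod_div_distrib, Finset.prod_const_one]
      push_cast
      rfl
    rw [sum_congr rfl h2, ← sum_filter, sum_const, nsmul_eq_mul, mul_one, h3]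
    exact CrA_cnt W n₀ q s v _ hq hd hc hqd
  refine (abs_sum_le_sum_abs _ _).trans ((sum_le_sum h1).trans ?_)
  rw [sum_const, nsmul_eq_mul, mul_one, card_powersetCard]
  have h4 : S.card ≤ w := by
    rw [hS]
    refine (card_filter_le _ _).trans ?_
    unfold PW
    refine (card_filter_le _ _).trans ?_
    rw [Nat.card_Icc]
    omega
  have h5 : S.card.choose j ≤ w ^ j := (Nat.choose_le_pow _ _).trans (Nat.pow_le_pow_left h4 j)
  exact_mod_cast h5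

/-- everything except the numbers -/
private theorem CrA_split (W n₀ w q s v b : ℕ) (hw : 1 ≤ w) (hq : 0 < q) (S : Finset ℕ)
    (hS : S = (PW W w).filter (fun p => ¬ p ∣ q)) :
    |(((range v).filter (fun k => k ≡ s [MOD q] ∧ ∀ p ∈ S, ¬ p ∣ W * k + n₀)).card : ℝ) -
      (v : ℝ) / q * ∏ p ∈ S, (1 - 1 / (p : ℝ))| ≤
      ((2 * b + 2 : ℕ) : ℝ) * (w : ℝ) ^ (2 * b + 1) +
        2 * (v * esy S (fun p => 1 / (p : ℝ)) (2 * b + 1)) := by
  have hw1 : (1 : ℝ) ≤ w := by exact_mod_cast hw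
  have hq1 : (1 : ℝ) ≤ q := by exact_mod_cast hq
  have hvq0 : (0 : ℝ) ≤ v / q := by positivity
  have hvq : (v : ℝ) / q ≤ v := div_le_self (Nat.cast_nonneg _) hq1
  have hSp : ∀ p ∈ S, p.Prime := by
    intro p hp
    rw [hS, mem_filter] at hp
    exact (CrA_PW hp.1).1
  have hF : (((range v).filter (fun k => k ≡ s [MOD q] ∧ ∀ p ∈ S, ¬ p ∣ W * k + n₀)).card : ℝ) =
      ∑ k ∈ (range v).filter (fun k => k ≡ s [MOD q]), ∏ p ∈ S, (1 - CrA_g (W * k + n₀) p) := by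
    have h1 : ∀ k ∈ (range v).filter (fun k => k ≡ s [MOD q]),
        ∏ p ∈ S, (1 - CrA_g (W * k + n₀) p) = if ∀ p ∈ S, ¬ p ∣ W * k + n₀ then 1 else 0 :=
      fun k _ => CrA_one _ S
    rw [sum_congr rfl h1, ← sum_filter, sum_const, nsmul_eq_mul, mul_one, filter_filter]
  rw [hF]
  set F := (range v).filter (fun k => k ≡ s [MOD q]) with hFdef
  have hE0 : 0 ≤ esy S (fun p => 1 / (p : ℝ)) (2 * b + 1) := by
    unfold esy
    exact sum_nonneg fun T _ => prod_nonneg fun p _ => by positivity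
  -- step 1
  have s1 : |∑ k ∈ F, ∏ p ∈ S, (1 - CrA_g (W * k + n₀) p) -
      ∑ k ∈ F, bon S (CrA_g (W * k + n₀)) (2 * b)| ≤
      v / q * esy S (fun p => 1 / (p : ℝ)) (2 * b + 1) + (w : ℝ) ^ (2 * b + 1) := by
    rw [← sum_sub_distrib]
    refine (abs_sum_le_sum_abs _ _).trans ?_
    refine (sum_le_sum fun k _ => CrA_bon S _ (fun p _ => CrA_g0 _ p) (fun p _ => CrA_g1 _ p) b).trans ?_
    have h2 := CrA_sum W n₀ w q s v (2 * b + 1) hq S hS
    rw [← hFdef] at h2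
    have h3 := (abs_le.1 h2).2
    linarith
  -- step 2
  have s2 : |∑ k ∈ F, bon S (CrA_g (W * k + n₀)) (2 * b) -
      v / q * bon S (fun p => 1 / (p : ℝ)) (2 * b)| ≤ ((2 * b + 1 : ℕ) : ℝ) * (w : ℝ) ^ (2 * b + 1) := by
    have h1 : ∑ k ∈ F, bon S (CrA_g (W * k + n₀)) (2 * b) -
        v / q * bon S (fun p => 1 / (p : ℝ)) (2 * b) =
        ∑ j ∈ range (2 * b + 1), (-1 : ℝ) ^ j * (∑ k ∈ F, esy S (CrA_g (W * k + n₀)) j -
          v / q * esy S (fun p => 1 / (p : ℝ)) j) := by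
      unfold bon
      rw [sum_comm, mul_sum, ← sum_sub_distrib]
      refine sum_congr rfl fun j _ => ?_
      rw [← mul_sum]
      ring
    rw [h1]
    refine (abs_sum_le_sum_abs _ _).trans ?_
    have h2 : ∀ j ∈ range (2 * b + 1), |(-1 : ℝ) ^ j * (∑ k ∈ F, esy S (CrA_g (W * k + n₀)) j -
          v / q * esy S (fun p => 1 / (p : ℝ)) j)| ≤ (w : ℝ) ^ (2 * b + 1) := by
      intro j hj
      rw [abs_mul, abs_pow, abs_neg, abs_one, one_pow, one_mul]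
      refine (CrA_sum W n₀ w q s v j hq S hS).trans ?_
      exact pow_le_pow_right₀ hw1 (by rw [mem_range] at hj; omega)
    refine (sum_le_sum h2).trans ?_
    rw [sum_const, nsmul_eq_mul, card_range]
  -- step 3
  have s3 : |v / q * bon S (fun p => 1 / (p : ℝ)) (2 * b) - (v : ℝ) / q * ∏ p ∈ S, (1 - 1 / (p : ℝ))| ≤
      v / q * esy S (fun p => 1 / (p : ℝ)) (2 * b + 1) := by
    rw [← mul_sub, abs_mul, abs_of_nonneg hvq0, abs_sub_comm]
    refine mul_le_mul_of_nonneg_left ?_ hvq0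
    refine CrA_bon S (fun p => 1 / (p : ℝ)) (fun p _ => by positivity) (fun p hp => ?_) b
    have h1 : (1 : ℝ) ≤ p := by exact_mod_cast (hSp p hp).one_le
    exact (div_le_one (by linarith)).2 h1
  have h4 : v / q * esy S (fun p => 1 / (p : ℝ)) (2 * b + 1) ≤
      v * esy S (fun p => 1 / (p : ℝ)) (2 * b + 1) := mul_le_mul_of_nonneg_right hvq hE0
  have e2 : ((2 * b + 2 : ℕ) : ℝ) * (w : ℝ) ^ (2 * b + 1) =
      ((2 * b + 1 : ℕ) : ℝ) * (w : ℝ) ^ (2 * b + 1) + (w : ℝ) ^ (2 * b + 1) := by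
    push_cast
    ring
  rw [e2]
  rw [abs_le] at s1 s2 s3 ⊢
  constructor <;> linarith [s1.1, s1.2, s2.1, s2.2, s3.1, s3.2]

/-! ### Numbers -/

private theorem CrA_recip (W w : ℕ) (S : Finset ℕ) (hS : S ⊆ PW W w) :
    ∑ p ∈ S, 1 / (p : ℝ) ≤ 1 + Real.log w := by
  have h1 : ∑ p ∈ S, 1 / (p : ℝ) ≤ ∑ m ∈ Icc 1 w, 1 / (m : ℝ) := by
    refine sum_le_sum_of_subset_of_nonneg ?_ fun m _ _ => by positivity
    refine hS.trans ?_
    unfold PW
    exact filter_subset _ _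
  have h2 := harmonic_le_one_add_log w
  rw [harmonic_eq_sum_Icc] at h2
  push_cast at h2
  simp only [one_div] at h1 ⊢
  exact h1.trans h2

private theorem CrA_esy (W w n : ℕ) (S : Finset ℕ) (hS : S ⊆ PW W w) (y : ℝ)
    (hy : 1 + Real.log w ≤ y) :
    esy S (fun p => 1 / (p : ℝ)) n ≤ Real.exp (3 * y - n) := by
  have h1 := esy_le S (fun p => 1 / (p : ℝ)) (fun p _ => by positivity) n
  have h0 : 0 ≤ ∑ p ∈ S, 1 / (p : ℝ) := sum_nonneg fun p _ => by positivity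
  have h2 : ∑ p ∈ S, 1 / (p : ℝ) ≤ y := (CrA_recip W w S hS).trans hy
  have hy0 : 0 ≤ y := h0.trans h2
  have h3 : (∑ p ∈ S, 1 / (p : ℝ)) ^ n / (n.factorial : ℝ) ≤ y ^ n / (n.factorial : ℝ) :=
    div_le_div_of_nonneg_right (pow_le_pow_left₀ h0 h2 n) (Nat.cast_nonneg _)
  have h4 : (Real.exp 1 * y) ^ n / (n.factorial : ℝ) ≤ Real.exp (Real.exp 1 * y) :=
    Real.pow_div_factorial_le_exp _ (by positivity) n
  have h5 : y ^ n / (n.factorial : ℝ) =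
      (Real.exp 1 * y) ^ n / (n.factorial : ℝ) * Real.exp (-(n : ℝ)) := by
    rw [mul_pow, ← Real.exp_nat_mul, mul_one, Real.exp_neg]
    have : Real.exp (n : ℝ) ≠ 0 := (Real.exp_pos _).ne'
    field_simp
  calc esy S (fun p => 1 / (p : ℝ)) n ≤ y ^ n / (n.factorial : ℝ) := h1.trans h3
    _ ≤ Real.exp (Real.exp 1 * y) * Real.exp (-(n : ℝ)) := by
        rw [h5]
        exact mul_le_mul_of_nonneg_right h4 (Real.exp_pos _).le
    _ = Real.exp (Real.exp 1 * y - n) := by rw [← Real.exp_add, sub_eq_add_neg]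
    _ ≤ Real.exp (3 * y - n) := by
        refine Real.exp_le_exp.2 ?_
        have : Real.exp 1 ≤ 3 := by linarith [Real.exp_one_lt_d9]
        nlinarith

private theorem CrA_ev (A B' : ℕ) {Λ x : ℝ} (hx : Real.exp x = Λ)
    (hX : 240 * ((B' : ℝ) + 1) + 5 * (A + 5) + 3 * B' + 66 ≤ x) :
    56 ≤ Λ ∧ 1 ≤ x ∧ (2 * x ^ 2 + 3) * (B' * x) ≤ Λ / 2 ∧
      2 + 3 + 3 * B' * x + (A + 2) * x ≤ 2 * x ^ 2 ∧ (A + 5) * x ≤ Λ / 2 ∧ 2 * x ^ 2 + 4 ≤ Λ := by
  have hA : (0 : ℝ) ≤ A := Nat.cast_nonneg A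
  have hB : (0 : ℝ) ≤ B' := Nat.cast_nonneg B'
  have hx56 : 60 ≤ x := by nlinarith
  have hx1 : 1 ≤ x := by linarith
  have hx0 : 0 ≤ x := by linarith
  have h1 : x + 1 ≤ Λ := by rw [← hx]; exact Real.add_one_le_exp x
  have h4 : x ^ 4 / 24 ≤ Λ := by
    have := Real.pow_div_factorial_le_exp x hx0 4
    rw [hx] at this
    norm_num [Nat.factorial] at this
    exact this
  have hBx : 240 * (B' + 1 : ℝ) ≤ x := by nlinarith
  have hAx : 5 * (A + 5 : ℝ) ≤ x := by nlinarith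
  have hsq : 3600 ≤ x ^ 2 := by nlinarith
  have h4sq : 3600 * x ^ 2 ≤ x ^ 4 := by
    nlinarith [mul_le_mul_of_nonneg_right hsq (sq_nonneg x)]
  refine ⟨by linarith, hx1, ?_, ?_, ?_, ?_⟩
  · have h5 : (2 * x ^ 2 + 3) * (B' * x) ≤ 5 * x ^ 2 * (B' * x) := by
      refine mul_le_mul_of_nonneg_right ?_ (by positivity)
      nlinarith
    have h6 : 5 * x ^ 2 * (B' * x) ≤ x ^ 4 / 48 := by
      have h7 : 240 * (B' : ℝ) ≤ x := by linarith
      have h8 : 0 ≤ x ^ 3 := by positivity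
      nlinarith [mul_le_mul_of_nonneg_right h7 h8]
    linarith
  · have h5 : (5 + 3 * B' + A + 2 : ℝ) ≤ x := by nlinarith
    nlinarith [mul_le_mul_of_nonneg_right h5 hx0]
  · have h5 : (A + 5 : ℝ) * x ≤ x ^ 2 / 5 := by
      nlinarith [mul_le_mul_of_nonneg_right hAx hx0]
    nlinarith
  · nlinarith

private theorem CrA_fin {ℓ Λ c s t : ℝ} (A : ℕ) (hℓ0 : 0 < ℓ) (h56 : 56 ≤ Λ) (hc : c ≤ Λ)
    (hs : s ≤ ℓ / Λ ^ (A + 2)) (ht : t ≤ ℓ / Λ ^ (A + 5)) (ht0 : 0 ≤ t) :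
    c * t + 2 * s ≤ ℓ / Λ ^ A := by
  have hΛ0 : 0 < Λ := by linarith
  have hpowA : Λ ^ (A + 5) = Λ ^ A * Λ ^ 5 := pow_add _ _ _
  have hpowA2 : Λ ^ (A + 2) = Λ ^ A * Λ ^ 2 := pow_add _ _ _
  have hΛA : 0 < Λ ^ A := by positivity
  calc c * t + 2 * s
      ≤ Λ * (ℓ / Λ ^ (A + 5)) + 2 * (ℓ / Λ ^ (A + 2)) := by
        refine add_le_add (mul_le_mul hc ht ht0 hΛ0.le) ?_
        exact mul_le_mul_of_nonneg_left hs (by norm_num)
    _ = (ℓ / Λ ^ A) * (1 / Λ ^ 4 + 2 / Λ ^ 2) := by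
        rw [hpowA, hpowA2]
        field_simp
    _ ≤ (ℓ / Λ ^ A) * 1 := by
        refine mul_le_mul_of_nonneg_left ?_ (by positivity)
        have h1 : 2 / Λ ^ 2 ≤ 1 / 2 := by
          rw [div_le_div_iff₀ (by positivity) (by norm_num)]
          nlinarith
        have h3 : 1 / Λ ^ 4 ≤ 1 / 4 := by
          refine one_div_le_one_div_of_le (by norm_num) ?_
          calc (4 : ℝ) ≤ Λ := by linarith
            _ = Λ ^ 1 := (pow_one _).symm
            _ ≤ Λ ^ 4 := pow_le_pow_right₀ (by linarith) (by norm_num)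
        linarith
    _ = ℓ / Λ ^ A := mul_one _

theorem cnt_cop (W n₀ : ℕ) (hW : 0 < W) (hc : Nat.Coprime n₀ W) (A B B' : ℕ) : ∃ ℓ₀ : ℕ, ∀ ℓ : ℕ, ℓ₀ ≤ ℓ →
    ∀ q : ℕ, 0 < q → (q : ℝ) ≤ Real.log ℓ ^ B → ∀ s v : ℕ, v ≤ 5 * ℓ →
    |(((range v).filter (fun k => k ≡ s [MOD q] ∧ ∀ p ∈ (PW W (wB B' ℓ)).filter (fun p => ¬ p ∣ q),
        ¬ p ∣ W * k + n₀)).card : ℝ) -
      (v : ℝ) / q * ∏ p ∈ (PW W (wB B' ℓ)).filter (fun p => ¬ p ∣ q), (1 - 1 / (p : ℝ))| ≤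
      ℓ / Real.log ℓ ^ A := by
  set X0 : ℝ := 240 * ((B' : ℝ) + 1) + 5 * (A + 5) + 3 * B' + 66 with hX0
  refine ⟨⌈Real.exp (Real.exp X0)⌉₊, fun ℓ hℓ q hq _ s v hv => ?_⟩
  have hℓ2 : Real.exp (Real.exp X0) ≤ ℓ := (Nat.le_ceil _).trans (by exact_mod_cast hℓ)
  have hℓ0 : (0 : ℝ) < ℓ := (Real.exp_pos _).trans_le hℓ2
  set Λ := Real.log ℓ with hΛ
  have hΛ1 : Real.exp X0 ≤ Λ := by
    rw [hΛ, Real.le_log_iff_exp_le hℓ0]
    exact hℓ2
  have hΛ0 : 0 < Λ := (Real.exp_pos _).trans_le hΛ1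
  set x := Real.log Λ with hx
  have hx1 : X0 ≤ x := by
    rw [hx, Real.le_log_iff_exp_le hΛ0]
    exact hΛ1
  have hex : Real.exp x = Λ := Real.exp_log hΛ0
  have heΛ : Real.exp Λ = ℓ := Real.exp_log hℓ0
  obtain ⟨h56, hx11, hev1, hev2, hev3, hev4⟩ := CrA_ev A B' hex hx1
  have hx0 : 0 ≤ x := by linarith
  have hpow : ∀ k : ℕ, Λ ^ k = Real.exp (k * x) := by
    intro k
    rw [← hex, ← Real.exp_nat_mul]
  set w := wB B' ℓ with hw
  have hwle : (w : ℝ) ≤ Λ ^ B' := by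
    rw [hw]
    unfold wB
    exact Nat.floor_le (by positivity)
  have hw1 : 1 ≤ w := by
    rw [hw]
    unfold wB
    rw [Nat.one_le_floor_iff]
    exact one_le_pow₀ (by linarith)
  have hw0 : (0 : ℝ) < w := by exact_mod_cast hw1
  have hlw : Real.log w ≤ B' * x := by
    rw [Real.log_le_iff_le_exp hw0, ← hpow]
    exact hwle
  set b := ⌈x ^ 2⌉₊ with hb
  have hb1 : x ^ 2 ≤ b := Nat.le_ceil _
  have hb2 : (b : ℝ) < x ^ 2 + 1 := Nat.ceil_lt_add_one (by positivity)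
  have hwn : (w : ℝ) ^ (2 * b + 1) ≤ Real.exp (Λ / 2) := by
    have h1 : (w : ℝ) ^ (2 * b + 1) = Real.exp ((2 * b + 1 : ℕ) * Real.log w) := by
      rw [Real.exp_nat_mul, Real.exp_log hw0]
    rw [h1]
    refine Real.exp_le_exp.2 ?_
    have hlw0 : 0 ≤ Real.log w := Real.log_natCast_nonneg w
    have h2 : ((2 * b + 1 : ℕ) : ℝ) ≤ 2 * x ^ 2 + 3 := by
      push_cast
      linarith
    calc ((2 * b + 1 : ℕ) : ℝ) * Real.log w ≤ (2 * x ^ 2 + 3) * (B' * x) :=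
          mul_le_mul h2 hlw hlw0 (by positivity)
      _ ≤ Λ / 2 := hev1
  have hsq : Real.exp (Λ / 2) ≤ ℓ / Λ ^ (A + 5) := by
    rw [hpow, ← heΛ, ← Real.exp_sub]
    refine Real.exp_le_exp.2 ?_
    push_cast
    linarith
  refine (CrA_split W n₀ w q s v b hw1 hq _ rfl).trans ?_
  have hesy : v * esy ((PW W w).filter (fun p => ¬ p ∣ q)) (fun p => 1 / (p : ℝ)) (2 * b + 1) ≤
      ℓ / Λ ^ (A + 2) := by
    have h1 := CrA_esy W w (2 * b + 1) _ (filter_subset (fun p => ¬ p ∣ q) _) (1 + B' * x)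
      (by linarith)
    have h2 : (v : ℝ) ≤ 5 * ℓ := by exact_mod_cast hv
    have h3 : (5 : ℝ) ≤ Real.exp 2 := by
      have h5 := Real.exp_one_gt_d9
      have h6 : Real.exp 2 = Real.exp 1 * Real.exp 1 := by rw [← Real.exp_add]; norm_num
      rw [h6]
      nlinarith
    calc (v : ℝ) * esy ((PW W w).filter (fun p => ¬ p ∣ q)) (fun p => 1 / (p : ℝ)) (2 * b + 1)
        ≤ (Real.exp 2 * ℓ) * Real.exp (3 * (1 + B' * x) - ((2 * b + 1 : ℕ) : ℝ)) := by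
          refine mul_le_mul (h2.trans (mul_le_mul_of_nonneg_right h3 hℓ0.le)) h1 ?_ (by positivity)
          unfold esy
          exact sum_nonneg fun T _ => prod_nonneg fun p _ => by positivity
      _ = ℓ * Real.exp (2 + (3 * (1 + B' * x) - ((2 * b + 1 : ℕ) : ℝ))) := by
          rw [Real.exp_add]
          ring
      _ ≤ ℓ * Real.exp (-(((A + 2 : ℕ) : ℝ) * x)) := by
          refine mul_le_mul_of_nonneg_left (Real.exp_le_exp.2 ?_) hℓ0.le
          push_cast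
          nlinarith
      _ = ℓ / Λ ^ (A + 2) := by
          rw [hpow, Real.exp_neg, div_eq_mul_inv]
  refine CrA_fin A hℓ0 h56 ?_ hesy (hwn.trans hsq) (by positivity)
  push_cast
  linarith

/-- the totient of a product -/
private theorem CrA_tot (W q w : ℕ) (hW : 0 < W) (hq : 0 < q) (hqw : q ≤ w) :
    (q : ℝ) * (∏ p ∈ (PW W w).filter (fun p => p ∣ q), (1 - 1 / (p : ℝ))) * Nat.totient W =
      (Nat.totient (W * q) : ℝ) := by
  have h1 : ∀ n : ℕ, (Nat.totient n : ℝ) = n * ∏ p ∈ n.primeFactors, (1 - 1 / (p : ℝ)) := by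
    intro n
    have h2 := Nat.totient_eq_mul_prod_factors n
    have h3 : ((Nat.totient n : ℚ) : ℝ) = (((n : ℚ) * ∏ p ∈ n.primeFactors, (1 - (p : ℚ)⁻¹) : ℚ) : ℝ) := by
      rw [h2]
    push_cast at h3
    rw [h3]
    congr 1
    exact prod_congr rfl fun p _ => by rw [one_div]
  have h4 : (W * q).primeFactors = W.primeFactors ∪ (PW W w).filter (fun p => p ∣ q) := by
    rw [Nat.primeFactors_mul hW.ne' hq.ne']
    ext p
    simp only [mem_union, Nat.mem_primeFactors, mem_filter]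
    constructor
    · rintro (h | h)
      · exact Or.inl h
      · by_cases hpW : p ∣ W
        · exact Or.inl ⟨h.1, hpW, hW.ne'⟩
        · refine Or.inr ⟨?_, h.2.1⟩
          unfold PW
          rw [mem_filter, mem_Icc]
          exact ⟨⟨h.1.pos, (Nat.le_of_dvd hq h.2.1).trans hqw⟩, h.1, hpW⟩
    · rintro (h | h)
      · exact Or.inl h
      · exact Or.inr ⟨(CrA_PW h.1).1, h.2, hq.ne'⟩
  have h5 : Disjoint W.primeFactors ((PW W w).filter (fun p => p ∣ q)) := by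
    rw [disjoint_left]
    intro p hp hp'
    exact (CrA_PW (mem_filter.1 hp').1).2.2 (Nat.dvd_of_mem_primeFactors hp)
  rw [h1 (W * q), h4, prod_union h5, h1 W]
  push_cast
  ring

theorem crm_ap (W n₀ : ℕ) (hW : 0 < W) (hc : Nat.Coprime n₀ W) (A B B' : ℕ) (hB : B ≤ B') :
    ∃ ℓ₀ : ℕ, ∀ ℓ : ℕ, ℓ₀ ≤ ℓ →
    ∀ q : ℕ, 0 < q → (q : ℝ) ≤ Real.log ℓ ^ B → ∀ s v : ℕ, v ≤ 5 * ℓ →
    |∑ k ∈ (range v).filter (fun k => k ≡ s [MOD q]), crm W n₀ (wB B' ℓ) k -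
      (if Nat.Coprime (W * s + n₀) q then (v : ℝ) * Nat.totient W / (Nat.totient (W * q) : ℝ) else 0)| ≤
      ℓ / Real.log ℓ ^ A := by
  obtain ⟨ℓ₁, h1⟩ := cnt_cop W n₀ hW hc (A + 1) B B'
  obtain ⟨ℓ₂, h2⟩ := cw_le W B'
  obtain ⟨ℓ₃, h3⟩ : ∃ ℓ₃ : ℕ, ∀ ℓ : ℕ, ℓ₃ ≤ ℓ → 1 ≤ Real.log ℓ := by
    have := (Real.tendsto_log_atTop.comp tendsto_natCast_atTop_atTop).eventually_ge_atTop (1 : ℝ)
    obtain ⟨ℓ4, h⟩ := eventually_atTop.1 this
    exact ⟨ℓ4, fun ℓ hℓ => h ℓ hℓ⟩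
  refine ⟨max ℓ₁ (max ℓ₂ ℓ₃), fun ℓ hℓ q hq hqB s v hv => ?_⟩
  have e1 := h1 ℓ ((le_max_left _ _).trans hℓ) q hq hqB s v hv
  have e2 := h2 ℓ ((le_max_left _ _).trans ((le_max_right _ _).trans hℓ))
  have hΛ := h3 ℓ ((le_max_right _ _).trans ((le_max_right _ _).trans hℓ))
  set w := wB B' ℓ with hw
  have hqw : q ≤ w := by
    rw [hw]
    unfold wB
    exact Nat.le_floor (hqB.trans (pow_le_pow_right₀ hΛ hB))
  have hmod : ∀ k p : ℕ, k ≡ s [MOD q] → p ∣ q → (p ∣ W * k + n₀ ↔ p ∣ W * s + n₀) := by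
    intro k p hk hp
    have h4 : W * k + n₀ ≡ W * s + n₀ [MOD p] := ((hk.of_dvd hp).mul_left W).add_right n₀
    exact h4.dvd_iff dvd_rfl
  by_cases hcop : Nat.Coprime (W * s + n₀) q
  · rw [if_pos hcop]
    have h4 : ∑ k ∈ (range v).filter (fun k => k ≡ s [MOD q]), crm W n₀ w k =
        cw W w * (((range v).filter (fun k => k ≡ s [MOD q] ∧ ∀ p ∈ (PW W w).filter (fun p => ¬ p ∣ q),
          ¬ p ∣ W * k + n₀)).card : ℝ) := by
      have h5 : ∀ k ∈ (range v).filter (fun k => k ≡ s [MOD q]), crm W n₀ w k =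
          if ∀ p ∈ (PW W w).filter (fun p => ¬ p ∣ q), ¬ p ∣ W * k + n₀ then cw W w else 0 := by
        intro k hk
        have hk' := (mem_filter.1 hk).2
        unfold crm
        refine if_congr ?_ rfl rfl
        constructor
        · intro h p hp
          exact h p (mem_filter.1 hp).1
        · intro h p hp hpd
          by_cases hpq : p ∣ q
          · have h6 : p ∣ W * s + n₀ := (hmod k p hk' hpq).1 hpd
            have h7 := Nat.dvd_gcd h6 hpq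
            rw [hcop.gcd_eq_one] at h7
            exact (CrA_PW hp).1.one_lt.ne' (Nat.dvd_one.1 h7)
          · exact h p (mem_filter.2 ⟨hp, hpq⟩) hpd
      rw [sum_congr rfl h5, ← sum_filter, filter_filter, sum_const, nsmul_eq_mul, mul_comm]
    rw [h4]
    -- the main term
    have hsplit : cw W w * ∏ p ∈ (PW W w).filter (fun p => ¬ p ∣ q), (1 - 1 / (p : ℝ)) =
        (∏ p ∈ (PW W w).filter (fun p => p ∣ q), (1 - 1 / (p : ℝ)))⁻¹ := by
      have hne : ∏ p ∈ (PW W w).filter (fun p => ¬ p ∣ q), (1 - 1 / (p : ℝ)) ≠ 0 :=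
        (prod_pos fun p hp => CrA_pos (CrA_PW (mem_filter.1 hp).1).1).ne'
      unfold cw
      rw [prod_inv_distrib, ← prod_filter_mul_prod_filter_not (PW W w) (fun p => p ∣ q), mul_inv, mul_assoc,
        inv_mul_cancel₀ hne, mul_one]
    have hPi : (0 : ℝ) < ∏ p ∈ (PW W w).filter (fun p => p ∣ q), (1 - 1 / (p : ℝ)) :=
      prod_pos fun p hp => CrA_pos (CrA_PW (mem_filter.1 hp).1).1
    have hqR : (0 : ℝ) < q := by exact_mod_cast hq
    have htW : (0 : ℝ) < Nat.totient W := by exact_mod_cast Nat.totient_pos.2 hW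
    have hmain : (v : ℝ) * Nat.totient W / (Nat.totient (W * q) : ℝ) =
        cw W w * ((v : ℝ) / q * ∏ p ∈ (PW W w).filter (fun p => ¬ p ∣ q), (1 - 1 / (p : ℝ))) := by
      rw [← CrA_tot W q w hW hq hqw]
      have h6 : cw W w * ((v : ℝ) / q * ∏ p ∈ (PW W w).filter (fun p => ¬ p ∣ q), (1 - 1 / (p : ℝ))) =
          (v : ℝ) / q * (cw W w * ∏ p ∈ (PW W w).filter (fun p => ¬ p ∣ q), (1 - 1 / (p : ℝ))) := by ring
      rw [h6, hsplit]
      field_simp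
    rw [hmain, ← mul_sub, abs_mul, abs_of_nonneg (zero_le_one.trans (one_le_cw W w))]
    have hΛA : 0 < Real.log ℓ ^ A := by positivity
    calc cw W w * |_| ≤ Real.log ℓ * (ℓ / Real.log ℓ ^ (A + 1)) :=
          mul_le_mul e2 e1 (abs_nonneg _) (by linarith)
      _ = ℓ / Real.log ℓ ^ A := by
          rw [pow_succ]
          field_simp
  · rw [if_neg hcop, sub_zero]
    obtain ⟨p, hp, hps, hpq⟩ := Nat.Prime.not_coprime_iff_dvd.1 hcop
    have hpW : ¬ p ∣ W := by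
      intro h
      have h4 : p ∣ n₀ := (Nat.dvd_add_right (h.mul_right s)).1 hps
      have h5 := Nat.dvd_gcd h4 h
      rw [hc.gcd_eq_one] at h5
      exact hp.one_lt.ne' (Nat.dvd_one.1 h5)
    have h4 : ∑ k ∈ (range v).filter (fun k => k ≡ s [MOD q]), crm W n₀ w k = 0 := by
      refine sum_eq_zero fun k hk => ?_
      have hk' := (mem_filter.1 hk).2
      unfold crm
      rw [if_neg]
      intro h
      refine h p ?_ ((hmod k p hk' hpq).2 hps)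
      unfold PW
      rw [mem_filter, mem_Icc]
      exact ⟨⟨hp.pos, (Nat.le_of_dvd hq hpq).trans hqw⟩, hp, hpW⟩
    rw [h4, abs_zero]
    positivity

end Pool.Agent.Lib.MP_d57abb_nt.EE
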