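import Mathlib
import Pool.Agent.Lib.MP_d57abb_nt.EE.Defs

/-!
# JOB TwoV: two variables and one linear form

PROOF.  `M = 5 ℓ`, `F̂ r = ∑_{k<M} F k e (k r / M)` for `r < M`, so `‖F̂ r‖ ≤ η` (hypothesis with `θ = r / M`) and `F m = (1/M) ∑_{r<M} F̂ r e (- m r / M)` for `m < M` (orthogonality: `∑_{r<M} e (r j / M) = M` if `M ∣ j`, else `0`).
With `m = t + j - x (s + i)` (a natural number `< M` by `h`):
`∑_{i,j} F(m) G i H j = (1/M) ∑_r F̂ r (∑_i G i e (x (s+i) r / M)) (∑_j H j e (-(t + j) r / M))`, in absolute value at most `(η/M) (∑_r ‖Ĝ r‖²)^{1/2} (∑_r ‖Ĥ r‖²)^{1/2}` (Cauchy-Schwarz), and by orthogonality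
`∑_{r<M} ‖Ĥ r‖² = M ∑_{j<ℓ} |H j|² ≤ M ℓ KH²` (`ℓ ≤ M`: the residues `t + j` are distinct modulo `M`), `∑_{r<M} ‖Ĝ r‖² = M ∑_{i<ℓ} |G i|² ≤ M ℓ KG²` (the residues `x (s + i)`, `i < ℓ`, `x ≤ 2`, are distinct modulo `5 ℓ`).  Total `≤ η ℓ KG KH`.
(Alternatively integrate over `θ ∈ [0,1]`, or use `ZMod M` and `ZMod.dft` / `ZMod.stdAddChar`; `All/Toe.lean`, `All/PairG`-type files contain similar arguments.)
-/

open Finset

namespace Pool.Agent.Lib.MP_d57abb_nt.EE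

open Pool.Agent.Lib.MP_2a816b_nt (e e_add e_zero e_neg conj_e e_int e_nat_mul e_eq_one_iff norm_e)

/-- orthogonality -/
private theorem TwoV_orth (M : ℕ) (hM : 0 < M) (j : ℤ) :
    ∑ r ∈ range M, e (j * (r / M)) = if (M : ℤ) ∣ j then (M : ℂ) else 0 := by
  have hM' : (M : ℝ) ≠ 0 := by positivity
  have h1 : ∀ r : ℕ, e (j * (r / M)) = (e (j / M)) ^ r := by
    intro r
    rw [← e_nat_mul]
    congr 1
    ring
  simp only [h1]
  split_ifs with h
  · obtain ⟨k, hk⟩ := h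
    have h2 : (j : ℝ) / M = (k : ℝ) := by
      rw [hk]
      push_cast
      field_simp
    rw [h2, e_int]
    simp
  · have h3 : e (j / M) ≠ 1 := by
      intro h4
      rw [e_eq_one_iff] at h4
      obtain ⟨m, hm⟩ := h4
      apply h
      refine ⟨m, ?_⟩
      have : (j : ℝ) = M * m := by
        rw [← hm]
        field_simp
      exact_mod_cast this
    have h5 := geom_sum_eq h3 M
    have h6 : (M : ℝ) * (j / M) = (j : ℝ) := by field_simp
    rw [h5, ← e_nat_mul, h6, e_int, sub_self, zero_div]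

/-- Parseval -/
private theorem TwoV_pars (M : ℕ) (hM : 0 < M) (n : ℕ) (a : ℕ → ℤ)
    (ha : ∀ i < n, ∀ k < n, (M : ℤ) ∣ a i - a k → i = k) (c : ℕ → ℝ) :
    ∑ r ∈ range M, ‖∑ i ∈ range n, (c i : ℂ) * e (a i * (r / M))‖ ^ 2 = M * ∑ i ∈ range n, c i ^ 2 := by
  have h1 : ∀ r : ℕ, ((‖∑ i ∈ range n, (c i : ℂ) * e (a i * (r / M))‖ ^ 2 : ℝ) : ℂ) =
      ∑ i ∈ range n, ∑ k ∈ range n, ((c i * c k : ℝ) : ℂ) * e (((a i - a k : ℤ) : ℝ) * (r / M)) := by
    intro r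
    rw [Complex.ofReal_pow, ← Complex.mul_conj', map_sum, Finset.sum_mul_sum]
    refine Finset.sum_congr rfl fun i _ => Finset.sum_congr rfl fun k _ => ?_
    rw [map_mul, Complex.conj_ofReal, conj_e]
    have h2 : ((a i - a k : ℤ) : ℝ) * (r / M) = a i * (r / M) + -(a k * (r / M)) := by
      push_cast
      ring
    rw [h2, e_add]
    push_cast
    ring
  have h2 : ((∑ r ∈ range M, ‖∑ i ∈ range n, (c i : ℂ) * e (a i * (r / M))‖ ^ 2 : ℝ) : ℂ) =
      ((M * ∑ i ∈ range n, c i ^ 2 : ℝ) : ℂ) := by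
    rw [Complex.ofReal_sum]
    simp only [h1]
    rw [Finset.sum_comm]
    have h3 : ∀ i ∈ range n, ∑ r ∈ range M, ∑ k ∈ range n, ((c i * c k : ℝ) : ℂ) *
        e (((a i - a k : ℤ) : ℝ) * (r / M)) = M * (c i : ℂ) ^ 2 := by
      intro i hi
      rw [Finset.sum_comm]
      simp only [← Finset.mul_sum, TwoV_orth M hM]
      rw [Finset.sum_eq_single i]
      · rw [sub_self, if_pos (dvd_zero _)]
        push_cast
        ring
      · intro k hk hki
        rw [if_neg fun h => hki (ha i (Finset.mem_range.1 hi) k (Finset.mem_range.1 hk) h).symm, mul_zero]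
      · intro h
        exact absurd hi h
    rw [Finset.sum_congr rfl h3, ← Finset.mul_sum]
    push_cast
    ring
  exact_mod_cast h2

theorem two_var (ℓ : ℕ) (hℓ : 1 ≤ ℓ) (F : ℕ → ℝ) (η : ℝ)
    (hF : ∀ θ : ℝ, ‖∑ k ∈ range (5 * ℓ), (F k : ℂ) * e (k * θ)‖ ≤ η) (s t x : ℕ) (hx : 1 ≤ x) (hx2 : x ≤ 2)
    (h : ∀ i j : ℕ, i < ℓ → j < ℓ → x * (s + i) ≤ t + j ∧ t + j < x * (s + i) + 5 * ℓ)
    (G H : ℕ → ℝ) (KG KH : ℝ) (hKG : 0 ≤ KG) (hKH : 0 ≤ KH) (hG : ∀ i < ℓ, |G i| ≤ KG) (hH : ∀ j < ℓ, |H j| ≤ KH) :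
    |∑ i ∈ range ℓ, ∑ j ∈ range ℓ, F (t + j - x * (s + i)) * G i * H j| ≤ η * KG * KH * ℓ := by
  have hM0 : 0 < 5 * ℓ := by omega
  have hM1 : ((5 * ℓ : ℕ) : ℝ) ≠ 0 := by positivity
  have hMp : (0 : ℝ) < ((5 * ℓ : ℕ) : ℝ) := by positivity
  set M : ℕ := 5 * ℓ with hM
  set Fh : ℕ → ℂ := fun r => ∑ k ∈ range M, (F k : ℂ) * e (k * (r / M)) with hFhd
  have hFh : ∀ r, ‖Fh r‖ ≤ η := fun r => hF (r / M)
  have hη : 0 ≤ η := (norm_nonneg _).trans (hFh 0)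
  set Gh : ℕ → ℂ := fun r => ∑ i ∈ range ℓ, (G i : ℂ) * e (((x * (s + i) : ℕ) : ℤ) * (r / M)) with hGhd
  set Hh : ℕ → ℂ := fun r => ∑ j ∈ range ℓ, (H j : ℂ) * e ((-((t + j : ℕ) : ℤ) : ℤ) * (r / M)) with hHhd
  have inv : ∀ m < M, ∑ r ∈ range M, Fh r * e ((-(m : ℤ) : ℤ) * (r / M)) = M * F m := by
    intro m hm
    have h1 : ∀ r : ℕ, Fh r * e ((-(m : ℤ) : ℤ) * (r / M)) =
        ∑ k ∈ range M, (F k : ℂ) * e ((((k : ℤ) - m : ℤ) : ℝ) * (r / M)) := by
      intro r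
      rw [hFhd]
      simp only
      rw [Finset.sum_mul]
      refine Finset.sum_congr rfl fun k _ => ?_
      rw [mul_assoc, ← e_add]
      congr 2
      push_cast
      ring
    simp only [h1]
    rw [Finset.sum_comm]
    simp only [← Finset.mul_sum, TwoV_orth M hM0]
    rw [Finset.sum_eq_single m]
    · rw [sub_self, if_pos (dvd_zero _)]
      ring
    · intro k hk hkm
      have hk' := Finset.mem_range.1 hk
      rw [if_neg, mul_zero]
      intro h2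
      have h3 : ((k : ℤ) - m) = 0 := by
        refine Int.eq_zero_of_abs_lt_dvd h2 ?_
        rw [abs_lt]
        constructor <;> omega
      omega
    · intro h2
      exact absurd (Finset.mem_range.2 hm) h2
  have key : (M : ℂ) * ((∑ i ∈ range ℓ, ∑ j ∈ range ℓ, F (t + j - x * (s + i)) * G i * H j : ℝ) : ℂ) =
      ∑ r ∈ range M, Fh r * (Gh r * Hh r) := by
    have h1 : ∀ r : ℕ, Fh r * (Gh r * Hh r) = ∑ i ∈ range ℓ, ∑ j ∈ range ℓ,
        ((G i : ℂ) * (H j : ℂ)) * (Fh r * e ((-((t + j - x * (s + i) : ℕ) : ℤ) : ℤ) * (r / M))) := by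
      intro r
      rw [hGhd, hHhd]
      simp only
      rw [Finset.sum_mul_sum, Finset.mul_sum]
      refine Finset.sum_congr rfl fun i hi => ?_
      rw [Finset.mul_sum]
      refine Finset.sum_congr rfl fun j hj => ?_
      obtain ⟨h2, h3⟩ := h i j (Finset.mem_range.1 hi) (Finset.mem_range.1 hj)
      have h4 : ((-((t + j - x * (s + i) : ℕ) : ℤ) : ℤ) : ℝ) * (r / M) =
          (((x * (s + i) : ℕ) : ℤ) : ℝ) * (r / M) + ((-((t + j : ℕ) : ℤ) : ℤ) : ℝ) * (r / M) := by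
        rw [Nat.cast_sub h2]
        push_cast
        ring
      rw [h4, e_add]
      ring
    simp only [h1]
    rw [Finset.sum_comm (s := range M), Complex.ofReal_sum, Finset.mul_sum]
    refine Finset.sum_congr rfl fun i hi => ?_
    rw [Finset.sum_comm (s := range M), Complex.ofReal_sum, Finset.mul_sum]
    refine Finset.sum_congr rfl fun j hj => ?_
    obtain ⟨h2, h3⟩ := h i j (Finset.mem_range.1 hi) (Finset.mem_range.1 hj)
    rw [← Finset.mul_sum, inv _ (by omega)]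
    push_cast
    ring
  -- Parseval
  have pG : ∑ r ∈ range M, ‖Gh r‖ ^ 2 = M * ∑ i ∈ range ℓ, G i ^ 2 := by
    refine TwoV_pars M hM0 ℓ (fun i => ((x * (s + i) : ℕ) : ℤ)) ?_ G
    intro i hi k hk h2
    have h3 : (((x * (s + i) : ℕ) : ℤ) - ((x * (s + k) : ℕ) : ℤ)) = 0 := by
      refine Int.eq_zero_of_abs_lt_dvd h2 ?_
      have h4 : x = 1 ∨ x = 2 := by omega
      rw [abs_lt]
      rcases h4 with rfl | rfl <;> constructor <;> push_cast <;> omega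
    have h5 : x * (s + i) = x * (s + k) := by omega
    have h6 := Nat.eq_of_mul_eq_mul_left (by omega) h5
    omega
  have pH : ∑ r ∈ range M, ‖Hh r‖ ^ 2 = M * ∑ j ∈ range ℓ, H j ^ 2 := by
    refine TwoV_pars M hM0 ℓ (fun j => (-((t + j : ℕ) : ℤ) : ℤ)) ?_ H
    intro i hi k hk h2
    have h3 : (-((t + i : ℕ) : ℤ)) - (-((t + k : ℕ) : ℤ)) = 0 := by
      refine Int.eq_zero_of_abs_lt_dvd h2 ?_
      rw [abs_lt]
      constructor <;> push_cast <;> omega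
    push_cast at h3
    omega
  have sG : ∑ i ∈ range ℓ, G i ^ 2 ≤ ℓ * KG ^ 2 := by
    have h1 := Finset.sum_le_card_nsmul (range ℓ) (fun i => G i ^ 2) (KG ^ 2) (by
      intro i hi
      rw [← sq_abs]
      exact pow_le_pow_left₀ (abs_nonneg _) (hG i (Finset.mem_range.1 hi)) 2)
    rwa [Finset.card_range, nsmul_eq_mul] at h1
  have sH : ∑ j ∈ range ℓ, H j ^ 2 ≤ ℓ * KH ^ 2 := by
    have h1 := Finset.sum_le_card_nsmul (range ℓ) (fun i => H i ^ 2) (KH ^ 2) (by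
      intro i hi
      rw [← sq_abs]
      exact pow_le_pow_left₀ (abs_nonneg _) (hH i (Finset.mem_range.1 hi)) 2)
    rwa [Finset.card_range, nsmul_eq_mul] at h1
  have cs : ∑ r ∈ range M, ‖Gh r‖ * ‖Hh r‖ ≤ M * ℓ * KG * KH := by
    have h1 := Finset.sum_mul_sq_le_sq_mul_sq (range M) (fun r => ‖Gh r‖) (fun r => ‖Hh r‖)
    rw [pG, pH] at h1
    have h2 : (M * ∑ i ∈ range ℓ, G i ^ 2) * (M * ∑ j ∈ range ℓ, H j ^ 2) ≤ (M * (ℓ * KG ^ 2)) * (M * (ℓ * KH ^ 2)) := by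
      refine mul_le_mul ?_ ?_ ?_ ?_
      · exact mul_le_mul_of_nonneg_left sG hMp.le
      · exact mul_le_mul_of_nonneg_left sH hMp.le
      · exact mul_nonneg hMp.le (Finset.sum_nonneg fun _ _ => sq_nonneg _)
      · positivity
    have h3 : ((M : ℝ) * (ℓ * KG ^ 2)) * (M * (ℓ * KH ^ 2)) = (M * ℓ * KG * KH) ^ 2 := by ring
    rw [h3] at h2
    exact (pow_le_pow_iff_left₀ (Finset.sum_nonneg fun _ _ => by positivity) (by positivity) two_ne_zero).1
      (h1.trans h2)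
  have fin : M * |∑ i ∈ range ℓ, ∑ j ∈ range ℓ, F (t + j - x * (s + i)) * G i * H j| ≤
      M * (η * KG * KH * ℓ) := by
    have h1 : (M : ℝ) * |∑ i ∈ range ℓ, ∑ j ∈ range ℓ, F (t + j - x * (s + i)) * G i * H j| =
        ‖∑ r ∈ range M, Fh r * (Gh r * Hh r)‖ := by
      rw [← key, norm_mul, Complex.norm_real, Complex.norm_natCast, Real.norm_eq_abs]
    rw [h1]
    calc ‖∑ r ∈ range M, Fh r * (Gh r * Hh r)‖ ≤ ∑ r ∈ range M, ‖Fh r * (Gh r * Hh r)‖ := norm_sum_le _ _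
      _ ≤ ∑ r ∈ range M, η * (‖Gh r‖ * ‖Hh r‖) := by
          refine Finset.sum_le_sum fun r _ => ?_
          rw [norm_mul, norm_mul]
          exact mul_le_mul_of_nonneg_right (hFh r) (by positivity)
      _ = η * ∑ r ∈ range M, ‖Gh r‖ * ‖Hh r‖ := by rw [Finset.mul_sum]
      _ ≤ η * (M * ℓ * KG * KH) := mul_le_mul_of_nonneg_left cs hη
      _ = M * (η * KG * KH * ℓ) := by ring
  exact le_of_mul_le_mul_left fin hMp

end Pool.Agent.Lib.MP_d57abb_nt.EE
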