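import Mathlib
import Pool.Agent.Lib.MP_d57abb_nt.EE.TwoV

/-!
# JOB Tele: telescoping over the cross pairs
-/

open Finset

namespace Pool.Agent.Lib.MP_d57abb_nt.EE

open Pool.Agent.Lib.MP_2a816b_nt (e)

lemma Tele_mem {n ℓ : ℕ} {x : V n → ℕ} : x ∈ Bx n ℓ ↔ ∀ v, x v < ℓ := by
  unfold Bx
  rw [Fintype.mem_piFinset]
  simp only [mem_range]

theorem mf_range {n ℓ : ℕ} (x : V n → ℕ) (hx : x ∈ Bx n ℓ) (e : V n × V n) (he : e ∈ EC n) :
    xc e.2.1 * (st e.1.1 * ℓ + x e.1) < st e.2.1 * ℓ + x e.2 ∧ mf ℓ x e < 5 * ℓ := by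
  rw [Tele_mem] at hx
  have h1 := hx e.1
  have h2 := hx e.2
  unfold EC at he
  rw [mem_filter] at he
  have h3 := he.2
  unfold mf
  obtain ⟨⟨a, a'⟩, ⟨b, b'⟩⟩ := e
  simp only at h1 h2 h3 ⊢
  generalize x (a, a') = p at *
  generalize x (b, b') = q at *
  fin_cases a <;> fin_cases b <;> simp [xc, st] at h3 ⊢ <;> omega

lemma Tele_update_mem {n ℓ : ℕ} {x : V n → ℕ} (hx : x ∈ Bx n ℓ) (u : V n) {i : ℕ} (hi : i < ℓ) :
    Function.update x u i ∈ Bx n ℓ := by
  rw [Tele_mem] at hx ⊢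
  intro v
  by_cases h : v = u
  · subst h; simpa using hi
  · rw [Function.update_of_ne h]; exact hx v

/-- Averaging over one coordinate. -/
lemma Tele_avg {n ℓ : ℕ} (u : V n) (Φ : (V n → ℕ) → ℝ) :
    ∑ x ∈ Bx n ℓ, ∑ i ∈ range ℓ, Φ (Function.update x u i) = ℓ * ∑ x ∈ Bx n ℓ, Φ x := by
  rw [← sum_product']
  have h1 : ∑ y ∈ Bx n ℓ ×ˢ range ℓ, Φ (Function.update y.1 u y.2) = ∑ y ∈ Bx n ℓ ×ˢ range ℓ, Φ y.1 := by
    refine sum_nbij' (fun y => (Function.update y.1 u y.2, y.1 u)) (fun y => (Function.update y.1 u y.2, y.1 u))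
      ?_ ?_ ?_ ?_ ?_
    · rintro ⟨x, i⟩ h
      rw [mem_product, mem_range] at h ⊢
      exact ⟨Tele_update_mem h.1 u h.2, (Tele_mem.mp h.1) u⟩
    · rintro ⟨x, i⟩ h
      rw [mem_product, mem_range] at h ⊢
      exact ⟨Tele_update_mem h.1 u h.2, (Tele_mem.mp h.1) u⟩
    · rintro ⟨x, i⟩ _
      simp
    · rintro ⟨x, i⟩ _
      simp
    · rintro ⟨x, i⟩ _
      rfl
  rw [h1, sum_product]
  simp only [sum_const, card_range, nsmul_eq_mul]
  rw [mul_sum]

lemma Tele_mf_congr {n ℓ : ℕ} {x y : V n → ℕ} {e : V n × V n} (h1 : x e.1 = y e.1) (h2 : x e.2 = y e.2) :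
    mf ℓ x e = mf ℓ y e := by
  unfold mf
  rw [h1, h2]

lemma Tele_card (n ℓ : ℕ) : (Bx n ℓ).card = ℓ ^ (3 * n) := by
  unfold Bx
  rw [Fintype.card_piFinset]
  simp

/-- One step. -/
lemma Tele_step (n ℓ : ℕ) (hn : 1 ≤ n) (hℓ : 1 ≤ ℓ) (F : ℕ → ℝ) (h : V n × V n → ℕ → ℝ) (K η : ℝ) (hK : 1 ≤ K) (hη : 0 ≤ η)
    (e₀ : V n × V n) (he₀ : e₀ ∈ EC n)
    (hh : ∀ d ∈ EC n, ∀ k < 5 * ℓ, |h d k| ≤ K)
    (hF : ∀ θ : ℝ, ‖∑ k ∈ range (5 * ℓ), (F k : ℂ) * e (k * θ)‖ ≤ η) :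
    |∑ x ∈ Bx n ℓ, F (mf ℓ x e₀) * ∏ d ∈ (EC n).erase e₀, h d (mf ℓ x d)| ≤
      K ^ (EC n).card * η * (ℓ : ℝ) ^ (3 * n - 1) := by
  obtain ⟨u, v⟩ := e₀
  have huv : u.1 < v.1 := by
    unfold EC at he₀; exact (mem_filter.mp he₀).2
  have hne : u ≠ v := fun h => by rw [h] at huv; exact lt_irrefl _ huv
  obtain ⟨Φ, hΦ⟩ : ∃ Φ : (V n → ℕ) → ℝ, Φ = fun x => F (mf ℓ x (u, v)) * ∏ d ∈ (EC n).erase (u, v), h d (mf ℓ x d) :=
    ⟨_, rfl⟩
  have hℓ0 : (0 : ℝ) < ℓ := by exact_mod_cast hℓ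
  -- double averaging
  have h1 : (ℓ : ℝ) ^ 2 * ∑ x ∈ Bx n ℓ, Φ x =
      ∑ x ∈ Bx n ℓ, ∑ i ∈ range ℓ, ∑ j ∈ range ℓ, Φ (Function.update (Function.update x u i) v j) := by
    have h2 := Tele_avg (ℓ := ℓ) u (fun x => ∑ j ∈ range ℓ, Φ (Function.update x v j))
    rw [h2, Tele_avg]
    ring
  classical
  obtain ⟨Ev, hEv⟩ : ∃ Ev : Finset (V n × V n), Ev = ((EC n).erase (u, v)).filter (fun d => d.1 = v ∨ d.2 = v) := ⟨_, rfl⟩
  obtain ⟨Er, hEr⟩ : ∃ Er : Finset (V n × V n), Er = ((EC n).erase (u, v)).filter (fun d => ¬ (d.1 = v ∨ d.2 = v)) := ⟨_, rfl⟩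
  have hcard : Ev.card + Er.card + 1 = (EC n).card := by
    rw [hEv, hEr, card_filter_add_card_filter_not, card_erase_of_mem he₀]
    have : 0 < (EC n).card := card_pos.mpr ⟨_, he₀⟩
    omega
  have hinner : ∀ x ∈ Bx n ℓ, |∑ i ∈ range ℓ, ∑ j ∈ range ℓ, Φ (Function.update (Function.update x u i) v j)| ≤
      K ^ (EC n).card * η * ℓ := by
    intro x hx
    obtain ⟨G, hG⟩ : ∃ G : ℕ → ℝ, G = fun i => ∏ d ∈ Er, h d (mf ℓ (Function.update x u i) d) := ⟨_, rfl⟩
    obtain ⟨H, hH⟩ : ∃ H : ℕ → ℝ, H = fun j => ∏ d ∈ Ev, h d (mf ℓ (Function.update x v j) d) := ⟨_, rfl⟩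
    have hterm : ∀ i ∈ range ℓ, ∀ j ∈ range ℓ, Φ (Function.update (Function.update x u i) v j) =
        F (st v.1 * ℓ + j - xc v.1 * (st u.1 * ℓ + i)) * G i * H j := by
      intro i _ j _
      rw [hΦ]
      simp only
      have e1 : mf ℓ (Function.update (Function.update x u i) v j) (u, v) =
          st v.1 * ℓ + j - xc v.1 * (st u.1 * ℓ + i) := by
        unfold mf
        simp only [Function.update_self]
        rw [Function.update_of_ne hne, Function.update_self]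
      rw [e1, mul_assoc]
      congr 1
      rw [← prod_filter_mul_prod_filter_not ((EC n).erase (u, v)) (fun d => d.1 = v ∨ d.2 = v), ← hEv, ← hEr, mul_comm]
      rw [hG, hH]
      simp only
      congr 1
      · refine prod_congr rfl fun d hd => ?_
        rw [hEr, mem_filter, not_or] at hd
        congr 1
        apply Tele_mf_congr
        · rw [Function.update_of_ne hd.2.1]
        · rw [Function.update_of_ne hd.2.2]
      · refine prod_congr rfl fun d hd => ?_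
        rw [hEv, mem_filter, mem_erase] at hd
        have hd1 : d.1.1 < d.2.1 := by
          have := hd.1.2; unfold EC at this; exact (mem_filter.mp this).2
        have hdu1 : d.1 ≠ u ∨ d.2 = d.2 := Or.inr rfl
        congr 1
        have hnu : ∀ w : V n, (w = d.1 ∨ w = d.2) → w ≠ v → w ≠ u := by
          intro w hw hwv hwu
          subst hwu
          rcases hw with hw | hw
          · rcases hd.2 with h3 | h3
            · exact hwv (hw.trans h3)
            · apply hd.1.1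
              exact Prod.ext hw.symm h3
          · rcases hd.2 with h3 | h3
            · rw [h3, ← hw] at hd1
              exact absurd hd1 (not_lt.mpr huv.le)
            · exact hwv (hw.trans h3)
        apply Tele_mf_congr
        · by_cases h3 : d.1 = v
          · rw [h3]; simp
          · rw [Function.update_of_ne h3, Function.update_of_ne (hnu _ (Or.inl rfl) h3), Function.update_of_ne h3]
        · by_cases h3 : d.2 = v
          · rw [h3]; simp
          · rw [Function.update_of_ne h3, Function.update_of_ne (hnu _ (Or.inr rfl) h3), Function.update_of_ne h3]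
    have hGb : ∀ i < ℓ, |G i| ≤ K ^ Er.card := by
      intro i hi
      rw [hG]
      simp only
      rw [abs_prod]
      calc ∏ d ∈ Er, |h d (mf ℓ (Function.update x u i) d)| ≤ ∏ d ∈ Er, K := by
            apply prod_le_prod (fun _ _ => abs_nonneg _)
            intro d hd
            have hd' : d ∈ EC n := by rw [hEr, mem_filter, mem_erase] at hd; exact hd.1.2
            exact hh d hd' _ (mf_range _ (Tele_update_mem hx u hi) d hd').2
        _ = K ^ Er.card := by rw [prod_const]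
    have hHb : ∀ j < ℓ, |H j| ≤ K ^ Ev.card := by
      intro j hj
      rw [hH]
      simp only
      rw [abs_prod]
      calc ∏ d ∈ Ev, |h d (mf ℓ (Function.update x v j) d)| ≤ ∏ d ∈ Ev, K := by
            apply prod_le_prod (fun _ _ => abs_nonneg _)
            intro d hd
            have hd' : d ∈ EC n := by rw [hEv, mem_filter, mem_erase] at hd; exact hd.1.2
            exact hh d hd' _ (mf_range _ (Tele_update_mem hx v hj) d hd').2
        _ = K ^ Ev.card := by rw [prod_const]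
    have hx1 : 1 ≤ xc v.1 := by unfold xc; split_ifs <;> norm_num
    have hx2 : xc v.1 ≤ 2 := by unfold xc; split_ifs <;> norm_num
    have hrange : ∀ i j : ℕ, i < ℓ → j < ℓ → xc v.1 * (st u.1 * ℓ + i) ≤ st v.1 * ℓ + j ∧
        st v.1 * ℓ + j < xc v.1 * (st u.1 * ℓ + i) + 5 * ℓ := by
      intro i j hi hj
      have h3 := mf_range _ (Tele_update_mem (Tele_update_mem hx u hi) v hj) (u, v) he₀
      unfold mf at h3
      simp only [Function.update_self] at h3
      rw [Function.update_of_ne hne, Function.update_self] at h3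
      omega
    have h4 := two_var ℓ hℓ F η hF (st u.1 * ℓ) (st v.1 * ℓ) (xc v.1) hx1 hx2 hrange G H (K ^ Er.card) (K ^ Ev.card)
      (by positivity) (by positivity) hGb hHb
    rw [sum_congr rfl fun i hi => sum_congr rfl fun j hj => hterm i hi j hj]
    refine h4.trans ?_
    have h5 : K ^ Er.card * K ^ Ev.card ≤ K ^ (EC n).card := by
      rw [← pow_add]
      exact pow_le_pow_right₀ hK (by omega)
    calc η * K ^ Er.card * K ^ Ev.card * ℓ = η * (K ^ Er.card * K ^ Ev.card) * ℓ := by ring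
      _ ≤ η * K ^ (EC n).card * ℓ := by gcongr
      _ = K ^ (EC n).card * η * ℓ := by ring
  have h6 : |(ℓ : ℝ) ^ 2 * ∑ x ∈ Bx n ℓ, Φ x| ≤ (ℓ : ℝ) ^ (3 * n) * (K ^ (EC n).card * η * ℓ) := by
    rw [h1]
    refine (abs_sum_le_sum_abs _ _).trans ((sum_le_sum hinner).trans ?_)
    rw [sum_const, Tele_card, nsmul_eq_mul]
    push_cast
    exact le_rfl
  rw [abs_mul, abs_of_pos (by positivity : (0 : ℝ) < (ℓ : ℝ) ^ 2)] at h6
  have h7 : (ℓ : ℝ) ^ (3 * n) = (ℓ : ℝ) ^ (3 * n - 1) * ℓ := by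
    rw [← pow_succ]; congr 1; omega
  rw [h7] at h6
  have h8 : (ℓ : ℝ) ^ 2 * |∑ x ∈ Bx n ℓ, Φ x| ≤ (ℓ : ℝ) ^ 2 * (K ^ (EC n).card * η * (ℓ : ℝ) ^ (3 * n - 1)) := by
    refine h6.trans (le_of_eq ?_); ring
  have h9 := le_of_mul_le_mul_left h8 (by positivity)
  rw [hΦ] at h9
  exact h9

theorem tele (n ℓ : ℕ) (hn : 1 ≤ n) (hℓ : 1 ≤ ℓ) (f g : V n × V n → ℕ → ℝ) (K η : ℝ) (hK : 1 ≤ K) (hη : 0 ≤ η)
    (hf : ∀ e ∈ EC n, ∀ k < 5 * ℓ, |f e k| ≤ K) (hg : ∀ e ∈ EC n, ∀ k < 5 * ℓ, |g e k| ≤ K)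
    (hF : ∀ d ∈ EC n, ∀ θ : ℝ, ‖∑ k ∈ range (5 * ℓ), ((f d k - g d k : ℝ) : ℂ) * e (k * θ)‖ ≤ η) :
    |TT ℓ f - TT ℓ g| ≤ (EC n).card * K ^ (EC n).card * η * (ℓ : ℝ) ^ (3 * n - 1) := by
  classical
  obtain ⟨hyb, hhyb⟩ : ∃ hyb : Finset (V n × V n) → V n × V n → ℕ → ℝ, hyb = fun S d k => if d ∈ S then g d k else f d k :=
    ⟨_, rfl⟩
  have hmain : ∀ S ⊆ EC n, |TT ℓ f - TT ℓ (hyb S)| ≤ S.card * (K ^ (EC n).card * η * (ℓ : ℝ) ^ (3 * n - 1)) := by
    intro S
    induction S using Finset.induction_on with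
    | empty =>
      intro _
      have : hyb ∅ = f := by rw [hhyb]; funext d k; simp
      rw [this]; simp
    | insert e₀ S hS ih =>
      intro hsub
      have he₀ : e₀ ∈ EC n := hsub (mem_insert_self _ _)
      have hSs : S ⊆ EC n := (subset_insert _ _).trans hsub
      have h1 := ih hSs
      have h2 : |TT ℓ (hyb S) - TT ℓ (hyb (insert e₀ S))| ≤ K ^ (EC n).card * η * (ℓ : ℝ) ^ (3 * n - 1) := by
        have h3 : TT ℓ (hyb S) - TT ℓ (hyb (insert e₀ S)) =
            ∑ x ∈ Bx n ℓ, (f e₀ (mf ℓ x e₀) - g e₀ (mf ℓ x e₀)) * ∏ d ∈ (EC n).erase e₀, hyb S d (mf ℓ x d) := by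
          unfold TT
          rw [← sum_sub_distrib]
          refine sum_congr rfl fun x _ => ?_
          rw [← mul_prod_erase (EC n) _ he₀, ← mul_prod_erase (EC n) _ he₀]
          have h4 : hyb S e₀ (mf ℓ x e₀) = f e₀ (mf ℓ x e₀) := by rw [hhyb]; simp [hS]
          have h5 : hyb (insert e₀ S) e₀ (mf ℓ x e₀) = g e₀ (mf ℓ x e₀) := by rw [hhyb]; simp
          have h6 : ∏ d ∈ (EC n).erase e₀, hyb (insert e₀ S) d (mf ℓ x d) = ∏ d ∈ (EC n).erase e₀, hyb S d (mf ℓ x d) := by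
            refine prod_congr rfl fun d hd => ?_
            have hne : d ≠ e₀ := (mem_erase.mp hd).1
            rw [hhyb]
            simp [hne]
          rw [h4, h5, h6]
          ring
        rw [h3]
        apply Tele_step n ℓ hn hℓ (fun k => f e₀ k - g e₀ k) (hyb S) K η hK hη e₀ he₀
        · intro d hd k hk
          rw [hhyb]
          simp only
          split_ifs
          · exact hg d hd k hk
          · exact hf d hd k hk
        · exact hF e₀ he₀
      rw [card_insert_of_notMem hS]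
      push_cast
      have h7 := abs_sub_le (TT ℓ f) (TT ℓ (hyb S)) (TT ℓ (hyb (insert e₀ S)))
      linarith
  have hfin := hmain (EC n) (Subset.refl _)
  have h8 : TT ℓ (hyb (EC n)) = TT ℓ g := by
    unfold TT
    refine sum_congr rfl fun x _ => prod_congr rfl fun d hd => ?_
    rw [hhyb]
    simp [hd]
  rw [h8] at hfin
  refine hfin.trans (le_of_eq ?_)
  ring

end Pool.Agent.Lib.MP_d57abb_nt.EE
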