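import Mathlib
import Pool.Agent.Lib.MP_d57abb_nt.AP.SvC
import Pool.Agent.Lib.MP_d57abb_nt.EE.CrA
import Pool.Agent.Lib.MP_d57abb_nt.EE.Tele

/-!
# JOB CrL: the main term (counting with the model) is large

PROOF.  `w = wB B' ℓ = ⌊(log ℓ)^B'⌋`; `z = max 3 w`.  Every factor `crm ≥ 0`, and it is `≥ 1` (`one_le_cw`) if no prime of `PW (W₁ e) w` divides `W₁ e * mf ℓ x e + n₀ e`.  So `TT ≥` the number of `x ∈ Bx n ℓ` such that for all `e ∈ EC n` and all primes `p ≤ z`: `¬ p ∣ W₁ e * mf ℓ x e + n₀ e`.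
Lower bound by `sieveK κ` (`AP/SvC.lean`), `κ = 3 n² ≥ |EC n|` (`card_EC`), `ι = V n → ℕ`, `A = Bx n ℓ`, `P p x := ∃ e ∈ EC n, p ∣ W₁ e * mf ℓ x e + n₀ e`,
`g p = (number of residue vectors ρ ∈ [0,p)^V with ∃ e, p ∣ W₁ e * (st e.2.1 ℓ + ρ e.2 - xc e.2.1 (st e.1.1 ℓ + ρ e.1)) + n₀ e, as integers) / p^(3n)`, for primes `p ≤ z`.
`g p = 0` if `p ≤ w₁` (`p ∣ W₁ e`, `p ∤ n₀ e`: `hR.sm`, `hR.cop`).  For every prime `p` and every `e`: if `p ∣ W₁ e` the condition is never satisfied; if not, the residue of `ρ e.2` is determined by the other coordinates: fraction `1/p`.  So `g p ≤ |EC n| / p ≤ κ / p`, and for `p > w₁ ≥ 12 n²`: `g p ≤ 1/4 ≤ 3/4`.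
Distribution: for a set `T` of primes with product `d ≤ z^K`: the residue vectors modulo `d` which satisfy all the conditions are (Chinese remainder theorem) `d^(3n) ∏_{p ∈ T} g p` in number; every residue vector has between `⌊ℓ/d⌋^(3n)` and `(⌊ℓ/d⌋ + 1)^(3n)` points of the box, which differs from `(ℓ/d)^(3n)` by at most `3 n (ℓ/d + 1)^(3n-1)`:
the total error is at most `R = 3 n (z^K)^(3n) ... ≤ 3 n z^K (ℓ + z^K)^(3n-1) ≤ 3 n 2^(3n) z^K ℓ^(3n-1)` (`d^(3n) · 3n (ℓ/d + 1)^(3n-1) = 3 n d (ℓ + d)^(3n-1)`, `z^K ≤ ℓ`).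
So the number is `≥ ℓ^(3n) / (2 (2 + log z)^C) - z^K R ≥ ℓ^(3n) / log ℓ` for large `ℓ` (`z^(2K) ≤ (log ℓ)^(2 K B' + ..) ≤ √ℓ`, `2 (2 + log z)^C ≤ (1/2) log ℓ`).
(Hint for the distribution: induct on `T` with classes modulo `D` as in `AP/Cls.lean` `cls_count`, or use `Nat.chineseRemainder`; the box `[0,ℓ)^V` and `Fintype.piFinset`.)
-/

open Finset Filter

namespace Pool.Agent.Lib.MP_d57abb_nt.EE

private theorem CrL_cls (ℓ : ℕ) {d : ℕ} (hd : 0 < d) (ρ : ZMod d) :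
    |(((range ℓ).filter (fun m : ℕ => (m : ZMod d) = ρ)).card : ℝ) - (ℓ : ℝ) / d| ≤ 1 := by
  have : NeZero d := ⟨hd.ne'⟩
  have h1 : ((range ℓ).filter (fun m : ℕ => (m : ZMod d) = ρ)).card = ℓ / d + if ρ.val % d < ℓ % d then 1 else 0 := by
    rw [← Nat.count_modEq_card ℓ hd ρ.val, Nat.count_eq_card_filter_range]
    congr 1
    refine Finset.filter_congr fun m _ => ?_
    rw [← ZMod.natCast_eq_natCast_iff, ZMod.natCast_zmod_val]
  rw [h1]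
  have h2 : (ℓ : ℝ) / d = (ℓ / d : ℕ) + ((ℓ % d : ℕ) : ℝ) / d := by
    have hd' : (d : ℝ) ≠ 0 := by exact_mod_cast hd.ne'
    have h3 : (ℓ : ℝ) = (d : ℝ) * (ℓ / d : ℕ) + (ℓ % d : ℕ) := by exact_mod_cast (Nat.div_add_mod ℓ d).symm
    rw [eq_comm, ← sub_eq_zero]
    field_simp
    linarith
  have h3 : 0 ≤ ((ℓ % d : ℕ) : ℝ) / d := by positivity
  have h4 : ((ℓ % d : ℕ) : ℝ) / d ≤ 1 := by
    rw [div_le_one (by exact_mod_cast hd)]
    exact_mod_cast (Nat.mod_lt _ hd).le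
  rw [h2]
  push_cast
  split_ifs
  · rw [abs_le]
    constructor <;> linarith
  · rw [abs_le]
    constructor <;> linarith

private theorem CrL_prod {ι : Type} (s : Finset ι) (a : ι → ℝ) {b : ℝ} (hb : 0 ≤ b) (h0 : ∀ i ∈ s, 0 ≤ a i)
    (h1 : ∀ i ∈ s, |a i - b| ≤ 1) : (b + 1) * |∏ i ∈ s, a i - b ^ s.card| ≤ s.card * (b + 1) ^ s.card := by
  classical
  induction s using Finset.induction_on with
  | empty => simp
  | insert i s hi ih =>
    have ih' := ih (fun j hj => h0 j (mem_insert_of_mem hj)) (fun j hj => h1 j (mem_insert_of_mem hj))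
    rw [Finset.prod_insert hi, Finset.card_insert_of_notMem hi]
    have hai := h0 i (mem_insert_self _ _)
    have hai1 := h1 i (mem_insert_self _ _)
    have hle : a i ≤ b + 1 := by linarith [(abs_le.mp hai1).2]
    have hbb : b ^ s.card ≤ (b + 1) ^ s.card := pow_le_pow_left₀ hb (by linarith) _
    have h2 : |a i * ∏ j ∈ s, a j - b ^ (s.card + 1)| ≤
        (b + 1) * |∏ j ∈ s, a j - b ^ s.card| + b ^ s.card := by
      have h3 : a i * ∏ j ∈ s, a j - b ^ (s.card + 1) =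
          a i * (∏ j ∈ s, a j - b ^ s.card) + (a i - b) * b ^ s.card := by ring
      rw [h3]
      refine (abs_add_le _ _).trans (add_le_add ?_ ?_)
      · rw [abs_mul, abs_of_nonneg hai]
        exact mul_le_mul_of_nonneg_right hle (abs_nonneg _)
      · rw [abs_mul, abs_of_nonneg (pow_nonneg hb _)]
        calc |a i - b| * b ^ s.card ≤ 1 * b ^ s.card := mul_le_mul_of_nonneg_right hai1 (pow_nonneg hb _)
          _ = b ^ s.card := one_mul _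
    calc (b + 1) * |a i * ∏ j ∈ s, a j - b ^ (s.card + 1)|
        ≤ (b + 1) * ((b + 1) * |∏ j ∈ s, a j - b ^ s.card| + b ^ s.card) :=
          mul_le_mul_of_nonneg_left h2 (by linarith)
      _ ≤ (b + 1) * (s.card * (b + 1) ^ s.card + (b + 1) ^ s.card) :=
          mul_le_mul_of_nonneg_left (add_le_add ih' hbb) (by linarith)
      _ = ((s.card + 1 : ℕ) : ℝ) * (b + 1) ^ (s.card + 1) := by push_cast; ring

private theorem CrL_box {V : Type} [Fintype V] [DecidableEq V] (ℓ : ℕ) {d : ℕ} (hd : 0 < d)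
    (S : Finset (V → ZMod d)) [DecidablePred fun x : V → ℕ => (fun v => (x v : ZMod d)) ∈ S] :
    |(((Fintype.piFinset (fun _ : V => range ℓ)).filter (fun x => (fun v => (x v : ZMod d)) ∈ S)).card : ℝ) -
      S.card * ((ℓ : ℝ) / d) ^ Fintype.card V| * ((ℓ : ℝ) / d + 1) ≤
      S.card * (Fintype.card V * ((ℓ : ℝ) / d + 1) ^ Fintype.card V) := by
  classical
  have h1 : (((Fintype.piFinset (fun _ : V => range ℓ)).filter (fun x => (fun v => (x v : ZMod d)) ∈ S)).card : ℝ) =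
      ∑ ρ ∈ S, ∏ v : V, (((range ℓ).filter (fun m : ℕ => (m : ZMod d) = ρ v)).card : ℝ) := by
    have hH : Set.MapsTo (fun x : V → ℕ => (fun v => (x v : ZMod d)))
        (((Fintype.piFinset (fun _ : V => range ℓ)).filter (fun x => (fun v => (x v : ZMod d)) ∈ S) :
          Finset (V → ℕ)) : Set (V → ℕ)) (S : Set (V → ZMod d)) := by
      intro x hx
      exact (mem_filter.mp (Finset.mem_coe.mp hx)).2
    rw [Finset.card_eq_sum_card_fiberwise hH]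
    push_cast
    refine Finset.sum_congr rfl fun ρ hρ => ?_
    rw [← Nat.cast_prod, ← Fintype.card_piFinset]
    congr 2
    ext x
    simp only [mem_filter, Fintype.mem_piFinset, mem_range]
    constructor
    · rintro ⟨⟨hx, -⟩, h⟩ v
      exact ⟨hx v, congrFun h v⟩
    · intro h
      have h2 : (fun v => (x v : ZMod d)) = ρ := funext fun v => (h v).2
      exact ⟨⟨fun v => (h v).1, by rw [h2]; exact hρ⟩, h2⟩
  rw [h1]
  have h2 : (S.card : ℝ) * ((ℓ : ℝ) / d) ^ Fintype.card V = ∑ ρ ∈ S, ((ℓ : ℝ) / d) ^ Fintype.card V := by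
    rw [Finset.sum_const, nsmul_eq_mul]
  rw [h2, ← Finset.sum_sub_distrib]
  have hb : (0 : ℝ) ≤ (ℓ : ℝ) / d := by positivity
  have h3 : ∀ ρ ∈ S, |∏ v : V, (((range ℓ).filter (fun m : ℕ => (m : ZMod d) = ρ v)).card : ℝ) -
      ((ℓ : ℝ) / d) ^ Fintype.card V| * ((ℓ : ℝ) / d + 1) ≤ Fintype.card V * ((ℓ : ℝ) / d + 1) ^ Fintype.card V := by
    intro ρ _
    have h4 := CrL_prod (univ : Finset V)
      (fun v => (((range ℓ).filter (fun m : ℕ => (m : ZMod d) = ρ v)).card : ℝ)) hb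
      (fun v _ => Nat.cast_nonneg _) (fun v _ => CrL_cls ℓ hd (ρ v))
    rw [Finset.card_univ] at h4
    rw [mul_comm]
    exact h4
  calc |∑ ρ ∈ S, (∏ v : V, (((range ℓ).filter (fun m : ℕ => (m : ZMod d) = ρ v)).card : ℝ) -
        ((ℓ : ℝ) / d) ^ Fintype.card V)| * ((ℓ : ℝ) / d + 1)
      ≤ (∑ ρ ∈ S, |∏ v : V, (((range ℓ).filter (fun m : ℕ => (m : ZMod d) = ρ v)).card : ℝ) -
        ((ℓ : ℝ) / d) ^ Fintype.card V|) * ((ℓ : ℝ) / d + 1) :=
        mul_le_mul_of_nonneg_right (Finset.abs_sum_le_sum_abs _ _) (by linarith)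
    _ = ∑ ρ ∈ S, |∏ v : V, (((range ℓ).filter (fun m : ℕ => (m : ZMod d) = ρ v)).card : ℝ) -
        ((ℓ : ℝ) / d) ^ Fintype.card V| * ((ℓ : ℝ) / d + 1) := Finset.sum_mul _ _ _
    _ ≤ ∑ ρ ∈ S, Fintype.card V * ((ℓ : ℝ) / d + 1) ^ Fintype.card V := Finset.sum_le_sum h3
    _ = _ := by rw [Finset.sum_const, nsmul_eq_mul]

private theorem CrL_crt {V : Type} [Fintype V] (T : Finset ℕ) (hT : ∀ p ∈ T, p.Prime)
    (Q : ∀ p : ℕ, (V → ZMod p) → Prop) :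
    Nat.card {ρ : V → ZMod (∏ i : T, (i : ℕ)) //
      ∀ i : T, Q i (fun v => ZMod.castHom (Finset.dvd_prod_of_mem (fun i : T => (i : ℕ)) (mem_univ i)) (ZMod (i : ℕ)) (ρ v))} =
    ∏ i : T, Nat.card {σ : V → ZMod (i : ℕ) // Q i σ} := by
  have hcop : Pairwise (fun i j : T => Nat.Coprime (i : ℕ) (j : ℕ)) := by
    intro i j hij
    exact (Nat.coprime_primes (hT _ i.2) (hT _ j.2)).mpr (fun h => hij (Subtype.ext h))
  rw [← Nat.card_pi]
  refine Nat.card_congr ?_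
  let e1 : (V → ZMod (∏ i : T, (i : ℕ))) ≃ (∀ i : T, V → ZMod (i : ℕ)) :=
    (Equiv.arrowCongr (Equiv.refl V) (ZMod.prodEquivPi (fun i : T => (i : ℕ)) hcop).toEquiv).trans
      (Equiv.piComm _)
  refine (Equiv.subtypeEquiv e1 (q := fun F => ∀ i : T, Q i (F i)) ?_).trans Equiv.subtypePiEquivPi
  intro ρ
  refine forall_congr' fun i => ?_
  have h1 : (fun v => ZMod.castHom (Finset.dvd_prod_of_mem (fun i : T => (i : ℕ)) (mem_univ i)) (ZMod (i : ℕ)) (ρ v)) =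
      e1 ρ i := by
    funext v
    exact (ZMod.prodEquivPi_apply (fun i : T => (i : ℕ)) hcop (ρ v) i).symm
  rw [h1]

private theorem CrL_dist {V : Type} [Fintype V] [DecidableEq V] (ℓ : ℕ) (T : Finset ℕ)
    (hT : ∀ p ∈ T, p.Prime) (Q : ∀ p : ℕ, (V → ZMod p) → Prop)
    [DecidablePred fun x : V → ℕ => ∀ p ∈ T, Q p (fun v => (x v : ZMod p))] :
    |(((Fintype.piFinset (fun _ : V => range ℓ)).filter
        (fun x => ∀ p ∈ T, Q p (fun v => (x v : ZMod p)))).card : ℝ) -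
      (ℓ : ℝ) ^ Fintype.card V *
        ∏ p ∈ T, (((Nat.card {σ : V → ZMod p // Q p σ} : ℕ) : ℝ) / (p : ℝ) ^ Fintype.card V)| ≤
      Fintype.card V * ((∏ p ∈ T, p : ℕ) : ℝ) * ((ℓ : ℝ) + (∏ p ∈ T, p : ℕ)) ^ Fintype.card V /
        ((ℓ : ℝ) + (∏ p ∈ T, p : ℕ)) := by
  classical
  have hD : ∏ i : T, (i : ℕ) = ∏ p ∈ T, p := Finset.prod_coe_sort T (fun p => p)
  have hpos : 0 < ∏ i : T, (i : ℕ) := Finset.prod_pos fun i _ => (hT _ i.2).pos
  have : NeZero (∏ i : T, (i : ℕ)) := ⟨hpos.ne'⟩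
  obtain ⟨S, hS⟩ : ∃ S : Finset (V → ZMod (∏ i : T, (i : ℕ))), S = univ.filter (fun ρ => ∀ i : T, Q i (fun v =>
      ZMod.castHom (Finset.dvd_prod_of_mem (fun i : T => (i : ℕ)) (mem_univ i)) (ZMod (i : ℕ)) (ρ v))) := ⟨_, rfl⟩
  have hScard : S.card = ∏ p ∈ T, Nat.card {σ : V → ZMod p // Q p σ} := by
    rw [hS, ← Fintype.card_subtype, ← Nat.card_eq_fintype_card, CrL_crt T hT Q]
    exact Finset.prod_coe_sort T (fun p => Nat.card {σ : V → ZMod p // Q p σ})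
  have hmem : ∀ x : V → ℕ, (fun v => (x v : ZMod (∏ i : T, (i : ℕ)))) ∈ S ↔
      ∀ p ∈ T, Q p (fun v => (x v : ZMod p)) := by
    intro x
    rw [hS, mem_filter]
    simp only [mem_univ, true_and, map_natCast]
    exact ⟨fun h p hp => h ⟨p, hp⟩, fun h i => h i i.2⟩
  have h1 := CrL_box (V := V) ℓ hpos S
  have h2 : ((Fintype.piFinset (fun _ : V => range ℓ)).filter
      (fun x => (fun v => (x v : ZMod (∏ i : T, (i : ℕ)))) ∈ S)) =
      ((Fintype.piFinset (fun _ : V => range ℓ)).filter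
        (fun x => ∀ p ∈ T, Q p (fun v => (x v : ZMod p)))) := by
    exact Finset.filter_congr fun x _ => hmem x
  rw [h2] at h1
  have hSle' : S.card ≤ (∏ i : T, (i : ℕ)) ^ Fintype.card V := by
    have h3 : S.card ≤ Fintype.card (V → ZMod (∏ i : T, (i : ℕ))) := Finset.card_le_univ S
    rw [Fintype.card_fun, ZMod.card] at h3
    exact h3
  obtain ⟨c, hc⟩ : ∃ c : ℕ, c = S.card := ⟨_, rfl⟩
  rw [← hc] at h1 hScard hSle'
  rw [hD] at h1 hpos hSle'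
  obtain ⟨d, hd⟩ : ∃ d : ℕ, d = ∏ p ∈ T, p := ⟨_, rfl⟩
  rw [← hd] at h1 hpos hSle' ⊢
  have hdR : (0 : ℝ) < (d : ℝ) := by exact_mod_cast hpos
  have hSle : (c : ℝ) ≤ (d : ℝ) ^ Fintype.card V := by exact_mod_cast hSle'
  have hmain : (c : ℝ) * ((ℓ : ℝ) / d) ^ Fintype.card V = (ℓ : ℝ) ^ Fintype.card V *
      ∏ p ∈ T, (((Nat.card {σ : V → ZMod p // Q p σ} : ℕ) : ℝ) / (p : ℝ) ^ Fintype.card V) := by
    rw [hScard, Finset.prod_div_distrib, Finset.prod_pow, hd]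
    push_cast
    rw [div_pow]
    ring
  rw [hmain] at h1
  have h4 : (0 : ℝ) ≤ (ℓ : ℝ) / d := by positivity
  rw [← le_div_iff₀ (by linarith)] at h1
  refine h1.trans ?_
  have h5 : (ℓ : ℝ) / d + 1 = ((ℓ : ℝ) + d) / d := by field_simp
  have h6 : (0 : ℝ) < (ℓ : ℝ) + d := by positivity
  calc (c : ℝ) * (Fintype.card V * ((ℓ : ℝ) / d + 1) ^ Fintype.card V) / ((ℓ : ℝ) / d + 1)
      ≤ (d : ℝ) ^ Fintype.card V * (Fintype.card V * ((ℓ : ℝ) / d + 1) ^ Fintype.card V) / ((ℓ : ℝ) / d + 1) := by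
        refine div_le_div_of_nonneg_right (mul_le_mul_of_nonneg_right hSle (by positivity)) (by positivity)
    _ = Fintype.card V * (d : ℝ) * ((ℓ : ℝ) + d) ^ Fintype.card V / ((ℓ : ℝ) + d) := by
        rw [h5, div_pow]
        field_simp

/-- One linear condition modulo `p`. -/
private theorem CrL_lin {V : Type} [Fintype V] [DecidableEq V] {p : ℕ} (hp : p.Prime) {u v : V} (huv : u ≠ v)
    (w c1 c2 x m : ZMod p) (h : w = 0 → m ≠ 0) [NeZero p]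
    [DecidablePred fun ρ : V → ZMod p => w * ((c2 + ρ v) - x * (c1 + ρ u)) + m = 0] :
    (univ.filter (fun ρ : V → ZMod p => w * ((c2 + ρ v) - x * (c1 + ρ u)) + m = 0)).card ≤
      p ^ (Fintype.card V - 1) := by
  have : Fact p.Prime := ⟨hp⟩
  by_cases hw : w = 0
  · have h1 : univ.filter (fun ρ : V → ZMod p => w * ((c2 + ρ v) - x * (c1 + ρ u)) + m = 0) = ∅ := by
      refine Finset.filter_eq_empty_iff.mpr fun ρ _ h2 => ?_
      rw [hw, zero_mul, zero_add] at h2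
      exact h hw h2
    rw [h1, card_empty]
    exact Nat.zero_le _
  · have h1 : Fintype.card ({a : V // a ≠ v} → ZMod p) = p ^ (Fintype.card V - 1) := by
      rw [Fintype.card_fun, ZMod.card]
      congr 1
      exact Set.card_ne_eq v
    rw [← h1, ← Finset.card_univ]
    refine Finset.card_le_card_of_injOn (fun ρ a => ρ a) (fun _ _ => mem_coe.mpr (mem_univ _)) ?_
    intro ρ hρ σ hσ heq
    have h2 := (mem_filter.mp (mem_coe.mp hρ)).2
    have h3 := (mem_filter.mp (mem_coe.mp hσ)).2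
    have h4 : ∀ a, a ≠ v → ρ a = σ a := fun a ha => congrFun heq ⟨a, ha⟩
    funext a
    by_cases ha : a = v
    · subst ha
      have h5 := h4 u huv
      have h6 : w * (ρ a - σ a) = 0 := by
        rw [h5] at h2
        linear_combination h2 - h3
      exact sub_eq_zero.mp ((mul_eq_zero.mp h6).resolve_left hw)
    · exact h4 a ha

theorem card_EC (n : ℕ) : (EC n).card = 3 * n ^ 2 := by
  have h01 : (0 : Fin 3) < 1 := by decide
  have h02 : (0 : Fin 3) < 2 := by decide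
  have h12 : (1 : Fin 3) < 2 := by decide
  have h10 : ¬ (1 : Fin 3) < 0 := by decide
  have h20 : ¬ (2 : Fin 3) < 0 := by decide
  have h21 : ¬ (2 : Fin 3) < 1 := by decide
  unfold EC
  rw [Finset.card_filter, Fintype.sum_prod_type]
  simp only [Fintype.sum_prod_type, Fin.sum_univ_three, h01, h02, h12, h10, h20, h21, lt_irrefl, if_true, if_false,
    Finset.sum_const, Finset.card_univ, Fintype.card_fin, smul_eq_mul, mul_one, mul_zero]
  ring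

private theorem CrL_cardV (n : ℕ) : Fintype.card (V n) = 3 * n := by
  rw [Fintype.card_prod, Fintype.card_fin, Fintype.card_fin]

/-- the condition modulo `p` for one pair -/
private def CrL_eq {n : ℕ} (ℓ : ℕ) (W₁ n₀ : V n × V n → ℕ) (p : ℕ) (ρ : V n → ZMod p) (e : V n × V n) : Prop :=
  (W₁ e : ZMod p) * ((((st e.2.1 * ℓ : ℕ) : ZMod p) + ρ e.2) -
    (xc e.2.1 : ZMod p) * (((st e.1.1 * ℓ : ℕ) : ZMod p) + ρ e.1)) + (n₀ e : ZMod p) = 0

/-- the condition modulo `p` -/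
private def CrL_Q {n : ℕ} (ℓ : ℕ) (W₁ n₀ : V n × V n → ℕ) (p : ℕ) (ρ : V n → ZMod p) : Prop :=
  ∃ e ∈ EC n, CrL_eq ℓ W₁ n₀ p ρ e

private theorem CrL_dvd {n : ℕ} (ℓ : ℕ) (W₁ n₀ : V n × V n → ℕ) (p : ℕ) (x : V n → ℕ) (hx : x ∈ Bx n ℓ)
    (e : V n × V n) (he : e ∈ EC n) :
    p ∣ W₁ e * mf ℓ x e + n₀ e ↔ CrL_eq ℓ W₁ n₀ p (fun v => (x v : ZMod p)) e := by
  have h1 := (mf_range x hx e he).1
  rw [← ZMod.natCast_eq_zero_iff]
  unfold CrL_eq mf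
  rw [Nat.cast_add, Nat.cast_mul, Nat.cast_sub h1.le, Nat.cast_mul, Nat.cast_add, Nat.cast_add]

private theorem CrL_card {n : ℕ} (ℓ : ℕ) (W₁ n₀ : V n × V n → ℕ) {p : ℕ} (hp : p.Prime)
    (hc : ∀ e ∈ EC n, Nat.Coprime (n₀ e) (W₁ e)) :
    Nat.card {σ : V n → ZMod p // CrL_Q ℓ W₁ n₀ p σ} ≤ 3 * n ^ 2 * p ^ (3 * n - 1) := by
  classical
  have : NeZero p := ⟨hp.ne_zero⟩
  have h1 : Nat.card {σ : V n → ZMod p // CrL_Q ℓ W₁ n₀ p σ} =
      ((univ : Finset (V n → ZMod p)).filter (fun σ => CrL_Q ℓ W₁ n₀ p σ)).card := by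
    rw [Nat.card_eq_fintype_card, Fintype.card_subtype]
  rw [h1]
  have h2 : (univ : Finset (V n → ZMod p)).filter (fun σ => CrL_Q ℓ W₁ n₀ p σ) ⊆
      (EC n).biUnion (fun e => univ.filter (fun σ : V n → ZMod p => CrL_eq ℓ W₁ n₀ p σ e)) := by
    intro σ hσ
    obtain ⟨e, he, h⟩ := (mem_filter.mp hσ).2
    exact mem_biUnion.mpr ⟨e, he, mem_filter.mpr ⟨mem_univ _, h⟩⟩
  refine (Finset.card_le_card h2).trans (Finset.card_biUnion_le.trans ?_)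
  have h3 : ∀ e ∈ EC n, (univ.filter (fun σ : V n → ZMod p => CrL_eq ℓ W₁ n₀ p σ e)).card ≤ p ^ (3 * n - 1) := by
    intro e he
    have he2 : e.1.1 < e.2.1 := (mem_filter.mp he).2
    have h4 := CrL_lin hp (u := e.1) (v := e.2) (fun h => by rw [h] at he2; exact lt_irrefl _ he2)
      (W₁ e : ZMod p) ((st e.1.1 * ℓ : ℕ) : ZMod p) ((st e.2.1 * ℓ : ℕ) : ZMod p) (xc e.2.1 : ZMod p) (n₀ e : ZMod p)
      (by
        intro h5 h6
        rw [ZMod.natCast_eq_zero_iff] at h5 h6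
        exact hp.one_lt.ne' (Nat.dvd_one.mp ((hc e he) ▸ Nat.dvd_gcd h6 h5)))
    rw [CrL_cardV] at h4
    refine le_trans (le_of_eq ?_) h4
    exact congrArg Finset.card (Finset.filter_congr fun _ _ => Iff.rfl)
  calc ∑ e ∈ EC n, (univ.filter (fun σ : V n → ZMod p => CrL_eq ℓ W₁ n₀ p σ e)).card
      ≤ ∑ _e ∈ EC n, p ^ (3 * n - 1) := Finset.sum_le_sum h3
    _ = 3 * n ^ 2 * p ^ (3 * n - 1) := by rw [Finset.sum_const, card_EC, smul_eq_mul]

/-- the density -/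
private noncomputable def CrL_g {n : ℕ} (ℓ : ℕ) (W₁ n₀ : V n × V n → ℕ) (p : ℕ) : ℝ :=
  ((Nat.card {σ : V n → ZMod p // CrL_Q ℓ W₁ n₀ p σ} : ℕ) : ℝ) / (p : ℝ) ^ Fintype.card (V n)

private theorem CrL_g_le {n : ℕ} (hn : 1 ≤ n) (ℓ : ℕ) (W₁ n₀ : V n × V n → ℕ) {p : ℕ} (hp : p.Prime)
    (hc : ∀ e ∈ EC n, Nat.Coprime (n₀ e) (W₁ e)) : CrL_g ℓ W₁ n₀ p ≤ ((3 * n ^ 2 : ℕ) : ℝ) / p := by
  have hp0 : (0 : ℝ) < p := by exact_mod_cast hp.pos
  unfold CrL_g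
  rw [CrL_cardV, div_le_div_iff₀ (by positivity) hp0]
  have h1 := CrL_card ℓ W₁ n₀ hp hc
  have h2 : p ^ (3 * n) = p ^ (3 * n - 1) * p := by
    rw [← pow_succ]
    congr 1
    omega
  have h3 : Nat.card {σ : V n → ZMod p // CrL_Q ℓ W₁ n₀ p σ} * p ≤ 3 * n ^ 2 * p ^ (3 * n) := by
    rw [h2, ← mul_assoc]
    exact Nat.mul_le_mul_right p h1
  exact_mod_cast h3

private theorem CrL_g_zero {n : ℕ} (ℓ : ℕ) (W₁ n₀ : V n × V n → ℕ) {p : ℕ} (hp : p.Prime)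
    (hc : ∀ e ∈ EC n, Nat.Coprime (n₀ e) (W₁ e)) (hd : ∀ e ∈ EC n, p ∣ W₁ e) : CrL_g ℓ W₁ n₀ p = 0 := by
  have h1 : IsEmpty {σ : V n → ZMod p // CrL_Q ℓ W₁ n₀ p σ} := by
    refine ⟨fun σ => ?_⟩
    obtain ⟨e, he, h⟩ := σ.2
    unfold CrL_eq at h
    rw [(ZMod.natCast_eq_zero_iff (W₁ e) p).mpr (hd e he), zero_mul, zero_add, ZMod.natCast_eq_zero_iff] at h
    exact hp.one_lt.ne' (Nat.dvd_one.mp ((hc e he) ▸ Nat.dvd_gcd h (hd e he)))
  unfold CrL_g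
  rw [Nat.card_of_isEmpty, Nat.cast_zero, zero_div]

/-- for large `ℓ` the sifting level is small -/
private theorem CrL_asym (n K C B' : ℕ) : ∃ ℓ₀ : ℕ, 3 ≤ ℓ₀ ∧ ∀ ℓ : ℕ, ℓ₀ ≤ ℓ →
    4 * (2 + Real.log ((max 3 (wB B' ℓ) : ℕ) : ℝ)) ^ C ≤ Real.log ℓ ∧
    (((max 3 (wB B' ℓ) : ℕ) : ℝ)) ^ K ≤ ℓ ∧
    (((max 3 (wB B' ℓ) : ℕ) : ℝ)) ^ K * ((3 * n : ℕ) * (((max 3 (wB B' ℓ) : ℕ) : ℝ)) ^ K * 2 ^ (3 * n - 1)) *
      Real.log ℓ ≤ ℓ := by
  have hc : (0 : ℝ) < 1 / (4 * ((B' : ℝ) + 3) ^ C) := by positivity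
  have h1 := (Real.isLittleO_pow_log_id_atTop (n := C)).def hc
  have h2 := (Real.isLittleO_pow_exp_atTop (n := (B' + 1) * K)).def (zero_lt_one (α := ℝ))
  have hc3 : (0 : ℝ) < 1 / ((3 * n : ℕ) * 2 ^ (3 * n - 1) + 1) := by positivity
  have h3 := (Real.isLittleO_pow_exp_atTop (n := (B' + 1) * K + (B' + 1) * K + 1)).def hc3
  have h4 : ∀ᶠ y : ℝ in atTop, 4 ≤ y := eventually_ge_atTop 4
  have h5 : ∀ᶠ y : ℝ in atTop, 1 ≤ Real.log y := Real.tendsto_log_atTop.eventually_ge_atTop 1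
  have hall := (h1.and (h2.and (h3.and (h4.and h5))))
  have hlog : Tendsto (fun ℓ : ℕ => Real.log (ℓ : ℝ)) atTop atTop :=
    Real.tendsto_log_atTop.comp tendsto_natCast_atTop_atTop
  obtain ⟨ℓ₁, hℓ₁⟩ := eventually_atTop.mp (hlog.eventually hall)
  refine ⟨max 3 ℓ₁, le_max_left _ _, fun ℓ hℓ => ?_⟩
  obtain ⟨a1, a2, a3, a4, a5⟩ := hℓ₁ ℓ (le_trans (le_max_right _ _) hℓ)
  obtain ⟨y, hy⟩ : ∃ y : ℝ, y = Real.log (ℓ : ℝ) := ⟨_, rfl⟩
  have hℓ0 : (0 : ℝ) < (ℓ : ℝ) := by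
    have : 3 ≤ ℓ := le_trans (le_max_left _ _) hℓ
    exact_mod_cast (by omega : 0 < ℓ)
  have hexp : Real.exp y = ℓ := by rw [hy, Real.exp_log hℓ0]
  rw [← hy] at a1 a2 a3 a4 a5 ⊢
  have hy0 : (0 : ℝ) < y := by linarith
  obtain ⟨z, hz⟩ : ∃ z : ℝ, z = ((max 3 (wB B' ℓ) : ℕ) : ℝ) := ⟨_, rfl⟩
  rw [← hz]
  have hz3 : 3 ≤ z := by
    rw [hz]
    exact_mod_cast le_max_left 3 (wB B' ℓ)
  have hzle : z ≤ y ^ (B' + 1) := by
    have h6 : (1 : ℝ) ≤ y ^ B' := one_le_pow₀ (by linarith)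
    have h7 : y ^ (B' + 1) = y ^ B' * y := pow_succ _ _
    have h8 : y ^ B' * 4 ≤ y ^ B' * y := mul_le_mul_of_nonneg_left a4 (by linarith)
    have h9 : ((wB B' ℓ : ℕ) : ℝ) ≤ y ^ B' := by
      unfold wB
      rw [← hy]
      exact Nat.floor_le (by positivity)
    rw [hz, Nat.cast_max, h7]
    refine max_le ?_ ?_
    · push_cast
      linarith
    · linarith
  have hzK : z ^ K ≤ y ^ ((B' + 1) * K) := by
    rw [pow_mul]
    exact pow_le_pow_left₀ (by linarith) hzle K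
  refine ⟨?_, ?_, ?_⟩
  · have h6 : Real.log z ≤ (B' + 1) * Real.log y := by
      have h7 := Real.log_le_log (by linarith) hzle
      rw [Real.log_pow] at h7
      push_cast at h7
      exact h7
    have h7 : 2 + Real.log z ≤ (B' + 3) * Real.log y := by nlinarith
    have h8 : 0 ≤ 2 + Real.log z := by
      have := Real.log_nonneg (by linarith : (1 : ℝ) ≤ z)
      linarith
    have h9 : (2 + Real.log z) ^ C ≤ ((B' + 3) * Real.log y) ^ C := pow_le_pow_left₀ h8 h7 C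
    rw [Real.norm_of_nonneg (by positivity), id, Real.norm_of_nonneg hy0.le, mul_comm, mul_one_div,
      le_div_iff₀ (by positivity)] at a1
    rw [mul_pow] at h9
    nlinarith
  · rw [Real.norm_of_nonneg (by positivity), Real.norm_of_nonneg (Real.exp_pos _).le, one_mul, hexp] at a2
    exact hzK.trans a2
  · rw [Real.norm_of_nonneg (by positivity), Real.norm_of_nonneg (Real.exp_pos _).le, hexp, one_div_mul_eq_div,
      le_div_iff₀ (by positivity)] at a3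
    have h6 : z ^ K * z ^ K ≤ y ^ ((B' + 1) * K) * y ^ ((B' + 1) * K) :=
      mul_le_mul hzK hzK (by positivity) (by positivity)
    have h7 : (0 : ℝ) ≤ (3 * n : ℕ) * 2 ^ (3 * n - 1) := by positivity
    calc z ^ K * ((3 * n : ℕ) * z ^ K * 2 ^ (3 * n - 1)) * y
        = (z ^ K * z ^ K) * (((3 * n : ℕ) * 2 ^ (3 * n - 1)) * y) := by ring
      _ ≤ (y ^ ((B' + 1) * K) * y ^ ((B' + 1) * K)) * (((3 * n : ℕ) * 2 ^ (3 * n - 1) + 1) * y) := by
          refine mul_le_mul h6 ?_ (by positivity) (by positivity)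
          exact mul_le_mul_of_nonneg_right (by linarith) hy0.le
      _ = y ^ ((B' + 1) * K + (B' + 1) * K + 1) * ((3 * n : ℕ) * 2 ^ (3 * n - 1) + 1) := by
          rw [pow_succ, pow_add]
          ring
      _ ≤ ℓ := a3

theorem crm_lower {n : ℕ} (hn : 1 ≤ n) {L : V n → V n → ℕ} {w₁ W₀ : ℕ} {r : V n → ℕ} {D W₁ n₀ : V n × V n → ℕ}
    (hR : Res L w₁ W₀ r D W₁ n₀) (hw : 12 * n ^ 2 ≤ w₁) (B' : ℕ) : ∃ ℓ₀ : ℕ, ∀ ℓ : ℕ, ℓ₀ ≤ ℓ →
    (ℓ : ℝ) ^ (3 * n) / Real.log ℓ ≤ TT ℓ (fun e k => crm (W₁ e) (n₀ e) (wB B' ℓ) k) := by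
  classical
  obtain ⟨K, C, hKC⟩ := AP.sieveK (3 * n ^ 2)
  obtain ⟨ℓ₀, h3, hℓ₀⟩ := CrL_asym n K C B'
  refine ⟨ℓ₀, fun ℓ hℓ => ?_⟩
  obtain ⟨b1, b2, b3⟩ := hℓ₀ ℓ hℓ
  have hℓ3 : 3 ≤ ℓ := h3.trans hℓ
  have hℓ0 : (0 : ℝ) < (ℓ : ℝ) := by exact_mod_cast (by omega : 0 < ℓ)
  have hlog : 0 < Real.log (ℓ : ℝ) := Real.log_pos (by exact_mod_cast (by omega : 1 < ℓ))
  obtain ⟨z, hz⟩ : ∃ z : ℕ, z = max 3 (wB B' ℓ) := ⟨_, rfl⟩
  rw [← hz] at b1 b2 b3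
  have hz3 : 3 ≤ z := by rw [hz]; exact le_max_left _ _
  have hzw : wB B' ℓ ≤ z := by rw [hz]; exact le_max_right _ _
  have hcop := hR.cop
  have hs := hKC (V n → ℕ) z (Bx n ℓ) (fun p x => ∃ e ∈ EC n, p ∣ W₁ e * mf ℓ x e + n₀ e)
    (fun p => CrL_g ℓ W₁ n₀ p) ((ℓ : ℝ) ^ (3 * n)) ((3 * n : ℕ) * (z : ℝ) ^ K * (2 * (ℓ : ℝ)) ^ (3 * n - 1)) hz3
    (by
      intro p hp
      have hp' : p.Prime := (mem_filter.mp hp).2
      refine ⟨?_, ?_, CrL_g_le hn ℓ W₁ n₀ hp' hcop⟩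
      · unfold CrL_g
        positivity
      · by_cases hpw : p ≤ w₁
        · show CrL_g ℓ W₁ n₀ p ≤ 3 / 4
          rw [CrL_g_zero ℓ W₁ n₀ hp' hcop (fun e he => hR.sm e he p hp' hpw)]
          norm_num
        · refine (CrL_g_le hn ℓ W₁ n₀ hp' hcop).trans ?_
          have h1 : 12 * n ^ 2 ≤ p := by omega
          have h2 : (0 : ℝ) < p := by exact_mod_cast hp'.pos
          rw [div_le_iff₀ h2]
          have h4 : (12 : ℝ) * n ^ 2 ≤ p := by exact_mod_cast h1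
          push_cast
          linarith)
    (by positivity) (by positivity)
    (by
      intro T hT hTz
      have hTp : ∀ p ∈ T, p.Prime := fun p hp => (mem_filter.mp (hT hp)).2
      have h1 := CrL_dist ℓ T hTp (fun p ρ => CrL_Q ℓ W₁ n₀ p ρ)
      rw [CrL_cardV] at h1
      have h2 : ((Bx n ℓ).filter (fun x => ∀ p ∈ T, ∃ e ∈ EC n, p ∣ W₁ e * mf ℓ x e + n₀ e)) =
          ((Fintype.piFinset (fun _ : V n => range ℓ)).filter
            (fun x => ∀ p ∈ T, CrL_Q ℓ W₁ n₀ p (fun v => (x v : ZMod p)))) := by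
        refine Finset.filter_congr fun x hx => ?_
        refine forall_congr' fun p => forall_congr' fun _ => ?_
        exact exists_congr fun e => and_congr_right fun he => CrL_dvd ℓ W₁ n₀ p x hx e he
      rw [h2]
      have h4 : ∏ p ∈ T, CrL_g ℓ W₁ n₀ p =
          ∏ p ∈ T, (((Nat.card {σ : V n → ZMod p // CrL_Q ℓ W₁ n₀ p σ} : ℕ) : ℝ) / (p : ℝ) ^ (3 * n)) := by
        refine Finset.prod_congr rfl fun p _ => ?_
        unfold CrL_g
        rw [CrL_cardV]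
      rw [h4]
      refine h1.trans ?_
      obtain ⟨d, hd⟩ : ∃ d : ℕ, d = ∏ p ∈ T, p := ⟨_, rfl⟩
      rw [← hd] at hTz ⊢
      have hdz : (d : ℝ) ≤ (z : ℝ) ^ K := by exact_mod_cast hTz
      have hdl : (d : ℝ) ≤ ℓ := hdz.trans b2
      have h5 : (0 : ℝ) < (ℓ : ℝ) + d := by positivity
      have h6 : ((ℓ : ℝ) + d) ^ (3 * n) = ((ℓ : ℝ) + d) ^ (3 * n - 1) * ((ℓ : ℝ) + d) := by
        rw [← pow_succ]
        congr 1
        omega
      rw [h6, ← mul_assoc, mul_div_assoc, div_self h5.ne', mul_one]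
      refine mul_le_mul ?_ (pow_le_pow_left₀ h5.le (by linarith) _) (by positivity) (by positivity)
      exact mul_le_mul_of_nonneg_left hdz (by positivity))
  have hTT : (((Bx n ℓ).filter (fun t => ∀ p ∈ Pool.Agent.Lib.MP_42948a_nt.OA.PP z, ¬ ∃ e ∈ EC n,
      p ∣ W₁ e * mf ℓ t e + n₀ e)).card : ℝ) ≤ TT ℓ (fun e k => crm (W₁ e) (n₀ e) (wB B' ℓ) k) := by
    have hnn : ∀ (e : V n × V n) (k : ℕ), 0 ≤ crm (W₁ e) (n₀ e) (wB B' ℓ) k := by
      intro e k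
      unfold crm
      split_ifs
      · linarith [one_le_cw (W₁ e) (wB B' ℓ)]
      · exact le_rfl
    unfold TT
    rw [Finset.card_eq_sum_ones, Nat.cast_sum, Finset.sum_filter]
    refine Finset.sum_le_sum fun x _ => ?_
    by_cases hgood : ∀ p ∈ Pool.Agent.Lib.MP_42948a_nt.OA.PP z, ¬ ∃ e ∈ EC n, p ∣ W₁ e * mf ℓ x e + n₀ e
    · rw [if_pos hgood, Nat.cast_one]
      have h1 : ∏ _e ∈ EC n, (1 : ℝ) ≤ ∏ e ∈ EC n, crm (W₁ e) (n₀ e) (wB B' ℓ) (mf ℓ x e) := by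
        refine Finset.prod_le_prod (fun _ _ => zero_le_one) fun e he => ?_
        unfold crm
        rw [if_pos]
        · exact one_le_cw _ _
        · intro p hp hdvd
          have hp1 := mem_filter.mp hp
          have hp2 := mem_Icc.mp hp1.1
          exact hgood p (mem_filter.mpr ⟨mem_Icc.mpr ⟨hp2.1, hp2.2.trans hzw⟩, hp1.2.1⟩) ⟨e, he, hdvd⟩
      rw [Finset.prod_const_one] at h1
      exact h1
    · rw [if_neg hgood]
      exact Finset.prod_nonneg fun e _ => hnn e _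
  refine le_trans ?_ hTT
  refine le_trans ?_ hs
  have hzlog : 0 ≤ Real.log (z : ℝ) := Real.log_nonneg (by exact_mod_cast (by omega : 1 ≤ z))
  have hX : (0 : ℝ) < (ℓ : ℝ) ^ (3 * n) := by positivity
  have c1 : 2 * ((ℓ : ℝ) ^ (3 * n) / Real.log ℓ) ≤ (ℓ : ℝ) ^ (3 * n) / (2 * (2 + Real.log z) ^ C) := by
    rw [← mul_div_assoc, div_le_div_iff₀ hlog (by positivity)]
    nlinarith
  have c2 : (z : ℝ) ^ K * ((3 * n : ℕ) * (z : ℝ) ^ K * (2 * (ℓ : ℝ)) ^ (3 * n - 1)) ≤ (ℓ : ℝ) ^ (3 * n) / Real.log ℓ := by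
    rw [le_div_iff₀ hlog]
    have h6 : (ℓ : ℝ) ^ (3 * n) = (ℓ : ℝ) ^ (3 * n - 1) * ℓ := by
      rw [← pow_succ]
      congr 1
      omega
    rw [h6, mul_pow]
    calc (z : ℝ) ^ K * ((3 * n : ℕ) * (z : ℝ) ^ K * (2 ^ (3 * n - 1) * (ℓ : ℝ) ^ (3 * n - 1))) * Real.log ℓ
        = (ℓ : ℝ) ^ (3 * n - 1) * ((z : ℝ) ^ K * ((3 * n : ℕ) * (z : ℝ) ^ K * 2 ^ (3 * n - 1)) * Real.log ℓ) := by ring
      _ ≤ (ℓ : ℝ) ^ (3 * n - 1) * ℓ := mul_le_mul_of_nonneg_left b3 (by positivity)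
  linarith

end Pool.Agent.Lib.MP_d57abb_nt.EE
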