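import Mathlib
import Pool.Agent.Lib.MP_d57abb_nt.All.SWk
import Pool.Agent.Lib.MP_d57abb_nt.All.Abel
import Pool.Agent.Lib.MP_d57abb_nt.EE.CrA

/-!
# JOB FrMaj: the major arcs for primes minus model

PROOF.  `f k = lpn W n₀ k - crm W n₀ w k`, `w = wB B' ℓ`, `Λ = log ℓ ≥ 1`.  `swk W n₀ hW hc (A + 2 B + 7) B` (`All/SWk.lean`) divided by `dens W = W / φ(W) ≥ 1`: for all `s`, `v ≤ 5 ℓ`, `q ≤ Λ^B`,
`|∑_{k<v, k≡s(q)} lpn W n₀ k - (if Coprime (W s + n₀) q then v φ(W) / φ(W q) else 0)| ≤ ℓ / Λ^(A + 2B + 7)` (`(v W / φ(W q)) / (W / φ(W)) = v φ(W) / φ(W q)`), and `crm_ap` with the same exponent: so `|∑_{k<v, k≡s(q)} f k| ≤ 2 ℓ / Λ^(A+2B+7)` for all `s` and all `v ≤ 5 ℓ`.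
With `θ = a/q + β`, `|β| ≤ Λ^B / ℓ`: `∑_{k<u} f k e (k θ) = ∑_{s<q} e (a s / q) ∑_{k<u, k≡s} f k e (k β)` (as `Maj_split` in `All/Maj.lean`, private there: copy), and by Abel summation (`abel_e` in `All/Abel.lean`, see its statement and its use in `All/Maj.lean`)
each inner sum is at most `(2 ℓ / Λ^(A+2B+7)) (1 + 2 π u |β|) ≤ (2 ℓ / Λ^(A+2B+7)) (1 + 10 π Λ^B)`; total `≤ Λ^B * 2 ℓ * 33 Λ^B / Λ^(A + 2 B + 7) ≤ ℓ / Λ^A` for large `ℓ` (`66 ≤ Λ^7`).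
-/

open Finset Filter

namespace Pool.Agent.Lib.MP_d57abb_nt.EE

open Pool.Agent.Lib.MP_d57abb_nt.All
open Pool.Agent.Lib.MP_2a816b_nt (e norm_e e_add e_int)

private theorem FrMaj_split (q : ℕ) (hq : 0 < q) (a : ℤ) (θ : ℝ) (G : ℕ → ℂ) (u : ℕ) :
    ∑ k ∈ range u, G k * e (k * θ) = ∑ s ∈ range q, e (a * s / q) *
      ∑ k ∈ range u, (if k ≡ s [MOD q] then G k else 0) * e (k * (θ - a / q)) := by
  have hq0 : (q : ℝ) ≠ 0 := by exact_mod_cast hq.ne'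
  simp only [Finset.mul_sum]
  rw [Finset.sum_comm]
  refine Finset.sum_congr rfl fun k _ => ?_
  rw [Finset.sum_eq_single (k % q)]
  · rw [if_pos ((Nat.mod_modEq k q).symm)]
    obtain ⟨t, ht⟩ : ∃ t, t = k / q := ⟨_, rfl⟩
    obtain ⟨r, hr⟩ : ∃ r, r = k % q := ⟨_, rfl⟩
    have h0 : q * t + r = k := by rw [ht, hr]; exact Nat.div_add_mod k q
    have h1 : (k : ℝ) = q * t + r := by exact_mod_cast h0.symm
    rw [← hr]
    have h2 : (k : ℝ) * θ = a * r / q + k * (θ - a / q) + ((a * (t : ℤ) : ℤ) : ℝ) := by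
      have h4 : (k : ℝ) * (a / q) = a * r / q + a * t := by
        rw [h1]
        field_simp
        ring
      push_cast
      linear_combination h4
    rw [h2, e_add, e_add, e_int]
    ring
  · intro b hb hbk
    rw [mem_range] at hb
    rw [if_neg, zero_mul, mul_zero]
    intro h
    apply hbk
    have h5 : k % q = b % q := h
    rw [h5, Nat.mod_eq_of_lt hb]
  · intro h
    exact absurd (mem_range.2 (Nat.mod_lt k hq)) h

private theorem FrMaj_abel (g : ℕ → ℝ) (q s u : ℕ) (δ β : ℝ)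
    (h : ∀ v ≤ u, |∑ k ∈ (range v).filter (fun k => k ≡ s [MOD q]), g k| ≤ δ) :
    ‖∑ k ∈ range u, (if k ≡ s [MOD q] then ((g k : ℝ) : ℂ) else 0) * e (k * β)‖ ≤
      δ * (1 + 2 * Real.pi * u * |β|) := by
  refine abel_e (fun k => if k ≡ s [MOD q] then ((g k : ℝ) : ℂ) else 0) u δ β fun v hv => ?_
  have h1 : ∑ k ∈ range v, (if k ≡ s [MOD q] then ((g k : ℝ) : ℂ) else 0) =
      ((∑ k ∈ (range v).filter (fun k => k ≡ s [MOD q]), g k : ℝ) : ℂ) := by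
    rw [Finset.sum_filter]
    push_cast
    refine Finset.sum_congr rfl fun k _ => ?_
    split_ifs <;> simp
  rw [h1, Complex.norm_real, Real.norm_eq_abs]
  exact h v hv

private theorem FrMaj_num {Λ ℓ q u β : ℝ} {A B : ℕ} (hℓ : 0 < ℓ) (hΛ : 66 ≤ Λ)
    (hq : q ≤ Λ ^ B) (hβ : |β| ≤ Λ ^ B / ℓ) (hu0 : 0 ≤ u) (hu : u ≤ 5 * ℓ) :
    q * (2 * (ℓ / Λ ^ (A + 2 * B + 7)) * (1 + 2 * Real.pi * u * |β|)) ≤ ℓ / Λ ^ A := by
  have hΛ0 : 0 < Λ := by linarith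
  have hP : 0 < Λ ^ B := by positivity
  have hP1 : 1 ≤ Λ ^ B := one_le_pow₀ (by linarith)
  have h1 : u * |β| ≤ 5 * Λ ^ B := by
    have h2 : u * |β| ≤ 5 * ℓ * (Λ ^ B / ℓ) :=
      mul_le_mul hu hβ (abs_nonneg _) (by positivity)
    have h3 : 5 * ℓ * (Λ ^ B / ℓ) = 5 * Λ ^ B := by field_simp
    linarith
  have h4 : 1 + 2 * Real.pi * u * |β| ≤ 33 * Λ ^ B := by
    have h5 : 2 * Real.pi * u * |β| = 2 * Real.pi * (u * |β|) := by ring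
    have h6 : 2 * Real.pi * (u * |β|) ≤ 2 * 3.15 * (5 * Λ ^ B) :=
      mul_le_mul (by linarith [Real.pi_lt_d2]) h1 (mul_nonneg hu0 (abs_nonneg _)) (by norm_num)
    rw [h5]
    linarith
  have h7 : q * (2 * (ℓ / Λ ^ (A + 2 * B + 7)) * (1 + 2 * Real.pi * u * |β|)) ≤
      Λ ^ B * (2 * (ℓ / Λ ^ (A + 2 * B + 7)) * (33 * Λ ^ B)) := by
    refine mul_le_mul hq (mul_le_mul_of_nonneg_left h4 (by positivity)) ?_ hP.le
    refine mul_nonneg (by positivity) ?_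
    have := Real.pi_pos
    positivity
  have h8 : Λ ^ B * (2 * (ℓ / Λ ^ (A + 2 * B + 7)) * (33 * Λ ^ B)) = ℓ / Λ ^ A * (66 / Λ ^ 7) := by
    have h9 : Λ ^ (A + 2 * B + 7) = Λ ^ A * (Λ ^ B * Λ ^ B) * Λ ^ 7 := by ring
    rw [h9]
    field_simp
    ring
  rw [h8] at h7
  refine h7.trans ?_
  have h10 : 66 / Λ ^ 7 ≤ 1 := by
    rw [div_le_one (by positivity)]
    have h11 : Λ ^ 1 ≤ Λ ^ 7 := pow_le_pow_right₀ (by linarith) (by norm_num)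
    rw [pow_one] at h11
    linarith
  calc ℓ / Λ ^ A * (66 / Λ ^ 7) ≤ ℓ / Λ ^ A * 1 := mul_le_mul_of_nonneg_left h10 (by positivity)
    _ = ℓ / Λ ^ A := mul_one _

theorem four_maj (W n₀ : ℕ) (hW : 0 < W) (hc : Nat.Coprime n₀ W) (A B B' : ℕ) (hB : B ≤ B') :
    ∃ ℓ₀ : ℕ, ∀ ℓ : ℕ, ℓ₀ ≤ ℓ → ∀ (q : ℕ) (a : ℤ) (θ : ℝ), 0 < q → (q : ℝ) ≤ Real.log ℓ ^ B →
    |θ - a / q| ≤ Real.log ℓ ^ B / ℓ → ∀ u : ℕ, u ≤ 5 * ℓ →
    ‖∑ k ∈ range u, ((lpn W n₀ k - crm W n₀ (wB B' ℓ) k : ℝ) : ℂ) * e (k * θ)‖ ≤ ℓ / Real.log ℓ ^ A := by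
  obtain ⟨ℓ₁, hsw⟩ := swk W n₀ hW hc (A + 2 * B + 7) B
  obtain ⟨ℓ₂, hcr⟩ := crm_ap W n₀ hW hc (A + 2 * B + 7) B B' hB
  have hcast := tendsto_natCast_atTop_atTop (R := ℝ)
  have g1 : ∀ᶠ ℓ : ℕ in atTop, 66 ≤ Real.log ℓ :=
    (Real.tendsto_log_atTop.comp hcast).eventually_ge_atTop _
  obtain ⟨ℓ₃, hℓ₃⟩ := eventually_atTop.1 (g1.and (eventually_ge_atTop 1))
  have hφ : (0 : ℝ) < (Nat.totient W : ℝ) := by exact_mod_cast Nat.totient_pos.2 hW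
  have hW0 : (0 : ℝ) < W := by exact_mod_cast hW
  have hd1 : 1 ≤ dens W := by
    unfold Pool.Agent.Lib.MP_d57abb_nt.All.dens
    rw [one_le_div hφ]
    exact_mod_cast Nat.totient_le W
  have hd0 : 0 < dens W := by linarith
  refine ⟨max ℓ₁ (max ℓ₂ ℓ₃), fun ℓ hℓ q a θ hq hqB hθ u hu => ?_⟩
  have hℓa : ℓ₁ ≤ ℓ := (le_max_left _ _).trans hℓ
  have hℓb : ℓ₂ ≤ ℓ := (le_max_left _ _).trans ((le_max_right _ _).trans hℓ)
  have hℓc : ℓ₃ ≤ ℓ := (le_max_right _ _).trans ((le_max_right _ _).trans hℓ)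
  obtain ⟨hΛ, h1ℓ⟩ := hℓ₃ ℓ hℓc
  have hℓ1 : (1 : ℝ) ≤ ℓ := by exact_mod_cast h1ℓ
  have hℓ0 : (0 : ℝ) < ℓ := by linarith
  have hΛ0 : 0 < Real.log ℓ := by linarith
  have huR : (u : ℝ) ≤ 5 * ℓ := by exact_mod_cast hu
  have hqR : (0 : ℝ) < q := by exact_mod_cast hq
  have hkey : ∀ s v : ℕ, v ≤ 5 * ℓ →
      |∑ k ∈ (range v).filter (fun k => k ≡ s [MOD q]), (lpn W n₀ k - crm W n₀ (wB B' ℓ) k)| ≤
        2 * ((ℓ : ℝ) / Real.log ℓ ^ (A + 2 * B + 7)) := by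
    intro s v hv
    have h1 := hsw ℓ hℓa q hq hqB s v hv
    have h2 := hcr ℓ hℓb q hq hqB s v hv
    have h3 : ∑ k ∈ (range v).filter (fun k => k ≡ s [MOD q]), lpn W n₀ k =
        (∑ k ∈ (range v).filter (fun k => k ≡ s [MOD q]), lp (W * k + n₀)) / dens W := by
      rw [Finset.sum_div]
      rfl
    have h4 : (if Nat.Coprime (W * s + n₀) q then (v : ℝ) * Nat.totient W / (Nat.totient (W * q) : ℝ) else 0) =
        (if Nat.Coprime (W * s + n₀) q then (v : ℝ) * W / (Nat.totient (W * q) : ℝ) else 0) / dens W := by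
      split_ifs
      · unfold Pool.Agent.Lib.MP_d57abb_nt.All.dens
        have h5 : (0 : ℝ) < (Nat.totient (W * q) : ℝ) := by
          exact_mod_cast Nat.totient_pos.2 (Nat.mul_pos hW hq)
        field_simp
      · rw [zero_div]
    have h5 : |∑ k ∈ (range v).filter (fun k => k ≡ s [MOD q]), lpn W n₀ k -
        (if Nat.Coprime (W * s + n₀) q then (v : ℝ) * Nat.totient W / (Nat.totient (W * q) : ℝ) else 0)| ≤
        (ℓ : ℝ) / Real.log ℓ ^ (A + 2 * B + 7) := by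
      rw [h3, h4, ← sub_div, abs_div, abs_of_pos hd0]
      refine (div_le_self (abs_nonneg _) hd1).trans h1
    rw [Finset.sum_sub_distrib]
    have h6 : ∑ k ∈ (range v).filter (fun k => k ≡ s [MOD q]), lpn W n₀ k -
        ∑ k ∈ (range v).filter (fun k => k ≡ s [MOD q]), crm W n₀ (wB B' ℓ) k =
        (∑ k ∈ (range v).filter (fun k => k ≡ s [MOD q]), lpn W n₀ k -
          (if Nat.Coprime (W * s + n₀) q then (v : ℝ) * Nat.totient W / (Nat.totient (W * q) : ℝ) else 0)) -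
        (∑ k ∈ (range v).filter (fun k => k ≡ s [MOD q]), crm W n₀ (wB B' ℓ) k -
          (if Nat.Coprime (W * s + n₀) q then (v : ℝ) * Nat.totient W / (Nat.totient (W * q) : ℝ) else 0)) := by
      ring
    rw [h6]
    refine (abs_sub _ _).trans ?_
    linarith
  rw [FrMaj_split q hq a θ (fun k => ((lpn W n₀ k - crm W n₀ (wB B' ℓ) k : ℝ) : ℂ)) u]
  refine (norm_sum_le _ _).trans ?_
  have h5 : ∀ s ∈ range q, ‖e (a * s / q) * ∑ k ∈ range u,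
      (if k ≡ s [MOD q] then ((lpn W n₀ k - crm W n₀ (wB B' ℓ) k : ℝ) : ℂ) else 0) * e (k * (θ - a / q))‖ ≤
      2 * ((ℓ : ℝ) / Real.log ℓ ^ (A + 2 * B + 7)) * (1 + 2 * Real.pi * u * |θ - a / q|) := by
    intro s _
    rw [norm_mul, norm_e, one_mul]
    exact FrMaj_abel (fun k => lpn W n₀ k - crm W n₀ (wB B' ℓ) k) q s u _ _ fun v hv => hkey s v (hv.trans hu)
  refine (Finset.sum_le_sum h5).trans ?_
  rw [Finset.sum_const, card_range, nsmul_eq_mul]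
  exact FrMaj_num hℓ0 hΛ hqB hθ (Nat.cast_nonneg _) huR

end Pool.Agent.Lib.MP_d57abb_nt.EE
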