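import Mathlib
import Pool.Agent.Lib.MP_d57abb_nt.EE.Defs
import Pool.Agent.Lib.MP_2a816b_nt.Expo
import Pool.Agent.Lib.MP_d57abb_nt.All.VinI

/-!
# JOB TyI: sums of geometric sums over many steps

PROOF.  `nn x` (in `MP_2a816b_nt/Expo.lean`) is the distance of `x` to the nearest integer, `D u x = ∑_{k<u} e (k x)`, `norm_D_le` (`‖D u x‖ ≤ u`), `norm_D_mul_nn` (`‖D u x‖ * nn x ≤ 1/2`-type bound: see there).  Claim: for `q ≥ 1`, `Int.gcd a q = 1`, `|θ - a/q| ≤ 1/q²`, `M ≥ 1`,
`∑_{1 ≤ d ≤ T} min (M / d + 1) (1 / nn (d θ)) ≤ 50 (M / q + T + q) (1 + log (q T M + 2))`.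
Split `1 ≤ d ≤ T` into blocks of length at most `q/2` (or `q`); in a block starting after `h` the numbers `d θ` are separated: for `d ≠ d'` in the block, `nn ((d - d') θ) ≥ nn ((d-d') a / q) - |d-d'| / q² ≥ 1/q - 1/(2q) = 1/(2q)` if `|d - d'| ≤ q/2`
(`nn_far` in `All/VinI.lean` is exactly this).  So in a block the sum of `1 / nn (d θ)` without the (at most 2) smallest values is `≤ 2 ∑_{1 ≤ j ≤ q} 2 q / j ≤ 4 q (1 + log q)`, and the two smallest values are bounded by `M / d + 1`; in the FIRST block, `d ≤ q/2`, all `nn (d θ) ≥ 1/(2q)` (`nn_far`), so no exceptional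
terms: the block contributes `≤ 4 q (1 + log q) + 2 * 2 q`.  For the later blocks `h ≥ q/2`, `M / d ≤ M / h`: sum over the blocks `h = q/2, q, 3q/2, ...`: `≤ ∑_j (2 M * 2 / (j q) + 2 + 4 q (1 + log q)) ≤ C (M / q) (1 + log T) + C (T / q + 1) q (1 + log q)`.
Any absolute constant is fine (the statement has an existential constant `C`); a similar lemma for `∑ min` may already exist in `MP_2a816b_nt` or `All/Vin*.lean` (look for `typeI`, `min`, `nn`): use it if it helps.
-/

open Finset

namespace Pool.Agent.Lib.MP_d57abb_nt.EE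

open Pool.Agent.Lib.MP_2a816b_nt (e nn D)

private theorem TyI_harm (q : ℕ) : ∑ j ∈ Icc 1 q, (1 : ℝ) / (j : ℝ) ≤ 1 + Real.log q := by
  have h := harmonic_le_one_add_log q
  rw [harmonic_eq_sum_Icc] at h
  push_cast at h
  simpa [one_div] using h

private theorem TyI_C (q : ℕ) (hq : 0 < q) (θ : ℝ) (X : ℕ → ℝ) (S : Finset ℕ) (j : ℕ → ℕ)
    (hinj : Set.InjOn j S) (h1 : ∀ d ∈ S, 1 ≤ j d ∧ j d ≤ q) (hX : ∀ d, X d * nn (d * θ) ≤ 1)
    (hn : ∀ d ∈ S, (j d : ℝ) / (2 * q) ≤ nn (d * θ)) :
    ∑ d ∈ S, X d ≤ 2 * q * (1 + Real.log q) := by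
  have hq0 : (0 : ℝ) < q := by exact_mod_cast hq
  calc ∑ d ∈ S, X d ≤ ∑ d ∈ S, 2 * (q : ℝ) * (1 / (j d : ℝ)) := by
        refine Finset.sum_le_sum fun d hd => ?_
        have hj : (0 : ℝ) < j d := by exact_mod_cast (h1 d hd).1
        rcases le_or_gt (X d) 0 with h0 | h0
        · exact h0.trans (by positivity)
        · have h2 : X d * ((j d : ℝ) / (2 * q)) ≤ 1 :=
            (mul_le_mul_of_nonneg_left (hn d hd) h0.le).trans (hX d)
          rw [mul_one_div, le_div_iff₀ hj]
          have h3 : X d * ((j d : ℝ) / (2 * q)) * (2 * q) ≤ 1 * (2 * q) :=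
            mul_le_mul_of_nonneg_right h2 (by positivity)
          have h4 : X d * ((j d : ℝ) / (2 * q)) * (2 * q) = X d * j d := by field_simp
          linarith
    _ = 2 * (q : ℝ) * ∑ d ∈ S, 1 / (j d : ℝ) := by rw [Finset.mul_sum]
    _ ≤ 2 * (q : ℝ) * ∑ i ∈ Icc 1 q, 1 / (i : ℝ) := by
        refine mul_le_mul_of_nonneg_left ?_ (by positivity)
        rw [← Finset.sum_image (f := fun i : ℕ => 1 / (i : ℝ)) hinj]
        refine Finset.sum_le_sum_of_subset_of_nonneg ?_ fun i _ _ => by positivity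
        intro i hi
        obtain ⟨d, hd, rfl⟩ := Finset.mem_image.1 hi
        exact Finset.mem_Icc.2 (h1 d hd)
    _ ≤ _ := mul_le_mul_of_nonneg_left (TyI_harm q) (by positivity)

private theorem TyI_B (q : ℕ) (hq : 0 < q) (a : ℤ) (ha : Int.gcd a q = 1) (θ : ℝ)
    (hθ : |θ - a / q| ≤ 1 / (q : ℝ) ^ 2) (X : ℕ → ℝ) (S : Finset ℕ)
    (hS : ∀ d ∈ S, ∀ d' ∈ S, d < d' → 2 * (d' - d) ≤ q) (hX : ∀ d, X d * nn (d * θ) ≤ 1)
    (E : ℝ) (hE : 0 ≤ E) (hXE : ∀ d ∈ S, X d ≤ E) :
    ∑ d ∈ S, X d ≤ 2 * E + 4 * q * (1 + Real.log q) := by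
  have hq0 : (0 : ℝ) < q := by exact_mod_cast hq
  obtain ⟨s, hs⟩ : ∃ s : ℕ → ℝ, ∀ d, s d = d * θ - round (d * θ) := ⟨fun d => d * θ - round (d * θ), fun _ => rfl⟩
  obtain ⟨k, hk⟩ : ∃ k : ℕ → ℤ, ∀ d, k d = ⌊2 * q * s d⌋ := ⟨fun d => ⌊2 * q * s d⌋, fun _ => rfl⟩
  have hns : ∀ d : ℕ, nn (d * θ) = |s d| := fun d => by rw [hs]; rfl
  have hhalf : ∀ d, |s d| ≤ 1 / 2 := fun d => by
    rw [hs]
    exact abs_sub_round _
  have hk1 : ∀ d, (k d : ℝ) ≤ 2 * q * s d := fun d => by rw [hk]; exact Int.floor_le _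
  have hk2 : ∀ d, 2 * q * s d < (k d : ℝ) + 1 := fun d => by rw [hk]; exact Int.lt_floor_add_one _
  have hlt : ∀ d ∈ S, ∀ d' ∈ S, d < d' → k d ≠ k d' := by
    intro d hd d' hd' hdd he
    have h1 := All.nn_far q hq a ha θ hθ (d' - d) (by omega) (hS d hd d' hd' hdd)
    have h2 : nn (((d' - d : ℕ) : ℝ) * θ) ≤ |s d' - s d| := by
      have h3 := Pool.Agent.Lib.MP_2a816b_nt.nn_le (((d' - d : ℕ) : ℝ) * θ)
        (round ((d' : ℝ) * θ) - round ((d : ℝ) * θ))
      refine h3.trans (le_of_eq ?_)
      congr 1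
      rw [hs, hs, Nat.cast_sub hdd.le]
      push_cast
      ring
    have h4 : 1 ≤ |2 * q * s d - 2 * q * s d'| := by
      have e1 : |2 * q * s d - 2 * q * s d'| = 2 * q * |s d' - s d| := by
        have e2 : 2 * q * s d - 2 * q * s d' = -(2 * q * (s d' - s d)) := by ring
        rw [e2, abs_neg, abs_mul, abs_of_pos (show (0 : ℝ) < 2 * q by positivity)]
      rw [e1]
      have h5 : 2 * (q : ℝ) * (1 / (2 * q)) ≤ 2 * q * |s d' - s d| :=
        mul_le_mul_of_nonneg_left (h1.trans h2) (by positivity)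
      have h6 : 2 * (q : ℝ) * (1 / (2 * q)) = 1 := by field_simp
      linarith
    have h7 : |2 * q * s d - 2 * q * s d'| < 1 := by
      refine Int.abs_sub_lt_one_of_floor_eq_floor ?_
      rw [← hk, ← hk, he]
    linarith
  have hinj : ∀ d ∈ S, ∀ d' ∈ S, k d = k d' → d = d' := by
    intro d hd d' hd' he
    rcases lt_trichotomy d d' with h | h | h
    · exact absurd he (hlt d hd d' hd' h)
    · exact h
    · exact absurd he.symm (hlt d' hd' d hd h)
  -- the points with `k ≥ 1`
  have hP1 : ∑ d ∈ S.filter (fun d => 1 ≤ k d), X d ≤ 2 * q * (1 + Real.log q) := by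
    refine TyI_C q hq θ X _ (fun d => (k d).toNat) ?_ ?_ hX ?_
    · intro d hd d' hd' he
      rw [Finset.mem_coe, Finset.mem_filter] at hd hd'
      refine hinj d hd.1 d' hd'.1 ?_
      have h1 : (k d).toNat = (k d').toNat := he
      have := hd.2
      have := hd'.2
      omega
    · intro d hd
      rw [Finset.mem_filter] at hd
      have h1 : (k d : ℝ) ≤ q := by
        have h2 := le_trans (le_abs_self (s d)) (hhalf d)
        have h3 : 2 * q * s d ≤ 2 * q * (1 / 2) := mul_le_mul_of_nonneg_left h2 (by positivity)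
        linarith [hk1 d]
      have h2 : k d ≤ (q : ℤ) := by exact_mod_cast h1
      have := hd.2
      constructor <;> omega
    · intro d hd
      rw [Finset.mem_filter] at hd
      have h0 : ((k d).toNat : ℤ) = k d := Int.toNat_of_nonneg (by linarith [hd.2])
      have h1 : (((k d).toNat : ℕ) : ℝ) = (k d : ℝ) := by exact_mod_cast h0
      rw [h1, hns, div_le_iff₀ (by positivity)]
      have h2 := le_abs_self (s d)
      have h3 : 2 * q * s d ≤ 2 * q * |s d| := mul_le_mul_of_nonneg_left h2 (by positivity)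
      linarith [hk1 d]
  -- the points with `k ≤ -2`
  have hP2 : ∑ d ∈ (S.filter (fun d => ¬ 1 ≤ k d)).filter (fun d => k d ≤ -2), X d ≤
      2 * q * (1 + Real.log q) := by
    refine TyI_C q hq θ X _ (fun d => (-k d - 1).toNat) ?_ ?_ hX ?_
    · intro d hd d' hd' he
      rw [Finset.mem_coe, Finset.mem_filter, Finset.mem_filter] at hd hd'
      refine hinj d hd.1.1 d' hd'.1.1 ?_
      have h1 : (-k d - 1).toNat = (-k d' - 1).toNat := he
      have := hd.2
      have := hd'.2
      omega
    · intro d hd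
      rw [Finset.mem_filter, Finset.mem_filter] at hd
      have h1 : -(q : ℝ) < (k d : ℝ) + 1 := by
        have h2 : -(1 / 2) ≤ s d := by
          have := neg_abs_le (s d)
          linarith [hhalf d]
        have h3 : 2 * q * (-(1 / 2)) ≤ 2 * q * s d := mul_le_mul_of_nonneg_left h2 (by positivity)
        linarith [hk2 d]
      have h2 : -(q : ℤ) < k d + 1 := by exact_mod_cast h1
      have := hd.2
      constructor <;> omega
    · intro d hd
      rw [Finset.mem_filter, Finset.mem_filter] at hd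
      have h0 : ((-k d - 1).toNat : ℤ) = -k d - 1 := Int.toNat_of_nonneg (by linarith [hd.2])
      have h1 : (((-k d - 1).toNat : ℕ) : ℝ) = -(k d : ℝ) - 1 := by
        have h9 : (((-k d - 1).toNat : ℤ) : ℝ) = ((-k d - 1 : ℤ) : ℝ) := by rw [h0]
        push_cast at h9
        exact_mod_cast h9
      rw [h1, hns, div_le_iff₀ (by positivity)]
      have h2 := neg_le_abs (s d)
      have h3 : 2 * q * (-s d) ≤ 2 * q * |s d| := mul_le_mul_of_nonneg_left h2 (by positivity)
      linarith [hk2 d]
  -- the other points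
  have hP3 : ∑ d ∈ (S.filter (fun d => ¬ 1 ≤ k d)).filter (fun d => ¬ k d ≤ -2), X d ≤ 2 * E := by
    have hc : ((S.filter (fun d => ¬ 1 ≤ k d)).filter (fun d => ¬ k d ≤ -2)).card ≤ 2 := by
      have h1 : ((S.filter (fun d => ¬ 1 ≤ k d)).filter (fun d => ¬ k d ≤ -2)).card ≤
          ({0, -1} : Finset ℤ).card := by
        refine Finset.card_le_card_of_injOn k ?_ ?_
        · intro d hd
          rw [Finset.mem_coe, Finset.mem_filter, Finset.mem_filter] at hd
          rw [Finset.mem_coe, Finset.mem_insert, Finset.mem_singleton]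
          have := hd.2
          have := hd.1.2
          omega
        · intro d hd d' hd' he
          rw [Finset.mem_coe, Finset.mem_filter, Finset.mem_filter] at hd hd'
          exact hinj d hd.1.1 d' hd'.1.1 he
      exact h1.trans (by decide)
    calc ∑ d ∈ (S.filter (fun d => ¬ 1 ≤ k d)).filter (fun d => ¬ k d ≤ -2), X d
        ≤ ∑ _d ∈ (S.filter (fun d => ¬ 1 ≤ k d)).filter (fun d => ¬ k d ≤ -2), E := by
          refine Finset.sum_le_sum fun d hd => ?_
          rw [Finset.mem_filter, Finset.mem_filter] at hd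
          exact hXE d hd.1.1
      _ = (((S.filter (fun d => ¬ 1 ≤ k d)).filter (fun d => ¬ k d ≤ -2)).card : ℝ) * E := by
          rw [Finset.sum_const, nsmul_eq_mul]
      _ ≤ 2 * E := mul_le_mul_of_nonneg_right (by exact_mod_cast hc) hE
  rw [← Finset.sum_filter_add_sum_filter_not S (fun d => 1 ≤ k d),
    ← Finset.sum_filter_add_sum_filter_not (S.filter (fun d => ¬ 1 ≤ k d)) (fun d => k d ≤ -2)]
  linarith

theorem type_one : ∃ C : ℝ, 0 < C ∧ ∀ (q : ℕ) (a : ℤ) (θ : ℝ), 0 < q → Int.gcd a q = 1 →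
    |θ - a / q| ≤ 1 / (q : ℝ) ^ 2 → ∀ (T M : ℕ) (X : ℕ → ℝ), 1 ≤ T → 1 ≤ M →
    (∀ d, X d ≤ M / d + 1) → (∀ d, X d * nn (d * θ) ≤ 1) →
    ∑ d ∈ Icc 1 T, X d ≤ C * ((M : ℝ) / q + T + q) * (1 + Real.log (q + T + M)) ^ 2 := by
  refine ⟨18, by norm_num, ?_⟩
  intro q a θ hq ha hθ T M X hT hM hX1 hX2
  have hq0 : (0 : ℝ) < q := by exact_mod_cast hq
  have hq1 : (1 : ℝ) ≤ q := by exact_mod_cast hq
  have hT0 : (1 : ℝ) ≤ T := by exact_mod_cast hT
  have hM0 : (1 : ℝ) ≤ M := by exact_mod_cast hM
  obtain ⟨L, hL⟩ : ∃ L, L = 1 + Real.log (q + T + M) := ⟨_, rfl⟩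
  have hlog0 : 0 ≤ Real.log ((q : ℝ) + T + M) := Real.log_nonneg (by linarith)
  have hL1 : 1 ≤ L := by rw [hL]; linarith
  have hmono : ∀ n : ℕ, (n : ℝ) ≤ q + T + M → 1 + Real.log n ≤ L := by
    intro n hn
    rw [hL]
    rcases Nat.eq_zero_or_pos n with h | h
    · rw [h, Nat.cast_zero, Real.log_zero]
      linarith
    · have h1 : (0 : ℝ) < n := by exact_mod_cast h
      linarith [Real.log_le_log h1 hn]
  have hLq : 1 + Real.log q ≤ L := hmono q (by linarith)
  have hLT : 1 + Real.log T ≤ L := hmono T (by linarith)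
  have hmain : ∑ d ∈ Icc 1 T, X d ≤ 18 * ((M : ℝ) / q + T + q) * L := by
    rcases Nat.lt_or_ge 1 q with h2 | h2
    · -- q ≥ 2
      obtain ⟨b, hb⟩ : ∃ b, b = q / 2 := ⟨_, rfl⟩
      have hb1 : 1 ≤ b := by omega
      have h2b : 2 * b ≤ q := by omega
      have h3b : q ≤ 3 * b := by omega
      have hb0 : (0 : ℝ) < b := by exact_mod_cast hb1
      have h3b' : (q : ℝ) ≤ 3 * b := by exact_mod_cast h3b
      have hmaps : ∀ d ∈ Icc 1 T, (d - 1) / b ∈ range (T / b + 1) := by
        intro d hd
        rw [Finset.mem_Icc] at hd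
        rw [Finset.mem_range]
        have h4 : (d - 1) / b ≤ T / b := Nat.div_le_div_right (by omega)
        omega
      rw [← Finset.sum_fiberwise_of_maps_to hmaps]
      have hdiff : ∀ j, ∀ d ∈ (Icc 1 T).filter (fun d => (d - 1) / b = j),
          ∀ d' ∈ (Icc 1 T).filter (fun d => (d - 1) / b = j), d < d' → 2 * (d' - d) ≤ q := by
        intro j d hd d' hd' hdd
        rw [Finset.mem_filter, Finset.mem_Icc] at hd hd'
        have e1 := Nat.div_add_mod (d - 1) b
        have e2 := Nat.div_add_mod (d' - 1) b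
        have e3 := Nat.mod_lt (d - 1) hb1
        have e4 := Nat.mod_lt (d' - 1) hb1
        rw [hd.2] at e1
        rw [hd'.2] at e2
        omega
      have hblk : ∀ j ∈ range (T / b + 1), ∑ d ∈ (Icc 1 T).filter (fun d => (d - 1) / b = j), X d ≤
          (if j = 0 then 4 * (q : ℝ) else 0) + (2 * ((M : ℝ) / b) * (1 / (j : ℝ)) + 6 * q * L) := by
        intro j _
        have hqL : (q : ℝ) * (1 + Real.log q) ≤ q * L := mul_le_mul_of_nonneg_left hLq hq0.le
        have hqL1 : (1 : ℝ) ≤ q * L := by nlinarith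
        rcases Nat.eq_zero_or_pos j with hj | hj
        · subst hj
          have h5 := TyI_B q hq a ha θ hθ X _ (hdiff 0) hX2 (2 * q) (by positivity) (by
            intro d hd
            rw [Finset.mem_filter, Finset.mem_Icc] at hd
            have h6 : 2 * d ≤ q := by
              have e1 := Nat.div_add_mod (d - 1) b
              have e3 := Nat.mod_lt (d - 1) hb1
              rw [hd.2] at e1
              omega
            have h7 := All.nn_far q hq a ha θ hθ d (by omega) h6
            have h8 := hX2 d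
            rcases le_or_gt (X d) 0 with h0 | h0
            · exact h0.trans (by positivity)
            · have h9 : X d * (1 / (2 * q)) ≤ 1 := (mul_le_mul_of_nonneg_left h7 h0.le).trans h8
              have h10 : X d * (1 / (2 * q)) * (2 * q) ≤ 1 * (2 * q) :=
                mul_le_mul_of_nonneg_right h9 (by positivity)
              have h11 : X d * (1 / (2 * q)) * (2 * q) = X d := by field_simp
              linarith)
          rw [if_pos rfl, Nat.cast_zero, div_zero, mul_zero, zero_add]
          nlinarith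
        · have hj0 : (0 : ℝ) < j := by exact_mod_cast hj
          have hMb : 0 ≤ (M : ℝ) / b * (1 / j) := by positivity
          have h5 := TyI_B q hq a ha θ hθ X _ (hdiff j) hX2 ((M : ℝ) / b * (1 / j) + 1)
            (by positivity) (by
            intro d hd
            rw [Finset.mem_filter, Finset.mem_Icc] at hd
            have h6 : j * b ≤ d := by
              have e1 := Nat.div_mul_le_self (d - 1) b
              rw [hd.2] at e1
              omega
            have h7 : (j : ℝ) * b ≤ d := by exact_mod_cast h6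
            refine (hX1 d).trans ?_
            have h8 : (M : ℝ) / d ≤ (M : ℝ) / (j * b) :=
              div_le_div_of_nonneg_left (by linarith) (by positivity) h7
            have h9 : (M : ℝ) / (j * b) = (M : ℝ) / b * (1 / j) := by field_simp
            linarith)
          rw [if_neg (by omega), zero_add]
          nlinarith
      refine (Finset.sum_le_sum hblk).trans ?_
      rw [Finset.sum_add_distrib, Finset.sum_add_distrib, Finset.sum_const, ← Finset.mul_sum]
      have hA : ∑ j ∈ range (T / b + 1), (if j = 0 then 4 * (q : ℝ) else 0) ≤ 4 * q := by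
        rw [Finset.sum_ite_eq' (range (T / b + 1)) 0 (fun _ => 4 * (q : ℝ))]
        split_ifs
        · exact le_refl _
        · positivity
      have hB : ∑ j ∈ range (T / b + 1), 1 / (j : ℝ) ≤ L := by
        have h5 : ∑ j ∈ range (T / b + 1), 1 / (j : ℝ) = ∑ j ∈ Icc 1 (T / b), 1 / (j : ℝ) := by
          rw [Finset.sum_range_succ', Nat.cast_zero, div_zero, add_zero]
          rw [Finset.sum_bij (fun (i : ℕ) _ => i + 1)]
          · intro i hi
            rw [Finset.mem_range] at hi
            rw [Finset.mem_Icc]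
            omega
          · intro i _ i' _ h
            omega
          · intro i hi
            rw [Finset.mem_Icc] at hi
            exact ⟨i - 1, by rw [Finset.mem_range]; omega, by omega⟩
          · intro i _
            rfl
        rw [h5]
        refine (TyI_harm _).trans (hmono _ ?_)
        have h6 : ((T / b : ℕ) : ℝ) ≤ T := by exact_mod_cast Nat.div_le_self T b
        linarith
      have hMb : (M : ℝ) / b ≤ 3 * (M / q) := by
        rw [div_le_iff₀ hb0]
        have h5 : 3 * ((M : ℝ) / q) * b = (M : ℝ) * (3 * b / q) := by ring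
        rw [h5]
        have h6 : (1 : ℝ) ≤ 3 * b / q := by rw [le_div_iff₀ hq0]; linarith
        nlinarith
      have hTb : ((T / b : ℕ) : ℝ) * q ≤ 3 * T := by
        have h5 : (T / b) * q ≤ 3 * T := by
          calc (T / b) * q ≤ (T / b) * (3 * b) := Nat.mul_le_mul_left _ h3b
            _ = 3 * ((T / b) * b) := by ring
            _ ≤ 3 * T := Nat.mul_le_mul_left _ (Nat.div_mul_le_self T b)
        exact_mod_cast h5
      have hMb0 : 0 ≤ (M : ℝ) / b := by positivity
      have hS1 : 2 * ((M : ℝ) / b) * ∑ j ∈ range (T / b + 1), 1 / (j : ℝ) ≤ 6 * (M / q) * L := by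
        calc 2 * ((M : ℝ) / b) * ∑ j ∈ range (T / b + 1), 1 / (j : ℝ)
            ≤ 2 * ((M : ℝ) / b) * L := mul_le_mul_of_nonneg_left hB (by positivity)
          _ ≤ 2 * (3 * (M / q)) * L := by
              refine mul_le_mul_of_nonneg_right ?_ (by linarith)
              linarith
          _ = _ := by ring
      have hS2 : ((range (T / b + 1)).card • (6 * (q : ℝ) * L)) ≤ 18 * T * L + 6 * q * L := by
        rw [Finset.card_range, nsmul_eq_mul]
        push_cast
        have h5 : (((T / b : ℕ) : ℝ) + 1) * (6 * q * L) =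
          6 * (((T / b : ℕ) : ℝ) * q) * L + 6 * q * L := by ring
        rw [h5]
        have h6 : 6 * (((T / b : ℕ) : ℝ) * q) * L ≤ 6 * (3 * T) * L := by
          refine mul_le_mul_of_nonneg_right ?_ (by linarith)
          linarith
        linarith
      have hS3 : 4 * (q : ℝ) ≤ 4 * q * L := by nlinarith
      have hS4 : 0 ≤ (M : ℝ) / q * L := by positivity
      have hS5 : 0 ≤ (q : ℝ) * L := by positivity
      nlinarith
    · -- q = 1
      have hq' : q = 1 := by omega
      subst hq'
      rw [Nat.cast_one, div_one]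
      have h5 : ∑ d ∈ Icc 1 T, X d ≤ ∑ d ∈ Icc 1 T, ((M : ℝ) * (1 / (d : ℝ)) + 1) := by
        refine Finset.sum_le_sum fun d _ => ?_
        have := hX1 d
        rw [mul_one_div]
        exact this
      refine h5.trans ?_
      rw [Finset.sum_add_distrib, ← Finset.mul_sum, Finset.sum_const, Nat.card_Icc, nsmul_eq_mul,
        mul_one, Nat.add_sub_cancel]
      have h6 := TyI_harm T
      have h7 : (M : ℝ) * ∑ d ∈ Icc 1 T, 1 / (d : ℝ) ≤ M * L :=
        mul_le_mul_of_nonneg_left (h6.trans hLT) (by linarith)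
      nlinarith
  refine hmain.trans ?_
  rw [← hL]
  refine mul_le_mul_of_nonneg_left ?_ (by positivity)
  nlinarith

end Pool.Agent.Lib.MP_d57abb_nt.EE
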