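import Mathlib
import Pool.Agent.Lib.MP_d57abb_nt.EE.CrA
import Pool.Agent.Lib.MP_d57abb_nt.EE.TyI

/-!
# JOB FrMinC: the minor arcs for the model

PROOF.  `w = wB B' ℓ`, `S = PW W w`, `Λ = log ℓ`, `λ = log Λ`, `r = 2 ⌈λ²⌉`, `B = A + 5` (it does NOT depend on `B'`).
`crm W n₀ w k = cw W w * 1[no p ∈ S divides W k + n₀]`; Bonferroni as in `CrA` (job CrA, same formulas): `|1[..] - ∑_{T ⊆ S, |T| ≤ r} (-1)^|T| 1[∏T ∣ W k + n₀]| ≤ ∑_{T ⊆ S, |T| = r+1} 1[∏T ∣ W k + n₀]`.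
Sum over `k < u`: the error is at most `5 ℓ (∑ 1/p)^(r+1) / (r+1)! + (w+1)^(r+1) ≤ ℓ / Λ^(A + 2 B' + 3)` as in `CrA`.  Main part: `∑_{T} |∑_{k<u, d ∣ W k + n₀} e (k θ)|`, `d = ∏T ≤ w^r =: Tmax ≤ √ℓ` (different `T` have different `d`); `k = k_d + d j` (`W` is a unit modulo `d`, `0 ≤ k_d < d`), so the inner sum is
`e (k_d θ) D(J, d θ)` with `J ≤ u/d + 1 ≤ 5ℓ/d + 1`: its norm `X d` satisfies `X d ≤ 5 ℓ / d + 1` and `X d * nn (d θ) ≤ 1` (`norm_D_mul_nn`).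
Dirichlet (`Real.exists_rat_abs_sub_le_and_den_le θ (0 < Q₁)`) with `Q₁ = ⌊ℓ / Λ^B⌋`: `q ≤ Q₁`, `|θ - a/q| ≤ 1/((Q₁+1) q) ≤ Λ^B / (ℓ q)`; by the hypothesis `q > Λ^B` (otherwise `|θ - a/q| ≤ Λ^B / ℓ`, contradiction).  Also `1/((Q₁+1) q) ≤ 1/q²`.  So `type_one` (`M = 5 ℓ`, `T = Tmax`) gives
`≤ C (5ℓ / Λ^B + √ℓ + ℓ / Λ^B) (1 + log (7 ℓ))² ≤ C' ℓ / Λ^(B - 2)`.  Multiply by `cw W w ≤ Λ` (`cw_le` in CrA): `≤ ℓ / Λ^A` for `B = A + 5` and large `ℓ`.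
-/

open Finset Filter

namespace Pool.Agent.Lib.MP_d57abb_nt.EE

open Pool.Agent.Lib.MP_d57abb_nt.All
open Pool.Agent.Lib.MP_2a816b_nt (e)
open Pool.Agent.Lib.MP_2a816b_nt (e_add norm_e nn D norm_D_le norm_D_mul_nn nn_nonneg)
open Pool.Agent.Lib.MP_42948a_nt.OA (bon esy bon_ge bon_sub_le esy_le)

/-! ### Bonferroni -/

private theorem FrMinC_bon (S : Finset ℕ) (g : ℕ → ℝ) (h0 : ∀ p ∈ S, 0 ≤ g p)
    (h1 : ∀ p ∈ S, g p ≤ 1) (b : ℕ) :
    |∏ p ∈ S, (1 - g p) - bon S g (2 * b)| ≤ esy S g (2 * b + 1) := by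
  have h2 := bon_ge S g h0 h1 b
  have h3 := bon_sub_le S g h0 h1 b
  rw [abs_le]
  constructor <;> linarith

/-- the indicator of divisibility -/
private noncomputable def FrMinC_g (m p : ℕ) : ℝ := if p ∣ m then 1 else 0

private theorem FrMinC_g0 (m p : ℕ) : 0 ≤ FrMinC_g m p := by
  unfold FrMinC_g
  split_ifs <;> norm_num

private theorem FrMinC_g1 (m p : ℕ) : FrMinC_g m p ≤ 1 := by
  unfold FrMinC_g
  split_ifs <;> norm_num

private theorem FrMinC_prod (m : ℕ) (T : Finset ℕ) (hT : ∀ p ∈ T, p.Prime) :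
    ∏ p ∈ T, FrMinC_g m p = FrMinC_g m (∏ p ∈ T, p) := by
  unfold FrMinC_g
  by_cases h : ∀ p ∈ T, p ∣ m
  · have h1 : ∏ p ∈ T, p ∣ m := by
      refine Finset.prod_primes_dvd m (fun p hp => (hT p hp).prime) h
    rw [if_pos h1]
    exact Finset.prod_eq_one fun p hp => if_pos (h p hp)
  · have h1 : ¬ ∏ p ∈ T, p ∣ m := fun h2 => h fun p hp => (Finset.dvd_prod_of_mem _ hp).trans h2
    rw [if_neg h1]
    push Not at h
    obtain ⟨p, hp, hpm⟩ := h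
    exact Finset.prod_eq_zero hp (if_neg hpm)

private theorem FrMinC_one (m : ℕ) (S : Finset ℕ) :
    ∏ p ∈ S, (1 - FrMinC_g m p) = if ∀ p ∈ S, ¬ p ∣ m then 1 else 0 := by
  unfold FrMinC_g
  split_ifs with h
  · refine Finset.prod_eq_one fun p hp => ?_
    rw [if_neg (h p hp), sub_zero]
  · push Not at h
    obtain ⟨p, hp, hpm⟩ := h
    exact Finset.prod_eq_zero hp (by rw [if_pos hpm, sub_self])

/-! ### One residue class -/

private theorem FrMinC_res (W n₀ d : ℕ) (hd : 0 < d) (hc : Nat.Coprime W d) :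
    ∃ c < d, ∀ k, d ∣ W * k + n₀ ↔ k % d = c := by
  have : NeZero d := ⟨hd.ne'⟩
  obtain ⟨v, hv⟩ : ∃ v : ZMod d, (W : ZMod d) * v = 1 :=
    ⟨_, ZMod.coe_mul_inv_eq_one W hc⟩
  refine ⟨(-(n₀ : ZMod d) * v).val, ZMod.val_lt _, fun k => ?_⟩
  rw [← ZMod.natCast_eq_zero_iff]
  have h1 : k % d = (-(n₀ : ZMod d) * v).val ↔ (k : ZMod d) = -(n₀ : ZMod d) * v := by
    rw [← ZMod.val_natCast]
    exact (ZMod.val_injective d).eq_iff
  rw [h1]
  push_cast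
  constructor
  · intro h
    have h2 : (W : ZMod d) * k = -n₀ := by linear_combination h
    calc (k : ZMod d) = (W * v) * k := by rw [hv, one_mul]
      _ = (W * k) * v := by ring
      _ = -(n₀ : ZMod d) * v := by rw [h2]
  · intro h
    rw [h]
    calc (W : ZMod d) * (-(n₀ : ZMod d) * v) + n₀ = -(n₀ : ZMod d) * (W * v) + n₀ := by ring
      _ = 0 := by rw [hv]; ring

private theorem FrMinC_img (u d c : ℕ) (hd : 0 < d) (hc : c < d) :
    ∃ J : ℕ, J ≤ u / d + 1 ∧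
      (range u).filter (fun k => k % d = c) = (range J).image (fun j => c + d * j) := by
  refine ⟨(u + (d - 1 - c)) / d, ?_, ?_⟩
  · calc (u + (d - 1 - c)) / d ≤ (u + d) / d := Nat.div_le_div_right (by omega)
      _ = u / d + 1 := Nat.add_div_right u hd
  · ext k
    rw [mem_filter, mem_range, mem_image]
    constructor
    · rintro ⟨h1, h2⟩
      refine ⟨k / d, ?_, ?_⟩
      · rw [mem_range, Nat.lt_iff_add_one_le, Nat.le_div_iff_mul_le hd]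
        have h3 := Nat.div_add_mod k d
        rw [h2] at h3
        have h4 : (k / d + 1) * d = d * (k / d) + d := by ring
        rw [h4]
        omega
      · have h3 := Nat.div_add_mod k d
        rw [h2] at h3
        show c + d * (k / d) = k
        omega
    · rintro ⟨j, hj, rfl⟩
      rw [mem_range, Nat.lt_iff_add_one_le, Nat.le_div_iff_mul_le hd] at hj
      have h4 : (j + 1) * d = d * j + d := by ring
      rw [h4] at hj
      refine ⟨by show c + d * j < u; omega, ?_⟩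
      show (c + d * j) % d = c
      rw [Nat.add_mul_mod_self_left, Nat.mod_eq_of_lt hc]

/-- the exponential sum over one residue class -/
private noncomputable def FrMinC_X (W n₀ u : ℕ) (θ : ℝ) (d : ℕ) : ℝ :=
  if 0 < d ∧ Nat.Coprime W d then
    ‖∑ k ∈ (range u).filter (fun k => d ∣ W * k + n₀), e (k * θ)‖ else 0

private theorem FrMinC_X0 (W n₀ u : ℕ) (θ : ℝ) (d : ℕ) : 0 ≤ FrMinC_X W n₀ u θ d := by
  unfold FrMinC_X
  split_ifs
  · exact norm_nonneg _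
  · exact le_rfl

private theorem FrMinC_XD (W n₀ u : ℕ) (θ : ℝ) (d : ℕ) (h : 0 < d ∧ Nat.Coprime W d) :
    ∃ J : ℕ, J ≤ u / d + 1 ∧ FrMinC_X W n₀ u θ d = ‖D J (d * θ)‖ := by
  obtain ⟨c, hc, hcd⟩ := FrMinC_res W n₀ d h.1 h.2
  obtain ⟨J, hJ, hJi⟩ := FrMinC_img u d c h.1 hc
  refine ⟨J, hJ, ?_⟩
  unfold FrMinC_X
  rw [if_pos h]
  have h1 : (range u).filter (fun k => d ∣ W * k + n₀) = (range u).filter (fun k => k % d = c) :=
    filter_congr fun k _ => hcd k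
  rw [h1, hJi, sum_image]
  · have h2 : ∀ j ∈ range J, e (((c + d * j : ℕ) : ℝ) * θ) = e (c * θ) * e (j * (d * θ)) := by
      intro j _
      rw [← e_add]
      congr 1
      push_cast
      ring
    rw [sum_congr rfl h2, ← mul_sum, norm_mul, norm_e, one_mul]
    rfl
  · intro j _ j' _ hjj
    have h3 : c + d * j = c + d * j' := hjj
    exact Nat.eq_of_mul_eq_mul_left h.1 (Nat.add_left_cancel h3)

private theorem FrMinC_X1 (W n₀ u M : ℕ) (hu : u ≤ M) (θ : ℝ) (d : ℕ) :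
    FrMinC_X W n₀ u θ d ≤ M / d + 1 := by
  by_cases h : 0 < d ∧ Nat.Coprime W d
  · obtain ⟨J, hJ, hX⟩ := FrMinC_XD W n₀ u θ d h
    rw [hX]
    refine (norm_D_le J _).trans ?_
    have h1 : (J : ℝ) ≤ ((u / d : ℕ) : ℝ) + 1 := by exact_mod_cast hJ
    have h2 : ((u / d : ℕ) : ℝ) ≤ (u : ℝ) / d := Nat.cast_div_le
    have h3 : (u : ℝ) / d ≤ (M : ℝ) / d :=
      div_le_div_of_nonneg_right (by exact_mod_cast hu) (Nat.cast_nonneg _)
    linarith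
  · unfold FrMinC_X
    rw [if_neg h]
    positivity

private theorem FrMinC_X2 (W n₀ u : ℕ) (θ : ℝ) (d : ℕ) :
    FrMinC_X W n₀ u θ d * nn (d * θ) ≤ 1 := by
  by_cases h : 0 < d ∧ Nat.Coprime W d
  · obtain ⟨J, hJ, hX⟩ := FrMinC_XD W n₀ u θ d h
    rw [hX]
    have h1 := norm_D_mul_nn J (d * θ)
    have h2 : 0 ≤ ‖D J (d * θ)‖ * nn (d * θ) := mul_nonneg (norm_nonneg _) (nn_nonneg _)
    linarith
  · unfold FrMinC_X
    rw [if_neg h, zero_mul]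
    norm_num

private theorem FrMinC_cnt (W n₀ u d : ℕ) (hd : 0 < d) (hc : Nat.Coprime W d) :
    (((range u).filter (fun k => d ∣ W * k + n₀)).card : ℝ) ≤ u / d + 1 := by
  obtain ⟨c, hc, hcd⟩ := FrMinC_res W n₀ d hd hc
  obtain ⟨J, hJ, hJi⟩ := FrMinC_img u d c hd hc
  have h1 : (range u).filter (fun k => d ∣ W * k + n₀) = (range u).filter (fun k => k % d = c) :=
    filter_congr fun k _ => hcd k
  rw [h1, hJi]
  have h2 : (((range J).image (fun j => c + d * j)).card : ℝ) ≤ J := by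
    have := Finset.card_image_le (s := range J) (f := fun j => c + d * j)
    rw [card_range] at this
    exact_mod_cast this
  have h3 : (J : ℝ) ≤ ((u / d : ℕ) : ℝ) + 1 := by exact_mod_cast hJ
  have h4 : ((u / d : ℕ) : ℝ) ≤ (u : ℝ) / d := Nat.cast_div_le
  linarith

/-! ### The two sums -/

private theorem FrMinC_PW {W w p : ℕ} (hp : p ∈ PW W w) : p.Prime ∧ p ≤ w ∧ ¬ p ∣ W := by
  unfold PW at hp
  rw [mem_filter, mem_Icc] at hp
  exact ⟨hp.2.1, hp.1.2, hp.2.2⟩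

private theorem FrMinC_T {W w : ℕ} {T : Finset ℕ} (hT : T ⊆ PW W w) :
    0 < ∏ p ∈ T, p ∧ Nat.Coprime W (∏ p ∈ T, p) ∧ ∏ p ∈ T, p ≤ w ^ T.card := by
  refine ⟨Finset.prod_pos fun p hp => (FrMinC_PW (hT hp)).1.pos, ?_, ?_⟩
  · refine Nat.Coprime.prod_right fun p hp => ?_
    have h := FrMinC_PW (hT hp)
    exact ((Nat.Prime.coprime_iff_not_dvd h.1).2 h.2.2).symm
  · exact Finset.prod_le_pow_card _ _ _ fun p hp => (FrMinC_PW (hT hp)).2.1

private theorem FrMinC_err (W n₀ w u n : ℕ) :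
    ∑ k ∈ range u, esy (PW W w) (FrMinC_g (W * k + n₀)) n ≤
      u * esy (PW W w) (fun p => 1 / (p : ℝ)) n + (w : ℝ) ^ n := by
  unfold esy
  rw [Finset.sum_comm]
  have h1 : ∀ T ∈ (PW W w).powersetCard n, ∑ k ∈ range u, ∏ p ∈ T, FrMinC_g (W * k + n₀) p ≤
      u * ∏ p ∈ T, (1 / (p : ℝ)) + 1 := by
    intro T hT
    have hTS := (mem_powersetCard.1 hT).1
    obtain ⟨hd, hc, -⟩ := FrMinC_T hTS
    have h2 : ∀ k ∈ range u, ∏ p ∈ T, FrMinC_g (W * k + n₀) p =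
        if ∏ p ∈ T, p ∣ W * k + n₀ then 1 else 0 := fun k _ =>
      FrMinC_prod _ T fun p hp => (FrMinC_PW (hTS hp)).1
    rw [sum_congr rfl h2, ← sum_filter, sum_const, nsmul_eq_mul, mul_one]
    refine (FrMinC_cnt W n₀ u _ hd hc).trans (le_of_eq ?_)
    rw [Finset.prod_div_distrib, Finset.prod_const_one]
    push_cast
    rw [mul_one_div]
  refine (sum_le_sum h1).trans ?_
  rw [sum_add_distrib, ← mul_sum, sum_const, nsmul_eq_mul, mul_one, card_powersetCard]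
  have h3 : ((PW W w).card.choose n : ℝ) ≤ (w : ℝ) ^ n := by
    have h4 : (PW W w).card ≤ w := by
      unfold PW
      refine (card_filter_le _ _).trans ?_
      rw [Nat.card_Icc]
      omega
    have h5 : (PW W w).card.choose n ≤ w ^ n :=
      (Nat.choose_le_pow _ _).trans (Nat.pow_le_pow_left h4 n)
    exact_mod_cast h5
  linarith

private theorem FrMinC_main (W n₀ w u r : ℕ) (hw : 1 ≤ w) (θ : ℝ) :
    ‖∑ k ∈ range u, ((bon (PW W w) (FrMinC_g (W * k + n₀)) r : ℝ) : ℂ) * e (k * θ)‖ ≤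
      ∑ d ∈ Icc 1 (w ^ r), FrMinC_X W n₀ u θ d := by
  have h1 : ∑ k ∈ range u, ((bon (PW W w) (FrMinC_g (W * k + n₀)) r : ℝ) : ℂ) * e (k * θ) =
      ∑ j ∈ range (r + 1), (-1 : ℂ) ^ j * ∑ T ∈ (PW W w).powersetCard j,
        ∑ k ∈ (range u).filter (fun k => ∏ p ∈ T, p ∣ W * k + n₀), e (k * θ) := by
    have h2 : ∀ k ∈ range u, ((bon (PW W w) (FrMinC_g (W * k + n₀)) r : ℝ) : ℂ) * e (k * θ) =
        ∑ j ∈ range (r + 1), (-1 : ℂ) ^ j * ∑ T ∈ (PW W w).powersetCard j,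
          if ∏ p ∈ T, p ∣ W * k + n₀ then e (k * θ) else 0 := by
      intro k _
      unfold bon esy
      push_cast
      rw [sum_mul]
      refine sum_congr rfl fun j _ => ?_
      rw [mul_assoc, sum_mul]
      congr 1
      refine sum_congr rfl fun T hT => ?_
      have h3 := FrMinC_prod (W * k + n₀) T
        fun p hp => (FrMinC_PW ((mem_powersetCard.1 hT).1 hp)).1
      have h4 : ∏ p ∈ T, ((FrMinC_g (W * k + n₀) p : ℝ) : ℂ) =
          ((FrMinC_g (W * k + n₀) (∏ p ∈ T, p) : ℝ) : ℂ) := by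
        rw [← h3]
        push_cast
        rfl
      rw [h4]
      unfold FrMinC_g
      split_ifs
      · rw [Complex.ofReal_one, one_mul]
      · rw [Complex.ofReal_zero, zero_mul]
    rw [sum_congr rfl h2, sum_comm]
    refine sum_congr rfl fun j _ => ?_
    rw [← mul_sum, sum_comm]
    congr 1
    refine sum_congr rfl fun T _ => ?_
    rw [sum_filter]
  rw [h1]
  have h2 : ∀ j ∈ range (r + 1), ‖(-1 : ℂ) ^ j * ∑ T ∈ (PW W w).powersetCard j,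
      ∑ k ∈ (range u).filter (fun k => ∏ p ∈ T, p ∣ W * k + n₀), e (k * θ)‖ ≤
      ∑ T ∈ (PW W w).powersetCard j, FrMinC_X W n₀ u θ (∏ p ∈ T, p) := by
    intro j _
    rw [norm_mul, norm_pow, norm_neg, norm_one, one_pow, one_mul]
    refine (norm_sum_le _ _).trans (sum_le_sum fun T hT => ?_)
    obtain ⟨hd, hc, -⟩ := FrMinC_T (mem_powersetCard.1 hT).1
    unfold FrMinC_X
    rw [if_pos ⟨hd, hc⟩]
  refine (norm_sum_le _ _).trans ((sum_le_sum h2).trans ?_)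
  rw [← sum_biUnion (fun i _ j _ hij => pairwise_disjoint_powersetCard _ hij)]
  set U := (range (r + 1)).biUnion (fun j => (PW W w).powersetCard j) with hU
  have hU1 : ∀ T ∈ U, T ⊆ PW W w ∧ T.card ≤ r := by
    intro T hT
    obtain ⟨j, hj, hT⟩ := mem_biUnion.1 hT
    rw [mem_powersetCard] at hT
    rw [mem_range] at hj
    exact ⟨hT.1, by omega⟩
  have hinj : Set.InjOn (fun T : Finset ℕ => ∏ p ∈ T, p) U := by
    intro T hT T' hT' h
    have h3 := Nat.primeFactors_prod (s := T) fun p hp => (FrMinC_PW ((hU1 T hT).1 hp)).1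
    have h4 := Nat.primeFactors_prod (s := T') fun p hp => (FrMinC_PW ((hU1 T' hT').1 hp)).1
    have h5 : ∏ p ∈ T, p = ∏ p ∈ T', p := h
    rw [← h3, ← h4, h5]
  have h3 : ∑ T ∈ U, FrMinC_X W n₀ u θ (∏ p ∈ T, p) =
      ∑ d ∈ U.image (fun T : Finset ℕ => ∏ p ∈ T, p), FrMinC_X W n₀ u θ d :=
    (sum_image hinj).symm
  rw [h3]
  refine sum_le_sum_of_subset_of_nonneg ?_ fun d _ _ => FrMinC_X0 W n₀ u θ d
  intro d hd
  obtain ⟨T, hT, rfl⟩ := mem_image.1 hd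
  obtain ⟨hTS, hTr⟩ := hU1 T hT
  obtain ⟨hd0, -, hdw⟩ := FrMinC_T hTS
  rw [mem_Icc]
  exact ⟨hd0, hdw.trans (Nat.pow_le_pow_right hw hTr)⟩

private theorem FrMinC_split (W n₀ w u b : ℕ) (hw : 1 ≤ w) (θ : ℝ) :
    ‖∑ k ∈ range u, ((crm W n₀ w k : ℝ) : ℂ) * e (k * θ)‖ ≤
      cw W w * (∑ d ∈ Icc 1 (w ^ (2 * b)), FrMinC_X W n₀ u θ d +
        (u * esy (PW W w) (fun p => 1 / (p : ℝ)) (2 * b + 1) + (w : ℝ) ^ (2 * b + 1))) := by
  have hcw : 0 ≤ cw W w := zero_le_one.trans (one_le_cw W w)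
  have h1 : ∀ k ∈ range u, ((crm W n₀ w k : ℝ) : ℂ) * e (k * θ) =
      (cw W w : ℂ) * (((bon (PW W w) (FrMinC_g (W * k + n₀)) (2 * b) : ℝ) : ℂ) * e (k * θ) +
        ((∏ p ∈ PW W w, (1 - FrMinC_g (W * k + n₀) p) -
          bon (PW W w) (FrMinC_g (W * k + n₀)) (2 * b) : ℝ) : ℂ) * e (k * θ)) := by
    intro k _
    have h2 : crm W n₀ w k = cw W w * ∏ p ∈ PW W w, (1 - FrMinC_g (W * k + n₀) p) := by
      rw [FrMinC_one]
      unfold crm
      split_ifs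
      · rw [mul_one]
      · rw [mul_zero]
    rw [h2]
    push_cast
    ring
  rw [sum_congr rfl h1, ← mul_sum, norm_mul, Complex.norm_real, Real.norm_of_nonneg hcw]
  refine mul_le_mul_of_nonneg_left ?_ hcw
  rw [sum_add_distrib]
  refine (norm_add_le _ _).trans (add_le_add (FrMinC_main W n₀ w u (2 * b) hw θ) ?_)
  refine (norm_sum_le _ _).trans (le_trans (sum_le_sum fun k _ => ?_) (FrMinC_err W n₀ w u _))
  rw [norm_mul, norm_e, mul_one, Complex.norm_real, Real.norm_eq_abs]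
  exact FrMinC_bon _ _ (fun p _ => FrMinC_g0 _ p) (fun p _ => FrMinC_g1 _ p) b

/-! ### Numbers -/

private theorem FrMinC_recip (W w : ℕ) : ∑ p ∈ PW W w, 1 / (p : ℝ) ≤ 1 + Real.log w := by
  have h1 : ∑ p ∈ PW W w, 1 / (p : ℝ) ≤ ∑ m ∈ Icc 1 w, 1 / (m : ℝ) := by
    refine sum_le_sum_of_subset_of_nonneg ?_ fun m _ _ => by positivity
    unfold PW
    exact filter_subset _ _
  have h2 := harmonic_le_one_add_log w
  rw [harmonic_eq_sum_Icc] at h2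
  push_cast at h2
  simp only [one_div] at h1 ⊢
  exact h1.trans h2

private theorem FrMinC_esy (W w n : ℕ) (y : ℝ) (hy : 1 + Real.log w ≤ y) :
    esy (PW W w) (fun p => 1 / (p : ℝ)) n ≤ Real.exp (3 * y - n) := by
  have h1 := esy_le (PW W w) (fun p => 1 / (p : ℝ)) (fun p _ => by positivity) n
  have h0 : 0 ≤ ∑ p ∈ PW W w, 1 / (p : ℝ) := sum_nonneg fun p _ => by positivity
  have h2 : ∑ p ∈ PW W w, 1 / (p : ℝ) ≤ y := (FrMinC_recip W w).trans hy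
  have hy0 : 0 ≤ y := h0.trans h2
  have h3 : (∑ p ∈ PW W w, 1 / (p : ℝ)) ^ n / (n.factorial : ℝ) ≤ y ^ n / (n.factorial : ℝ) :=
    div_le_div_of_nonneg_right (pow_le_pow_left₀ h0 h2 n) (Nat.cast_nonneg _)
  have h4 : (Real.exp 1 * y) ^ n / (n.factorial : ℝ) ≤ Real.exp (Real.exp 1 * y) :=
    Real.pow_div_factorial_le_exp _ (by positivity) n
  have h5 : y ^ n / (n.factorial : ℝ) =
      (Real.exp 1 * y) ^ n / (n.factorial : ℝ) * Real.exp (-(n : ℝ)) := by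
    rw [mul_pow, ← Real.exp_nat_mul, mul_one, Real.exp_neg]
    have : Real.exp (n : ℝ) ≠ 0 := (Real.exp_pos _).ne'
    field_simp
  calc esy (PW W w) (fun p => 1 / (p : ℝ)) n ≤ y ^ n / (n.factorial : ℝ) := h1.trans h3
    _ ≤ Real.exp (Real.exp 1 * y) * Real.exp (-(n : ℝ)) := by
        rw [h5]
        exact mul_le_mul_of_nonneg_right h4 (Real.exp_pos _).le
    _ = Real.exp (Real.exp 1 * y - n) := by rw [← Real.exp_add, sub_eq_add_neg]
    _ ≤ Real.exp (3 * y - n) := by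
        refine Real.exp_le_exp.2 ?_
        have : Real.exp 1 ≤ 3 := by linarith [Real.exp_one_lt_d9]
        nlinarith

private theorem FrMinC_ev (A B' : ℕ) (C : ℝ) (hC : 0 < C) {Λ x : ℝ} (hx : Real.exp x = Λ)
    (hX : 240 * ((B' : ℝ) + 1) + 5 * (A + 5) + 3 * B' + 56 * C + 10 ≤ x) :
    4 ≤ Λ ∧ 56 * C ≤ Λ ∧ 1 ≤ x ∧ (2 * x ^ 2 + 3) * (B' * x) ≤ Λ / 2 ∧
      2 + 3 + 3 * B' * x + (A + 2) * x ≤ 2 * x ^ 2 ∧ (A + 5) * x ≤ Λ / 2 := by
  have hA : (0 : ℝ) ≤ A := Nat.cast_nonneg A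
  have hB : (0 : ℝ) ≤ B' := Nat.cast_nonneg B'
  have hx1 : 1 ≤ x := by nlinarith
  have hx0 : 0 ≤ x := by linarith
  have h1 : x + 1 ≤ Λ := by rw [← hx]; exact Real.add_one_le_exp x
  have h4 : x ^ 4 / 24 ≤ Λ := by
    have := Real.pow_div_factorial_le_exp x hx0 4
    rw [hx] at this
    norm_num [Nat.factorial] at this
    exact this
  have hBx : 240 * (B' + 1 : ℝ) ≤ x := by nlinarith
  have hAx : 5 * (A + 5 : ℝ) ≤ x := by nlinarith
  refine ⟨by linarith, by nlinarith, hx1, ?_, ?_, ?_⟩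
  · have h5 : (2 * x ^ 2 + 3) * (B' * x) ≤ 5 * x ^ 2 * (B' * x) := by
      refine mul_le_mul_of_nonneg_right ?_ (by positivity)
      nlinarith
    have h6 : 5 * x ^ 2 * (B' * x) ≤ x ^ 4 / 48 := by
      have h7 : 240 * (B' : ℝ) ≤ x := by linarith
      have h8 : 0 ≤ x ^ 3 := by positivity
      nlinarith [mul_le_mul_of_nonneg_right h7 h8]
    linarith
  · have h5 : (5 + 3 * B' + A + 2 : ℝ) ≤ x := by nlinarith
    nlinarith [mul_le_mul_of_nonneg_right h5 hx0]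
  · have h5 : (A + 5 : ℝ) * x ≤ x ^ 2 / 5 := by
      nlinarith [mul_le_mul_of_nonneg_right hAx hx0]
    have h6 : x ^ 2 ≤ x ^ 4 / 100 := by
      have h7 : 100 ≤ x ^ 2 := by nlinarith
      nlinarith [mul_le_mul_of_nonneg_right h7 (sq_nonneg x)]
    nlinarith

private theorem FrMinC_log {ℓ Λ q T M Y : ℝ} (heΛ : Real.exp Λ = ℓ) (h4 : 4 ≤ Λ) (hYℓ : Y ≤ ℓ)
    (hq1 : 1 ≤ q) (hqle : q ≤ Y) (hT : 0 ≤ T) (hTle : T ≤ Y) (hM : M = 5 * ℓ) :
    0 ≤ 1 + Real.log (q + T + M) ∧ 1 + Real.log (q + T + M) ≤ 2 * Λ := by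
  have hℓ0 : 0 < ℓ := by rw [← heΛ]; exact Real.exp_pos _
  have h2 : (7 : ℝ) ≤ Real.exp 2 := by
    have h5 := Real.exp_one_gt_d9
    have h6 : Real.exp 2 = Real.exp 1 * Real.exp 1 := by rw [← Real.exp_add]; norm_num
    rw [h6]
    nlinarith
  have h1 : q + T + M ≤ Real.exp (2 + Λ) := by
    rw [Real.exp_add, heΛ]
    have h3 : 7 * ℓ ≤ Real.exp 2 * ℓ := mul_le_mul_of_nonneg_right h2 hℓ0.le
    linarith
  have h3 : 1 ≤ q + T + M := by linarith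
  have h5 : Real.log (q + T + M) ≤ 2 + Λ := by
    rw [Real.log_le_iff_le_exp (by linarith)]
    exact h1
  have h6 := Real.log_nonneg h3
  constructor <;> linarith

private theorem FrMinC_fin {ℓ Λ C c m s t : ℝ} (A : ℕ) (hℓ0 : 0 < ℓ) (h4 : 4 ≤ Λ) (hC : 0 < C)
    (h56 : 56 * C ≤ Λ) (hc : c ≤ Λ) (hm : m ≤ C * (7 * (ℓ / Λ ^ (A + 5))) * (2 * Λ) ^ 2)
    (hs : s ≤ ℓ / Λ ^ (A + 2)) (ht : t ≤ ℓ / Λ ^ (A + 5)) (hm0 : 0 ≤ m) (hs0 : 0 ≤ s)
    (ht0 : 0 ≤ t) : c * (m + (s + t)) ≤ ℓ / Λ ^ A := by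
  have hΛ0 : 0 < Λ := by linarith
  have hpowA : Λ ^ (A + 5) = Λ ^ A * Λ ^ 5 := pow_add _ _ _
  have hpowA2 : Λ ^ (A + 2) = Λ ^ A * Λ ^ 2 := pow_add _ _ _
  have hΛA : 0 < Λ ^ A := by positivity
  calc c * (m + (s + t))
      ≤ Λ * (C * (7 * (ℓ / Λ ^ (A + 5))) * (2 * Λ) ^ 2 + (ℓ / Λ ^ (A + 2) + ℓ / Λ ^ (A + 5))) := by
        refine mul_le_mul hc ?_ (by positivity) hΛ0.le
        exact add_le_add hm (add_le_add hs ht)
    _ = (ℓ / Λ ^ A) * (28 * C / Λ ^ 2 + 1 / Λ + 1 / Λ ^ 4) := by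
        rw [hpowA, hpowA2]
        field_simp
        ring
    _ ≤ (ℓ / Λ ^ A) * 1 := by
        refine mul_le_mul_of_nonneg_left ?_ (by positivity)
        have h1 : 28 * C / Λ ^ 2 ≤ 1 / 8 := by
          rw [div_le_div_iff₀ (by positivity) (by norm_num)]
          nlinarith
        have h2 : 1 / Λ ≤ 1 / 4 := one_div_le_one_div_of_le (by norm_num) h4
        have h3 : 1 / Λ ^ 4 ≤ 1 / 4 := by
          refine one_div_le_one_div_of_le (by norm_num) ?_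
          calc (4 : ℝ) ≤ Λ := h4
            _ = Λ ^ 1 := (pow_one _).symm
            _ ≤ Λ ^ 4 := pow_le_pow_right₀ (by linarith) (by norm_num)
        linarith
    _ = ℓ / Λ ^ A := mul_one _

private theorem FrMinC_dir {ℓ P θ : ℝ} (hPℓ : 1 ≤ ℓ / P)
    (hθ : ∀ q : ℕ, 0 < q → (q : ℝ) ≤ P → ∀ a : ℤ, P / ℓ < |θ - a / q|) :
    ∃ (q : ℕ) (a : ℤ), 0 < q ∧ Int.gcd a q = 1 ∧ |θ - a / q| ≤ 1 / (q : ℝ) ^ 2 ∧ P < q ∧
      (q : ℝ) ≤ ℓ / P := by
  set Q := ⌊ℓ / P⌋₊ with hQ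
  have hQ1 : 0 < Q := Nat.floor_pos.2 hPℓ
  have hQle : (Q : ℝ) ≤ ℓ / P := Nat.floor_le (by linarith)
  have hQlt : ℓ / P < Q + 1 := Nat.lt_floor_add_one _
  obtain ⟨ρ, hρ1, hρ2⟩ := Real.exists_rat_abs_sub_le_and_den_le θ hQ1
  have hden : 0 < ρ.den := ρ.den_pos
  have hden' : (0 : ℝ) < ρ.den := by exact_mod_cast hden
  have hden1 : (1 : ℝ) ≤ ρ.den := by exact_mod_cast hden
  have hcast : ((ρ : ℚ) : ℝ) = (ρ.num : ℝ) / ρ.den := Rat.cast_def ρ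
  rw [hcast] at hρ1
  have hq : (ρ.den : ℝ) ≤ Q := by exact_mod_cast hρ2
  refine ⟨ρ.den, ρ.num, hden, ρ.reduced, ?_, ?_, hq.trans hQle⟩
  · refine hρ1.trans (one_div_le_one_div_of_le (by positivity) ?_)
    rw [sq]
    exact mul_le_mul_of_nonneg_right (by linarith) hden'.le
  · by_contra hcon
    rw [not_lt] at hcon
    have h1 := hθ ρ.den hden hcon ρ.num
    have h3 : ℓ / P ≤ ((Q : ℝ) + 1) * ρ.den := by
      have h4 : (Q : ℝ) + 1 ≤ ((Q : ℝ) + 1) * ρ.den :=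
        le_mul_of_one_le_right (by positivity) hden1
      linarith
    have h5 : P / ℓ = 1 / (ℓ / P) := (one_div_div _ _).symm
    have h2 : 1 / (((Q : ℝ) + 1) * ρ.den) ≤ P / ℓ := by
      rw [h5]
      exact one_div_le_one_div_of_le (by linarith) h3
    exact absurd (h1.trans_le (hρ1.trans h2)) (lt_irrefl _)

theorem four_min_crm (A : ℕ) : ∃ B : ℕ, ∀ B' W n₀ : ℕ, 0 < W → Nat.Coprime n₀ W → ∃ ℓ₀ : ℕ, ∀ ℓ : ℕ, ℓ₀ ≤ ℓ →
    ∀ θ : ℝ, (∀ q : ℕ, 0 < q → (q : ℝ) ≤ Real.log ℓ ^ B → ∀ a : ℤ, Real.log ℓ ^ B / ℓ < |θ - a / q|) →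
    ∀ u : ℕ, u ≤ 5 * ℓ →
    ‖∑ k ∈ range u, ((crm W n₀ (wB B' ℓ) k : ℝ) : ℂ) * e (k * θ)‖ ≤ ℓ / Real.log ℓ ^ A := by
  refine ⟨A + 5, fun B' W n₀ _ _ => ?_⟩
  obtain ⟨C, hC, hty⟩ := type_one
  obtain ⟨ℓ₁, hcw⟩ := cw_le W B'
  set X0 : ℝ := 240 * ((B' : ℝ) + 1) + 5 * (A + 5) + 3 * B' + 56 * C + 10 with hX0
  refine ⟨max ℓ₁ ⌈Real.exp (Real.exp X0)⌉₊, fun ℓ hℓ θ hθ u hu => ?_⟩
  have hℓ1 : ℓ₁ ≤ ℓ := (le_max_left _ _).trans hℓ
  have hℓ2 : Real.exp (Real.exp X0) ≤ ℓ := by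
    have h1 : ⌈Real.exp (Real.exp X0)⌉₊ ≤ ℓ := (le_max_right _ _).trans hℓ
    exact (Nat.le_ceil _).trans (by exact_mod_cast h1)
  have hℓ0 : (0 : ℝ) < ℓ := (Real.exp_pos _).trans_le hℓ2
  set Λ := Real.log ℓ with hΛ
  have hΛ1 : Real.exp X0 ≤ Λ := by
    rw [hΛ, Real.le_log_iff_exp_le hℓ0]
    exact hℓ2
  have hΛ0 : 0 < Λ := (Real.exp_pos _).trans_le hΛ1
  set x := Real.log Λ with hx
  have hx1 : X0 ≤ x := by
    rw [hx, Real.le_log_iff_exp_le hΛ0]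
    exact hΛ1
  have hex : Real.exp x = Λ := Real.exp_log hΛ0
  have heΛ : Real.exp Λ = ℓ := Real.exp_log hℓ0
  obtain ⟨h4, h56, hx11, hev1, hev2, hev3⟩ := FrMinC_ev A B' C hC hex hx1
  have hx0 : 0 ≤ x := by linarith
  have hpow : ∀ k : ℕ, Λ ^ k = Real.exp (k * x) := by
    intro k
    rw [← hex, ← Real.exp_nat_mul]
  set w := wB B' ℓ with hw
  have hwle : (w : ℝ) ≤ Λ ^ B' := by
    rw [hw]
    unfold wB
    exact Nat.floor_le (by positivity)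
  have hw1 : 1 ≤ w := by
    rw [hw]
    unfold wB
    rw [Nat.one_le_floor_iff]
    exact one_le_pow₀ (by linarith)
  have hw0 : (0 : ℝ) < w := by exact_mod_cast hw1
  have hlw : Real.log w ≤ B' * x := by
    rw [Real.log_le_iff_le_exp hw0, ← hpow]
    exact hwle
  set b := ⌈x ^ 2⌉₊ with hb
  have hb1 : x ^ 2 ≤ b := Nat.le_ceil _
  have hb2 : (b : ℝ) < x ^ 2 + 1 := Nat.ceil_lt_add_one (by positivity)
  have hwn : (w : ℝ) ^ (2 * b + 1) ≤ Real.exp (Λ / 2) := by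
    have h1 : (w : ℝ) ^ (2 * b + 1) = Real.exp ((2 * b + 1 : ℕ) * Real.log w) := by
      rw [Real.exp_nat_mul, Real.exp_log hw0]
    rw [h1]
    refine Real.exp_le_exp.2 ?_
    have hlw0 : 0 ≤ Real.log w := Real.log_natCast_nonneg w
    have h2 : ((2 * b + 1 : ℕ) : ℝ) ≤ 2 * x ^ 2 + 3 := by
      push_cast
      linarith
    calc ((2 * b + 1 : ℕ) : ℝ) * Real.log w ≤ (2 * x ^ 2 + 3) * (B' * x) :=
          mul_le_mul h2 hlw hlw0 (by positivity)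
      _ ≤ Λ / 2 := hev1
  have hwn' : ((w ^ (2 * b) : ℕ) : ℝ) ≤ Real.exp (Λ / 2) := by
    push_cast
    refine le_trans ?_ hwn
    exact pow_le_pow_right₀ (by exact_mod_cast hw1) (by omega)
  have hsq : Real.exp (Λ / 2) ≤ ℓ / Λ ^ (A + 5) := by
    rw [hpow, ← heΛ, ← Real.exp_sub]
    refine Real.exp_le_exp.2 ?_
    push_cast
    linarith
  have hsplit := FrMinC_split W n₀ w u b hw1 θ
  refine hsplit.trans ?_
  have hcw1 : cw W w ≤ Λ := hcw ℓ hℓ1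
  have hcw0 : 0 ≤ cw W w := zero_le_one.trans (one_le_cw W w)
  -- the error term
  have hesy : u * esy (PW W w) (fun p => 1 / (p : ℝ)) (2 * b + 1) ≤ ℓ / Λ ^ (A + 2) := by
    have h1 := FrMinC_esy W w (2 * b + 1) (1 + B' * x) (by linarith)
    have h2 : (u : ℝ) ≤ 5 * ℓ := by exact_mod_cast hu
    have h3 : (5 : ℝ) ≤ Real.exp 2 := by
      have h5 := Real.exp_one_gt_d9
      have h6 : Real.exp 2 = Real.exp 1 * Real.exp 1 := by rw [← Real.exp_add]; norm_num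
      rw [h6]
      nlinarith
    calc (u : ℝ) * esy (PW W w) (fun p => 1 / (p : ℝ)) (2 * b + 1)
        ≤ (Real.exp 2 * ℓ) * Real.exp (3 * (1 + B' * x) - ((2 * b + 1 : ℕ) : ℝ)) := by
          refine mul_le_mul (h2.trans (mul_le_mul_of_nonneg_right h3 hℓ0.le)) h1 ?_ (by positivity)
          unfold esy
          exact sum_nonneg fun T _ => prod_nonneg fun p _ => by positivity
      _ = ℓ * Real.exp (2 + (3 * (1 + B' * x) - ((2 * b + 1 : ℕ) : ℝ))) := by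
          rw [Real.exp_add]
          ring
      _ ≤ ℓ * Real.exp (-(((A + 2 : ℕ) : ℝ) * x)) := by
          refine mul_le_mul_of_nonneg_left (Real.exp_le_exp.2 ?_) hℓ0.le
          push_cast
          nlinarith
      _ = ℓ / Λ ^ (A + 2) := by
          rw [hpow, Real.exp_neg, div_eq_mul_inv]
  -- Dirichlet
  have hQ0 : (1 : ℝ) ≤ ℓ / Λ ^ (A + 5) := by
    refine le_trans ?_ hsq
    exact Real.one_le_exp (by linarith)
  have hΛp : 0 < Λ ^ (A + 5) := by positivity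
  obtain ⟨q, a, hq0, hgcd, hρ3, hqlow, hqle⟩ := FrMinC_dir hQ0 hθ
  have hT1 : 1 ≤ w ^ (2 * b) := Nat.one_le_pow _ _ hw1
  have hℓnat : 0 < ℓ := by exact_mod_cast hℓ0
  have hmain := hty q a θ hq0 hgcd hρ3 (w ^ (2 * b)) (5 * ℓ) (FrMinC_X W n₀ u θ) hT1
    (by omega) (fun d => FrMinC_X1 W n₀ u (5 * ℓ) hu θ d) (fun d => FrMinC_X2 W n₀ u θ d)
  set Y : ℝ := ℓ / Λ ^ (A + 5) with hY
  have hY0 : 0 < Y := by positivity
  have hTle : ((w ^ (2 * b) : ℕ) : ℝ) ≤ Y := hwn'.trans hsq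
  have hYℓ : Y ≤ ℓ := div_le_self hℓ0.le (one_le_pow₀ (by linarith))
  have hM1 : ((5 * ℓ : ℕ) : ℝ) / q ≤ 5 * Y := by
    push_cast
    rw [hY, ← mul_div_assoc]
    exact div_le_div_of_nonneg_left (by positivity) hΛp hqlow.le
  have hsum1 : ((5 * ℓ : ℕ) : ℝ) / q + ((w ^ (2 * b) : ℕ) : ℝ) + q ≤ 7 * Y := by
    linarith
  obtain ⟨hlog0, hlog⟩ := FrMinC_log (q := (q : ℝ)) (T := ((w ^ (2 * b) : ℕ) : ℝ))
    (M := ((5 * ℓ : ℕ) : ℝ)) heΛ h4 hYℓ (by exact_mod_cast hq0) hqle (Nat.cast_nonneg _) hTle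
    (by push_cast; rfl)
  have hmain2 : ∑ d ∈ Icc 1 (w ^ (2 * b)), FrMinC_X W n₀ u θ d ≤ C * (7 * Y) * (2 * Λ) ^ 2 := by
    refine hmain.trans ?_
    have h1 : C * (((5 * ℓ : ℕ) : ℝ) / q + ((w ^ (2 * b) : ℕ) : ℝ) + q) ≤ C * (7 * Y) :=
      mul_le_mul_of_nonneg_left hsum1 hC.le
    exact mul_le_mul h1 (pow_le_pow_left₀ hlog0 hlog 2) (by positivity) (by positivity)
  refine FrMinC_fin A hℓ0 h4 hC h56 hcw1 hmain2 hesy (hwn.trans hsq) ?_ ?_ (by positivity)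
  · exact sum_nonneg fun d _ => FrMinC_X0 W n₀ u θ d
  · refine mul_nonneg (Nat.cast_nonneg _) ?_
    unfold esy
    exact sum_nonneg fun T _ => prod_nonneg fun p _ => by positivity

end Pool.Agent.Lib.MP_d57abb_nt.EE
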