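import Mathlib
import Pool.Agent.Lib.MP_d57abb_nt.All.Vin
import Pool.Agent.Lib.MP_d57abb_nt.All.MnrA
import Pool.Agent.Lib.MP_d57abb_nt.EE.Defs

/-!
# JOB FrMinP: the minor arcs for the primes

PROOF: copy `mnr` (`All/Mnr.lean`, complete there) with arbitrary powers of the logarithm: `B = 2 (2 A + 12) + 4`-like.  In detail, `Λ = log ℓ`: if `u ≤ ℓ / Λ^(A+3)` the sum is trivially `≤ u log (W u + n₀) ≤ (ℓ / Λ^(A+3)) 2 Λ ≤ ℓ / Λ^A`.  Otherwise, after `expand` (`All/MnrA.lean`), with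
`U = ⌊Λ^(2A + 14)⌋`, `y = W u + n₀ - 1`, `Q₁ = y / U²`, Dirichlet for `α_b = (θ + b) / W`: `q ≤ Q₁`, `|α_b - a/q| ≤ 1 / ((Q₁ + 1) q)`.  If `q < U²` then `θ` is within `W / (Q₁ + 1) ≤ W U² / y ≤ 2 U² / u ≤ 2 Λ^(4A + 28 + A + 3) / ℓ ≤ Λ^B / ℓ` of `(W a - b q)/q`, `q ≤ Λ^(4A+28) ≤ Λ^B`
with `B = 5 A + 40`, contradiction.  So `q ≥ U²` and `vin_lp` gives `≤ 60 L⁴ y / √U + 2 √y log y` with `L ≤ 5 Λ`, `√U ≥ Λ^(A+7) / 2`, `y ≤ 6 W ℓ`: `≤ C(W) Λ⁴ ℓ / Λ^(A + 7) + .. ≤ ℓ / Λ^A` for large `ℓ`.  Finally divide by `dens W ≥ 1`.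
-/

open Finset Filter

namespace Pool.Agent.Lib.MP_d57abb_nt.EE

open Pool.Agent.Lib.MP_d57abb_nt.All
open Pool.Agent.Lib.MP_2a816b_nt (e norm_e)

private theorem FrMinP_pow (c : ℝ) (hc : 0 ≤ c) (n : ℕ) :
    ∀ᶠ ℓ : ℕ in atTop, c * Real.log ℓ ^ n ≤ ℓ := by
  have hcast : Tendsto (fun n : ℕ => (n : ℝ)) atTop atTop := tendsto_natCast_atTop_atTop
  have h5 : ∀ᶠ ℓ : ℕ in atTop, ‖Real.log (ℓ : ℝ) ^ n‖ ≤ (1 / (c + 1)) * ‖(ℓ : ℝ)‖ :=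
    hcast.eventually ((Real.isLittleO_pow_log_id_atTop (n := n)).def (by positivity))
  filter_upwards [h5] with ℓ g5
  rw [Real.norm_of_nonneg (Nat.cast_nonneg ℓ)] at g5
  have h6 := (Real.le_norm_self _).trans g5
  have hℓ : (0 : ℝ) ≤ ℓ := Nat.cast_nonneg ℓ
  calc c * Real.log ℓ ^ n ≤ c * (1 / (c + 1) * ℓ) := mul_le_mul_of_nonneg_left h6 hc
    _ = (c / (c + 1)) * ℓ := by ring
    _ ≤ 1 * ℓ := by
      refine mul_le_mul_of_nonneg_right ?_ hℓ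
      rw [div_le_one (by positivity)]
      linarith
    _ = ℓ := one_mul _

private theorem FrMinP_ev (A W₁ n₀ : ℕ) (hW : 0 < W₁) (B : ℝ) : ∃ ℓ₀ : ℕ, ∀ ℓ : ℕ, ℓ₀ ≤ ℓ →
    2 ≤ ℓ ∧ B ≤ Real.log ℓ ∧ (5 * W₁ * ℓ + n₀ : ℝ) ≤ (ℓ : ℝ) ^ 2 ∧ (n₀ : ℝ) ≤ W₁ * ℓ ∧
    4 * (n₀ : ℝ) ^ 2 * Real.log ℓ ^ A ≤ ℓ ∧ 2 * Real.log ℓ ^ (5 * A + 22) ≤ ℓ ∧
    6144 * W₁ * Real.log ℓ ^ (2 * A + 2) ≤ ℓ := by
  have hW' : (1 : ℝ) ≤ W₁ := by exact_mod_cast hW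
  have hcast : Tendsto (fun n : ℕ => (n : ℝ)) atTop atTop := tendsto_natCast_atTop_atTop
  have h1 : ∀ᶠ ℓ : ℕ in atTop, 2 ≤ ℓ := eventually_ge_atTop 2
  have h2 : ∀ᶠ ℓ : ℕ in atTop, B ≤ Real.log ℓ := (Real.tendsto_log_atTop.comp hcast).eventually_ge_atTop B
  have h3 : ∀ᶠ ℓ : ℕ in atTop, (5 * W₁ + n₀ : ℝ) ≤ (ℓ : ℝ) := hcast.eventually_ge_atTop _
  have h4 := FrMinP_pow (4 * (n₀ : ℝ) ^ 2) (by positivity) A
  have h5 := FrMinP_pow 2 (by positivity) (5 * A + 22)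
  have h6 := FrMinP_pow (6144 * W₁) (by positivity) (2 * A + 2)
  obtain ⟨ℓ₀, h⟩ := eventually_atTop.1 (h1.and (h2.and (h3.and (h4.and (h5.and h6)))))
  refine ⟨ℓ₀, fun ℓ hℓ => ?_⟩
  obtain ⟨g1, g2, g3, g4, g5, g6⟩ := h ℓ hℓ
  have hℓ1 : (2 : ℝ) ≤ ℓ := by exact_mod_cast g1
  have hn0 : (0 : ℝ) ≤ n₀ := Nat.cast_nonneg _
  refine ⟨g1, g2, ?_, ?_, g4, g5, g6⟩
  · nlinarith [mul_le_mul_of_nonneg_right g3 (by linarith : (0 : ℝ) ≤ ℓ), mul_nonneg hn0 (by linarith : (0 : ℝ) ≤ ℓ)]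
  · nlinarith

private theorem FrMinP_lp (n : ℕ) (y : ℝ) (h : (n : ℝ) ≤ y) (hy : 1 ≤ y) : 0 ≤ lp n ∧ lp n ≤ Real.log y := by
  unfold All.lp
  split_ifs with hp
  · have h1 : (1 : ℝ) ≤ n := by exact_mod_cast hp.one_lt.le
    exact ⟨Real.log_nonneg h1, Real.log_le_log (by linarith) h⟩
  · exact ⟨le_rfl, Real.log_nonneg hy⟩

/-- the sum over the primes -/
private theorem FrMinP_b (A W₁ n₀ ℓ u b : ℕ) (hW : 0 < W₁) (θ : ℝ) (hℓ2 : 2 ≤ ℓ)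
    (hΛ2 : 2 ≤ Real.log ℓ) (hΛε : 3600000 * W₁ ≤ Real.log ℓ) (hsq : (5 * W₁ * ℓ + n₀ : ℝ) ≤ (ℓ : ℝ) ^ 2)
    (hn1 : (n₀ : ℝ) ≤ W₁ * ℓ) (h22 : 2 * Real.log ℓ ^ (5 * A + 22) ≤ ℓ)
    (hl2 : 6144 * W₁ * Real.log ℓ ^ (2 * A + 2) ≤ ℓ)
    (hyp : ∀ q : ℕ, 0 < q → (q : ℝ) ≤ Real.log ℓ ^ (5 * A + 24) → ∀ a : ℤ,
      Real.log ℓ ^ (5 * A + 24) / ℓ < |θ - a / q|)
    (hu5 : u ≤ 5 * ℓ) (hu : (ℓ : ℝ) / Real.log ℓ ^ (A + 2) < u) :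
    ‖∑ n ∈ Ioc 0 (W₁ * u + n₀ - 1), (lp n : ℂ) * e (n * ((θ + b) / W₁))‖ ≤ ℓ / (4 * Real.log ℓ ^ A) := by
  set Λ : ℝ := Real.log ℓ with hΛdef
  have hW' : (1 : ℝ) ≤ W₁ := by exact_mod_cast hW
  have hℓ0 : (2 : ℝ) ≤ ℓ := by exact_mod_cast hℓ2
  have hℓpos : (0 : ℝ) < ℓ := by linarith
  have hΛpos : 0 < Λ := by linarith
  have hu5' : (u : ℝ) ≤ 5 * ℓ := by exact_mod_cast hu5
  have hn0 : (0 : ℝ) ≤ n₀ := Nat.cast_nonneg _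
  -- the size of `u`
  have hpow1 : ∀ i j : ℕ, i ≤ j → Λ ^ i ≤ Λ ^ j := fun i j hij => pow_le_pow_right₀ (by linarith) hij
  have hulow : 2 * Λ ^ (4 * A + 20) < u := by
    refine lt_of_le_of_lt ?_ hu
    rw [le_div_iff₀ (by positivity)]
    calc 2 * Λ ^ (4 * A + 20) * Λ ^ (A + 2) = 2 * Λ ^ (5 * A + 22) := by
          rw [mul_assoc, ← pow_add]
          congr 2
          ring
      _ ≤ (ℓ : ℝ) := h22
  have hΛ20 : 1 ≤ Λ ^ (4 * A + 20) := one_le_pow₀ (by linarith)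
  have hu2 : (2 : ℝ) < u := by linarith
  have hu2' : 2 < u := by exact_mod_cast hu2
  set y : ℕ := W₁ * u + n₀ - 1 with hydef
  have hWu : 2 < W₁ * u := lt_of_lt_of_le hu2' (Nat.le_mul_of_pos_left u hW)
  have hy1 : y + 1 = W₁ * u + n₀ := by omega
  have hy1' : (y : ℝ) + 1 = W₁ * u + n₀ := by exact_mod_cast hy1
  have hyhalf : (W₁ : ℝ) * u / 2 ≤ y := by
    have h1 : (2 : ℝ) < W₁ * u := by exact_mod_cast hWu
    linarith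
  have huy : (u : ℝ) / 2 ≤ y := by nlinarith
  have hylow : Λ ^ (4 * A + 20) ≤ y := by linarith
  have hypos : (0 : ℝ) < y := by linarith
  have hyup : (y : ℝ) ≤ 6 * W₁ * ℓ := by nlinarith [mul_le_mul_of_nonneg_left hu5' (by linarith : (0 : ℝ) ≤ W₁)]
  have hysq : (y : ℝ) + 1 ≤ (ℓ : ℝ) ^ 2 := by
    rw [hy1']
    refine le_trans ?_ hsq
    nlinarith [mul_le_mul_of_nonneg_left hu5' (by linarith : (0 : ℝ) ≤ W₁)]
  have hlogy1 : Real.log ((y : ℝ) + 1) ≤ 2 * Λ := by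
    refine (Real.log_le_log (by linarith) hysq).trans (le_of_eq ?_)
    rw [Real.log_pow, hΛdef]
    norm_num
  have hlogy : Real.log (y : ℝ) ≤ 2 * Λ := (Real.log_le_log hypos (by linarith)).trans hlogy1
  -- the parameter `U`
  set U : ℕ := ⌊Λ ^ (2 * A + 10)⌋₊ with hUdef
  have hΛ10 : (1024 : ℝ) ≤ Λ ^ (2 * A + 10) := by
    calc (1024 : ℝ) = 2 ^ 10 := by norm_num
      _ ≤ Λ ^ 10 := pow_le_pow_left₀ (by norm_num) hΛ2 10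
      _ ≤ Λ ^ (2 * A + 10) := hpow1 _ _ (by omega)
  have hUle : (U : ℝ) ≤ Λ ^ (2 * A + 10) := Nat.floor_le (by positivity)
  have hUlow : Λ ^ (2 * A + 10) / 4 ≤ U := by
    have h1 := Nat.lt_floor_add_one (Λ ^ (2 * A + 10))
    rw [← hUdef] at h1
    linarith
  have hU1 : 1 ≤ U := by
    rw [hUdef, Nat.one_le_floor_iff]
    linarith
  have hU1' : (1 : ℝ) ≤ U := by exact_mod_cast hU1
  have hU2le : (U : ℝ) ^ 2 ≤ Λ ^ (4 * A + 20) := by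
    calc (U : ℝ) ^ 2 ≤ (Λ ^ (2 * A + 10)) ^ 2 := pow_le_pow_left₀ (by linarith) hUle 2
      _ = Λ ^ (4 * A + 20) := by
        rw [← pow_mul]
        congr 1
        ring
  have hU2y : U ^ 2 ≤ y := by
    have : ((U ^ 2 : ℕ) : ℝ) ≤ y := by
      rw [Nat.cast_pow]
      linarith
    exact_mod_cast this
  have hU2pos : 0 < U ^ 2 := by positivity
  set Q₁ : ℕ := y / U ^ 2 with hQdef
  have hQpos : 0 < Q₁ := Nat.div_pos hU2y hU2pos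
  have hQ1 : y < (Q₁ + 1) * U ^ 2 := by
    rw [mul_comm]
    exact Nat.lt_mul_div_succ y hU2pos
  have hQ1' : (y : ℝ) < ((Q₁ : ℝ) + 1) * (U : ℝ) ^ 2 := by exact_mod_cast hQ1
  set α : ℝ := (θ + b) / W₁ with hαdef
  obtain ⟨r, hr1, hr2⟩ := Real.exists_rat_abs_sub_le_and_den_le α hQpos
  have hqpos : 0 < r.den := r.den_pos
  have hqpos' : (0 : ℝ) < r.den := by exact_mod_cast hqpos
  have hrcast : ((r : ℚ) : ℝ) = (r.num : ℝ) / (r.den : ℝ) := Rat.cast_def r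
  rw [hrcast] at hr1
  have hQ0 : (0 : ℝ) < (Q₁ : ℝ) + 1 := by positivity
  have hcase : U ^ 2 ≤ r.den := by
    by_contra hlt
    push Not at hlt
    have hlt' : (r.den : ℝ) < (U : ℝ) ^ 2 := by exact_mod_cast hlt
    have h1 := hyp r.den hqpos (by
      have : Λ ^ (4 * A + 20) ≤ Λ ^ (5 * A + 24) := hpow1 _ _ (by omega)
      linarith) (W₁ * r.num - b * r.den)
    have h2 : θ - ((W₁ * r.num - b * r.den : ℤ) : ℝ) / r.den = W₁ * (α - r.num / r.den) := by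
      rw [hαdef]
      push_cast
      field_simp
      ring
    rw [h2, abs_mul, abs_of_pos (by linarith : (0 : ℝ) < W₁)] at h1
    have h3 : (W₁ : ℝ) * |α - r.num / r.den| ≤ W₁ * (1 / ((Q₁ + 1) * r.den)) :=
      mul_le_mul_of_nonneg_left hr1 (by linarith)
    have h4 : (1 : ℝ) / ((Q₁ + 1) * r.den) ≤ (U : ℝ) ^ 2 / y := by
      rw [div_le_div_iff₀ (by positivity) hypos, one_mul]
      have h5 : (1 : ℝ) ≤ r.den := by exact_mod_cast hqpos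
      calc (y : ℝ) ≤ ((Q₁ : ℝ) + 1) * (U : ℝ) ^ 2 := hQ1'.le
        _ = (U : ℝ) ^ 2 * ((Q₁ + 1) * 1) := by ring
        _ ≤ (U : ℝ) ^ 2 * ((Q₁ + 1) * r.den) := by gcongr
    have h6 : (W₁ : ℝ) * ((U : ℝ) ^ 2 / y) ≤ 2 * Λ ^ (4 * A + 20) / u := by
      rw [← mul_div_assoc, div_le_div_iff₀ hypos (by linarith)]
      calc (W₁ : ℝ) * (U : ℝ) ^ 2 * u = 2 * (U : ℝ) ^ 2 * (W₁ * u / 2) := by ring
        _ ≤ 2 * Λ ^ (4 * A + 20) * y := by gcongr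
    have h7 : 2 * Λ ^ (4 * A + 20) / u ≤ Λ ^ (5 * A + 24) / ℓ := by
      have h8 : (ℓ : ℝ) < u * Λ ^ (A + 2) := by
        rwa [div_lt_iff₀ (by positivity)] at hu
      rw [div_le_div_iff₀ (by linarith) hℓpos]
      have h9 : (2 : ℝ) ≤ Λ ^ 2 := by nlinarith
      calc 2 * Λ ^ (4 * A + 20) * (ℓ : ℝ) ≤ 2 * Λ ^ (4 * A + 20) * (u * Λ ^ (A + 2)) := by gcongr
        _ = (Λ ^ (4 * A + 20) * Λ ^ (A + 2)) * u * 2 := by ring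
        _ ≤ (Λ ^ (4 * A + 20) * Λ ^ (A + 2)) * u * Λ ^ 2 := by gcongr
        _ = (Λ ^ (4 * A + 20) * Λ ^ (A + 2) * Λ ^ 2) * u := by ring
        _ = Λ ^ (5 * A + 24) * u := by
          rw [← pow_add, ← pow_add]
          congr 2
          ring
    have h10 : (W₁ : ℝ) * (1 / ((Q₁ + 1) * r.den)) ≤ W₁ * ((U : ℝ) ^ 2 / y) := by gcongr
    linarith
  have hUqy : U ^ 2 * r.den ≤ y := by
    calc U ^ 2 * r.den ≤ U ^ 2 * Q₁ := Nat.mul_le_mul_left _ hr2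
      _ ≤ y := Nat.mul_div_le y (U ^ 2)
  have hαq : |α - r.num / (r.den : ℝ)| ≤ 1 / (r.den : ℝ) ^ 2 := by
    refine hr1.trans ?_
    have h1 : (r.den : ℝ) ≤ Q₁ := by exact_mod_cast hr2
    apply one_div_le_one_div_of_le (by positivity)
    rw [pow_two]
    exact mul_le_mul_of_nonneg_right (by linarith) hqpos'.le
  have hgcd : Int.gcd r.num r.den = 1 := by
    rw [Int.gcd, Int.natAbs_natCast]
    exact r.reduced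
  set L : ℕ := Nat.log 2 (y + 1) + 1 with hLdef
  have hL : y + 1 < 2 ^ L := Nat.lt_pow_succ_log_self (by norm_num) _
  have hv := vin_lp y U r.den L r.num α hU1 hcase hUqy hL hgcd hαq
  have hLle : (L : ℝ) ≤ 5 * Λ := by
    have h1 : 2 ^ (Nat.log 2 (y + 1)) ≤ y + 1 := Nat.pow_log_le_self 2 (by omega)
    have h2 : (2 : ℝ) ^ (Nat.log 2 (y + 1)) ≤ (y : ℝ) + 1 := by exact_mod_cast h1
    have h3 := Real.log_le_log (by positivity) h2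
    rw [Real.log_pow] at h3
    have h4 : (1 : ℝ) / 2 ≤ Real.log 2 := by
      have := Real.log_two_gt_d9
      linarith
    have h5 : (Nat.log 2 (y + 1) : ℝ) * (1 / 2) ≤ Nat.log 2 (y + 1) * Real.log 2 :=
      mul_le_mul_of_nonneg_left h4 (Nat.cast_nonneg _)
    rw [hLdef]
    push_cast
    linarith
  have hsU : Λ ^ (A + 5) / 2 ≤ √(U : ℝ) := by
    apply Real.le_sqrt_of_sq_le
    calc (Λ ^ (A + 5) / 2) ^ 2 = Λ ^ (2 * A + 10) / 4 := by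
          rw [div_pow, ← pow_mul]
          congr 1
          · congr 1
            ring
          · norm_num
      _ ≤ (U : ℝ) := hUlow
  have hL0 : (0 : ℝ) ≤ L := Nat.cast_nonneg _
  have hT1 : 60 * (L : ℝ) ^ 4 * y / √(U : ℝ) ≤ ℓ / (8 * Λ ^ A) := by
    have h1 : 60 * (L : ℝ) ^ 4 * y ≤ 60 * (5 * Λ) ^ 4 * (6 * W₁ * ℓ) := by gcongr
    have h2 : 60 * (L : ℝ) ^ 4 * y / √(U : ℝ) ≤ 60 * (5 * Λ) ^ 4 * (6 * W₁ * ℓ) / (Λ ^ (A + 5) / 2) := by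
      apply div_le_div₀ (by positivity) h1 (by positivity) hsU
    refine h2.trans ?_
    rw [div_le_iff₀ (by positivity)]
    calc 60 * (5 * Λ) ^ 4 * (6 * W₁ * ℓ) = (3600000 * (W₁ : ℝ)) * (Λ ^ 4 * ℓ / 16) := by ring
      _ ≤ Λ * (Λ ^ 4 * ℓ / 16) := by gcongr
      _ = ℓ / (8 * Λ ^ A) * (Λ ^ (A + 5) / 2) := by
        rw [pow_add]
        field_simp
        ring
  have hT2 : 2 * √(y : ℝ) * Real.log y ≤ ℓ / (8 * Λ ^ A) := by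
    have h1 : 2 * √(y : ℝ) * Real.log y ≤ 2 * √(y : ℝ) * (2 * Λ) :=
      mul_le_mul_of_nonneg_left hlogy (by positivity)
    have h2 : √(y : ℝ) ≤ ℓ / (32 * Λ ^ (A + 1)) := by
      rw [Real.sqrt_le_left (by positivity), div_pow, le_div_iff₀ (by positivity)]
      calc (y : ℝ) * (32 * Λ ^ (A + 1)) ^ 2 ≤ (6 * W₁ * ℓ) * (32 * Λ ^ (A + 1)) ^ 2 := by gcongr
        _ = (6144 * W₁ * Λ ^ (2 * A + 2)) * ℓ := by
          have h3 : Λ ^ (2 * A + 2) = (Λ ^ (A + 1)) ^ 2 := by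
            rw [← pow_mul]
            congr 1
            ring
          rw [h3]
          ring
        _ ≤ ℓ * ℓ := by gcongr
        _ = (ℓ : ℝ) ^ 2 := by ring
    calc 2 * √(y : ℝ) * Real.log y ≤ 2 * √(y : ℝ) * (2 * Λ) := h1
      _ ≤ 2 * (ℓ / (32 * Λ ^ (A + 1))) * (2 * Λ) := by gcongr
      _ = ℓ / (8 * Λ ^ A) := by
        rw [pow_add]
        field_simp
        ring
  have h8 : (ℓ : ℝ) / (4 * Λ ^ A) = ℓ / (8 * Λ ^ A) + ℓ / (8 * Λ ^ A) := by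
    field_simp
    ring
  rw [h8]
  linarith

private theorem FrMinP_main (A W₁ n₀ : ℕ) (hW : 0 < W₁) : ∃ ℓ₀ : ℕ, ∀ ℓ : ℕ, ℓ₀ ≤ ℓ → ∀ θ : ℝ,
    (∀ q : ℕ, 0 < q → (q : ℝ) ≤ Real.log ℓ ^ (5 * A + 24) → ∀ a : ℤ,
      Real.log ℓ ^ (5 * A + 24) / ℓ < |θ - a / q|) →
    ∀ u : ℕ, u ≤ 5 * ℓ →
    ‖∑ k ∈ range u, (lp (W₁ * k + n₀) : ℂ) * e (k * θ)‖ ≤ ℓ / Real.log ℓ ^ A := by
  have hW' : (1 : ℝ) ≤ W₁ := by exact_mod_cast hW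
  obtain ⟨ℓ₀, hℓ₀⟩ := FrMinP_ev A W₁ n₀ hW (max 2 (3600000 * W₁))
  refine ⟨ℓ₀, fun ℓ hℓ θ hyp u hu5 => ?_⟩
  obtain ⟨hℓ2, hB, hsq, hn1, hn2, h22, hl2⟩ := hℓ₀ ℓ hℓ
  set Λ : ℝ := Real.log ℓ with hΛdef
  have hΛ2 : 2 ≤ Λ := (le_max_left _ _).trans hB
  have hΛW : 3600000 * W₁ ≤ Λ := (le_max_right _ _).trans hB
  have hΛpos : 0 < Λ := by linarith
  have hℓ0 : (2 : ℝ) ≤ ℓ := by exact_mod_cast hℓ2
  have hℓpos : (0 : ℝ) < ℓ := by linarith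
  have hu5' : (u : ℝ) ≤ 5 * ℓ := by exact_mod_cast hu5
  have hn0 : (0 : ℝ) ≤ n₀ := Nat.cast_nonneg _
  rcases le_or_gt (u : ℝ) ((ℓ : ℝ) / Λ ^ (A + 2)) with hsmall | hlarge
  · have hterm : ∀ k ∈ range u, ‖(lp (W₁ * k + n₀) : ℂ) * e (k * θ)‖ ≤ 2 * Λ := by
      intro k hk
      have hku : (k : ℝ) ≤ u := by exact_mod_cast (Finset.mem_range.1 hk).le
      have h1 : ((W₁ * k + n₀ : ℕ) : ℝ) ≤ (ℓ : ℝ) ^ 2 := by
        push_cast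
        refine le_trans ?_ hsq
        nlinarith [mul_le_mul_of_nonneg_left (hku.trans hu5') (by linarith : (0 : ℝ) ≤ W₁)]
      have h2 := FrMinP_lp (W₁ * k + n₀) _ h1 (by nlinarith)
      rw [norm_mul, norm_e, mul_one, Complex.norm_real, Real.norm_of_nonneg h2.1]
      refine h2.2.trans (le_of_eq ?_)
      rw [Real.log_pow, hΛdef]
      norm_num
    have h1 : ‖∑ k ∈ range u, (lp (W₁ * k + n₀) : ℂ) * e (k * θ)‖ ≤ u * (2 * Λ) := by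
      refine (norm_sum_le_of_le _ hterm).trans (le_of_eq ?_)
      rw [Finset.sum_const, Finset.card_range, nsmul_eq_mul]
    have h2 : (2 : ℝ) ≤ Λ := hΛ2
    calc ‖∑ k ∈ range u, (lp (W₁ * k + n₀) : ℂ) * e (k * θ)‖ ≤ u * (2 * Λ) := h1
      _ ≤ (ℓ : ℝ) / Λ ^ (A + 2) * (2 * Λ) := by gcongr
      _ ≤ (ℓ : ℝ) / Λ ^ (A + 2) * (Λ * Λ) := by gcongr
      _ = ℓ / Λ ^ A := by
        rw [pow_add]
        field_simp
  · have hupos : 0 < u := by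
      have h1 : (0 : ℝ) < u := lt_of_le_of_lt (by positivity) hlarge
      exact_mod_cast h1
    refine (expand W₁ n₀ u hW hupos θ).trans ?_
    have h1 : ∑ b ∈ range W₁, ‖∑ n ∈ Ioc 0 (W₁ * u + n₀ - 1), (lp n : ℂ) * e (n * ((θ + b) / W₁))‖ ≤
        W₁ * (ℓ / (4 * Λ ^ A)) := by
      refine (Finset.sum_le_sum (fun b _ => FrMinP_b A W₁ n₀ ℓ u b hW θ hℓ2 hΛ2 hΛW hsq hn1 h22 hl2 hyp
        hu5 hlarge)).trans (le_of_eq ?_)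
      rw [Finset.sum_const, Finset.card_range, nsmul_eq_mul]
    have h2 : (1 / (W₁ : ℝ)) * ∑ b ∈ range W₁, ‖∑ n ∈ Ioc 0 (W₁ * u + n₀ - 1), (lp n : ℂ) *
        e (n * ((θ + b) / W₁))‖ ≤ (1 / (W₁ : ℝ)) * (W₁ * (ℓ / (4 * Λ ^ A))) :=
      mul_le_mul_of_nonneg_left h1 (by positivity)
    have h3 : (1 / (W₁ : ℝ)) * (W₁ * (ℓ / (4 * Λ ^ A))) = ℓ / (4 * Λ ^ A) := by
      field_simp
    have h4 : (n₀ : ℝ) ^ 2 ≤ ℓ / (4 * Λ ^ A) := by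
      rw [le_div_iff₀ (by positivity)]
      linarith
    have h5 : (ℓ : ℝ) / (4 * Λ ^ A) = (ℓ / Λ ^ A) / 4 := by
      field_simp
    have h6 : 0 ≤ (ℓ : ℝ) / Λ ^ A := by positivity
    rw [h3, h5] at h2
    rw [h5] at h4
    linarith

theorem four_min_lp (A : ℕ) : ∃ B : ℕ, ∀ W n₀ : ℕ, 0 < W → ∃ ℓ₀ : ℕ, ∀ ℓ : ℕ, ℓ₀ ≤ ℓ → ∀ θ : ℝ,
    (∀ q : ℕ, 0 < q → (q : ℝ) ≤ Real.log ℓ ^ B → ∀ a : ℤ, Real.log ℓ ^ B / ℓ < |θ - a / q|) →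
    ∀ u : ℕ, u ≤ 5 * ℓ →
    ‖∑ k ∈ range u, ((lpn W n₀ k : ℝ) : ℂ) * e (k * θ)‖ ≤ ℓ / Real.log ℓ ^ A := by
  refine ⟨5 * A + 24, fun W n₀ hW => ?_⟩
  obtain ⟨ℓ₀, hℓ₀⟩ := FrMinP_main A W n₀ hW
  refine ⟨ℓ₀, fun ℓ hℓ θ hyp u hu => ?_⟩
  have h1 := hℓ₀ ℓ hℓ θ hyp u hu
  have hφ : (0 : ℝ) < Nat.totient W := by exact_mod_cast Nat.totient_pos.2 hW
  have hd : 1 ≤ All.dens W := by
    unfold All.dens
    rw [le_div_iff₀ hφ, one_mul]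
    exact_mod_cast Nat.totient_le W
  have h2 : ∑ k ∈ range u, ((lpn W n₀ k : ℝ) : ℂ) * e (k * θ) =
      ((1 / All.dens W : ℝ) : ℂ) * ∑ k ∈ range u, (lp (W * k + n₀) : ℂ) * e (k * θ) := by
    rw [Finset.mul_sum]
    refine Finset.sum_congr rfl fun k _ => ?_
    unfold lpn
    push_cast
    ring
  rw [h2, norm_mul, Complex.norm_real, Real.norm_of_nonneg (by positivity)]
  refine (mul_le_of_le_one_left (norm_nonneg _) ?_).trans h1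
  rw [div_le_one (by linarith)]
  exact hd

end Pool.Agent.Lib.MP_d57abb_nt.EE
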