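import Mathlib
import Pool.Agent.Lib.MP_d57abb_nt.EE.FrMaj
import Pool.Agent.Lib.MP_d57abb_nt.EE.FrMinP
import Pool.Agent.Lib.MP_d57abb_nt.EE.FrMinC

/-!
# Primes minus Cramér's model: all Fourier coefficients are small (with arbitrary powers of the logarithm)
-/

open Finset Filter

namespace Pool.Agent.Lib.MP_d57abb_nt.EE

open Pool.Agent.Lib.MP_d57abb_nt.All
open Pool.Agent.Lib.MP_2a816b_nt (e)

theorem four (A : ℕ) : ∃ B' : ℕ, ∀ W n₀ : ℕ, 0 < W → Nat.Coprime n₀ W → ∃ ℓ₀ : ℕ, ∀ ℓ : ℕ, ℓ₀ ≤ ℓ → ∀ θ : ℝ,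
    ∀ u : ℕ, u ≤ 5 * ℓ →
    ‖∑ k ∈ range u, ((lpn W n₀ k - crm W n₀ (wB B' ℓ) k : ℝ) : ℂ) * e (k * θ)‖ ≤ ℓ / Real.log ℓ ^ A := by
  obtain ⟨B1, h1⟩ := four_min_lp (A + 1)
  obtain ⟨B2, h2⟩ := four_min_crm (A + 1)
  refine ⟨max B1 B2, fun W n₀ hW hc => ?_⟩
  set B := max B1 B2 with hB
  obtain ⟨ℓ1, g1⟩ := h1 W n₀ hW
  obtain ⟨ℓ2, g2⟩ := h2 B W n₀ hW hc
  obtain ⟨ℓ3, g3⟩ := four_maj W n₀ hW hc A B B le_rfl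
  obtain ⟨ℓ4, g4⟩ : ∃ ℓ4 : ℕ, ∀ ℓ : ℕ, ℓ4 ≤ ℓ → 2 ≤ Real.log ℓ := by
    have := (Real.tendsto_log_atTop.comp tendsto_natCast_atTop_atTop).eventually_ge_atTop (2 : ℝ)
    obtain ⟨ℓ4, h⟩ := eventually_atTop.1 this
    exact ⟨ℓ4, fun ℓ hℓ => h ℓ hℓ⟩
  refine ⟨max (max ℓ1 ℓ2) (max ℓ3 ℓ4), fun ℓ hℓ θ u hu => ?_⟩
  have l1 : ℓ1 ≤ ℓ := le_trans (le_trans (le_max_left _ _) (le_max_left _ _)) hℓ
  have l2 : ℓ2 ≤ ℓ := le_trans (le_trans (le_max_right _ _) (le_max_left _ _)) hℓ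
  have l3 : ℓ3 ≤ ℓ := le_trans (le_trans (le_max_left _ _) (le_max_right _ _)) hℓ
  have l4 : ℓ4 ≤ ℓ := le_trans (le_trans (le_max_right _ _) (le_max_right _ _)) hℓ
  have hL := g4 ℓ l4
  have hL1 : 1 ≤ Real.log ℓ := by linarith
  by_cases hm : ∃ q : ℕ, 0 < q ∧ (q : ℝ) ≤ Real.log ℓ ^ B ∧ ∃ a : ℤ, |θ - a / q| ≤ Real.log ℓ ^ B / ℓ
  · obtain ⟨q, hq, hqB, a, ha⟩ := hm
    exact g3 ℓ l3 q a θ hq hqB ha u hu
  · push Not at hm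
    have hmin : ∀ B₀ : ℕ, B₀ ≤ B → ∀ q : ℕ, 0 < q → (q : ℝ) ≤ Real.log ℓ ^ B₀ → ∀ a : ℤ,
        Real.log ℓ ^ B₀ / ℓ < |θ - a / q| := by
      intro B₀ hB₀ q hq hqB a
      have h := pow_le_pow_right₀ hL1 hB₀
      refine lt_of_le_of_lt ?_ (hm q hq (hqB.trans h) a)
      exact div_le_div_of_nonneg_right h (Nat.cast_nonneg _)
    have e1 := g1 ℓ l1 θ (hmin B1 (le_max_left _ _)) u hu
    have e2 := g2 ℓ l2 θ (hmin B2 (le_max_right _ _)) u hu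
    have e3 : ∑ k ∈ range u, ((lpn W n₀ k - crm W n₀ (wB B ℓ) k : ℝ) : ℂ) * e (k * θ) =
        ∑ k ∈ range u, ((lpn W n₀ k : ℝ) : ℂ) * e (k * θ) -
        ∑ k ∈ range u, ((crm W n₀ (wB B ℓ) k : ℝ) : ℂ) * e (k * θ) := by
      rw [← sum_sub_distrib]
      refine sum_congr rfl fun k _ => ?_
      push_cast
      ring
    rw [e3]
    refine (norm_sub_le _ _).trans ((add_le_add e1 e2).trans ?_)
    have h0 : (0 : ℝ) < Real.log ℓ ^ A := by positivity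
    rw [pow_succ, ← add_div, ← two_mul, div_le_div_iff₀ (by positivity) h0]
    have : (0 : ℝ) ≤ ℓ := Nat.cast_nonneg _
    nlinarith [mul_nonneg (mul_nonneg this h0.le) (by linarith : (0 : ℝ) ≤ Real.log ℓ - 2)]

end Pool.Agent.Lib.MP_d57abb_nt.EE
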