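import Mathlib
import Pool.Agent.Lib.MP_d57abb_nt.EE.Defs

/-!
# JOB ResE: the residues of the configuration

PROOF.  `EC n` is finite.  Choose distinct primes `q e ≡ 1 (mod 5)`, `q e > 5`, for the cross pairs `e ∈ EC n` (`Nat.infinite_setOf_prime_modEq_one`-type: infinitely many primes `≡ 1 (mod 5)`: `Nat.exists_prime_gt_modEq_one`), injective.
`w₁ = max (w', all q e, 5)`, `M = 1 + sum of all the labels L`.  `D e = (q e)^(L e.1 e.2 - 1)`, `W₀ = (w₁!)^M`, `W₁ e = W₀ / D e`: `D e ∣ W₀` as `q e ∣ w₁!` and `L - 1 ≤ M`; moreover `p ∣ W₁ e` for every prime `p ≤ w₁` (for `p = q e` since `L - 1 < M`), in particular `5 ∣ W₁ e`.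
Residues: `ρ v` modulo `W₀` with, for every prime `p ≤ w₁`, modulo `p^k` = the exact power of `p` in `W₀`:
* if `p ≠ q e` for all `e`: `ρ v ≡ 0, 1, 1` for the groups `0, 1, 2` (so `ρ v - xc v.1 ρ u ≡ 1, 1, -1 (mod p)`, units);
* if `p = q e`, `e = (u, v)`: `ρ s ≡ 0, 1, 1` by group for `s ≠ u, v`; `ρ u ≡ λ`, with `λ = 3` (so that `λ ≢ 0, 1, 1/2, 2` modulo `p ≥ 11`: check below), and `ρ v ≡ xc v.1 λ + p^(L-1)` modulo `p^k`.  Then `ρ v - xc v.1 ρ u ≡ p^(L-1)` (exact valuation `L - 1`), and for the other cross pairs `(s, t) ≠ e`: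
  `ρ t - xc t.1 ρ s` is one of: `1 - 0`, `1 - 2·0`, `1 - 2·1`; with `s = u`: `1 - λ`, `1 - 2λ`; with `t = u` (`u` in group 1): `λ - 0`; with `t = v`: (`v` in group 1) `λ - 0`, (`v` in group 2) `2 λ - 2·0`, `2 λ - 2·1`; with `s = v` (`v` in group 1): `1 - 2 λ` (all up to multiples of `p` when `L ≥ 2`; when `L = 1` the value of `ρ v` is `xc λ + 1`:
  choose in this case instead `ρ v, ρ u ≡ 0, 1, 1` by group as for the other primes, i.e. treat `q e` with `L e = 1` as a non-special prime, `D e = 1`): with `λ = 3`: `1 - 3 = -2`, `1 - 6 = -5`, `3`, `6`, `6 - 2 = 4`: all units modulo `p ≥ 7`, as `q e ≥ 11`.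
(`Nat.chineseRemainderOfFinset`, or `ZMod`, or one prime after the other.)
Then lift to natural numbers: `r v = ρ v + c_g W₀` with `0 ≤ ρ v < W₀` and `c_0 = 0`, `c_1 = 2`, `c_2 = 8` (so that `r v > xc v.1 r u` for all cross pairs: `2W₀ > ρ u`; `8 W₀ > 2 (ρ u + 2 W₀)`), and `n₀ e = (r v - xc v.1 r u) / D e > 0`.
`n₀ e` is prime to `W₁ e`: every prime `p ∣ W₁ e` is `≤ w₁`, and the valuation of `r v - xc v.1 r u` at `p` is `0` for `p ≠ q e`, and exactly that of `D e` for `p = q e`.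
`n₀ e ≡ ±1 (mod 5)`: modulo `5` the difference is `1, 1, -1` and `D e ≡ 1`.  `odd`: `r v ≡ 1 (mod 2)` for the group `2` (`W₀` even).  `om`: `cardFactors (q^(L-1)) = L - 1`, `L ≥ 1`.  `copD`: powers of different primes.  `spl`: `q e ≡ 1 (mod 5)`.
-/

open Finset

namespace Pool.Agent.Lib.MP_d57abb_nt.EE

private lemma ResE_q (ι : Type) [Fintype ι] : ∃ q : ι → ℕ, Function.Injective q ∧
    ∀ e, (q e).Prime ∧ q e % 5 = 1 ∧ 11 ≤ q e := by
  have hinf : ({p : ℕ | p.Prime ∧ p % 5 = 1 ∧ 11 ≤ p}).Infinite := by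
    refine Set.infinite_of_forall_exists_gt fun a => ?_
    obtain ⟨p, hp, hpa, hp5⟩ := Nat.exists_prime_gt_modEq_one (k := 5) (a + 11) (by norm_num)
    refine ⟨p, ⟨hp, ?_, by omega⟩, by omega⟩
    have : p % 5 = 1 % 5 := hp5
    omega
  set f := hinf.natEmbedding with hf
  refine ⟨fun e => (f (Fintype.equivFin ι e) : ℕ), ?_, fun e => ?_⟩
  · intro a b hab
    have h1 : f (Fintype.equivFin ι a) = f (Fintype.equivFin ι b) := Subtype.ext hab
    have h2 := f.injective h1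
    exact (Fintype.equivFin ι).injective (Fin.ext h2)
  · exact (f (Fintype.equivFin ι e)).2

private def ResE_gr (g : Fin 3) : ℕ := if g = 0 then 0 else 1

private def ResE_bb (d a : Fin 3) (isU isV : Bool) : ℤ :=
  if isU then 3 else if isV then 3 * (xc d : ℤ) else (ResE_gr a : ℤ)

private lemma ResE_dec : ∀ a b c d : Fin 3, ∀ su sv tu tv : Bool, a < b → c < d → (su = true → a = c) →
    (sv = true → a = d) → (tu = true → b = c) → (tv = true → b = d) → ¬ (su = true ∧ tv = true) →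
    (ResE_bb d b tu tv - (xc b : ℤ) * ResE_bb d a su sv ≠ 0 ∧
      ResE_bb d b tu tv - (xc b : ℤ) * ResE_bb d a su sv < 11 ∧
      -11 < ResE_bb d b tu tv - (xc b : ℤ) * ResE_bb d a su sv) := by
  decide

private lemma ResE_one : ∀ a b : Fin 3, a < b →
    ((ResE_gr b : ℤ) - (xc b : ℤ) * (ResE_gr a : ℤ) = 1 ∨ (ResE_gr b : ℤ) - (xc b : ℤ) * (ResE_gr a : ℤ) = -1) := by
  decide

private lemma ResE_nd {p : ℕ} (hp : 11 ≤ p) {x : ℤ} (h0 : x ≠ 0) (h1 : x < 11) (h2 : -11 < x) : ¬ (p : ℤ) ∣ x := by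
  intro h
  apply h0
  refine Int.eq_zero_of_abs_lt_dvd h ?_
  rw [abs_lt]
  constructor <;> omega

private lemma ResE_lt {W : ℕ} (hW : 0 < W) (ρ : ℕ) (g h : Fin 3) (ρ' : ℕ) (hgh : g < h) :
    xc h * (ρ % W + (if g = 0 then 0 else if g = 1 then 2 else 8) * W) <
      ρ' % W + (if h = 0 then 0 else if h = 1 then 2 else 8) * W := by
  have h1 : ρ % W < W := Nat.mod_lt _ hW
  have h2 : ∀ g h : Fin 3, g < h → (g = 0 ∧ h = 1) ∨ (g = 0 ∧ h = 2) ∨ (g = 1 ∧ h = 2) := by decide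
  have e1 : xc 1 = 1 := by decide
  have e2 : xc 2 = 2 := by decide
  rcases h2 g h hgh with ⟨rfl, rfl⟩ | ⟨rfl, rfl⟩ | ⟨rfl, rfl⟩
  · rw [e1]; simp only [if_true, one_ne_zero, if_false]; omega
  · rw [e2]; simp; omega
  · rw [e2]; simp; omega

private lemma ResE_five {N D P d m : ℕ} {k ε : ℤ} (hD : D = 5 * d + 1) (hP : P = 5 * m) (hε : ε = 1 ∨ ε = -1)
    (h : (D : ℤ) * N = ε + P * k) : N % 5 = 1 ∨ N % 5 = 4 := by
  subst hD hP
  have e : ((N : ℤ)) + 5 * ((d : ℤ) * N) = ε + 5 * ((m : ℤ) * k) := by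
    have : (((5 * d + 1 : ℕ) : ℤ)) * N = N + 5 * ((d : ℤ) * N) := by push_cast; ring
    rw [this] at h
    rw [h]
    push_cast
    ring
  generalize (d : ℤ) * N = X at e
  generalize (m : ℤ) * k = Y at e
  omega

theorem exists_res (n : ℕ) (L : V n → V n → ℕ) (hL : ∀ u v, 1 ≤ L u v) (w' : ℕ) :
    ∃ (w₁ W₀ : ℕ) (r : V n → ℕ) (D W₁ n₀ : V n × V n → ℕ), w' ≤ w₁ ∧ Res L w₁ W₀ r D W₁ n₀ := by
  classical
  obtain ⟨q, hqi, hq⟩ := ResE_q (V n × V n)
  set w₁ : ℕ := w' + 5 + ∑ e : V n × V n, q e with hw1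
  have hqw : ∀ e, q e ≤ w₁ := by
    intro e
    have := Finset.single_le_sum (f := q) (fun _ _ => Nat.zero_le _) (Finset.mem_univ e)
    omega
  have hec : ∀ e : V n × V n, e ∈ EC n → e.1.1 < e.2.1 := fun e he => (Finset.mem_filter.1 he).2
  set Ps := (Icc 1 w₁).filter (fun p => p.Prime ∧ ∀ e ∈ EC n, p ≠ q e) with hPs
  set P := ∏ p ∈ Ps, p with hPdef
  have hPd : ∀ p : ℕ, p.Prime → p ≤ w₁ → (∀ e ∈ EC n, p ≠ q e) → p ∣ P := by
    intro p hp hpw hpe
    exact Finset.dvd_prod_of_mem (fun p => p) (Finset.mem_filter.2 ⟨Finset.mem_Icc.2 ⟨hp.one_le, hpw⟩, hp, hpe⟩)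
  have hP0 : 0 < P := Finset.prod_pos fun p hp => ((Finset.mem_filter.1 hp).2.1).pos
  have hPp : ∀ p : ℕ, p.Prime → p ∣ P → ∀ e ∈ EC n, p ≠ q e := by
    intro p hp hpP
    obtain ⟨p', hp', hd⟩ := (hp.prime.dvd_finsetProd_iff _).1 hpP
    have h1 := (Finset.mem_filter.1 hp').2
    have h2 : p = p' := (Nat.prime_dvd_prime_iff_eq hp h1.1).1 hd
    rw [h2]
    exact h1.2
  set Q : V n × V n → ℕ := fun e => (q e) ^ (L e.1 e.2) with hQ
  have hQ0 : ∀ e, 0 < Q e := fun e => pow_pos (hq e).1.pos _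
  have hqQ : ∀ e, q e ∣ Q e := fun e => dvd_pow_self _ (by have := hL e.1 e.2; omega)
  have hpQ : ∀ e, ∀ p : ℕ, p.Prime → p ∣ Q e → p = q e := fun e p hp hd =>
    (Nat.prime_dvd_prime_iff_eq hp (hq e).1).1 (hp.dvd_of_dvd_pow hd)
  have hcoQ : ∀ e e', e ≠ e' → Nat.Coprime (Q e) (Q e') := by
    intro e e' hne
    exact Nat.Coprime.pow _ _ ((Nat.coprime_primes (hq e).1 (hq e').1).2 (fun h => hne (hqi h)))
  set R := ∏ e ∈ EC n, Q e with hR
  have hR0 : 0 < R := Finset.prod_pos fun e _ => hQ0 e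
  have hcoP : Nat.Coprime P R := by
    refine Nat.Coprime.prod_right fun e he => ?_
    refine Nat.Coprime.pow_right _ ?_
    rw [Nat.coprime_comm, (hq e).1.coprime_iff_not_dvd]
    intro h
    exact hPp _ (hq e).1 h e he rfl
  -- residues
  set α : V n × V n → V n → ℕ := fun e s => if L e.1 e.2 = 1 then ResE_gr s.1 else
    if s = e.1 then 3 else if s = e.2 then 3 * xc e.2.1 + (q e) ^ (L e.1 e.2 - 1) else ResE_gr s.1 with hα
  have hρ : ∀ v : V n, ∃ ρ : ℕ, ρ ≡ ResE_gr v.1 [MOD P] ∧ ∀ e ∈ EC n, ρ ≡ α e v [MOD Q e] := by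
    intro v
    obtain ⟨k, hk⟩ := Nat.chineseRemainderOfFinset (fun e => α e v) Q (EC n) (fun e _ => (hQ0 e).ne')
      (fun e _ e' _ hne => hcoQ e e' hne)
    obtain ⟨ρ, h1, h2⟩ := Nat.chineseRemainder hcoP (ResE_gr v.1) k
    exact ⟨ρ, h1, fun e he => (h2.of_dvd (Finset.dvd_prod_of_mem Q he)).trans (hk e he)⟩
  choose ρ hρP hρQ using hρ
  set W₀ := P * R with hW0
  have hW0pos : 0 < W₀ := Nat.mul_pos hP0 hR0
  set r : V n → ℕ := fun v => ρ v % W₀ + (if v.1 = 0 then 0 else if v.1 = 1 then 2 else 8) * W₀ with hr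
  have hrρ : ∀ v, r v ≡ ρ v [MOD W₀] := by
    intro v
    have h1 : ρ v % W₀ ≡ ρ v [MOD W₀] := Nat.mod_modEq _ _
    have h2 : (if v.1 = 0 then 0 else if v.1 = 1 then 2 else 8) * W₀ ≡ 0 [MOD W₀] :=
      (Nat.modEq_zero_iff_dvd).2 (Dvd.intro_left _ rfl)
    exact h1.add h2
  have hrP : ∀ v, ∃ k : ℤ, (r v : ℤ) = ResE_gr v.1 + P * k := by
    intro v
    have h1 : r v ≡ ResE_gr v.1 [MOD P] := ((hrρ v).of_dvd (Dvd.intro _ rfl)).trans (hρP v)
    obtain ⟨k, hk⟩ := (Nat.modEq_iff_dvd.1 h1.symm)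
    exact ⟨k, by linarith⟩
  have hrQ : ∀ e ∈ EC n, ∀ v, ∃ k : ℤ, (r v : ℤ) = α e v + Q e * k := by
    intro e he v
    have h1 : r v ≡ α e v [MOD Q e] := ((hrρ v).of_dvd ((Finset.dvd_prod_of_mem Q he).trans (Dvd.intro_left _ rfl))).trans
      (hρQ v e he)
    obtain ⟨k, hk⟩ := (Nat.modEq_iff_dvd.1 h1.symm)
    exact ⟨k, by linarith⟩
  have hlt : ∀ e ∈ EC n, xc e.2.1 * r e.1 < r e.2 := fun e he => ResE_lt hW0pos _ _ _ _ (hec e he)
  -- differences modulo P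
  have hdP : ∀ e ∈ EC n, ∃ k ε : ℤ, (ε = 1 ∨ ε = -1) ∧ (r e.2 : ℤ) - xc e.2.1 * r e.1 = ε + P * k := by
    intro e he
    obtain ⟨k1, h1⟩ := hrP e.1
    obtain ⟨k2, h2⟩ := hrP e.2
    refine ⟨k2 - xc e.2.1 * k1, _, ResE_one e.1.1 e.2.1 (hec e he), ?_⟩
    rw [h1, h2]
    ring
  -- differences modulo the other special primes
  have hdq : ∀ e ∈ EC n, ∀ e' ∈ EC n, e ≠ e' → ¬ (q e' : ℤ) ∣ (r e.2 : ℤ) - xc e.2.1 * r e.1 := by
    intro e he e' he' hne hdiv
    obtain ⟨k1, h1⟩ := hrQ e' he' e.1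
    obtain ⟨k2, h2⟩ := hrQ e' he' e.2
    obtain ⟨c, hc⟩ := hqQ e'
    have hd1 : (q e' : ℤ) ∣ (α e' e.2 : ℤ) - xc e.2.1 * α e' e.1 := by
      have e1 : (α e' e.2 : ℤ) - xc e.2.1 * α e' e.1 = ((r e.2 : ℤ) - xc e.2.1 * r e.1) -
          (q e' : ℤ) * (c * (k2 - xc e.2.1 * k1)) := by
        rw [h1, h2, hc]
        push_cast
        ring
      rw [e1]
      exact dvd_sub hdiv (Dvd.intro _ rfl)
    by_cases hL1 : L e'.1 e'.2 = 1
    · simp only [hα, if_pos hL1] at hd1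
      rcases ResE_one e.1.1 e.2.1 (hec e he) with h | h
      · rw [h] at hd1
        exact ResE_nd (hq e').2.2 (by norm_num) (by norm_num) (by norm_num) hd1
      · rw [h] at hd1
        exact ResE_nd (hq e').2.2 (by norm_num) (by norm_num) (by norm_num) hd1
    · have hL2 : 2 ≤ L e'.1 e'.2 := by have := hL e'.1 e'.2; omega
      have hβ : ∀ s : V n, ∃ k : ℤ, (α e' s : ℤ) = ResE_bb e'.2.1 s.1 (decide (s = e'.1)) (decide (s = e'.2)) +
          q e' * k := by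
        intro s
        simp only [hα, if_neg hL1, ResE_bb, decide_eq_true_eq]
        by_cases c1 : s = e'.1
        · rw [if_pos c1, if_pos c1]
          exact ⟨0, by push_cast; ring⟩
        · rw [if_neg c1, if_neg c1]
          by_cases c2 : s = e'.2
          · rw [if_pos c2, if_pos c2]
            refine ⟨(q e' : ℤ) ^ (L e'.1 e'.2 - 2), ?_⟩
            have : L e'.1 e'.2 - 1 = (L e'.1 e'.2 - 2) + 1 := by omega
            rw [this]
            push_cast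
            ring
          · rw [if_neg c2, if_neg c2]
            exact ⟨0, by ring⟩
      obtain ⟨k3, h3⟩ := hβ e.1
      obtain ⟨k4, h4⟩ := hβ e.2
      have hdec := ResE_dec e.1.1 e.2.1 e'.1.1 e'.2.1 (decide (e.1 = e'.1)) (decide (e.1 = e'.2))
        (decide (e.2 = e'.1)) (decide (e.2 = e'.2)) (hec e he) (hec e' he')
        (fun h => by rw [of_decide_eq_true h]) (fun h => by rw [of_decide_eq_true h])
        (fun h => by rw [of_decide_eq_true h]) (fun h => by rw [of_decide_eq_true h])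
        (fun h => hne (Prod.ext (of_decide_eq_true h.1) (of_decide_eq_true h.2)))
      refine ResE_nd (hq e').2.2 hdec.1 hdec.2.1 hdec.2.2 ?_
      have e1 : ResE_bb e'.2.1 e.2.1 (decide (e.2 = e'.1)) (decide (e.2 = e'.2)) -
          (xc e.2.1 : ℤ) * ResE_bb e'.2.1 e.1.1 (decide (e.1 = e'.1)) (decide (e.1 = e'.2)) =
          ((α e' e.2 : ℤ) - xc e.2.1 * α e' e.1) - (q e' : ℤ) * (k4 - xc e.2.1 * k3) := by
        rw [h3, h4]
        ring
      rw [e1]
      exact dvd_sub hd1 (Dvd.intro _ rfl)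
  set D : V n × V n → ℕ := fun e => (q e) ^ (L e.1 e.2 - 1) with hD
  have hD0 : ∀ e, 0 < D e := fun e => pow_pos (hq e).1.pos _
  have hQD : ∀ e, Q e = D e * q e := by
    intro e
    have : L e.1 e.2 = (L e.1 e.2 - 1) + 1 := by have := hL e.1 e.2; omega
    simp only [hQ, hD]
    conv_lhs => rw [this, pow_succ]
  -- the difference modulo its own prime
  have hdD : ∀ e ∈ EC n, ∃ k ε : ℤ, (ε = 1 ∨ ε = -1) ∧
      (r e.2 : ℤ) - xc e.2.1 * r e.1 = D e * (ε + q e * k) := by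
    intro e he
    obtain ⟨k1, h1⟩ := hrQ e he e.1
    obtain ⟨k2, h2⟩ := hrQ e he e.2
    have hne : e.2 ≠ e.1 := by
      intro h
      have := hec e he
      rw [h] at this
      exact lt_irrefl _ this
    by_cases hL1 : L e.1 e.2 = 1
    · refine ⟨k2 - xc e.2.1 * k1, _, ResE_one e.1.1 e.2.1 (hec e he), ?_⟩
      have hD1 : D e = 1 := by simp only [hD, hL1]; norm_num
      rw [h1, h2, hQD, hD1]
      simp only [hα, if_pos hL1]
      push_cast
      ring
    · refine ⟨k2 - xc e.2.1 * k1, 1, Or.inl rfl, ?_⟩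
      have ha1 : α e e.1 = 3 := by simp only [hα, if_neg hL1, if_true]
      have ha2 : α e e.2 = 3 * xc e.2.1 + D e := by simp only [hα, if_neg hL1, if_neg hne, if_true, hD]
      rw [h1, h2, ha1, ha2, hQD]
      push_cast
      ring
  set n₀ : V n × V n → ℕ := fun e => (r e.2 - xc e.2.1 * r e.1) / D e with hn0
  have hcast : ∀ e ∈ EC n, (((r e.2 - xc e.2.1 * r e.1 : ℕ) : ℤ)) = (r e.2 : ℤ) - xc e.2.1 * r e.1 := by
    intro e he
    rw [Nat.cast_sub (hlt e he).le]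
    push_cast
    ring
  have hdvd : ∀ e ∈ EC n, D e ∣ r e.2 - xc e.2.1 * r e.1 := by
    intro e he
    obtain ⟨k, ε, _, h⟩ := hdD e he
    rw [← Int.natCast_dvd_natCast, hcast e he, h]
    exact Dvd.intro _ rfl
  have hmul : ∀ e ∈ EC n, D e * n₀ e = r e.2 - xc e.2.1 * r e.1 := fun e he => Nat.mul_div_cancel' (hdvd e he)
  have hmulZ : ∀ e ∈ EC n, (D e : ℤ) * n₀ e = (r e.2 : ℤ) - xc e.2.1 * r e.1 := by
    intro e he
    rw [← hcast e he, ← hmul e he]
    push_cast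
    ring
  have hn0k : ∀ e ∈ EC n, ∃ k ε : ℤ, (ε = 1 ∨ ε = -1) ∧ (n₀ e : ℤ) = ε + q e * k := by
    intro e he
    obtain ⟨k, ε, hε, h⟩ := hdD e he
    refine ⟨k, ε, hε, ?_⟩
    rw [← hmulZ e he] at h
    have : (D e : ℤ) ≠ 0 := by exact_mod_cast (hD0 e).ne'
    exact mul_left_cancel₀ this h
  set W₁ : V n × V n → ℕ := fun e => P * (q e * ∏ e' ∈ (EC n).erase e, Q e') with hW1
  have hsm : ∀ e ∈ EC n, ∀ p : ℕ, p.Prime → p ≤ w₁ → p ∣ W₁ e := by
    intro e he p hp hpw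
    by_cases h : ∀ e' ∈ EC n, p ≠ q e'
    · exact (hPd p hp hpw h).trans (Dvd.intro _ rfl)
    · push Not at h
      obtain ⟨e', he', hpe⟩ := h
      by_cases hee : e' = e
      · rw [hpe, hee]
        exact (Dvd.intro _ rfl : q e ∣ q e * _).trans (Dvd.intro_left _ rfl)
      · rw [hpe]
        refine (hqQ e').trans ?_
        exact ((Finset.dvd_prod_of_mem Q (Finset.mem_erase.2 ⟨hee, he'⟩)).trans (Dvd.intro_left _ rfl)).trans
          (Dvd.intro_left _ rfl)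
  have hq5 : ∀ p : ℕ, p.Prime → p ≤ 5 → p ∣ P := by
    intro p hp hp5
    refine hPd p hp (by omega) ?_
    intro e _ h
    have := (hq e).2.2
    omega
  have h5 : (5 : ℕ) ∣ P := hq5 5 (by norm_num) le_rfl
  have h2 : (2 : ℕ) ∣ P := hq5 2 (by norm_num) (by norm_num)
  refine ⟨w₁, W₀, r, D, W₁, n₀, by omega, ?_⟩
  constructor
  · exact hW0pos
  · exact h2.trans (Dvd.intro _ rfl)
  · intro v hv
    obtain ⟨k, hk⟩ := hrP v
    obtain ⟨m, hm⟩ := h2
    have hg : ResE_gr v.1 = 1 := by rw [hv]; rfl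
    rw [hg, hm] at hk
    have hk' : (r v : ℤ) = 1 + 2 * ((m : ℤ) * k) := by rw [hk]; push_cast; ring
    generalize (m : ℤ) * k = X at hk'
    omega
  · intro e he
    have : R = Q e * ∏ e' ∈ (EC n).erase e, Q e' := (Finset.mul_prod_erase _ _ he).symm
    simp only [hW0, hW1]
    rw [this, hQD]
    ring
  · intro e he
    have h1 := hmul e he
    have h2 := hlt e he
    omega
  · intro e he
    have h1 := hmul e he
    have h2 := hlt e he
    rcases Nat.eq_zero_or_pos (n₀ e) with h | h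
    · rw [h] at h1
      omega
    · exact h
  · intro e he
    refine Nat.coprime_of_dvd fun p hp hpn hpW => ?_
    have hpnZ : (p : ℤ) ∣ (n₀ e : ℤ) := Int.natCast_dvd_natCast.2 hpn
    have hunit : ∀ ε : ℤ, (ε = 1 ∨ ε = -1) → ¬ (p : ℤ) ∣ ε := by
      intro ε hε hd
      have h1 : (p : ℤ) ∣ 1 := by
        rcases hε with h | h
        · rwa [h] at hd
        · rw [h] at hd
          exact (dvd_neg.1 hd)
      have := Int.natCast_dvd_natCast.1 (by exact_mod_cast h1 : ((p : ℕ) : ℤ) ∣ ((1 : ℕ) : ℤ))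
      exact hp.one_lt.ne' (Nat.dvd_one.1 this)
    have hpd : (p : ℤ) ∣ (r e.2 : ℤ) - xc e.2.1 * r e.1 := by
      rw [← hmulZ e he]
      exact hpnZ.mul_left _
    rcases (Nat.Prime.dvd_mul hp).1 hpW with h | h
    · obtain ⟨k, ε, hε, hk⟩ := hdP e he
      refine hunit ε hε ?_
      have e1 : ε = ((r e.2 : ℤ) - xc e.2.1 * r e.1) - P * k := by rw [hk]; ring
      rw [e1]
      exact dvd_sub hpd ((Int.natCast_dvd_natCast.2 h).mul_right _)
    · rcases (Nat.Prime.dvd_mul hp).1 h with h | h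
      · have hpq : p = q e := (Nat.prime_dvd_prime_iff_eq hp (hq e).1).1 h
        obtain ⟨k, ε, hε, hk⟩ := hn0k e he
        refine hunit ε hε ?_
        have e1 : ε = (n₀ e : ℤ) - q e * k := by rw [hk]; ring
        rw [e1]
        refine dvd_sub hpnZ ?_
        rw [hpq]
        exact Dvd.intro _ rfl
      · obtain ⟨e', he', hd⟩ := (hp.prime.dvd_finsetProd_iff _).1 h
        have hpq := hpQ e' p hp hd
        obtain ⟨hne, he'm⟩ := Finset.mem_erase.1 he'
        refine hdq e he e' he'm (Ne.symm hne) ?_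
        rw [← hpq]
        exact hpd
  · exact hsm
  · intro e he
    refine ⟨hsm e he 5 (by norm_num) (by omega), ?_⟩
    obtain ⟨k, ε, hε, hk⟩ := hdP e he
    rw [← hmulZ e he] at hk
    obtain ⟨m, hm⟩ := h5
    have hDm : D e % 5 = 1 := by
      simp only [hD]
      rw [Nat.pow_mod, (hq e).2.1]
      simp
    exact ResE_five (d := D e / 5) (by omega) hm hε hk
  · intro e he
    refine ⟨hD0 e, fun p hp hpd => Or.inl ?_⟩
    have : p = q e := (Nat.prime_dvd_prime_iff_eq hp (hq e).1).1 (hp.dvd_of_dvd_pow hpd)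
    rw [this]
    exact (hq e).2.1
  · intro e he p hp hpd
    have : p = q e := (Nat.prime_dvd_prime_iff_eq hp (hq e).1).1 (hp.dvd_of_dvd_pow hpd)
    rw [this]
    exact hqw e
  · intro e he
    simp only [hD]
    rw [ArithmeticFunction.cardFactors_apply_prime_pow (hq e).1]
    have := hL e.1 e.2
    omega
  · intro e he e' he' hne
    exact Nat.Coprime.pow _ _ ((Nat.coprime_primes (hq e).1 (hq e').1).2 (fun h => hne (hqi h)))

end Pool.Agent.Lib.MP_d57abb_nt.EE
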