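import Mathlib
import Pool.Agent.Lib.MP_d57abb_nt.EE.Four
import Pool.Agent.Lib.MP_d57abb_nt.EE.Tele
import Pool.Agent.Lib.MP_d57abb_nt.EE.CrL
import Pool.Agent.Lib.MP_d57abb_nt.EE.ResE

/-!
# JOB CfgE: the configuration exists

PROOF of `exists_pt`.  `m = |EC n| = 3 n²`, `four (m + 3)` gives `B'`; for large `ℓ` (finitely many `e`), with `Λ = log ℓ`: `|lpn| ≤ 2 Λ`, `|crm| ≤ Λ` on `[0, 5ℓ)` (`lp (W k + n₀) ≤ log (5 W ℓ + n₀) ≤ 2 Λ`, `dens ≥ 1` (`one_le_dens` in `All/FU.lean`), `cw_le`), so `tele` with `K = 2 Λ`, `η = ℓ / Λ^(m+3)`: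
`|TT lpn - TT crm| ≤ m (2Λ)^m (ℓ / Λ^(m+3)) ℓ^(3n-1) = m 2^m ℓ^(3n) / Λ³ ≤ ℓ^(3n) / (4 Λ)`, and by `crm_lower` `TT lpn ≥ 3 ℓ^(3n) / (4 Λ)`.
Coincidences: for `e ≠ e'` in `EC n` the number of `x ∈ Bx n ℓ` with `W₁ e mf(x e) + n₀ e = W₁ e' mf(x e') + n₀ e'` is at most `ℓ^(3n-1)`: there is a vertex which belongs to exactly one of the two pairs; given the other coordinates, its coordinate is determined (the equation is linear in it with a nonzero coefficient: `W₁ e > 0`; work with integers, `mf` is a true difference by `mf_range`).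
So the sum over the `x` with a coincidence is at most `m² ℓ^(3n-1) (2Λ)^m < ℓ^(3n) / (4Λ)`, and there is an `x` without coincidence and with nonzero product: all the `lpn ≠ 0`, i.e. `W₁ e mf + n₀ e` is prime (`lp` vanishes at non-primes).

PROOF of `exists_cfg`.  `exists_res n L hL (12 n² )`, `exists_pt`.  `y v = r v + W₀ (st v.1 ℓ + x v)`.  For `e = (u, v) ∈ EC n`: `y v - xc v.1 y u = (r v - xc v.1 r u) + W₀ mf = D e (n₀ e + W₁ e mf)` (`eqr`, `eqW`, `mf_range`); so `hd y u v = D e * p_e` with the prime `p_e = W₁ e mf + n₀ e`.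
`odd`: `W₀` is even.  `spl`: `p_e ≡ n₀ e (mod 5)` (`5 ∣ W₁ e`).  `om`: `cardFactors (D p) = cardFactors D + 1`.  `cop`: `D e`, `D e'` are coprime; `p_e ≠ p_e'`; `p_e ∤ D e'`: a prime divisor of `D e'` is `≤ w₁` (`dw`), but a prime `≤ w₁` divides `W₁ e` (`sm`) and not `n₀ e` (`cop`), so it does not divide `p_e`.
(The case `n = 0`: `V 0` is empty, any `y`.)
-/

open Finset Filter

namespace Pool.Agent.Lib.MP_d57abb_nt.EE

open Pool.Agent.Lib.MP_d57abb_nt.All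

theorem CfgE_xc_pos (g : Fin 3) : 0 < xc g := by
  unfold xc
  split_ifs <;> norm_num

theorem CfgE_mem {n : ℕ} {e : V n × V n} : e ∈ EC n ↔ e.1.1 < e.2.1 := by
  simp [EC]

/-- a vertex which belongs only to the first of two different pairs -/
theorem CfgE_vertex {n : ℕ} {e e' : V n × V n} (he : e ∈ EC n) (he' : e' ∈ EC n) (hne : e ≠ e') :
    ∃ s : V n, (s = e.1 ∨ s = e.2) ∧ s ≠ e'.1 ∧ s ≠ e'.2 := by
  rw [CfgE_mem] at he he'
  by_contra hcon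
  push Not at hcon
  have h1 := hcon e.1 (Or.inl rfl)
  have h2 := hcon e.2 (Or.inr rfl)
  by_cases h3 : e.1 = e'.1
  · by_cases h4 : e.2 = e'.2
    · exact hne (Prod.ext h3 h4)
    · have h5 : e.2 = e'.1 := by
        by_contra h
        exact h4 (h2 h)
      rw [h3, h5] at he
      exact lt_irrefl _ he
  · have h4 := h1 h3
    by_cases h5 : e.2 = e'.1
    · rw [h4, h5] at he
      exact lt_asymm he he'
    · have h6 := h2 h5
      rw [h4, h6] at he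
      exact lt_irrefl _ he

/-- the number of coincidences -/
theorem CfgE_coinc {n ℓ : ℕ} (W₁ n₀ : V n × V n → ℕ) {e e' : V n × V n} (he : e ∈ EC n) (he' : e' ∈ EC n)
    (hne : e ≠ e') (hW : 0 < W₁ e) :
    ((Bx n ℓ).filter (fun x => W₁ e * mf ℓ x e + n₀ e = W₁ e' * mf ℓ x e' + n₀ e')).card ≤ ℓ ^ (3 * n - 1) := by
  classical
  obtain ⟨s, hs, hs1, hs2⟩ := CfgE_vertex he he' hne
  have hee : e.1 ≠ e.2 := by
    intro h
    rw [CfgE_mem, h] at he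
    exact lt_irrefl _ he
  set T : Finset (V n → ℕ) := Fintype.piFinset (fun v : V n => if v = s then {0} else range ℓ) with hT
  have hTc : T.card = ℓ ^ (3 * n - 1) := by
    rw [hT, Fintype.card_piFinset]
    have h1 : ∀ v : V n, (if v = s then ({0} : Finset ℕ) else range ℓ).card = if v = s then 1 else ℓ := by
      intro v
      split_ifs
      · exact card_singleton 0
      · exact card_range ℓ
    rw [Finset.prod_congr rfl fun v _ => h1 v, Finset.prod_ite, Finset.prod_const_one, one_mul, Finset.prod_const]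
    congr 1
    have h2 : (univ.filter fun v : V n => ¬ v = s) = univ.erase s := by
      ext v
      simp
    rw [h2, Finset.card_erase_of_mem (mem_univ s), Finset.card_univ, Fintype.card_prod, Fintype.card_fin,
      Fintype.card_fin]
  rw [← hTc]
  refine Finset.card_le_card_of_injOn (fun x => Function.update x s 0) ?_ ?_
  · intro x hx
    have hx1 : x ∈ Bx n ℓ := (mem_filter.1 hx).1
    show Function.update x s 0 ∈ T
    rw [hT, Fintype.mem_piFinset]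
    intro v
    by_cases hv : v = s
    · subst hv
      simp
    · rw [if_neg hv, Function.update_of_ne hv]
      exact Fintype.mem_piFinset.1 hx1 v
  · intro x hx x' hx' hxx
    have hx1 := mem_filter.1 hx
    have hx2 := mem_filter.1 hx'
    have hv : ∀ v, v ≠ s → x v = x' v := by
      intro v hv
      have h1 := congrFun hxx v
      simpa [Function.update_of_ne hv] using h1
    have h1 : mf ℓ x e' = mf ℓ x' e' := by
      unfold mf
      rw [hv _ hs1.symm, hv _ hs2.symm]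
    have h2 : mf ℓ x e = mf ℓ x' e := by
      have h3 := hx1.2
      have h4 := hx2.2
      rw [h1] at h3
      exact Nat.eq_of_mul_eq_mul_left hW (Nat.add_right_cancel (h3.trans h4.symm))
    have h3 := (mf_range x hx1.1 e he).1
    have h4 := (mf_range x' hx2.1 e he).1
    unfold mf at h2
    have hxs : x s = x' s := by
      rcases hs with rfl | rfl
      · rw [hv e.2 hee.symm] at h2 h3
        have h5 : xc e.2.1 * (st e.1.1 * ℓ + x e.1) = xc e.2.1 * (st e.1.1 * ℓ + x' e.1) := by omega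
        have h6 := Nat.eq_of_mul_eq_mul_left (CfgE_xc_pos _) h5
        omega
      · rw [hv e.1 hee] at h2 h3
        omega
    funext v
    by_cases hvs : v = s
    · rw [hvs]
      exact hxs
    · exact hv v hvs

/-- an upper bound of the counting form if every point has a coincidence or a zero factor -/
theorem CfgE_upper {n ℓ : ℕ} {W₁ n₀ : V n × V n → ℕ} (hW : ∀ e ∈ EC n, 0 < W₁ e) (K : ℝ) (hK : 0 ≤ K)
    (hf : ∀ e ∈ EC n, ∀ k < 5 * ℓ, 0 ≤ lpn (W₁ e) (n₀ e) k ∧ lpn (W₁ e) (n₀ e) k ≤ K)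
    (hcon : ∀ x ∈ Bx n ℓ, (∀ e ∈ EC n, (W₁ e * mf ℓ x e + n₀ e).Prime) →
      ∃ e ∈ EC n, ∃ e' ∈ EC n, e ≠ e' ∧ W₁ e * mf ℓ x e + n₀ e = W₁ e' * mf ℓ x e' + n₀ e') :
    TT ℓ (fun e k => lpn (W₁ e) (n₀ e) k) ≤ ((EC n).card : ℝ) ^ 2 * K ^ (EC n).card * (ℓ : ℝ) ^ (3 * n - 1) := by
  classical
  set S : Finset (V n → ℕ) := (Bx n ℓ).filter (fun x => ∃ e ∈ EC n, ∃ e' ∈ EC n, e ≠ e' ∧
    W₁ e * mf ℓ x e + n₀ e = W₁ e' * mf ℓ x e' + n₀ e') with hS
  have h1 : TT ℓ (fun e k => lpn (W₁ e) (n₀ e) k) ≤ ∑ x ∈ Bx n ℓ, if x ∈ S then K ^ (EC n).card else 0 := by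
    unfold TT
    refine Finset.sum_le_sum fun x hx => ?_
    have hr : ∀ e ∈ EC n, mf ℓ x e < 5 * ℓ := fun e he => (mf_range x hx e he).2
    by_cases hxS : x ∈ S
    · rw [if_pos hxS]
      calc ∏ e ∈ EC n, lpn (W₁ e) (n₀ e) (mf ℓ x e) ≤ ∏ _e ∈ EC n, K :=
            Finset.prod_le_prod (fun e he => (hf e he _ (hr e he)).1) (fun e he => (hf e he _ (hr e he)).2)
        _ = K ^ (EC n).card := Finset.prod_const K
    · rw [if_neg hxS]
      have h2 : ¬ ∀ e ∈ EC n, (W₁ e * mf ℓ x e + n₀ e).Prime := fun h => hxS (mem_filter.2 ⟨hx, hcon x hx h⟩)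
      push Not at h2
      obtain ⟨e, he, hp⟩ := h2
      refine le_of_eq (Finset.prod_eq_zero he ?_)
      show lpn (W₁ e) (n₀ e) (mf ℓ x e) = 0
      unfold lpn All.lp
      rw [if_neg hp, zero_div]
  have h2 : S.card ≤ (EC n).card ^ 2 * ℓ ^ (3 * n - 1) := by
    have hsub : S ⊆ (EC n ×ˢ EC n).biUnion (fun d => if d.1 ≠ d.2 ∧ d.1 ∈ EC n ∧ d.2 ∈ EC n then
        (Bx n ℓ).filter (fun x => W₁ d.1 * mf ℓ x d.1 + n₀ d.1 = W₁ d.2 * mf ℓ x d.2 + n₀ d.2) else ∅) := by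
      intro x hx
      obtain ⟨hx1, e, he, e', he', hne, heq⟩ := mem_filter.1 hx
      refine mem_biUnion.2 ⟨(e, e'), mem_product.2 ⟨he, he'⟩, ?_⟩
      rw [if_pos ⟨hne, he, he'⟩]
      exact mem_filter.2 ⟨hx1, heq⟩
    refine (card_le_card hsub).trans (card_biUnion_le.trans ?_)
    refine (Finset.sum_le_card_nsmul _ _ (ℓ ^ (3 * n - 1)) fun d _ => ?_).trans ?_
    · split_ifs with h
      · exact CfgE_coinc W₁ n₀ h.2.1 h.2.2 h.1 (hW _ h.2.1)
      · simp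
    · rw [card_product, smul_eq_mul, sq]
  have h3 : ∑ x ∈ Bx n ℓ, (if x ∈ S then K ^ (EC n).card else 0) = S.card * K ^ (EC n).card := by
    rw [← Finset.sum_filter, Finset.sum_const, nsmul_eq_mul]
    congr 2
    congr 1
    ext x
    simp only [mem_filter, hS]
    tauto
  rw [h3] at h1
  refine h1.trans ?_
  have h4 : (S.card : ℝ) ≤ ((EC n).card : ℝ) ^ 2 * (ℓ : ℝ) ^ (3 * n - 1) := by exact_mod_cast h2
  calc (S.card : ℝ) * K ^ (EC n).card ≤ (((EC n).card : ℝ) ^ 2 * (ℓ : ℝ) ^ (3 * n - 1)) * K ^ (EC n).card :=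
        mul_le_mul_of_nonneg_right h4 (pow_nonneg hK _)
    _ = _ := by ring

theorem CfgE_dens (W : ℕ) (hW : 0 < W) : 1 ≤ All.dens W := by
  unfold All.dens
  rw [one_le_div (by exact_mod_cast Nat.totient_pos.2 hW)]
  exact_mod_cast Nat.totient_le W

theorem CfgE_lpn {W n₀ : ℕ} (hW : 0 < W) : ∀ᶠ ℓ : ℕ in atTop, ∀ k < 5 * ℓ,
    0 ≤ lpn W n₀ k ∧ lpn W n₀ k ≤ 2 * Real.log ℓ := by
  filter_upwards [eventually_ge_atTop (5 * W + n₀ + 1)] with ℓ hℓ k hk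
  have hd := CfgE_dens W hW
  have h0 : 0 ≤ All.lp (W * k + n₀) := by
    unfold All.lp
    split_ifs
    · exact Real.log_natCast_nonneg _
    · exact le_rfl
  have h1 : All.lp (W * k + n₀) ≤ 2 * Real.log ℓ := by
    have hl1 : 1 ≤ ℓ := by omega
    have hlog : 0 ≤ Real.log ℓ := Real.log_natCast_nonneg _
    unfold All.lp
    split_ifs with hp
    · have h2 : W * k + n₀ ≤ ℓ ^ 2 := by
        have h3 : W * k ≤ W * (5 * ℓ) := Nat.mul_le_mul_left _ hk.le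
        nlinarith
      have h4 : (0 : ℝ) < ((W * k + n₀ : ℕ) : ℝ) := by exact_mod_cast hp.pos
      calc Real.log ((W * k + n₀ : ℕ) : ℝ) ≤ Real.log ((ℓ ^ 2 : ℕ) : ℝ) :=
            Real.log_le_log h4 (by exact_mod_cast h2)
        _ = 2 * Real.log ℓ := by
            push_cast
            rw [Real.log_pow]
            norm_num
    · linarith
  unfold lpn
  refine ⟨div_nonneg h0 (by linarith), ?_⟩
  exact (div_le_self h0 hd).trans h1

theorem exists_pt {n : ℕ} (hn : 1 ≤ n) {L : V n → V n → ℕ} {w₁ W₀ : ℕ} {r : V n → ℕ} {D W₁ n₀ : V n × V n → ℕ}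
    (hR : Res L w₁ W₀ r D W₁ n₀) (hw : 12 * n ^ 2 ≤ w₁) :
    ∃ (ℓ : ℕ) (x : V n → ℕ), x ∈ Bx n ℓ ∧ (∀ e ∈ EC n, (W₁ e * mf ℓ x e + n₀ e).Prime) ∧
      ∀ e ∈ EC n, ∀ e' ∈ EC n, e ≠ e' → W₁ e * mf ℓ x e + n₀ e ≠ W₁ e' * mf ℓ x e' + n₀ e' := by
  classical
  set m : ℕ := (EC n).card with hm
  have hWp : ∀ e ∈ EC n, 0 < W₁ e := by
    intro e he
    have h1 := hR.hW
    rw [hR.eqW e he] at h1
    exact Nat.pos_of_mul_pos_left h1
  obtain ⟨B', hB'⟩ := four (m + 3)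
  have hev1 : ∀ᶠ ℓ : ℕ in atTop, ∀ e ∈ EC n, ∀ θ : ℝ, ∀ u : ℕ, u ≤ 5 * ℓ →
      ‖∑ k ∈ range u, ((lpn (W₁ e) (n₀ e) k - crm (W₁ e) (n₀ e) (wB B' ℓ) k : ℝ) : ℂ) *
        Pool.Agent.Lib.MP_2a816b_nt.e (k * θ)‖ ≤ ℓ / Real.log ℓ ^ (m + 3) := by
    rw [Finset.eventually_all]
    intro e he
    obtain ⟨ℓ₀, h⟩ := hB' (W₁ e) (n₀ e) (hWp e he) (hR.cop e he)
    exact eventually_atTop.2 ⟨ℓ₀, h⟩
  have hev2 : ∀ᶠ ℓ : ℕ in atTop, ∀ e ∈ EC n, ∀ k < 5 * ℓ,
      0 ≤ lpn (W₁ e) (n₀ e) k ∧ lpn (W₁ e) (n₀ e) k ≤ 2 * Real.log ℓ := by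
    rw [Finset.eventually_all]
    intro e he
    exact CfgE_lpn (hWp e he)
  have hev3 : ∀ᶠ ℓ : ℕ in atTop, ∀ e ∈ EC n, cw (W₁ e) (wB B' ℓ) ≤ Real.log ℓ := by
    rw [Finset.eventually_all]
    intro e he
    obtain ⟨ℓ₀, h⟩ := cw_le (W₁ e) B'
    exact eventually_atTop.2 ⟨ℓ₀, h⟩
  obtain ⟨ℓ4, h4⟩ := crm_lower hn hR hw B'
  have hev4 : ∀ᶠ ℓ : ℕ in atTop, (ℓ : ℝ) ^ (3 * n) / Real.log ℓ ≤
      TT ℓ (fun e k => crm (W₁ e) (n₀ e) (wB B' ℓ) k) := eventually_atTop.2 ⟨ℓ4, h4⟩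
  have hlogt : Tendsto (fun ℓ : ℕ => Real.log (ℓ : ℝ)) atTop atTop :=
    Real.tendsto_log_atTop.comp tendsto_natCast_atTop_atTop
  have hev5 := hlogt.eventually_ge_atTop (4 * (m : ℝ) * 2 ^ m + 1)
  have hev6 : ∀ᶠ ℓ : ℕ in atTop, 4 * (m : ℝ) ^ 2 * 2 ^ m * Real.log ℓ ^ (m + 1) ≤ ℓ := by
    have h1 : (fun ℓ : ℕ => Real.log (ℓ : ℝ) ^ (m + 1)) =o[atTop] (fun ℓ : ℕ => (ℓ : ℝ)) :=
      Real.isLittleO_pow_log_id_atTop.comp_tendsto tendsto_natCast_atTop_atTop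
    have h2 := h1.bound (c := 1 / (4 * (m : ℝ) ^ 2 * 2 ^ m + 1)) (by positivity)
    filter_upwards [h2, hlogt.eventually_ge_atTop 0] with ℓ h3 h4
    rw [Real.norm_of_nonneg (by positivity), Real.norm_of_nonneg (Nat.cast_nonneg _), div_mul_eq_mul_div, one_mul,
      le_div_iff₀ (by positivity)] at h3
    have h5 : 0 ≤ Real.log (ℓ : ℝ) ^ (m + 1) := by positivity
    nlinarith
  obtain ⟨ℓ, h1, h2, h3, h4', h5, h6, h7⟩ := (hev1.and (hev2.and (hev3.and (hev4.and (hev5.and (hev6.and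
    (eventually_ge_atTop 1))))))).exists
  by_contra hcon
  push Not at hcon
  set Λ : ℝ := Real.log ℓ with hΛ
  have hmn : (0 : ℝ) ≤ 4 * (m : ℝ) * 2 ^ m := by positivity
  have hΛ1 : 1 ≤ Λ := by linarith
  have hΛ0 : 0 < Λ := by linarith
  have hℓ0 : (0 : ℝ) < ℓ := by exact_mod_cast h7
  -- upper bound
  have hup := CfgE_upper hWp (2 * Λ) (by positivity) h2 (fun x hx hp => by
    obtain ⟨e, he, e', he', hne, h⟩ := hcon ℓ x hx hp
    exact ⟨e, he, e', he', hne, h⟩)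
  -- comparison with the model
  have htele := tele n ℓ hn h7 (fun e k => lpn (W₁ e) (n₀ e) k) (fun e k => crm (W₁ e) (n₀ e) (wB B' ℓ) k) (2 * Λ)
    (ℓ / Λ ^ (m + 3)) (by linarith) (by positivity)
    (fun e he k hk => by
      rw [abs_of_nonneg (h2 e he k hk).1]
      exact (h2 e he k hk).2)
    (fun e he k hk => by
      have h8 := one_le_cw (W₁ e) (wB B' ℓ)
      have h9 := h3 e he
      show |crm (W₁ e) (n₀ e) (wB B' ℓ) k| ≤ 2 * Λ
      unfold crm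
      split_ifs
      · rw [abs_of_nonneg (by linarith)]
        linarith
      · rw [abs_zero]
        linarith)
    (fun e he θ => h1 e he θ (5 * ℓ) le_rfl)
  rw [← hm] at hup htele
  have hpow : (ℓ : ℝ) ^ (3 * n) = ℓ * (ℓ : ℝ) ^ (3 * n - 1) := by
    rw [← pow_succ']
    congr 1
    omega
  set P : ℝ := (ℓ : ℝ) ^ (3 * n - 1) with hP
  have hP0 : 0 < P := by positivity
  have e1 : (m : ℝ) * (2 * Λ) ^ m * (ℓ / Λ ^ (m + 3)) * P = m * 2 ^ m * (ℓ * P) / Λ ^ 3 := by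
    rw [mul_pow, pow_add]
    field_simp
  have e2 : (m : ℝ) * 2 ^ m * (ℓ * P) / Λ ^ 3 ≤ (ℓ * P) / (4 * Λ) := by
    rw [div_le_div_iff₀ (by positivity) (by positivity)]
    have h8 : (m : ℝ) * 2 ^ m * 4 ≤ Λ ^ 2 := by nlinarith
    have h9 : 0 < ℓ * P * Λ := by positivity
    calc (m : ℝ) * 2 ^ m * (ℓ * P) * (4 * Λ) = (m * 2 ^ m * 4) * (ℓ * P * Λ) := by ring
      _ ≤ Λ ^ 2 * (ℓ * P * Λ) := mul_le_mul_of_nonneg_right h8 h9.le
      _ = ℓ * P * Λ ^ 3 := by ring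
  have e3 : (m : ℝ) ^ 2 * (2 * Λ) ^ m * P ≤ (ℓ * P) / (4 * Λ) := by
    rw [le_div_iff₀ (by positivity), mul_pow]
    calc (m : ℝ) ^ 2 * (2 ^ m * Λ ^ m) * P * (4 * Λ) = (4 * (m : ℝ) ^ 2 * 2 ^ m * Λ ^ (m + 1)) * P := by
          rw [pow_succ]
          ring
      _ ≤ ℓ * P := mul_le_mul_of_nonneg_right h6 hP0.le
  have e4 : (ℓ : ℝ) * P / Λ = 4 * ((ℓ * P) / (4 * Λ)) := by
    field_simp
  have e5 : 0 < (ℓ : ℝ) * P / (4 * Λ) := by positivity
  rw [e1] at htele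
  rw [hpow, e4] at h4'
  have h10 := (abs_le.1 htele).1
  linarith

theorem exists_cfg (n : ℕ) (L : V n → V n → ℕ) (hL : ∀ u v, 1 ≤ L u v) : ∃ y : V n → ℕ, Cfg L y := by
  rcases Nat.eq_zero_or_pos n with rfl | hn
  · exact ⟨fun _ => 0, ⟨fun v => v.2.elim0, fun u => u.2.elim0, fun u => u.2.elim0, fun u => u.2.elim0,
      fun u => u.2.elim0⟩⟩
  obtain ⟨w₁, W₀, r, D, W₁, n₀, hw, hR⟩ := exists_res n L hL (12 * n ^ 2)
  obtain ⟨ℓ, x, hx, hpr, hne⟩ := exists_pt hn hR hw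
  set y : V n → ℕ := fun v => r v + W₀ * (st v.1 * ℓ + x v) with hy
  have key : ∀ e ∈ EC n, y e.2 = xc e.2.1 * y e.1 + D e * (W₁ e * mf ℓ x e + n₀ e) := by
    intro e he
    have h1 := (mf_range x hx e he).1
    have h2 : st e.2.1 * ℓ + x e.2 = mf ℓ x e + xc e.2.1 * (st e.1.1 * ℓ + x e.1) := by
      unfold mf
      omega
    simp only [hy]
    rw [h2, hR.eqr e he]
    have h3 := hR.eqW e he
    calc xc e.2.1 * r e.1 + D e * n₀ e + W₀ * (mf ℓ x e + xc e.2.1 * (st e.1.1 * ℓ + x e.1))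
        = xc e.2.1 * r e.1 + D e * n₀ e + (W₀ * mf ℓ x e + W₀ * (xc e.2.1 * (st e.1.1 * ℓ + x e.1))) := by ring
      _ = xc e.2.1 * r e.1 + D e * n₀ e + (D e * W₁ e * mf ℓ x e + W₀ * (xc e.2.1 * (st e.1.1 * ℓ + x e.1))) := by
          rw [← h3]
      _ = xc e.2.1 * (r e.1 + W₀ * (st e.1.1 * ℓ + x e.1)) + D e * (W₁ e * mf ℓ x e + n₀ e) := by ring
  have hD0 : ∀ e ∈ EC n, 0 < D e := fun e he => (hR.spl e he).1
  have hhd : ∀ u v : V n, u.1 < v.1 → hd y u v = D (u, v) * (W₁ (u, v) * mf ℓ x (u, v) + n₀ (u, v)) := by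
    intro u v huv
    have h1 := key (u, v) (CfgE_mem.2 huv)
    unfold hd
    simp only at h1
    rw [h1]
    omega
  have hnd : ∀ e ∈ EC n, ∀ e' ∈ EC n, Nat.Coprime (W₁ e * mf ℓ x e + n₀ e) (D e') := by
    intro e he e' he'
    rw [(hpr e he).coprime_iff_not_dvd]
    intro hdv
    have h1 := hR.dw e' he' _ (hpr e he) hdv
    have h2 := hR.sm e he _ (hpr e he) h1
    have h3 : (W₁ e * mf ℓ x e + n₀ e) ∣ n₀ e :=
      (Nat.dvd_add_right (dvd_mul_of_dvd_left h2 _)).1 dvd_rfl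
    have h4 := Nat.dvd_gcd h3 h2
    rw [hR.cop e he] at h4
    exact (hpr e he).one_lt.ne' (Nat.dvd_one.1 h4)
  refine ⟨y, ⟨?_, ?_, ?_, ?_, ?_⟩⟩
  · intro v hv
    have h1 := hR.odd v hv
    obtain ⟨c, hc⟩ := hR.ev
    simp only [hy]
    rw [hc, mul_assoc]
    omega
  · intro u v huv
    have h1 := key (u, v) (CfgE_mem.2 huv)
    simp only at h1
    rw [h1]
    have h2 : 0 < D (u, v) * (W₁ (u, v) * mf ℓ x (u, v) + n₀ (u, v)) :=
      Nat.mul_pos (hD0 _ (CfgE_mem.2 huv)) (hpr _ (CfgE_mem.2 huv)).pos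
    omega
  · intro u v huv
    have he : (u, v) ∈ EC n := CfgE_mem.2 huv
    rw [hhd u v huv]
    refine ⟨Nat.mul_pos (hD0 _ he) (hpr _ he).pos, fun p hp hpd => ?_⟩
    rcases (hp.dvd_mul).1 hpd with h1 | h1
    · exact (hR.spl _ he).2 p hp h1
    · have h2 := (Nat.prime_dvd_prime_iff_eq hp (hpr _ he)).1 h1
      obtain ⟨⟨c, hc⟩, h3⟩ := hR.five _ he
      rw [h2, hc, mul_assoc]
      omega
  · intro u v huv
    have he : (u, v) ∈ EC n := CfgE_mem.2 huv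
    rw [hhd u v huv, ArithmeticFunction.cardFactors_mul (hD0 _ he).ne' (hpr _ he).ne_zero,
      ArithmeticFunction.cardFactors_apply_prime (hpr _ he)]
    exact hR.om _ he
  · intro u v u' v' huv huv' hne'
    have he : (u, v) ∈ EC n := CfgE_mem.2 huv
    have he' : (u', v') ∈ EC n := CfgE_mem.2 huv'
    rw [hhd u v huv, hhd u' v' huv']
    refine Nat.Coprime.mul_left (Nat.Coprime.mul_right (hR.copD _ he _ he' hne') (hnd _ he' _ he).symm)
      (Nat.Coprime.mul_right (hnd _ he _ he') ?_)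
    exact (Nat.coprime_primes (hpr _ he) (hpr _ he')).2 (hne _ he _ he' hne')

end Pool.Agent.Lib.MP_d57abb_nt.EE
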