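import Mathlib
import Pool.Agent.Lib.MP_d57abb_nt.EE.DefS

/-!
# JOB ResS: the residues of the configuration, squarefree version

PROOF: adapt `EE/ResE.lean` (complete there, `exists_res`; its private lemmas must be copied).  The changes: for every cross pair `e` with label `L e` take a set `Q e` of `L e - 1` distinct primes `≡ 1 (mod 5)`, all `> max (w', 1000)`, all the sets `Q e` pairwise disjoint (there are infinitely many primes `≡ 1 (mod 5)`).
`D e = ∏_{q ∈ Q e} q` (squarefree, `cardFactors (D e) + 1 = L e`), `w₁ ≥ w'`, `5`, all the chosen primes; `W₀ = (product of the primes ≤ w₁ which are in no Q e) * ∏_e ∏_{q ∈ Q e} q²` (or `(w₁!)²`); `W₁ e = W₀ / D e`.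
Residues: for a prime `p ≤ w₁` outside all the `Q e`: `r v ≡ pt v.1 (mod p)` (0, 1, 1 by group; the differences `r v - xc v.1 r u` are `1, 1, -1`); for `q ∈ Q e`, `e = (u, v)`: modulo `q²`: `r s ≡ pt s.1` for `s ≠ u, v`, `r u ≡ 3`, `r v ≡ 3 xc v.1 + q`.
Then `q` divides `r v - xc v.1 r u` exactly once, and the other cross differences are, modulo `q`, among `± 1, -2, -5, 3, 6, 4` (see the table in `ResE`), units as `q > 1000`.
`pat`: by construction, as the primes of the `Q e` are `> w'`.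
`gen`: for `q ∈ Q e`, `e = (u, v)`, `s ≠ u, v`: `xc u.1 = 1` (`u.1 < v.1`), `dd r u s ≡ pt s.1 - 3 xc s.1 (mod q)`, which is `-3, -2, -5` for the groups `0, 1, 2`; and `dd² - 5 (xc s.1)²` is `9 - 5 = 4`, `4 - 5 = -1`, `25 - 20 = 5`: all nonzero modulo `q`.
Every prime divisor of `D e` is in `Q e`.  The other fields (`eqW`, `eqr`, `n0`, `cop`, `sm`, `five`, `spl`, `dw`, `om`, `copD`, `ev`, `odd`) as in `ResE` (lift the residues to natural numbers with `c_g W₀`, `c = 0, 2, 8`).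
-/

open Finset

namespace Pool.Agent.Lib.MP_d57abb_nt.EE

private lemma ResS_q (ι : Type) [Fintype ι] (N : ℕ) : ∃ q : ι → ℕ, Function.Injective q ∧
    ∀ e, (q e).Prime ∧ q e % 5 = 1 ∧ N < q e := by
  have hinf : ({p : ℕ | p.Prime ∧ p % 5 = 1 ∧ N < p}).Infinite := by
    refine Set.infinite_of_forall_exists_gt fun a => ?_
    obtain ⟨p, hp, hpa, hp5⟩ := Nat.exists_prime_gt_modEq_one (k := 5) (a + N) (by norm_num)
    refine ⟨p, ⟨hp, ?_, by omega⟩, by omega⟩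
    have : p % 5 = 1 % 5 := hp5
    omega
  set f := hinf.natEmbedding with hf
  refine ⟨fun e => (f (Fintype.equivFin ι e) : ℕ), ?_, fun e => ?_⟩
  · intro a b hab
    have h1 : f (Fintype.equivFin ι a) = f (Fintype.equivFin ι b) := Subtype.ext hab
    have h2 := f.injective h1
    exact (Fintype.equivFin ι).injective (Fin.ext h2)
  · exact (f (Fintype.equivFin ι e)).2

private def ResS_bb (d a : Fin 3) (isU isV : Bool) : ℤ :=
  if isU then 3 else if isV then 3 * (xc d : ℤ) else (pt a : ℤ)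

private lemma ResS_dec : ∀ a b c d : Fin 3, ∀ su sv tu tv : Bool, a < b → c < d → (su = true → a = c) →
    (sv = true → a = d) → (tu = true → b = c) → (tv = true → b = d) → ¬ (su = true ∧ tv = true) →
    (ResS_bb d b tu tv - (xc b : ℤ) * ResS_bb d a su sv ≠ 0 ∧
      ResS_bb d b tu tv - (xc b : ℤ) * ResS_bb d a su sv < 11 ∧
      -11 < ResS_bb d b tu tv - (xc b : ℤ) * ResS_bb d a su sv) := by
  decide

private lemma ResS_one : ∀ a b : Fin 3, a < b →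
    ((pt b : ℤ) - (xc b : ℤ) * (pt a : ℤ) = 1 ∨ (pt b : ℤ) - (xc b : ℤ) * (pt a : ℤ) = -1) := by
  decide

private lemma ResS_gen : ∀ a c : Fin 3, c ≠ 2 → (xc c : ℤ) = 1 ∧
    ((xc c : ℤ) * (pt a : ℤ) - (xc a : ℤ) * 3 ≠ 0 ∧ (xc c : ℤ) * (pt a : ℤ) - (xc a : ℤ) * 3 < 11 ∧
      -11 < (xc c : ℤ) * (pt a : ℤ) - (xc a : ℤ) * 3) ∧
    (((xc c : ℤ) * (pt a : ℤ) - (xc a : ℤ) * 3) ^ 2 - 5 * (xc c : ℤ) ^ 2 * (xc a : ℤ) ^ 2 ≠ 0 ∧
      ((xc c : ℤ) * (pt a : ℤ) - (xc a : ℤ) * 3) ^ 2 - 5 * (xc c : ℤ) ^ 2 * (xc a : ℤ) ^ 2 < 11 ∧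
      -11 < ((xc c : ℤ) * (pt a : ℤ) - (xc a : ℤ) * 3) ^ 2 - 5 * (xc c : ℤ) ^ 2 * (xc a : ℤ) ^ 2) := by
  decide

private lemma ResS_nd {p : ℕ} (hp : 11 ≤ p) {x : ℤ} (h0 : x ≠ 0) (h1 : x < 11) (h2 : -11 < x) : ¬ (p : ℤ) ∣ x := by
  intro h
  apply h0
  refine Int.eq_zero_of_abs_lt_dvd h ?_
  rw [abs_lt]
  constructor <;> omega

private lemma ResS_lt {W : ℕ} (hW : 0 < W) (ρ : ℕ) (g h : Fin 3) (ρ' : ℕ) (hgh : g < h) :
    xc h * (ρ % W + (if g = 0 then 0 else if g = 1 then 2 else 8) * W) <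
      ρ' % W + (if h = 0 then 0 else if h = 1 then 2 else 8) * W := by
  have h1 : ρ % W < W := Nat.mod_lt _ hW
  have h2 : ∀ g h : Fin 3, g < h → (g = 0 ∧ h = 1) ∨ (g = 0 ∧ h = 2) ∨ (g = 1 ∧ h = 2) := by decide
  have e1 : xc 1 = 1 := by decide
  have e2 : xc 2 = 2 := by decide
  rcases h2 g h hgh with ⟨rfl, rfl⟩ | ⟨rfl, rfl⟩ | ⟨rfl, rfl⟩
  · rw [e1]; simp only [if_true, one_ne_zero, if_false]; omega
  · rw [e2]; simp; omega
  · rw [e2]; simp; omega

private lemma ResS_five {N D P d m : ℕ} {k ε : ℤ} (hD : D = 5 * d + 1) (hP : P = 5 * m) (hε : ε = 1 ∨ ε = -1)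
    (h : (D : ℤ) * N = ε + P * k) : N % 5 = 1 ∨ N % 5 = 4 := by
  subst hD hP
  have e : ((N : ℤ)) + 5 * ((d : ℤ) * N) = ε + 5 * ((m : ℤ) * k) := by
    have : (((5 * d + 1 : ℕ) : ℤ)) * N = N + 5 * ((d : ℤ) * N) := by push_cast; ring
    rw [this] at h
    rw [h]
    push_cast
    ring
  generalize (d : ℤ) * N = X at e
  generalize (m : ℤ) * k = Y at e
  omega

private lemma ResS_card {ι : Type} (s : Finset ι) (f : ι → ℕ) (hf : ∀ i ∈ s, (f i).Prime) :
    ArithmeticFunction.cardFactors (∏ i ∈ s, f i) = s.card := by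
  classical
  induction s using Finset.induction_on with
  | empty => simp
  | insert a s ha ih =>
    rw [Finset.prod_insert ha, Finset.card_insert_of_notMem ha]
    have h1 : f a ≠ 0 := (hf a (Finset.mem_insert_self a s)).ne_zero
    have h2 : ∏ i ∈ s, f i ≠ 0 := Finset.prod_ne_zero_iff.2 fun i hi => (hf i (Finset.mem_insert_of_mem hi)).ne_zero
    rw [ArithmeticFunction.cardFactors_mul h1 h2,
      ArithmeticFunction.cardFactors_apply_prime (hf a (Finset.mem_insert_self a s)),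
      ih fun i hi => hf i (Finset.mem_insert_of_mem hi)]
    ring

theorem exists_resS (n : ℕ) (L : V n → V n → ℕ) (hL : ∀ u v, 1 ≤ L u v) (w' : ℕ) :
    ∃ (w₁ W₀ : ℕ) (r : V n → ℕ) (D W₁ n₀ : V n × V n → ℕ), w' ≤ w₁ ∧ ResS L w' w₁ W₀ r D W₁ n₀ := by
  classical
  obtain ⟨q, hqi, hq⟩ := ResS_q ((e : V n × V n) × Fin (L e.1 e.2 - 1)) (w' + 1000)
  set w₁ : ℕ := w' + 5 + ∑ x, q x with hw1
  have hqw : ∀ x, q x ≤ w₁ := by
    intro x
    have := Finset.single_le_sum (f := q) (fun _ _ => Nat.zero_le _) (Finset.mem_univ x)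
    omega
  have hq11 : ∀ x, 11 ≤ q x := fun x => by have := (hq x).2.2; omega
  have hec : ∀ e : V n × V n, e ∈ EC n → e.1.1 < e.2.1 := fun e he => (Finset.mem_filter.1 he).2
  set J : Finset ((e : V n × V n) × Fin (L e.1 e.2 - 1)) := univ.filter (fun x => x.1 ∈ EC n) with hJ
  have hJm : ∀ x, x ∈ J ↔ x.1 ∈ EC n := fun x => by rw [hJ, Finset.mem_filter]; simp
  set Ps := (Icc 1 w₁).filter (fun p => p.Prime ∧ ∀ x ∈ J, p ≠ q x) with hPs
  set P := ∏ p ∈ Ps, p with hPdef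
  have hPd : ∀ p : ℕ, p.Prime → p ≤ w₁ → (∀ x ∈ J, p ≠ q x) → p ∣ P := by
    intro p hp hpw hpe
    exact Finset.dvd_prod_of_mem (fun p => p) (Finset.mem_filter.2 ⟨Finset.mem_Icc.2 ⟨hp.one_le, hpw⟩, hp, hpe⟩)
  have hP0 : 0 < P := Finset.prod_pos fun p hp => ((Finset.mem_filter.1 hp).2.1).pos
  have hPp : ∀ p : ℕ, p.Prime → p ∣ P → ∀ x ∈ J, p ≠ q x := by
    intro p hp hpP
    obtain ⟨p', hp', hd⟩ := (hp.prime.dvd_finsetProd_iff _).1 hpP
    have h1 := (Finset.mem_filter.1 hp').2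
    have h2 : p = p' := (Nat.prime_dvd_prime_iff_eq hp h1.1).1 hd
    rw [h2]
    exact h1.2
  set D : V n × V n → ℕ := fun e => ∏ i : Fin (L e.1 e.2 - 1), q ⟨e, i⟩ with hD
  have hD0 : ∀ e, 0 < D e := fun e => Finset.prod_pos fun i _ => (hq ⟨e, i⟩).1.pos
  have hqD : ∀ x : (e : V n × V n) × Fin (L e.1 e.2 - 1), q x ∣ D x.1 := fun x =>
    Finset.dvd_prod_of_mem (fun i => q ⟨x.1, i⟩) (Finset.mem_univ x.2)
  have hpD : ∀ e, ∀ p : ℕ, p.Prime → p ∣ D e → ∃ i, p = q ⟨e, i⟩ := by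
    intro e p hp hd
    obtain ⟨i, _, hi⟩ := (hp.prime.dvd_finsetProd_iff _).1 hd
    exact ⟨i, (Nat.prime_dvd_prime_iff_eq hp (hq ⟨e, i⟩).1).1 hi⟩
  have hDco : ∀ e e', e ≠ e' → Nat.Coprime (D e) (D e') := by
    intro e e' hne
    refine Nat.Coprime.prod_left fun i _ => Nat.Coprime.prod_right fun j _ => ?_
    refine (Nat.coprime_primes (hq _).1 (hq _).1).2 fun h => hne ?_
    have := hqi h
    exact congrArg Sigma.fst this
  set R := ∏ x ∈ J, q x ^ 2 with hR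
  have hR0 : 0 < R := Finset.prod_pos fun x _ => pow_pos (hq x).1.pos _
  have hRD : R = ∏ e ∈ EC n, D e ^ 2 := by
    have e1 : J = (EC n).sigma (fun _ => univ) := by
      ext x
      rw [hJm, Finset.mem_sigma]
      simp
    rw [hR, e1, Finset.prod_sigma]
    refine Finset.prod_congr rfl fun e _ => ?_
    rw [hD]
    simp only
    rw [Finset.prod_pow]
  have hcoP : Nat.Coprime P R := by
    refine Nat.Coprime.prod_right fun x hx => ?_
    refine Nat.Coprime.pow_right _ ?_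
    rw [Nat.coprime_comm, (hq x).1.coprime_iff_not_dvd]
    intro h
    exact hPp _ (hq x).1 h x hx rfl
  -- residues
  set α : ((e : V n × V n) × Fin (L e.1 e.2 - 1)) → V n → ℕ := fun x s =>
    if s = x.1.1 then 3 else if s = x.1.2 then 3 * xc x.1.2.1 + q x else pt s.1 with hα
  have hρ : ∀ v : V n, ∃ ρ : ℕ, ρ ≡ pt v.1 [MOD P] ∧ ∀ x ∈ J, ρ ≡ α x v [MOD q x ^ 2] := by
    intro v
    obtain ⟨k, hk⟩ := Nat.chineseRemainderOfFinset (fun x => α x v) (fun x => q x ^ 2) J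
      (fun x _ => (pow_pos (hq x).1.pos 2).ne')
      (fun x _ y _ hne => Nat.Coprime.pow 2 2 ((Nat.coprime_primes (hq x).1 (hq y).1).2 (fun h => hne (hqi h))))
    obtain ⟨ρ, h1, h2⟩ := Nat.chineseRemainder hcoP (pt v.1) k
    exact ⟨ρ, h1, fun x hx => (h2.of_dvd (Finset.dvd_prod_of_mem (fun x => q x ^ 2) hx)).trans (hk x hx)⟩
  choose ρ hρP hρQ using hρ
  set W₀ := P * R with hW0
  have hW0pos : 0 < W₀ := Nat.mul_pos hP0 hR0
  set r : V n → ℕ := fun v => ρ v % W₀ + (if v.1 = 0 then 0 else if v.1 = 1 then 2 else 8) * W₀ with hr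
  have hrρ : ∀ v, r v ≡ ρ v [MOD W₀] := by
    intro v
    have h1 : ρ v % W₀ ≡ ρ v [MOD W₀] := Nat.mod_modEq _ _
    have h2 : (if v.1 = 0 then 0 else if v.1 = 1 then 2 else 8) * W₀ ≡ 0 [MOD W₀] :=
      (Nat.modEq_zero_iff_dvd).2 (Dvd.intro_left _ rfl)
    exact h1.add h2
  have hrPm : ∀ v, r v ≡ pt v.1 [MOD P] := fun v => ((hrρ v).of_dvd (Dvd.intro _ rfl)).trans (hρP v)
  have hrP : ∀ v, ∃ k : ℤ, (r v : ℤ) = pt v.1 + P * k := by
    intro v
    obtain ⟨k, hk⟩ := (Nat.modEq_iff_dvd.1 (hrPm v).symm)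
    exact ⟨k, by linarith⟩
  have hrQ : ∀ x ∈ J, ∀ v, ∃ k : ℤ, (r v : ℤ) = α x v + (q x : ℤ) ^ 2 * k := by
    intro x hx v
    have h1 : r v ≡ α x v [MOD q x ^ 2] := ((hrρ v).of_dvd ((Finset.dvd_prod_of_mem (fun x => q x ^ 2) hx).trans
      (Dvd.intro_left _ rfl))).trans (hρQ v x hx)
    obtain ⟨k, hk⟩ := (Nat.modEq_iff_dvd.1 h1.symm)
    push_cast at hk
    exact ⟨k, by linarith⟩
  have hlt : ∀ e ∈ EC n, xc e.2.1 * r e.1 < r e.2 := fun e he => ResS_lt hW0pos _ _ _ _ (hec e he)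
  -- differences modulo P
  have hdP : ∀ e ∈ EC n, ∃ k ε : ℤ, (ε = 1 ∨ ε = -1) ∧ (r e.2 : ℤ) - xc e.2.1 * r e.1 = ε + P * k := by
    intro e he
    obtain ⟨k1, h1⟩ := hrP e.1
    obtain ⟨k2, h2⟩ := hrP e.2
    refine ⟨k2 - xc e.2.1 * k1, _, ResS_one e.1.1 e.2.1 (hec e he), ?_⟩
    rw [h1, h2]
    ring
  -- differences modulo the special primes of the other pairs
  have hdq : ∀ e ∈ EC n, ∀ x ∈ J, e ≠ x.1 → ¬ (q x : ℤ) ∣ (r e.2 : ℤ) - xc e.2.1 * r e.1 := by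
    intro e he x hx hne hdiv
    obtain ⟨k1, h1⟩ := hrQ x hx e.1
    obtain ⟨k2, h2⟩ := hrQ x hx e.2
    have hβ : ∀ s : V n, ∃ k : ℤ, (α x s : ℤ) = ResS_bb x.1.2.1 s.1 (decide (s = x.1.1)) (decide (s = x.1.2)) +
        q x * k := by
      intro s
      simp only [hα, ResS_bb, decide_eq_true_eq]
      by_cases c1 : s = x.1.1
      · rw [if_pos c1, if_pos c1]
        exact ⟨0, by push_cast; ring⟩
      · rw [if_neg c1, if_neg c1]
        by_cases c2 : s = x.1.2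
        · rw [if_pos c2, if_pos c2]
          exact ⟨1, by push_cast; ring⟩
        · rw [if_neg c2, if_neg c2]
          exact ⟨0, by ring⟩
    obtain ⟨k3, h3⟩ := hβ e.1
    obtain ⟨k4, h4⟩ := hβ e.2
    have hdec := ResS_dec e.1.1 e.2.1 x.1.1.1 x.1.2.1 (decide (e.1 = x.1.1)) (decide (e.1 = x.1.2))
      (decide (e.2 = x.1.1)) (decide (e.2 = x.1.2)) (hec e he) (hec x.1 ((hJm x).1 hx))
      (fun h => by rw [of_decide_eq_true h]) (fun h => by rw [of_decide_eq_true h])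
      (fun h => by rw [of_decide_eq_true h]) (fun h => by rw [of_decide_eq_true h])
      (fun h => hne (Prod.ext (of_decide_eq_true h.1) (of_decide_eq_true h.2)))
    refine ResS_nd (hq11 x) hdec.1 hdec.2.1 hdec.2.2 ?_
    have e1 : ResS_bb x.1.2.1 e.2.1 (decide (e.2 = x.1.1)) (decide (e.2 = x.1.2)) -
        (xc e.2.1 : ℤ) * ResS_bb x.1.2.1 e.1.1 (decide (e.1 = x.1.1)) (decide (e.1 = x.1.2)) =
        ((r e.2 : ℤ) - xc e.2.1 * r e.1) - (q x : ℤ) * (q x * (k2 - xc e.2.1 * k1) + (k4 - xc e.2.1 * k3)) := by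
      rw [h1, h2, h3, h4]
      ring
    rw [e1]
    exact dvd_sub hdiv (Dvd.intro _ rfl)
  -- the difference modulo its own primes
  have hdD : ∀ x ∈ J, ∃ k : ℤ, (r x.1.2 : ℤ) - xc x.1.2.1 * r x.1.1 = q x * (1 + q x * k) := by
    intro x hx
    obtain ⟨k1, h1⟩ := hrQ x hx x.1.1
    obtain ⟨k2, h2⟩ := hrQ x hx x.1.2
    have hne : x.1.2 ≠ x.1.1 := by
      intro h
      have := hec x.1 ((hJm x).1 hx)
      rw [h] at this
      exact lt_irrefl _ this
    refine ⟨k2 - xc x.1.2.1 * k1, ?_⟩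
    have ha1 : α x x.1.1 = 3 := by simp only [hα, if_true]
    have ha2 : α x x.1.2 = 3 * xc x.1.2.1 + q x := by simp only [hα, if_neg hne, if_true]
    rw [h1, h2, ha1, ha2]
    push_cast
    ring
  set n₀ : V n × V n → ℕ := fun e => (r e.2 - xc e.2.1 * r e.1) / D e with hn0
  have hcast : ∀ e ∈ EC n, (((r e.2 - xc e.2.1 * r e.1 : ℕ) : ℤ)) = (r e.2 : ℤ) - xc e.2.1 * r e.1 := by
    intro e he
    rw [Nat.cast_sub (hlt e he).le]
    push_cast
    ring
  have hdvd : ∀ e ∈ EC n, D e ∣ r e.2 - xc e.2.1 * r e.1 := by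
    intro e he
    simp only [hD]
    refine Finset.prod_dvd_of_isRelPrime ?_ ?_
    · intro i _ j _ hij
      show IsRelPrime (q ⟨e, i⟩) (q ⟨e, j⟩)
      rw [← Nat.coprime_iff_isRelPrime]
      refine (Nat.coprime_primes (hq _).1 (hq _).1).2 fun h => hij ?_
      have := hqi h
      simpa using this
    · intro i _
      obtain ⟨k, h⟩ := hdD ⟨e, i⟩ ((hJm _).2 he)
      rw [← Int.natCast_dvd_natCast, hcast e he, h]
      exact Dvd.intro _ rfl
  have hmul : ∀ e ∈ EC n, D e * n₀ e = r e.2 - xc e.2.1 * r e.1 := fun e he => Nat.mul_div_cancel' (hdvd e he)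
  have hmulZ : ∀ e ∈ EC n, (D e : ℤ) * n₀ e = (r e.2 : ℤ) - xc e.2.1 * r e.1 := by
    intro e he
    rw [← hcast e he, ← hmul e he]
    push_cast
    ring
  set W₁ : V n × V n → ℕ := fun e => P * (D e * ∏ e' ∈ (EC n).erase e, D e' ^ 2) with hW1
  have hsm : ∀ e ∈ EC n, ∀ p : ℕ, p.Prime → p ≤ w₁ → p ∣ W₁ e := by
    intro e he p hp hpw
    by_cases h : ∀ x ∈ J, p ≠ q x
    · exact (hPd p hp hpw h).trans (Dvd.intro _ rfl)
    · push Not at h
      obtain ⟨x, hx, hpx⟩ := h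
      by_cases hee : x.1 = e
      · rw [hpx, ← hee]
        exact ((hqD x).trans (Dvd.intro _ rfl)).trans (Dvd.intro_left _ rfl)
      · rw [hpx]
        have h1 : q x ∣ D x.1 ^ 2 := (hqD x).trans (dvd_pow_self _ two_ne_zero)
        refine h1.trans ?_
        exact ((Finset.dvd_prod_of_mem (fun e' => D e' ^ 2) (Finset.mem_erase.2 ⟨hee, (hJm x).1 hx⟩)).trans
          (Dvd.intro_left _ rfl)).trans (Dvd.intro_left _ rfl)
  have hqP : ∀ p : ℕ, p.Prime → p ≤ w' + 5 → p ∣ P := by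
    intro p hp hp5
    refine hPd p hp (by omega) ?_
    intro x _ h
    have := (hq x).2.2
    omega
  have h5 : (5 : ℕ) ∣ P := hqP 5 (by norm_num) (by omega)
  have h2 : (2 : ℕ) ∣ P := hqP 2 (by norm_num) (by omega)
  have hunit : ∀ p : ℕ, p.Prime → ∀ ε : ℤ, (ε = 1 ∨ ε = -1) → ¬ (p : ℤ) ∣ ε := by
    intro p hp ε hε hd
    have h1 : (p : ℤ) ∣ 1 := by
      rcases hε with h | h
      · rwa [h] at hd
      · rw [h] at hd
        exact (dvd_neg.1 hd)
    have := Int.natCast_dvd_natCast.1 (by exact_mod_cast h1 : ((p : ℕ) : ℤ) ∣ ((1 : ℕ) : ℤ))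
    exact hp.one_lt.ne' (Nat.dvd_one.1 this)
  refine ⟨w₁, W₀, r, D, W₁, n₀, by omega, ⟨?_, ?_, ?_, ?_, ?_, ?_, ?_, ?_, ?_, ?_, ?_, ?_, ?_⟩, ?_, ?_, ?_⟩
  · exact hW0pos
  · exact h2.trans (Dvd.intro _ rfl)
  · intro v hv
    obtain ⟨k, hk⟩ := hrP v
    obtain ⟨m, hm⟩ := h2
    have hg : pt v.1 = 1 := by rw [hv]; rfl
    rw [hg, hm] at hk
    have hk' : (r v : ℤ) = 1 + 2 * ((m : ℤ) * k) := by rw [hk]; push_cast; ring
    generalize (m : ℤ) * k = X at hk'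
    omega
  · intro e he
    have : R = D e ^ 2 * ∏ e' ∈ (EC n).erase e, D e' ^ 2 := by
      rw [hRD]
      exact (Finset.mul_prod_erase _ _ he).symm
    simp only [hW0, hW1]
    rw [this]
    ring
  · intro e he
    have h1 := hmul e he
    have h2 := hlt e he
    omega
  · intro e he
    have h1 := hmul e he
    have h2 := hlt e he
    rcases Nat.eq_zero_or_pos (n₀ e) with h | h
    · rw [h] at h1
      omega
    · exact h
  · intro e he
    refine Nat.coprime_of_dvd fun p hp hpn hpW => ?_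
    have hpnZ : (p : ℤ) ∣ (n₀ e : ℤ) := Int.natCast_dvd_natCast.2 hpn
    have hpd : (p : ℤ) ∣ (r e.2 : ℤ) - xc e.2.1 * r e.1 := by
      rw [← hmulZ e he]
      exact hpnZ.mul_left _
    rcases (Nat.Prime.dvd_mul hp).1 hpW with h | h
    · obtain ⟨k, ε, hε, hk⟩ := hdP e he
      refine hunit p hp ε hε ?_
      have e1 : ε = ((r e.2 : ℤ) - xc e.2.1 * r e.1) - P * k := by rw [hk]; ring
      rw [e1]
      exact dvd_sub hpd ((Int.natCast_dvd_natCast.2 h).mul_right _)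
    · rcases (Nat.Prime.dvd_mul hp).1 h with h | h
      · obtain ⟨i, hpi⟩ := hpD e p hp h
        obtain ⟨k, hk⟩ := hdD ⟨e, i⟩ ((hJm _).2 he)
        simp only at hk
        rw [← hpi, ← hmulZ e he] at hk
        obtain ⟨a, ha⟩ := Int.natCast_dvd_natCast.2 h
        obtain ⟨b, hb⟩ := hpnZ
        rw [ha, hb] at hk
        have hp0 : (p : ℤ) ≠ 0 := by exact_mod_cast hp.ne_zero
        have h3 : (p : ℤ) * (a * b) = 1 + p * k := by
          refine mul_left_cancel₀ hp0 ?_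
          linear_combination hk
        refine hunit p hp 1 (Or.inl rfl) ⟨a * b - k, ?_⟩
        linear_combination -h3
      · obtain ⟨e', he', hd⟩ := (hp.prime.dvd_finsetProd_iff _).1 h
        obtain ⟨hne, he'm⟩ := Finset.mem_erase.1 he'
        obtain ⟨i, hpi⟩ := hpD e' p hp (hp.dvd_of_dvd_pow hd)
        refine hdq e he ⟨e', i⟩ ((hJm _).2 he'm) (Ne.symm hne) ?_
        rw [← hpi]
        exact hpd
  · exact hsm
  · intro e he
    refine ⟨hsm e he 5 (by norm_num) (by omega), ?_⟩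
    obtain ⟨k, ε, hε, hk⟩ := hdP e he
    rw [← hmulZ e he] at hk
    obtain ⟨m, hm⟩ := h5
    have hDm : D e % 5 = 1 := by
      simp only [hD]
      rw [Finset.prod_nat_mod]
      have : ∀ i : Fin (L e.1 e.2 - 1), q ⟨e, i⟩ % 5 = 1 := fun i => (hq _).2.1
      simp only [this]
      simp
    exact ResS_five (d := D e / 5) (by omega) hm hε hk
  · intro e he
    refine ⟨hD0 e, fun p hp hpd => Or.inl ?_⟩
    obtain ⟨i, hi⟩ := hpD e p hp hpd
    rw [hi]
    exact (hq _).2.1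
  · intro e he p hp hpd
    obtain ⟨i, hi⟩ := hpD e p hp hpd
    rw [hi]
    exact hqw _
  · intro e he
    simp only [hD]
    rw [ResS_card _ _ fun i _ => (hq _).1]
    have := hL e.1 e.2
    simp only [Finset.card_univ, Fintype.card_fin]
    omega
  · intro e he e' he' hne
    exact hDco e e' hne
  · intro e he
    simp only [hD]
    refine Finset.squarefree_prod_of_pairwise_isCoprime ?_ fun i _ => ((hq _).1).prime.squarefree
    intro i _ j _ hij
    show IsRelPrime (q ⟨e, i⟩) (q ⟨e, j⟩)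
    rw [← Nat.coprime_iff_isRelPrime]
    refine (Nat.coprime_primes (hq _).1 (hq _).1).2 fun h => hij ?_
    have := hqi h
    simpa using this
  · intro e he s hs1 hs2 p hp hpd
    obtain ⟨i, hi⟩ := hpD e p hp hpd
    subst hi
    have hx : (⟨e, i⟩ : (e : V n × V n) × Fin (L e.1 e.2 - 1)) ∈ J := (hJm _).2 he
    obtain ⟨k1, h1⟩ := hrQ _ hx e.1
    obtain ⟨k2, h2⟩ := hrQ _ hx s
    have ha1 : α ⟨e, i⟩ e.1 = 3 := by simp only [hα, if_true]
    have ha2 : α ⟨e, i⟩ s = pt s.1 := by simp only [hα, if_neg hs1, if_neg hs2]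
    rw [ha1] at h1
    rw [ha2] at h2
    have hu2 : e.1.1 ≠ 2 := by
      intro h
      have h3 := hec e he
      rw [h] at h3
      have : ∀ v : Fin 3, ¬ (2 : Fin 3) < v := by decide
      exact this _ h3
    obtain ⟨_, hg1, hg2⟩ := ResS_gen s.1 e.1.1 hu2
    have hdd : dd r e.1 s = ((xc e.1.1 : ℤ) * (pt s.1 : ℤ) - (xc s.1 : ℤ) * 3) +
        (q ⟨e, i⟩ : ℤ) * (q ⟨e, i⟩ * (xc e.1.1 * k2 - xc s.1 * k1)) := by
      unfold dd
      rw [h1, h2]
      push_cast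
      ring
    constructor
    · intro hd
      refine ResS_nd (hq11 ⟨e, i⟩) hg1.1 hg1.2.1 hg1.2.2 ?_
      have e1 : (xc e.1.1 : ℤ) * (pt s.1 : ℤ) - (xc s.1 : ℤ) * 3 = dd r e.1 s -
          (q ⟨e, i⟩ : ℤ) * (q ⟨e, i⟩ * (xc e.1.1 * k2 - xc s.1 * k1)) := by rw [hdd]; ring
      rw [e1]
      exact dvd_sub hd (Dvd.intro _ rfl)
    · intro hd
      refine ResS_nd (hq11 ⟨e, i⟩) hg2.1 hg2.2.1 hg2.2.2 ?_
      set A : ℤ := (xc e.1.1 : ℤ) * (pt s.1 : ℤ) - (xc s.1 : ℤ) * 3 with hA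
      set B : ℤ := q ⟨e, i⟩ * (xc e.1.1 * k2 - xc s.1 * k1) with hB
      have e1 : A ^ 2 - 5 * (xc e.1.1 : ℤ) ^ 2 * (xc s.1 : ℤ) ^ 2 =
          (dd r e.1 s ^ 2 - 5 * (xc e.1.1 : ℤ) ^ 2 * (xc s.1 : ℤ) ^ 2) -
          (q ⟨e, i⟩ : ℤ) * (B * (2 * A + q ⟨e, i⟩ * B)) := by
        rw [hdd]
        ring
      rw [e1]
      exact dvd_sub hd (Dvd.intro _ rfl)
  · intro v p hp hpw
    exact (hrPm v).of_dvd (hqP p hp (by omega))

end Pool.Agent.Lib.MP_d57abb_nt.EE
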