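import Mathlib
import Pool.Agent.Lib.MP_d57abb_nt.EE.CfgE
import Pool.Agent.Lib.MP_d57abb_nt.EE.ResS

/-!
# JOB CfgS: the squarefree configuration exists

PROOF: adapt `EE/CfgE.lean` (complete there, `exists_pt`, `exists_cfg`; copy its private lemmas).
`exists_ptS`: as `exists_pt`, with more bad points.  Let `m = |EC n|`, `Λ = log ℓ`, `A = m + 3`, `P_e(x) = W₁ e * mf ℓ x e + n₀ e`, `y v = r v + W₀ (st v.1 ℓ + x v)`.  For `e = (u, v) ∈ EC n` and `s ≠ u, v` we count the `x ∈ Bx n ℓ` for which `P_e(x)` is prime and divides `dd y u s` or `dd y u s ^ 2 - 5 (xc u.1)² (xc s.1)²`.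
(i) `P_e(x) ≤ ℓ / Λ^A`: then `mf ℓ x e ≤ ℓ / Λ^A` (`W₁ e ≥ 1`); given all the coordinates except `x v` (`v = e.2`), `x v` is in an interval of length `ℓ / Λ^A`: at most `ℓ^(3n-1) (ℓ / Λ^A + 1)` points.
(ii) `P = P_e(x) > ℓ / Λ^A`, `P` prime, `P > W₀` (`ℓ` large): given all the coordinates except `x s` (`s ≠ u, v`, so `P` is fixed), `dd y u s = xc u.1 y s - xc s.1 y u` with `xc u.1 = 1`; `y s` modulo `P` is in one of at most three classes: `dd ≡ 0`, or `dd² ≡ 5 (xc s.1)²` (at most two square roots in the field `ZMod P`).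
`W₀` is a unit modulo `P`, so `x s` is in at most three classes modulo `P`: at most `3 (ℓ / P + 1) ≤ 3 (Λ^A + 1)` values.  At most `3 ℓ^(3n-1) (Λ^A + 1)` points.
The total number of these bad points is at most `3 n m (ℓ^(3n) / Λ^A + ℓ^(3n-1) (3 Λ^A + 4))`, and each has weight `∏ lpn ≤ (2Λ)^m`; the sum is `≤ C ℓ^(3n) / Λ^3`, smaller than `ℓ^(3n) / (8 Λ)` for large `ℓ`.  As in `exists_pt`, a point with nonzero product outside all the bad sets remains.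
`exists_cfgS`: as `exists_cfg`, from `exists_resS n L hL (12 * n ^ 2)`: `hd y u v = D e * P_e`.  `sqf`: `D e` squarefree, `P_e` prime, `P_e ∤ D e` (the primes dividing `D e` are `≤ w₁` and `P_e` is not divisible by a prime `≤ w₁`).  `gen`: `p = P_e` by `exists_ptS`; for `p ∣ D e`: `p ∣ W₀` (`eqW`), so `y ≡ r (mod p)` and `ResS.gen` applies.
`pat`: `p ≤ 12 n² ≤ w₁`: `p ∣ W₁ e ∣ W₀` (`sm`, for any `e`; if `n = 0` there is no vertex), so `y v ≡ r v ≡ pt v.1 (mod p)`.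
-/

open Finset Filter

namespace Pool.Agent.Lib.MP_d57abb_nt.EE

/-- counting along one coordinate -/
theorem CfgS_slice {n ℓ k : ℕ} (s : V n) (S : Finset (V n → ℕ)) (hS : S ⊆ Bx n ℓ)
    (h : ∀ x₀ : V n → ℕ, ((range ℓ).filter (fun t => Function.update x₀ s t ∈ S)).card ≤ k) :
    S.card ≤ k * ℓ ^ (3 * n - 1) := by
  set T : Finset (V n → ℕ) := Fintype.piFinset (fun v : V n => if v = s then {0} else range ℓ) with hT
  have hTc : T.card = ℓ ^ (3 * n - 1) := by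
    rw [hT, Fintype.card_piFinset]
    have h1 : ∀ v : V n, (if v = s then ({0} : Finset ℕ) else range ℓ).card = if v = s then 1 else ℓ := by
      intro v
      split_ifs
      · exact card_singleton 0
      · exact card_range ℓ
    rw [Finset.prod_congr rfl fun v _ => h1 v, Finset.prod_ite, Finset.prod_const_one, one_mul, Finset.prod_const]
    congr 1
    have h2 : (univ.filter fun v : V n => ¬ v = s) = univ.erase s := by
      ext v
      simp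
    rw [h2, Finset.card_erase_of_mem (mem_univ s), Finset.card_univ, Fintype.card_prod, Fintype.card_fin,
      Fintype.card_fin]
  have h1 : S.image (fun x => Function.update x s 0) ⊆ T := by
    intro z hz
    obtain ⟨x, hx, rfl⟩ := mem_image.1 hz
    rw [hT, Fintype.mem_piFinset]
    intro v
    by_cases hv : v = s
    · subst hv
      simp
    · rw [if_neg hv, Function.update_of_ne hv]
      exact Fintype.mem_piFinset.1 (hS hx) v
  have h2 : S.card ≤ k * (S.image (fun x => Function.update x s 0)).card := by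
    refine Finset.card_le_mul_card_image S k fun z _ => ?_
    have h3 : ∀ x ∈ S.filter (fun x => Function.update x s 0 = z), Function.update z s (x s) = x := by
      intro x hx
      rw [← (mem_filter.1 hx).2, Function.update_idem, Function.update_eq_self]
    refine le_trans (Finset.card_le_card_of_injOn (fun x => x s) ?_ ?_) (h z)
    · intro x hx
      have hx1 := (mem_filter.1 hx).1
      refine mem_coe.2 (mem_filter.2 ⟨Fintype.mem_piFinset.1 (hS hx1) s, ?_⟩)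
      show Function.update z s (x s) ∈ S
      rw [h3 x hx]
      exact hx1
    · intro x hx x' hx' hxx
      have h4 : x s = x' s := hxx
      rw [← h3 x hx, ← h3 x' hx', h4]
  calc S.card ≤ k * (S.image (fun x => Function.update x s 0)).card := h2
    _ ≤ k * T.card := Nat.mul_le_mul_left k (card_le_card h1)
    _ = k * ℓ ^ (3 * n - 1) := by rw [hTc]

/-- at most three classes modulo a prime -/
theorem CfgS_line {P W₀ ℓ : ℕ} (hP : P.Prime) (hW : 0 < W₀) (hPW : W₀ < P) (c κ : ℤ) (T : Finset ℕ)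
    (hT : T ⊆ range ℓ) (h : ∀ x ∈ T, (P : ℤ) ∣ W₀ * x + c ∨ (P : ℤ) ∣ (W₀ * x + c) ^ 2 - κ) :
    T.card ≤ 3 * (ℓ / P + 1) := by
  have : Fact P.Prime := ⟨hP⟩
  have hW0 : (W₀ : ZMod P) ≠ 0 := by
    intro h0
    rw [ZMod.natCast_eq_zero_iff] at h0
    exact absurd (Nat.le_of_dvd hW h0) (by omega)
  have hfib : T.card ≤ (ℓ / P + 1) * (T.image (fun x : ℕ => (W₀ : ZMod P) * x + c)).card := by
    refine Finset.card_le_mul_card_image T (ℓ / P + 1) fun z _ => ?_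
    refine le_trans (Finset.card_le_card_of_injOn (fun x => x / P) (t := range (ℓ / P + 1)) ?_ ?_)
      (card_range _).le
    · intro x hx
      have hx1 := mem_range.1 (hT (mem_filter.1 hx).1)
      refine mem_coe.2 (mem_range.2 ?_)
      have h1 : x / P ≤ ℓ / P := Nat.div_le_div_right hx1.le
      show x / P < ℓ / P + 1
      omega
    · intro x hx x' hx' hxx
      have h1 := (mem_filter.1 hx).2
      have h2 := (mem_filter.1 hx').2
      have h3 : (W₀ : ZMod P) * x = W₀ * x' := add_right_cancel (h1.trans h2.symm)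
      have h4 : (x : ZMod P) = x' := mul_left_cancel₀ hW0 h3
      have h5 : x % P = x' % P := (ZMod.natCast_eq_natCast_iff x x' P).1 h4
      have h6 : x / P = x' / P := hxx
      rw [← Nat.div_add_mod x P, ← Nat.div_add_mod x' P, h5, h6]
  have himg : (T.image (fun x : ℕ => (W₀ : ZMod P) * x + c)).card ≤ 3 := by
    by_cases hz : ∃ z₀ : ZMod P, z₀ ^ 2 = κ
    · obtain ⟨z₀, hz₀⟩ := hz
      refine le_trans (Finset.card_le_card (t := {0, z₀, -z₀}) ?_) Finset.card_le_three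
      intro y hy
      obtain ⟨x, hx, rfl⟩ := mem_image.1 hy
      simp only [mem_insert, mem_singleton]
      rcases h x hx with h1 | h1
      · left
        have h2 := (ZMod.intCast_zmod_eq_zero_iff_dvd _ P).2 h1
        push_cast at h2
        exact h2
      · right
        have h2 := (ZMod.intCast_zmod_eq_zero_iff_dvd _ P).2 h1
        push_cast at h2
        have h3 : ((W₀ : ZMod P) * x + c) ^ 2 = z₀ ^ 2 := by
          rw [hz₀]
          exact sub_eq_zero.1 h2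
        exact sq_eq_sq_iff_eq_or_eq_neg.1 h3
    · refine le_trans (Finset.card_le_card (t := {0}) ?_) (by simp)
      intro y hy
      obtain ⟨x, hx, rfl⟩ := mem_image.1 hy
      simp only [mem_singleton]
      rcases h x hx with h1 | h1
      · have h2 := (ZMod.intCast_zmod_eq_zero_iff_dvd _ P).2 h1
        push_cast at h2
        exact h2
      · have h2 := (ZMod.intCast_zmod_eq_zero_iff_dvd _ P).2 h1
        push_cast at h2
        exact absurd ⟨_, sub_eq_zero.1 h2⟩ hz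
  calc T.card ≤ (ℓ / P + 1) * (T.image (fun x : ℕ => (W₀ : ZMod P) * x + c)).card := hfib
    _ ≤ (ℓ / P + 1) * 3 := Nat.mul_le_mul_left _ himg
    _ = 3 * (ℓ / P + 1) := Nat.mul_comm _ _

/-- the points with a small value -/
theorem CfgS_small {n ℓ q : ℕ} (W₁ n₀ : V n × V n → ℕ) {e : V n × V n} (he : e ∈ EC n) (hW : 0 < W₁ e) :
    ((Bx n ℓ).filter (fun x => W₁ e * mf ℓ x e + n₀ e ≤ q)).card ≤ (q + 1) * ℓ ^ (3 * n - 1) := by
  have hee : e.1 ≠ e.2 := by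
    intro h
    rw [CfgE_mem, h] at he
    exact lt_irrefl _ he
  refine CfgS_slice e.2 _ (filter_subset _ _) fun x₀ => ?_
  refine le_trans (Finset.card_le_card_of_injOn (fun t => mf ℓ (Function.update x₀ e.2 t) e)
    (t := range (q + 1)) ?_ ?_) (card_range _).le
  · intro t ht
    have h1 := (mem_filter.1 (mem_filter.1 ht).2).2
    refine mem_coe.2 (mem_range.2 ?_)
    show mf ℓ (Function.update x₀ e.2 t) e < q + 1
    have h2 := Nat.le_mul_of_pos_left (mf ℓ (Function.update x₀ e.2 t) e) hW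
    omega
  · intro t ht t' ht' htt
    have h1 := (mf_range _ (mem_filter.1 (mem_filter.1 ht).2).1 e he).1
    have h2 := (mf_range _ (mem_filter.1 (mem_filter.1 ht').2).1 e he).1
    have h3 : mf ℓ (Function.update x₀ e.2 t) e = mf ℓ (Function.update x₀ e.2 t') e := htt
    unfold mf at h3
    rw [Function.update_self, Function.update_self, Function.update_of_ne hee, Function.update_of_ne hee] at h3
    rw [Function.update_self, Function.update_of_ne hee] at h1 h2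
    omega

theorem CfgS_xc {n : ℕ} {e : V n × V n} (he : e ∈ EC n) : xc e.1.1 = 1 := by
  rw [CfgE_mem] at he
  unfold xc
  rw [if_neg]
  intro h
  rw [h] at he
  have h1 : e.2.1.val < 3 := e.2.1.2
  have h2 : (2 : Fin 3).val < e.2.1.val := he
  have h3 : (2 : Fin 3).val = 2 := rfl
  omega

/-- the points for which the value divides a determinant -/
theorem CfgS_div {n ℓ q W₀ : ℕ} (r : V n → ℕ) (W₁ n₀ : V n × V n → ℕ) {e : V n × V n} (he : e ∈ EC n)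
    (hW : 0 < W₀) (hq : W₀ ≤ q) {s : V n} (hs1 : s ≠ e.1) (hs2 : s ≠ e.2) :
    ((Bx n ℓ).filter (fun x => (W₁ e * mf ℓ x e + n₀ e).Prime ∧ q < W₁ e * mf ℓ x e + n₀ e ∧
      (((W₁ e * mf ℓ x e + n₀ e : ℕ) : ℤ) ∣ dd (fun v => r v + W₀ * (st v.1 * ℓ + x v)) e.1 s ∨
        ((W₁ e * mf ℓ x e + n₀ e : ℕ) : ℤ) ∣ dd (fun v => r v + W₀ * (st v.1 * ℓ + x v)) e.1 s ^ 2 -
          5 * (xc e.1.1 : ℤ) ^ 2 * (xc s.1 : ℤ) ^ 2))).card ≤
      (3 * (ℓ / (q + 1) + 1)) * ℓ ^ (3 * n - 1) := by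
  refine CfgS_slice s _ (filter_subset _ _) fun x₀ => ?_
  have hmf : ∀ t, mf ℓ (Function.update x₀ s t) e = mf ℓ x₀ e := by
    intro t
    unfold mf
    rw [Function.update_of_ne hs1.symm, Function.update_of_ne hs2.symm]
  have hdd : ∀ t : ℕ, dd (fun v => r v + W₀ * (st v.1 * ℓ + Function.update x₀ s t v)) e.1 s =
      W₀ * t + ((r s : ℤ) + W₀ * (st s.1 * ℓ) - xc s.1 * (r e.1 + W₀ * (st e.1.1 * ℓ + x₀ e.1))) := by
    intro t
    unfold dd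
    rw [CfgS_xc he]
    simp only [Function.update_self, Function.update_of_ne hs1.symm]
    push_cast
    ring
  by_cases hP : (W₁ e * mf ℓ x₀ e + n₀ e).Prime ∧ q < W₁ e * mf ℓ x₀ e + n₀ e
  · have h1 := CfgS_line (ℓ := ℓ) hP.1 hW (lt_of_le_of_lt hq hP.2)
      ((r s : ℤ) + W₀ * (st s.1 * ℓ) - xc s.1 * (r e.1 + W₀ * (st e.1.1 * ℓ + x₀ e.1)))
      (5 * (xc e.1.1 : ℤ) ^ 2 * (xc s.1 : ℤ) ^ 2)
      ((range ℓ).filter (fun t => Function.update x₀ s t ∈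
        ((Bx n ℓ).filter (fun x => (W₁ e * mf ℓ x e + n₀ e).Prime ∧ q < W₁ e * mf ℓ x e + n₀ e ∧
      (((W₁ e * mf ℓ x e + n₀ e : ℕ) : ℤ) ∣ dd (fun v => r v + W₀ * (st v.1 * ℓ + x v)) e.1 s ∨
        ((W₁ e * mf ℓ x e + n₀ e : ℕ) : ℤ) ∣ dd (fun v => r v + W₀ * (st v.1 * ℓ + x v)) e.1 s ^ 2 -
          5 * (xc e.1.1 : ℤ) ^ 2 * (xc s.1 : ℤ) ^ 2)))))
      (filter_subset _ _) (fun t ht => by
        have h2 := (mem_filter.1 (mem_filter.1 ht).2).2.2.2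
        rw [hmf, hdd] at h2
        exact h2)
    refine h1.trans (Nat.mul_le_mul_left 3 (Nat.add_le_add_right (Nat.div_le_div_left hP.2 (Nat.succ_pos q)) 1))
  · refine le_trans (Finset.card_le_card (t := ∅) ?_) (by simp)
    intro t ht
    have h2 := (mem_filter.1 (mem_filter.1 ht).2).2
    rw [hmf] at h2
    exact absurd ⟨h2.1, h2.2.1⟩ hP

/-- an upper bound of the counting form if all the points without a zero factor are in a set -/
theorem CfgS_upper {n ℓ : ℕ} {W₁ n₀ : V n × V n → ℕ} (K : ℝ) (hK : 0 ≤ K)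
    (hf : ∀ e ∈ EC n, ∀ k < 5 * ℓ, 0 ≤ lpn (W₁ e) (n₀ e) k ∧ lpn (W₁ e) (n₀ e) k ≤ K)
    (S : Finset (V n → ℕ)) (hS : ∀ x ∈ Bx n ℓ, (∀ e ∈ EC n, (W₁ e * mf ℓ x e + n₀ e).Prime) → x ∈ S) :
    TT ℓ (fun e k => lpn (W₁ e) (n₀ e) k) ≤ (S.card : ℝ) * K ^ (EC n).card := by
  have h1 : TT ℓ (fun e k => lpn (W₁ e) (n₀ e) k) ≤ ∑ x ∈ Bx n ℓ, if x ∈ S then K ^ (EC n).card else 0 := by
    unfold TT
    refine Finset.sum_le_sum fun x hx => ?_
    have hr : ∀ e ∈ EC n, mf ℓ x e < 5 * ℓ := fun e he => (mf_range x hx e he).2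
    by_cases hxS : x ∈ S
    · rw [if_pos hxS]
      calc ∏ e ∈ EC n, lpn (W₁ e) (n₀ e) (mf ℓ x e) ≤ ∏ _e ∈ EC n, K :=
            Finset.prod_le_prod (fun e he => (hf e he _ (hr e he)).1) (fun e he => (hf e he _ (hr e he)).2)
        _ = K ^ (EC n).card := Finset.prod_const K
    · rw [if_neg hxS]
      have h2 : ¬ ∀ e ∈ EC n, (W₁ e * mf ℓ x e + n₀ e).Prime := fun h => hxS (hS x hx h)
      push Not at h2
      obtain ⟨e, he, hp⟩ := h2
      refine le_of_eq (Finset.prod_eq_zero he ?_)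
      show lpn (W₁ e) (n₀ e) (mf ℓ x e) = 0
      unfold lpn All.lp
      rw [if_neg hp, zero_div]
  refine h1.trans ?_
  rw [← Finset.sum_filter, Finset.sum_const, nsmul_eq_mul]
  refine mul_le_mul_of_nonneg_right ?_ (pow_nonneg hK _)
  exact_mod_cast card_le_card (fun x hx => (mem_filter.1 hx).2)

/-- the number of the bad points -/
theorem CfgS_bad {n ℓ q W₀ : ℕ} (r : V n → ℕ) {W₁ n₀ : V n × V n → ℕ} (hW1 : ∀ e ∈ EC n, 0 < W₁ e)
    (hW : 0 < W₀) (hq : W₀ ≤ q) : ∃ S : Finset (V n → ℕ),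
    S.card ≤ ((EC n).card ^ 2 + (EC n).card * (q + 1) + (EC n).card * (3 * n) * (3 * (ℓ / (q + 1) + 1))) *
      ℓ ^ (3 * n - 1) ∧
    (∀ x ∈ Bx n ℓ, ∀ e ∈ EC n, ∀ e' ∈ EC n, e ≠ e' →
      W₁ e * mf ℓ x e + n₀ e = W₁ e' * mf ℓ x e' + n₀ e' → x ∈ S) ∧
    (∀ x ∈ Bx n ℓ, ∀ e ∈ EC n, W₁ e * mf ℓ x e + n₀ e ≤ q → x ∈ S) ∧
    (∀ x ∈ Bx n ℓ, ∀ e ∈ EC n, ∀ s : V n, s ≠ e.1 → s ≠ e.2 → (W₁ e * mf ℓ x e + n₀ e).Prime →
      q < W₁ e * mf ℓ x e + n₀ e →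
      (((W₁ e * mf ℓ x e + n₀ e : ℕ) : ℤ) ∣ dd (fun v => r v + W₀ * (st v.1 * ℓ + x v)) e.1 s ∨
        ((W₁ e * mf ℓ x e + n₀ e : ℕ) : ℤ) ∣ dd (fun v => r v + W₀ * (st v.1 * ℓ + x v)) e.1 s ^ 2 -
          5 * (xc e.1.1 : ℤ) ^ 2 * (xc s.1 : ℤ) ^ 2) → x ∈ S) := by
  classical
  set m : ℕ := (EC n).card with hm
  set P : ℕ := ℓ ^ (3 * n - 1) with hP
  set S₁ : Finset (V n → ℕ) := (EC n ×ˢ EC n).biUnion (fun d => if d.1 ≠ d.2 ∧ d.1 ∈ EC n ∧ d.2 ∈ EC n then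
    (Bx n ℓ).filter (fun x => W₁ d.1 * mf ℓ x d.1 + n₀ d.1 = W₁ d.2 * mf ℓ x d.2 + n₀ d.2) else ∅) with hS1
  set S₂ : Finset (V n → ℕ) := (EC n).biUnion (fun e =>
    (Bx n ℓ).filter (fun x => W₁ e * mf ℓ x e + n₀ e ≤ q)) with hS2
  set S₃ : Finset (V n → ℕ) := (EC n ×ˢ (univ : Finset (V n))).biUnion (fun d =>
    if d.1 ∈ EC n ∧ d.2 ≠ d.1.1 ∧ d.2 ≠ d.1.2 then
    (Bx n ℓ).filter (fun x => (W₁ d.1 * mf ℓ x d.1 + n₀ d.1).Prime ∧ q < W₁ d.1 * mf ℓ x d.1 + n₀ d.1 ∧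
      (((W₁ d.1 * mf ℓ x d.1 + n₀ d.1 : ℕ) : ℤ) ∣ dd (fun v => r v + W₀ * (st v.1 * ℓ + x v)) d.1.1 d.2 ∨
        ((W₁ d.1 * mf ℓ x d.1 + n₀ d.1 : ℕ) : ℤ) ∣ dd (fun v => r v + W₀ * (st v.1 * ℓ + x v)) d.1.1 d.2 ^ 2 -
          5 * (xc d.1.1.1 : ℤ) ^ 2 * (xc d.2.1 : ℤ) ^ 2)) else ∅) with hS3
  have c1 : S₁.card ≤ m ^ 2 * P := by
    refine (Finset.card_biUnion_le_card_mul _ _ P fun d _ => ?_).trans ?_
    · split_ifs with h
      · exact CfgE_coinc W₁ n₀ h.2.1 h.2.2 h.1 (hW1 _ h.2.1)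
      · simp
    · rw [card_product, ← sq]
  have c2 : S₂.card ≤ m * ((q + 1) * P) :=
    Finset.card_biUnion_le_card_mul _ _ _ fun e he => CfgS_small W₁ n₀ he (hW1 e he)
  have c3 : S₃.card ≤ (m * (3 * n)) * ((3 * (ℓ / (q + 1) + 1)) * P) := by
    refine (Finset.card_biUnion_le_card_mul _ _ ((3 * (ℓ / (q + 1) + 1)) * P) fun d _ => ?_).trans ?_
    · split_ifs with h
      · exact CfgS_div r W₁ n₀ h.1 hW hq h.2.1 h.2.2
      · simp
    · rw [card_product, Finset.card_univ, Fintype.card_prod, Fintype.card_fin, Fintype.card_fin]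
  refine ⟨S₁ ∪ S₂ ∪ S₃, ?_, ?_, ?_, ?_⟩
  · calc (S₁ ∪ S₂ ∪ S₃).card ≤ (S₁ ∪ S₂).card + S₃.card := card_union_le _ _
      _ ≤ S₁.card + S₂.card + S₃.card := Nat.add_le_add_right (card_union_le _ _) _
      _ ≤ m ^ 2 * P + m * ((q + 1) * P) + (m * (3 * n)) * ((3 * (ℓ / (q + 1) + 1)) * P) :=
          Nat.add_le_add (Nat.add_le_add c1 c2) c3
      _ = _ := by ring
  · intro x hx e he e' he' hne heq
    refine mem_union_left _ (mem_union_left _ (mem_biUnion.2 ⟨(e, e'), mem_product.2 ⟨he, he'⟩, ?_⟩))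
    rw [if_pos ⟨hne, he, he'⟩]
    exact mem_filter.2 ⟨hx, heq⟩
  · intro x hx e he h
    exact mem_union_left _ (mem_union_right _ (mem_biUnion.2 ⟨e, he, mem_filter.2 ⟨hx, h⟩⟩))
  · intro x hx e he s hs1 hs2 hpr hqP h
    refine mem_union_right _ (mem_biUnion.2 ⟨(e, s), mem_product.2 ⟨he, mem_univ s⟩, ?_⟩)
    rw [if_pos ⟨he, hs1, hs2⟩]
    exact mem_filter.2 ⟨hx, hpr, hqP, h⟩

theorem exists_ptS {n : ℕ} (hn : 1 ≤ n) {L : V n → V n → ℕ} {w₁ W₀ : ℕ} {r : V n → ℕ} {D W₁ n₀ : V n × V n → ℕ}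
    (hR : Res L w₁ W₀ r D W₁ n₀) (hw : 12 * n ^ 2 ≤ w₁) :
    ∃ (ℓ : ℕ) (x : V n → ℕ), x ∈ Bx n ℓ ∧ (∀ e ∈ EC n, (W₁ e * mf ℓ x e + n₀ e).Prime) ∧
      (∀ e ∈ EC n, ∀ e' ∈ EC n, e ≠ e' → W₁ e * mf ℓ x e + n₀ e ≠ W₁ e' * mf ℓ x e' + n₀ e') ∧
      ∀ e ∈ EC n, ∀ s : V n, s ≠ e.1 → s ≠ e.2 →
        ¬ ((W₁ e * mf ℓ x e + n₀ e : ℕ) : ℤ) ∣ dd (fun v => r v + W₀ * (st v.1 * ℓ + x v)) e.1 s ∧
        ¬ ((W₁ e * mf ℓ x e + n₀ e : ℕ) : ℤ) ∣ dd (fun v => r v + W₀ * (st v.1 * ℓ + x v)) e.1 s ^ 2 -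
          5 * (xc e.1.1 : ℤ) ^ 2 * (xc s.1 : ℤ) ^ 2 := by
  set m : ℕ := (EC n).card with hm
  have hWp : ∀ e ∈ EC n, 0 < W₁ e := by
    intro e he
    have h1 := hR.hW
    rw [hR.eqW e he] at h1
    exact Nat.pos_of_mul_pos_left h1
  obtain ⟨B', hB'⟩ := four (m + 3)
  have hev1 : ∀ᶠ ℓ : ℕ in atTop, ∀ e ∈ EC n, ∀ θ : ℝ, ∀ u : ℕ, u ≤ 5 * ℓ →
      ‖∑ k ∈ range u, ((lpn (W₁ e) (n₀ e) k - crm (W₁ e) (n₀ e) (wB B' ℓ) k : ℝ) : ℂ) *
        Pool.Agent.Lib.MP_2a816b_nt.e (k * θ)‖ ≤ ℓ / Real.log ℓ ^ (m + 3) := by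
    rw [Finset.eventually_all]
    intro e he
    obtain ⟨ℓ₀, h⟩ := hB' (W₁ e) (n₀ e) (hWp e he) (hR.cop e he)
    exact eventually_atTop.2 ⟨ℓ₀, h⟩
  have hev2 : ∀ᶠ ℓ : ℕ in atTop, ∀ e ∈ EC n, ∀ k < 5 * ℓ,
      0 ≤ lpn (W₁ e) (n₀ e) k ∧ lpn (W₁ e) (n₀ e) k ≤ 2 * Real.log ℓ := by
    rw [Finset.eventually_all]
    intro e he
    exact CfgE_lpn (hWp e he)
  have hev3 : ∀ᶠ ℓ : ℕ in atTop, ∀ e ∈ EC n, cw (W₁ e) (wB B' ℓ) ≤ Real.log ℓ := by
    rw [Finset.eventually_all]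
    intro e he
    obtain ⟨ℓ₀, h⟩ := cw_le (W₁ e) B'
    exact eventually_atTop.2 ⟨ℓ₀, h⟩
  obtain ⟨ℓ4, h4⟩ := crm_lower hn hR hw B'
  have hev4 : ∀ᶠ ℓ : ℕ in atTop, (ℓ : ℝ) ^ (3 * n) / Real.log ℓ ≤
      TT ℓ (fun e k => crm (W₁ e) (n₀ e) (wB B' ℓ) k) := eventually_atTop.2 ⟨ℓ4, h4⟩
  have hlogt : Tendsto (fun ℓ : ℕ => Real.log (ℓ : ℝ)) atTop atTop :=
    Real.tendsto_log_atTop.comp tendsto_natCast_atTop_atTop
  have hev5 := hlogt.eventually_ge_atTop (4 * (m : ℝ) * 2 ^ m + 1)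
  have hlo : ∀ (C : ℝ) (k : ℕ), 0 ≤ C → ∀ᶠ ℓ : ℕ in atTop, C * Real.log ℓ ^ k ≤ ℓ := by
    intro C k hC
    have h1 : (fun ℓ : ℕ => Real.log (ℓ : ℝ) ^ k) =o[atTop] (fun ℓ : ℕ => (ℓ : ℝ)) :=
      Real.isLittleO_pow_log_id_atTop.comp_tendsto tendsto_natCast_atTop_atTop
    have h2 := h1.bound (c := 1 / (C + 1)) (by positivity)
    filter_upwards [h2, hlogt.eventually_ge_atTop 0] with ℓ h3 h4
    rw [Real.norm_of_nonneg (by positivity), Real.norm_of_nonneg (Nat.cast_nonneg _), div_mul_eq_mul_div, one_mul,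
      le_div_iff₀ (by positivity)] at h3
    have h5 : 0 ≤ Real.log (ℓ : ℝ) ^ k := by positivity
    nlinarith
  have hev6 := hlo (4 * 2 ^ m * ((m : ℝ) ^ 2 + m + 18 * n * m)) (m + (m + 3) + 1) (by positivity)
  have hev7 := hlo ((W₀ : ℝ) + 1) (m + 3) (by positivity)
  obtain ⟨ℓ, h1, h2, h3, h4', h5, h6, h7, h8⟩ := (hev1.and (hev2.and (hev3.and (hev4.and (hev5.and (hev6.and
    (hev7.and (eventually_ge_atTop 1)))))))).exists
  by_contra hcon
  set Λ : ℝ := Real.log ℓ with hΛ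
  have hmn : (0 : ℝ) ≤ 4 * (m : ℝ) * 2 ^ m := by positivity
  have hΛ1 : 1 ≤ Λ := by linarith
  have hΛ0 : 0 < Λ := by linarith
  have hℓ0 : (0 : ℝ) < ℓ := by exact_mod_cast h8
  have hΛA : 0 < Λ ^ (m + 3) := by positivity
  -- the limit for the small values
  set q : ℕ := ⌊(ℓ : ℝ) / Λ ^ (m + 3)⌋₊ with hq
  have hq1 : (q : ℝ) ≤ ℓ / Λ ^ (m + 3) := Nat.floor_le (by positivity)
  have hq2 : (ℓ : ℝ) / Λ ^ (m + 3) < q + 1 := Nat.lt_floor_add_one _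
  have hq3 : W₀ ≤ q := by
    refine Nat.le_floor ?_
    rw [le_div_iff₀ hΛA]
    nlinarith
  have hq4 : ((ℓ / (q + 1) : ℕ) : ℝ) ≤ Λ ^ (m + 3) := by
    refine Nat.cast_div_le.trans ?_
    rw [div_le_iff₀ (by positivity)]
    rw [div_lt_iff₀ hΛA] at hq2
    push_cast
    linarith
  obtain ⟨S, hSc, hSa, hSb, hSd⟩ := CfgS_bad (ℓ := ℓ) r (n₀ := n₀) hWp hR.hW hq3
  rw [← hm] at hSc
  -- upper bound
  have hup := CfgS_upper (2 * Λ) (by positivity) h2 S (fun x hx hp => by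
    by_contra hxS
    refine hcon ⟨ℓ, x, hx, hp, fun e he e' he' hne heq => hxS (hSa x hx e he e' he' hne heq),
      fun e he s hs1 hs2 => ?_⟩
    have hlt : q < W₁ e * mf ℓ x e + n₀ e := by
      by_contra hle
      exact hxS (hSb x hx e he (not_lt.1 hle))
    exact ⟨fun hd => hxS (hSd x hx e he s hs1 hs2 (hp e he) hlt (Or.inl hd)),
      fun hd => hxS (hSd x hx e he s hs1 hs2 (hp e he) hlt (Or.inr hd))⟩)
  -- comparison with the model
  have htele := tele n ℓ hn h8 (fun e k => lpn (W₁ e) (n₀ e) k) (fun e k => crm (W₁ e) (n₀ e) (wB B' ℓ) k) (2 * Λ)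
    (ℓ / Λ ^ (m + 3)) (by linarith) (by positivity)
    (fun e he k hk => by
      rw [abs_of_nonneg (h2 e he k hk).1]
      exact (h2 e he k hk).2)
    (fun e he k hk => by
      have h8 := one_le_cw (W₁ e) (wB B' ℓ)
      have h9 := h3 e he
      show |crm (W₁ e) (n₀ e) (wB B' ℓ) k| ≤ 2 * Λ
      unfold crm
      split_ifs
      · rw [abs_of_nonneg (by linarith)]
        linarith
      · rw [abs_zero]
        linarith)
    (fun e he θ => h1 e he θ (5 * ℓ) le_rfl)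
  rw [← hm] at hup htele
  have hpow : (ℓ : ℝ) ^ (3 * n) = ℓ * (ℓ : ℝ) ^ (3 * n - 1) := by
    rw [← pow_succ']
    congr 1
    omega
  set P : ℝ := (ℓ : ℝ) ^ (3 * n - 1) with hP
  have hP0 : 0 < P := by positivity
  have e1 : (m : ℝ) * (2 * Λ) ^ m * (ℓ / Λ ^ (m + 3)) * P = m * 2 ^ m * (ℓ * P) / Λ ^ 3 := by
    rw [mul_pow, pow_add]
    field_simp
  have e2 : (m : ℝ) * 2 ^ m * (ℓ * P) / Λ ^ 3 ≤ (ℓ * P) / (4 * Λ) := by
    rw [div_le_div_iff₀ (by positivity) (by positivity)]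
    have h8 : (m : ℝ) * 2 ^ m * 4 ≤ Λ ^ 2 := by nlinarith
    have h9 : 0 < ℓ * P * Λ := by positivity
    calc (m : ℝ) * 2 ^ m * (ℓ * P) * (4 * Λ) = (m * 2 ^ m * 4) * (ℓ * P * Λ) := by ring
      _ ≤ Λ ^ 2 * (ℓ * P * Λ) := mul_le_mul_of_nonneg_right h8 h9.le
      _ = ℓ * P * Λ ^ 3 := by ring
  -- the bad points
  have hSr : (S.card : ℝ) ≤ ((m : ℝ) ^ 2 + m * (q + 1) + m * (3 * n) * (3 * (((ℓ / (q + 1) : ℕ) : ℝ) + 1))) * P := by
    rw [hP]
    exact_mod_cast hSc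
  have hS2 : (S.card : ℝ) ≤ (m * (ℓ / Λ ^ (m + 3)) + ((m : ℝ) ^ 2 + m + 18 * n * m) * Λ ^ (m + 3)) * P := by
    refine hSr.trans (mul_le_mul_of_nonneg_right ?_ hP0.le)
    have hA1 : 1 ≤ Λ ^ (m + 3) := one_le_pow₀ hΛ1
    have hm0 : (0 : ℝ) ≤ m := Nat.cast_nonneg m
    have hn0 : (0 : ℝ) ≤ n := Nat.cast_nonneg n
    have g1 : (m : ℝ) * (q + 1) ≤ m * (ℓ / Λ ^ (m + 3)) + m * Λ ^ (m + 3) := by
      rw [← mul_add]
      exact mul_le_mul_of_nonneg_left (by linarith) hm0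
    have g2 : (m : ℝ) * (3 * n) * (3 * (((ℓ / (q + 1) : ℕ) : ℝ) + 1)) ≤ 18 * n * m * Λ ^ (m + 3) := by
      calc (m : ℝ) * (3 * n) * (3 * (((ℓ / (q + 1) : ℕ) : ℝ) + 1))
          ≤ (m : ℝ) * (3 * n) * (3 * (Λ ^ (m + 3) + Λ ^ (m + 3))) := by
            refine mul_le_mul_of_nonneg_left ?_ (by positivity)
            linarith
        _ = 18 * n * m * Λ ^ (m + 3) := by ring
    have g3 : (m : ℝ) ^ 2 ≤ (m : ℝ) ^ 2 * Λ ^ (m + 3) := le_mul_of_one_le_right (by positivity) hA1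
    nlinarith
  have e3 : (S.card : ℝ) * (2 * Λ) ^ m ≤ (ℓ * P) / (4 * Λ) + (ℓ * P) / (4 * Λ) := by
    have h9 : (S.card : ℝ) * (2 * Λ) ^ m ≤
        ((m * (ℓ / Λ ^ (m + 3)) + ((m : ℝ) ^ 2 + m + 18 * n * m) * Λ ^ (m + 3)) * P) * (2 * Λ) ^ m :=
      mul_le_mul_of_nonneg_right hS2 (by positivity)
    have h10 : ((m * (ℓ / Λ ^ (m + 3)) + ((m : ℝ) ^ 2 + m + 18 * n * m) * Λ ^ (m + 3)) * P) * (2 * Λ) ^ m =
        (m : ℝ) * (2 * Λ) ^ m * (ℓ / Λ ^ (m + 3)) * P +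
          (2 ^ m * ((m : ℝ) ^ 2 + m + 18 * n * m) * Λ ^ (m + (m + 3))) * P := by
      rw [mul_pow, pow_add Λ m (m + 3)]
      ring
    have h11 : (2 ^ m * ((m : ℝ) ^ 2 + m + 18 * n * m) * Λ ^ (m + (m + 3))) * P ≤ (ℓ * P) / (4 * Λ) := by
      rw [le_div_iff₀ (by positivity)]
      calc (2 ^ m * ((m : ℝ) ^ 2 + m + 18 * n * m) * Λ ^ (m + (m + 3))) * P * (4 * Λ)
          = (4 * 2 ^ m * ((m : ℝ) ^ 2 + m + 18 * n * m) * Λ ^ (m + (m + 3) + 1)) * P := by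
            rw [pow_succ Λ (m + (m + 3))]
            ring
        _ ≤ ℓ * P := mul_le_mul_of_nonneg_right h6 hP0.le
    rw [h10, e1] at h9
    linarith
  have e4 : (ℓ : ℝ) * P / Λ = 4 * ((ℓ * P) / (4 * Λ)) := by
    field_simp
  have e5 : 0 < (ℓ : ℝ) * P / (4 * Λ) := by positivity
  rw [e1] at htele
  rw [hpow, e4] at h4'
  have h10 := (abs_le.1 htele).1
  linarith

theorem exists_cfgS (n : ℕ) (L : V n → V n → ℕ) (hL : ∀ u v, 1 ≤ L u v) : ∃ y : V n → ℕ, CfgS L y := by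
  rcases Nat.eq_zero_or_pos n with rfl | hn
  · exact ⟨fun _ => 0, ⟨⟨fun v => v.2.elim0, fun u => u.2.elim0, fun u => u.2.elim0, fun u => u.2.elim0,
      fun u => u.2.elim0⟩, fun u => u.2.elim0, fun u => u.2.elim0, fun v => v.2.elim0⟩⟩
  obtain ⟨w₁, W₀, r, D, W₁, n₀, hw, hRS⟩ := exists_resS n L hL (12 * n ^ 2)
  have hR := hRS.toRes
  obtain ⟨ℓ, x, hx, hpr, hne, hgen⟩ := exists_ptS hn hR hw
  set y : V n → ℕ := fun v => r v + W₀ * (st v.1 * ℓ + x v) with hy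
  have key : ∀ e ∈ EC n, y e.2 = xc e.2.1 * y e.1 + D e * (W₁ e * mf ℓ x e + n₀ e) := by
    intro e he
    have h1 := (mf_range x hx e he).1
    have h2 : st e.2.1 * ℓ + x e.2 = mf ℓ x e + xc e.2.1 * (st e.1.1 * ℓ + x e.1) := by
      unfold mf
      omega
    simp only [hy]
    rw [h2, hR.eqr e he]
    have h3 := hR.eqW e he
    calc xc e.2.1 * r e.1 + D e * n₀ e + W₀ * (mf ℓ x e + xc e.2.1 * (st e.1.1 * ℓ + x e.1))
        = xc e.2.1 * r e.1 + D e * n₀ e + (W₀ * mf ℓ x e + W₀ * (xc e.2.1 * (st e.1.1 * ℓ + x e.1))) := by ring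
      _ = xc e.2.1 * r e.1 + D e * n₀ e + (D e * W₁ e * mf ℓ x e + W₀ * (xc e.2.1 * (st e.1.1 * ℓ + x e.1))) := by
          rw [← h3]
      _ = xc e.2.1 * (r e.1 + W₀ * (st e.1.1 * ℓ + x e.1)) + D e * (W₁ e * mf ℓ x e + n₀ e) := by ring
  have hD0 : ∀ e ∈ EC n, 0 < D e := fun e he => (hR.spl e he).1
  have hhd : ∀ u v : V n, u.1 < v.1 → hd y u v = D (u, v) * (W₁ (u, v) * mf ℓ x (u, v) + n₀ (u, v)) := by
    intro u v huv
    have h1 := key (u, v) (CfgE_mem.2 huv)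
    unfold hd
    simp only at h1
    rw [h1]
    omega
  have hnd : ∀ e ∈ EC n, ∀ e' ∈ EC n, Nat.Coprime (W₁ e * mf ℓ x e + n₀ e) (D e') := by
    intro e he e' he'
    rw [(hpr e he).coprime_iff_not_dvd]
    intro hdv
    have h1 := hR.dw e' he' _ (hpr e he) hdv
    have h2 := hR.sm e he _ (hpr e he) h1
    have h3 : (W₁ e * mf ℓ x e + n₀ e) ∣ n₀ e :=
      (Nat.dvd_add_right (dvd_mul_of_dvd_left h2 _)).1 dvd_rfl
    have h4 := Nat.dvd_gcd h3 h2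
    rw [hR.cop e he] at h4
    exact (hpr e he).one_lt.ne' (Nat.dvd_one.1 h4)
  refine ⟨y, ⟨⟨?_, ?_, ?_, ?_, ?_⟩, ?_, ?_, ?_⟩⟩
  · intro v hv
    have h1 := hR.odd v hv
    obtain ⟨c, hc⟩ := hR.ev
    simp only [hy]
    rw [hc, mul_assoc]
    omega
  · intro u v huv
    have h1 := key (u, v) (CfgE_mem.2 huv)
    simp only at h1
    rw [h1]
    have h2 : 0 < D (u, v) * (W₁ (u, v) * mf ℓ x (u, v) + n₀ (u, v)) :=
      Nat.mul_pos (hD0 _ (CfgE_mem.2 huv)) (hpr _ (CfgE_mem.2 huv)).pos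
    omega
  · intro u v huv
    have he : (u, v) ∈ EC n := CfgE_mem.2 huv
    rw [hhd u v huv]
    refine ⟨Nat.mul_pos (hD0 _ he) (hpr _ he).pos, fun p hp hpd => ?_⟩
    rcases (hp.dvd_mul).1 hpd with h1 | h1
    · exact (hR.spl _ he).2 p hp h1
    · have h2 := (Nat.prime_dvd_prime_iff_eq hp (hpr _ he)).1 h1
      obtain ⟨⟨c, hc⟩, h3⟩ := hR.five _ he
      rw [h2, hc, mul_assoc]
      omega
  · intro u v huv
    have he : (u, v) ∈ EC n := CfgE_mem.2 huv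
    rw [hhd u v huv, ArithmeticFunction.cardFactors_mul (hD0 _ he).ne' (hpr _ he).ne_zero,
      ArithmeticFunction.cardFactors_apply_prime (hpr _ he)]
    exact hR.om _ he
  · intro u v u' v' huv huv' hne'
    have he : (u, v) ∈ EC n := CfgE_mem.2 huv
    have he' : (u', v') ∈ EC n := CfgE_mem.2 huv'
    rw [hhd u v huv, hhd u' v' huv']
    refine Nat.Coprime.mul_left (Nat.Coprime.mul_right (hR.copD _ he _ he' hne') (hnd _ he' _ he).symm)
      (Nat.Coprime.mul_right (hnd _ he _ he') ?_)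
    exact (Nat.coprime_primes (hpr _ he) (hpr _ he')).2 (hne _ he _ he' hne')
  · intro u v huv
    have he : (u, v) ∈ EC n := CfgE_mem.2 huv
    rw [hhd u v huv]
    exact (Nat.squarefree_mul (hnd _ he _ he).symm).2 ⟨hRS.sqf _ he, (hpr _ he).prime.squarefree⟩
  · intro u v s huv hs1 hs2 p hp hpd
    have he : (u, v) ∈ EC n := CfgE_mem.2 huv
    rw [hhd u v huv] at hpd
    rcases (hp.dvd_mul).1 hpd with h1 | h1
    · obtain ⟨g1, g2⟩ := hRS.gen _ he s hs1 hs2 p hp h1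
      have hpW : (p : ℤ) ∣ (W₀ : ℤ) := by
        rw [hR.eqW _ he]
        exact_mod_cast dvd_mul_of_dvd_left h1 _
      have hyr : ∃ c : ℤ, dd y u s = dd r u s + p * c := by
        obtain ⟨c, hc⟩ := hpW
        refine ⟨c * ((xc u.1 : ℤ) * (st s.1 * ℓ + x s) - xc s.1 * (st u.1 * ℓ + x u)), ?_⟩
        unfold dd
        simp only [hy]
        push_cast
        rw [hc]
        ring
      obtain ⟨c, hc⟩ := hyr
      refine ⟨fun h => g1 ?_, fun h => g2 ?_⟩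
      · rw [hc] at h
        exact (dvd_add_left (dvd_mul_right _ _)).1 h
      · rw [hc] at h
        have h2 : (dd r u s + p * c) ^ 2 - 5 * (xc u.1 : ℤ) ^ 2 * (xc s.1 : ℤ) ^ 2 =
            (dd r u s ^ 2 - 5 * (xc u.1 : ℤ) ^ 2 * (xc s.1 : ℤ) ^ 2) + p * (c * (2 * dd r u s + p * c)) := by
          ring
        rw [h2] at h
        exact (dvd_add_left (dvd_mul_right _ _)).1 h
    · have h2 := (Nat.prime_dvd_prime_iff_eq hp (hpr _ he)).1 h1
      rw [h2]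
      exact hgen _ he s hs1 hs2
  · intro v p hp hpn
    have he : (((0 : Fin 3), v.2), ((1 : Fin 3), v.2)) ∈ EC n := CfgE_mem.2 (by simp)
    have h1 : p ∣ W₀ := by
      rw [hR.eqW _ he]
      exact dvd_mul_of_dvd_right (hR.sm _ he p hp (hpn.trans hw)) _
    have h2 : y v ≡ r v [MOD p] := by
      have h3 : W₀ * (st v.1 * ℓ + x v) ≡ 0 [MOD p] :=
        (Nat.modEq_zero_iff_dvd).2 (dvd_mul_of_dvd_left h1 _)
      simp only [hy]
      exact (Nat.ModEq.add_left (r v) h3)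
    exact h2.trans (hRS.pat v p hp hpn)

end Pool.Agent.Lib.MP_d57abb_nt.EE
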