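import Mathlib
import Pool.Agent.Lib.MP_d57abb_nt.Ev.SzV
import Pool.Agent.Lib.MP_d57abb_nt.EE.DelE

/-!
# JOB FrE: the adjacent pair attached to a frame and a cross pair

PROOF.  `G = (w!)^E`, `X_s = Xv y a b c s`, and as in `OmE`: both coordinates of `X_s - Xs y B s` are divisible by `G`, so by `hd y u v` (`P.hG`).  `d1`, `d2` and `del_mod` (`DelE`) give `p`, `q` with `ml (δ u v) p = X_u`, `ml (δ u v) q = X_v`.
`dt X_u X_v = (xc u.1 y v - xc v.1 y u) dt z₀ v₀ = hd y u v` (`xc u.1 = 1`, `zv_frame`: `dt = 1`; `Ev/FrmV.lean` has `FrmV_dt2`, `FrmV_dt` as private lemmas: `dt (ml x y) (ml x z) = nm x * dt y z`), so `hd * dt p q = hd`, `dt p q = 1` (`hd > 0` by `Cfg.spl`).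
`TP p`: `X_u` and `δ u v` are totally positive (`pp_ml`, `qq_ml`; `X_u` has nonnegative coordinates, the first positive: `TP_of_nonneg` in `Plus.lean`).  `nm X_u = nm (δ u v) * nm p` (`nm_ml`).
-/

open Finset

namespace Pool.Agent.Lib.MP_d57abb_nt.EE

open Pool.Agent.Lib.MP_d57abb_nt Pool.Agent.Lib.MP_d57abb_nt.All Pool.Agent.Lib.MP_d57abb_nt.AP
  Pool.Agent.Lib.MP_d57abb_nt.Ev

private theorem FrE_dt (x y z : ℤ × ℤ) : dt (ml x y) (ml x z) = nm x * dt y z := by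
  unfold ml dt nm
  simp only
  ring

private theorem FrE_dt2 (A B : ℤ × ℤ) (i j k l : ℤ) :
    dt (i • A + j • B) (k • A + l • B) = (i * l - k * j) * dt A B := by
  unfold dt
  simp only [Prod.fst_add, Prod.snd_add, Prod.smul_fst, Prod.smul_snd, smul_eq_mul]
  ring

private theorem FrE_TP {x y : ℤ × ℤ} (hx : TP x) (hy : TP (ml x y)) : TP y := by
  obtain ⟨h1, h2⟩ := hy
  rw [pp_ml] at h1
  rw [qq_ml] at h2
  exact ⟨(mul_pos_iff_of_pos_left hx.1).1 h1, (mul_pos_iff_of_pos_left hx.2).1 h2⟩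

private theorem FrE_xc1 (g : Fin 3) : 1 ≤ xc g := by
  unfold xc
  split_ifs <;> norm_num

private theorem FrE_Xv {n : ℕ} (y : V n → ℕ) (a b c e : ℕ) (he : (1 + b * c) / a = e) (s : V n) :
    Xv y a b c s = (((xc s.1 * a + y s * c : ℕ) : ℤ), ((xc s.1 * b + y s * e : ℕ) : ℤ)) := by
  unfold Xv zv fv
  rw [he]
  ext
  · simp only [Prod.fst_add, Prod.smul_fst, smul_eq_mul]
    push_cast
    ring
  · simp only [Prod.snd_add, Prod.smul_snd, smul_eq_mul]
    push_cast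
    ring

theorem frm {n : ℕ} {L : V n → V n → ℕ} {y : V n → ℕ} {B w E F : ℕ} {δ : V n → V n → ℤ × ℤ}
    (P : BaseP L y B w E F δ) (a b c : ℕ) (ha : a.Prime) (ha1 : a ≡ 1 [MOD w.factorial ^ E])
    (hx : (b, c) ∈ Fam a (w.factorial ^ E) B) (u v : V n) (h : u.1 < v.1) :
    ∃ p q : ℤ × ℤ, TP p ∧ TP q ∧ dt p q = 1 ∧ ml (δ u v) p = Xv y a b c u ∧ ml (δ u v) q = Xv y a b c v ∧
      nm (Xv y a b c u) = hd y u v * nm p ∧ nm (Xv y a b c v) = hd y u v * nm q := by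
  set G := w.factorial ^ E with hG
  unfold Fam at hx
  rw [mem_filter] at hx
  obtain ⟨-, hdv, hbB, hc0⟩ := hx
  simp only at hdv hbB hc0
  obtain ⟨hTz, hTw, hdt1⟩ := zv_frame a b c ha.one_le hdv
  obtain ⟨e, he⟩ := hdv
  have hdiv : (1 + b * c) / a = e := by
    rw [he]
    exact Nat.mul_div_cancel_left e ha.pos
  have he1 : e ≡ 1 [MOD G] := by
    have h1 : a * e ≡ 1 * e [MOD G] := ha1.mul_right e
    have h2 : a * e ≡ 1 + b * 0 [MOD G] := by
      rw [← he]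
      exact (Nat.ModEq.refl 1).add ((Nat.ModEq.refl b).mul hc0)
    rw [one_mul] at h1
    rw [mul_zero, add_zero] at h2
    exact h1.symm.trans h2
  have hD : 0 < hd y u v := (P.cfg.spl u v h).1
  -- congruences
  have hGz : ∀ {s t : ℕ}, s ≡ t [MOD G] → (G : ℤ) ∣ (s : ℤ) - t := fun {s t} hst => by
    have := (Int.natCast_modEq_iff.mpr hst).symm.dvd
    exact this
  have hDG : ((hd y u v : ℕ) : ℤ) ∣ (G : ℤ) := Int.natCast_dvd_natCast.mpr (P.hG u v h)
  have hc1 : ∀ s : V n, ((hd y u v : ℕ) : ℤ) ∣ (Xv y a b c s).1 - (Xs y B s).1 := fun s => by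
    refine hDG.trans ?_
    rw [FrE_Xv y a b c e hdiv s]
    unfold Xs
    simp only
    have h1 : xc s.1 * a + y s * c ≡ xc s.1 * 1 + y s * 0 [MOD G] :=
      ((Nat.ModEq.refl _).mul ha1).add ((Nat.ModEq.refl _).mul hc0)
    have h2 := hGz h1
    rw [mul_one, mul_zero, add_zero] at h2
    exact h2
  have hc2 : ∀ s : V n, ((hd y u v : ℕ) : ℤ) ∣ (Xv y a b c s).2 - (Xs y B s).2 := fun s => by
    refine hDG.trans ?_
    rw [FrE_Xv y a b c e hdiv s]
    unfold Xs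
    simp only
    have h1 : xc s.1 * b + y s * e ≡ xc s.1 * B + y s * 1 [MOD G] :=
      ((Nat.ModEq.refl _).mul hbB).add ((Nat.ModEq.refl _).mul he1)
    have h2 := hGz h1
    rw [mul_one] at h2
    exact h2
  obtain ⟨x1, hx1⟩ := P.d1 u v h
  obtain ⟨x2, hx2⟩ := P.d2 u v h
  obtain ⟨p, hp⟩ := del_mod (P.nd u v h) hx1 (hc1 u) (hc2 u)
  obtain ⟨q, hq⟩ := del_mod (P.nd u v h) hx2 (hc1 v) (hc2 v)
  -- total positivity
  have hTX : ∀ s : V n, TP (Xv y a b c s) := fun s => by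
    rw [FrE_Xv y a b c e hdiv s]
    refine TP_of_nonneg (Int.natCast_nonneg _) (Int.natCast_nonneg _) ?_
    have h1 : 0 < xc s.1 * a + y s * c :=
      Nat.add_pos_left (Nat.mul_pos (FrE_xc1 _) ha.pos) _
    have h2 : (0 : ℤ) < ((xc s.1 * a + y s * c : ℕ) : ℤ) := by exact_mod_cast h1
    have h3 : (0 : ℤ) ≤ ((xc s.1 * b + y s * e : ℕ) : ℤ) := Int.natCast_nonneg _
    linarith
  -- the determinant
  have hxu : xc u.1 = 1 := by
    unfold xc
    rw [if_neg]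
    intro h2
    have h3 := Fin.lt_def.mp h
    have h4 := congrArg Fin.val h2
    have h5 := v.1.isLt
    simp at h4
    omega
  have hlt := P.cfg.lt u v h
  have hdtX : dt (Xv y a b c u) (Xv y a b c v) = hd y u v := by
    have h1 : dt (Xv y a b c u) (Xv y a b c v) =
        ((xc u.1 : ℤ) * (y v : ℤ) - (xc v.1 : ℤ) * (y u : ℤ)) *
          dt ((a : ℤ), (b : ℤ)) ((c : ℤ), (((1 + b * c) / a : ℕ) : ℤ)) := by
      unfold Xv zv fv
      exact FrE_dt2 _ _ _ _ _ _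
    rw [h1, hdt1, mul_one, hxu]
    unfold hd
    rw [Nat.cast_sub hlt.le]
    push_cast
    ring
  have hpq : dt p q = 1 := by
    have h1 : (hd y u v : ℤ) * dt p q = hd y u v * 1 := by
      rw [mul_one]
      have h2 := FrE_dt (δ u v) p q
      rw [hp, hq, hdtX, P.nd u v h] at h2
      exact h2.symm
    exact mul_left_cancel₀ (by exact_mod_cast hD.ne') h1
  refine ⟨p, q, FrE_TP (P.tp u v h) (by rw [hp]; exact hTX u), FrE_TP (P.tp u v h) (by rw [hq]; exact hTX v),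
    hpq, hp, hq, ?_, ?_⟩
  · rw [← hp, nm_ml, P.nd u v h]
  · rw [← hq, nm_ml, P.nd u v h]

end Pool.Agent.Lib.MP_d57abb_nt.EE
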