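import Mathlib
import Pool.Agent.Lib.MP_d57abb_nt.Ev.SzV
import Pool.Agent.Lib.MP_d57abb_nt.EE.Defs

/-!
# JOB OmE: the number of prime factors of the norms of a sifted frame

PROOF.  `G = (w!)^E`, `X = Xv y a b c v = (x a + y c, x b + y e)`, `e = (1 + b c)/a`, `x = xc v.1`, `y = y v`.  `b ≡ B`, `c ≡ 0`, `a ≡ 1 (mod G)`, so `e ≡ a e = 1 + b c ≡ 1 (mod G)` and `X ≡ (x, x B + y) = Xs y B v (mod G)`, `nm X ≡ nm (Xs y B v) (mod G)`.
`nm X > 0` (`zv_frame`/`sizeV` in `Ev/SzV.lean`: the coordinates are nonnegative and the first is positive; `b ≥ 1` since `a ∣ 1 + b c`, `a ≥ 2`).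
For a prime `p ≤ w`: `p^E ∣ G`, and `0 < nm (Xs y B v) < 2^E ≤ p^E`, so `v_p(nm (Xs y B v)) < E` and hence `v_p(nm X) = v_p(nm (Xs y B v))` (`p^k ∣ nm X ↔ p^k ∣ nm Xs` for `k ≤ E`).  So `sOm w (nm X).natAbs = sOm w (nm (Xs y B v)).natAbs = F` (`P.sm`; write `sOm` as the sum of the valuations over all the primes `≤ w`).
A prime `p` with `w < p ≤ z` does not divide `nm X` (definition of `SiftE`, `Pz z = (Icc 1 z).filter Nat.Prime`).  `cardFactors m = ∑_{p ∈ m.primeFactors} m.factorization p` (`ArithmeticFunction.cardFactors_eq_sum_factorization`), split at `w` and `z`.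
-/

open Finset

namespace Pool.Agent.Lib.MP_d57abb_nt.EE

open Pool.Agent.Lib.MP_d57abb_nt Pool.Agent.Lib.MP_d57abb_nt.All Pool.Agent.Lib.MP_d57abb_nt.AP
  Pool.Agent.Lib.MP_d57abb_nt.Ev ArithmeticFunction

private theorem OmE_xc (g : Fin 3) : xc g = 1 ∨ xc g = 2 := by
  unfold xc
  split_ifs
  · exact Or.inr rfl
  · exact Or.inl rfl

private theorem OmE_cong {G : ℤ} {x y s t : ℤ} (h1 : G ∣ x - s) (h2 : G ∣ y - t) :
    G ∣ nm (x, y) - nm (s, t) := by
  obtain ⟨u, hu⟩ := h1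
  obtain ⟨v, hv⟩ := h2
  have hx : x = s + G * u := by linarith
  have hy : y = t + G * v := by linarith
  refine ⟨2 * s * u + G * u ^ 2 + 3 * (s * v + u * t + G * u * v) + 2 * t * v + G * v ^ 2, ?_⟩
  simp only [nm]
  rw [hx, hy]
  ring

/-- two positive integers congruent modulo `p ^ E`, the second one smaller than `p ^ E` -/
private theorem OmE_fac {N M p E : ℕ} (hp : p.Prime) (hN : 0 < N) (hM : 0 < M) (hME : M < p ^ E)
    (h : ((p ^ E : ℕ) : ℤ) ∣ (N : ℤ) - M) : N.factorization p = M.factorization p := by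
  have hk : ∀ k ≤ E, (p ^ k ∣ N ↔ p ^ k ∣ M) := by
    intro k hk
    have h1 : ((p ^ k : ℕ) : ℤ) ∣ (N : ℤ) - M := by
      refine dvd_trans ?_ h
      exact_mod_cast pow_dvd_pow p hk
    rw [← Int.natCast_dvd_natCast, ← Int.natCast_dvd_natCast]
    exact (dvd_iff_dvd_of_dvd_sub h1)
  have hlt : M.factorization p < E := by
    by_contra hcon
    push Not at hcon
    have h2 : p ^ E ∣ M := (pow_dvd_pow p hcon).trans (Nat.ordProj_dvd M p)
    exact absurd (Nat.le_of_dvd hM h2) (not_le.2 hME)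
  apply le_antisymm
  · by_contra hcon
    push Not at hcon
    have h3 : p ^ (M.factorization p + 1) ∣ N :=
      (pow_dvd_pow p hcon).trans (Nat.ordProj_dvd N p)
    have h4 := (hk _ hlt).1 h3
    exact Nat.pow_succ_factorization_not_dvd hM.ne' hp h4
  · have h3 : p ^ (M.factorization p) ∣ N := (hk _ hlt.le).2 (Nat.ordProj_dvd M p)
    exact (hp.pow_dvd_iff_le_factorization hN.ne').1 h3

private theorem OmE_sOm {w N M : ℕ} (hN : 0 < N) (hM : 0 < M)
    (h : ∀ p : ℕ, p.Prime → p ≤ w → N.factorization p = M.factorization p) : sOm w N = sOm w M := by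
  have key : ∀ {K : ℕ}, 0 < K → sOm w K =
      ∑ p ∈ (Icc 1 w).filter Nat.Prime, K.factorization p := by
    intro K hK
    unfold sOm
    refine Finset.sum_subset ?_ ?_
    · intro p hp
      rw [mem_filter, Nat.mem_primeFactors] at hp
      rw [mem_filter, mem_Icc]
      exact ⟨⟨hp.1.1.one_lt.le, hp.2⟩, hp.1.1⟩
    · intro p hp hp'
      rw [mem_filter, mem_Icc] at hp
      rw [mem_filter, Nat.mem_primeFactors] at hp'
      refine Nat.factorization_eq_zero_of_not_dvd fun hd => hp' ⟨⟨hp.2, hd, hK.ne'⟩, hp.1.2⟩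
  rw [key hN, key hM]
  refine Finset.sum_congr rfl fun p hp => ?_
  rw [mem_filter, mem_Icc] at hp
  exact h p hp.2 hp.1.2

theorem om_eq {n : ℕ} {L : V n → V n → ℕ} {y : V n → ℕ} {B w E F : ℕ} {δ : V n → V n → ℤ × ℤ}
    (P : BaseP L y B w E F δ) (a b c z : ℕ) (ha : a.Prime) (ha1 : a ≡ 1 [MOD w.factorial ^ E])
    (hx : (b, c) ∈ SiftE y a (w.factorial ^ E) B w z) (hwz : w ≤ z) (v : V n) :
    0 < nm (Xv y a b c v) ∧
    cardFactors (nm (Xv y a b c v)).natAbs = F + bOm z (nm (Xv y a b c v)).natAbs := by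
  classical
  unfold SiftE at hx
  rw [mem_filter] at hx
  obtain ⟨hfam, hsift⟩ := hx
  unfold Fam at hfam
  rw [mem_filter, mem_product, mem_range, mem_range] at hfam
  obtain ⟨⟨hba, hca⟩, hdvd, hb, hc⟩ := hfam
  simp only at hba hca hdvd hb hc hsift
  set G : ℕ := w.factorial ^ E with hG
  obtain ⟨e, he⟩ := hdvd
  have ha0 : 0 < a := ha.pos
  have hdiv : (1 + b * c) / a = e := by
    rw [he]
    exact Nat.mul_div_cancel_left e ha0
  have he1 : e ≡ 1 [MOD G] := by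
    have h1 : a * e ≡ 1 * e [MOD G] := ha1.mul_right e
    have h2 : 1 + b * c ≡ 1 + b * 0 [MOD G] := (hc.mul_left b).add_left 1
    rw [he] at h2
    rw [one_mul] at h1
    rw [mul_zero, add_zero] at h2
    exact h1.symm.trans h2
  have hXv : Xv y a b c v = ((xc v.1 : ℤ) * a + y v * c, (xc v.1 : ℤ) * b + y v * e) := by
    unfold Xv zv fv
    rw [hdiv]
    rfl
  have hpos : 0 < nm (Xv y a b c v) := by
    rw [hXv]
    simp only [nm]
    have hx1 : (1 : ℤ) ≤ (xc v.1 : ℤ) := by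
      rcases OmE_xc v.1 with h | h <;> rw [h] <;> norm_num
    have ha1' : (1 : ℤ) ≤ a := by exact_mod_cast ha0
    have h1 : (1 : ℤ) ≤ (xc v.1 : ℤ) * a := by nlinarith
    have h2 : (0 : ℤ) ≤ (y v : ℤ) * c := by positivity
    have h3 : (0 : ℤ) ≤ (xc v.1 : ℤ) * b + y v * e := by positivity
    have h4 : (0 : ℤ) < (xc v.1 : ℤ) * a + y v * c := by linarith
    have h5 : (0 : ℤ) < ((xc v.1 : ℤ) * a + y v * c) ^ 2 := by positivity
    have h6 : (0 : ℤ) ≤ 3 * ((xc v.1 : ℤ) * a + y v * c) * ((xc v.1 : ℤ) * b + y v * e) := by positivity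
    have h7 : (0 : ℤ) ≤ ((xc v.1 : ℤ) * b + y v * e) ^ 2 := by positivity
    linarith
  have hXs : Xs y B v = ((xc v.1 : ℤ), ((xc v.1 * B + y v : ℕ) : ℤ)) := rfl
  have hposs : 0 < nm (Xs y B v) := by
    rw [hXs]
    simp only [nm]
    have hx1 : (1 : ℤ) ≤ (xc v.1 : ℤ) := by
      rcases OmE_xc v.1 with h | h <;> rw [h] <;> norm_num
    have h5 : (0 : ℤ) < (xc v.1 : ℤ) ^ 2 := by positivity
    have h6 : (0 : ℤ) ≤ 3 * (xc v.1 : ℤ) * ((xc v.1 * B + y v : ℕ) : ℤ) := by positivity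
    have h7 : (0 : ℤ) ≤ (((xc v.1 * B + y v : ℕ) : ℤ)) ^ 2 := by positivity
    linarith
  have hcong : (G : ℤ) ∣ nm (Xv y a b c v) - nm (Xs y B v) := by
    rw [hXv, hXs]
    have e1 : (G : ℤ) ∣ (a : ℤ) - 1 := by
      have := (Nat.modEq_iff_dvd.1 ha1.symm)
      simpa using this
    have e2 : (G : ℤ) ∣ (b : ℤ) - B := by
      have := (Nat.modEq_iff_dvd.1 hb.symm)
      simpa using this
    have e3 : (G : ℤ) ∣ (c : ℤ) := by
      have := (Nat.modEq_iff_dvd.1 hc.symm)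
      simpa using this
    have e4 : (G : ℤ) ∣ (e : ℤ) - 1 := by
      have := (Nat.modEq_iff_dvd.1 he1.symm)
      simpa using this
    refine OmE_cong ?_ ?_
    · have : (xc v.1 : ℤ) * a + y v * c - xc v.1 = xc v.1 * ((a : ℤ) - 1) + y v * c := by ring
      rw [this]
      exact dvd_add (e1.mul_left _) (e3.mul_left _)
    · have : (xc v.1 : ℤ) * b + y v * e - ((xc v.1 * B + y v : ℕ) : ℤ) =
          xc v.1 * ((b : ℤ) - B) + y v * ((e : ℤ) - 1) := by
        push_cast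
        ring
      rw [this]
      exact dvd_add (e2.mul_left _) (e4.mul_left _)
  refine ⟨hpos, ?_⟩
  obtain ⟨N, hN⟩ : ∃ N : ℕ, (N : ℤ) = nm (Xv y a b c v) := ⟨(nm (Xv y a b c v)).toNat, Int.toNat_of_nonneg hpos.le⟩
  obtain ⟨M, hM⟩ : ∃ M : ℕ, (M : ℤ) = nm (Xs y B v) := ⟨(nm (Xs y B v)).toNat, Int.toNat_of_nonneg hposs.le⟩
  have hNn : (nm (Xv y a b c v)).natAbs = N := by rw [← hN]; rfl
  have hMn : (nm (Xs y B v)).natAbs = M := by rw [← hM]; rfl
  have hN0 : 0 < N := by rw [← hN] at hpos; exact_mod_cast hpos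
  have hM0 : 0 < M := by rw [← hM] at hposs; exact_mod_cast hposs
  rw [← hN, ← hM] at hcong
  have hME : M < 2 ^ E := by
    have := P.hE v
    rw [← hM] at this
    exact_mod_cast this
  have hfac : ∀ p : ℕ, p.Prime → p ≤ w → N.factorization p = M.factorization p := by
    intro p hp hpw
    refine OmE_fac (E := E) hp hN0 hM0 (hME.trans_le (Nat.pow_le_pow_left hp.two_le E)) ?_
    refine dvd_trans ?_ hcong
    rw [hG]
    exact_mod_cast pow_dvd_pow_of_dvd ((Nat.Prime.dvd_factorial hp).2 hpw) E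
  have hsN : sOm w N = F := by
    rw [OmE_sOm hN0 hM0 hfac, ← hMn]
    exact P.sm v
  rw [hNn, ArithmeticFunction.cardFactors_eq_sum_factorization, Finsupp.sum, Nat.support_factorization]
  rw [← Finset.sum_filter_add_sum_filter_not N.primeFactors (fun p => p ≤ w)]
  have h1 : ∑ p ∈ N.primeFactors.filter (fun p => p ≤ w), N.factorization p = F := hsN
  rw [h1]
  congr 1
  unfold bOm
  refine Finset.sum_congr ?_ fun _ _ => rfl
  ext p
  rw [mem_filter, mem_filter]
  constructor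
  · rintro ⟨hp, hpw⟩
    refine ⟨hp, ?_⟩
    by_contra hcon
    push Not at hcon hpw
    have hpp := Nat.prime_of_mem_primeFactors hp
    refine hsift p ?_ hpw v ?_
    · unfold Pz
      rw [mem_filter, mem_Icc]
      exact ⟨⟨hpp.one_lt.le, hcon⟩, hpp⟩
    · rw [← hN]
      exact_mod_cast Nat.dvd_of_mem_primeFactors hp
  · rintro ⟨hp, hpz⟩
    exact ⟨hp, by omega⟩

end Pool.Agent.Lib.MP_d57abb_nt.EE
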