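import Mathlib
import Pool.Agent.Lib.MP_d57abb_nt.EE.Defs

/-!
# The pigeonhole with rich labels

The number of vertices with `s v ≥ R` is at most `n / 4`, so in every group some value `x < R` is taken by at least
`n / (2 R)` vertices.  Two of the three popular values have the same parity; the label `(x + x') / 2 + 1` occurs
between the popular vertices.
-/

open Finset

namespace Pool.Agent.Lib.MP_d57abb_nt.EE

private theorem PigE_group {n : ℕ} (g : Fin 3) : (univ.filter (fun v : V n => v.1 = g)).card = n := by
  have h : (univ.filter (fun v : V n => v.1 = g)) = (univ : Finset (Fin n)).map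
      ⟨fun i => (g, i), fun i j hij => (Prod.ext_iff.1 hij).2⟩ := by
    ext v
    simp only [mem_filter, mem_univ, true_and, mem_map, Function.Embedding.coeFn_mk]
    constructor
    · intro h
      exact ⟨v.2, by rw [← h]⟩
    · rintro ⟨i, rfl⟩
      rfl
  rw [h, card_map, card_univ, Fintype.card_fin]

private theorem PigE_popular {n R : ℕ} (hn : 1 ≤ n) (hR : 1 ≤ R) (s : V n → ℕ)
    (hs : 4 * ∑ v, s v ≤ n * R) (g : Fin 3) :
    ∃ x < R, n ≤ 2 * R * (univ.filter (fun v : V n => v.1 = g ∧ s v = x)).card := by
  by_contra hcon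
  push Not at hcon
  -- the vertices with a small value
  have h1 : (univ.filter (fun v : V n => v.1 = g ∧ s v < R)).card =
      ∑ x ∈ range R, (univ.filter (fun v : V n => v.1 = g ∧ s v = x)).card := by
    rw [card_eq_sum_card_fiberwise (f := s) (t := range R)]
    · refine sum_congr rfl fun x hx => ?_
      congr 1
      ext v
      simp only [mem_filter, mem_univ, true_and]
      constructor
      · rintro ⟨⟨a, b⟩, c⟩
        exact ⟨a, c⟩
      · rintro ⟨a, c⟩
        exact ⟨⟨a, by rw [c]; exact mem_range.1 hx⟩, c⟩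
    · intro v hv
      have hv' := (mem_filter.1 (mem_coe.1 hv)).2
      exact mem_coe.2 (mem_range.2 hv'.2)
  have h2 : 2 * R * (univ.filter (fun v : V n => v.1 = g ∧ s v < R)).card < R * n := by
    rw [h1, mul_sum]
    calc ∑ x ∈ range R, 2 * R * (univ.filter (fun v : V n => v.1 = g ∧ s v = x)).card
        < ∑ _x ∈ range R, n := sum_lt_sum_of_nonempty ⟨0, mem_range.2 hR⟩
          (fun x hx => hcon x (mem_range.1 hx))
      _ = R * n := by rw [sum_const, card_range, smul_eq_mul]
  have h3 : 2 * (univ.filter (fun v : V n => v.1 = g ∧ s v < R)).card < n := by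
    by_contra h
    push Not at h
    have := Nat.mul_le_mul_left R h
    have e : R * (2 * (univ.filter (fun v : V n => v.1 = g ∧ s v < R)).card) =
        2 * R * (univ.filter (fun v : V n => v.1 = g ∧ s v < R)).card := by ring
    omega
  -- the vertices with a large value
  have h4 : 4 * (univ.filter (fun v : V n => v.1 = g ∧ ¬ s v < R)).card ≤ n := by
    have h5 : (univ.filter (fun v : V n => v.1 = g ∧ ¬ s v < R)).card * R ≤ ∑ v, s v := by
      calc (univ.filter (fun v : V n => v.1 = g ∧ ¬ s v < R)).card * R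
          = (univ.filter (fun v : V n => v.1 = g ∧ ¬ s v < R)).card • R := by rw [smul_eq_mul]
        _ ≤ ∑ v ∈ univ.filter (fun v : V n => v.1 = g ∧ ¬ s v < R), s v := by
            refine card_nsmul_le_sum _ _ _ fun v hv => ?_
            exact not_lt.1 (mem_filter.1 hv).2.2
        _ ≤ ∑ v, s v := sum_le_sum_of_subset (filter_subset _ _)
    by_contra h
    rw [not_le] at h
    have h6 : n * R < 4 * (univ.filter (fun v : V n => v.1 = g ∧ ¬ s v < R)).card * R :=
      Nat.mul_lt_mul_of_pos_right h (by omega)
    have e : 4 * (univ.filter (fun v : V n => v.1 = g ∧ ¬ s v < R)).card * R =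
        4 * ((univ.filter (fun v : V n => v.1 = g ∧ ¬ s v < R)).card * R) := by ring
    omega
  have h5 : (univ.filter (fun v : V n => v.1 = g ∧ s v < R)).card +
      (univ.filter (fun v : V n => v.1 = g ∧ ¬ s v < R)).card = n := by
    have h6 := card_filter_add_card_filter_not (s := univ.filter (fun v : V n => v.1 = g)) (fun v => s v < R)
    rw [PigE_group, filter_filter, filter_filter] at h6
    exact h6
  omega

theorem pig {n R : ℕ} (hn : 1 ≤ n) (hR : 1 ≤ R) {L : V n → V n → ℕ} (hRich : Rich R L) (s : V n → ℕ)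
    (hs : 4 * ∑ v, s v ≤ n * R) : ∃ u v : V n, u.1 < v.1 ∧ s u + s v + 2 = 2 * L u v := by
  choose x hx hxn using PigE_popular hn hR s hs
  have main : ∀ g g' : Fin 3, g < g' → x g % 2 = x g' % 2 →
      ∃ u v : V n, u.1 < v.1 ∧ s u + s v + 2 = 2 * L u v := by
    intro g g' hg he
    obtain ⟨u, hu, v, hv, h⟩ := hRich (univ.filter (fun v : V n => v.1 = g ∧ s v = x g))
      (univ.filter (fun v : V n => v.1 = g' ∧ s v = x g')) g g' hg
      (fun u hu => (mem_filter.1 hu).2.1) (fun v hv => (mem_filter.1 hv).2.1) (hxn g) (hxn g')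
      ((x g + x g') / 2 + 1) (by omega) (by have := hx g; have := hx g'; omega)
    have hu' := (mem_filter.1 hu).2
    have hv' := (mem_filter.1 hv).2
    refine ⟨u, v, by rw [hu'.1, hv'.1]; exact hg, ?_⟩
    rw [h, hu'.2, hv'.2]
    omega
  rcases Nat.mod_two_eq_zero_or_one (x 0) with h0 | h0 <;>
  rcases Nat.mod_two_eq_zero_or_one (x 1) with h1 | h1 <;>
  rcases Nat.mod_two_eq_zero_or_one (x 2) with h2 | h2
  · exact main 0 1 (by decide) (by rw [h0, h1])
  · exact main 0 1 (by decide) (by rw [h0, h1])
  · exact main 0 2 (by decide) (by rw [h0, h2])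
  · exact main 1 2 (by decide) (by rw [h1, h2])
  · exact main 1 2 (by decide) (by rw [h1, h2])
  · exact main 0 2 (by decide) (by rw [h0, h2])
  · exact main 0 1 (by decide) (by rw [h0, h1])
  · exact main 0 1 (by decide) (by rw [h0, h1])

end Pool.Agent.Lib.MP_d57abb_nt.EE
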