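import Mathlib
import Pool.Agent.Lib.MP_d57abb_nt.EE.OmE
import Pool.Agent.Lib.MP_d57abb_nt.EE.FrE
import Pool.Agent.Lib.MP_d57abb_nt.EE.PigE

/-!
# JOB KvE: the value attached to a good frame

PROOF.  `s v = bOm z (nm (Xv y a b c v)).natAbs`; `pig` gives `u.1 < v.1` with `s u + s v + 2 = 2 L u v`; `frm` gives `p`, `q`.  `kk p q ^ 2 + 3 kk p q + 1 = nm p * nm q` (`kk_eq` in `Basic`), `kk p q ≥ 0` (`kk_nonneg`); `kk p q ≥ 1`: if it is `0` then `nm p = nm q = 1` and `nm (Xv .. u) = hd y u v ≤ w`,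
but `nm (Xv .. u) ≥ a² ` (first coordinate `≥ a`) and `a > w` because `a ≡ 1 (mod w!^E)`, `a` prime: `a ≥ 2`, so `a ≥ 1 + w!^E ≥ 1 + w` when `w ≥ 2`... (`w! ≥ w`; `24 ≤ 24 n ≤ w` as `n ≥ 1`), `hd y u v ≤ y v ≤ w`.
`cardFactors`: `cardFactors (nm X_u).natAbs = cardFactors (hd y u v) + cardFactors (nm p).natAbs = L u v + cardFactors (nm p).natAbs` (`cardFactors_mul`, nonzero; `P.cfg.om`), and it is `F + s u` by `om_eq`.  So `cardFactors (nm p * nm q) = 2 F + s u + s v - 2 L u v = 2 F - 2`.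
(In natural numbers: `cardFactors(nm p) + L = F + s u`, `cardFactors (nm q) + L = F + s v`, sum: `Ω + 2 L = 2 F + s u + s v`, with `2 L = s u + s v + 2`: `Ω + 2 = 2 F`.)
Size: `k² ≤ k² + 3k + 1 = nm p nm q ≤ nm X_u nm X_v ≤ (5 (w+2)² a²)²` (`sizeV` in `Ev/SzV.lean` with `X = w`, `max a b = a`), so `k ≤ 5 (w + 2)² a²`.
-/

open Finset

namespace Pool.Agent.Lib.MP_d57abb_nt.EE

open Pool.Agent.Lib.MP_d57abb_nt Pool.Agent.Lib.MP_d57abb_nt.All Pool.Agent.Lib.MP_d57abb_nt.AP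
  Pool.Agent.Lib.MP_d57abb_nt.Ev ArithmeticFunction

theorem frame_k {n R : ℕ} (hn : 1 ≤ n) (hR : 1 ≤ R) {L : V n → V n → ℕ} (hRich : Rich R L) {y : V n → ℕ}
    {B w E F : ℕ} {δ : V n → V n → ℤ × ℤ} (P : BaseP L y B w E F δ) (a b c z : ℕ) (ha : a.Prime)
    (ha1 : a ≡ 1 [MOD w.factorial ^ E]) (hx : (b, c) ∈ SiftE y a (w.factorial ^ E) B w z) (hwz : w ≤ z)
    (hs : 4 * ∑ v, bOm z (nm (Xv y a b c v)).natAbs ≤ n * R) :
    ∃ (u v : V n) (p q : ℤ × ℤ) (k : ℕ), u.1 < v.1 ∧ TP p ∧ TP q ∧ dt p q = 1 ∧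
      ml (δ u v) p = Xv y a b c u ∧ ml (δ u v) q = Xv y a b c v ∧ kk p q = k ∧ 1 ≤ k ∧
      k ≤ 5 * (w + 2) ^ 2 * a ^ 2 ∧ cardFactors (k ^ 2 + 3 * k + 1) + 2 = 2 * F ∧
      (nm p).natAbs ∣ k ^ 2 + 3 * k + 1 := by
  obtain ⟨u, v, huv, hL⟩ := pig hn hR hRich (fun v => bOm z (nm (Xv y a b c v)).natAbs) hs
  have hxF : (b, c) ∈ Fam a (w.factorial ^ E) B := by
    classical
    have h1 := hx
    unfold SiftE at h1
    exact (Finset.mem_filter.mp h1).1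
  obtain ⟨p, q, hp, hq, hd1, hmp, hmq, hnp, hnq⟩ := frm P a b c ha ha1 hxF u v huv
  obtain ⟨k, hk⟩ : ∃ k : ℕ, (k : ℤ) = kk p q := ⟨(kk p q).toNat, Int.toNat_of_nonneg (kk_nonneg hp hq hd1)⟩
  have hkk := kk_eq hd1
  rw [← hk] at hkk
  have hp0 : 0 < nm p := hp.nm_pos
  have hq0 : 0 < nm q := hq.nm_pos
  obtain ⟨P1, hP1⟩ : ∃ P1 : ℕ, (P1 : ℤ) = nm p := ⟨(nm p).toNat, Int.toNat_of_nonneg hp0.le⟩
  obtain ⟨Q1, hQ1⟩ : ∃ Q1 : ℕ, (Q1 : ℤ) = nm q := ⟨(nm q).toNat, Int.toNat_of_nonneg hq0.le⟩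
  have hkN : k ^ 2 + 3 * k + 1 = P1 * Q1 := by
    rw [← hP1, ← hQ1] at hkk
    exact_mod_cast hkk
  have hP1p : 0 < P1 := by
    rw [← hP1] at hp0
    exact_mod_cast hp0
  have hQ1p : 0 < Q1 := by
    rw [← hQ1] at hq0
    exact_mod_cast hq0
  have hlt := P.cfg.lt u v huv
  have hHpos : 0 < hd y u v := by
    unfold hd
    omega
  have hHw : hd y u v ≤ w := by
    have h1 := P.hy v
    unfold hd
    omega
  -- the frame
  unfold Fam at hxF
  obtain ⟨hxr, hdv, -, -⟩ := Finset.mem_filter.mp hxF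
  obtain ⟨hba, hca⟩ := Finset.mem_product.mp hxr
  rw [Finset.mem_range] at hba hca
  have ha2 : 2 ≤ a := ha.two_le
  have hb1 : 1 ≤ b := by
    rcases Nat.eq_zero_or_pos b with h0 | h0
    · exfalso
      have h1 : a ∣ 1 + b * c := hdv
      rw [h0, Nat.zero_mul, Nat.add_zero] at h1
      have := Nat.le_of_dvd one_pos h1
      omega
    · exact h0
  have hxc : ∀ g : Fin 3, xc g = 1 ∨ xc g = 2 := by
    intro g
    unfold xc
    split_ifs
    · exact Or.inr rfl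
    · exact Or.inl rfl
  have hmax : max (a : ℤ) b = a := max_eq_left (by exact_mod_cast hba.le)
  have size : ∀ t : V n, (a : ℤ) ^ 2 ≤ nm (Xv y a b c t) ∧
      nm (Xv y a b c t) ≤ 5 * ((w : ℤ) + 2) ^ 2 * (a : ℤ) ^ 2 := by
    intro t
    have h1 := sizeV a b c (xc t.1) (y t) w (by omega) hb1 hca (hxc t.1) (P.hy t)
    rw [hmax] at h1
    exact ⟨h1.2.2.2.2.1, h1.2.2.2.2.2⟩
  have haw : w < a := by
    have h1 : w.factorial ^ E ∣ a - 1 := (Nat.modEq_iff_dvd' (by omega)).mp ha1.symm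
    have h2 := Nat.le_of_dvd (by omega) h1
    have h3 : w ≤ w.factorial := Nat.self_le_factorial w
    have h4 : w.factorial ≤ w.factorial ^ E := by
      have := P.E1
      exact Nat.le_self_pow (by omega) _
    omega
  have hNu : (nm (Xv y a b c u)).natAbs = hd y u v * P1 := by
    rw [hnp, ← hP1, Int.natAbs_mul, Int.natAbs_natCast, Int.natAbs_natCast]
  have hNv : (nm (Xv y a b c v)).natAbs = hd y u v * Q1 := by
    rw [hnq, ← hQ1, Int.natAbs_mul, Int.natAbs_natCast, Int.natAbs_natCast]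
  refine ⟨u, v, p, q, k, huv, hp, hq, hd1, hmp, hmq, hk.symm, ?_, ?_, ?_, ?_⟩
  · -- `1 ≤ k`
    rcases Nat.eq_zero_or_pos k with h0 | h0
    · exfalso
      rw [h0] at hkN
      have h1 : P1 * Q1 = 1 := by omega
      have h2 : P1 = 1 := Nat.eq_one_of_mul_eq_one_right h1
      have h3 := (size u).1
      rw [hnp, ← hP1, h2] at h3
      have h4 : (hd y u v : ℤ) ≤ w := by exact_mod_cast hHw
      have h5 : (w : ℤ) < a := by exact_mod_cast haw
      have h6 : (2 : ℤ) ≤ a := by exact_mod_cast ha2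
      push_cast at h3
      nlinarith
    · exact h0
  · -- the size
    have hle : ∀ (t : V n) (m : ℕ), (nm (Xv y a b c t)) = hd y u v * (m : ℤ) →
        m ≤ 5 * (w + 2) ^ 2 * a ^ 2 := by
      intro t m hm
      have h1 := (size t).2
      rw [hm] at h1
      have h2 : hd y u v * m ≤ 5 * (w + 2) ^ 2 * a ^ 2 := by exact_mod_cast h1
      exact le_trans (Nat.le_mul_of_pos_left m hHpos) h2
    have h1 := hle u P1 (by rw [hnp, hP1])
    have h2 := hle v Q1 (by rw [hnq, hQ1])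
    have h3 : P1 * Q1 ≤ (5 * (w + 2) ^ 2 * a ^ 2) * (5 * (w + 2) ^ 2 * a ^ 2) := Nat.mul_le_mul h1 h2
    by_contra hc
    have h4 : (5 * (w + 2) ^ 2 * a ^ 2) * (5 * (w + 2) ^ 2 * a ^ 2) < k * k :=
      Nat.mul_self_lt_mul_self (not_le.mp hc)
    have h5 : k * k ≤ k ^ 2 + 3 * k + 1 := by
      rw [sq]
      omega
    omega
  · -- the number of prime factors
    have e1 := (om_eq P a b c z ha ha1 hx hwz u).2
    have e2 := (om_eq P a b c z ha ha1 hx hwz v).2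
    have e3 := P.cfg.om u v huv
    rw [hNu] at e1
    rw [hNv] at e2
    rw [cardFactors_mul hHpos.ne' hP1p.ne', e3] at e1
    rw [cardFactors_mul hHpos.ne' hQ1p.ne', e3] at e2
    rw [hkN, cardFactors_mul hP1p.ne' hQ1p.ne']
    simp only [hNu, hNv] at hL
    omega
  · rw [hkN, ← hP1, Int.natAbs_natCast]
    exact Nat.dvd_mul_right P1 Q1

end Pool.Agent.Lib.MP_d57abb_nt.EE
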