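import Mathlib
import Pool.Agent.Lib.MP_d57abb_nt.EE.KvE
import Pool.Agent.Lib.MP_d57abb_nt.EE.DefS

/-!
# JOB KvS: the value attached to a good frame has a squarefree small part

PROOF.  `frame_k` (`EE/KvE.lean`) gives `u, v, p, q, k`; `nm (Xv y a b c u) = nm (δ u v) * nm p = hd y u v * nm p` (`nm_ml`, `P.nd`), the same for `v` and `q`; `k² + 3 k + 1 = nm p * nm q` (`kk_eq`, see the proof of `frame_k`).
Let `ℓ` be a prime `≤ z`.
If `w < ℓ`: `ℓ` does not divide `nm (Xv y a b c v)` for any `v` (`SiftE`), so it does not divide `nm p`, `nm q`, nor `k² + 3k + 1`.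
If `ℓ ≤ w`: `ℓ² ∣ (w!)^E` (`P.E2`), and `Xv y a b c s ≡ Xs y B s (mod (w!)^E)` in both coordinates, as in the proof of `om_eq` (`EE/OmE.lean`; copy), so `ℓ² ∤ nm (Xv .. s)` (`P.sqs`) and `ℓ ∣ nm (Xv .. s) ↔ ℓ ∣ nm (Xs y B s)`.
 If `ℓ ∣ hd y u v`: `ℓ² ∤ hd y u v * nm p` gives `ℓ ∤ nm p`, and `ℓ ∤ nm q`, so `ℓ ∤ k² + 3k + 1`.
 If not: by `P.cops`, `ℓ` does not divide both norms; say `ℓ ∤ nm p` (as `nm p ∣ nm (Xv .. u)`); then `ℓ² ∣ nm p * nm q` gives `ℓ² ∣ nm q ∣ nm (Xv .. v)`, a contradiction.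
-/

open Finset

namespace Pool.Agent.Lib.MP_d57abb_nt.EE

open Pool.Agent.Lib.MP_d57abb_nt Pool.Agent.Lib.MP_d57abb_nt.All Pool.Agent.Lib.MP_d57abb_nt.AP
  Pool.Agent.Lib.MP_d57abb_nt.Ev ArithmeticFunction

private theorem KvS_xc (g : Fin 3) : xc g = 1 ∨ xc g = 2 := by
  unfold xc
  split_ifs
  · exact Or.inr rfl
  · exact Or.inl rfl

private theorem KvS_cong {G : ℤ} {x y s t : ℤ} (h1 : G ∣ x - s) (h2 : G ∣ y - t) :
    G ∣ nm (x, y) - nm (s, t) := by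
  obtain ⟨u, hu⟩ := h1
  obtain ⟨v, hv⟩ := h2
  have hx : x = s + G * u := by linarith
  have hy : y = t + G * v := by linarith
  refine ⟨2 * s * u + G * u ^ 2 + 3 * (s * v + u * t + G * u * v) + 2 * t * v + G * v ^ 2, ?_⟩
  simp only [nm]
  rw [hx, hy]
  ring

/-- the norm of the vector of a frame is congruent to the one of the base vector -/
private theorem KvS_mod {n : ℕ} {y : V n → ℕ} {B a b c G : ℕ} (ha : a.Prime)
    (ha1 : a ≡ 1 [MOD G]) (hx : (b, c) ∈ Fam a G B) (v : V n) :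
    (G : ℤ) ∣ nm (Xv y a b c v) - nm (Xs y B v) := by
  unfold Fam at hx
  rw [mem_filter, mem_product, mem_range, mem_range] at hx
  obtain ⟨⟨hba, hca⟩, hdvd, hb, hc⟩ := hx
  simp only at hba hca hdvd hb hc
  obtain ⟨e, he⟩ := hdvd
  have ha0 : 0 < a := ha.pos
  have hdiv : (1 + b * c) / a = e := by
    rw [he]
    exact Nat.mul_div_cancel_left e ha0
  have he1 : e ≡ 1 [MOD G] := by
    have h1 : a * e ≡ 1 * e [MOD G] := ha1.mul_right e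
    have h2 : 1 + b * c ≡ 1 + b * 0 [MOD G] := (hc.mul_left b).add_left 1
    rw [he] at h2
    rw [one_mul] at h1
    rw [mul_zero, add_zero] at h2
    exact h1.symm.trans h2
  have hXv : Xv y a b c v = ((xc v.1 : ℤ) * a + y v * c, (xc v.1 : ℤ) * b + y v * e) := by
    unfold Xv zv fv
    rw [hdiv]
    rfl
  have hXs : Xs y B v = ((xc v.1 : ℤ), ((xc v.1 * B + y v : ℕ) : ℤ)) := rfl
  rw [hXv, hXs]
  have e1 : (G : ℤ) ∣ (a : ℤ) - 1 := by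
    have := (Nat.modEq_iff_dvd.1 ha1.symm)
    simpa using this
  have e2 : (G : ℤ) ∣ (b : ℤ) - B := by
    have := (Nat.modEq_iff_dvd.1 hb.symm)
    simpa using this
  have e3 : (G : ℤ) ∣ (c : ℤ) := by
    have := (Nat.modEq_iff_dvd.1 hc.symm)
    simpa using this
  have e4 : (G : ℤ) ∣ (e : ℤ) - 1 := by
    have := (Nat.modEq_iff_dvd.1 he1.symm)
    simpa using this
  refine KvS_cong ?_ ?_
  · have : (xc v.1 : ℤ) * a + y v * c - xc v.1 = xc v.1 * ((a : ℤ) - 1) + y v * c := by ring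
    rw [this]
    exact dvd_add (e1.mul_left _) (e3.mul_left _)
  · have : (xc v.1 : ℤ) * b + y v * e - ((xc v.1 * B + y v : ℕ) : ℤ) =
        xc v.1 * ((b : ℤ) - B) + y v * ((e : ℤ) - 1) := by
      push_cast
      ring
    rw [this]
    exact dvd_add (e2.mul_left _) (e4.mul_left _)

theorem frame_kS {n R : ℕ} (hn : 1 ≤ n) (hR : 1 ≤ R) {L : V n → V n → ℕ} (hRich : Rich R L) {y : V n → ℕ}
    {B w E F : ℕ} {δ : V n → V n → ℤ × ℤ} (P : BasePS L y B w E F δ) (a b c z : ℕ) (ha : a.Prime)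
    (ha1 : a ≡ 1 [MOD w.factorial ^ E]) (hx : (b, c) ∈ SiftE y a (w.factorial ^ E) B w z) (hwz : w ≤ z)
    (hs : 4 * ∑ v, bOm z (nm (Xv y a b c v)).natAbs ≤ n * R) :
    ∃ (u v : V n) (p q : ℤ × ℤ) (k : ℕ), u.1 < v.1 ∧ TP p ∧ TP q ∧ dt p q = 1 ∧
      ml (δ u v) p = Xv y a b c u ∧ ml (δ u v) q = Xv y a b c v ∧ kk p q = k ∧ 1 ≤ k ∧
      k ≤ 5 * (w + 2) ^ 2 * a ^ 2 ∧ cardFactors (k ^ 2 + 3 * k + 1) + 2 = 2 * F ∧
      (nm p).natAbs ∣ k ^ 2 + 3 * k + 1 ∧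
      (∀ ℓ : ℕ, ℓ.Prime → ℓ ≤ z → ¬ ℓ ^ 2 ∣ k ^ 2 + 3 * k + 1) ∧
      ∀ ℓ : ℕ, ℓ.Prime → ℓ ∣ k ^ 2 + 3 * k + 1 → ℓ ≤ w ∨ z < ℓ := by
  obtain ⟨u, v, p, q, k, huv, hp, hq, hd1, hmp, hmq, hk, hk1, hksz, hcf, hdv⟩ :=
    frame_k hn hR hRich P.toBaseP a b c z ha ha1 hx hwz hs
  have hnp : nm (Xv y a b c u) = (hd y u v : ℤ) * nm p := by
    rw [← hmp, nm_ml, P.nd u v huv]
  have hnq : nm (Xv y a b c v) = (hd y u v : ℤ) * nm q := by
    rw [← hmq, nm_ml, P.nd u v huv]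
  have hkN : ((k ^ 2 + 3 * k + 1 : ℕ) : ℤ) = nm p * nm q := by
    have h1 := kk_eq hd1
    rw [hk] at h1
    rw [← h1]
    push_cast
    ring
  obtain ⟨hxF, hsift⟩ : (b, c) ∈ Fam a (w.factorial ^ E) B ∧
      ∀ ℓ ∈ Pz z, w < ℓ → ∀ t : V n, ¬ (ℓ : ℤ) ∣ nm (Xv y a b c t) := by
    classical
    have h1 := hx
    unfold SiftE at h1
    rw [Finset.mem_filter] at h1
    exact h1
  -- the primes between `w` and `z`
  have hmid : ∀ ℓ : ℕ, ℓ.Prime → w < ℓ → ℓ ≤ z → ¬ ℓ ∣ k ^ 2 + 3 * k + 1 := by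
    intro ℓ hℓ hwℓ hℓz hdvd
    have hℓp : Prime (ℓ : ℤ) := Nat.prime_iff_prime_int.mp hℓ
    have hPz : ℓ ∈ Pz z := by
      unfold Pz
      rw [mem_filter, mem_Icc]
      exact ⟨⟨hℓ.one_lt.le, hℓz⟩, hℓ⟩
    have h1 : (ℓ : ℤ) ∣ nm p * nm q := by
      rw [← hkN]
      exact_mod_cast hdvd
    rcases hℓp.dvd_or_dvd h1 with h2 | h2
    · exact hsift ℓ hPz hwℓ u (by rw [hnp]; exact h2.mul_left _)
    · exact hsift ℓ hPz hwℓ v (by rw [hnq]; exact h2.mul_left _)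
  refine ⟨u, v, p, q, k, huv, hp, hq, hd1, hmp, hmq, hk, hk1, hksz, hcf, hdv, ?_, ?_⟩
  · intro ℓ hℓ hℓz hdvd
    have hℓp : Prime (ℓ : ℤ) := Nat.prime_iff_prime_int.mp hℓ
    have hdvd1 : ℓ ∣ k ^ 2 + 3 * k + 1 := (Dvd.intro_left _ (pow_one ℓ ▸ (pow_succ ℓ 1).symm)).trans hdvd
    by_cases hℓw : ℓ ≤ w
    · have hG2 : ((ℓ ^ 2 : ℕ) : ℤ) ∣ ((w.factorial ^ E : ℕ) : ℤ) := by
        have h1 : ℓ ^ 2 ∣ ℓ ^ E := pow_dvd_pow ℓ P.E2
        have h2 : ℓ ^ E ∣ w.factorial ^ E :=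
          pow_dvd_pow_of_dvd ((Nat.Prime.dvd_factorial hℓ).2 hℓw) E
        exact_mod_cast h1.trans h2
      have hcg : ∀ t : V n, ((ℓ ^ 2 : ℕ) : ℤ) ∣ nm (Xv y a b c t) - nm (Xs y B t) := fun t =>
        hG2.trans (KvS_mod ha ha1 hxF t)
      have hsq : ∀ t : V n, ¬ (ℓ : ℤ) ^ 2 ∣ nm (Xv y a b c t) := by
        intro t ht
        apply P.sqs t ℓ hℓ hℓw
        have h1 : ((ℓ ^ 2 : ℕ) : ℤ) ∣ nm (Xv y a b c t) := by
          push_cast
          exact ht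
        exact (dvd_iff_dvd_of_dvd_sub (hcg t)).1 h1
      have hone : ∀ t : V n, (ℓ : ℤ) ∣ nm (Xv y a b c t) → (ℓ : ℤ) ∣ nm (Xs y B t) := by
        intro t ht
        have h1 : (ℓ : ℤ) ∣ nm (Xv y a b c t) - nm (Xs y B t) := by
          refine dvd_trans ?_ (hcg t)
          push_cast
          exact Dvd.intro_left _ (by ring : (ℓ : ℤ) * ℓ = (ℓ : ℤ) ^ 2)
        exact (dvd_iff_dvd_of_dvd_sub h1).1 ht
      have hd2 : (ℓ : ℤ) ^ 2 ∣ nm p * nm q := by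
        rw [← hkN]
        exact_mod_cast hdvd
      by_cases hH : (ℓ : ℤ) ∣ (hd y u v : ℤ)
      · have h1 : (ℓ : ℤ) ∣ nm p * nm q := by
          rw [← hkN]
          exact_mod_cast hdvd1
        rcases hℓp.dvd_or_dvd h1 with h2 | h2
        · apply hsq u
          rw [hnp, sq]
          exact mul_dvd_mul hH h2
        · apply hsq v
          rw [hnq, sq]
          exact mul_dvd_mul hH h2
      · by_cases h1 : (ℓ : ℤ) ∣ nm p
        · have h2 : ¬ (ℓ : ℤ) ∣ nm q := by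
            intro h3
            apply hH
            have h4 := P.cops u v ℓ huv hℓ hℓw (hone u (by rw [hnp]; exact h1.mul_left _))
              (hone v (by rw [hnq]; exact h3.mul_left _))
            exact_mod_cast h4
          rw [mul_comm] at hd2
          have h3 := hℓp.pow_dvd_of_dvd_mul_left 2 h2 hd2
          exact hsq u (by rw [hnp]; exact h3.mul_left _)
        · have h3 := hℓp.pow_dvd_of_dvd_mul_left 2 h1 hd2
          exact hsq v (by rw [hnq]; exact h3.mul_left _)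
    · exact hmid ℓ hℓ (not_le.1 hℓw) hℓz hdvd1
  · intro ℓ hℓ hdvd
    by_contra hcon
    push Not at hcon
    exact hmid ℓ hℓ hcon.1 hcon.2 hdvd

end Pool.Agent.Lib.MP_d57abb_nt.EE
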