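import Mathlib
import Pool.Agent.Lib.MP_d57abb_nt.EE.KvS
import Pool.Agent.Lib.MP_d57abb_nt.EE.DefJ

/-!
# JOB KvJ: the value attached to a good frame, joint law

PROOF: adapt `EE/KvE.lean` (`frame_k`) and `EE/KvS.lean` (`frame_kS`), complete there.  Here the pair `(u, v)` must be the one of the pigeonhole `pig`, because its relation `s u + s v + 2 = 2 L u v`, `s t = bOm z (nm (Xv y a b c t)).natAbs`, is used: so copy the proof of `frame_k` instead of citing it.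
Let `m = k² + 3 k + 1 = nm p * nm q`, `nm X_u = h * nm p`, `nm X_v = h * nm q`, `h = hd y u v`, `X_t = Xv y a b c t`.
(1) no prime in `(w, z]` divides `m` (`SiftE`).
(2) `bOm z m = s u + s v`: the primes `> z` do not divide `h ≤ w`, so their valuations in `m` are the sums of those in `nm X_u` and `nm X_v` (`Nat.factorization_mul`; write `bOm` as a sum over the primes of a large common set, or use `cardFactors m = (small part) + bOm`).
(3) `sW w m + 2 L u v = 2 F' + κ`: let `p ≤ w` be prime.  `X_t ≡ Xs y B t (mod (w!)^E)`, `E ≥ 3`, as in `om_eq` (`EE/OmE.lean`), so `p ∣ nm X_t ↔ p ∣ nm (Xs y B t)` and `p³ ∣ nm X_u * nm X_v ↔ p³ ∣ nm (Xs y B u) * nm (Xs y B v)`.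
 If `p ∤ h`: `p ∣ m` iff `p ∣ nm X_u` or `p ∣ nm X_v`, not both (`P.cops`).  If `p ∣ h` (then `p² ∤ h`, `P.sqf`): `p` divides both, and `p ∣ m` iff `p³ ∣ h² m = nm X_u * nm X_v`.
 So `sW w m = (F' - L) + (F' - L) + κ`: the primes dividing `h` (`L = cardFactors h` of them, as `h` is squarefree; all `≤ w`) are among the `F'` primes `≤ w` dividing `nm X_u` (`P.sw`), the same for `v`; and `P.one`.
(4) So `sW w m + bOm z m + 2 = 2 F' + κ - 2 L + (s u + s v + 2) = 2 F' + κ`.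
-/

open Finset

namespace Pool.Agent.Lib.MP_d57abb_nt.EE

open Pool.Agent.Lib.MP_d57abb_nt Pool.Agent.Lib.MP_d57abb_nt.All Pool.Agent.Lib.MP_d57abb_nt.AP
  Pool.Agent.Lib.MP_d57abb_nt.Ev ArithmeticFunction

private theorem KvJ_xc (g : Fin 3) : xc g = 1 ∨ xc g = 2 := by
  unfold xc
  split_ifs
  · exact Or.inr rfl
  · exact Or.inl rfl

private theorem KvJ_cong {G : ℤ} {x y s t : ℤ} (h1 : G ∣ x - s) (h2 : G ∣ y - t) :
    G ∣ nm (x, y) - nm (s, t) := by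
  obtain ⟨u, hu⟩ := h1
  obtain ⟨v, hv⟩ := h2
  have hx : x = s + G * u := by linarith
  have hy : y = t + G * v := by linarith
  refine ⟨2 * s * u + G * u ^ 2 + 3 * (s * v + u * t + G * u * v) + 2 * t * v + G * v ^ 2, ?_⟩
  simp only [nm]
  rw [hx, hy]
  ring

/-- the norm of the vector of a frame is congruent to the one of the base vector -/
private theorem KvJ_mod {n : ℕ} {y : V n → ℕ} {B a b c G : ℕ} (ha : a.Prime)
    (ha1 : a ≡ 1 [MOD G]) (hx : (b, c) ∈ Fam a G B) (v : V n) :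
    (G : ℤ) ∣ nm (Xv y a b c v) - nm (Xs y B v) := by
  unfold Fam at hx
  rw [mem_filter, mem_product, mem_range, mem_range] at hx
  obtain ⟨⟨hba, hca⟩, hdvd, hb, hc⟩ := hx
  simp only at hba hca hdvd hb hc
  obtain ⟨e, he⟩ := hdvd
  have ha0 : 0 < a := ha.pos
  have hdiv : (1 + b * c) / a = e := by
    rw [he]
    exact Nat.mul_div_cancel_left e ha0
  have he1 : e ≡ 1 [MOD G] := by
    have h1 : a * e ≡ 1 * e [MOD G] := ha1.mul_right e
    have h2 : 1 + b * c ≡ 1 + b * 0 [MOD G] := (hc.mul_left b).add_left 1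
    rw [he] at h2
    rw [one_mul] at h1
    rw [mul_zero, add_zero] at h2
    exact h1.symm.trans h2
  have hXv : Xv y a b c v = ((xc v.1 : ℤ) * a + y v * c, (xc v.1 : ℤ) * b + y v * e) := by
    unfold Xv zv fv
    rw [hdiv]
    rfl
  have hXs : Xs y B v = ((xc v.1 : ℤ), ((xc v.1 * B + y v : ℕ) : ℤ)) := rfl
  rw [hXv, hXs]
  have e1 : (G : ℤ) ∣ (a : ℤ) - 1 := by
    have := (Nat.modEq_iff_dvd.1 ha1.symm)
    simpa using this
  have e2 : (G : ℤ) ∣ (b : ℤ) - B := by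
    have := (Nat.modEq_iff_dvd.1 hb.symm)
    simpa using this
  have e3 : (G : ℤ) ∣ (c : ℤ) := by
    have := (Nat.modEq_iff_dvd.1 hc.symm)
    simpa using this
  have e4 : (G : ℤ) ∣ (e : ℤ) - 1 := by
    have := (Nat.modEq_iff_dvd.1 he1.symm)
    simpa using this
  refine KvJ_cong ?_ ?_
  · have : (xc v.1 : ℤ) * a + y v * c - xc v.1 = xc v.1 * ((a : ℤ) - 1) + y v * c := by ring
    rw [this]
    exact dvd_add (e1.mul_left _) (e3.mul_left _)
  · have : (xc v.1 : ℤ) * b + y v * e - ((xc v.1 * B + y v : ℕ) : ℤ) =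
        xc v.1 * ((b : ℤ) - B) + y v * ((e : ℤ) - 1) := by
      push_cast
      ring
    rw [this]
    exact dvd_add (e2.mul_left _) (e4.mul_left _)


private theorem KvJ_pos {n : ℕ} {y : V n → ℕ} {B : ℕ} (v : V n) : 0 < nm (Xs y B v) := by
  have hXs : Xs y B v = ((xc v.1 : ℤ), ((xc v.1 * B + y v : ℕ) : ℤ)) := rfl
  rw [hXs]
  simp only [nm]
  have hx1 : (1 : ℤ) ≤ (xc v.1 : ℤ) := by
    rcases KvJ_xc v.1 with h | h <;> rw [h] <;> norm_num
  have h5 : (0 : ℤ) < (xc v.1 : ℤ) ^ 2 := by positivity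
  have h6 : (0 : ℤ) ≤ 3 * (xc v.1 : ℤ) * ((xc v.1 * B + y v : ℕ) : ℤ) := by positivity
  have h7 : (0 : ℤ) ≤ (((xc v.1 * B + y v : ℕ) : ℤ)) ^ 2 := by positivity
  linarith

private theorem KvJ_card {m : ℕ} (hm : Squarefree m) : m.primeFactors.card = cardFactors m := by
  have h1 := (cardDistinctFactors_eq_cardFactors_iff_squarefree hm.ne_zero).2 hm
  rw [← h1, cardDistinctFactors_apply, ← List.card_toFinset, Nat.primeFactors]


/-- `bOm` as a sum over a larger set of primes -/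
private theorem KvJ_bOm_sup {z m : ℕ} (_hm : 0 < m) {T : Finset ℕ} (hT : m.primeFactors ⊆ T) :
    bOm z m = ∑ p ∈ T.filter (fun p => z < p), m.factorization p := by
  unfold bOm
  refine Finset.sum_subset (Finset.filter_subset_filter _ hT) ?_
  intro p hp hp'
  rw [mem_filter] at hp
  rw [mem_filter] at hp'
  by_contra hne
  apply hp'
  refine ⟨?_, hp.2⟩
  rw [← Nat.support_factorization]
  exact Finsupp.mem_support_iff.mpr hne

private theorem KvJ_bOm_mul {z m n : ℕ} (hm : 0 < m) (hn : 0 < n) :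
    bOm z (m * n) = bOm z m + bOm z n := by
  have h1 : m.primeFactors ⊆ (m * n).primeFactors :=
    Nat.primeFactors_mono (Nat.dvd_mul_right m n) (Nat.mul_pos hm hn).ne'
  have h2 : n.primeFactors ⊆ (m * n).primeFactors :=
    Nat.primeFactors_mono (Nat.dvd_mul_left n m) (Nat.mul_pos hm hn).ne'
  rw [KvJ_bOm_sup hm h1, KvJ_bOm_sup hn h2, KvJ_bOm_sup (Nat.mul_pos hm hn) (Finset.Subset.refl _),
    ← Finset.sum_add_distrib]
  refine Finset.sum_congr rfl fun p _ => ?_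
  rw [Nat.factorization_mul hm.ne' hn.ne']
  rfl

private theorem KvJ_bOm_small {z m : ℕ} (hmz : m ≤ z) : bOm z m = 0 := by
  unfold bOm
  rw [Finset.filter_false_of_mem, Finset.sum_empty]
  intro p hp
  have h1 := Nat.le_of_mem_primeFactors hp
  omega

/-- the count of the different small primes -/
private theorem KvJ_core {w H P1 Q1 Mu Mv F' κ : ℕ} (hH : 0 < H) (hP : 0 < P1) (hQ : 0 < Q1)
    (hMu : 0 < Mu) (hMv : 0 < Mv) (hHw : H ≤ w) (hsq : Squarefree H)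
    (h1 : ∀ p : ℕ, p.Prime → p ≤ w → (p ∣ H * P1 ↔ p ∣ Mu))
    (h2 : ∀ p : ℕ, p.Prime → p ≤ w → (p ∣ H * Q1 ↔ p ∣ Mv))
    (h3 : ∀ p : ℕ, p.Prime → p ≤ w → (p ^ 3 ∣ (H * P1) * (H * Q1) ↔ p ^ 3 ∣ Mu * Mv))
    (hc : ∀ p : ℕ, p.Prime → p ≤ w → p ∣ Mu → p ∣ Mv → p ∣ H)
    (hu : sW w Mu = F') (hv : sW w Mv = F')
    (ho : (H.primeFactors.filter (fun p => p ^ 3 ∣ Mu * Mv)).card = κ) :
    sW w (P1 * Q1) + 2 * H.primeFactors.card = 2 * F' + κ := by
  set A := Mu.primeFactors.filter (fun p => p ≤ w) with hA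
  set B := Mv.primeFactors.filter (fun p => p ≤ w) with hB
  set D := H.primeFactors with hD
  set K := D.filter (fun p => p ^ 3 ∣ Mu * Mv) with hK
  have memA : ∀ p, p ∈ A ↔ p.Prime ∧ p ≤ w ∧ p ∣ Mu := by
    intro p
    rw [hA, mem_filter, Nat.mem_primeFactors]
    exact ⟨fun h => ⟨h.1.1, h.2, h.1.2.1⟩, fun h => ⟨⟨h.1, h.2.2, hMu.ne'⟩, h.2.1⟩⟩
  have memB : ∀ p, p ∈ B ↔ p.Prime ∧ p ≤ w ∧ p ∣ Mv := by
    intro p
    rw [hB, mem_filter, Nat.mem_primeFactors]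
    exact ⟨fun h => ⟨h.1.1, h.2, h.1.2.1⟩, fun h => ⟨⟨h.1, h.2.2, hMv.ne'⟩, h.2.1⟩⟩
  have memD : ∀ p, p ∈ D ↔ p.Prime ∧ p ∣ H := by
    intro p
    rw [hD, Nat.mem_primeFactors]
    exact ⟨fun h => ⟨h.1, h.2.1⟩, fun h => ⟨h.1, h.2, hH.ne'⟩⟩
  have hDw : ∀ p ∈ D, p ≤ w := by
    intro p hp
    exact (Nat.le_of_dvd hH ((memD p).1 hp).2).trans hHw
  have hDA : D ⊆ A := by
    intro p hp
    have hp1 := (memD p).1 hp
    exact (memA p).2 ⟨hp1.1, hDw p hp, (h1 p hp1.1 (hDw p hp)).1 (hp1.2.mul_right _)⟩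
  have hDB : D ⊆ B := by
    intro p hp
    have hp1 := (memD p).1 hp
    exact (memB p).2 ⟨hp1.1, hDw p hp, (h2 p hp1.1 (hDw p hp)).1 (hp1.2.mul_right _)⟩
  have hS : (P1 * Q1).primeFactors.filter (fun p => p ≤ w) = (A \ D) ∪ (B \ D) ∪ K := by
    ext p
    rw [mem_filter, Nat.mem_primeFactors, Finset.mem_union, Finset.mem_union, Finset.mem_sdiff,
      Finset.mem_sdiff, memA, memB, hK, mem_filter]
    constructor
    · rintro ⟨⟨hp, hd, -⟩, hpw⟩
      by_cases hpD : p ∈ D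
      · right
        refine ⟨hpD, (h3 p hp hpw).1 ?_⟩
        have hpH := ((memD p).1 hpD).2
        have e1 : (H * P1) * (H * Q1) = (H * H) * (P1 * Q1) := by ring
        rw [e1, pow_succ, sq]
        exact Nat.mul_dvd_mul (Nat.mul_dvd_mul hpH hpH) hd
      · left
        rcases (Nat.Prime.dvd_mul hp).1 hd with h | h
        · left
          exact ⟨⟨hp, hpw, (h1 p hp hpw).1 (h.mul_left _)⟩, hpD⟩
        · right
          exact ⟨⟨hp, hpw, (h2 p hp hpw).1 (h.mul_left _)⟩, hpD⟩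
    · rintro ((⟨⟨hp, hpw, hd⟩, hpD⟩ | ⟨⟨hp, hpw, hd⟩, hpD⟩) | ⟨hpD, hd⟩)
      · refine ⟨⟨hp, ?_, (Nat.mul_pos hP hQ).ne'⟩, hpw⟩
        have h4 := (h1 p hp hpw).2 hd
        rcases (Nat.Prime.dvd_mul hp).1 h4 with h | h
        · exact absurd ((memD p).2 ⟨hp, h⟩) hpD
        · exact h.mul_right _
      · refine ⟨⟨hp, ?_, (Nat.mul_pos hP hQ).ne'⟩, hpw⟩
        have h4 := (h2 p hp hpw).2 hd
        rcases (Nat.Prime.dvd_mul hp).1 h4 with h | h
        · exact absurd ((memD p).2 ⟨hp, h⟩) hpD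
        · exact h.mul_left _
      · have hpw := hDw p hpD
        obtain ⟨hp, hpH⟩ := (memD p).1 hpD
        refine ⟨⟨hp, ?_, (Nat.mul_pos hP hQ).ne'⟩, hpw⟩
        have h4 := (h3 p hp hpw).2 hd
        obtain ⟨h', hh'⟩ := hpH
        have hnd : ¬ p ∣ h' := by
          rintro ⟨t, ht⟩
          have h5 : p * p ∣ H := ⟨t, by rw [hh', ht, mul_assoc]⟩
          have h6 := hsq p h5
          exact hp.one_lt.ne' (Nat.isUnit_iff.1 h6)
        have e1 : (H * P1) * (H * Q1) = p ^ 2 * ((h' * h') * (P1 * Q1)) := by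
          rw [hh']
          ring
        rw [e1, pow_succ] at h4
        have h5 : p ∣ (h' * h') * (P1 * Q1) := Nat.dvd_of_mul_dvd_mul_left (pow_pos hp.pos 2) h4
        rcases (Nat.Prime.dvd_mul hp).1 h5 with h | h
        · rcases (Nat.Prime.dvd_mul hp).1 h with h | h
          · exact absurd h hnd
          · exact absurd h hnd
        · exact h
  have hdis1 : Disjoint (A \ D) (B \ D) := by
    rw [Finset.disjoint_left]
    intro p hpA hpB
    rw [Finset.mem_sdiff] at hpA hpB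
    have ha := (memA p).1 hpA.1
    have hb := (memB p).1 hpB.1
    exact hpA.2 ((memD p).2 ⟨ha.1, hc p ha.1 ha.2.1 ha.2.2 hb.2.2⟩)
  have hdis2 : Disjoint ((A \ D) ∪ (B \ D)) K := by
    rw [Finset.disjoint_left]
    intro p hp hpK
    rw [hK, mem_filter] at hpK
    rw [Finset.mem_union, Finset.mem_sdiff, Finset.mem_sdiff] at hp
    rcases hp with h | h
    · exact h.2 hpK.1
    · exact h.2 hpK.1
  have hcA : (A \ D).card + D.card = A.card := Finset.card_sdiff_add_card_eq_card hDA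
  have hcB : (B \ D).card + D.card = B.card := Finset.card_sdiff_add_card_eq_card hDB
  have hcS : sW w (P1 * Q1) = (A \ D).card + (B \ D).card + K.card := by
    unfold sW
    rw [hS, Finset.card_union_of_disjoint hdis2, Finset.card_union_of_disjoint hdis1]
  have hu' : A.card = F' := hu
  have hv' : B.card = F' := hv
  omega

theorem frame_kJ {n R : ℕ} (hn : 1 ≤ n) (hR : 1 ≤ R) {L : V n → V n → ℕ} (hRich : Rich R L) {y : V n → ℕ}
    {B w E F F' κ : ℕ} {δ : V n → V n → ℤ × ℤ} (P : BaseJ L y B w E F F' κ δ) (a b c z : ℕ) (ha : a.Prime)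
    (ha1 : a ≡ 1 [MOD w.factorial ^ E]) (hx : (b, c) ∈ SiftE y a (w.factorial ^ E) B w z) (hwz : w ≤ z)
    (hs : 4 * ∑ v, bOm z (nm (Xv y a b c v)).natAbs ≤ n * R) :
    ∃ (u v : V n) (p q : ℤ × ℤ) (k : ℕ), u.1 < v.1 ∧ TP p ∧ TP q ∧ dt p q = 1 ∧
      ml (δ u v) p = Xv y a b c u ∧ ml (δ u v) q = Xv y a b c v ∧ kk p q = k ∧ 1 ≤ k ∧
      k ≤ 5 * (w + 2) ^ 2 * a ^ 2 ∧ cardFactors (k ^ 2 + 3 * k + 1) + 2 = 2 * F ∧
      (nm p).natAbs ∣ k ^ 2 + 3 * k + 1 ∧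
      sW w (k ^ 2 + 3 * k + 1) + bOm z (k ^ 2 + 3 * k + 1) + 2 = 2 * F' + κ ∧
      ∀ ℓ : ℕ, ℓ.Prime → ℓ ∣ k ^ 2 + 3 * k + 1 → ℓ ≤ w ∨ z < ℓ := by
  obtain ⟨u, v, huv, hL⟩ := pig hn hR hRich (fun v => bOm z (nm (Xv y a b c v)).natAbs) hs
  have hxF : (b, c) ∈ Fam a (w.factorial ^ E) B := by
    classical
    have h1 := hx
    unfold SiftE at h1
    exact (Finset.mem_filter.mp h1).1
  have hxF0 := hxF
  have hsift : ∀ ℓ ∈ Pz z, w < ℓ → ∀ t : V n, ¬ (ℓ : ℤ) ∣ nm (Xv y a b c t) := by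
    classical
    have h1 := hx
    unfold SiftE at h1
    exact (Finset.mem_filter.mp h1).2
  obtain ⟨p, q, hp, hq, hd1, hmp, hmq, hnp, hnq⟩ := frm P.toBaseP a b c ha ha1 hxF u v huv
  obtain ⟨k, hk⟩ : ∃ k : ℕ, (k : ℤ) = kk p q := ⟨(kk p q).toNat, Int.toNat_of_nonneg (kk_nonneg hp hq hd1)⟩
  have hkk := kk_eq hd1
  rw [← hk] at hkk
  have hp0 : 0 < nm p := hp.nm_pos
  have hq0 : 0 < nm q := hq.nm_pos
  obtain ⟨P1, hP1⟩ : ∃ P1 : ℕ, (P1 : ℤ) = nm p := ⟨(nm p).toNat, Int.toNat_of_nonneg hp0.le⟩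
  obtain ⟨Q1, hQ1⟩ : ∃ Q1 : ℕ, (Q1 : ℤ) = nm q := ⟨(nm q).toNat, Int.toNat_of_nonneg hq0.le⟩
  have hkN : k ^ 2 + 3 * k + 1 = P1 * Q1 := by
    rw [← hP1, ← hQ1] at hkk
    exact_mod_cast hkk
  have hP1p : 0 < P1 := by
    rw [← hP1] at hp0
    exact_mod_cast hp0
  have hQ1p : 0 < Q1 := by
    rw [← hQ1] at hq0
    exact_mod_cast hq0
  have hlt := P.cfg.lt u v huv
  have hHpos : 0 < hd y u v := by
    unfold hd
    omega
  have hHw : hd y u v ≤ w := by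
    have h1 := P.hy v
    unfold hd
    omega
  -- the frame
  unfold Fam at hxF
  obtain ⟨hxr, hdv, -, -⟩ := Finset.mem_filter.mp hxF
  obtain ⟨hba, hca⟩ := Finset.mem_product.mp hxr
  rw [Finset.mem_range] at hba hca
  have ha2 : 2 ≤ a := ha.two_le
  have hb1 : 1 ≤ b := by
    rcases Nat.eq_zero_or_pos b with h0 | h0
    · exfalso
      have h1 : a ∣ 1 + b * c := hdv
      rw [h0, Nat.zero_mul, Nat.add_zero] at h1
      have := Nat.le_of_dvd one_pos h1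
      omega
    · exact h0
  have hxc : ∀ g : Fin 3, xc g = 1 ∨ xc g = 2 := by
    intro g
    unfold xc
    split_ifs
    · exact Or.inr rfl
    · exact Or.inl rfl
  have hmax : max (a : ℤ) b = a := max_eq_left (by exact_mod_cast hba.le)
  have size : ∀ t : V n, (a : ℤ) ^ 2 ≤ nm (Xv y a b c t) ∧
      nm (Xv y a b c t) ≤ 5 * ((w : ℤ) + 2) ^ 2 * (a : ℤ) ^ 2 := by
    intro t
    have h1 := sizeV a b c (xc t.1) (y t) w (by omega) hb1 hca (hxc t.1) (P.hy t)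
    rw [hmax] at h1
    exact ⟨h1.2.2.2.2.1, h1.2.2.2.2.2⟩
  have haw : w < a := by
    have h1 : w.factorial ^ E ∣ a - 1 := (Nat.modEq_iff_dvd' (by omega)).mp ha1.symm
    have h2 := Nat.le_of_dvd (by omega) h1
    have h3 : w ≤ w.factorial := Nat.self_le_factorial w
    have h4 : w.factorial ≤ w.factorial ^ E := by
      have := P.E1
      exact Nat.le_self_pow (by omega) _
    omega
  have hNu : (nm (Xv y a b c u)).natAbs = hd y u v * P1 := by
    rw [hnp, ← hP1, Int.natAbs_mul, Int.natAbs_natCast, Int.natAbs_natCast]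
  have hNv : (nm (Xv y a b c v)).natAbs = hd y u v * Q1 := by
    rw [hnq, ← hQ1, Int.natAbs_mul, Int.natAbs_natCast, Int.natAbs_natCast]
  refine ⟨u, v, p, q, k, huv, hp, hq, hd1, hmp, hmq, hk.symm, ?_, ?_, ?_, ?_, ?_, ?_⟩
  · -- `1 ≤ k`
    rcases Nat.eq_zero_or_pos k with h0 | h0
    · exfalso
      rw [h0] at hkN
      have h1 : P1 * Q1 = 1 := by omega
      have h2 : P1 = 1 := Nat.eq_one_of_mul_eq_one_right h1
      have h3 := (size u).1
      rw [hnp, ← hP1, h2] at h3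
      have h4 : (hd y u v : ℤ) ≤ w := by exact_mod_cast hHw
      have h5 : (w : ℤ) < a := by exact_mod_cast haw
      have h6 : (2 : ℤ) ≤ a := by exact_mod_cast ha2
      push_cast at h3
      nlinarith
    · exact h0
  · -- the size
    have hle : ∀ (t : V n) (m : ℕ), (nm (Xv y a b c t)) = hd y u v * (m : ℤ) →
        m ≤ 5 * (w + 2) ^ 2 * a ^ 2 := by
      intro t m hm
      have h1 := (size t).2
      rw [hm] at h1
      have h2 : hd y u v * m ≤ 5 * (w + 2) ^ 2 * a ^ 2 := by exact_mod_cast h1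
      exact le_trans (Nat.le_mul_of_pos_left m hHpos) h2
    have h1 := hle u P1 (by rw [hnp, hP1])
    have h2 := hle v Q1 (by rw [hnq, hQ1])
    have h3 : P1 * Q1 ≤ (5 * (w + 2) ^ 2 * a ^ 2) * (5 * (w + 2) ^ 2 * a ^ 2) := Nat.mul_le_mul h1 h2
    by_contra hc
    have h4 : (5 * (w + 2) ^ 2 * a ^ 2) * (5 * (w + 2) ^ 2 * a ^ 2) < k * k :=
      Nat.mul_self_lt_mul_self (not_le.mp hc)
    have h5 : k * k ≤ k ^ 2 + 3 * k + 1 := by
      rw [sq]
      omega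
    omega
  · -- the number of prime factors
    have e1 := (om_eq P.toBaseP a b c z ha ha1 hx hwz u).2
    have e2 := (om_eq P.toBaseP a b c z ha ha1 hx hwz v).2
    have e3 := P.cfg.om u v huv
    rw [hNu] at e1
    rw [hNv] at e2
    rw [cardFactors_mul hHpos.ne' hP1p.ne', e3] at e1
    rw [cardFactors_mul hHpos.ne' hQ1p.ne', e3] at e2
    rw [hkN, cardFactors_mul hP1p.ne' hQ1p.ne']
    simp only [hNu, hNv] at hL
    omega
  · rw [hkN, ← hP1, Int.natAbs_natCast]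
    exact Nat.dvd_mul_right P1 Q1
  · -- the number of different prime factors
    have hspos : ∀ t : V n, 0 < nm (Xs y B t) := fun t => KvJ_pos t
    obtain ⟨Mu, hMu⟩ : ∃ M : ℕ, (M : ℤ) = nm (Xs y B u) :=
      ⟨(nm (Xs y B u)).toNat, Int.toNat_of_nonneg (hspos u).le⟩
    obtain ⟨Mv, hMv⟩ : ∃ M : ℕ, (M : ℤ) = nm (Xs y B v) :=
      ⟨(nm (Xs y B v)).toNat, Int.toNat_of_nonneg (hspos v).le⟩
    have hMu0 : 0 < Mu := by
      have := hspos u
      rw [← hMu] at this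
      exact_mod_cast this
    have hMv0 : 0 < Mv := by
      have := hspos v
      rw [← hMv] at this
      exact_mod_cast this
    have hMun : (nm (Xs y B u)).natAbs = Mu := by rw [← hMu]; rfl
    have hMvn : (nm (Xs y B v)).natAbs = Mv := by rw [← hMv]; rfl
    have hG3 : ∀ ℓ : ℕ, ℓ.Prime → ℓ ≤ w → ((ℓ ^ 3 : ℕ) : ℤ) ∣ ((w.factorial ^ E : ℕ) : ℤ) := by
      intro ℓ hℓ hℓw
      have h1 : ℓ ^ 3 ∣ ℓ ^ E := pow_dvd_pow ℓ P.E3
      have h2 : ℓ ^ E ∣ w.factorial ^ E :=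
        pow_dvd_pow_of_dvd ((Nat.Prime.dvd_factorial hℓ).2 hℓw) E
      exact_mod_cast h1.trans h2
    have hXu : nm (Xv y a b c u) = ((hd y u v * P1 : ℕ) : ℤ) := by
      rw [hnp, ← hP1]
      push_cast
      ring
    have hXv : nm (Xv y a b c v) = ((hd y u v * Q1 : ℕ) : ℤ) := by
      rw [hnq, ← hQ1]
      push_cast
      ring
    have hcu : ∀ ℓ : ℕ, ℓ.Prime → ℓ ≤ w →
        ((ℓ ^ 3 : ℕ) : ℤ) ∣ ((hd y u v * P1 : ℕ) : ℤ) - (Mu : ℤ) := by
      intro ℓ hℓ hℓw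
      rw [← hXu, hMu]
      exact (hG3 ℓ hℓ hℓw).trans (KvJ_mod ha ha1 hxF0 u)
    have hcv : ∀ ℓ : ℕ, ℓ.Prime → ℓ ≤ w →
        ((ℓ ^ 3 : ℕ) : ℤ) ∣ ((hd y u v * Q1 : ℕ) : ℤ) - (Mv : ℤ) := by
      intro ℓ hℓ hℓw
      rw [← hXv, hMv]
      exact (hG3 ℓ hℓ hℓw).trans (KvJ_mod ha ha1 hxF0 v)
    have h13 : ∀ ℓ : ℕ, (ℓ : ℤ) ∣ ((ℓ ^ 3 : ℕ) : ℤ) := by
      intro ℓ
      push_cast
      exact dvd_pow_self _ (by norm_num)
    have hsW := KvJ_core (w := w) (F' := F') (κ := κ) hHpos hP1p hQ1p hMu0 hMv0 hHw (P.sqf u v huv)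
      (fun ℓ hℓ hℓw => by
        have h1 := dvd_iff_dvd_of_dvd_sub ((h13 ℓ).trans (hcu ℓ hℓ hℓw))
        exact_mod_cast h1)
      (fun ℓ hℓ hℓw => by
        have h1 := dvd_iff_dvd_of_dvd_sub ((h13 ℓ).trans (hcv ℓ hℓ hℓw))
        exact_mod_cast h1)
      (fun ℓ hℓ hℓw => by
        have h0 : ((ℓ ^ 3 : ℕ) : ℤ) ∣ ((hd y u v * P1 : ℕ) : ℤ) * ((hd y u v * Q1 : ℕ) : ℤ) -
            (Mu : ℤ) * (Mv : ℤ) := by
          have e1 : ((hd y u v * P1 : ℕ) : ℤ) * ((hd y u v * Q1 : ℕ) : ℤ) - (Mu : ℤ) * (Mv : ℤ) =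
              ((hd y u v * P1 : ℕ) : ℤ) * (((hd y u v * Q1 : ℕ) : ℤ) - (Mv : ℤ)) +
              (Mv : ℤ) * (((hd y u v * P1 : ℕ) : ℤ) - (Mu : ℤ)) := by ring
          rw [e1]
          exact dvd_add ((hcv ℓ hℓ hℓw).mul_left _) ((hcu ℓ hℓ hℓw).mul_left _)
        have h1 := dvd_iff_dvd_of_dvd_sub h0
        exact_mod_cast h1)
      (fun ℓ hℓ hℓw hu hv => by
        have h1 : (ℓ : ℤ) ∣ nm (Xs y B u) := by
          rw [← hMu]
          exact_mod_cast hu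
        have h2 : (ℓ : ℤ) ∣ nm (Xs y B v) := by
          rw [← hMv]
          exact_mod_cast hv
        exact P.cops u v ℓ huv hℓ hℓw h1 h2)
      (by rw [← hMun]; exact P.sw u) (by rw [← hMvn]; exact P.sw v)
      (by
        rw [← P.one u v huv]
        refine congrArg Finset.card (Finset.filter_congr fun ℓ _ => ?_)
        rw [← hMu, ← hMv]
        norm_cast)
    have hbu : bOm z (nm (Xv y a b c u)).natAbs = bOm z P1 := by
      rw [hNu, KvJ_bOm_mul hHpos hP1p, KvJ_bOm_small (hHw.trans hwz), Nat.zero_add]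
    have hbv : bOm z (nm (Xv y a b c v)).natAbs = bOm z Q1 := by
      rw [hNv, KvJ_bOm_mul hHpos hQ1p, KvJ_bOm_small (hHw.trans hwz), Nat.zero_add]
    have hbm : bOm z (P1 * Q1) = bOm z P1 + bOm z Q1 := KvJ_bOm_mul hP1p hQ1p
    have hLc : (hd y u v).primeFactors.card = L u v := by
      rw [← P.cfg.om u v huv]
      exact KvJ_card (P.sqf u v huv)
    rw [hkN, hbm]
    simp only [hbu, hbv] at hL
    omega
  · -- no primes between `w` and `z`
    intro ℓ hℓ hdvd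
    by_contra hcon
    push Not at hcon
    have hℓp : Prime (ℓ : ℤ) := Nat.prime_iff_prime_int.mp hℓ
    have hPz : ℓ ∈ Pz z := by
      unfold Pz
      rw [mem_filter, mem_Icc]
      exact ⟨⟨hℓ.one_lt.le, hcon.2⟩, hℓ⟩
    rw [hkN] at hdvd
    rcases (Nat.Prime.dvd_mul hℓ).1 hdvd with h2 | h2
    · refine hsift ℓ hPz hcon.1 u ?_
      rw [hnp, ← hP1]
      have h3 : (ℓ : ℤ) ∣ (P1 : ℤ) := by exact_mod_cast h2
      exact h3.mul_left _
    · refine hsift ℓ hPz hcon.1 v ?_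
      rw [hnq, ← hQ1]
      have h3 : (ℓ : ℤ) ∣ (Q1 : ℤ) := by exact_mod_cast h2
      exact h3.mul_left _

end Pool.Agent.Lib.MP_d57abb_nt.EE
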