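import Mathlib
import Pool.Agent.Lib.MP_d57abb_nt.EE.CnE
import Pool.Agent.Lib.MP_d57abb_nt.EE.KvJ

/-!
# JOB CnJ: the frames are counted by the values, joint law

PROOF: copy `EE/CnS.lean` (or `EE/CnE.lean`), complete there, with `frame_kJ` in place of `frame_kS` and `FZJ (2 F - 2) (2 F' + κ - 2) w z` in place of `FZ (2 F - 2) w z`; `P.toBaseP` where a `BaseP` is needed.
-/

open Finset

namespace Pool.Agent.Lib.MP_d57abb_nt.EE

open Pool.Agent.Lib.MP_d57abb_nt Pool.Agent.Lib.MP_d57abb_nt.All Pool.Agent.Lib.MP_d57abb_nt.AP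
  Pool.Agent.Lib.MP_d57abb_nt.Ev ArithmeticFunction

private theorem CnJ_step (p a : ℕ) (hp : p.Prime) (ha : 0 < a) :
    (p * a).divisors.card ≤ 2 * a.divisors.card := by
  have h1 : (p * a).divisors ⊆ a.divisors ∪ a.divisors.image (fun x => p * x) := by
    intro d hd
    rw [Nat.mem_divisors] at hd
    rw [mem_union, mem_image]
    by_cases hpd : p ∣ d
    · obtain ⟨e, rfl⟩ := hpd
      right
      exact ⟨e, Nat.mem_divisors.2 ⟨Nat.dvd_of_mul_dvd_mul_left hp.pos hd.1, ha.ne'⟩, rfl⟩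
    · left
      have hc : Nat.Coprime d p := ((Nat.Prime.coprime_iff_not_dvd hp).2 hpd).symm
      exact Nat.mem_divisors.2 ⟨hc.dvd_of_dvd_mul_left hd.1, ha.ne'⟩
  calc (p * a).divisors.card ≤ (a.divisors ∪ a.divisors.image (fun x => p * x)).card := card_le_card h1
    _ ≤ a.divisors.card + (a.divisors.image (fun x => p * x)).card := card_union_le _ _
    _ ≤ a.divisors.card + a.divisors.card := Nat.add_le_add_left card_image_le _
    _ = 2 * a.divisors.card := (two_mul _).symm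

private theorem CnJ_div (n : ℕ) (hn : 0 < n) : n.divisors.card ≤ 2 ^ cardFactors n := by
  induction n using induction_on_primes with
  | zero => exact absurd hn (lt_irrefl 0)
  | one => simp
  | prime_mul p a hp ih =>
    have ha : 0 < a := Nat.pos_of_mul_pos_left hn
    rw [cardFactors_mul hp.ne_zero ha.ne', cardFactors_apply_prime hp, pow_add, pow_one]
    exact (CnJ_step p a hp ha).trans (Nat.mul_le_mul_left 2 (ih ha))

/-- the relation between a frame and its datum -/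
private def CnJ_R {n : ℕ} (y : V n → ℕ) (δ : V n → V n → ℤ × ℤ) (x : Σ _ : ℕ, ℕ × ℕ)
    (t : (Σ _ : ℕ, ℕ) × (V n × V n)) : Prop :=
  ∃ p q : ℤ × ℤ, t.2.1.1 < t.2.2.1 ∧ TP p ∧ TP q ∧ dt p q = 1 ∧
    ml (δ t.2.1 t.2.2) p = Xv y x.1 x.2.1 x.2.2 t.2.1 ∧
    ml (δ t.2.1 t.2.2) q = Xv y x.1 x.2.1 x.2.2 t.2.2 ∧
    kk p q = (t.1.1 : ℤ) ∧ nm p = (t.1.2 : ℤ)

private theorem CnJ_uniq {n : ℕ} {L : V n → V n → ℕ} {y : V n → ℕ}
    {B w E F : ℕ} {δ : V n → V n → ℤ × ℤ} (P : BaseP L y B w E F δ) {x x' : Σ _ : ℕ, ℕ × ℕ}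
    {t : (Σ _ : ℕ, ℕ) × (V n × V n)} (hx : 0 < x.1) (hx' : 0 < x'.1)
    (h1 : CnJ_R y δ x t) (h2 : CnJ_R y δ x' t) : x = x' := by
  obtain ⟨a, b, c⟩ := x
  obtain ⟨a', b', c'⟩ := x'
  obtain ⟨⟨k, m⟩, u, v⟩ := t
  obtain ⟨p₁, q₁, huv, p1, p2, p3, p4, p5, p6, p7⟩ := h1
  obtain ⟨p₂, q₂, _, r1, r2, r3, r4, r5, r6, r7⟩ := h2
  simp only at huv p4 p5 p6 p7 r4 r5 r6 r7 hx hx'
  unfold Xv zv at p4 p5 r4 r5
  have hlt := P.cfg.lt u v huv
  have hu1 : xc u.1 = 1 := by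
    unfold xc
    rw [if_neg]
    intro h
    rw [h] at huv
    omega
  have hd0 : 0 < hd y u v := by
    unfold hd
    omega
  have hdet : xc u.1 * y v = xc v.1 * y u + hd y u v := by
    unfold hd
    rw [hu1, one_mul]
    omega
  have hk : kk p₁ q₁ = kk p₂ q₂ := p6.trans r6.symm
  have hn : nm p₁ = nm p₂ := p7.trans r7.symm
  have key := line_uniqueV hd0 (by omega) hdet (P.tp u v huv) p1 p2 r1 r2 p3 r3 hk hn p4 p5 r4 r5
    (by show (1 : ℤ) ≤ (a : ℤ); exact_mod_cast hx) (by show (0 : ℤ) ≤ (b : ℤ); positivity)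
    (by show (0 : ℤ) ≤ (c : ℤ); positivity)
    (by show (0 : ℤ) ≤ (((1 + b * c) / a : ℕ) : ℤ); exact Int.natCast_nonneg _)
    (by show (1 : ℤ) ≤ (a' : ℤ); exact_mod_cast hx') (by show (0 : ℤ) ≤ (b' : ℤ); positivity)
    (by show (0 : ℤ) ≤ (c' : ℤ); positivity)
    (by show (0 : ℤ) ≤ (((1 + b' * c') / a' : ℕ) : ℤ); exact Int.natCast_nonneg _)
  have e1 : (a : ℤ) = a' := congrArg Prod.fst key.1
  have e2 : (b : ℤ) = b' := congrArg Prod.snd key.1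
  have e3 : (c : ℤ) = c' := congrArg Prod.fst key.2
  have e1' : a = a' := by exact_mod_cast e1
  have e2' : b = b' := by exact_mod_cast e2
  have e3' : c = c' := by exact_mod_cast e3
  rw [e1', e2', e3']

open Classical in
private theorem CnJ_ex {n R : ℕ} (hn : 1 ≤ n) (hR : 1 ≤ R) {L : V n → V n → ℕ} (hRich : Rich R L)
    {y : V n → ℕ} {B w E F F' κ : ℕ} {δ : V n → V n → ℤ × ℤ} (P : BaseJ L y B w E F F' κ δ) (A z : ℕ) (hwz : w ≤ z)
    {x : Σ _ : ℕ, ℕ × ℕ} (hx : x ∈ (SSE y A (w.factorial ^ E) B w z).filter (fun x =>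
      4 * ∑ v, bOm z (nm (Xv y x.1 x.2.1 x.2.2 v)).natAbs ≤ n * R)) :
    ∃ t ∈ ((FZJ (2 * F - 2) (2 * F' + κ - 2) w z (5 * (w + 2) ^ 2 * A ^ 2)).sigma
      (fun k => (k ^ 2 + 3 * k + 1).divisors)) ×ˢ (univ : Finset (V n × V n)),
      CnJ_R y δ x t := by
  obtain ⟨a, b, c⟩ := x
  rw [mem_filter] at hx
  obtain ⟨hx, hs⟩ := hx
  unfold SSE at hx
  rw [mem_sigma, mem_filter, mem_Ioc] at hx
  obtain ⟨⟨⟨haA, haA'⟩, hap, ha1⟩, hbc⟩ := hx
  simp only at haA haA' hap ha1 hbc hs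
  obtain ⟨u, v, p, q, k, huv, hp, hq, hdt, e1, e2, hk, hk1, hkN, hOm, hdv, hsq, hrg⟩ :=
    frame_kJ hn hR hRich P a b c z hap ha1 hbc hwz hs
  have hnp : nm p = (((nm p).natAbs : ℕ) : ℤ) := (Int.natAbs_of_nonneg hp.nm_pos.le).symm
  refine ⟨(⟨k, (nm p).natAbs⟩, (u, v)), ?_, p, q, huv, hp, hq, hdt, e1, e2, hk, hnp⟩
  rw [mem_product, mem_sigma]
  refine ⟨⟨?_, ?_⟩, mem_univ _⟩
  · show k ∈ FZJ (2 * F - 2) (2 * F' + κ - 2) w z (5 * (w + 2) ^ 2 * A ^ 2)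
    unfold FZJ
    rw [mem_filter, mem_Icc]
    refine ⟨⟨hk1, hkN.trans (Nat.mul_le_mul_left _ (Nat.pow_le_pow_left haA' 2))⟩, ?_, ?_, hrg⟩
    · omega
    · omega
  · show (nm p).natAbs ∈ (k ^ 2 + 3 * k + 1).divisors
    rw [Nat.mem_divisors]
    exact ⟨hdv, by positivity⟩

open Classical in
theorem frames_leJ {n R : ℕ} (hn : 1 ≤ n) (hR : 1 ≤ R) {L : V n → V n → ℕ} (hRich : Rich R L) {y : V n → ℕ}
    {B w E F F' κ : ℕ} {δ : V n → V n → ℤ × ℤ} (P : BaseJ L y B w E F F' κ δ) (A z : ℕ) (hwz : w ≤ z) :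
    ((SSE y A (w.factorial ^ E) B w z).filter (fun x =>
      4 * ∑ v, bOm z (nm (Xv y x.1 x.2.1 x.2.2 v)).natAbs ≤ n * R)).card ≤
      (FZJ (2 * F - 2) (2 * F' + κ - 2) w z (5 * (w + 2) ^ 2 * A ^ 2)).card *
        (2 ^ (2 * F - 2) * (3 * n) ^ 2) := by
  have h1 : ((SSE y A (w.factorial ^ E) B w z).filter (fun x =>
      4 * ∑ v, bOm z (nm (Xv y x.1 x.2.1 x.2.2 v)).natAbs ≤ n * R)).card ≤
      (((FZJ (2 * F - 2) (2 * F' + κ - 2) w z (5 * (w + 2) ^ 2 * A ^ 2)).sigma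
      (fun k => (k ^ 2 + 3 * k + 1).divisors)) ×ˢ (univ : Finset (V n × V n))).card := by
    refine card_le_card_of_forall_subsingleton (CnJ_R y δ)
      (fun x hx => CnJ_ex hn hR hRich P A z hwz hx) ?_
    intro t ht x hx x' hx'
    have hpos : ∀ x ∈ (SSE y A (w.factorial ^ E) B w z).filter (fun x =>
        4 * ∑ v, bOm z (nm (Xv y x.1 x.2.1 x.2.2 v)).natAbs ≤ n * R), 0 < x.1 := by
      intro x hx
      rw [mem_filter] at hx
      have hx1 := hx.1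
      unfold SSE at hx1
      rw [mem_sigma, mem_filter] at hx1
      exact hx1.1.2.1.pos
    exact CnJ_uniq P.toBaseP (hpos x hx.1) (hpos x' hx'.1) hx.2 hx'.2
  refine h1.trans ?_
  rw [card_product, card_sigma]
  have h2 : ∑ k ∈ FZJ (2 * F - 2) (2 * F' + κ - 2) w z (5 * (w + 2) ^ 2 * A ^ 2), (k ^ 2 + 3 * k + 1).divisors.card ≤
      (FZJ (2 * F - 2) (2 * F' + κ - 2) w z (5 * (w + 2) ^ 2 * A ^ 2)).card * 2 ^ (2 * F - 2) := by
    rw [← smul_eq_mul]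
    refine sum_le_card_nsmul _ _ _ ?_
    intro k hk
    unfold FZJ at hk
    rw [mem_filter] at hk
    exact (CnJ_div _ (by positivity)).trans (Nat.pow_le_pow_right (by norm_num) hk.2.1.le)
  have h3 : (univ : Finset (V n × V n)).card = (3 * n) * (3 * n) := by
    rw [card_univ, Fintype.card_prod, Fintype.card_prod, Fintype.card_fin, Fintype.card_fin]
  rw [h3]
  calc (∑ k ∈ FZJ (2 * F - 2) (2 * F' + κ - 2) w z (5 * (w + 2) ^ 2 * A ^ 2), (k ^ 2 + 3 * k + 1).divisors.card) *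
        ((3 * n) * (3 * n))
      ≤ ((FZJ (2 * F - 2) (2 * F' + κ - 2) w z (5 * (w + 2) ^ 2 * A ^ 2)).card * 2 ^ (2 * F - 2)) * ((3 * n) * (3 * n)) :=
        Nat.mul_le_mul_right _ h2
    _ = (FZJ (2 * F - 2) (2 * F' + κ - 2) w z (5 * (w + 2) ^ 2 * A ^ 2)).card * (2 ^ (2 * F - 2) * (3 * n) ^ 2) := by ring

end Pool.Agent.Lib.MP_d57abb_nt.EE
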