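import Mathlib
import Pool.Agent.Lib.MP_d57abb_nt.EE.DefS

/-!
# JOB EstS: few values divisible by the square of a large prime (Estermann's argument, elementary)

PROOF.  Put `f(k) = k² + 3 k + 1`, `4 f(k) = (2 k + 3)² - 5`.  `Y = ⌊N^(3/4)⌋`, for instance the largest `Y` with `Y^4 ≤ N^3` (`N^(3/4) = N / √√N`).
(a) `z < ℓ ≤ Y`: for a prime `ℓ` the number of `k ≤ N` with `ℓ² ∣ f(k)` is `≤ 2 (N / ℓ² + 1)`: `f` is odd, so `ℓ ≠ 2`; for `ℓ = 5`: `5 ∣ f(k)` forces `5 ∣ 2 k + 3`, `(2k+3)² - 5 ≡ - 5 (mod 25)`, no `k`;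
for the other `ℓ` there are at most two residues modulo `ℓ²`: if `ℓ² ∣ f(k)`, `ℓ² ∣ f(k')` then `ℓ² ∣ (k - k')(k + k' + 3)`; `ℓ` cannot divide both factors (otherwise `ℓ ∣ 2 k + 3`, `ℓ ∣ 5`), so `k' ≡ k` or `k' ≡ - 3 - k (mod ℓ²)`.
In an interval of length `N` each residue modulo `ℓ²` is taken at most `N/ℓ² + 1` times.  Sum: `∑_{z < ℓ ≤ Y} 2 (N/ℓ² + 1) ≤ 2 N / z + 2 Y` (`∑_{ℓ > z} 1/ℓ² ≤ 1/z`: `1/ℓ² ≤ 1/(ℓ-1) - 1/ℓ`).
(b) `ℓ > Y` (any natural number `ℓ`): `f(k) = m ℓ²`, `1 ≤ m ≤ 5 N² / Y²`-like `≤ C √N` (`f(k) ≤ 5 N²`; `ℓ ≥ N^(3/4)`, so `m ≤ 5 N² / N^(3/2) = 5 √N`).  For a given `m ≥ 1`, let `(x, ℓ)`, `(x', ℓ')` be two solutions of `x² - 4 m ℓ² = 5`, `x = 2 k + 3`, with `ℓ < ℓ' ≤ (4/3) ℓ`.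
Then `(x ℓ' - x' ℓ)(x ℓ' + x' ℓ) = 5 (ℓ'² - ℓ²) ≠ 0` and `x > 2 ℓ √m ≥ 2 ℓ`, `x' > 2 ℓ'`, so `x ℓ' + x' ℓ > 4 ℓ ℓ'` and `0 < x ℓ' - x' ℓ < 5 (ℓ'² - ℓ²) / (4 ℓ ℓ') = (5/4)(ℓ'/ℓ - ℓ/ℓ') ≤ (5/4)(4/3 - 3/4) < 1`: impossible for an integer.
So for every `m` two different solutions have `ℓ' > (4/3) ℓ`, and the number of solutions with `ℓ ≤ 3 N` is at most `1 + log (3 N) / log (4/3) ≤ 5 + 4 log N`-like.  Total of (b): `≤ C √N (1 + log N) ≤ C' N^(3/4)`.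
(For instance: the solutions for a fixed `m`, ordered by `ℓ`, satisfy `ℓ_j ≥ (4/3)^j`; or map `ℓ` to `⌊log ℓ / log (4/3)⌋`, which is injective on the solutions.)
-/

open Finset

namespace Pool.Agent.Lib.MP_d57abb_nt.EE

/-- the gap between two solutions -/
theorem EstS_gap (m k k' l l' : ℕ) (hm : 1 ≤ m) (hl : 0 < l) (hll : l < l') (h : k ^ 2 + 3 * k + 1 = l ^ 2 * m)
    (h' : k' ^ 2 + 3 * k' + 1 = l' ^ 2 * m) : 4 * l < 3 * l' := by
  by_contra hcon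
  push Not at hcon
  zify at hm hl hll h h' hcon
  set x : ℤ := 2 * k + 3 with hx
  set x' : ℤ := 2 * k' + 3 with hx'
  have e1 : x ^ 2 = 5 + 4 * m * (l : ℤ) ^ 2 := by
    rw [hx]
    linear_combination 4 * h
  have e2 : x' ^ 2 = 5 + 4 * m * (l' : ℤ) ^ 2 := by
    rw [hx']
    linear_combination 4 * h'
  have hx0 : 0 < x := by positivity
  have hx0' : 0 < x' := by positivity
  have hl0' : (0 : ℤ) < l' := hl.trans hll
  have g1 : 2 * (l : ℤ) < x := by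
    have : (2 * (l : ℤ)) ^ 2 < x ^ 2 := by
      rw [e1]
      nlinarith [sq_nonneg (l : ℤ)]
    exact lt_of_pow_lt_pow_left₀ 2 hx0.le this
  have g2 : 2 * (l' : ℤ) < x' := by
    have : (2 * (l' : ℤ)) ^ 2 < x' ^ 2 := by
      rw [e2]
      nlinarith [sq_nonneg (l' : ℤ)]
    exact lt_of_pow_lt_pow_left₀ 2 hx0'.le this
  have hS : 4 * (l : ℤ) * l' < x * l' + x' * l := by nlinarith
  have hDS : (x * l' - x' * l) * (x * l' + x' * l) = 5 * ((l' : ℤ) ^ 2 - (l : ℤ) ^ 2) := by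
    linear_combination (l' : ℤ) ^ 2 * e1 - (l : ℤ) ^ 2 * e2
  have hpos : 0 < (x * l' - x' * l) * (x * l' + x' * l) := by
    rw [hDS]
    nlinarith
  have hS0 : 0 < x * l' + x' * l := by positivity
  have hD : 1 ≤ x * l' - x' * l := (pos_iff_pos_of_mul_pos hpos).2 hS0
  have h3 : x * l' + x' * l ≤ 5 * ((l' : ℤ) ^ 2 - (l : ℤ) ^ 2) := by
    rw [← hDS]
    nlinarith
  nlinarith [mul_nonneg (sub_nonneg.2 hcon) hl0'.le, mul_nonneg (sub_nonneg.2 hcon) hl.le]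

/-- the two residues -/
theorem EstS_two {l : ℕ} (hl : l.Prime) {a b : ℕ} (ha : l ^ 2 ∣ a ^ 2 + 3 * a + 1) (hb : l ^ 2 ∣ b ^ 2 + 3 * b + 1) :
    (l ^ 2 : ℤ) ∣ (a : ℤ) - b ∨ (l ^ 2 : ℤ) ∣ (a : ℤ) + b + 3 := by
  have hp : Prime (l : ℤ) := Nat.prime_iff_prime_int.1 hl
  have ha' : ((l : ℤ) ^ 2) ∣ (a : ℤ) ^ 2 + 3 * a + 1 := by exact_mod_cast ha
  have hb' : ((l : ℤ) ^ 2) ∣ (b : ℤ) ^ 2 + 3 * b + 1 := by exact_mod_cast hb
  have hmul : ((l : ℤ) ^ 2) ∣ ((a : ℤ) - b) * ((a : ℤ) + b + 3) := by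
    have h1 := dvd_sub ha' hb'
    have h2 : ((a : ℤ) - b) * ((a : ℤ) + b + 3) = ((a : ℤ) ^ 2 + 3 * a + 1) - ((b : ℤ) ^ 2 + 3 * b + 1) := by ring
    rw [h2]
    exact h1
  by_cases h1 : (l : ℤ) ∣ (a : ℤ) - b
  · by_cases h2 : (l : ℤ) ∣ (a : ℤ) + b + 3
    · exfalso
      have h3 : (l : ℤ) ∣ 2 * a + 3 := by
        have h4 := dvd_add h1 h2
        have h5 : (a : ℤ) - b + (a + b + 3) = 2 * a + 3 := by ring
        rwa [h5] at h4
      have h4 : (l : ℤ) ∣ 5 := by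
        have h5 : (l : ℤ) ∣ (a : ℤ) ^ 2 + 3 * a + 1 := (dvd_pow_self (l : ℤ) two_ne_zero).trans ha'
        have h6 : (5 : ℤ) = (2 * a + 3) * (2 * a + 3) - 4 * ((a : ℤ) ^ 2 + 3 * a + 1) := by ring
        rw [h6]
        exact dvd_sub (h3.mul_right _) (h5.mul_left _)
      have h5 : l = 5 := by
        have h6 : l ∣ 5 := by exact_mod_cast h4
        exact (Nat.prime_dvd_prime_iff_eq hl (by norm_num)).1 h6
      subst h5
      obtain ⟨c, hc⟩ := h3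
      obtain ⟨d, hd⟩ := ha'
      have h6 : ((5 : ℕ) : ℤ) = 5 := rfl
      rw [h6] at hc hd
      have h7 : (5 : ℤ) = 25 * (c * c) - 100 * d := by
        have h8 : (5 : ℤ) = (2 * a + 3) * (2 * a + 3) - 4 * ((a : ℤ) ^ 2 + 3 * a + 1) := by ring
        rw [hc, hd] at h8
        linarith
      omega
    · left
      have h3 : IsCoprime ((l : ℤ) ^ 2) ((a : ℤ) + b + 3) := (hp.coprime_iff_not_dvd.2 h2).pow_left
      exact h3.dvd_of_dvd_mul_right hmul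
  · right
    have h3 : IsCoprime ((l : ℤ) ^ 2) ((a : ℤ) - b) := (hp.coprime_iff_not_dvd.2 h1).pow_left
    exact h3.dvd_of_dvd_mul_left hmul

/-- one residue -/
theorem EstS_one {q N : ℕ} (S : Finset ℕ) (hS : ∀ k ∈ S, k ≤ N) (h : ∀ k ∈ S, ∀ k' ∈ S, (q : ℤ) ∣ (k : ℤ) - k') :
    S.card ≤ N / q + 1 := by
  rw [← card_range (N / q + 1)]
  refine Finset.card_le_card_of_injOn (fun k => k / q) (fun k hk => ?_) fun k hk k' hk' hkk => ?_
  · exact mem_range.2 (Nat.lt_succ_of_le (Nat.div_le_div_right (hS k hk)))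
  · have h1 := h k hk k' hk'
    have h2 : k % q = k' % q := by
      have h3 : (k' : ℤ) ≡ k [ZMOD q] := Int.modEq_iff_dvd.2 h1
      exact (Int.natCast_modEq_iff.1 h3).symm
    have h3 : k / q = k' / q := hkk
    rw [← Nat.div_add_mod k q, ← Nat.div_add_mod k' q, h2, h3]

theorem EstS_prime {l : ℕ} (hl : l.Prime) (N : ℕ) :
    (((Icc 1 N).filter fun k => l ^ 2 ∣ k ^ 2 + 3 * k + 1).card : ℝ) ≤ 2 * ((N : ℝ) * ((l : ℝ) ^ 2)⁻¹ + 1) := by
  classical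
  set S := (Icc 1 N).filter fun k => l ^ 2 ∣ k ^ 2 + 3 * k + 1 with hS
  have hN : ∀ k ∈ S, k ≤ N := fun k hk => (mem_Icc.1 (mem_filter.1 hk).1).2
  rcases S.eq_empty_or_nonempty with h0 | ⟨k0, hk0⟩
  · rw [h0, card_empty, Nat.cast_zero]
    positivity
  have hk0' := (mem_filter.1 hk0).2
  set S1 : Finset ℕ := S.filter fun k : ℕ => ((l ^ 2 : ℕ) : ℤ) ∣ (k : ℤ) - k0 with hS1
  set S2 : Finset ℕ := S.filter fun k : ℕ => ((l ^ 2 : ℕ) : ℤ) ∣ (k : ℤ) + k0 + 3 with hS2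
  have hsub : S ⊆ S1 ∪ S2 := by
    intro k hk
    rcases EstS_two hl (mem_filter.1 hk).2 hk0' with h | h
    · exact mem_union_left _ (mem_filter.2 ⟨hk, by push_cast; exact h⟩)
    · exact mem_union_right _ (mem_filter.2 ⟨hk, by push_cast; exact h⟩)
  have h1 : S1.card ≤ N / l ^ 2 + 1 := by
    refine EstS_one S1 (fun k hk => hN k (mem_filter.1 hk).1) fun k hk k' hk' => ?_
    have h2 := dvd_sub (mem_filter.1 hk).2 (mem_filter.1 hk').2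
    have h3 : (k : ℤ) - k0 - (k' - k0) = k - k' := by ring
    rwa [h3] at h2
  have h2 : S2.card ≤ N / l ^ 2 + 1 := by
    refine EstS_one S2 (fun k hk => hN k (mem_filter.1 hk).1) fun k hk k' hk' => ?_
    have h2 := dvd_sub (mem_filter.1 hk).2 (mem_filter.1 hk').2
    have h3 : (k : ℤ) + k0 + 3 - (k' + k0 + 3) = k - k' := by ring
    rwa [h3] at h2
  have h3 : S.card ≤ 2 * (N / l ^ 2 + 1) := by
    have := (card_le_card hsub).trans (card_union_le _ _)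
    omega
  have h4 : ((N / l ^ 2 : ℕ) : ℝ) ≤ (N : ℝ) * ((l : ℝ) ^ 2)⁻¹ := by
    have := Nat.cast_div_le (α := ℝ) (m := N) (n := l ^ 2)
    rw [div_eq_mul_inv] at this
    push_cast at this
    exact this
  calc (S.card : ℝ) ≤ ((2 * (N / l ^ 2 + 1) : ℕ) : ℝ) := by exact_mod_cast h3
    _ = 2 * (((N / l ^ 2 : ℕ) : ℝ) + 1) := by push_cast; ring
    _ ≤ _ := by linarith

/-- the small primes -/
theorem EstS_small {z N Y : ℕ} (hz : 1 ≤ z) :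
    ((((Ioc z Y).filter Nat.Prime).biUnion fun l => (Icc 1 N).filter fun k => l ^ 2 ∣ k ^ 2 + 3 * k + 1).card : ℝ) ≤
      2 * ((N : ℝ) / z + Y) := by
  classical
  have h1 : ((((Ioc z Y).filter Nat.Prime).biUnion fun l => (Icc 1 N).filter fun k =>
      l ^ 2 ∣ k ^ 2 + 3 * k + 1).card : ℝ) ≤ ∑ l ∈ (Ioc z Y).filter Nat.Prime,
      (((Icc 1 N).filter fun k => l ^ 2 ∣ k ^ 2 + 3 * k + 1).card : ℝ) := by exact_mod_cast card_biUnion_le
  have h2 : ∑ l ∈ (Ioc z Y).filter Nat.Prime, (((Icc 1 N).filter fun k => l ^ 2 ∣ k ^ 2 + 3 * k + 1).card : ℝ) ≤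
      ∑ l ∈ Ioc z Y, 2 * ((N : ℝ) * ((l : ℝ) ^ 2)⁻¹ + 1) := by
    refine (Finset.sum_le_sum fun l hl => EstS_prime (mem_filter.1 hl).2 N).trans ?_
    exact Finset.sum_le_sum_of_subset_of_nonneg (filter_subset _ _) fun l _ _ => by positivity
  refine (h1.trans h2).trans ?_
  rw [← Finset.mul_sum, Finset.sum_add_distrib, ← Finset.mul_sum, Finset.sum_const, nsmul_eq_mul, mul_one,
    Nat.card_Ioc]
  have h3 : ∑ l ∈ Ioc z Y, ((l : ℝ) ^ 2)⁻¹ ≤ (z : ℝ)⁻¹ := by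
    rcases le_or_gt z Y with h | h
    · have h4 := sum_Ioc_inv_sq_le_sub (α := ℝ) (by omega : z ≠ 0) h
      have h5 : (0 : ℝ) ≤ (Y : ℝ)⁻¹ := by positivity
      linarith
    · rw [Ioc_eq_empty (by omega), sum_empty]
      positivity
  have h4 : ((Y - z : ℕ) : ℝ) ≤ Y := by exact_mod_cast Nat.sub_le Y z
  have h5 : (N : ℝ) * ∑ l ∈ Ioc z Y, ((l : ℝ) ^ 2)⁻¹ ≤ (N : ℝ) / z := by
    rw [div_eq_mul_inv]
    exact mul_le_mul_of_nonneg_left h3 (Nat.cast_nonneg _)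
  linarith

open Classical in
/-- the large divisors -/
theorem EstS_large {N Y M : ℕ} (hN : 1 ≤ N)
    (hM : ∀ l m : ℕ, Y < l → l ^ 2 * m ≤ 5 * N ^ 2 → m ≤ M) :
    ((Icc 1 N).filter fun k => ∃ l : ℕ, Y < l ∧ l ^ 2 ∣ k ^ 2 + 3 * k + 1).card ≤
      (M + 1) * (Nat.log 2 ((3 * N) ^ 3) + 1) := by
  set S := (Icc 1 N).filter fun k => ∃ l : ℕ, Y < l ∧ l ^ 2 ∣ k ^ 2 + 3 * k + 1 with hS
  have hex : ∀ k : ℕ, ∃ l m : ℕ, k ∈ S → Y < l ∧ k ^ 2 + 3 * k + 1 = l ^ 2 * m := by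
    intro k
    by_cases hk : k ∈ S
    · obtain ⟨l, hl, m, hm⟩ := (mem_filter.1 hk).2
      exact ⟨l, m, fun _ => ⟨hl, hm⟩⟩
    · exact ⟨0, 0, fun h => absurd h hk⟩
  choose l m hlm using hex
  have hb : ∀ k ∈ S, l k ^ 2 * m k ≤ 5 * N ^ 2 := by
    intro k hk
    rw [← (hlm k hk).2]
    have h1 := (mem_Icc.1 (mem_filter.1 hk).1).2
    nlinarith
  have hm1 : ∀ k ∈ S, 1 ≤ m k := by
    intro k hk
    rcases Nat.eq_zero_or_pos (m k) with h | h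
    · have := (hlm k hk).2
      rw [h, mul_zero] at this
      omega
    · exact h
  have hl1 : ∀ k ∈ S, 0 < l k := fun k hk => (Nat.zero_le Y).trans_lt (hlm k hk).1
  have hl3 : ∀ k ∈ S, l k ≤ 3 * N := by
    intro k hk
    have h1 := hb k hk
    have h2 := hm1 k hk
    by_contra h3
    push Not at h3
    have h4 : l k ^ 2 ≤ l k ^ 2 * m k := Nat.le_mul_of_pos_right _ h2
    nlinarith
  have hkey : ∀ a ∈ S, ∀ b ∈ S, m a = m b → l a < l b → Nat.log 2 (l a ^ 3) < Nat.log 2 (l b ^ 3) := by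
    intro a ha b hb' hm' hlt
    have h1 := EstS_gap (m a) a b (l a) (l b) (hm1 a ha) (hl1 a ha) hlt (hlm a ha).2 (by
      rw [hm']
      exact (hlm b hb').2)
    have h2 : 2 * l a ^ 3 ≤ l b ^ 3 := by
      have h3 : (4 * l a) ^ 3 ≤ (3 * l b) ^ 3 := Nat.pow_le_pow_left h1.le 3
      have h4 : 64 * l a ^ 3 ≤ 27 * l b ^ 3 := by
        calc 64 * l a ^ 3 = (4 * l a) ^ 3 := by ring
          _ ≤ (3 * l b) ^ 3 := h3
          _ = 27 * l b ^ 3 := by ring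
      have h5 : 0 ≤ l a ^ 3 := Nat.zero_le _
      omega
    have h3 : Nat.log 2 (2 * l a ^ 3) = Nat.log 2 (l a ^ 3) + 1 := by
      rw [mul_comm]
      exact Nat.log_mul_base one_lt_two (pow_pos (hl1 a ha) 3).ne'
    have h4 : Nat.log 2 (2 * l a ^ 3) ≤ Nat.log 2 (l b ^ 3) := Nat.log_mono_right h2
    omega
  have hcard : ((range (M + 1)) ×ˢ (range (Nat.log 2 ((3 * N) ^ 3) + 1))).card =
      (M + 1) * (Nat.log 2 ((3 * N) ^ 3) + 1) := by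
    rw [card_product, card_range, card_range]
  rw [← hcard]
  refine Finset.card_le_card_of_injOn (fun k => (m k, Nat.log 2 (l k ^ 3))) (fun k hk => ?_) ?_
  · refine mem_product.2 ⟨mem_range.2 ?_, mem_range.2 ?_⟩
    · exact Nat.lt_succ_of_le (hM (l k) (m k) (hlm k hk).1 (hb k hk))
    · have h1 : Nat.log 2 (l k ^ 3) ≤ Nat.log 2 ((3 * N) ^ 3) :=
        Nat.log_mono_right (Nat.pow_le_pow_left (hl3 k hk) 3)
      exact Nat.lt_succ_of_le h1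
  · intro a ha b hb' hab
    have e1 : m a = m b := (Prod.ext_iff.1 hab).1
    have e2 : Nat.log 2 (l a ^ 3) = Nat.log 2 (l b ^ 3) := (Prod.ext_iff.1 hab).2
    rcases lt_trichotomy (l a) (l b) with h | h | h
    · exact absurd e2 (hkey a ha b hb' e1 h).ne
    · have h1 := (hlm a ha).2
      have h2 := (hlm b hb').2
      rw [e1, h, ← h2] at h1
      by_contra hne
      rcases Nat.lt_or_gt_of_ne hne with h3 | h3
      · nlinarith
      · nlinarith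
    · exact absurd e2 (hkey b hb' a ha e1.symm h).ne'

theorem est : ∃ C : ℝ, 0 < C ∧ ∀ z N : ℕ, 1 ≤ z → 1 ≤ N →
    ((BadSq z N).card : ℝ) ≤ C * ((N : ℝ) / z + N / √(√(N : ℝ))) := by
  classical
  refine ⟨226, by norm_num, fun z N hz hN => ?_⟩
  set s : ℝ := √(√(N : ℝ)) with hs
  have hN1 : (1 : ℝ) ≤ N := by exact_mod_cast hN
  have hs2 : s ^ 2 = √(N : ℝ) := Real.sq_sqrt (Real.sqrt_nonneg _)
  have hs4 : s ^ 4 = N := by
    have : s ^ 4 = (s ^ 2) ^ 2 := by ring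
    rw [this, hs2, Real.sq_sqrt (by linarith)]
  have hs1 : 1 ≤ s := by
    rw [hs, Real.one_le_sqrt, Real.one_le_sqrt]
    exact hN1
  have hs0 : 0 < s := by linarith
  have hT : (N : ℝ) / s = s ^ 3 := by
    rw [← hs4]
    field_simp
  rw [hT]
  set Y : ℕ := ⌊s ^ 3⌋₊ with hY
  have hY1 : (Y : ℝ) ≤ s ^ 3 := Nat.floor_le (by positivity)
  have hY2 : s ^ 3 < Y + 1 := Nat.lt_floor_add_one _
  set M : ℕ := ⌊5 * s ^ 2⌋₊ with hM
  have hM1 : (M : ℝ) ≤ 5 * s ^ 2 := Nat.floor_le (by positivity)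
  have hlarge := EstS_large (N := N) (Y := Y) (M := M) hN (by
    intro l m hl hlm
    have h1 : s ^ 3 < l := by
      have : (Y : ℝ) + 1 ≤ l := by exact_mod_cast hl
      linarith
    have h2 : (l : ℝ) ^ 2 * m ≤ 5 * (N : ℝ) ^ 2 := by exact_mod_cast hlm
    have h3 : (s ^ 3) ^ 2 * m ≤ 5 * (s ^ 4) ^ 2 := by
      rw [hs4]
      refine le_trans (mul_le_mul_of_nonneg_right ?_ (Nat.cast_nonneg m)) h2
      exact pow_le_pow_left₀ (by positivity) h1.le 2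
    have h4 : (m : ℝ) ≤ 5 * s ^ 2 := by
      have h5 : 0 < s ^ 6 := by positivity
      have h6 : s ^ 6 * m ≤ s ^ 6 * (5 * s ^ 2) := by
        calc s ^ 6 * m = (s ^ 3) ^ 2 * m := by ring
          _ ≤ 5 * (s ^ 4) ^ 2 := h3
          _ = s ^ 6 * (5 * s ^ 2) := by ring
      exact le_of_mul_le_mul_left h6 h5
    exact Nat.le_floor h4)
  have hsmall := EstS_small (z := z) (N := N) (Y := Y) hz
  -- the logarithm
  set K : ℕ := Nat.log 2 ((3 * N) ^ 3) with hK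
  have hKle : (K : ℝ) ≤ 36 * s := by
    have h1 : (K : ℝ) ≤ Real.logb 2 (((3 * N) ^ 3 : ℕ) : ℝ) := by
      have := Real.natLog_le_logb ((3 * N) ^ 3) 2
      exact_mod_cast this
    have h2 : Real.logb 2 (((3 * N) ^ 3 : ℕ) : ℝ) = 3 * (Real.log 3 + Real.log N) / Real.log 2 := by
      unfold Real.logb
      push_cast
      rw [Real.log_pow, Real.log_mul (by norm_num) (by linarith)]
      push_cast
      ring
    have h3 : Real.log N = 4 * Real.log s := by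
      rw [← hs4, Real.log_pow]
      push_cast
      ring
    have h4 : Real.log s ≤ s - 1 := Real.log_le_sub_one_of_pos hs0
    have h5 : Real.log 3 ≤ 3 - 1 := Real.log_le_sub_one_of_pos (by norm_num)
    have h6 : (0.5 : ℝ) ≤ Real.log 2 := by
      have := Real.log_two_gt_d9
      linarith
    rw [h2, h3] at h1
    refine h1.trans ?_
    rw [div_le_iff₀ (by linarith)]
    have h7 : 3 * (Real.log 3 + 4 * Real.log s) ≤ 12 * s + 6 := by linarith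
    nlinarith
  have hsub : BadSq z N ⊆ ((((Ioc z Y).filter Nat.Prime).biUnion fun l => (Icc 1 N).filter fun k =>
      l ^ 2 ∣ k ^ 2 + 3 * k + 1)) ∪ ((Icc 1 N).filter fun k => ∃ l : ℕ, Y < l ∧ l ^ 2 ∣ k ^ 2 + 3 * k + 1) := by
    intro k hk
    unfold BadSq at hk
    obtain ⟨hk1, l, hl, hzl, hd⟩ := mem_filter.1 hk
    rcases le_or_gt l Y with h | h
    · exact mem_union_left _ (mem_biUnion.2 ⟨l, mem_filter.2 ⟨mem_Ioc.2 ⟨hzl, h⟩, hl⟩, mem_filter.2 ⟨hk1, hd⟩⟩)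
    · exact mem_union_right _ (mem_filter.2 ⟨hk1, l, h, hd⟩)
  have hc := (card_le_card hsub).trans (card_union_le _ _)
  have hc' : ((BadSq z N).card : ℝ) ≤ ((((Ioc z Y).filter Nat.Prime).biUnion fun l => (Icc 1 N).filter fun k =>
      l ^ 2 ∣ k ^ 2 + 3 * k + 1).card : ℝ) +
      (((Icc 1 N).filter fun k => ∃ l : ℕ, Y < l ∧ l ^ 2 ∣ k ^ 2 + 3 * k + 1).card : ℝ) := by exact_mod_cast hc
  have hlarge' : (((Icc 1 N).filter fun k => ∃ l : ℕ, Y < l ∧ l ^ 2 ∣ k ^ 2 + 3 * k + 1).card : ℝ) ≤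
      ((M : ℝ) + 1) * (K + 1) := by exact_mod_cast hlarge
  have h7 : ((M : ℝ) + 1) * (K + 1) ≤ 222 * s ^ 3 := by
    have h8 : (M : ℝ) + 1 ≤ 6 * s ^ 2 := by nlinarith
    have h9 : (K : ℝ) + 1 ≤ 37 * s := by linarith
    calc ((M : ℝ) + 1) * (K + 1) ≤ (6 * s ^ 2) * (37 * s) := mul_le_mul h8 h9 (by positivity) (by positivity)
      _ = 222 * s ^ 3 := by ring
  have h8 : (0 : ℝ) ≤ (N : ℝ) / z := by positivity
  have h9 : 0 < s ^ 3 := by positivity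
  linarith

end Pool.Agent.Lib.MP_d57abb_nt.EE
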