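import Mathlib
import Pool.Agent.Lib.MP_42948a_nt.OA.SA
import Pool.Agent.Lib.MP_42948a_nt.OA.SC
import Pool.Agent.Lib.MP_42948a_nt.OA.SE
import Pool.Agent.Lib.MP_42948a_nt.OA.SF

/-!
# JOB FUK: the Brun-Hooley functionals with a parameter which is LINEAR in the dimension

PROOF: copy the proof of `FF_geK` (`MP_d57abb_nt/AP/SvA.lean`), where `b0` comes from `exp_tail`.  Here we need the explicit `b0 = C₁ (κ + 1)`.  `L0` from `block_recip`, `L = (κ + 1) L0`, `b0 ≥ 3 L`, i.e. `C₁ = ⌈3 L0⌉₊ + 1`, so `b0 ≥ 3 L` (and `b0 ≥ 1`).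
Key estimate: for `n = 2 (b0 + l) + 1`: `L^n / n! ≤ exp (8 L - 2 n) ≤ exp (8 L - 4 b0 - 4 l - 2) ≤ exp (- 4 L - 4 l - 2)`, because `(e² L)^n / n! ≤ exp (e² L)` (`Real.pow_div_factorial_le_exp`), `e² ≤ 8`, `L ≥ 0`.
(a) `exp (2 L) ∑_l L^n/n! ≤ ∑_l exp (- 2 L - 4 l - 2)`; for `FF` one needs `∑_{l < z} L^(2(b0+l)+1)/(2(b0+l)+1)! ≤ exp (-(2 L)) / 2`: indeed `∑_l exp (-4 L - 4 l - 2) ≤ exp (- 4 L) e^{-2} / (1 - e^{-4}) ≤ exp (-2 L) / 2` (`e^{-4l} ≤ 2^{-l}`: `∑ ≤ 2 e^{-2} ≤ 1/2` as `e² ≥ 4`).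
(b) upper bound: `bon (Pj z l) g (2 (b0 + l)) ≤ V_l + esy (Pj z l) g (2 (b0 + l) + 1)` (`bon_sub_le`), `V_l = ∏_{Pj z l} (1 - g) ≥ exp (- 2 L)` (`exp_le_prod`), `esy ≤ L^n / n!` (`esy_le`), so `bon ≤ V_l (1 + exp (2 L) L^n / n!) ≤ V_l (1 + exp (- 4 l - 2)) ≤ V_l exp (ε_l)`, `∑_l ε_l ≤ 2 e^{-2} ≤ 1/2 ≤ log 2`;
product over `l < z` and `prod_PP`: `≤ 2 ∏_{PP z} (1 - g)`.
-/

namespace Pool.Agent.Lib.MP_d57abb_nt.EE

open Finset Pool.Agent.Lib.MP_42948a_nt.OA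

private theorem FUK_fac {L : ℝ} (hL : 0 ≤ L) (n : ℕ) : L ^ n / (n.factorial : ℝ) ≤ Real.exp (8 * L - 2 * n) := by
  have h1 := Real.pow_div_factorial_le_exp (Real.exp 2 * L) (by positivity) n
  have h2 : Real.exp 2 ≤ 8 := by
    have h3 := Real.exp_one_lt_d9
    have h4 : Real.exp 2 = Real.exp 1 * Real.exp 1 := by
      rw [← Real.exp_add]
      norm_num
    have h5 := Real.exp_pos 1
    rw [h4]
    nlinarith
  have h3 : (Real.exp 2 * L) ^ n / (n.factorial : ℝ) = Real.exp (2 * n) * (L ^ n / (n.factorial : ℝ)) := by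
    rw [mul_pow, ← Real.exp_nat_mul, mul_comm (n : ℝ) 2]
    ring
  rw [h3] at h1
  have h4 : Real.exp (Real.exp 2 * L) ≤ Real.exp (8 * L) := Real.exp_le_exp.2 (mul_le_mul_of_nonneg_right h2 hL)
  have h5 := h1.trans h4
  calc L ^ n / (n.factorial : ℝ) = Real.exp (-(2 * n)) * (Real.exp (2 * n) * (L ^ n / (n.factorial : ℝ))) := by
        rw [← mul_assoc, ← Real.exp_add, neg_add_cancel, Real.exp_zero, one_mul]
    _ ≤ Real.exp (-(2 * n)) * Real.exp (8 * L) := mul_le_mul_of_nonneg_left h5 (Real.exp_pos _).le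
    _ = _ := by
        rw [← Real.exp_add]
        congr 1
        ring

private theorem FUK_geo (z : ℕ) : ∑ l ∈ range z, Real.exp (-(4 * (l : ℝ) + 2)) ≤ 1 / 2 := by
  have h1 : ∀ l ∈ range z, Real.exp (-(4 * (l : ℝ) + 2)) ≤ 1 / 4 * (1 / 2 : ℝ) ^ l := by
    intro l _
    have h2 : (2 : ℝ) ≤ Real.exp 1 := by
      have := Real.exp_one_gt_d9
      linarith
    have h3 : Real.exp (4 * (l : ℝ) + 2) = Real.exp 1 ^ (4 * l) * (Real.exp 1 * Real.exp 1) := by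
      rw [← Real.exp_nat_mul, ← Real.exp_add, ← Real.exp_add]
      congr 1
      push_cast
      ring
    have h4 : (2 : ℝ) ^ l ≤ Real.exp 1 ^ (4 * l) := by
      calc (2 : ℝ) ^ l ≤ 2 ^ (4 * l) := pow_le_pow_right₀ (by norm_num) (by omega)
        _ ≤ _ := pow_le_pow_left₀ (by norm_num) h2 _
    have h5 : (2 : ℝ) ^ l * 4 ≤ Real.exp (4 * (l : ℝ) + 2) := by
      rw [h3]
      exact mul_le_mul h4 (by nlinarith) (by norm_num) (by positivity)
    rw [Real.exp_neg, one_div_pow, one_div_mul_one_div, ← one_div]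
    exact one_div_le_one_div_of_le (by positivity) (by linarith)
  refine (sum_le_sum h1).trans ?_
  rw [← mul_sum]
  have h2 : ∑ l ∈ range z, (1 / 2 : ℝ) ^ l ≤ 2 := by
    rw [geom_sum_eq (by norm_num)]
    have : (0 : ℝ) < (1 / 2) ^ z := by positivity
    have h3 : ((1 / 2 : ℝ) ^ z - 1) / (1 / 2 - 1) = 2 - 2 * (1 / 2) ^ z := by ring
    rw [h3]
    linarith
  linarith

theorem FU_bounds : ∃ C₁ : ℕ, ∀ (κ z : ℕ) (g : ℕ → ℝ),
    (∀ p ∈ PP z, 0 ≤ g p ∧ g p ≤ 3 / 4 ∧ g p ≤ κ / p) →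
    1 / 2 * ∏ p ∈ PP z, (1 - g p) ≤ FF z (C₁ * (κ + 1)) g ∧
    ∏ j ∈ range z, bon (Pj z j) g (2 * (C₁ * (κ + 1) + j)) ≤ 2 * ∏ p ∈ PP z, (1 - g p) := by
  obtain ⟨L0, hL0, hrec⟩ := block_recip
  refine ⟨⌈3 * L0⌉₊ + 1, fun κ z g hg => ?_⟩
  obtain ⟨b0, hb0⟩ : ∃ b0 : ℕ, b0 = (⌈3 * L0⌉₊ + 1) * (κ + 1) := ⟨_, rfl⟩
  rw [← hb0]
  have hK0 : (0 : ℝ) ≤ κ := Nat.cast_nonneg κ
  have hK1 : (0 : ℝ) < (κ : ℝ) + 1 := by linarith
  have hLpos0 : 0 < ((κ : ℝ) + 1) * L0 := mul_pos hK1 hL0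
  set L : ℝ := ((κ : ℝ) + 1) * L0 with hL
  have hLpos : 0 < L := hLpos0
  have hb3 : 3 * L ≤ b0 := by
    rw [hb0, hL]
    push_cast
    have h1 := Nat.le_ceil (3 * L0)
    nlinarith
  have hkey : ∀ l : ℕ, L ^ (2 * (b0 + l) + 1) / ((2 * (b0 + l) + 1).factorial : ℝ) ≤
      Real.exp (-(4 * L)) * Real.exp (-(4 * (l : ℝ) + 2)) := by
    intro l
    refine (FUK_fac hLpos.le _).trans ?_
    rw [← Real.exp_add]
    refine Real.exp_le_exp.2 ?_
    push_cast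
    linarith
  have hsub : ∀ l, ∀ p ∈ Pj z l, p ∈ PP z := fun l p hp => (mem_filter.mp hp).1
  have hg0 : ∀ l, ∀ p ∈ Pj z l, 0 ≤ g p := fun l p hp => (hg p (hsub l p hp)).1
  have hg34 : ∀ l, ∀ p ∈ Pj z l, g p ≤ 3 / 4 := fun l p hp => (hg p (hsub l p hp)).2.1
  have hg1 : ∀ l, ∀ p ∈ Pj z l, g p ≤ 1 := fun l p hp => (hg34 l p hp).trans (by norm_num)
  have hS0 : ∀ l, 0 ≤ ∑ p ∈ Pj z l, g p := fun l => sum_nonneg (hg0 l)
  have hS : ∀ l, ∑ p ∈ Pj z l, g p ≤ L := by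
    intro l
    calc ∑ p ∈ Pj z l, g p ≤ ∑ p ∈ Pj z l, (κ : ℝ) * ((1 : ℝ) / p) := by
          refine sum_le_sum fun p hp => ?_
          refine (hg p (hsub l p hp)).2.2.trans (le_of_eq ?_)
          ring
      _ = (κ : ℝ) * ∑ p ∈ Pj z l, (1 : ℝ) / p := by rw [mul_sum]
      _ ≤ (κ : ℝ) * L0 := mul_le_mul_of_nonneg_left (hrec z l) hK0
      _ ≤ L := by
          rw [hL]
          exact mul_le_mul_of_nonneg_right (by linarith) hL0.le
  have hV : ∀ l, Real.exp (-(2 * L)) ≤ ∏ p ∈ Pj z l, (1 - g p) := by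
    intro l
    refine le_trans ?_ (exp_le_prod (Pj z l) g (hg0 l) (hg34 l))
    apply Real.exp_le_exp.mpr
    linarith [hS l]
  have hU : ∀ l, ∏ p ∈ Pj z l, (1 - g p) ≤ bon (Pj z l) g (2 * (b0 + l)) :=
    fun l => bon_ge (Pj z l) g (hg0 l) (hg1 l) (b0 + l)
  have hU0 : ∀ l, 0 < bon (Pj z l) g (2 * (b0 + l)) :=
    fun l => lt_of_lt_of_le (Real.exp_pos _) ((hV l).trans (hU l))
  have hE : ∀ l, esy (Pj z l) g (2 * (b0 + l) + 1) ≤
      L ^ (2 * (b0 + l) + 1) / ((2 * (b0 + l) + 1).factorial : ℝ) := by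
    intro l
    refine (esy_le (Pj z l) g (hg0 l) _).trans ?_
    have h1 : (∑ p ∈ Pj z l, g p) ^ (2 * (b0 + l) + 1) ≤ L ^ (2 * (b0 + l) + 1) :=
      pow_le_pow_left₀ (hS0 l) (hS l) _
    have h2 : (0 : ℝ) < ((2 * (b0 + l) + 1).factorial : ℝ) := by exact_mod_cast Nat.factorial_pos _
    exact div_le_div_of_nonneg_right h1 h2.le
  set PU : ℝ := ∏ j ∈ range z, bon (Pj z j) g (2 * (b0 + j)) with hPU
  have hPU0 : 0 ≤ PU := prod_nonneg fun j _ => (hU0 j).le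
  refine ⟨?_, ?_⟩
  · have hterm : ∀ l ∈ range z, esy (Pj z l) g (2 * (b0 + l) + 1) *
        ∏ j ∈ (range z).erase l, bon (Pj z j) g (2 * (b0 + j)) ≤
        Real.exp (-(4 * L)) * Real.exp (-(4 * (l : ℝ) + 2)) * (Real.exp (2 * L) * PU) := by
      intro l hl
      have hX0 : 0 ≤ ∏ j ∈ (range z).erase l, bon (Pj z j) g (2 * (b0 + j)) :=
        prod_nonneg fun j _ => (hU0 j).le
      have hX : ∏ j ∈ (range z).erase l, bon (Pj z j) g (2 * (b0 + j)) ≤ Real.exp (2 * L) * PU := by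
        rw [hPU, ← mul_prod_erase (range z) (fun j => bon (Pj z j) g (2 * (b0 + j))) hl, ← mul_assoc]
        have h1 : 1 ≤ Real.exp (2 * L) * bon (Pj z l) g (2 * (b0 + l)) := by
          calc (1 : ℝ) = Real.exp (2 * L) * Real.exp (-(2 * L)) := by
                rw [← Real.exp_add, add_neg_cancel, Real.exp_zero]
            _ ≤ Real.exp (2 * L) * bon (Pj z l) g (2 * (b0 + l)) :=
                mul_le_mul_of_nonneg_left ((hV l).trans (hU l)) (Real.exp_pos _).le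
        exact le_mul_of_one_le_left hX0 h1
      have h2 : (0 : ℝ) ≤ Real.exp (-(4 * L)) * Real.exp (-(4 * (l : ℝ) + 2)) := by positivity
      exact (mul_le_mul_of_nonneg_right ((hE l).trans (hkey l)) hX0).trans (mul_le_mul_of_nonneg_left hX h2)
    have hsum : ∑ l ∈ range z, esy (Pj z l) g (2 * (b0 + l) + 1) *
        ∏ j ∈ (range z).erase l, bon (Pj z j) g (2 * (b0 + j)) ≤ PU / 2 := by
      refine (sum_le_sum hterm).trans ?_
      rw [← sum_mul, ← mul_sum]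
      have h1 : Real.exp (-(4 * L)) * Real.exp (2 * L) ≤ 1 := by
        rw [← Real.exp_add]
        exact Real.exp_le_one_iff.2 (by linarith)
      have h2 := FUK_geo z
      have h3 : 0 ≤ ∑ l ∈ range z, Real.exp (-(4 * (l : ℝ) + 2)) := sum_nonneg fun l _ => (Real.exp_pos _).le
      calc Real.exp (-(4 * L)) * (∑ l ∈ range z, Real.exp (-(4 * (l : ℝ) + 2))) * (Real.exp (2 * L) * PU)
          = (Real.exp (-(4 * L)) * Real.exp (2 * L)) * (∑ l ∈ range z, Real.exp (-(4 * (l : ℝ) + 2))) * PU := by ring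
        _ ≤ 1 * (1 / 2) * PU := mul_le_mul_of_nonneg_right (mul_le_mul h1 h2 h3 zero_le_one) hPU0
        _ = PU / 2 := by ring
    have hPV : ∏ p ∈ PP z, (1 - g p) ≤ PU := by
      rw [prod_PP, hPU]
      exact prod_le_prod (fun j _ => (Real.exp_pos _).le.trans (hV j)) fun j _ => hU j
    unfold FF
    rw [← hPU]
    linarith
  · have hone : ∀ l ∈ range z, bon (Pj z l) g (2 * (b0 + l)) ≤
        (∏ p ∈ Pj z l, (1 - g p)) * Real.exp (Real.exp (-(4 * (l : ℝ) + 2))) := by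
      intro l _
      have h1 := bon_sub_le (Pj z l) g (hg0 l) (hg1 l) (b0 + l)
      have h2 := (hE l).trans (hkey l)
      have h3 := hV l
      have hV0 : 0 < ∏ p ∈ Pj z l, (1 - g p) := lt_of_lt_of_le (Real.exp_pos _) h3
      have h4 : Real.exp (-(4 * L)) * Real.exp (-(4 * (l : ℝ) + 2)) ≤
          (∏ p ∈ Pj z l, (1 - g p)) * Real.exp (-(4 * (l : ℝ) + 2)) := by
        refine mul_le_mul_of_nonneg_right (le_trans ?_ h3) (Real.exp_pos _).le
        exact Real.exp_le_exp.2 (by linarith)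
      have h5 := Real.add_one_le_exp (Real.exp (-(4 * (l : ℝ) + 2)))
      calc bon (Pj z l) g (2 * (b0 + l)) ≤ (∏ p ∈ Pj z l, (1 - g p)) * (Real.exp (-(4 * (l : ℝ) + 2)) + 1) := by linarith
        _ ≤ _ := mul_le_mul_of_nonneg_left h5 hV0.le
    calc PU ≤ ∏ l ∈ range z, ((∏ p ∈ Pj z l, (1 - g p)) * Real.exp (Real.exp (-(4 * (l : ℝ) + 2)))) :=
          prod_le_prod (fun j _ => (hU0 j).le) hone
      _ = (∏ p ∈ PP z, (1 - g p)) * Real.exp (∑ l ∈ range z, Real.exp (-(4 * (l : ℝ) + 2))) := by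
          rw [prod_mul_distrib, ← prod_PP, Real.exp_sum]
      _ ≤ (∏ p ∈ PP z, (1 - g p)) * 2 := by
          have hPP : 0 ≤ ∏ p ∈ PP z, (1 - g p) := prod_nonneg fun p hp => by
            have := (hg p hp).2.1
            linarith
          refine mul_le_mul_of_nonneg_left ?_ hPP
          have h6 : Real.exp (∑ l ∈ range z, Real.exp (-(4 * (l : ℝ) + 2))) ≤ Real.exp (1 / 2) := Real.exp_le_exp.2 (FUK_geo z)
          refine h6.trans ?_
          have h7 : Real.exp (1 / 2) * Real.exp (1 / 2) = Real.exp 1 := by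
            rw [← Real.exp_add]
            norm_num
          have h8 := Real.exp_one_lt_d9
          have h9 := Real.exp_pos (1 / 2)
          nlinarith
      _ = _ := by ring

end Pool.Agent.Lib.MP_d57abb_nt.EE
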