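import Mathlib
import Pool.Agent.Lib.MP_42948a_nt.OA.SC
import Pool.Agent.Lib.MP_42948a_nt.OA.SF

/-!
# JOB MerE: reciprocals of the primes in a range

PROOF.  `L0` from `block_recip`.  Apply it with `T` in place of `z`: `Pj T j = {p ≤ T prime : zs T (j+1) < p ≤ zs T j}`.  `(zs T J)^(2^J) ≤ T ≤ z^(2^J)` (`zs_pow`), so `zs T J ≤ z`.  A prime `p ∈ (z, T]` belongs to one of the blocks `Pj T j`, `j < T` (`PP_eq_biUnion`), and since `p > z ≥ zs T J` and `zs` is antitone (`SC_anti`) it belongs to a block with `j < J`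
(`p ≤ zs T j`, if `j ≥ J` then `p ≤ zs T J ≤ z`).  So the sum is `≤ ∑_{j<J} L0 = J L0`.
-/

open Finset

namespace Pool.Agent.Lib.MP_d57abb_nt.EE

open Pool.Agent.Lib.MP_42948a_nt.OA

theorem recip_range : ∃ C : ℝ, 0 < C ∧ ∀ z T J : ℕ, T ≤ z ^ (2 ^ J) →
    ∑ p ∈ (Ioc z T).filter Nat.Prime, (1 : ℝ) / p ≤ C * J := by
  obtain ⟨L0, hL0, hL⟩ := block_recip
  refine ⟨L0, hL0, fun z T J hT => ?_⟩
  have h1 : zs T J ≤ z := by
    by_contra hc
    have h2 := zs_pow T J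
    have h3 : z ^ (2 ^ J) < (zs T J) ^ (2 ^ J) :=
      Nat.pow_lt_pow_left (not_le.mp hc) (by positivity)
    omega
  have hsub : (Ioc z T).filter Nat.Prime ⊆ (range J).biUnion (fun j => Pj T j) := by
    intro p hp
    obtain ⟨hp1, hpr⟩ := Finset.mem_filter.mp hp
    rw [Finset.mem_Ioc] at hp1
    have hP : p ∈ PP T := by
      unfold PP
      exact Finset.mem_filter.mpr ⟨Finset.mem_Icc.mpr ⟨hpr.one_le, hp1.2⟩, hpr⟩
    rw [PP_eq_biUnion] at hP
    obtain ⟨j, hj, hpj⟩ := Finset.mem_biUnion.mp hP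
    refine Finset.mem_biUnion.mpr ⟨j, ?_, hpj⟩
    rw [Finset.mem_range]
    by_contra hc
    have h2 := SC_anti T (not_lt.mp hc)
    unfold Pj at hpj
    have h3 := (Finset.mem_filter.mp hpj).2.2
    omega
  have hnn : ∀ p ∈ (range J).biUnion (fun j => Pj T j), p ∉ (Ioc z T).filter Nat.Prime →
      (0 : ℝ) ≤ 1 / p := fun p _ _ => by positivity
  refine (Finset.sum_le_sum_of_subset_of_nonneg hsub hnn).trans ?_
  rw [Finset.sum_biUnion (fun i _ j _ hij => Pj_disjoint T hij)]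
  refine (Finset.sum_le_sum fun j _ => hL T j).trans ?_
  rw [Finset.sum_const, Finset.card_range, nsmul_eq_mul]
  exact le_of_eq (mul_comm _ _)

end Pool.Agent.Lib.MP_d57abb_nt.EE
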