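import Mathlib
import Pool.Agent.Lib.MP_42948a_nt.OA.SD
import Pool.Agent.Lib.MP_42948a_nt.OA.SJ
import Pool.Agent.Lib.MP_42948a_nt.OA.SK
import Pool.Agent.Lib.MP_42948a_nt.OA.SL
import Pool.Agent.Lib.MP_42948a_nt.OA.SM
import Pool.Agent.Lib.MP_d57abb_nt.EE.FUK

/-!
# JOB SvE: lower and upper bound sieve of dimension `κ` and level `z ^ (C₀ (κ + 1))`

PROOF.  Lower bound: exactly the proof of `sieveK` (`MP_d57abb_nt/AP/SvC.lean`, complete there; its private lemmas `SvC_one`, `SvC_all`, `SvC_point` must be copied), with `b0 = C₁ (κ + 1)`, `FU_bounds` in place of `FF_geK`, and without the last step (`prodK`): the bound is `X * FF z b0 g - z^(4 b0 + 6) R ≥ (1/2) X ∏ (1 - g) - z^(4 b0 + 6) R`.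
`4 b0 + 6 = 4 C₁ (κ + 1) + 6 ≤ C₀ (κ + 1)` with `C₀ = 4 C₁ + 6`; (`z^a ≤ z^b` for `a ≤ b`, and the hypothesis on `T` for products `≤ z^(C₀ (κ+1))` covers the products `≤ z^(4 b0 + 6)`).
Upper bound: for `P p n`, `x p = 1[P p n]`: `1[no p ∈ PP z has P p n] = ∏_{PP z} (1 - x p) = ∏_{j<z} ∏_{Pj z j} (1 - x p) ≤ ∏_{j<z} bon (Pj z j) x (2 (b0 + j))` (`prod_PP`, `bon_ge`; all the factors are nonnegative), and `SJ_A` expands the right side as `∑_{T ∈ (PP z).powerset} μ T ∏_{p ∈ T} x p`, `μ T = ∏_{j<z} cc (b0 + j) ((T ∩ Pj z j).card)`,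
`|μ T| ≤ 1` (`SK_cc_abs`, `SK_prod_abs`), `μ T ≠ 0` only if `(T ∩ Pj z j).card ≤ 2 (b0 + j)` for all `j < z` (`SK_cc_zero`), so `∏ T ≤ z^(4 b0 + 6)` (`level`).  Sum over `n ∈ A` and insert the hypothesis: `≤ X ∏_{j<z} bon (Pj z j) g (2(b0+j)) + (number of T with ∏T ≤ z^(4b0+6)) R`, `count_sets`, `FU_bounds`.
-/

namespace Pool.Agent.Lib.MP_d57abb_nt.EE

open Finset Pool.Agent.Lib.MP_42948a_nt.OA

private theorem SvE_one (S : Finset ℕ) (P : ℕ → Prop) [DecidablePred P] :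
    ∏ p ∈ S, (1 - (if P p then (1 : ℝ) else 0)) = if (∀ p ∈ S, ¬ P p) then (1 : ℝ) else 0 := by
  by_cases h : ∀ p ∈ S, ¬ P p
  · rw [if_pos h]
    refine Finset.prod_eq_one fun p hp => ?_
    rw [if_neg (h p hp), sub_zero]
  · rw [if_neg h]
    push Not at h
    obtain ⟨p, hp, hpn⟩ := h
    refine Finset.prod_eq_zero hp ?_
    rw [if_pos hpn, sub_self]

private theorem SvE_all (T : Finset ℕ) (P : ℕ → Prop) [DecidablePred P] :
    ∏ p ∈ T, (if P p then (1 : ℝ) else 0) = if (∀ p ∈ T, P p) then (1 : ℝ) else 0 := by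
  by_cases h : ∀ p ∈ T, P p
  · rw [if_pos h]
    exact Finset.prod_eq_one fun p hp => if_pos (h p hp)
  · rw [if_neg h]
    push Not at h
    obtain ⟨p, hp, hpn⟩ := h
    exact Finset.prod_eq_zero hp (if_neg hpn)

private theorem SvE_point (z b0 : ℕ) (P : ℕ → Prop) [DecidablePred P] :
    ∑ T ∈ (PP z).powerset, lam z b0 T * (if (∀ p ∈ T, P p) then (1 : ℝ) else 0) ≤
      if (∀ p ∈ PP z, ¬ P p) then (1 : ℝ) else 0 := by
  have h := FF_le z b0 (fun p => if P p then (1 : ℝ) else 0)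
    (fun p _ => by split_ifs <;> norm_num) (fun p _ => by split_ifs <;> norm_num)
  rw [FF_expand, SvE_one] at h
  simp only [SvE_all] at h
  exact h

/-- the coefficients of the upper bound sieve -/
private noncomputable def SvE_mu (z b0 : ℕ) (T : Finset ℕ) : ℝ := ∏ j ∈ range z, cc (b0 + j) ((T ∩ Pj z j).card)

private theorem SvE_point' (z b0 : ℕ) (P : ℕ → Prop) [DecidablePred P] :
    (if (∀ p ∈ PP z, ¬ P p) then (1 : ℝ) else 0) ≤
      ∑ T ∈ (PP z).powerset, SvE_mu z b0 T * (if (∀ p ∈ T, P p) then (1 : ℝ) else 0) := by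
  have h1 : ∏ p ∈ PP z, (1 - (if P p then (1 : ℝ) else 0)) ≤
      ∏ j ∈ range z, bon (Pj z j) (fun p => if P p then (1 : ℝ) else 0) (2 * (b0 + j)) := by
    rw [prod_PP]
    refine prod_le_prod (fun j _ => prod_nonneg fun p _ => ?_) fun j _ => ?_
    · split_ifs <;> norm_num
    · exact bon_ge (Pj z j) _ (fun p _ => by split_ifs <;> norm_num) (fun p _ => by split_ifs <;> norm_num) (b0 + j)
  rw [SJ_A, SvE_one] at h1
  simp only [SvE_all] at h1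
  exact h1

private theorem SvE_err {ι : Type} (z b0 : ℕ) (hz : 1 ≤ z) (μ : Finset ℕ → ℝ) (hμ : ∀ T, |μ T| ≤ 1)
    (hs : ∀ T, μ T ≠ 0 → ∀ j < z, (T ∩ Pj z j).card ≤ 2 * (b0 + j) + 1) (A : Finset ι) (P : ℕ → ι → Prop)
    [∀ p t, Decidable (P p t)] (g : ℕ → ℝ) (X R : ℝ) (hR : 0 ≤ R)
    (hT : ∀ T ⊆ PP z, ∏ p ∈ T, p ≤ z ^ (4 * b0 + 6) →
      |((A.filter (fun t => ∀ p ∈ T, P p t)).card : ℝ) - X * ∏ p ∈ T, g p| ≤ R) :
    |∑ n ∈ A, (∑ T ∈ (PP z).powerset, μ T * (if (∀ p ∈ T, P p n) then (1 : ℝ) else 0)) -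
      X * ∑ T ∈ (PP z).powerset, μ T * ∏ p ∈ T, g p| ≤ (z : ℝ) ^ (4 * b0 + 6) * R := by
  have h5 : ∑ n ∈ A, ∑ T ∈ (PP z).powerset, μ T * (if (∀ p ∈ T, P p n) then (1 : ℝ) else 0) =
      ∑ T ∈ (PP z).powerset, μ T * ((A.filter (fun t => ∀ p ∈ T, P p t)).card : ℝ) := by
    rw [Finset.sum_comm]
    refine Finset.sum_congr rfl fun T _ => ?_
    rw [← Finset.mul_sum, ← Finset.sum_filter, Finset.sum_const, nsmul_eq_mul, mul_one]
  have h9 : ∑ T ∈ (PP z).powerset, μ T * ((A.filter (fun t => ∀ p ∈ T, P p t)).card : ℝ) -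
      X * ∑ T ∈ (PP z).powerset, μ T * ∏ p ∈ T, g p =
      ∑ T ∈ (PP z).powerset, μ T * (((A.filter (fun t => ∀ p ∈ T, P p t)).card : ℝ) - X * ∏ p ∈ T, g p) := by
    rw [Finset.mul_sum, ← Finset.sum_sub_distrib]
    exact Finset.sum_congr rfl fun T _ => by ring
  rw [h5, h9]
  have h6 : ∀ T ∈ (PP z).powerset, |μ T * (((A.filter (fun t => ∀ p ∈ T, P p t)).card : ℝ) - X * ∏ p ∈ T, g p)| ≤
      if ∏ p ∈ T, p ≤ z ^ (4 * b0 + 6) then R else 0 := by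
    intro T hTm
    rw [mem_powerset] at hTm
    by_cases h0 : μ T = 0
    · rw [h0, zero_mul, abs_zero]
      split_ifs
      · exact hR
      · exact le_rfl
    · have h7 := level z b0 hz T hTm (hs T h0)
      rw [if_pos h7, abs_mul]
      have h8 := hT T hTm h7
      calc |μ T| * |((A.filter (fun t => ∀ p ∈ T, P p t)).card : ℝ) - X * ∏ p ∈ T, g p| ≤ 1 * R :=
            mul_le_mul (hμ T) h8 (abs_nonneg _) zero_le_one
        _ = R := one_mul R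
  refine (Finset.abs_sum_le_sum_abs _ _).trans ((Finset.sum_le_sum h6).trans ?_)
  rw [← Finset.sum_filter, Finset.sum_const, nsmul_eq_mul]
  refine mul_le_mul_of_nonneg_right ?_ hR
  have h8 := count_sets z (z ^ (4 * b0 + 6))
  exact_mod_cast h8

theorem sieveLU : ∃ C₀ : ℕ, ∀ (κ : ℕ) (ι : Type) (z : ℕ) (A : Finset ι) (P : ℕ → ι → Prop)
    [∀ p t, Decidable (P p t)] (g : ℕ → ℝ) (X R : ℝ), 3 ≤ z →
    (∀ p ∈ PP z, 0 ≤ g p ∧ g p ≤ 3 / 4 ∧ g p ≤ κ / p) → 0 ≤ X → 0 ≤ R →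
    (∀ T ⊆ PP z, ∏ p ∈ T, p ≤ z ^ (C₀ * (κ + 1)) →
      |((A.filter (fun t => ∀ p ∈ T, P p t)).card : ℝ) - X * ∏ p ∈ T, g p| ≤ R) →
    1 / 2 * X * ∏ p ∈ PP z, (1 - g p) - (z : ℝ) ^ (C₀ * (κ + 1)) * R ≤
        ((A.filter (fun t => ∀ p ∈ PP z, ¬ P p t)).card : ℝ) ∧
      ((A.filter (fun t => ∀ p ∈ PP z, ¬ P p t)).card : ℝ) ≤
        2 * X * ∏ p ∈ PP z, (1 - g p) + (z : ℝ) ^ (C₀ * (κ + 1)) * R := by
  obtain ⟨C₁, hC₁⟩ := FU_bounds
  refine ⟨4 * C₁ + 6, ?_⟩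
  intro κ ι z A P _ g X R hz hg hX hR hT
  obtain ⟨b0, hb0⟩ : ∃ b0 : ℕ, b0 = C₁ * (κ + 1) := ⟨_, rfl⟩
  obtain ⟨hlow, hupp⟩ := hC₁ κ z g hg
  rw [← hb0] at hlow hupp
  have hexp : 4 * b0 + 6 ≤ (4 * C₁ + 6) * (κ + 1) := by
    rw [hb0]
    nlinarith
  have hT' : ∀ T ⊆ PP z, ∏ p ∈ T, p ≤ z ^ (4 * b0 + 6) →
      |((A.filter (fun t => ∀ p ∈ T, P p t)).card : ℝ) - X * ∏ p ∈ T, g p| ≤ R := fun T h1 h2 =>
    hT T h1 (h2.trans (Nat.pow_le_pow_right (by omega) hexp))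
  have hz1 : (1 : ℝ) ≤ z := by exact_mod_cast (by omega : 1 ≤ z)
  have hzz : (z : ℝ) ^ (4 * b0 + 6) * R ≤ (z : ℝ) ^ ((4 * C₁ + 6) * (κ + 1)) * R :=
    mul_le_mul_of_nonneg_right (pow_le_pow_right₀ hz1 hexp) hR
  have h4 : ∑ n ∈ A, (if (∀ p ∈ PP z, ¬ P p n) then (1 : ℝ) else 0) =
      ((A.filter (fun t => ∀ p ∈ PP z, ¬ P p t)).card : ℝ) := by
    rw [← Finset.sum_filter, Finset.sum_const, nsmul_eq_mul, mul_one]
  refine ⟨?_, ?_⟩
  · have h1 := Finset.sum_le_sum (fun n (_ : n ∈ A) => SvE_point z b0 (fun p => P p n))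
    rw [h4] at h1
    have h2 := SvE_err z b0 (by omega) (lam z b0) (lam_abs_le z b0) (lam_support z b0) A P g X R hR hT'
    rw [← FF_expand] at h2
    have h3 := (abs_le.1 h2).1
    have h5 : X * (1 / 2 * ∏ p ∈ PP z, (1 - g p)) ≤ X * FF z b0 g := mul_le_mul_of_nonneg_left hlow hX
    linarith
  · have h1 := Finset.sum_le_sum (fun n (_ : n ∈ A) => SvE_point' z b0 (fun p => P p n))
    rw [h4] at h1
    have h2 := SvE_err z b0 (by omega) (SvE_mu z b0) (fun T => SK_prod_abs _ fun j _ => SK_cc_abs _ _)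
      (fun T hT0 j hj => by
        by_contra hcon
        rw [not_le] at hcon
        apply hT0
        unfold SvE_mu
        exact Finset.prod_eq_zero (mem_range.2 hj) (SK_cc_zero _ _ (by omega))) A P g X R hR hT'
    have h6 : ∑ T ∈ (PP z).powerset, SvE_mu z b0 T * ∏ p ∈ T, g p = ∏ j ∈ range z, bon (Pj z j) g (2 * (b0 + j)) := by
      rw [SJ_A]
      rfl
    rw [h6] at h2
    have h3 := (abs_le.1 h2).2
    have h5 : X * ∏ j ∈ range z, bon (Pj z j) g (2 * (b0 + j)) ≤ X * (2 * ∏ p ∈ PP z, (1 - g p)) :=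
      mul_le_mul_of_nonneg_left hupp hX
    linarith

end Pool.Agent.Lib.MP_d57abb_nt.EE
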