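import Mathlib
import Pool.Agent.Lib.MP_d57abb_nt.AP.SvB
import Pool.Agent.Lib.MP_d57abb_nt.AP.Cls
import Pool.Agent.Lib.MP_d57abb_nt.EE.SvE
import Pool.Agent.Lib.MP_d57abb_nt.EE.BdE

/-!
# JOB SfE: the sifted family, lower bound, and upper bound with one more prime divisor

PROOF (adaptation of `Ev/SftV.lean`, complete there).  `κ = 6 n`, `K = C₀ (6 n + 1)` (`C₀` from `sieveLU`); `C₂ = 400 C₀ + 1`-like, so that `z^(C₂ n) ≤ a` gives `z^(48 K) ≤ a` (`K ≤ 7 C₀ n`, `48 · 7 C₀ n ≤ C₂ n`), in particular `z < a`.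
`g = gE y a w`: for a prime `q ≤ z`: `0 ≤ g q`, and for `q > w ≥ 24 n`, `q > y v`, `q > 2`: `g q ≤ 6 n q / q² = 6 n / q ≤ 1/4` (`badE_card`).
(a) `prodK (6 n)` (`AP/SvB.lean`): `∏_{p ∈ PP z} (1 - g p) ≥ 1 / (2 + log z)^C`.  (`PP` of OA and `Pz` of AP are the same finset `(Icc 1 z).filter Nat.Prime`.)
(b) For `T ⊆ PP z`, `∏T ≤ z^K`: the number of `(b, c) ∈ Fam a G B` with `w < p ∧ (b % p, c % p) ∈ badE y a p` for all `p ∈ T` is `(a / G²) ∏_{T} g p + O(z^(2K) 3 √a (3 + log a)²)` (`fam_count` in `AP/Cls.lean` if all `p ∈ T` are `> w`; both sides are `0` otherwise).  `sieveLU`: the number of `(b,c) ∈ Fam` with no bad `p ∈ PP z` is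
`≥ (1/2) (a / G²) ∏ (1 - g) - z^(3K) 3 √a (3 + log a)² ≥ (1/4) (a / G²) ∏ (1 - g)` for large `a` (`z^(3K) ≤ a^(1/16)`, (a)); this set is `SiftE` (`mem_badE`).
(c) Let `ℓ` be a prime, `z < ℓ`, `ℓ^16 ≤ a`, and also `ℓ > w`, `ℓ ∤ G` - these hold for large `a` if `z > w` [`w < ℓ`: we assume `w ≤ z` in the statement].  `A = {(b, c) ∈ Fam : (b % ℓ, c % ℓ) ∈ badv y a ℓ v}`; `fam_count` with the primes `p ∈ T` and `ℓ`: `|A ∩ T-conditions| = (a / G²)(|badv| / ℓ²) ∏_T g p + O((z^K ℓ)² 3 √a (3 + log a)²)`; `|badv|/ℓ² ≤ 2/ℓ`.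
The upper bound of `sieveLU`: `≤ 2 (a/G²)(2/ℓ) ∏ (1 - g) + z^(3K) ℓ² 3 √a (3 + log a)² ≤ 4 (a/G²) ∏(1-g) / ℓ + √a √√a` for large `a` (`z^(3K) ≤ a^(1/16)`, `ℓ² ≤ a^(1/8)`, `a^(1/16 + 1/8 + 1/2) (..log..) ≤ a^(3/4)`).
-/

open Finset

namespace Pool.Agent.Lib.MP_d57abb_nt.EE

open Pool.Agent.Lib.MP_d57abb_nt Pool.Agent.Lib.MP_d57abb_nt.All Pool.Agent.Lib.MP_d57abb_nt.AP
  Pool.Agent.Lib.MP_d57abb_nt.Ev

private theorem SfE_g {n : ℕ} (y : V n → ℕ) (a w z q : ℕ) (hn : 1 ≤ n) (hw : 24 * n ≤ w) (hy : ∀ v, y v ≤ w)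
    (ha : a.Prime) (hza : z < a) (hq : q.Prime) (hqz : q ≤ z) :
    0 ≤ gE y a w q ∧ gE y a w q ≤ 3 / 4 ∧ gE y a w q ≤ ((6 * n : ℕ) : ℝ) / q := by
  have hq0 : (0 : ℝ) < q := by exact_mod_cast hq.pos
  have hqa : ¬ q ∣ a := by
    intro h
    rcases (Nat.dvd_prime ha).1 h with h1 | h1
    · exact hq.one_lt.ne' h1
    · omega
  unfold gE
  split_ifs with h
  · have hc := badE_card y a q hq hqa (fun v => lt_of_le_of_lt (hy v) h) (by omega)
    have hc' : ((badE y a q).card : ℝ) ≤ 6 * (n : ℝ) * q := by exact_mod_cast hc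
    have h1 : ((badE y a q).card : ℝ) / (q : ℝ) ^ 2 ≤ 6 * (n : ℝ) / q := by
      rw [div_le_div_iff₀ (by positivity) hq0]
      nlinarith [mul_le_mul_of_nonneg_right hc' hq0.le]
    refine ⟨by positivity, h1.trans ?_, by push_cast; exact h1⟩
    rw [div_le_iff₀ hq0]
    have h2 : (24 * (n : ℝ)) ≤ q := by
      have : 24 * n ≤ q := by omega
      exact_mod_cast this
    linarith
  · exact ⟨le_refl _, by norm_num, by positivity⟩

private theorem SfE_PP {z q : ℕ} (hq : q ∈ Pool.Agent.Lib.MP_42948a_nt.OA.PP z) : q.Prime ∧ q ≤ z := by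
  simp only [Pool.Agent.Lib.MP_42948a_nt.OA.PP, mem_filter, mem_Icc] at hq
  exact ⟨hq.2, hq.1.2⟩

private theorem SfE_prod {z K : ℕ} {T : Finset ℕ} (hTK : ∏ p ∈ T, p ≤ z ^ K) :
    ∏ q ∈ T, (q : ℝ) ≤ (z : ℝ) ^ K := by
  have h3 : ((∏ p ∈ T, p : ℕ) : ℝ) ≤ ((z ^ K : ℕ) : ℝ) := Nat.cast_le.2 hTK
  rwa [Nat.cast_prod, Nat.cast_pow] at h3

private theorem SfE_count {n : ℕ} (y : V n → ℕ) (a G B w z K : ℕ) (ha : a.Prime) (hG : 0 < G)
    (hGw : ∀ q : ℕ, q.Prime → q ∣ G → q ≤ w) (hGa : w < a) (hza : z < a)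
    (T : Finset ℕ) (hT : T ⊆ Pool.Agent.Lib.MP_42948a_nt.OA.PP z) (hTK : ∏ p ∈ T, p ≤ z ^ K) :
    |(((Fam a G B).filter (fun t : ℕ × ℕ => ∀ p ∈ T, w < p ∧ (t.1 % p, t.2 % p) ∈ badE y a p)).card : ℝ) -
      (a : ℝ) / (G : ℝ) ^ 2 * ∏ p ∈ T, gE y a w p| ≤
      ((z : ℝ) ^ K) ^ 2 * (3 * √a * (3 + Real.log a) ^ 2) := by
  have hla : 0 ≤ Real.log a := Real.log_natCast_nonneg a
  have hTm : ∀ q ∈ T, q.Prime ∧ q ≤ z := fun q hq => SfE_PP (hT hq)
  by_cases hw : ∀ q ∈ T, w < q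
  · have : Fact a.Prime := ⟨ha⟩
    have hc : Nat.Coprime G a := by
      rw [Nat.coprime_comm, Nat.Prime.coprime_iff_not_dvd ha]
      intro h
      have := hGw a ha h
      omega
    have h := fam_count a G B hG hc (badE y a) T (fun q hq => ⟨(hTm q hq).1, by
        have := (hTm q hq).2
        omega, fun h => by
        have h1 := hGw q (hTm q hq).1 h
        have h2 := hw q hq
        omega⟩) (fun q _ => by
        intro x hx
        simp only [badE, badv, mem_biUnion, mem_filter] at hx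
        obtain ⟨_, _, h3, _⟩ := hx
        exact h3)
    have e1 : ((Fam a G B).filter (fun t : ℕ × ℕ => ∀ p ∈ T, w < p ∧ (t.1 % p, t.2 % p) ∈ badE y a p)) =
        ((Fam a G B).filter (fun x => ∀ q ∈ T, (x.1 % q, x.2 % q) ∈ badE y a q)) := by
      ext x
      simp only [mem_filter]
      constructor
      · rintro ⟨h1, h2⟩
        exact ⟨h1, fun q hq => (h2 q hq).2⟩
      · rintro ⟨h1, h2⟩
        exact ⟨h1, fun q hq => ⟨hw q hq, h2 q hq⟩⟩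
    have e2 : ∏ p ∈ T, gE y a w p = ∏ q ∈ T, ((badE y a q).card : ℝ) / (q : ℝ) ^ 2 := by
      refine Finset.prod_congr rfl fun q hq => ?_
      unfold gE
      rw [if_pos (hw q hq)]
    rw [e1, e2]
    refine h.trans ?_
    have h3 := SfE_prod hTK
    have h4 : (0 : ℝ) ≤ ∏ q ∈ T, (q : ℝ) := Finset.prod_nonneg fun _ _ => Nat.cast_nonneg _
    refine mul_le_mul_of_nonneg_right (pow_le_pow_left₀ h4 h3 2) (by positivity)
  · push Not at hw
    obtain ⟨q, hq, hqw⟩ := hw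
    have e1 : ((Fam a G B).filter (fun t : ℕ × ℕ => ∀ p ∈ T, w < p ∧ (t.1 % p, t.2 % p) ∈ badE y a p)) = ∅ := by
      rw [Finset.filter_eq_empty_iff]
      intro x _ h
      exact absurd (h q hq).1 (not_lt.2 hqw)
    have e2 : ∏ p ∈ T, gE y a w p = 0 := by
      apply Finset.prod_eq_zero hq
      unfold gE
      rw [if_neg (not_lt.2 hqw)]
    rw [e1, e2]
    simp only [card_empty, Nat.cast_zero, mul_zero, sub_zero, abs_zero]
    positivity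

private theorem SfE_countL {n : ℕ} (y : V n → ℕ) (a G B w z K ℓ : ℕ) (v : V n) (ha : a.Prime) (hG : 0 < G)
    (hGw : ∀ q : ℕ, q.Prime → q ∣ G → q ≤ w) (hGa : w < a) (hza : z < a) (hwz : w ≤ z)
    (hℓ : ℓ.Prime) (hzℓ : z < ℓ) (hℓa : ℓ < a)
    (T : Finset ℕ) (hT : T ⊆ Pool.Agent.Lib.MP_42948a_nt.OA.PP z) (hTK : ∏ p ∈ T, p ≤ z ^ K) :
    |((((Fam a G B).filter (fun t : ℕ × ℕ => (t.1 % ℓ, t.2 % ℓ) ∈ badv y a ℓ v)).filter
        (fun t : ℕ × ℕ => ∀ p ∈ T, w < p ∧ (t.1 % p, t.2 % p) ∈ badE y a p)).card : ℝ) -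
      (a : ℝ) / (G : ℝ) ^ 2 * (((badv y a ℓ v).card : ℝ) / (ℓ : ℝ) ^ 2) * ∏ p ∈ T, gE y a w p| ≤
      ((z : ℝ) ^ K * ℓ) ^ 2 * (3 * √a * (3 + Real.log a) ^ 2) := by
  have hla : 0 ≤ Real.log a := Real.log_natCast_nonneg a
  have hTm : ∀ q ∈ T, q.Prime ∧ q ≤ z := fun q hq => SfE_PP (hT hq)
  have hTl : ∀ q ∈ T, q ≠ ℓ := fun q hq h => by
    have := (hTm q hq).2
    omega
  have hℓT : ℓ ∉ T := fun h => hTl ℓ h rfl
  by_cases hw : ∀ q ∈ T, w < q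
  · have : Fact a.Prime := ⟨ha⟩
    have hc : Nat.Coprime G a := by
      rw [Nat.coprime_comm, Nat.Prime.coprime_iff_not_dvd ha]
      intro h
      have := hGw a ha h
      omega
    set Bq : ℕ → Finset (ℕ × ℕ) := fun q => if q = ℓ then badv y a ℓ v else badE y a q with hBq
    have hBl : Bq ℓ = badv y a ℓ v := by
      rw [hBq]
      exact if_pos rfl
    have hBT : ∀ q ∈ T, Bq q = badE y a q := fun q hq => by
      rw [hBq]
      exact if_neg (hTl q hq)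
    have h := fam_count a G B hG hc Bq (insert ℓ T) (fun q hq => by
        rcases mem_insert.1 hq with h1 | h1
        · rw [h1]
          refine ⟨hℓ, hℓa.ne, fun h2 => ?_⟩
          have := hGw ℓ hℓ h2
          omega
        · refine ⟨(hTm q h1).1, ?_, fun h2 => ?_⟩
          · have := (hTm q h1).2
            omega
          · have h3 := hGw q (hTm q h1).1 h2
            have h4 := hw q h1
            omega) (fun q hq => by
        rcases mem_insert.1 hq with h1 | h1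
        · rw [h1, hBl]
          exact filter_subset _ _
        · rw [hBT q h1]
          intro x hx
          simp only [badE, badv, mem_biUnion, mem_filter] at hx
          obtain ⟨_, _, h3, _⟩ := hx
          exact h3)
    have e1 : (((Fam a G B).filter (fun t : ℕ × ℕ => (t.1 % ℓ, t.2 % ℓ) ∈ badv y a ℓ v)).filter
        (fun t : ℕ × ℕ => ∀ p ∈ T, w < p ∧ (t.1 % p, t.2 % p) ∈ badE y a p)) =
        ((Fam a G B).filter (fun x => ∀ q ∈ insert ℓ T, (x.1 % q, x.2 % q) ∈ Bq q)) := by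
      ext x
      simp only [mem_filter]
      constructor
      · rintro ⟨⟨h1, h1'⟩, h2⟩
        refine ⟨h1, fun q hq => ?_⟩
        rcases mem_insert.1 hq with h3 | h3
        · rw [h3, hBl]
          exact h1'
        · rw [hBT q h3]
          exact (h2 q h3).2
      · rintro ⟨h1, h2⟩
        refine ⟨⟨h1, ?_⟩, fun q hq => ⟨hw q hq, ?_⟩⟩
        · have h3 := h2 ℓ (mem_insert_self _ _)
          rwa [hBl] at h3
        · have h3 := h2 q (mem_insert_of_mem hq)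
          rwa [hBT q hq] at h3
    have e2 : ∏ q ∈ insert ℓ T, ((Bq q).card : ℝ) / (q : ℝ) ^ 2 =
        (((badv y a ℓ v).card : ℝ) / (ℓ : ℝ) ^ 2) * ∏ p ∈ T, gE y a w p := by
      rw [prod_insert hℓT, hBl]
      refine congrArg (fun t : ℝ => (((badv y a ℓ v).card : ℝ) / (ℓ : ℝ) ^ 2) * t) ?_
      refine Finset.prod_congr rfl fun q hq => ?_
      unfold gE
      rw [if_pos (hw q hq), hBT q hq]
    rw [e1, mul_assoc, ← e2]
    refine h.trans ?_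
    have h3 : ∏ q ∈ insert ℓ T, (q : ℝ) ≤ (z : ℝ) ^ K * ℓ := by
      rw [prod_insert hℓT, mul_comm]
      exact mul_le_mul_of_nonneg_right (SfE_prod hTK) (Nat.cast_nonneg _)
    have h4 : (0 : ℝ) ≤ ∏ q ∈ insert ℓ T, (q : ℝ) := Finset.prod_nonneg fun _ _ => Nat.cast_nonneg _
    refine mul_le_mul_of_nonneg_right (pow_le_pow_left₀ h4 h3 2) (by positivity)
  · push Not at hw
    obtain ⟨q, hq, hqw⟩ := hw
    have e1 : (((Fam a G B).filter (fun t : ℕ × ℕ => (t.1 % ℓ, t.2 % ℓ) ∈ badv y a ℓ v)).filter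
        (fun t : ℕ × ℕ => ∀ p ∈ T, w < p ∧ (t.1 % p, t.2 % p) ∈ badE y a p)) = ∅ := by
      rw [Finset.filter_eq_empty_iff]
      intro x _ h
      exact absurd (h q hq).1 (not_lt.2 hqw)
    have e2 : ∏ p ∈ T, gE y a w p = 0 := by
      apply Finset.prod_eq_zero hq
      unfold gE
      rw [if_neg (not_lt.2 hqw)]
    rw [e1, e2]
    simp only [card_empty, Nat.cast_zero, mul_zero, sub_zero, abs_zero]
    positivity

private theorem SfE_not_dvd {a q : ℕ} (ha : a.Prime) (hq : q.Prime) (h : q < a) : ¬ q ∣ a := by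
  intro h0
  rcases (Nat.dvd_prime ha).1 h0 with h1 | h1
  · exact hq.one_lt.ne' h1
  · omega

private theorem SfE_fam {a G B : ℕ} {x : ℕ × ℕ} (hx : x ∈ Fam a G B) : a ∣ 1 + x.1 * x.2 := by
  simp only [Fam, mem_filter] at hx
  exact hx.2.1

private theorem SfE_mem {n : ℕ} (y : V n → ℕ) (a G B w z : ℕ) (ha : a.Prime) (hza : z < a) (x : ℕ × ℕ) :
    x ∈ SiftE y a G B w z ↔ x ∈ (Fam a G B).filter (fun t : ℕ × ℕ =>
      ∀ p ∈ Pool.Agent.Lib.MP_42948a_nt.OA.PP z, ¬ (w < p ∧ (t.1 % p, t.2 % p) ∈ badE y a p)) := by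
  simp only [SiftE, mem_filter]
  refine and_congr_right fun hF => ?_
  have hd := SfE_fam hF
  constructor
  · intro h p hp hb
    have hp' := SfE_PP hp
    have hpa := SfE_not_dvd ha hp'.1 (lt_of_le_of_lt hp'.2 hza)
    obtain ⟨v, hv⟩ := (mem_badE y a x.1 x.2 p ha.pos hd hp'.1 hpa).1 hb.2
    exact h p hp hb.1 v hv
  · intro h p hp hwp v hv
    have hp' : p.Prime ∧ p ≤ z := SfE_PP hp
    have hpa := SfE_not_dvd ha hp'.1 (lt_of_le_of_lt hp'.2 hza)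
    exact h p hp ⟨hwp, (mem_badE y a x.1 x.2 p ha.pos hd hp'.1 hpa).2 ⟨v, hv⟩⟩

/-- the analytic condition for large `a` -/
private theorem SfE_large (G C : ℕ) (hG : 0 < G) : ∃ a₀ : ℕ, ∀ a : ℕ, a₀ ≤ a →
    12 * (G : ℝ) ^ 2 * (3 + Real.log a) ^ 2 * (2 + Real.log a) ^ C ≤ √(√(√(√a))) := by
  have hG0 : (0 : ℝ) < G := by exact_mod_cast hG
  have h1 : Filter.Tendsto (fun a : ℕ => Real.log a) Filter.atTop Filter.atTop :=
    Real.tendsto_log_atTop.comp tendsto_natCast_atTop_atTop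
  have h2 : ∀ᶠ x : ℝ in Filter.atTop,
      12 * (G : ℝ) ^ 2 * 3 ^ 2 * 3 ^ C * Real.log x ^ (2 + C) ≤ √(√(√(√x))) := by
    have h3 := isLittleO_log_rpow_rpow_atTop ((2 + C : ℕ) : ℝ) (show (0 : ℝ) < 1 / 16 by norm_num)
    have hc : (0 : ℝ) < 1 / (12 * (G : ℝ) ^ 2 * 3 ^ 2 * 3 ^ C) := by positivity
    have h4 := h3.bound hc
    filter_upwards [h4, Filter.eventually_ge_atTop (1 : ℝ)] with x hx hx1
    have hl : 0 ≤ Real.log x := Real.log_nonneg hx1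
    rw [Real.norm_of_nonneg (by positivity), Real.norm_of_nonneg (by positivity), Real.rpow_natCast] at hx
    have e : √(√(√(√x))) = x ^ ((1 : ℝ) / 16) := by
      have hx0 : 0 ≤ x := by linarith
      rw [Real.sqrt_eq_rpow, Real.sqrt_eq_rpow, Real.sqrt_eq_rpow, Real.sqrt_eq_rpow,
        ← Real.rpow_mul (by positivity), ← Real.rpow_mul (by positivity), ← Real.rpow_mul hx0]
      norm_num
    rw [e]
    rw [div_mul_eq_mul_div, one_mul, le_div_iff₀ (by positivity)] at hx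
    linarith
  have h5 : ∀ᶠ a : ℕ in Filter.atTop,
      12 * (G : ℝ) ^ 2 * 3 ^ 2 * 3 ^ C * Real.log a ^ (2 + C) ≤ √(√(√(√(a : ℝ)))) :=
    tendsto_natCast_atTop_atTop.eventually h2
  have h6 := (h1.eventually_ge_atTop 2).and h5
  obtain ⟨a₀, ha₀⟩ := Filter.eventually_atTop.1 h6
  refine ⟨a₀, fun a ha => ?_⟩
  obtain ⟨h7, h9⟩ := ha₀ a ha
  refine le_trans ?_ h9
  have h10 : 3 + Real.log a ≤ 3 * Real.log a := by linarith
  have h11 : 2 + Real.log a ≤ 3 * Real.log a := by linarith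
  have h12 : (3 + Real.log a) ^ 2 ≤ (3 * Real.log a) ^ 2 := pow_le_pow_left₀ (by linarith) h10 2
  have h13 : (2 + Real.log a) ^ C ≤ (3 * Real.log a) ^ C := pow_le_pow_left₀ (by linarith) h11 C
  calc 12 * (G : ℝ) ^ 2 * (3 + Real.log a) ^ 2 * (2 + Real.log a) ^ C
      ≤ 12 * (G : ℝ) ^ 2 * (3 * Real.log a) ^ 2 * (3 * Real.log a) ^ C := by
        apply mul_le_mul _ h13 (by positivity) (by positivity)
        exact mul_le_mul_of_nonneg_left h12 (by positivity)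
    _ = 12 * (G : ℝ) ^ 2 * 3 ^ 2 * 3 ^ C * Real.log a ^ (2 + C) := by
        rw [mul_pow, mul_pow, pow_add]
        ring

open Classical in
theorem sift_bounds : ∃ C₂ : ℕ, 1 ≤ C₂ ∧ ∀ n : ℕ, 1 ≤ n → ∃ C : ℕ, ∀ (y : V n → ℕ) (w G B : ℕ), 24 * n ≤ w →
    (∀ v, y v ≤ w) → 0 < G → (∀ q : ℕ, q.Prime → q ∣ G → q ≤ w) →
    ∃ a₀ : ℕ, ∀ a z : ℕ, a₀ ≤ a → a.Prime → 3 ≤ z → w ≤ z → z ^ (C₂ * n) ≤ a → ∃ P : ℝ,
      1 / (2 + Real.log z) ^ C ≤ P ∧ P ≤ 1 ∧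
      1 / 4 * ((a : ℝ) / (G : ℝ) ^ 2) * P ≤ ((SiftE y a G B w z).card : ℝ) ∧
      ∀ ℓ : ℕ, ℓ.Prime → z < ℓ → ℓ ^ 16 ≤ a → ∀ v : V n,
        (((SiftE y a G B w z).filter (fun x => (ℓ : ℤ) ∣ nm (Xv y a x.1 x.2 v))).card : ℝ) ≤
          4 * ((a : ℝ) / (G : ℝ) ^ 2) * P / ℓ + √a * √(√a) := by
  obtain ⟨C₀, hS⟩ := sieveLU
  refine ⟨336 * C₀ + 2, by omega, ?_⟩
  intro n hn
  obtain ⟨C, hC⟩ := prodK (6 * n)
  refine ⟨C, fun y w G B hw hy hG hGw => ?_⟩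
  obtain ⟨a₁, ha₁⟩ := SfE_large G C hG
  refine ⟨max a₁ (w + 1), ?_⟩
  intro a z ha0 ha hz hwz hza
  have hlarge := ha₁ a ((le_max_left _ _).trans ha0)
  have hwa : w < a := (le_max_right _ _).trans ha0
  set K : ℕ := C₀ * (6 * n + 1) with hK
  have hKn : 48 * K + 2 ≤ (336 * C₀ + 2) * n := by
    have h1 : C₀ * (6 * n + 1) ≤ C₀ * (7 * n) := Nat.mul_le_mul_left _ (by omega)
    have h2 : (336 * C₀ + 2) * n = 48 * (C₀ * (7 * n)) + 2 * n := by ring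
    rw [h2, hK]
    omega
  have hz1 : 1 ≤ z := by omega
  have hzK : z ^ (48 * K + 2) ≤ a := (Nat.pow_le_pow_right hz1 hKn).trans hza
  have hzK' : z ^ (48 * K) ≤ a := (Nat.pow_le_pow_right hz1 (by omega)).trans hzK
  have hzlt : z < a := by
    have h1 : z ^ 1 < z ^ (48 * K + 2) := Nat.pow_lt_pow_right (by omega) (by omega)
    rw [pow_one] at h1
    omega
  have ha1 : (1 : ℝ) < a := by exact_mod_cast ha.one_lt
  have ha00 : (0 : ℝ) ≤ a := by linarith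
  have hG0 : (0 : ℝ) < G := by exact_mod_cast hG
  have hG1 : (1 : ℝ) ≤ (G : ℝ) ^ 2 := by
    have h1 : (1 : ℝ) ≤ G := by exact_mod_cast hG
    exact one_le_pow₀ h1
  have hz1' : (1 : ℝ) ≤ z := by exact_mod_cast hz1
  set L : ℝ := Real.log a with hL
  have hL0 : 0 ≤ L := Real.log_natCast_nonneg a
  set b : ℝ := √(√(√(√a))) with hb
  have hb0 : 0 ≤ b := Real.sqrt_nonneg _
  have hb2 : b ^ 2 = √(√(√a)) := Real.sq_sqrt (Real.sqrt_nonneg _)
  have hb4 : b ^ 4 = √(√a) := by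
    have h1 : b ^ 4 = (b ^ 2) ^ 2 := by ring
    rw [h1, hb2, Real.sq_sqrt (Real.sqrt_nonneg _)]
  have hb8 : b ^ 8 = √a := by
    have h1 : b ^ 8 = (b ^ 4) ^ 2 := by ring
    rw [h1, hb4, Real.sq_sqrt (Real.sqrt_nonneg _)]
  have hb16 : b ^ 16 = a := by
    have h1 : b ^ 16 = (b ^ 8) ^ 2 := by ring
    rw [h1, hb8, Real.sq_sqrt ha00]
  have hCL : 1 ≤ (2 + L) ^ C := one_le_pow₀ (by linarith)
  have hlarge3 : 3 * (3 + L) ^ 2 ≤ b := by
    refine le_trans ?_ hlarge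
    have h1 : 3 * (3 + L) ^ 2 ≤ 12 * (3 + L) ^ 2 := by nlinarith [sq_nonneg (3 + L)]
    have h2 : 12 * (3 + L) ^ 2 * 1 ≤ 12 * (3 + L) ^ 2 * (G : ℝ) ^ 2 :=
      mul_le_mul_of_nonneg_left hG1 (by positivity)
    have h3 : 12 * (G : ℝ) ^ 2 * (3 + L) ^ 2 * 1 ≤ 12 * (G : ℝ) ^ 2 * (3 + L) ^ 2 * (2 + L) ^ C :=
      mul_le_mul_of_nonneg_left hCL (by positivity)
    linarith
  have hb1 : 1 ≤ b := by
    refine le_trans ?_ hlarge3
    nlinarith [sq_nonneg L]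
  have hzb : (z : ℝ) ^ (3 * K) ≤ b := by
    have h3 : ((z : ℝ) ^ (3 * K)) ^ 16 ≤ b ^ 16 := by
      rw [hb16, ← pow_mul]
      have h4 : 3 * K * 16 = 48 * K := by ring
      rw [h4]
      exact_mod_cast hzK'
    exact le_of_pow_le_pow_left₀ (by norm_num) hb0 h3
  have hg : ∀ p ∈ Pool.Agent.Lib.MP_42948a_nt.OA.PP z,
      0 ≤ gE y a w p ∧ gE y a w p ≤ 3 / 4 ∧ gE y a w p ≤ ((6 * n : ℕ) : ℝ) / p := fun p hp =>
    SfE_g y a w z p hn hw hy ha hzlt (SfE_PP hp).1 (SfE_PP hp).2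
  set P : ℝ := ∏ p ∈ Pool.Agent.Lib.MP_42948a_nt.OA.PP z, (1 - gE y a w p) with hP
  have hPlow : 1 / (2 + Real.log z) ^ C ≤ P := hC z (gE y a w) hz hg
  have hlz : Real.log z ≤ L := Real.log_le_log (by linarith) (by exact_mod_cast hzlt.le)
  have hlz0 : 0 ≤ Real.log z := Real.log_nonneg hz1'
  have hP0 : 0 ≤ P := le_trans (by positivity) hPlow
  have hP1 : P ≤ 1 := Finset.prod_le_one (fun p hp => by linarith [(hg p hp).2.1])
    (fun p hp => by linarith [(hg p hp).1])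
  refine ⟨P, hPlow, hP1, ?_, ?_⟩
  · -- the lower bound
    set R : ℝ := ((z : ℝ) ^ K) ^ 2 * (3 * √a * (3 + L) ^ 2) with hR
    have hR0 : 0 ≤ R := by positivity
    have h := (hS (6 * n) (ℕ × ℕ) z (Fam a G B) (fun q x => w < q ∧ (x.1 % q, x.2 % q) ∈ badE y a q)
      (gE y a w) ((a : ℝ) / (G : ℝ) ^ 2) R hz hg (by positivity) hR0
      (fun T hT hTK => SfE_count y a G B w z K ha hG hGw hwa hzlt T hT hTK)).1
    have h2 : (((Fam a G B).filter (fun t : ℕ × ℕ => ∀ p ∈ Pool.Agent.Lib.MP_42948a_nt.OA.PP z,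
        ¬ (w < p ∧ (t.1 % p, t.2 % p) ∈ badE y a p))).card : ℝ) ≤ ((SiftE y a G B w z).card : ℝ) := by
      exact_mod_cast card_le_card fun x hx => (SfE_mem y a G B w z ha hzlt x).2 hx
    refine le_trans ?_ (h.trans h2)
    have e1 : (z : ℝ) ^ (C₀ * (6 * n + 1)) * R = (z : ℝ) ^ (3 * K) * (3 * b ^ 8 * (3 + L) ^ 2) := by
      rw [← hK, hR, hb8]
      ring
    have e2 : (z : ℝ) ^ (3 * K) * (3 * b ^ 8 * (3 + L) ^ 2) ≤ b * (3 * b ^ 8 * (3 + L) ^ 2) :=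
      mul_le_mul_of_nonneg_right hzb (by positivity)
    have hPl : 1 / (2 + L) ^ C ≤ P := by
      refine le_trans ?_ hPlow
      apply one_div_le_one_div_of_le (by positivity)
      exact pow_le_pow_left₀ (by linarith) (by linarith) C
    have e3 : b * (3 * b ^ 8 * (3 + L) ^ 2) ≤ 1 / 4 * ((a : ℝ) / (G : ℝ) ^ 2) * (1 / (2 + L) ^ C) := by
      rw [← hb16]
      have h5 : 1 / 4 * (b ^ 16 / (G : ℝ) ^ 2) * (1 / (2 + L) ^ C) =
          b ^ 9 * b ^ 7 / (4 * (G : ℝ) ^ 2 * (2 + L) ^ C) := by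
        field_simp
        try ring
      rw [h5, le_div_iff₀ (by positivity)]
      have h6 : b * (3 * b ^ 8 * (3 + L) ^ 2) * (4 * (G : ℝ) ^ 2 * (2 + L) ^ C) =
          b ^ 9 * (12 * (G : ℝ) ^ 2 * (3 + L) ^ 2 * (2 + L) ^ C) := by ring
      rw [h6]
      refine mul_le_mul_of_nonneg_left (hlarge.trans ?_) (by positivity)
      calc b = b ^ 1 := (pow_one b).symm
        _ ≤ b ^ 7 := pow_le_pow_right₀ hb1 (by norm_num)
    have e4 : 1 / 4 * ((a : ℝ) / (G : ℝ) ^ 2) * (1 / (2 + L) ^ C) ≤ 1 / 4 * ((a : ℝ) / (G : ℝ) ^ 2) * P :=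
      mul_le_mul_of_nonneg_left hPl (by positivity)
    have e5 : 1 / 2 * ((a : ℝ) / (G : ℝ) ^ 2) * P =
        1 / 4 * ((a : ℝ) / (G : ℝ) ^ 2) * P + 1 / 4 * ((a : ℝ) / (G : ℝ) ^ 2) * P := by ring
    rw [e1]
    linarith
  · -- one more prime
    intro ℓ hℓ hzℓ hℓa v
    have hℓlt : ℓ < a := by
      have h1 : ℓ ^ 1 < ℓ ^ 16 := Nat.pow_lt_pow_right hℓ.one_lt (by norm_num)
      rw [pow_one] at h1
      omega
    have hℓ0 : (0 : ℝ) < ℓ := by exact_mod_cast hℓ.pos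
    have hℓb : (ℓ : ℝ) ≤ b := by
      have h3 : (ℓ : ℝ) ^ 16 ≤ b ^ 16 := by
        rw [hb16]
        exact_mod_cast hℓa
      exact le_of_pow_le_pow_left₀ (by norm_num) hb0 h3
    have hℓna := SfE_not_dvd ha hℓ hℓlt
    set R : ℝ := ((z : ℝ) ^ K * ℓ) ^ 2 * (3 * √a * (3 + L) ^ 2) with hR
    have hR0 : 0 ≤ R := by positivity
    set X : ℝ := (a : ℝ) / (G : ℝ) ^ 2 * (((badv y a ℓ v).card : ℝ) / (ℓ : ℝ) ^ 2) with hX
    have hX0 : 0 ≤ X := by positivity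
    have h := (hS (6 * n) (ℕ × ℕ) z ((Fam a G B).filter (fun t : ℕ × ℕ => (t.1 % ℓ, t.2 % ℓ) ∈ badv y a ℓ v))
      (fun q x => w < q ∧ (x.1 % q, x.2 % q) ∈ badE y a q)
      (gE y a w) X R hz hg hX0 hR0
      (fun T hT hTK => SfE_countL y a G B w z K ℓ v ha hG hGw hwa hzlt hwz hℓ hzℓ hℓlt T hT hTK)).2
    have h2 : (((SiftE y a G B w z).filter (fun x => (ℓ : ℤ) ∣ nm (Xv y a x.1 x.2 v))).card : ℝ) ≤
        ((((Fam a G B).filter (fun t : ℕ × ℕ => (t.1 % ℓ, t.2 % ℓ) ∈ badv y a ℓ v)).filter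
          (fun t : ℕ × ℕ => ∀ p ∈ Pool.Agent.Lib.MP_42948a_nt.OA.PP z,
            ¬ (w < p ∧ (t.1 % p, t.2 % p) ∈ badE y a p))).card : ℝ) := by
      refine Nat.cast_le.2 (card_le_card fun x hx => ?_)
      have hx1 := (mem_filter.1 hx).1
      have hx2 := (mem_filter.1 hx).2
      have hx3 := mem_filter.1 ((SfE_mem y a G B w z ha hzlt x).1 hx1)
      refine mem_filter.2 ⟨mem_filter.2 ⟨hx3.1, ?_⟩, hx3.2⟩
      exact (mem_badv y a x.1 x.2 ℓ v ha.pos (SfE_fam hx3.1) hℓ hℓna).2 hx2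
    refine h2.trans (h.trans ?_)
    have hX2 : X ≤ (a : ℝ) / (G : ℝ) ^ 2 * (2 / ℓ) := by
      rw [hX]
      refine mul_le_mul_of_nonneg_left ?_ (by positivity)
      have hc := badv_card y a ℓ v hℓ hℓna (by
        have := hy v
        omega) (by omega)
      have hc' : ((badv y a ℓ v).card : ℝ) ≤ 2 * (ℓ : ℝ) := by exact_mod_cast hc
      rw [div_le_div_iff₀ (by positivity) hℓ0]
      nlinarith [mul_le_mul_of_nonneg_right hc' hℓ0.le]
    have e1 : 2 * X * P ≤ 4 * ((a : ℝ) / (G : ℝ) ^ 2) * P / ℓ := by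
      have h3 : 2 * X * P ≤ 2 * ((a : ℝ) / (G : ℝ) ^ 2 * (2 / ℓ)) * P :=
        mul_le_mul_of_nonneg_right (by linarith) hP0
      refine h3.trans (le_of_eq ?_)
      field_simp
      try ring
    have e2 : (z : ℝ) ^ (C₀ * (6 * n + 1)) * R =
        (z : ℝ) ^ (3 * K) * ((ℓ : ℝ) ^ 2 * (b ^ 8 * (3 * (3 + L) ^ 2))) := by
      rw [← hK, hR, hb8]
      ring
    have e3 : (z : ℝ) ^ (3 * K) * ((ℓ : ℝ) ^ 2 * (b ^ 8 * (3 * (3 + L) ^ 2))) ≤
        b * (b ^ 2 * (b ^ 8 * b)) := by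
      refine mul_le_mul hzb ?_ (by positivity) hb0
      refine mul_le_mul (pow_le_pow_left₀ hℓ0.le hℓb 2) ?_ (by positivity) (by positivity)
      exact mul_le_mul_of_nonneg_left hlarge3 (by positivity)
    have e4 : b * (b ^ 2 * (b ^ 8 * b)) = √a * √(√a) := by
      rw [← hb4, ← hb8]
      ring
    rw [e2]
    linarith

end Pool.Agent.Lib.MP_d57abb_nt.EE
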