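import Mathlib
import Pool.Agent.Lib.MP_d57abb_nt.AP.Cnt
import Pool.Agent.Lib.MP_d57abb_nt.EE.Defs

/-!
# JOB SqE: squares of primes dividing the norms

PROOF.  `x = xc v.1 ∈ {1, 2}`, `Y = y v < q`, `M = q²`.  As in `BdE`: for `(b, c) ∈ Fam a G B` (`a ∣ 1 + b c`, `b ≡ B`, `c ≡ 0 (mod G)`), `q² ∣ nm (Xv ..)` iff `q² ∣ nm (x a² + Y a c, x a b + Y (1 + b c))` (`a` is prime to `q`), a condition on the residues `(β, γ)` of `(b, c)` modulo `M`.
For a given `γ` there are at most two such `β` modulo `M`: put `s = x a + Y γ`; the vector is `(a s, β s + Y)`.  If `q ∣ s`: `nm ≡ Y² (mod q)`, so `q ∣ Y`, `Y = 0` (`Y < q`), `s = x a`, not divisible by `q` (`2 < q`, `q ∤ a`): contradiction.  So `s` is a unit modulo `M`, and `nm (a s, β s + Y) = 0` in `ZMod M` says that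
`τ = (β s + Y)/(a s)` is a root of `T² + 3 T + 1` modulo `q²`: at most two roots (two roots congruent modulo `q` are equal: `(τ - τ')(τ + τ' + 3) = 0` and `(2 τ + 3)² = 5` is a unit as `q ≠ 5`; modulo `q` there are at most two).
So at most `2 M` classes `(β, γ)` modulo `M`; for each of them, the class modulo `G M` (`G` and `q` are coprime) has by `kl_count` (`AP/Cnt.lean`, `D = G M`, coprime to `a`) at most `a / (G M)² + 3 √a (3 + log a)²` elements.  Total `≤ 2 M (a / (G M)² + 3 √a (3 + log a)²) ≤ 2 a / q² + 2 q² (3 √a (3 + log a)²)`.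
-/

open Finset

namespace Pool.Agent.Lib.MP_d57abb_nt.EE

open Pool.Agent.Lib.MP_d57abb_nt Pool.Agent.Lib.MP_d57abb_nt.All Pool.Agent.Lib.MP_d57abb_nt.AP
  Pool.Agent.Lib.MP_d57abb_nt.Ev

private theorem SqE_two (a q x y γ : ℕ) (hq : q.Prime) (h5 : 5 < q) (hqa : ¬ q ∣ a) (hx0 : 0 < x) (hx : x < q)
    (hy : y < q) :
    ((range (q ^ 2)).filter (fun β : ℕ =>
      ((q ^ 2 : ℕ) : ℤ) ∣ nm ((x : ℤ) * (a : ℤ) ^ 2 + y * a * γ, (x : ℤ) * a * β + y * (1 + β * γ)))).card ≤ 2 := by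
  by_contra hcon
  push Not at hcon
  obtain ⟨b₁, h₁, b₂, h₂, b₃, h₃, h12, h13, h23⟩ := Finset.two_lt_card.mp hcon
  rw [mem_filter, mem_range] at h₁ h₂ h₃
  have hqp : Prime (q : ℤ) := Nat.prime_iff_prime_int.mp hq
  have ha0 : ¬ (q : ℤ) ∣ a := fun h => hqa (Int.natCast_dvd_natCast.mp h)
  have hx1 : ¬ (q : ℤ) ∣ x := fun h => Nat.not_dvd_of_pos_of_lt hx0 hx (Int.natCast_dvd_natCast.mp h)
  have h50 : ¬ (q : ℤ) ∣ 5 := by
    intro h
    have h' : (q : ℤ) ∣ ((5 : ℕ) : ℤ) := by exact_mod_cast h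
    exact Nat.not_dvd_of_pos_of_lt (by norm_num) h5 (Int.natCast_dvd_natCast.mp h')
  set s : ℤ := x * a + y * γ with hs
  have key : ∀ β : ℕ, ((q ^ 2 : ℕ) : ℤ) ∣ nm ((x : ℤ) * (a : ℤ) ^ 2 + y * a * γ, (x : ℤ) * a * β + y * (1 + β * γ)) →
      (q : ℤ) ^ 2 ∣ (a * s) ^ 2 + 3 * (a * s) * (s * β + y) + (s * β + y) ^ 2 := by
    intro β hβ
    have e : nm ((x : ℤ) * (a : ℤ) ^ 2 + y * a * γ, (x : ℤ) * a * β + y * (1 + β * γ)) =
        (a * s) ^ 2 + 3 * (a * s) * (s * β + y) + (s * β + y) ^ 2 := by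
      unfold nm
      rw [hs]
      ring
    rw [e] at hβ
    push_cast at hβ
    exact hβ
  have k₁ := key b₁ h₁.2
  have k₂ := key b₂ h₂.2
  have k₃ := key b₃ h₃.2
  have hqq : (q : ℤ) ∣ (q : ℤ) ^ 2 := dvd_pow_self _ (by norm_num)
  -- `s` is prime to `q`
  have hs0 : ¬ (q : ℤ) ∣ s := by
    intro h
    have h1 : (q : ℤ) ∣ (y : ℤ) ^ 2 := by
      have h2 := hqq.trans k₁
      have e : (y : ℤ) ^ 2 = ((a * s) ^ 2 + 3 * (a * s) * (s * b₁ + y) + (s * b₁ + y) ^ 2) -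
          s * (a * (a * s) + 3 * a * (s * b₁ + y) + b₁ * (s * b₁ + y) + b₁ * y) := by ring
      rw [e]
      exact dvd_sub h2 (h.mul_right _)
    have h2 : (q : ℤ) ∣ y := hqp.dvd_of_dvd_pow h1
    have h3 : y = 0 := by
      by_contra h0
      exact Nat.not_dvd_of_pos_of_lt (Nat.pos_of_ne_zero h0) hy (Int.natCast_dvd_natCast.mp h2)
    rw [hs, h3] at h
    push_cast at h
    rw [zero_mul, add_zero] at h
    rcases hqp.dvd_or_dvd h with h4 | h4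
    · exact hx1 h4
    · exact ha0 h4
  have hcs : IsCoprime ((q : ℤ) ^ 2) s := (hqp.irreducible.coprime_iff_not_dvd.2 hs0).pow_left
  -- the differences
  have inj : ∀ β β' : ℕ, β < q ^ 2 → β' < q ^ 2 → β ≠ β' → ¬ (q : ℤ) ^ 2 ∣ (β : ℤ) - β' := by
    intro β β' h h' hne hd
    apply hne
    have h1 : (β : ℤ) ≡ β' [ZMOD ((q ^ 2 : ℕ) : ℤ)] := by
      apply Int.ModEq.symm
      apply Int.modEq_of_dvd
      push_cast
      exact hd
    have h2 : β ≡ β' [MOD q ^ 2] := (Int.natCast_modEq_iff).mp h1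
    exact Nat.ModEq.eq_of_lt_of_lt h2 h h'
  have step : ∀ β β' : ℕ, β < q ^ 2 → β' < q ^ 2 → β ≠ β' →
      (q : ℤ) ^ 2 ∣ (a * s) ^ 2 + 3 * (a * s) * (s * β + y) + (s * β + y) ^ 2 →
      (q : ℤ) ^ 2 ∣ (a * s) ^ 2 + 3 * (a * s) * (s * β' + y) + (s * β' + y) ^ 2 →
      (q : ℤ) ^ 2 ∣ (s * β + y) + (s * β' + y) + 3 * (a * s) := by
    intro β β' h h' hne k k'
    have h1 : (q : ℤ) ^ 2 ∣ s * (((β : ℤ) - β') * ((s * β + y) + (s * β' + y) + 3 * (a * s))) := by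
      have e : s * (((β : ℤ) - β') * ((s * β + y) + (s * β' + y) + 3 * (a * s))) =
          ((a * s) ^ 2 + 3 * (a * s) * (s * β + y) + (s * β + y) ^ 2) -
          ((a * s) ^ 2 + 3 * (a * s) * (s * β' + y) + (s * β' + y) ^ 2) := by ring
      rw [e]
      exact dvd_sub k k'
    have h2 := hcs.dvd_of_dvd_mul_left h1
    by_cases hd : (q : ℤ) ∣ (β : ℤ) - β'
    · -- then the second factor is prime to `q`
      have h3 : ¬ (q : ℤ) ∣ (s * β + y) + (s * β' + y) + 3 * (a * s) := by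
        intro h4
        have h5' : (q : ℤ) ∣ 2 * (s * β + y) + 3 * (a * s) := by
          have e : 2 * (s * β + y) + 3 * (a * s) = ((s * β + y) + (s * β' + y) + 3 * (a * s)) + s * ((β : ℤ) - β') := by ring
          rw [e]
          exact dvd_add h4 (hd.mul_left _)
        have h6 : (q : ℤ) ∣ 5 * (a * s) ^ 2 := by
          have e : 5 * (a * s) ^ 2 = (2 * (s * β + y) + 3 * (a * s)) * (2 * (s * β + y) + 3 * (a * s)) -
              ((a * s) ^ 2 + 3 * (a * s) * (s * β + y) + (s * β + y) ^ 2) * 4 := by ring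
          rw [e]
          exact dvd_sub (h5'.mul_right _) ((hqq.trans k).mul_right _)
        rcases hqp.dvd_or_dvd h6 with h7 | h7
        · exact h50 h7
        · rcases hqp.dvd_or_dvd (hqp.dvd_of_dvd_pow h7) with h8 | h8
          · exact ha0 h8
          · exact hs0 h8
      have hc : IsCoprime ((q : ℤ) ^ 2) ((s * β + y) + (s * β' + y) + 3 * (a * s)) :=
        (hqp.irreducible.coprime_iff_not_dvd.2 h3).pow_left
      exact absurd (hc.dvd_of_dvd_mul_right h2) (inj β β' h h' hne)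
    · have hc : IsCoprime ((q : ℤ) ^ 2) ((β : ℤ) - β') := (hqp.irreducible.coprime_iff_not_dvd.2 hd).pow_left
      exact hc.dvd_of_dvd_mul_left h2
  have s12 := step b₁ b₂ h₁.1 h₂.1 h12 k₁ k₂
  have s13 := step b₁ b₃ h₁.1 h₃.1 h13 k₁ k₃
  have h9 : (q : ℤ) ^ 2 ∣ s * ((b₂ : ℤ) - b₃) := by
    have e : s * ((b₂ : ℤ) - b₃) = ((s * b₁ + y) + (s * b₂ + y) + 3 * (a * s)) -
        ((s * b₁ + y) + (s * b₃ + y) + 3 * (a * s)) := by ring
    rw [e]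
    exact dvd_sub s12 s13
  exact inj b₂ b₃ h₂.1 h₃.1 h23 (hcs.dvd_of_dvd_mul_left h9)

/-- the bad residues modulo `M = q²` -/
private def SqE_bad (a q x y : ℕ) : Finset (ℕ × ℕ) :=
  (range (q ^ 2)).biUnion (fun γ => ((range (q ^ 2)).filter (fun β : ℕ =>
    ((q ^ 2 : ℕ) : ℤ) ∣ nm ((x : ℤ) * (a : ℤ) ^ 2 + y * a * γ, (x : ℤ) * a * β + y * (1 + β * γ)))).image (fun β => (β, γ)))

private theorem SqE_bad_card (a q x y : ℕ) (hq : q.Prime) (h5 : 5 < q) (hqa : ¬ q ∣ a) (hx0 : 0 < x) (hx : x < q)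
    (hy : y < q) : (SqE_bad a q x y).card ≤ 2 * q ^ 2 := by
  unfold SqE_bad
  refine card_biUnion_le.trans ?_
  refine (sum_le_card_nsmul _ _ 2 ?_).trans ?_
  · intro γ _
    exact card_image_le.trans (SqE_two a q x y γ hq h5 hqa hx0 hx hy)
  · rw [card_range, smul_eq_mul, mul_comm]

private theorem SqE_mem (a b c q x y : ℕ) (hq : 0 < q) (hd : a ∣ 1 + b * c)
    (h : ((q ^ 2 : ℕ) : ℤ) ∣ nm (zv a b c x y)) : (b % q ^ 2, c % q ^ 2) ∈ SqE_bad a q x y := by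
  have hq2 : 0 < q ^ 2 := by positivity
  have hae : a * ((1 + b * c) / a) = 1 + b * c := Nat.mul_div_cancel' hd
  have hae' : (a : ZMod (q ^ 2)) * (((1 + b * c) / a : ℕ) : ZMod (q ^ 2)) = 1 + b * c := by
    have := congrArg (fun n : ℕ => (n : ZMod (q ^ 2))) hae
    push_cast at this
    exact this
  unfold SqE_bad
  rw [mem_biUnion]
  refine ⟨c % q ^ 2, mem_range.mpr (Nat.mod_lt _ hq2), ?_⟩
  rw [mem_image]
  refine ⟨b % q ^ 2, mem_filter.mpr ⟨mem_range.mpr (Nat.mod_lt _ hq2), ?_⟩, rfl⟩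
  rw [← ZMod.intCast_zmod_eq_zero_iff_dvd] at h ⊢
  have e : ((nm ((x : ℤ) * (a : ℤ) ^ 2 + y * a * (((c % q ^ 2 : ℕ)) : ℤ),
    (x : ℤ) * a * ((b % q ^ 2 : ℕ) : ℤ) + y * (1 + ((b % q ^ 2 : ℕ) : ℤ) * ((c % q ^ 2 : ℕ) : ℤ))) : ℤ) : ZMod (q ^ 2))
    = (a : ZMod (q ^ 2)) ^ 2 * ((nm (zv a b c x y) : ℤ) : ZMod (q ^ 2)) := by
    unfold nm zv fv
    simp only [Prod.smul_mk, Prod.mk_add_mk, smul_eq_mul, Int.cast_add, Int.cast_mul, Int.cast_pow, Int.cast_natCast, ZMod.natCast_mod,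
      Int.cast_one, Int.cast_ofNat]
    generalize (((1 + b * c) / a : ℕ) : ZMod (q ^ 2)) = e at hae' ⊢
    linear_combination (-(3 * (y : ZMod (q ^ 2)) * a * (x * a + y * c)) - 2 * (x : ZMod (q ^ 2)) * y * a * b
      - (y : ZMod (q ^ 2)) ^ 2 * ((1 + b * c) + a * e)) * hae'
  rw [e, h, mul_zero]

open Classical in
theorem sq_count {n : ℕ} (y : V n → ℕ) (a G B q : ℕ) (v : V n) (ha : a.Prime) (hG : 0 < G) (hGa : G < a)
    (hq : q.Prime) (h5 : 5 < q) (hqa : q < a) (hqG : ¬ q ∣ G) (hy : y v < q) :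
    (((Fam a G B).filter (fun x => ((q ^ 2 : ℕ) : ℤ) ∣ nm (Xv y a x.1 x.2 v))).card : ℝ) ≤
      2 * a / (q : ℝ) ^ 2 + 2 * (q : ℝ) ^ 2 * (3 * √a * (3 + Real.log a) ^ 2) := by
  have : Fact a.Prime := ⟨ha⟩
  have hq0 : 0 < q := hq.pos
  have hxc : 0 < xc v.1 ∧ xc v.1 < q := by
    unfold xc
    split_ifs <;> constructor <;> omega
  have hqa' : ¬ q ∣ a := by
    intro h
    rcases (Nat.dvd_prime ha).1 h with h1 | h1
    · exact hq.one_lt.ne' h1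
    · omega
  have hcop : Nat.Coprime G (q ^ 2) := by
    apply Nat.Coprime.pow_right
    exact ((Nat.Prime.coprime_iff_not_dvd hq).2 hqG).symm
  have hD : 0 < G * q ^ 2 := by positivity
  have hcD : Nat.Coprime (G * q ^ 2) a := by
    apply Nat.Coprime.mul_left
    · exact ((Nat.Prime.coprime_iff_not_dvd ha).2 (Nat.not_dvd_of_pos_of_lt hG hGa)).symm
    · apply Nat.Coprime.pow_left
      exact (Nat.Prime.coprime_iff_not_dvd hq).2 hqa'
  set K : ℝ := (a : ℝ) / ((G * q ^ 2 : ℕ) : ℝ) ^ 2 + 3 * √a * (3 + Real.log a) ^ 2 with hK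
  -- the classes
  have hcls : ∀ s : ℕ × ℕ, (((Fam a G B).filter (fun x => x.1 % q ^ 2 = s.1 ∧ x.2 % q ^ 2 = s.2)).card : ℝ) ≤ K := by
    intro s
    obtain ⟨β, hβ1, hβ2⟩ := Nat.chineseRemainder hcop B s.1
    obtain ⟨γ, hγ1, hγ2⟩ := Nat.chineseRemainder hcop 0 s.2
    have hk := kl_count a (G * q ^ 2) β γ hD hcD
    have h1 : (Fam a G B).filter (fun x => x.1 % q ^ 2 = s.1 ∧ x.2 % q ^ 2 = s.2) ⊆
        (range a ×ˢ range a).filter
          (fun x => a ∣ 1 + x.1 * x.2 ∧ x.1 ≡ β [MOD G * q ^ 2] ∧ x.2 ≡ γ [MOD G * q ^ 2]) := by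
      intro x hx
      rw [mem_filter] at hx
      obtain ⟨hx1, hx2, hx3⟩ := hx
      unfold Fam at hx1
      rw [mem_filter] at hx1 ⊢
      obtain ⟨hx1, hx4, hx5, hx6⟩ := hx1
      refine ⟨hx1, hx4, ?_, ?_⟩
      · rw [← Nat.modEq_and_modEq_iff_modEq_mul hcop]
        refine ⟨hx5.trans hβ1.symm, Nat.ModEq.trans ?_ hβ2.symm⟩
        rw [← hx2]
        exact (Nat.mod_modEq _ _).symm
      · rw [← Nat.modEq_and_modEq_iff_modEq_mul hcop]
        refine ⟨hx6.trans hγ1.symm, Nat.ModEq.trans ?_ hγ2.symm⟩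
        rw [← hx3]
        exact (Nat.mod_modEq _ _).symm
    have h2 : (((Fam a G B).filter (fun x => x.1 % q ^ 2 = s.1 ∧ x.2 % q ^ 2 = s.2)).card : ℝ) ≤
        (((range a ×ˢ range a).filter
          (fun x => a ∣ 1 + x.1 * x.2 ∧ x.1 ≡ β [MOD G * q ^ 2] ∧ x.2 ≡ γ [MOD G * q ^ 2])).card : ℝ) := by
      exact_mod_cast card_le_card h1
    refine h2.trans ?_
    have h3 := (abs_le.1 hk).2
    rw [hK]
    linarith
  have hsub : (Fam a G B).filter (fun x => ((q ^ 2 : ℕ) : ℤ) ∣ nm (Xv y a x.1 x.2 v)) ⊆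
      (SqE_bad a q (xc v.1) (y v)).biUnion (fun s => (Fam a G B).filter (fun x => x.1 % q ^ 2 = s.1 ∧ x.2 % q ^ 2 = s.2)) := by
    intro x hx
    rw [mem_filter] at hx
    obtain ⟨hx1, hx2⟩ := hx
    rw [mem_biUnion]
    refine ⟨(x.1 % q ^ 2, x.2 % q ^ 2), ?_, mem_filter.mpr ⟨hx1, rfl, rfl⟩⟩
    unfold Fam at hx1
    rw [mem_filter] at hx1
    exact SqE_mem a x.1 x.2 q (xc v.1) (y v) hq0 hx1.2.1 hx2
  have hK0 : 0 ≤ K := by
    rw [hK]
    positivity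
  have h4 : (((Fam a G B).filter (fun x => ((q ^ 2 : ℕ) : ℤ) ∣ nm (Xv y a x.1 x.2 v))).card : ℝ) ≤
      ∑ s ∈ SqE_bad a q (xc v.1) (y v),
        (((Fam a G B).filter (fun x => x.1 % q ^ 2 = s.1 ∧ x.2 % q ^ 2 = s.2)).card : ℝ) := by
    exact_mod_cast (card_le_card hsub).trans card_biUnion_le
  have h5' : ∑ s ∈ SqE_bad a q (xc v.1) (y v),
        (((Fam a G B).filter (fun x => x.1 % q ^ 2 = s.1 ∧ x.2 % q ^ 2 = s.2)).card : ℝ) ≤
      (SqE_bad a q (xc v.1) (y v)).card * K := by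
    refine (sum_le_card_nsmul _ _ K (fun s _ => hcls s)).trans ?_
    rw [nsmul_eq_mul]
  have h6 : ((SqE_bad a q (xc v.1) (y v)).card : ℝ) ≤ 2 * (q : ℝ) ^ 2 := by
    exact_mod_cast SqE_bad_card a q (xc v.1) (y v) hq h5 hqa' hxc.1 hxc.2 hy
  have hqr : (1 : ℝ) ≤ q := by exact_mod_cast hq.one_lt.le
  have hGr : (1 : ℝ) ≤ G := by exact_mod_cast hG
  calc (((Fam a G B).filter (fun x => ((q ^ 2 : ℕ) : ℤ) ∣ nm (Xv y a x.1 x.2 v))).card : ℝ)
      ≤ (SqE_bad a q (xc v.1) (y v)).card * K := h4.trans h5'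
    _ ≤ 2 * (q : ℝ) ^ 2 * K := by gcongr
    _ = 2 * (q : ℝ) ^ 2 * ((a : ℝ) / ((G * q ^ 2 : ℕ) : ℝ) ^ 2) + 2 * (q : ℝ) ^ 2 * (3 * √a * (3 + Real.log a) ^ 2) := by
        rw [hK]
        ring
    _ ≤ 2 * a / (q : ℝ) ^ 2 + 2 * (q : ℝ) ^ 2 * (3 * √a * (3 + Real.log a) ^ 2) := by
        have h7 : 2 * (q : ℝ) ^ 2 * ((a : ℝ) / ((G * q ^ 2 : ℕ) : ℝ) ^ 2) ≤ 2 * a / (q : ℝ) ^ 2 := by
          push_cast
          have e : 2 * (q : ℝ) ^ 2 * ((a : ℝ) / ((G : ℝ) * (q : ℝ) ^ 2) ^ 2) = 2 * a / (q : ℝ) ^ 2 / (G : ℝ) ^ 2 := by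
            field_simp
          rw [e]
          apply div_le_self (by positivity)
          nlinarith
        linarith

end Pool.Agent.Lib.MP_d57abb_nt.EE
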