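import Mathlib
import Pool.Agent.Lib.MP_d57abb_nt.Ev.SzV
import Pool.Agent.Lib.MP_d57abb_nt.EE.SfE
import Pool.Agent.Lib.MP_d57abb_nt.EE.SqE
import Pool.Agent.Lib.MP_d57abb_nt.EE.MerE

/-!
# JOB MnE: the mean value of the number of large prime factors

PROOF.  `K' = C₂ n` (`sift_bounds`) - take `K' = max (C₂ n) 16`-like if convenient.  `a ≥ a₀` large, `z^K' ≤ a ≤ z^(2 K')`, so `z ≥ a^(1/(2K'))` is large too, `z ≥ w`, `z > 5`, `z >` all prime factors of `G` and all `y v`.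
Lower bound: `|SiftE| ≥ (1/4)(a/G²) / (2 + log z)^C ≥ a / (log a)^(C+1)`.
Let `N_v(x) = (nm (Xv y a x.1 x.2 v)).natAbs`; `0 < N_v ≤ a³` for large `a` (coordinates at most `2 a + y v a`, `sizeV` in `Ev/SzV.lean` with `X = w`, `max a b = a`: `nm ≤ 5 (w+2)² a²`; `b ≥ 1` since `a ∣ 1 + b c`, `a ≥ 2`).  `T = ` the largest natural number with `T^16 ≤ a`.
`bOm z N_v = ∑_{p > z} v_p(N_v) ≤ S₁ + S₂ + S₃`: `S₁ = #{primes ℓ ∈ (z, T] : ℓ ∣ N_v}`; `S₂ = ∑_{ℓ ∈ (z,T], ℓ² ∣ N_v} v_ℓ(N_v)`; `S₃ = ∑_{p > T} v_p(N_v) ≤ 48 + ..`: `(T+1)^{S₃} ≤ N_v ≤ a³ < (T+1)^{48}`, so `S₃ < 48`.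
`∑_x S₁ = ∑_ℓ #{x ∈ SiftE : ℓ ∣ N_v(x)} ≤ ∑_{ℓ ∈ (z,T]} (4 (a/G²) Π / ℓ + a^(3/4)) ≤ 16 |SiftE| ∑_{z<ℓ≤T} 1/ℓ + T a^(3/4)` (`4 (a/G²) Π ≤ 16 |SiftE|`), and `T a^(3/4) ≤ a^(13/16) ≤ |SiftE|` for large `a`.
`∑ 1/ℓ ≤ C J` by `recip_range` with `J = Nat.clog 2 (2 K')`-like: `T ≤ a ≤ z^(2K') ≤ z^(2^J)`; `J ≤ log (2 K') / log 2 + 1 ≤ C' (1 + log n)` because `K' = C₂ n` with an ABSOLUTE constant `C₂`.
`∑_x S₂ ≤ ∑_{ℓ ∈ (z,T]} (2 a/ℓ² + 2 ℓ² 3 √a (3 + log a)²) (log (a³) / log 2)`: `v_ℓ(N_v) ≤ log (a³) / log 2`; `∑_{ℓ>z} 2a/ℓ² ≤ 2 a / z`, `z ≥ a^(1/(2K'))`, so it is `≤ |SiftE|` for large `a`.  (`sq_count`; it bounds the elements of `Fam ⊇ SiftE`.)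
Total over the `3 n` vertices: `≤ 3 n (16 C J + 1 + 1 + 48) |SiftE| ≤ C₃ n (1 + log n) |SiftE|`, `C₃` absolute.
-/

open Finset

namespace Pool.Agent.Lib.MP_d57abb_nt.EE

open Pool.Agent.Lib.MP_d57abb_nt Pool.Agent.Lib.MP_d57abb_nt.All Pool.Agent.Lib.MP_d57abb_nt.AP
  Pool.Agent.Lib.MP_d57abb_nt.Ev

private theorem MnE_ev (k : ℕ) (c ε : ℝ) (hε : 0 < ε) :
    ∀ᶠ a : ℕ in Filter.atTop, c * Real.log a ^ k ≤ (a : ℝ) ^ ε := by
  have h1 : (fun x : ℝ => c * Real.log x ^ (k : ℝ)) =o[Filter.atTop] fun x => x ^ ε :=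
    (isLittleO_log_rpow_rpow_atTop (k : ℝ) hε).const_mul_left c
  have h2 := h1.bound one_pos
  have h3 := (tendsto_natCast_atTop_atTop (R := ℝ)).eventually h2
  filter_upwards [h3] with a ha
  rw [Real.rpow_natCast, one_mul, Real.norm_of_nonneg (Real.rpow_nonneg (Nat.cast_nonneg a) _)] at ha
  exact (le_abs_self _).trans ha

private theorem MnE_root (a : ℕ) (ha : 1 ≤ a) : ∃ T : ℕ, 1 ≤ T ∧ T ^ 16 ≤ a ∧ a < (T + 1) ^ 16 := by
  have hex : ∃ t : ℕ, a < t ^ 16 := ⟨a + 1, by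
    calc a < a + 1 := Nat.lt_succ_self a
      _ ≤ (a + 1) ^ 16 := Nat.le_self_pow (by norm_num) _⟩
  obtain ⟨t, ht1, ht2⟩ : ∃ t : ℕ, a < t ^ 16 ∧ ∀ m < t, ¬ a < m ^ 16 :=
    ⟨Nat.find hex, Nat.find_spec hex, fun m hm => Nat.find_min hex hm⟩
  have h2 : 2 ≤ t := by
    by_contra h
    have h3 : t = 0 ∨ t = 1 := by omega
    rcases h3 with h3 | h3
    · rw [h3] at ht1
      simp at ht1
    · rw [h3] at ht1
      simp at ht1
      omega
  refine ⟨t - 1, by omega, not_lt.1 (ht2 (t - 1) (by omega)), ?_⟩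
  rwa [Nat.sub_add_cancel (by omega)]

/-- the part of the large prime factors -/
private theorem MnE_large (T m a : ℕ) (hm : 0 < m) (hma : m ≤ a ^ 3) (hT : a < (T + 1) ^ 16) (hT1 : 1 ≤ T) :
    ∑ p ∈ m.primeFactors.filter (fun p => T < p), m.factorization p ≤ 48 := by
  have h1 : (T + 1) ^ (∑ p ∈ m.primeFactors.filter (fun p => T < p), m.factorization p) ≤ m := by
    rw [← Finset.prod_pow_eq_pow_sum]
    calc ∏ p ∈ m.primeFactors.filter (fun p => T < p), (T + 1) ^ m.factorization p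
        ≤ ∏ p ∈ m.primeFactors.filter (fun p => T < p), p ^ m.factorization p := by
          refine Finset.prod_le_prod' fun p hp => ?_
          exact Nat.pow_le_pow_left (Finset.mem_filter.1 hp).2 _
      _ ≤ ∏ p ∈ m.primeFactors, p ^ m.factorization p := by
          refine Finset.prod_le_prod_of_subset_of_one_le' (Finset.filter_subset _ _) fun p hp _ => ?_
          exact Nat.one_le_pow _ _ (Nat.prime_of_mem_primeFactors hp).pos
      _ = m := by
          have h2 := Nat.prod_factorization_pow_eq_self hm.ne'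
          rwa [Finsupp.prod, Nat.support_factorization] at h2
  have h2 : (T + 1) ^ (∑ p ∈ m.primeFactors.filter (fun p => T < p), m.factorization p) ≤ (T + 1) ^ 48 := by
    refine h1.trans (hma.trans ?_)
    calc a ^ 3 ≤ ((T + 1) ^ 16) ^ 3 := Nat.pow_le_pow_left hT.le 3
      _ = (T + 1) ^ 48 := by rw [← pow_mul]
  exact (Nat.pow_le_pow_iff_right (by omega)).1 h2

private theorem MnE_fac (z T m a : ℕ) (hm : 0 < m) (hma : m ≤ a ^ 3) (hT : a < (T + 1) ^ 16)
    (hT1 : 1 ≤ T) :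
    (bOm z m : ℝ) ≤ ∑ l ∈ (Ioc z T).filter Nat.Prime,
      ((if l ∣ m then (1 : ℝ) else 0) + (if l ^ 2 ∣ m then 5 * Real.log a else 0)) + 48 := by
  have hlog : 0 ≤ Real.log a := Real.log_natCast_nonneg a
  have h1 : bOm z m ≤ ∑ p ∈ m.primeFactors.filter (fun p => z < p ∧ p ≤ T), m.factorization p +
      ∑ p ∈ m.primeFactors.filter (fun p => T < p), m.factorization p := by
    unfold bOm
    rw [Finset.sum_filter, Finset.sum_filter, Finset.sum_filter, ← Finset.sum_add_distrib]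
    refine Finset.sum_le_sum fun p _ => ?_
    by_cases h1 : z < p
    · rw [if_pos h1]
      by_cases h2 : p ≤ T
      · rw [if_pos ⟨h1, h2⟩]
        exact Nat.le_add_right _ _
      · rw [if_pos (not_le.1 h2)]
        exact Nat.le_add_left _ _
    · rw [if_neg h1]
      exact Nat.zero_le _
  have h2 := MnE_large T m a hm hma hT hT1
  have h3 : ((∑ p ∈ m.primeFactors.filter (fun p => z < p ∧ p ≤ T), m.factorization p : ℕ) : ℝ) ≤
      ∑ l ∈ (Ioc z T).filter Nat.Prime,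
      ((if l ∣ m then (1 : ℝ) else 0) + (if l ^ 2 ∣ m then 5 * Real.log a else 0)) := by
    rw [Nat.cast_sum]
    have h4 : m.primeFactors.filter (fun p => z < p ∧ p ≤ T) ⊆ (Ioc z T).filter Nat.Prime := by
      intro p hp
      rw [Finset.mem_filter] at hp
      rw [Finset.mem_filter, Finset.mem_Ioc]
      exact ⟨hp.2, Nat.prime_of_mem_primeFactors hp.1⟩
    refine le_trans (Finset.sum_le_sum fun p hp => ?_) (Finset.sum_le_sum_of_subset_of_nonneg h4 fun p _ _ => ?_)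
    · rw [Finset.mem_filter] at hp
      have hpp := Nat.prime_of_mem_primeFactors hp.1
      have hpd := Nat.dvd_of_mem_primeFactors hp.1
      rw [if_pos hpd]
      by_cases h5 : p ^ 2 ∣ m
      · rw [if_pos h5]
        have h6 : 2 ^ m.factorization p ≤ a ^ 3 := by
          calc 2 ^ m.factorization p ≤ p ^ m.factorization p := Nat.pow_le_pow_left hpp.two_le _
            _ ≤ m := Nat.le_of_dvd hm (Nat.ordProj_dvd m p)
            _ ≤ a ^ 3 := hma
        have h7 : ((2 : ℝ)) ^ m.factorization p ≤ (a : ℝ) ^ 3 := by exact_mod_cast h6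
        have h8 := Real.log_le_log (by positivity) h7
        rw [Real.log_pow, Real.log_pow] at h8
        have h9 := Real.log_two_gt_d9
        have h10 : (0 : ℝ) ≤ (m.factorization p : ℝ) := Nat.cast_nonneg _
        push_cast at h8
        have h11 := mul_le_mul_of_nonneg_left (by linarith : (3 : ℝ) / 5 ≤ Real.log 2) h10
        linarith
      · rw [if_neg h5]
        have h6 : m.factorization p ≤ 1 := by
          by_contra h7
          exact h5 ((pow_dvd_pow p (by omega : 2 ≤ m.factorization p)).trans (Nat.ordProj_dvd m p))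
        have h7 : (m.factorization p : ℝ) ≤ 1 := by exact_mod_cast h6
        linarith
    · positivity
  have h5 : (bOm z m : ℝ) ≤ ((∑ p ∈ m.primeFactors.filter (fun p => z < p ∧ p ≤ T), m.factorization p : ℕ) : ℝ) +
      ((∑ p ∈ m.primeFactors.filter (fun p => T < p), m.factorization p : ℕ) : ℝ) := by exact_mod_cast h1
  have h6 : ((∑ p ∈ m.primeFactors.filter (fun p => T < p), m.factorization p : ℕ) : ℝ) ≤ 48 := by exact_mod_cast h2
  linarith

private theorem MnE_sq (z T : ℕ) (hz : 1 ≤ z) : ∑ l ∈ (Ioc z T).filter Nat.Prime, 1 / (l : ℝ) ^ 2 ≤ 1 / (z : ℝ) := by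
  have h1 : ∑ l ∈ (Ioc z T).filter Nat.Prime, 1 / (l : ℝ) ^ 2 ≤ ∑ l ∈ Ioc z T, ((l : ℝ) ^ 2)⁻¹ := by
    refine (Finset.sum_le_sum_of_subset_of_nonneg (Finset.filter_subset _ _) fun _ _ _ => by positivity).trans
      (le_of_eq (Finset.sum_congr rfl fun l _ => one_div _))
  refine h1.trans ?_
  rcases le_or_gt z T with h | h
  · refine (sum_Ioc_inv_sq_le_sub (α := ℝ) (by omega) h).trans ?_
    rw [one_div]
    have : (0 : ℝ) ≤ (T : ℝ)⁻¹ := by positivity
    linarith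
  · rw [Finset.Ioc_eq_empty (by omega), Finset.sum_empty]
    positivity

/-- the sum for one vertex -/
private theorem MnE_one {α : Type*} (S : Finset α) (N : α → ℕ) (z T a J : ℕ) (Q R₁ R₂ CM : ℝ) (hz : 1 ≤ z)
    (hN : ∀ x ∈ S, 0 < N x ∧ N x ≤ a ^ 3) (hT1 : 1 ≤ T) (hT : a < (T + 1) ^ 16) (hR₁ : 0 ≤ R₁) (hR₂ : 0 ≤ R₂)
    (hQ : 0 ≤ Q) (hCM : ∑ p ∈ (Ioc z T).filter Nat.Prime, (1 : ℝ) / p ≤ CM * J)
    (h1 : ∀ l ∈ (Ioc z T).filter Nat.Prime, ((S.filter fun x => l ∣ N x).card : ℝ) ≤ Q / l + R₁)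
    (h2 : ∀ l ∈ (Ioc z T).filter Nat.Prime, ((S.filter fun x => l ^ 2 ∣ N x).card : ℝ) ≤
      2 * a / (l : ℝ) ^ 2 + 2 * (l : ℝ) ^ 2 * R₂) :
    ∑ x ∈ S, (bOm z (N x) : ℝ) ≤ Q * (CM * J) + T * R₁ + 5 * Real.log a * (2 * a / z + 2 * (T : ℝ) ^ 3 * R₂) +
      48 * S.card := by
  have hlog : 0 ≤ Real.log a := Real.log_natCast_nonneg a
  have e1 : ∑ x ∈ S, (bOm z (N x) : ℝ) ≤ ∑ x ∈ S, (∑ l ∈ (Ioc z T).filter Nat.Prime,
      ((if l ∣ N x then (1 : ℝ) else 0) + (if l ^ 2 ∣ N x then 5 * Real.log a else 0)) + 48) :=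
    Finset.sum_le_sum fun x hx => MnE_fac z T (N x) a (hN x hx).1 (hN x hx).2 hT hT1
  refine e1.trans ?_
  rw [Finset.sum_add_distrib, Finset.sum_const, nsmul_eq_mul, Finset.sum_comm]
  have e2 : ∀ l ∈ (Ioc z T).filter Nat.Prime, ∑ x ∈ S, ((if l ∣ N x then (1 : ℝ) else 0) +
      (if l ^ 2 ∣ N x then 5 * Real.log a else 0)) ≤
      Q * (1 / l) + R₁ + 5 * Real.log a * (2 * a * (1 / (l : ℝ) ^ 2) + 2 * (T : ℝ) ^ 2 * R₂) := by
    intro l hl
    have g1 := h1 l hl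
    have g2 := h2 l hl
    have hlT : l ≤ T := by
      rw [Finset.mem_filter, Finset.mem_Ioc] at hl
      exact hl.1.2
    have hlT' : (l : ℝ) ≤ T := by exact_mod_cast hlT
    rw [Finset.sum_add_distrib, ← Finset.sum_filter, ← Finset.sum_filter, Finset.sum_const, Finset.sum_const,
      nsmul_eq_mul, nsmul_eq_mul, mul_one]
    have g3 : (l : ℝ) ^ 2 ≤ (T : ℝ) ^ 2 := pow_le_pow_left₀ (Nat.cast_nonneg _) hlT' 2
    have g4 : 2 * (l : ℝ) ^ 2 * R₂ ≤ 2 * (T : ℝ) ^ 2 * R₂ :=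
      mul_le_mul_of_nonneg_right (by linarith) hR₂
    have g5 : ((S.filter fun x => l ^ 2 ∣ N x).card : ℝ) * (5 * Real.log a) ≤
        (2 * a / (l : ℝ) ^ 2 + 2 * (T : ℝ) ^ 2 * R₂) * (5 * Real.log a) :=
      mul_le_mul_of_nonneg_right (by linarith) (by positivity)
    rw [mul_one_div, mul_one_div]
    linarith
  refine (add_le_add_left (Finset.sum_le_sum e2) _).trans ?_
  rw [Finset.sum_add_distrib, Finset.sum_add_distrib, ← Finset.mul_sum, Finset.sum_const, ← Finset.mul_sum,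
    Finset.sum_add_distrib, ← Finset.mul_sum, Finset.sum_const, nsmul_eq_mul, nsmul_eq_mul]
  have hcard : (((Ioc z T).filter Nat.Prime).card : ℝ) ≤ T := by
    have : ((Ioc z T).filter Nat.Prime).card ≤ T := by
      refine (Finset.card_filter_le _ _).trans ?_
      rw [Nat.card_Ioc]
      omega
    exact_mod_cast this
  have e3 := mul_le_mul_of_nonneg_left hCM hQ
  have e4 := mul_le_mul_of_nonneg_right hcard hR₁
  have e5 : 2 * (a : ℝ) * ∑ l ∈ (Ioc z T).filter Nat.Prime, 1 / (l : ℝ) ^ 2 ≤ 2 * a / z := by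
    have := mul_le_mul_of_nonneg_left (MnE_sq z T hz) (by positivity : (0 : ℝ) ≤ 2 * a)
    rwa [mul_one_div] at this
  have e6 : (((Ioc z T).filter Nat.Prime).card : ℝ) * (2 * (T : ℝ) ^ 2 * R₂) ≤ 2 * (T : ℝ) ^ 3 * R₂ := by
    have := mul_le_mul_of_nonneg_right hcard (by positivity : (0 : ℝ) ≤ 2 * (T : ℝ) ^ 2 * R₂)
    refine this.trans (le_of_eq ?_)
    ring
  have e7 := mul_le_mul_of_nonneg_left (add_le_add e5 e6) (by positivity : (0 : ℝ) ≤ 5 * Real.log a)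
  linarith

theorem mean : ∃ C₃ : ℝ, 0 < C₃ ∧ ∀ n : ℕ, 1 ≤ n → ∃ K' C : ℕ, 0 < K' ∧ ∀ (y : V n → ℕ) (w G B : ℕ), 24 * n ≤ w →
    (∀ v, y v ≤ w) → 0 < G → (∀ q : ℕ, q.Prime → q ∣ G → q ≤ w) →
    ∃ a₀ : ℕ, ∀ a z : ℕ, a₀ ≤ a → a.Prime → z ^ K' ≤ a → a ≤ z ^ (2 * K') →
      (a : ℝ) / Real.log a ^ C ≤ ((SiftE y a G B w z).card : ℝ) ∧
      ∑ x ∈ SiftE y a G B w z, ∑ v : V n, (bOm z (nm (Xv y a x.1 x.2 v)).natAbs : ℝ) ≤
        C₃ * n * (1 + Real.log n) * ((SiftE y a G B w z).card : ℝ) := by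
  classical
  obtain ⟨C₂, hC₂, hsift⟩ := sift_bounds
  obtain ⟨CM, hCM, hrec⟩ := recip_range
  have hlog2 := Real.log_two_gt_d9
  have hLC : 0 ≤ Real.log (2 * C₂ : ℕ) := Real.log_natCast_nonneg _
  refine ⟨3 * (16 * CM * (3 + 2 * Real.log (2 * C₂ : ℕ)) + 50), by positivity, fun n hn => ?_⟩
  obtain ⟨C, hsift'⟩ := hsift n hn
  refine ⟨C₂ * n, C + 1, by positivity, fun y w G B hw hy hG hGq => ?_⟩
  obtain ⟨a₁, hs⟩ := hsift' y w G B hw hy hG hGq
  set K' : ℕ := C₂ * n with hK'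
  have hK0 : 0 < K' := by positivity
  have hK0' : (0 : ℝ) < ((2 * K' : ℕ) : ℝ) := by positivity
  -- the asymptotic conditions
  have hev : ∀ᶠ a : ℕ in Filter.atTop, 1 * Real.log a ^ (C + 1) ≤ (a : ℝ) ^ ((3 : ℝ) / 16) ∧
      20 * Real.log a ^ (C + 2) ≤ (a : ℝ) ^ (1 / ((2 * K' : ℕ) : ℝ)) ∧
      240 * Real.log a ^ (C + 4) ≤ (a : ℝ) ^ ((5 : ℝ) / 16) ∧
      (3 + 4 * (G : ℝ) ^ 2 * 2 ^ C ≤ Real.log a ∧ (5 * (w + 2) ^ 2 + G + 2 + (w + 6) ^ (2 * K')) ≤ a) := by
    have hl : Filter.Tendsto (fun a : ℕ => Real.log (a : ℝ)) Filter.atTop Filter.atTop :=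
      Real.tendsto_log_atTop.comp (tendsto_natCast_atTop_atTop (R := ℝ))
    exact (MnE_ev (C + 1) 1 _ (by norm_num)).and ((MnE_ev (C + 2) 20 _ (by positivity)).and
      ((MnE_ev (C + 4) 240 _ (by norm_num)).and
        ((hl.eventually (Filter.eventually_ge_atTop _)).and (Filter.eventually_ge_atTop _))))
  obtain ⟨a₂, ha₂⟩ := Filter.eventually_atTop.1 hev
  refine ⟨max a₁ a₂, fun a z ha hap hz1 hz2 => ?_⟩
  obtain ⟨v1, v2, v3, v4, v5⟩ := ha₂ a ((le_max_right _ _).trans ha)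
  have ha1 : 1 ≤ a := hap.one_lt.le
  have haR : (1 : ℝ) ≤ (a : ℝ) := by exact_mod_cast ha1
  have haR0 : (0 : ℝ) < (a : ℝ) := by linarith
  have hGR : (1 : ℝ) ≤ (G : ℝ) := by exact_mod_cast hG
  have hL3 : 3 ≤ Real.log a := by
    have : 0 ≤ 4 * (G : ℝ) ^ 2 * 2 ^ C := by positivity
    linarith
  have hL0 : 0 < Real.log a := by linarith
  -- z is large
  have hzw : w + 6 ≤ z := by
    by_contra h
    have h1 : z ^ (2 * K') < (w + 6) ^ (2 * K') := Nat.pow_lt_pow_left (not_le.1 h) (by omega)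
    omega
  have hz0 : 1 ≤ z := by omega
  have hza : z ≤ a := (Nat.le_self_pow hK0.ne' z).trans hz1
  have hzR : (1 : ℝ) ≤ (z : ℝ) := by exact_mod_cast hz0
  have hzR0 : (0 : ℝ) < (z : ℝ) := by linarith
  have hzaR : (z : ℝ) ≤ a := by exact_mod_cast hza
  have hzroot : (a : ℝ) ^ (1 / ((2 * K' : ℕ) : ℝ)) ≤ z := by
    have h1 : (a : ℝ) ≤ (z : ℝ) ^ (2 * K') := by exact_mod_cast hz2
    have h2 := Real.rpow_le_rpow haR0.le h1 (by positivity : 0 ≤ 1 / ((2 * K' : ℕ) : ℝ))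
    rw [one_div, Real.pow_rpow_inv_natCast hzR0.le (by omega)] at h2
    rw [one_div]
    exact h2
  obtain ⟨P, hP1, hP2, hP3, hP4⟩ := hs a z ((le_max_left _ _).trans ha) hap (by omega) (by omega) hz1
  set S := SiftE y a G B w z with hS
  have hlz : 0 ≤ Real.log z := Real.log_natCast_nonneg z
  have hPpos : 0 < P := lt_of_lt_of_le (by positivity) hP1
  -- lower bound
  have hlow : (a : ℝ) / Real.log a ^ (C + 1) ≤ (S.card : ℝ) := by
    refine le_trans ?_ hP3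
    have h1 : 2 + Real.log z ≤ 2 * Real.log a := by
      have := Real.log_le_log hzR0 hzaR
      linarith
    have h2 : (2 + Real.log z) ^ C ≤ 2 ^ C * Real.log a ^ C := by
      rw [← mul_pow]
      exact pow_le_pow_left₀ (by positivity) h1 C
    have h3 : 1 / (2 ^ C * Real.log a ^ C) ≤ P := (one_div_le_one_div_of_le (by positivity) h2).trans hP1
    have h4 : 1 / 4 * ((a : ℝ) / (G : ℝ) ^ 2) * (1 / (2 ^ C * Real.log a ^ C)) ≤ 1 / 4 * ((a : ℝ) / (G : ℝ) ^ 2) * P :=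
      mul_le_mul_of_nonneg_left h3 (by positivity)
    refine le_trans ?_ h4
    have h5 : 1 / 4 * ((a : ℝ) / (G : ℝ) ^ 2) * (1 / (2 ^ C * Real.log a ^ C)) =
        a / (4 * (G : ℝ) ^ 2 * 2 ^ C * Real.log a ^ C) := by
      field_simp
    rw [h5]
    refine div_le_div_of_nonneg_left haR0.le (by positivity) ?_
    rw [pow_succ' (Real.log (a : ℝ)) C]
    exact mul_le_mul_of_nonneg_right (by linarith) (by positivity)
  refine ⟨hlow, ?_⟩
  obtain ⟨T, hT1, hT2, hT3⟩ := MnE_root a ha1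
  have hTR : (1 : ℝ) ≤ (T : ℝ) := by exact_mod_cast hT1
  have hTle : (T : ℝ) ≤ (a : ℝ) ^ ((1 : ℝ) / 16) := by
    have h1 : (T : ℝ) ^ 16 ≤ a := by exact_mod_cast hT2
    have h2 := Real.rpow_le_rpow (by positivity) h1 (by norm_num : (0 : ℝ) ≤ 1 / 16)
    have h3 : ((T : ℝ) ^ 16) ^ ((1 : ℝ) / 16) = T := by
      rw [← Real.rpow_natCast, ← Real.rpow_mul (by positivity)]
      norm_num
    rwa [h3] at h2
  obtain ⟨J, hJ1, hJ2⟩ : ∃ J : ℕ, T ≤ z ^ (2 ^ J) ∧ (J : ℝ) ≤ (3 + 2 * Real.log (2 * C₂ : ℕ)) * (1 + Real.log n) := by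
    refine ⟨Nat.clog 2 (2 * K'), ?_, ?_⟩
    · have h1 : 2 * K' ≤ 2 ^ Nat.clog 2 (2 * K') := Nat.le_pow_clog (by norm_num) _
      have h2 : z ^ (2 * K') ≤ z ^ (2 ^ Nat.clog 2 (2 * K')) := Nat.pow_le_pow_right hz0 h1
      have h3 : T ≤ T ^ 16 := Nat.le_self_pow (by norm_num) T
      omega
    · have h1 : 2 ^ (Nat.clog 2 (2 * K')).pred < 2 * K' := Nat.pow_pred_clog_lt_self (by norm_num) (by omega)
      have h2 : ((2 : ℝ)) ^ (Nat.clog 2 (2 * K')).pred ≤ ((2 * K' : ℕ) : ℝ) := by exact_mod_cast h1.le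
      have h3 := Real.log_le_log (by positivity) h2
      rw [Real.log_pow] at h3
      have h4 : ((2 * K' : ℕ) : ℝ) = ((2 * C₂ : ℕ) : ℝ) * n := by
        rw [hK']
        push_cast
        ring
      have hn0 : (0 : ℝ) < n := by
        have : 0 < n := hn
        exact_mod_cast this
      have hlogn : 0 ≤ Real.log (n : ℝ) := Real.log_natCast_nonneg n
      rw [h4, Real.log_mul (by positivity) hn0.ne'] at h3
      have h5 : ((Nat.clog 2 (2 * K') : ℕ) : ℝ) ≤ (Nat.clog 2 (2 * K')).pred + 1 := by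
        have : Nat.clog 2 (2 * K') ≤ (Nat.clog 2 (2 * K')).pred + 1 := by
          rw [Nat.pred_eq_sub_one]
          omega
        exact_mod_cast this
      have h6 : (0 : ℝ) ≤ ((Nat.clog 2 (2 * K')).pred : ℝ) := Nat.cast_nonneg _
      have h7 := mul_le_mul_of_nonneg_left (by linarith : (1 : ℝ) / 2 ≤ Real.log 2) h6
      have h8 : 0 ≤ Real.log (2 * C₂ : ℕ) * Real.log n := mul_nonneg hLC hlogn
      have h9 : (3 + 2 * Real.log (2 * C₂ : ℕ)) * (1 + Real.log n) =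
          3 + 3 * Real.log n + 2 * Real.log (2 * C₂ : ℕ) + 2 * (Real.log (2 * C₂ : ℕ) * Real.log n) := by ring
      rw [h9]
      linarith
  have hS0 : (0 : ℝ) ≤ (S.card : ℝ) := Nat.cast_nonneg _
  -- one vertex
  have hone : ∀ v : V n, ∑ x ∈ S, (bOm z (nm (Xv y a x.1 x.2 v)).natAbs : ℝ) ≤ (16 * CM * J + 50) * S.card := by
    intro v
    have hfam : ∀ x ∈ S, x ∈ Fam a G B := fun x hx => by
      rw [hS] at hx
      unfold SiftE at hx
      exact (Finset.mem_filter.1 hx).1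
    have h0 := MnE_one S (fun x => (nm (Xv y a x.1 x.2 v)).natAbs) z T a J (4 * ((a : ℝ) / (G : ℝ) ^ 2) * P)
      (√a * √(√a)) (3 * √a * (3 + Real.log a) ^ 2) CM hz0 (by
        intro x hx
        have hx' := hfam x hx
        unfold Fam at hx'
        rw [Finset.mem_filter, Finset.mem_product, Finset.mem_range, Finset.mem_range] at hx'
        obtain ⟨⟨hb, hc⟩, hd, -⟩ := hx'
        have hb1 : 1 ≤ x.1 := by
          rcases Nat.eq_zero_or_pos x.1 with h | h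
          · rw [h, zero_mul, add_zero] at hd
            exact absurd (Nat.dvd_one.1 hd) hap.one_lt.ne'
          · exact h
        have hxc : xc v.1 = 1 ∨ xc v.1 = 2 := by
          unfold xc
          split_ifs
          · exact Or.inr rfl
          · exact Or.inl rfl
        obtain ⟨-, -, -, -, s1, s2⟩ := sizeV a x.1 x.2 (xc v.1) (y v) w ha1 hb1 hc hxc (hy v)
        have e1 : max (a : ℤ) x.1 = a := max_eq_left (by exact_mod_cast hb.le)
        rw [e1] at s2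
        have e2 : nm (Xv y a x.1 x.2 v) = nm (zv a x.1 x.2 (xc v.1) (y v)) := rfl
        have ha' : (1 : ℤ) ≤ a := by exact_mod_cast ha1
        have hpos : 0 < nm (Xv y a x.1 x.2 v) := by
          rw [e2]
          have : (0 : ℤ) < (a : ℤ) ^ 2 := by positivity
          linarith
        refine ⟨Int.natAbs_pos.2 hpos.ne', ?_⟩
        have h5 : (5 * ((w : ℤ) + 2) ^ 2) ≤ a := by
          have : 5 * (w + 2) ^ 2 ≤ a := by
            have h6 : 5 * (w + 2) ^ 2 ≤ 5 * (w + 2) ^ 2 + G + 2 + (w + 6) ^ (2 * K') := by omega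
            exact h6.trans v5
          exact_mod_cast this
        have h6 : nm (Xv y a x.1 x.2 v) ≤ (a : ℤ) ^ 3 := by
          rw [e2]
          refine s2.trans ?_
          have h7 := mul_le_mul_of_nonneg_right h5 (by positivity : (0 : ℤ) ≤ (a : ℤ) ^ 2)
          refine h7.trans (le_of_eq ?_)
          ring
        have h8 : ((nm (Xv y a x.1 x.2 v)).natAbs : ℤ) ≤ (a : ℤ) ^ 3 := by
          rw [Int.natCast_natAbs, abs_of_pos hpos]
          exact h6
        exact_mod_cast h8) hT1 hT3 (by positivity) (by positivity) (by positivity) (hrec z T J hJ1) (by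
        intro l hl
        rw [Finset.mem_filter, Finset.mem_Ioc] at hl
        have h1 := hP4 l hl.2 hl.1.1 ((Nat.pow_le_pow_left hl.1.2 16).trans hT2) v
        refine le_trans (le_of_eq ?_) h1
        congr 2
        refine Finset.filter_congr fun x _ => ?_
        exact Int.natCast_dvd.symm) (by
        intro l hl
        rw [Finset.mem_filter, Finset.mem_Ioc] at hl
        have hla : l < a := by
          have h1 : l ≤ T := hl.1.2
          have h2 : T < a := by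
            rcases Nat.lt_or_ge T 2 with h | h
            · have := hap.two_le
              have h3 : a ≠ 2 := by
                intro h4
                rw [h4] at v5
                omega
              omega
            · have h3 : T ^ 1 < T ^ 16 := Nat.pow_lt_pow_right (by omega) (by norm_num)
              rw [pow_one] at h3
              omega
          omega
        have h1 := sq_count y a G B l v hap hG (by omega) hl.2 (by omega) hla (fun h => by
          have := hGq l hl.2 h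
          omega) (lt_of_le_of_lt (hy v) (by omega))
        refine le_trans ?_ h1
        have h2 : (S.filter fun x => l ^ 2 ∣ (nm (Xv y a x.1 x.2 v)).natAbs) ⊆
            (Fam a G B).filter (fun x => ((l ^ 2 : ℕ) : ℤ) ∣ nm (Xv y a x.1 x.2 v)) := by
          intro x hx
          rw [Finset.mem_filter] at hx ⊢
          exact ⟨hfam x hx.1, Int.natCast_dvd.2 hx.2⟩
        exact_mod_cast Finset.card_le_card h2)
    refine h0.trans ?_
    -- the final inequalities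
    have q1 : 4 * ((a : ℝ) / (G : ℝ) ^ 2) * P * (CM * J) ≤ 16 * CM * J * S.card := by
      have := mul_le_mul_of_nonneg_right hP3 (by positivity : (0 : ℝ) ≤ 16 * (CM * J))
      refine le_trans (le_of_eq ?_) (this.trans (le_of_eq ?_)) <;> ring
    have hsq : √(a : ℝ) = (a : ℝ) ^ ((1 : ℝ) / 2) := Real.sqrt_eq_rpow _
    have hsq2 : √(√(a : ℝ)) = (a : ℝ) ^ ((1 : ℝ) / 4) := by
      rw [hsq, Real.sqrt_eq_rpow, ← Real.rpow_mul haR0.le]
      norm_num
    have q2 : T * (√a * √(√a)) ≤ (S.card : ℝ) := by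
      refine le_trans ?_ hlow
      rw [hsq2, hsq, le_div_iff₀ (by positivity)]
      rw [one_mul] at v1
      calc T * ((a : ℝ) ^ ((1 : ℝ) / 2) * (a : ℝ) ^ ((1 : ℝ) / 4)) * Real.log a ^ (C + 1)
          ≤ (a : ℝ) ^ ((1 : ℝ) / 16) * ((a : ℝ) ^ ((1 : ℝ) / 2) * (a : ℝ) ^ ((1 : ℝ) / 4)) * (a : ℝ) ^ ((3 : ℝ) / 16) := by
            gcongr
        _ = a := by
            rw [← Real.rpow_add haR0, ← Real.rpow_add haR0, ← Real.rpow_add haR0]
            norm_num
    have q3 : 5 * Real.log a * (2 * a / z) ≤ 1 / 2 * (S.card : ℝ) := by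
      have h1 : 20 * Real.log a ^ (C + 2) ≤ z := v2.trans hzroot
      have h2 : 5 * Real.log a * (2 * a / z) ≤ 1 / 2 * (a / Real.log a ^ (C + 1)) := by
        have h3 : 5 * Real.log a * (2 * a / z) = (10 * Real.log a * a) / z := by ring
        have h4 : 1 / 2 * (a / Real.log a ^ (C + 1)) = a / (2 * Real.log a ^ (C + 1)) := by
          field_simp
        rw [h3, h4, div_le_div_iff₀ hzR0 (by positivity)]
        have h5 := mul_le_mul_of_nonneg_right h1 haR0.le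
        refine le_trans (le_of_eq ?_) (h5.trans (le_of_eq ?_)) <;> ring
      linarith
    have q4 : 5 * Real.log a * (2 * (T : ℝ) ^ 3 * (3 * √a * (3 + Real.log a) ^ 2)) ≤ 1 / 2 * (S.card : ℝ) := by
      have h1 : (T : ℝ) ^ 3 ≤ (a : ℝ) ^ ((3 : ℝ) / 16) := by
        calc (T : ℝ) ^ 3 ≤ ((a : ℝ) ^ ((1 : ℝ) / 16)) ^ 3 := pow_le_pow_left₀ (by positivity) hTle 3
          _ = (a : ℝ) ^ ((3 : ℝ) / 16) := by
            rw [← Real.rpow_natCast, ← Real.rpow_mul haR0.le]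
            norm_num
      have h2 : (3 + Real.log a) ^ 2 ≤ 4 * Real.log a ^ 2 := by
        have h3 := pow_le_pow_left₀ (by positivity) (by linarith : 3 + Real.log (a : ℝ) ≤ 2 * Real.log a) 2
        refine h3.trans (le_of_eq ?_)
        ring
      have h3 : 5 * Real.log a * (2 * (T : ℝ) ^ 3 * (3 * √a * (3 + Real.log a) ^ 2)) ≤
          1 / 2 * (a / Real.log a ^ (C + 1)) := by
        have h4 : 5 * Real.log a * (2 * (T : ℝ) ^ 3 * (3 * √a * (3 + Real.log a) ^ 2)) ≤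
            5 * Real.log a * (2 * (a : ℝ) ^ ((3 : ℝ) / 16) * (3 * (a : ℝ) ^ ((1 : ℝ) / 2) * (4 * Real.log a ^ 2))) := by
          rw [hsq]
          gcongr
        refine h4.trans ?_
        have h5 : 1 / 2 * ((a : ℝ) / Real.log a ^ (C + 1)) = a / (2 * Real.log a ^ (C + 1)) := by
          field_simp
        rw [h5, le_div_iff₀ (by positivity)]
        calc 5 * Real.log a * (2 * (a : ℝ) ^ ((3 : ℝ) / 16) * (3 * (a : ℝ) ^ ((1 : ℝ) / 2) * (4 * Real.log a ^ 2))) *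
              (2 * Real.log a ^ (C + 1))
            = (a : ℝ) ^ ((3 : ℝ) / 16) * (a : ℝ) ^ ((1 : ℝ) / 2) * (240 * Real.log a ^ (C + 4)) := by ring
          _ ≤ (a : ℝ) ^ ((3 : ℝ) / 16) * (a : ℝ) ^ ((1 : ℝ) / 2) * (a : ℝ) ^ ((5 : ℝ) / 16) := by
              gcongr
          _ = a := by
              rw [← Real.rpow_add haR0, ← Real.rpow_add haR0]
              norm_num
      linarith
    rw [mul_add (5 * Real.log (a : ℝ))]
    linarith
  -- all vertices
  rw [Finset.sum_comm]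
  have hsum := Finset.sum_le_card_nsmul (univ : Finset (V n))
    (fun v => ∑ x ∈ S, (bOm z (nm (Xv y a x.1 x.2 v)).natAbs : ℝ)) ((16 * CM * J + 50) * S.card) fun v _ => hone v
  have hcV : (univ : Finset (V n)).card = 3 * n := by simp [V]
  rw [hcV, nsmul_eq_mul] at hsum
  refine hsum.trans ?_
  have hlogn : 0 ≤ Real.log (n : ℝ) := Real.log_natCast_nonneg n
  have r1 : 16 * CM * J ≤ 16 * CM * ((3 + 2 * Real.log (2 * C₂ : ℕ)) * (1 + Real.log n)) :=
    mul_le_mul_of_nonneg_left hJ2 (by positivity)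
  have r2 : 16 * CM * J + 50 ≤ (16 * CM * (3 + 2 * Real.log (2 * C₂ : ℕ)) + 50) * (1 + Real.log n) := by
    have : (50 : ℝ) ≤ 50 * (1 + Real.log n) := by linarith
    linarith
  have r3 := mul_le_mul_of_nonneg_right r2 hS0
  have r4 := mul_le_mul_of_nonneg_left r3 (by positivity : (0 : ℝ) ≤ ((3 * n : ℕ) : ℝ))
  refine r4.trans (le_of_eq ?_)
  push_cast
  ring

end Pool.Agent.Lib.MP_d57abb_nt.EE
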