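import Mathlib
import Pool.Agent.Lib.MP_d57abb_nt.AP.Pri
import Pool.Agent.Lib.MP_d57abb_nt.EE.MnE
import Pool.Agent.Lib.MP_d57abb_nt.EE.CnS
import Pool.Agent.Lib.MP_d57abb_nt.EE.EstS

/-!
# JOB FnS: the lower bound, squarefree version

PROOF: adapt `EE/FnE.lean` (complete there, `fin_lower`; copy its private lemmas and the choice of `A`, `z`): with `frames_leS`, and `C₂` is now given before `y, w, G, B`.  There: `A` is maximal with `5 (w+2)² A² ≤ N`, `z^K' ≤ A/2`, `A ≤ z^(2K')`, `w ≤ z`; `N ≤ 20 (w+2)² A²`, and for large `N` also `N ≤ A^4`.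
So `|FZ (2F-2) w z N| ≥ c N / (log N)^(C₂ + 2)` (`FZ` is monotone in `N`) with `c > 0` fixed, `≥ 2 N / (log N)^(C₂ + 4)` for large `N`.
`FZ r w z N ⊆ FS r w (8 K') N ∪ BadSq z N`: if `k ∈ FZ`, `k ∉ BadSq z N`, then no `ℓ²` (`ℓ` prime) divides `k² + 3k + 1`: squarefree (`Nat.squarefree_iff_prime_squarefree`), `cardFactors = primeFactors.card` (`cardDistinctFactors_eq_cardFactors_iff_squarefree`-type lemma, `ArithmeticFunction.cardDistinctFactors_apply`);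
a prime `p ∣ k² + 3 k + 1` is `≤ w`, or `> z` and then `k ≤ N ≤ A^4 ≤ z^(8 K') ≤ p^(8 K')`.
`est`: `|BadSq z N| ≤ C (N / z + N / √√N) ≤ N / (log N)^(C₂ + 4)` for large `N`, because `z^(2K') ≥ A ≥ N^(1/4)`, i.e. `z^(8K') ≥ N` and so `z ≥ (log N)^(C₂+5)` for large `N` (powers of the logarithm against a power of `N`: `isLittleO_log_rpow_rpow_atTop` or `Real.add_one_le_exp`).
-/

open Finset

namespace Pool.Agent.Lib.MP_d57abb_nt.EE

open Pool.Agent.Lib.MP_d57abb_nt Pool.Agent.Lib.MP_d57abb_nt.All Pool.Agent.Lib.MP_d57abb_nt.AP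
  Pool.Agent.Lib.MP_d57abb_nt.Ev ArithmeticFunction

private theorem FnS_root (K : ℕ) (hK : 0 < K) (M : ℕ) (h3 : 3 ^ K ≤ M) :
    ∃ z : ℕ, 3 ≤ z ∧ z ^ K ≤ M ∧ Real.log M ≤ K * (Real.log z + Real.log 2) := by
  classical
  have h3M : 3 ≤ M := le_trans (Nat.le_self_pow hK.ne' 3) h3
  set z : ℕ := Nat.findGreatest (fun n => n ^ K ≤ M) M with hz
  have hz3 : 3 ≤ z := Nat.le_findGreatest h3M h3
  have hzK : z ^ K ≤ M := Nat.findGreatest_spec (P := fun n => n ^ K ≤ M) h3M h3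
  have hlt : M < (z + 1) ^ K := by
    by_contra hc
    push Not at hc
    have h4 : z + 1 ≤ M := le_trans (Nat.le_self_pow hK.ne' (z + 1)) hc
    have h5 : z + 1 ≤ z := Nat.le_findGreatest (P := fun n => n ^ K ≤ M) h4 hc
    omega
  refine ⟨z, hz3, hzK, ?_⟩
  have hzr : (3 : ℝ) ≤ z := by exact_mod_cast hz3
  have hMpos : (0 : ℝ) < M := by
    have : (3 : ℝ) ≤ M := by exact_mod_cast h3M
    linarith
  have h6 : (M : ℝ) ≤ ((z : ℝ) * 2) ^ K := by
    have h7 : (M : ℝ) ≤ ((z : ℝ) + 1) ^ K := by exact_mod_cast hlt.le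
    refine h7.trans (pow_le_pow_left₀ (by linarith) (by linarith) K)
  calc Real.log M ≤ Real.log (((z : ℝ) * 2) ^ K) := Real.log_le_log hMpos h6
    _ = K * (Real.log z + Real.log 2) := by
        rw [Real.log_pow, Real.log_mul (by linarith) (by norm_num)]

private theorem FnS_mono (r w z : ℕ) {N N' : ℕ} (hN : N ≤ N') : (FZ r w z N).card ≤ (FZ r w z N').card := by
  apply Finset.card_le_card
  intro k hk
  simp only [FZ, mem_filter, mem_Icc] at hk ⊢
  exact ⟨⟨hk.1.1, hk.1.2.trans hN⟩, hk.2⟩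

/-- the values of the frames outside the bad set are counted -/
private theorem FnS_sub (r w z N M : ℕ) (hM : N ≤ z ^ M) :
    (FZ r w z N).card ≤ (FS r w M N).card + (BadSq z N).card := by
  classical
  refine le_trans (Finset.card_le_card ?_) (Finset.card_union_le _ _)
  intro k hk
  rw [mem_union]
  by_cases hb : k ∈ BadSq z N
  · exact Or.inr hb
  · left
    unfold FZ at hk
    rw [mem_filter] at hk
    obtain ⟨hk1, hk2, hk3, hk4⟩ := hk
    have hno : ∀ ℓ : ℕ, ℓ.Prime → ¬ ℓ ^ 2 ∣ k ^ 2 + 3 * k + 1 := by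
      intro ℓ hℓ hd
      by_cases hz : ℓ ≤ z
      · exact hk3 ℓ hℓ hz hd
      · apply hb
        unfold BadSq
        rw [mem_filter]
        exact ⟨hk1, ℓ, hℓ, by omega, hd⟩
    have hsq : Squarefree (k ^ 2 + 3 * k + 1) := by
      rw [Nat.squarefree_iff_prime_squarefree]
      intro p hp hd
      exact hno p hp (by rwa [pow_two])
    have hne : k ^ 2 + 3 * k + 1 ≠ 0 := by omega
    unfold FS
    rw [mem_filter]
    refine ⟨hk1, hsq, ?_, ?_⟩
    · have h1 := (ArithmeticFunction.cardDistinctFactors_eq_cardFactors_iff_squarefree hne).2 hsq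
      rw [← hk2, ← h1, ArithmeticFunction.cardDistinctFactors_apply, ← List.card_toFinset]
      rfl
    · intro p hp
      have hp1 : p.Prime := Nat.prime_of_mem_primeFactors hp
      have hp2 : p ∣ k ^ 2 + 3 * k + 1 := Nat.dvd_of_mem_primeFactors hp
      rcases hk4 p hp1 hp2 with h | h
      · exact Or.inl h
      · right
        rw [mem_Icc] at hk1
        exact hk1.2.trans (hM.trans (Nat.pow_le_pow_left h.le M))

/-- powers of the logarithm -/
private theorem FnS_log (Ce : ℝ) (hCe : 0 < Ce) (M c : ℕ) : ∃ x₀ : ℕ, ∀ x : ℝ, (x₀ : ℝ) ≤ x →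
    2 * Ce * (M * Real.log x) ^ c ≤ x := by
  have h1 := (Real.isLittleO_pow_log_id_atTop (n := c)).def
    (show (0 : ℝ) < 1 / (2 * Ce * ((M : ℝ) + 1) ^ c) by positivity)
  obtain ⟨x₁, hx₁⟩ := Filter.eventually_atTop.1 h1
  refine ⟨⌈max x₁ 1⌉₊, fun x hx => ?_⟩
  have h2 : max x₁ 1 ≤ x := (Nat.le_ceil _).trans hx
  have h3 : x₁ ≤ x := (le_max_left _ _).trans h2
  have h4 : (1 : ℝ) ≤ x := (le_max_right _ _).trans h2
  have h5 := hx₁ x h3
  have h6 : 0 ≤ Real.log x := Real.log_nonneg h4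
  rw [id, Real.norm_of_nonneg (pow_nonneg h6 _), Real.norm_of_nonneg (by linarith)] at h5
  have h7 : (0 : ℝ) < 2 * Ce * ((M : ℝ) + 1) ^ c := by positivity
  have h8 : 2 * Ce * ((M : ℝ) + 1) ^ c * Real.log x ^ c ≤ x := by
    calc 2 * Ce * ((M : ℝ) + 1) ^ c * Real.log x ^ c ≤ 2 * Ce * ((M : ℝ) + 1) ^ c *
          (1 / (2 * Ce * ((M : ℝ) + 1) ^ c) * x) := mul_le_mul_of_nonneg_left h5 h7.le
      _ = x := by field_simp
  refine le_trans ?_ h8
  rw [mul_assoc (2 * Ce) (((M : ℝ) + 1) ^ c), ← mul_pow]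
  have h9 : (M : ℝ) * Real.log x ≤ ((M : ℝ) + 1) * Real.log x := by nlinarith
  exact mul_le_mul_of_nonneg_left (pow_le_pow_left₀ (by positivity) h9 c) (by positivity)

/-- Markov -/
private theorem FnS_markov {α : Type*} (S : Finset α) (f : α → ℕ) (n R : ℕ) (hn : 1 ≤ n) (hR : 1 ≤ R) {C : ℝ}
    (hC : 8 * C ≤ (n : ℝ) * R) (h : ∑ x ∈ S, (f x : ℝ) ≤ C * (S.card : ℝ)) :
    (S.card : ℝ) / 2 ≤ ((S.filter (fun x => 4 * f x ≤ n * R)).card : ℝ) := by
  classical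
  have hnr : (1 : ℝ) ≤ n := by exact_mod_cast hn
  have hRr : (1 : ℝ) ≤ R := by exact_mod_cast hR
  have hnR : (0 : ℝ) < (n : ℝ) * R := by positivity
  have h1 := Finset.card_filter_add_card_filter_not (s := S) (fun x => 4 * f x ≤ n * R)
  have h2 : ((S.filter (fun x => ¬ 4 * f x ≤ n * R)).card : ℝ) * ((n : ℝ) * R / 4) ≤ ∑ x ∈ S, (f x : ℝ) := by
    calc ((S.filter (fun x => ¬ 4 * f x ≤ n * R)).card : ℝ) * ((n : ℝ) * R / 4)
        = (S.filter (fun x => ¬ 4 * f x ≤ n * R)).card • ((n : ℝ) * R / 4) := by rw [nsmul_eq_mul]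
      _ ≤ ∑ x ∈ S.filter (fun x => ¬ 4 * f x ≤ n * R), (f x : ℝ) := by
          apply Finset.card_nsmul_le_sum
          intro x hx
          rw [mem_filter, not_le] at hx
          have h3 : ((n * R : ℕ) : ℝ) ≤ ((4 * f x : ℕ) : ℝ) := by exact_mod_cast hx.2.le
          push_cast at h3
          linarith
      _ ≤ ∑ x ∈ S, (f x : ℝ) := by
          apply Finset.sum_le_sum_of_subset_of_nonneg (filter_subset _ _)
          intro x _ _
          exact Nat.cast_nonneg _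
  have h3 : ((S.filter (fun x => ¬ 4 * f x ≤ n * R)).card : ℝ) * ((n : ℝ) * R / 4) ≤ ((S.card : ℝ) / 2) * ((n : ℝ) * R / 4) := by
    refine (h2.trans h).trans ?_
    have : (0 : ℝ) ≤ (S.card : ℝ) := Nat.cast_nonneg _
    nlinarith
  have h4 : ((S.filter (fun x => ¬ 4 * f x ≤ n * R)).card : ℝ) ≤ (S.card : ℝ) / 2 := le_of_mul_le_mul_right h3 (by positivity)
  have h5 : ((S.filter (fun x => 4 * f x ≤ n * R)).card : ℝ) + ((S.filter (fun x => ¬ 4 * f x ≤ n * R)).card : ℝ) = (S.card : ℝ) := by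
    exact_mod_cast h1
  linarith

theorem fin_lowerS {n R K' C₂ : ℕ} {C₃ : ℝ} (hC₃ : 0 < C₃) (hK' : 0 < K') (hn : 1 ≤ n) (hR : 1 ≤ R)
    (hCR : 8 * C₃ * (1 + Real.log n) ≤ R)
    (hm : ∀ (y : V n → ℕ) (w G B : ℕ), 24 * n ≤ w →
      (∀ v, y v ≤ w) → 0 < G → (∀ q : ℕ, q.Prime → q ∣ G → q ≤ w) →
      ∃ a₀ : ℕ, ∀ a z : ℕ, a₀ ≤ a → a.Prime → z ^ K' ≤ a → a ≤ z ^ (2 * K') →
        (a : ℝ) / Real.log a ^ C₂ ≤ ((SiftE y a G B w z).card : ℝ) ∧
        ∑ x ∈ SiftE y a G B w z, ∑ v : V n, (bOm z (nm (Xv y a x.1 x.2 v)).natAbs : ℝ) ≤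
          C₃ * n * (1 + Real.log n) * ((SiftE y a G B w z).card : ℝ))
    {L : V n → V n → ℕ} (hRich : Rich R L) {y : V n → ℕ} {B w E F : ℕ} {δ : V n → V n → ℤ × ℤ}
    (P : BasePS L y B w E F δ) :
    ∃ N₀ : ℕ, ∀ N : ℕ, N₀ ≤ N → (N : ℝ) / Real.log N ^ (C₂ + 4) ≤ ((FS (2 * F - 2) w (8 * K') N).card : ℝ) := by
  classical
  set G : ℕ := w.factorial ^ E with hGdef
  have hG : 0 < G := by positivity
  have hGw : ∀ q : ℕ, q.Prime → q ∣ G → q ≤ w := by
    intro q hq hd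
    exact (hq.dvd_factorial).1 (hq.dvd_of_dvd_pow hd)
  obtain ⟨a₀, hs⟩ := hm y w G B P.hw P.hy hG hGw
  obtain ⟨Ce, hCe, hest⟩ := est
  obtain ⟨x₀, hx₀⟩ := FnS_log Ce hCe (8 * K') (C₂ + 4)
  obtain ⟨A₀, hp⟩ := primes_lower G hG
  set r : ℕ := 2 * F - 2 with hr
  set C : ℕ := C₂ + 3 with hC
  set D : ℕ := 80 * (w + 2) ^ 2 * (2 ^ r * (3 * n) ^ 2) with hD
  obtain ⟨A₂, hA₂⟩ := Filter.eventually_atTop.1
    ((Real.tendsto_log_atTop.comp tendsto_natCast_atTop_atTop).eventually_ge_atTop (D : ℝ))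
  set A₁ : ℕ := A₀ + A₂ + 2 * a₀ + 5 * (w + 2) ^ 2 + 9 * 4 ^ K' + 2 * 3 ^ K' + w ^ (2 * K') + x₀ ^ (2 * K') + 10
    with hA₁
  refine ⟨5 * (w + 2) ^ 2 * (A₁ + 1) ^ 2 + x₀ ^ 4, fun N hN => ?_⟩
  set c₅ : ℕ := 5 * (w + 2) ^ 2 with hc₅
  have hc₅pos : 0 < c₅ := by positivity
  set A : ℕ := Nat.sqrt (N / c₅) with hA
  have hle : c₅ * A ^ 2 ≤ N := by
    have h1 : A ^ 2 ≤ N / c₅ := Nat.sqrt_le' _
    calc c₅ * A ^ 2 ≤ c₅ * (N / c₅) := Nat.mul_le_mul_left _ h1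
      _ ≤ N := Nat.mul_div_le _ _
  have hlt : N < c₅ * (A + 1) ^ 2 := by
    have h1 : N / c₅ < (A + 1) ^ 2 := Nat.lt_succ_sqrt' _
    have h2 := (Nat.div_lt_iff_lt_mul hc₅pos).1 h1
    rwa [Nat.mul_comm] at h2
  have hAA : A₁ ≤ A := by
    by_contra hcon
    push Not at hcon
    have h1 : A + 1 ≤ A₁ + 1 := by omega
    have h2 : c₅ * (A + 1) ^ 2 ≤ c₅ * (A₁ + 1) ^ 2 :=
      Nat.mul_le_mul_left _ (Nat.pow_le_pow_left h1 2)
    omega
  have e1 : A₀ ≤ A := by omega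
  have e2 : A₂ ≤ A := by omega
  have e3 : 2 * a₀ ≤ A := by omega
  have e5 : 9 * 4 ^ K' ≤ A := by omega
  have e6 : 2 * 3 ^ K' ≤ A := by omega
  have e7 : w ^ (2 * K') < A := by omega
  have e8 : 10 ≤ A := by omega
  have hlogD : (D : ℝ) ≤ Real.log A := hA₂ A e2
  have hAr : (10 : ℝ) ≤ A := by exact_mod_cast e8
  have hApos : (0 : ℝ) < A := by linarith
  have hD1 : (1 : ℝ) ≤ D := by
    have : 1 ≤ D := Nat.succ_le_of_lt (by positivity)
    exact_mod_cast this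
  have hlogA1 : 1 ≤ Real.log A := hD1.trans hlogD
  have hlogApos : 0 < Real.log A := by linarith
  obtain ⟨z, hz3, hzK, hzlog⟩ := FnS_root K' hK' (A / 2) (by omega)
  have hzr : (3 : ℝ) ≤ z := by exact_mod_cast hz3
  have hlogz : 0 < Real.log z := Real.log_pos (by linarith)
  have hKr : (0 : ℝ) < K' := by exact_mod_cast hK'
  -- the size of `A / 2`
  have hhalf : (A : ℝ) ≤ 3 * ((A / 2 : ℕ) : ℝ) := by
    have : A ≤ 3 * (A / 2) := by omega
    exact_mod_cast this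
  have hhpos : (0 : ℝ) < ((A / 2 : ℕ) : ℝ) := by linarith
  have hl1 : Real.log A ≤ Real.log 3 + Real.log ((A / 2 : ℕ) : ℝ) := by
    rw [← Real.log_mul (by norm_num) hhpos.ne']
    exact Real.log_le_log hApos hhalf
  have hl2 : 2 * Real.log 3 + 2 * (K' * Real.log 2) ≤ Real.log A := by
    have h1 : Real.log ((9 : ℝ) * 4 ^ K') ≤ Real.log A := by
      apply Real.log_le_log (by positivity)
      exact_mod_cast e5
    rw [Real.log_mul (by norm_num) (by positivity), Real.log_pow] at h1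
    have h9 : Real.log (9 : ℝ) = 2 * Real.log 3 := by
      rw [show (9 : ℝ) = 3 ^ 2 by norm_num, Real.log_pow]; norm_num
    have h4 : Real.log (4 : ℝ) = 2 * Real.log 2 := by
      rw [show (4 : ℝ) = 2 ^ 2 by norm_num, Real.log_pow]; norm_num
    rw [h9, h4] at h1
    linarith
  have hl3 : Real.log A ≤ 2 * (K' * Real.log z) := by
    have h1 : (K' : ℝ) * (Real.log z + Real.log 2) = K' * Real.log z + K' * Real.log 2 := by ring
    rw [h1] at hzlog
    linarith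
  have hAz : A ≤ z ^ (2 * K') := by
    have h1 : Real.log A ≤ Real.log ((z : ℝ) ^ (2 * K')) := by
      rw [Real.log_pow]
      push_cast
      linarith
    have h2 : (A : ℝ) ≤ (z : ℝ) ^ (2 * K') := (Real.log_le_log_iff hApos (by positivity)).1 h1
    exact_mod_cast h2
  have hwz : w ≤ z := by
    by_contra hcon
    push Not at hcon
    have h1 : z ^ (2 * K') ≤ w ^ (2 * K') := Nat.pow_le_pow_left hcon.le _
    omega
  have hxz : x₀ ≤ z := by
    by_contra hcon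
    push Not at hcon
    have h1 : z ^ (2 * K') ≤ x₀ ^ (2 * K') := Nat.pow_le_pow_left hcon.le _
    omega
  have hfr := frames_leS hn hR hRich P A z hwz
  rw [← hGdef, ← hr, ← hc₅] at hfr
  set S : Finset (Σ _ : ℕ, ℕ × ℕ) := (SSE y A G B w z).filter (fun x =>
      4 * ∑ v, bOm z (nm (Xv y x.1 x.2.1 x.2.2 v)).natAbs ≤ n * R) with hS
  -- lower bound for the set of frames
  have hlow : (A : ℝ) ^ 2 / (4 * Real.log A ^ (C₂ + 2)) ≤ (S.card : ℝ) := by
    have h1 : S.card =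
        ∑ a ∈ (Ioc (A / 2) A).filter (fun a => a.Prime ∧ a ≡ 1 [MOD G]), ((SiftE y a G B w z).filter (fun x =>
          4 * ∑ v, bOm z (nm (Xv y a x.1 x.2 v)).natAbs ≤ n * R)).card := by
      rw [← Finset.card_sigma]
      congr 1
      ext x
      rw [hS]
      unfold SSE
      simp only [mem_filter, mem_sigma]
      tauto
    rw [h1]
    push_cast
    have h2 : ∀ a ∈ (Ioc (A / 2) A).filter (fun a => a.Prime ∧ a ≡ 1 [MOD G]),
        (A : ℝ) / 4 / Real.log A ^ C₂ ≤ (((SiftE y a G B w z).filter (fun x =>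
          4 * ∑ v, bOm z (nm (Xv y a x.1 x.2 v)).natAbs ≤ n * R)).card : ℝ) := by
      intro a ha
      rw [mem_filter, mem_Ioc] at ha
      obtain ⟨⟨ha1, ha2⟩, ha3, ha4⟩ := ha
      obtain ⟨h3, h4⟩ := hs a z (by omega) ha3 (hzK.trans ha1.le) (ha2.trans hAz)
      have h5 : (A : ℝ) ≤ 2 * a := by
        have : A ≤ 2 * a := by omega
        exact_mod_cast this
      have h6 : (a : ℝ) ≤ A := by exact_mod_cast ha2
      have h7 : (3 : ℝ) ≤ a := by
        have h8 : 3 ≤ a := by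
          have h9 : z ≤ z ^ K' := Nat.le_self_pow hK'.ne' z
          omega
        exact_mod_cast h8
      have h8 : 0 < Real.log a := Real.log_pos (by linarith)
      have h9 : Real.log a ≤ Real.log A := Real.log_le_log (by linarith) h6
      have h10 : (A : ℝ) / 2 / Real.log A ^ C₂ ≤ ((SiftE y a G B w z).card : ℝ) := by
        refine le_trans ?_ h3
        exact div_le_div₀ (by linarith) (by linarith) (pow_pos h8 _) (pow_le_pow_left₀ h8.le h9 _)
      have h11 := FnS_markov (SiftE y a G B w z) (fun x => ∑ v, bOm z (nm (Xv y a x.1 x.2 v)).natAbs) n R hn hR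
        (C := C₃ * n * (1 + Real.log n)) (by
          have hn0 : (0 : ℝ) ≤ n := Nat.cast_nonneg _
          nlinarith) (by
          push_cast
          exact h4)
      refine le_trans ?_ h11
      have e : (A : ℝ) / 4 / Real.log A ^ C₂ = (A : ℝ) / 2 / Real.log A ^ C₂ / 2 := by ring
      rw [e]
      linarith
    have h3 := Finset.card_nsmul_le_sum _ _ _ h2
    rw [nsmul_eq_mul] at h3
    refine le_trans ?_ h3
    have h4 := hp A e1
    have h5 : (A : ℝ) ^ 2 / (4 * Real.log A ^ (C₂ + 2)) =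
        (A : ℝ) / Real.log A ^ 2 * ((A : ℝ) / 4 / Real.log A ^ C₂) := by
      rw [pow_add]
      field_simp
    rw [h5]
    exact mul_le_mul_of_nonneg_right h4 (by positivity)
  have hSr : (S.card : ℝ) ≤ ((FZ r w z N).card : ℝ) * (2 ^ r * (3 * (n : ℝ)) ^ 2) := by
    have h1 : S.card ≤ (FZ r w z N).card * (2 ^ r * (3 * n) ^ 2) :=
      hfr.trans (Nat.mul_le_mul_right _ (FnS_mono r w z hle))
    exact_mod_cast h1
  have hnr : (1 : ℝ) ≤ n := by exact_mod_cast hn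
  have hXpos : (0 : ℝ) < 2 ^ r * (3 * (n : ℝ)) ^ 2 := by positivity
  have hfin : (A : ℝ) ^ 2 / (4 * Real.log A ^ (C₂ + 2)) / (2 ^ r * (3 * (n : ℝ)) ^ 2) ≤ ((FZ r w z N).card : ℝ) := by
    rw [div_le_iff₀ hXpos]
    exact hlow.trans hSr
  -- the comparison
  have hNA : A ≤ N := by
    have h1 : A ≤ A ^ 2 := Nat.le_self_pow (by norm_num) A
    have h2 : A ^ 2 ≤ c₅ * A ^ 2 := Nat.le_mul_of_pos_left _ hc₅pos
    omega
  have hNAr : (A : ℝ) ≤ N := by exact_mod_cast hNA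
  have hlogN : Real.log A ≤ Real.log N := Real.log_le_log hApos hNAr
  have hlogNpos : 0 < Real.log N := by linarith
  have hNle : (N : ℝ) ≤ 20 * ((w : ℝ) + 2) ^ 2 * (A : ℝ) ^ 2 := by
    have h1 : (N : ℝ) ≤ 5 * ((w : ℝ) + 2) ^ 2 * ((A : ℝ) + 1) ^ 2 := by
      have : ((N : ℕ) : ℝ) ≤ ((5 * (w + 2) ^ 2 * (A + 1) ^ 2 : ℕ) : ℝ) := by exact_mod_cast hlt.le
      push_cast at this
      exact this
    have h2 : ((A : ℝ) + 1) ^ 2 ≤ 4 * (A : ℝ) ^ 2 := by nlinarith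
    calc (N : ℝ) ≤ 5 * ((w : ℝ) + 2) ^ 2 * ((A : ℝ) + 1) ^ 2 := h1
      _ ≤ 5 * ((w : ℝ) + 2) ^ 2 * (4 * (A : ℝ) ^ 2) := mul_le_mul_of_nonneg_left h2 (by positivity)
      _ = 20 * ((w : ℝ) + 2) ^ 2 * (A : ℝ) ^ 2 := by ring
  have hmain : (N : ℝ) / Real.log N ^ C ≤ ((FZ r w z N).card : ℝ) := by
    refine le_trans ?_ hfin
    rw [div_div, div_le_div_iff₀ (pow_pos hlogNpos _) (by positivity)]
    have hpow : (D : ℝ) * Real.log A ^ (C₂ + 2) ≤ Real.log N ^ C := by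
      have h1 : Real.log A ^ (C₂ + 3) ≤ Real.log N ^ C := by
        rw [hC]
        exact pow_le_pow_left₀ hlogApos.le hlogN _
      calc (D : ℝ) * Real.log A ^ (C₂ + 2) ≤ Real.log A * Real.log A ^ (C₂ + 2) :=
            mul_le_mul_of_nonneg_right hlogD (by positivity)
        _ = Real.log A ^ (C₂ + 3) := by ring
        _ ≤ _ := h1
    have hDr : (D : ℝ) = 80 * ((w : ℝ) + 2) ^ 2 * (2 ^ r * (3 * (n : ℝ)) ^ 2) := by rw [hD]; push_cast; ring
    rw [hDr] at hpow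
    calc (N : ℝ) * (4 * Real.log A ^ (C₂ + 2) * (2 ^ r * (3 * (n : ℝ)) ^ 2))
        ≤ (20 * ((w : ℝ) + 2) ^ 2 * (A : ℝ) ^ 2) *
          (4 * Real.log A ^ (C₂ + 2) * (2 ^ r * (3 * (n : ℝ)) ^ 2)) :=
          mul_le_mul_of_nonneg_right hNle (by positivity)
      _ = (A : ℝ) ^ 2 * (80 * ((w : ℝ) + 2) ^ 2 * (2 ^ r * (3 * (n : ℝ)) ^ 2) * Real.log A ^ (C₂ + 2)) := by
          ring
      _ ≤ (A : ℝ) ^ 2 * Real.log N ^ C := mul_le_mul_of_nonneg_left hpow (by positivity)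
  -- the bad set
  have hNA4 : N ≤ A ^ 4 := by
    have h1 : (N : ℝ) ≤ (A : ℝ) ^ 4 := by
      refine hNle.trans ?_
      have h2 : 5 * (w + 2) ^ 2 ≤ A := by omega
      have h3 : 5 * ((w : ℝ) + 2) ^ 2 ≤ A := by exact_mod_cast h2
      have h4 : 20 * ((w : ℝ) + 2) ^ 2 ≤ (A : ℝ) ^ 2 := by nlinarith
      calc 20 * ((w : ℝ) + 2) ^ 2 * (A : ℝ) ^ 2 ≤ (A : ℝ) ^ 2 * (A : ℝ) ^ 2 :=
            mul_le_mul_of_nonneg_right h4 (by positivity)
        _ = (A : ℝ) ^ 4 := by ring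
    exact_mod_cast h1
  have hNz : N ≤ z ^ (8 * K') := by
    refine hNA4.trans ((Nat.pow_le_pow_left hAz 4).trans (le_of_eq ?_))
    rw [← pow_mul]
    congr 1
    ring
  have hsub := FnS_sub r w z N (8 * K') hNz
  have hsubr : ((FZ r w z N).card : ℝ) ≤ ((FS r w (8 * K') N).card : ℝ) + ((BadSq z N).card : ℝ) := by
    exact_mod_cast hsub
  have hN1 : 1 ≤ N := by omega
  have hNpos : (0 : ℝ) < N := by exact_mod_cast hN1
  have hb := hest z N (by omega) hN1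
  have hzpos : (0 : ℝ) < z := by linarith
  have hK8 : (4 : ℝ) ≤ ((8 * K' : ℕ) : ℝ) := by
    have : 4 ≤ 8 * K' := by omega
    exact_mod_cast this
  have hL1 : 2 * Ce * Real.log N ^ (C₂ + 4) ≤ z := by
    refine le_trans ?_ (hx₀ z (by exact_mod_cast hxz))
    have h1 : Real.log N ≤ ((8 * K' : ℕ) : ℝ) * Real.log z := by
      rw [← Real.log_pow]
      apply Real.log_le_log hNpos
      exact_mod_cast hNz
    exact mul_le_mul_of_nonneg_left (pow_le_pow_left₀ hlogNpos.le h1 _) (by positivity)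
  have hs4 : (√(√(N : ℝ))) ^ 4 = N := by
    have h1 : (√(√(N : ℝ))) ^ 2 = √(N : ℝ) := Real.sq_sqrt (Real.sqrt_nonneg _)
    calc (√(√(N : ℝ))) ^ 4 = ((√(√(N : ℝ))) ^ 2) ^ 2 := by ring
      _ = (√(N : ℝ)) ^ 2 := by rw [h1]
      _ = N := Real.sq_sqrt hNpos.le
  have hspos : 0 < √(√(N : ℝ)) := Real.sqrt_pos.2 (Real.sqrt_pos.2 hNpos)
  have hL2 : 2 * Ce * Real.log N ^ (C₂ + 4) ≤ √(√(N : ℝ)) := by
    have h0 : (x₀ : ℝ) ≤ √(√(N : ℝ)) := by
      by_contra hcon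
      push Not at hcon
      have h1 : (√(√(N : ℝ))) ^ 4 < (x₀ : ℝ) ^ 4 := pow_lt_pow_left₀ hcon hspos.le (by norm_num)
      rw [hs4] at h1
      have h2 : x₀ ^ 4 ≤ N := by omega
      have h3 : (x₀ : ℝ) ^ 4 ≤ N := by exact_mod_cast h2
      linarith
    refine le_trans ?_ (hx₀ _ h0)
    have h1 : Real.log N = 4 * Real.log (√(√(N : ℝ))) := by
      have h2 : Real.log ((√(√(N : ℝ))) ^ 4) = Real.log N := by rw [hs4]
      rw [Real.log_pow] at h2
      push_cast at h2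
      linarith
    have h3 : 0 ≤ Real.log (√(√(N : ℝ))) := by linarith
    have h4 : Real.log N ≤ ((8 * K' : ℕ) : ℝ) * Real.log (√(√(N : ℝ))) := by
      rw [h1]
      exact mul_le_mul_of_nonneg_right hK8 h3
    exact mul_le_mul_of_nonneg_left (pow_le_pow_left₀ hlogNpos.le h4 _) (by positivity)
  have hLpos : (0 : ℝ) < Real.log N ^ (C₂ + 4) := pow_pos hlogNpos _
  have hbad : ((BadSq z N).card : ℝ) ≤ N / Real.log N ^ (C₂ + 4) := by
    refine hb.trans ?_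
    have h1 : (N : ℝ) / z ≤ N / (2 * Ce * Real.log N ^ (C₂ + 4)) :=
      div_le_div_of_nonneg_left hNpos.le (by positivity) hL1
    have h2 : (N : ℝ) / √(√(N : ℝ)) ≤ N / (2 * Ce * Real.log N ^ (C₂ + 4)) :=
      div_le_div_of_nonneg_left hNpos.le (by positivity) hL2
    calc Ce * ((N : ℝ) / z + N / √(√(N : ℝ))) ≤
          Ce * (N / (2 * Ce * Real.log N ^ (C₂ + 4)) + N / (2 * Ce * Real.log N ^ (C₂ + 4))) :=
          mul_le_mul_of_nonneg_left (add_le_add h1 h2) hCe.le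
      _ = N / Real.log N ^ (C₂ + 4) := by field_simp; ring
  have hlog2 : 2 ≤ Real.log N := by
    have h1 : (2 : ℝ) ≤ D := by
      have h2 : 2 ≤ D := by
        have h3 : 0 < (w + 2) ^ 2 * (2 ^ r * (3 * n) ^ 2) := by positivity
        have h4 : D = 80 * ((w + 2) ^ 2 * (2 ^ r * (3 * n) ^ 2)) := by rw [hD]; ring
        omega
      exact_mod_cast h2
    linarith
  have hmain2 : 2 * ((N : ℝ) / Real.log N ^ (C₂ + 4)) ≤ ((FZ r w z N).card : ℝ) := by
    refine le_trans ?_ hmain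
    rw [hC, ← mul_div_assoc, div_le_div_iff₀ hLpos (pow_pos hlogNpos _)]
    have h1 : Real.log N ^ (C₂ + 4) = Real.log N ^ (C₂ + 3) * Real.log N := by ring
    rw [h1]
    have h2 : (0 : ℝ) ≤ (N : ℝ) * Real.log N ^ (C₂ + 3) := by positivity
    nlinarith
  linarith

end Pool.Agent.Lib.MP_d57abb_nt.EE
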