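import Mathlib
import Pool.Agent.Lib.MP_d57abb_nt.EE.Defs

/-!
# JOB LabE: rich labels exist

PROOF.  Choose `R = ⌈C (1 + log n)⌉₊ + 1` and `n` large with `n ≥ 100 R^3 `-like (possible since `R` grows like `log n`).  Count the functions `f : Fin 3 × Fin 3 → (Fin n × Fin n → Fin R)` or simply the functions `L : V n → V n → Fin R` (label `L + 1`), `R^(9 n²)` in number.
`L` is bad if there are `g < g'`, `τ : Fin R`, and sets `U` (in group `g`), `W` (in group `g'`) with `|U| = |W| = m := ⌈n / (2R)⌉` and no pair `(u, v) ∈ U × W` with label `τ`.  For given `g, g', τ, U, W` the number of such `L` is `(R - 1)^(m²) R^(9n² - m²)`, and there are at most `9 R 4^n` choices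
(subsets of the group: `≤ 2^n` each).  So the proportion of bad functions is at most `9 R 4^n (1 - 1/R)^(m²) ≤ 9 R 4^n exp (- m² / R) ≤ 9 R exp (1.4 n - n² / (4 R³)) < 1` as soon as `n ≥ 16 R³` and `9 R < exp (2 n)`.  So there is a good `L`; larger sets `U`, `W` contain subsets with exactly `m` elements
(`n ≤ 2 R |U|` means `|U| ≥ m`).
An explicit construction is also fine (any proof of the statement).  `Rich` only concerns pairs of vertices of different groups `u.1 < v.1`; it suffices to find for one matrix `M : Fin n → Fin n → Fin R` with the property for subsets of `Fin n`, and put `L (g, i) (g', j) = M i j + 1`: this reduces the counting to matrices: bad matrices `≤ R · 4^n (R-1)^(m²) R^(n² - m²) < R^(n²)`.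
-/

open Finset

namespace Pool.Agent.Lib.MP_d57abb_nt.EE

private theorem LabE_pig (n T m : ℕ) (hT : 0 < T) (hm : m ≤ n)
    (h : 4 ^ n * T * (T - 1) ^ (m * m) < T ^ (m * m)) :
    ∃ L : Fin n → Fin n → Fin T, ∀ A B : Finset (Fin n), m ≤ A.card → m ≤ B.card →
      ∀ t : Fin T, ∃ i ∈ A, ∃ j ∈ B, L i j = t := by
  classical
  by_contra hcon
  push Not at hcon
  -- the bad functions
  let bad : Finset (Fin n) × Finset (Fin n) × Fin T → Finset (Fin n × Fin n → Fin T) := fun q =>
    Fintype.piFinset fun p => if p ∈ q.1 ×ˢ q.2.1 then univ.erase q.2.2 else univ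
  let I : Finset (Finset (Fin n) × Finset (Fin n) × Fin T) :=
    (powersetCard m univ) ×ˢ (powersetCard m univ) ×ˢ univ
  have hcover : (univ : Finset (Fin n × Fin n → Fin T)) ⊆ I.biUnion bad := by
    intro f _
    obtain ⟨A, B, hA, hB, t, ht⟩ := hcon fun i j => f (i, j)
    obtain ⟨A', hA'A, hA'⟩ := exists_subset_card_eq hA
    obtain ⟨B', hB'B, hB'⟩ := exists_subset_card_eq hB
    refine mem_biUnion.2 ⟨(A', B', t), ?_, ?_⟩
    · simp only [I, mem_product, mem_powersetCard, mem_univ, subset_univ, true_and, and_true]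
      exact ⟨hA', hB'⟩
    · simp only [bad, Fintype.mem_piFinset]
      intro p
      by_cases hp : p ∈ A' ×ˢ B'
      · rw [if_pos hp, mem_erase]
        rw [mem_product] at hp
        exact ⟨ht p.1 (hA'A hp.1) p.2 (hB'B hp.2), mem_univ _⟩
      · rw [if_neg hp]
        exact mem_univ _
  have hbad : ∀ q ∈ I, (bad q).card = (T - 1) ^ (m * m) * T ^ (n * n - m * m) := by
    intro q hq
    simp only [I, mem_product, mem_powersetCard, mem_univ, subset_univ, true_and, and_true] at hq
    simp only [bad, Fintype.card_piFinset]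
    have e : ∀ p : Fin n × Fin n, (if p ∈ q.1 ×ˢ q.2.1 then (univ : Finset (Fin T)).erase q.2.2
        else univ).card = if p ∈ q.1 ×ˢ q.2.1 then T - 1 else T := by
      intro p
      split_ifs
      · rw [card_erase_of_mem (mem_univ _), card_univ, Fintype.card_fin]
      · rw [card_univ, Fintype.card_fin]
    simp only [e]
    rw [prod_ite, prod_const, prod_const]
    have h1 : ((univ : Finset (Fin n × Fin n)).filter fun p => p ∈ q.1 ×ˢ q.2.1) = q.1 ×ˢ q.2.1 := by
      ext p
      simp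
    have h2 : ((univ : Finset (Fin n × Fin n)).filter fun p => ¬ p ∈ q.1 ×ˢ q.2.1).card =
        n * n - m * m := by
      have h3 := card_filter_add_card_filter_not (s := (univ : Finset (Fin n × Fin n)))
        (fun p => p ∈ q.1 ×ˢ q.2.1)
      rw [h1, card_product, hq.1, hq.2, card_univ, Fintype.card_prod, Fintype.card_fin] at h3
      omega
    rw [h1, h2, card_product, hq.1, hq.2]
  have hI : I.card ≤ 4 ^ n * T := by
    simp only [I, card_product, card_univ, Fintype.card_fin, card_powersetCard]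
    have h1 : n.choose m ≤ 2 ^ n := Nat.choose_le_two_pow n m
    calc n.choose m * (n.choose m * T) ≤ 2 ^ n * (2 ^ n * T) :=
          Nat.mul_le_mul h1 (Nat.mul_le_mul h1 le_rfl)
      _ = 4 ^ n * T := by
          rw [show (4 : ℕ) = 2 * 2 by norm_num, mul_pow]
          ring
  have hmm : m * m ≤ n * n := Nat.mul_le_mul hm hm
  have hcard : T ^ (n * n) ≤ 4 ^ n * T * ((T - 1) ^ (m * m) * T ^ (n * n - m * m)) := by
    calc T ^ (n * n) = (univ : Finset (Fin n × Fin n → Fin T)).card := by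
          rw [card_univ, Fintype.card_fun, Fintype.card_fin, Fintype.card_prod, Fintype.card_fin]
      _ ≤ (I.biUnion bad).card := card_le_card hcover
      _ ≤ ∑ q ∈ I, (bad q).card := card_biUnion_le
      _ = I.card * ((T - 1) ^ (m * m) * T ^ (n * n - m * m)) := by
          rw [sum_congr rfl hbad, sum_const, smul_eq_mul]
      _ ≤ _ := Nat.mul_le_mul hI le_rfl
  have h4 : 4 ^ n * T * ((T - 1) ^ (m * m) * T ^ (n * n - m * m)) < T ^ (n * n) := by
    calc 4 ^ n * T * ((T - 1) ^ (m * m) * T ^ (n * n - m * m)) =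
          (4 ^ n * T * (T - 1) ^ (m * m)) * T ^ (n * n - m * m) := by ring
      _ < T ^ (m * m) * T ^ (n * n - m * m) :=
          Nat.mul_lt_mul_of_pos_right h (pow_pos hT _)
      _ = T ^ (n * n) := by
          rw [← pow_add]
          congr 1
          omega
  omega

/-- The same with a simpler condition. -/
private theorem LabE_of_le (n T m : ℕ) (hT : 0 < T) (hm : m ≤ n)
    (h : T * (2 * n + T) ≤ m * m) :
    ∃ L : Fin n → Fin n → Fin T, ∀ A B : Finset (Fin n), m ≤ A.card → m ≤ B.card →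
      ∀ t : Fin T, ∃ i ∈ A, ∃ j ∈ B, L i j = t := by
  refine LabE_pig n T m hT hm ?_
  have hT' : (0 : ℝ) < T := by exact_mod_cast hT
  have h1 : ((T : ℝ) - 1) / T ≤ Real.exp (-(1 / T)) := by
    have := Real.add_one_le_exp (-(1 / (T : ℝ)))
    have e : ((T : ℝ) - 1) / T = -(1 / (T : ℝ)) + 1 := by field_simp; ring
    rw [e]
    exact this
  have h0 : (0 : ℝ) ≤ ((T : ℝ) - 1) / T := by
    have : (1 : ℝ) ≤ T := by exact_mod_cast hT
    exact div_nonneg (by linarith) hT'.le
  have h2 : (((T : ℝ) - 1) / T) ^ (m * m) ≤ Real.exp (-(2 * n + T)) := by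
    calc (((T : ℝ) - 1) / T) ^ (m * m) ≤ (Real.exp (-(1 / T))) ^ (m * m) :=
          pow_le_pow_left₀ h0 h1 _
      _ = Real.exp (-((m * m : ℕ) : ℝ) / T) := by
          rw [← Real.exp_nat_mul]
          congr 1
          ring
      _ ≤ Real.exp (-(2 * n + T)) := by
          apply Real.exp_le_exp.2
          rw [div_le_iff₀ hT']
          have h3 : ((T * (2 * n + T) : ℕ) : ℝ) ≤ ((m * m : ℕ) : ℝ) := by exact_mod_cast h
          push_cast at h3 ⊢
          nlinarith
  have h4 : (4 : ℝ) ^ n * T < Real.exp (2 * n + T) := by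
    rw [Real.exp_add]
    have h5 : (4 : ℝ) ≤ Real.exp 2 := by
      have h6 : (2 : ℝ) < Real.exp 1 := by
        have := Real.exp_one_gt_d9
        linarith
      have h7 : Real.exp 2 = Real.exp 1 * Real.exp 1 := by
        rw [← Real.exp_add]
        norm_num
      rw [h7]
      nlinarith
    have h8 : (4 : ℝ) ^ n ≤ Real.exp (2 * n) := by
      calc (4 : ℝ) ^ n ≤ (Real.exp 2) ^ n := pow_le_pow_left₀ (by norm_num) h5 n
        _ = Real.exp (2 * n) := by
            rw [← Real.exp_nat_mul]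
            congr 1
            ring
    have h9 : (T : ℝ) < Real.exp T := by
      have := Real.add_one_le_exp (T : ℝ)
      linarith
    calc (4 : ℝ) ^ n * T < (4 : ℝ) ^ n * Real.exp T :=
          mul_lt_mul_of_pos_left h9 (by positivity)
      _ ≤ Real.exp (2 * n) * Real.exp T := mul_le_mul_of_nonneg_right h8 (by positivity)
  have h10 : (4 : ℝ) ^ n * T * (((T : ℝ) - 1) / T) ^ (m * m) < 1 := by
    calc (4 : ℝ) ^ n * T * (((T : ℝ) - 1) / T) ^ (m * m) ≤
          (4 : ℝ) ^ n * T * Real.exp (-(2 * n + T)) :=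
          mul_le_mul_of_nonneg_left h2 (by positivity)
      _ < Real.exp (2 * n + T) * Real.exp (-(2 * n + T)) :=
          mul_lt_mul_of_pos_right h4 (Real.exp_pos _)
      _ = 1 := by rw [← Real.exp_add]; simp
  rw [div_pow, mul_div_assoc', div_lt_one (by positivity)] at h10
  have h11 : ((4 ^ n * T * (T - 1) ^ (m * m) : ℕ) : ℝ) < ((T ^ (m * m) : ℕ) : ℝ) := by
    push_cast [Nat.cast_sub (show 1 ≤ T from hT)]
    exact h10
  exact_mod_cast h11

/-- The condition holds for large `n` when the number of labels is `O(log n)`. -/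
private theorem LabE_eventually (C : ℝ) : ∀ᶠ n : ℕ in Filter.atTop,
    ∀ T : ℕ, 0 < T → (T : ℝ) ≤ C * (1 + Real.log n) →
      T * (2 * n + T) ≤ (n / (2 * T)) * (n / (2 * T)) ∧ T ≤ n := by
  have h1 : (fun n : ℕ => (1 + Real.log n) ^ 3) =o[Filter.atTop] fun n : ℕ => (n : ℝ) := by
    have h2 : (fun x : ℝ => (1 + Real.log x) ^ 3) =o[Filter.atTop] fun x : ℝ => x := by
      have h3 : (fun x : ℝ => 1 + Real.log x) =o[Filter.atTop] fun x : ℝ => x ^ ((1 : ℝ) / 3) := by
        refine Asymptotics.IsLittleO.add ?_ (isLittleO_log_rpow_atTop (by norm_num))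
        refine (Asymptotics.isLittleO_const_left.2 (Or.inr ?_))
        have := tendsto_rpow_atTop (show (0 : ℝ) < 1 / 3 by norm_num)
        exact Filter.tendsto_abs_atTop_atTop.comp this
      have h4 := h3.pow (show 0 < 3 by norm_num)
      refine h4.congr' Filter.EventuallyEq.rfl ?_
      filter_upwards [Filter.eventually_ge_atTop (0 : ℝ)] with x hx
      rw [← Real.rpow_natCast, ← Real.rpow_mul hx]
      norm_num
    exact h2.comp_tendsto tendsto_natCast_atTop_atTop
  set K : ℝ := (|C| + 1) ^ 3 with hK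
  have hK1 : 1 ≤ K := by
    have : (1 : ℝ) ≤ |C| + 1 := by have := abs_nonneg C; linarith
    calc (1 : ℝ) = 1 ^ 3 := by norm_num
      _ ≤ K := pow_le_pow_left₀ (by norm_num) this 3
  have h2 := h1.def (show (0 : ℝ) < 1 / (100 * K) by positivity)
  filter_upwards [h2, Filter.eventually_ge_atTop 1] with n hn hn1 T hT hTC
  have hn0 : (1 : ℝ) ≤ n := by exact_mod_cast hn1
  have hlog : 0 ≤ Real.log n := Real.log_nonneg hn0
  rw [Real.norm_of_nonneg (by positivity), Real.norm_of_nonneg (by positivity)] at hn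
  have hT1 : (1 : ℝ) ≤ T := by exact_mod_cast hT
  have hTC' : (T : ℝ) ≤ (|C| + 1) * (1 + Real.log n) :=
    hTC.trans (mul_le_mul_of_nonneg_right (by have := le_abs_self C; linarith) (by linarith))
  have hT3 : 100 * (T : ℝ) ^ 3 ≤ n := by
    have h3 : (T : ℝ) ^ 3 ≤ K * (1 + Real.log n) ^ 3 := by
      rw [hK, ← mul_pow]
      exact pow_le_pow_left₀ (by linarith) hTC' 3
    have h4 : K * (1 + Real.log n) ^ 3 ≤ K * (1 / (100 * K) * n) :=
      mul_le_mul_of_nonneg_left hn (by positivity)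
    have h5 : K * (1 / (100 * K) * n) = n / 100 := by
      field_simp
    rw [h5] at h4
    linarith
  have hT3' : 100 * T ^ 3 ≤ n := by exact_mod_cast hT3
  have hTT : T ≤ T ^ 3 := by
    calc T = T ^ 1 := (pow_one T).symm
      _ ≤ T ^ 3 := Nat.pow_le_pow_right hT (by norm_num)
  have hT2 : T * T ≤ T ^ 3 := by
    calc T * T = T ^ 2 := by ring
      _ ≤ T ^ 3 := Nat.pow_le_pow_right hT (by norm_num)
  refine ⟨?_, by omega⟩
  -- `q = n / (2 T)` satisfies `n ≤ 4 T q`
  set q := n / (2 * T) with hq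
  have hq1 : n < 2 * T * (q + 1) := by
    have := Nat.lt_mul_div_succ n (show 0 < 2 * T by omega)
    rw [hq]
    exact this
  have hq2 : 1 ≤ q := by
    rw [hq, Nat.le_div_iff_mul_le (by omega)]
    omega
  have hq3 : n ≤ 4 * T * q := by
    have : 2 * T * (q + 1) ≤ 2 * T * (2 * q) := Nat.mul_le_mul le_rfl (by omega)
    have e : 2 * T * (2 * q) = 4 * T * q := by ring
    omega
  -- `q ≥ 25 T ^ 2`
  have hq4 : 25 * T ^ 2 ≤ q := by
    have h6 : 4 * T * (25 * T ^ 2) ≤ 4 * T * q := by
      have e : 4 * T * (25 * T ^ 2) = 100 * T ^ 3 := by ring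
      rw [e]
      exact hT3'.trans hq3
    exact Nat.le_of_mul_le_mul_left h6 (by omega)
  have h7 : T ≤ n := by omega
  calc T * (2 * n + T) ≤ T * (3 * n) := Nat.mul_le_mul le_rfl (by omega)
    _ ≤ T * (3 * (4 * T * q)) := Nat.mul_le_mul le_rfl (Nat.mul_le_mul le_rfl hq3)
    _ = (12 * T ^ 2) * q := by ring
    _ ≤ q * q := Nat.mul_le_mul (by omega) le_rfl

theorem exists_labels (C : ℝ) (hC : 0 ≤ C) : ∃ n R : ℕ, 1 ≤ n ∧ 1 ≤ R ∧ C * (1 + Real.log n) ≤ R ∧
    ∃ L : V n → V n → ℕ, (∀ u v, 1 ≤ L u v ∧ L u v ≤ R) ∧ Rich R L := by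
  classical
  obtain ⟨n, hn, hn1⟩ := ((LabE_eventually (C + 2)).and (Filter.eventually_ge_atTop 1)).exists
  have hlog : (0 : ℝ) ≤ Real.log n := Real.log_natCast_nonneg n
  have hx : 0 ≤ C * (1 + Real.log n) := by positivity
  obtain ⟨R, hR⟩ : ∃ R, R = ⌈C * (1 + Real.log n)⌉₊ + 1 := ⟨_, rfl⟩
  have hR1 : 1 ≤ R := by omega
  have hRC : C * (1 + Real.log n) ≤ R := by
    have := Nat.le_ceil (C * (1 + Real.log n))
    rw [hR]; push_cast; linarith
  have hR2 : (R : ℝ) ≤ (C + 2) * (1 + Real.log n) := by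
    have := (Nat.ceil_lt_add_one hx).le
    rw [hR]; push_cast; nlinarith
  obtain ⟨h1, h2⟩ := hn R (by omega) hR2
  have hm : n / (2 * R) ≤ n := Nat.div_le_self _ _
  obtain ⟨M, hM⟩ := LabE_of_le n R (n / (2 * R)) (by omega) hm h1
  refine ⟨n, R, hn1, hR1, hRC, fun u v => (M u.2 v.2 : ℕ) + 1, fun u v => ⟨Nat.succ_pos _, ?_⟩, ?_⟩
  · exact Nat.succ_le_of_lt (M u.2 v.2).isLt
  · intro U W g g' _ hU hW hUc hWc τ hτ1 hτR
    have key : ∀ (X : Finset (V n)) (g : Fin 3), (∀ u ∈ X, u.1 = g) → n ≤ 2 * R * X.card →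
        n / (2 * R) ≤ (X.image Prod.snd).card := by
      intro X g hX hXc
      rw [card_image_of_injOn]
      · exact Nat.div_le_of_le_mul hXc
      · intro a ha b hb hab
        exact Prod.ext ((hX a ha).trans (hX b hb).symm) hab
    obtain ⟨i, hi, j, hj, hij⟩ := hM (U.image Prod.snd) (W.image Prod.snd) (key U g hU hUc)
      (key W g' hW hWc) ⟨τ - 1, by omega⟩
    obtain ⟨u, hu, rfl⟩ := mem_image.1 hi
    obtain ⟨v, hv, rfl⟩ := mem_image.1 hj
    refine ⟨u, hu, v, hv, ?_⟩
    simp only [hij]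
    omega

end Pool.Agent.Lib.MP_d57abb_nt.EE
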