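import Mathlib
import Pool.Agent.Lib.MP_d57abb_nt.EE.CfgS
import Pool.Agent.Lib.MP_d57abb_nt.EE.BasJ
import Pool.Agent.Lib.MP_d57abb_nt.EE.LabE
import Pool.Agent.Lib.MP_d57abb_nt.EE.FnJ

/-!
# The joint law of the numbers of prime factors of `k² + 3 k + 1` with and without multiplicity
-/

open Finset

namespace Pool.Agent.Lib.MP_d57abb_nt.EE

theorem FJ_mono {r s w C C' N : ℕ} (h : C ≤ C') : FJ r s w C N ⊆ FJ r s w C' N := by
  intro k hk
  unfold FJ at hk ⊢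
  rw [mem_filter] at hk ⊢
  refine ⟨hk.1, hk.2.1, hk.2.2.1, fun p hp => ?_⟩
  rcases hk.2.2.2 p hp with h1 | h1
  · exact Or.inl h1
  · exact Or.inr (h1.trans (Nat.pow_le_pow_right (Nat.prime_of_mem_primeFactors hp).pos h))

theorem exact_joint : ∃ r₀ C : ℕ, ∀ r s : ℕ, Even r → r₀ ≤ s → s ≤ r → (Even s ∨ s + C ≤ r) →
    ∃ w N₀ : ℕ, ∀ N : ℕ, N₀ ≤ N → (N : ℝ) / Real.log N ^ C ≤ ((FJ r s w C N).card : ℝ) := by
  obtain ⟨C₃, hC₃, hmean⟩ := mean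
  obtain ⟨n, R, hn, hR, hCR, L, hL, hRich⟩ := exists_labels (8 * C₃) (by positivity)
  obtain ⟨K', C₂, hK', hm⟩ := hmean n hn
  obtain ⟨y, hc⟩ := exists_cfgS n L (fun u v => (hL u v).1)
  obtain ⟨F₀, hF⟩ := exists_baseJ (fun u v => (hL u v).1) hc
  refine ⟨2 * F₀ + 1, max (max (C₂ + 4) (8 * K')) (4 * n), fun r s hre hs hsr hC => ?_⟩
  set C := max (max (C₂ + 4) (8 * K')) (4 * n) with hCdef
  have hC1 : C₂ + 4 ≤ C := (le_max_left _ _).trans (le_max_left _ _)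
  have hC2 : 8 * K' ≤ C := (le_max_right _ _).trans (le_max_left _ _)
  have hC3 : 4 * n ≤ C := le_max_right _ _
  obtain ⟨m, hm2⟩ := hre
  have key : ∃ F F' κ : ℕ, F₀ ≤ F' ∧ F' ≤ F ∧ (κ = 0 ∨ κ = 1 ∧ F' + 2 * n ≤ F) ∧ 2 * F - 2 = r ∧
      2 * F' + κ - 2 = s := by
    rcases Nat.even_or_odd s with he | ho
    · obtain ⟨j, hj⟩ := he
      exact ⟨m + 1, j + 1, 0, by omega, by omega, Or.inl rfl, by omega, by omega⟩
    · obtain ⟨j, hj⟩ := ho
      have hsC : s + C ≤ r := by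
        rcases hC with h | h
        · exfalso
          obtain ⟨i, hi⟩ := h
          omega
        · exact h
      exact ⟨m + 1, j + 1, 1, by omega, by omega, Or.inr ⟨rfl, by omega⟩, by omega, by omega⟩
  obtain ⟨F, F', κ, h1, h2, h3, h4, h5⟩ := key
  obtain ⟨B, w, E, δ, P⟩ := hF F F' κ h1 h2 h3
  obtain ⟨N₀, h⟩ := fin_lowerJ hC₃ hK' hn hR hCR hm hRich P
  rw [h4, h5] at h
  refine ⟨w, max N₀ 3, fun N hN => ?_⟩
  have hN1 : N₀ ≤ N := (le_max_left _ _).trans hN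
  have hN3 : 3 ≤ N := (le_max_right _ _).trans hN
  have hlog : 1 ≤ Real.log N := by
    have h3 : (3 : ℝ) ≤ N := by exact_mod_cast hN3
    rw [Real.le_log_iff_exp_le (by linarith)]
    linarith [Real.exp_one_lt_d9]
  have h1 : (N : ℝ) / Real.log N ^ C ≤ (N : ℝ) / Real.log N ^ (C₂ + 4) :=
    div_le_div_of_nonneg_left (Nat.cast_nonneg _) (by positivity) (pow_le_pow_right₀ hlog hC1)
  have h2 : ((FJ r s w (8 * K') N).card : ℝ) ≤ ((FJ r s w C N).card : ℝ) := by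
    exact_mod_cast card_le_card (FJ_mono hC2)
  exact h1.trans ((h N hN1).trans h2)

end Pool.Agent.Lib.MP_d57abb_nt.EE
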