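import Mathlib
import Pool.Agent.Lib.MP_d57abb_nt.EE.MnE

/-!
# JOB MnS: the mean value with an exponent which does not depend on the configuration
-/

open Finset

namespace Pool.Agent.Lib.MP_d57abb_nt.EE

open Pool.Agent.Lib.MP_d57abb_nt Pool.Agent.Lib.MP_d57abb_nt.All Pool.Agent.Lib.MP_d57abb_nt.AP
  Pool.Agent.Lib.MP_d57abb_nt.Ev

theorem meanS : ∃ C₃ : ℝ, 0 < C₃ ∧ ∀ n : ℕ, 1 ≤ n → ∃ K' C : ℕ, 0 < K' ∧ ∀ (y : V n → ℕ) (w G B : ℕ), 24 * n ≤ w →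
    (∀ v, y v ≤ w) → 0 < G → (∀ q : ℕ, q.Prime → q ∣ G → q ≤ w) →
    ∃ a₀ : ℕ, ∀ a z : ℕ, a₀ ≤ a → a.Prime → z ^ K' ≤ a → a ≤ z ^ (2 * K') →
      (a : ℝ) / Real.log a ^ C ≤ ((SiftE y a G B w z).card : ℝ) ∧
      ∑ x ∈ SiftE y a G B w z, ∑ v : V n, (bOm z (nm (Xv y a x.1 x.2 v)).natAbs : ℝ) ≤
        C₃ * n * (1 + Real.log n) * ((SiftE y a G B w z).card : ℝ) := by
  exact mean

end Pool.Agent.Lib.MP_d57abb_nt.EE
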