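import Mathlib
import Pool.Agent.Lib.MP_d57abb_nt.EE.CfgS
import Pool.Agent.Lib.MP_d57abb_nt.EE.BasS
import Pool.Agent.Lib.MP_d57abb_nt.EE.LabE
import Pool.Agent.Lib.MP_d57abb_nt.EE.FnS
import Pool.Agent.Lib.MP_d57abb_nt.EE.MnS

/-!
# Squarefree values `k² + 3 k + 1` with an exact even number of prime factors
-/

open Finset

namespace Pool.Agent.Lib.MP_d57abb_nt.EE

theorem FS_mono {r w C C' N : ℕ} (h : C ≤ C') : FS r w C N ⊆ FS r w C' N := by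
  intro k hk
  unfold FS at hk ⊢
  rw [mem_filter] at hk ⊢
  refine ⟨hk.1, hk.2.1, hk.2.2.1, fun p hp => ?_⟩
  rcases hk.2.2.2 p hp with h1 | h1
  · exact Or.inl h1
  · exact Or.inr (h1.trans (Nat.pow_le_pow_right (Nat.prime_of_mem_primeFactors hp).pos h))

theorem exact_sqf : ∃ r₀ C : ℕ, ∀ r : ℕ, r₀ ≤ r → Even r → ∃ w N₀ : ℕ, ∀ N : ℕ, N₀ ≤ N →
    (N : ℝ) / Real.log N ^ C ≤ ((FS r w C N).card : ℝ) := by
  obtain ⟨C₃, hC₃, hmean⟩ := meanS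
  obtain ⟨n, R, hn, hR, hCR, L, hL, hRich⟩ := exists_labels (8 * C₃) (by positivity)
  obtain ⟨K', C₂, hK', hm⟩ := hmean n hn
  obtain ⟨y, hc⟩ := exists_cfgS n L (fun u v => (hL u v).1)
  obtain ⟨F₀, hF⟩ := exists_baseS (fun u v => (hL u v).1) hc 0
  refine ⟨2 * F₀, max (C₂ + 4) (8 * K'), fun r hr he => ?_⟩
  obtain ⟨m, hm2⟩ := he
  obtain ⟨B, w, E, δ, -, P⟩ := hF (m + 1) (by omega)
  obtain ⟨N₀, h⟩ := fin_lowerS hC₃ hK' hn hR hCR hm hRich P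
  have e : 2 * (m + 1) - 2 = r := by omega
  rw [e] at h
  refine ⟨w, max N₀ 3, fun N hN => ?_⟩
  have hN1 : N₀ ≤ N := (le_max_left _ _).trans hN
  have hN3 : 3 ≤ N := (le_max_right _ _).trans hN
  have hlog : 1 ≤ Real.log N := by
    have h3 : (3 : ℝ) ≤ N := by exact_mod_cast hN3
    rw [Real.le_log_iff_exp_le (by linarith)]
    linarith [Real.exp_one_lt_d9]
  have h1 : (N : ℝ) / Real.log N ^ max (C₂ + 4) (8 * K') ≤ (N : ℝ) / Real.log N ^ (C₂ + 4) :=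
    div_le_div_of_nonneg_left (Nat.cast_nonneg _) (by positivity) (pow_le_pow_right₀ hlog (le_max_left _ _))
  have h2 : ((FS r w (8 * K') N).card : ℝ) ≤ ((FS r w (max (C₂ + 4) (8 * K')) N).card : ℝ) := by
    exact_mod_cast card_le_card (FS_mono (le_max_right _ _))
  exact h1.trans ((h N hN1).trans h2)

end Pool.Agent.Lib.MP_d57abb_nt.EE
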